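import Pool.Agent.Lib.MP_a3b162_co.CS.Api

/-!
Graphs on a finite ordered set (campaign cs, group A): `InB`, `OutB` (between / outside of two
points) and `Extreme` (every edge is first or last at one of its ends, in the cyclic order).
-/

set_option autoImplicit false

namespace Pool.Agent.Lib.MP_a3b162_co.CS

open Finset
open scoped Classical

variable {V : Type}

/-- `p` is strictly between `b` and `c` -/
def InB (h : V → ℝ) (b c p : V) : Prop := (h b < h p ∧ h p < h c) ∨ (h c < h p ∧ h p < h b)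

/-- `q` is outside the interval between `b` and `c` -/
def OutB (h : V → ℝ) (b c q : V) : Prop := (h q < h b ∧ h q < h c) ∨ (h b < h q ∧ h c < h q)

/-- every edge is first or last at one of its ends -/
def Extreme (G : SimpleGraph V) (Z : Finset V) (h : V → ℝ) : Prop :=
  ∀ b ∈ Z, ∀ c ∈ Z, G.Adj b c →
    ¬ ((∃ p ∈ Z, G.Adj b p ∧ InB h b c p) ∧ (∃ q ∈ Z, G.Adj b q ∧ OutB h b c q) ∧
       (∃ p ∈ Z, G.Adj c p ∧ InB h b c p) ∧ (∃ q ∈ Z, G.Adj c q ∧ OutB h b c q))

/-- the edges of `G` inside `Z`, as pairs (smaller end, larger end) -/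
noncomputable def EE (G : SimpleGraph V) (Z : Finset V) (h : V → ℝ) : Finset (V × V) :=
  (Z ×ˢ Z).filter fun p => G.Adj p.1 p.2 ∧ h p.1 < h p.2

end Pool.Agent.Lib.MP_a3b162_co.CS
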