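import Pool.Agent.Lib.MP_a3b162_co.CS.AGen

/-!
Module ACh: small facts about chains.

* `Chain.ne_x`: `G.Adj (x i) z`, so `z ≠ x i`, for all `i`.
* `Chain.coinj`: `co_ne`. * `Chain.lt_iff`: `mono` in both directions.
* `sign_change`: let `A, B, C, D` be the four orientations of `a1 < a2 < a3 < a4` in the plane `k, i`
  (`A = a2 a3 a4`, `B = a1 a3 a4`, `C = a1 a2 a4`, `D = a1 a2 a3`), not zero by `Ar_ne`. By `Ar_cone` (all
  coordinate differences positive) `B` is a positive combination of `A, D` and of `A, C`; `C` is a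
  positive combination of `B, D` and of `A, D`. So the sequence of signs of `A, B, C, D` has at most one
  change.
-/

set_option autoImplicit false

namespace Pool.Agent.Lib.MP_a3b162_co.CS

open Finset
open scoped Classical

variable {V : Type} {G : SimpleGraph V} {u : V → Fin 4 → ℝ} {x : Fin 3 → V} {Z : Finset V}

theorem Chain.ne_x (h : Chain G u x Z) {z : V} (hz : z ∈ Z) (i : Fin 3) : z ≠ x i :=
  (h.adj i z hz).ne'

theorem Chain.coinj (h : Chain G u x Z) (k : Fin 3) {a b : V} (ha : a ∈ Z) (hb : b ∈ Z)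
    (hab : co u a k = co u b k) : a = b := by
  by_contra hne
  exact co_ne h.toChart (h.ne_x ha) (h.ne_x hb) hne k hab

theorem Chain.lt_iff (h : Chain G u x Z) {a b : V} (ha : a ∈ Z) (hb : b ∈ Z) (i j : Fin 3) :
    co u a i < co u b i ↔ co u a j < co u b j :=
  ⟨h.mono a ha b hb i j, h.mono a ha b hb j i⟩

theorem Chain.subset (h : Chain G u x Z) {Z' : Finset V} (hZ : Z' ⊆ Z) : Chain G u x Z' :=
  { toChart := h.toChart
    adj := fun i z hz => h.adj i z (hZ hz)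
    mono := fun a ha b hb => h.mono a (hZ ha) b (hZ hb) }

theorem ACh_pp {s p q X Y Z : ℝ} (hs : 0 < s) (hp : 0 < p) (hq : 0 < q) (h : s * X = p * Y + q * Z)
    (hY : 0 < Y) (hZ : 0 < Z) : 0 < X := by
  by_contra hn
  push Not at hn
  nlinarith [mul_pos hp hY, mul_pos hq hZ, mul_nonneg hs.le (neg_nonneg.2 hn)]

theorem ACh_nn {s p q X Y Z : ℝ} (hs : 0 < s) (hp : 0 < p) (hq : 0 < q) (h : s * X = p * Y + q * Z)
    (hY : Y < 0) (hZ : Z < 0) : X < 0 := by
  have h1 : 0 < -X := ACh_pp hs hp hq (Y := -Y) (Z := -Z) (by linarith) (by linarith) (by linarith)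
  linarith

theorem ACh_signs {t1 t2 t3 t4 A B C D : ℝ} (h12 : t1 < t2) (h23 : t2 < t3) (h34 : t3 < t4)
    (e1 : (t3 - t2) * B = (t3 - t1) * A + (t4 - t3) * D)
    (e2 : (t4 - t2) * B = (t4 - t1) * A + (t4 - t3) * C)
    (e3 : (t3 - t1) * C = (t2 - t1) * B + (t4 - t1) * D)
    (e4 : (t3 - t2) * C = (t2 - t1) * A + (t4 - t2) * D)
    (hA : A ≠ 0) (hB : B ≠ 0) (hC : C ≠ 0) (hD : D ≠ 0) :
    (A * B < 0 ∧ 0 < B * C ∧ 0 < C * D ∧ A * D < 0) ∨ (0 < A * B ∧ B * C < 0 ∧ 0 < C * D ∧ A * D < 0) ∨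
    (0 < A * B ∧ 0 < B * C ∧ C * D < 0 ∧ A * D < 0) ∨ (0 < A * B ∧ 0 < B * C ∧ 0 < C * D ∧ 0 < A * D) := by
  have p21 : 0 < t2 - t1 := by linarith
  have p31 : 0 < t3 - t1 := by linarith
  have p41 : 0 < t4 - t1 := by linarith
  have p32 : 0 < t3 - t2 := by linarith
  have p42 : 0 < t4 - t2 := by linarith
  have p43 : 0 < t4 - t3 := by linarith
  rcases lt_or_gt_of_ne hA with a | a
  · rcases lt_or_gt_of_ne hD with d | d
    · have b := ACh_nn p32 p31 p43 e1 a d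
      have c := ACh_nn p32 p21 p42 e4 a d
      exact Or.inr (Or.inr (Or.inr ⟨mul_pos_of_neg_of_neg a b, mul_pos_of_neg_of_neg b c,
        mul_pos_of_neg_of_neg c d, mul_pos_of_neg_of_neg a d⟩))
    · rcases lt_or_gt_of_ne hB with b | b
      · rcases lt_or_gt_of_ne hC with c | c
        · exact Or.inr (Or.inr (Or.inl ⟨mul_pos_of_neg_of_neg a b, mul_pos_of_neg_of_neg b c,
            mul_neg_of_neg_of_pos c d, mul_neg_of_neg_of_pos a d⟩))
        · exact Or.inr (Or.inl ⟨mul_pos_of_neg_of_neg a b, mul_neg_of_neg_of_pos b c,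
            mul_pos c d, mul_neg_of_neg_of_pos a d⟩)
      · rcases lt_or_gt_of_ne hC with c | c
        · have := ACh_nn p42 p41 p43 e2 a c
          linarith
        · exact Or.inl ⟨mul_neg_of_neg_of_pos a b, mul_pos b c, mul_pos c d,
            mul_neg_of_neg_of_pos a d⟩
  · rcases lt_or_gt_of_ne hD with d | d
    · rcases lt_or_gt_of_ne hB with b | b
      · rcases lt_or_gt_of_ne hC with c | c
        · exact Or.inl ⟨mul_neg_of_pos_of_neg a b, mul_pos_of_neg_of_neg b c,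
            mul_pos_of_neg_of_neg c d, mul_neg_of_pos_of_neg a d⟩
        · have := ACh_pp p42 p41 p43 e2 a c
          linarith
      · rcases lt_or_gt_of_ne hC with c | c
        · exact Or.inr (Or.inl ⟨mul_pos a b, mul_neg_of_pos_of_neg b c,
            mul_pos_of_neg_of_neg c d, mul_neg_of_pos_of_neg a d⟩)
        · exact Or.inr (Or.inr (Or.inl ⟨mul_pos a b, mul_pos b c,
            mul_neg_of_pos_of_neg c d, mul_neg_of_pos_of_neg a d⟩))
    · have b := ACh_pp p32 p31 p43 e1 a d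
      have c := ACh_pp p32 p21 p42 e4 a d
      exact Or.inr (Or.inr (Or.inr ⟨mul_pos a b, mul_pos b c, mul_pos c d, mul_pos a d⟩))

theorem sign_change (h : Chain G u x Z) {a1 a2 a3 a4 : V} (m1 : a1 ∈ Z) (m2 : a2 ∈ Z)
    (m3 : a3 ∈ Z) (m4 : a4 ∈ Z) (h12 : co u a1 0 < co u a2 0) (h23 : co u a2 0 < co u a3 0)
    (h34 : co u a3 0 < co u a4 0) {k i : Fin 3} (hki : k ≠ i) {A B C D : ℝ}
    (hA : A = Ar u k i a2 a3 a4) (hB : B = Ar u k i a1 a3 a4) (hC : C = Ar u k i a1 a2 a4)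
    (hD : D = Ar u k i a1 a2 a3) :
    (A * B < 0 ∧ 0 < B * C ∧ 0 < C * D ∧ A * D < 0) ∨ (0 < A * B ∧ B * C < 0 ∧ 0 < C * D ∧ A * D < 0) ∨
    (0 < A * B ∧ 0 < B * C ∧ C * D < 0 ∧ A * D < 0) ∨ (0 < A * B ∧ 0 < B * C ∧ 0 < C * D ∧ 0 < A * D) := by
  have n12 : a1 ≠ a2 := by rintro rfl; exact lt_irrefl _ h12
  have n23 : a2 ≠ a3 := by rintro rfl; exact lt_irrefl _ h23
  have n34 : a3 ≠ a4 := by rintro rfl; exact lt_irrefl _ h34
  have n13 : a1 ≠ a3 := by rintro rfl; exact lt_irrefl _ (h12.trans h23)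
  have n24 : a2 ≠ a4 := by rintro rfl; exact lt_irrefl _ (h23.trans h34)
  have n14 : a1 ≠ a4 := by rintro rfl; exact lt_irrefl _ ((h12.trans h23).trans h34)
  have k12 := h.mono a1 m1 a2 m2 0 k h12
  have k23 := h.mono a2 m2 a3 m3 0 k h23
  have k34 := h.mono a3 m3 a4 m4 0 k h34
  obtain ⟨e1, e2, e3, e4⟩ := Ar_cone (u := u) k i a1 a2 a3 a4
  rw [← hA, ← hB, ← hD] at e1
  rw [← hA, ← hB, ← hC] at e2
  rw [← hB, ← hC, ← hD] at e3
  rw [← hA, ← hC, ← hD] at e4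
  refine ACh_signs k12 k23 k34 e1 e2 e3 e4 ?_ ?_ ?_ ?_
  · rw [hA]
    exact Ar_ne h.toChart (h.ne_x m2) (h.ne_x m3) (h.ne_x m4) n23 n24 n34 hki
  · rw [hB]
    exact Ar_ne h.toChart (h.ne_x m1) (h.ne_x m3) (h.ne_x m4) n13 n14 n34 hki
  · rw [hC]
    exact Ar_ne h.toChart (h.ne_x m1) (h.ne_x m2) (h.ne_x m4) n12 n14 n24 hki
  · rw [hD]
    exact Ar_ne h.toChart (h.ne_x m1) (h.ne_x m2) (h.ne_x m3) n12 n13 n23 hki

end Pool.Agent.Lib.MP_a3b162_co.CS
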