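import Pool.Agent.Lib.MP_a3b162_co.CS.AGDefs

/-!
Module AInv: invariance of the hexagon rule and of general position under injective linear maps and
rescaling.

`hexRule_map`: if `Gale u' S d` then `Gale u S d'` for `d' v = (ρ v * (d v).1, ρ v * (d v).2)`:
`L (∑ (ρ v * (d v).1) • u v) = ∑ (d v).1 • u' v = 0` and `L` is injective. Brackets are multiplied by
`ρ a * ρ b`, so `Cyc d' a b c ↔ Cyc d a b c` (the product is multiplied by a square, not zero).
`gpv_map`: the same with `c' v = ρ v * c v`.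
-/

set_option autoImplicit false

namespace Pool.Agent.Lib.MP_a3b162_co.CS

open Finset
open scoped Classical

variable {V : Type} {G : SimpleGraph V} {u u' : V → Fin 4 → ℝ}

theorem AInv_sum (L : (Fin 4 → ℝ) →ₗ[ℝ] (Fin 4 → ℝ)) (hL : Function.Injective L) (ρ : V → ℝ)
    (hu : ∀ v, u' v = ρ v • L (u v)) (S : Finset V) (c : V → ℝ)
    (h : ∑ v ∈ S, c v • u' v = 0) : ∑ v ∈ S, (ρ v * c v) • u v = 0 := by
  apply hL
  rw [map_zero, map_sum, ← h]
  apply Finset.sum_congr rfl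
  intro v _
  rw [map_smul, hu v, smul_smul, mul_comm]

theorem hexRule_map (L : (Fin 4 → ℝ) →ₗ[ℝ] (Fin 4 → ℝ)) (hL : Function.Injective L) (ρ : V → ℝ)
    (hρ : ∀ v, ρ v ≠ 0) (hu : ∀ v, u' v = ρ v • L (u v)) (h : HexRule G u) : HexRule G u' := by
  intro S d hd p0 p1 p2 p3 p4 p5 hnd hS h1 h2 h3 h4
  have hc : ∀ a b c, Cyc d a b c →
      Cyc (fun v => (ρ v * (d v).1, ρ v * (d v).2)) a b c := by
    intro a b c habc
    unfold Cyc at habc ⊢
    have e : br (ρ a * (d a).1, ρ a * (d a).2) (ρ b * (d b).1, ρ b * (d b).2) *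
        br (ρ b * (d b).1, ρ b * (d b).2) (ρ c * (d c).1, ρ c * (d c).2) *
        br (ρ c * (d c).1, ρ c * (d c).2) (ρ a * (d a).1, ρ a * (d a).2) =
        (ρ a * ρ b * ρ c) ^ 2 * (br (d a) (d b) * br (d b) (d c) * br (d c) (d a)) := by
      unfold br
      ring
    show 0 < br (ρ a * (d a).1, ρ a * (d a).2) (ρ b * (d b).1, ρ b * (d b).2) *
        br (ρ b * (d b).1, ρ b * (d b).2) (ρ c * (d c).1, ρ c * (d c).2) *
        br (ρ c * (d c).1, ρ c * (d c).2) (ρ a * (d a).1, ρ a * (d a).2)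
    rw [e]
    have h0 : 0 < (ρ a * ρ b * ρ c) ^ 2 := by
      have := mul_ne_zero (mul_ne_zero (hρ a) (hρ b)) (hρ c)
      positivity
    exact mul_pos h0 habc
  exact h S (fun v => (ρ v * (d v).1, ρ v * (d v).2))
    ⟨AInv_sum L hL ρ hu S (fun v => (d v).1) hd.s1, AInv_sum L hL ρ hu S (fun v => (d v).2) hd.s2⟩
    p0 p1 p2 p3 p4 p5 hnd hS (hc _ _ _ h1) (hc _ _ _ h2) (hc _ _ _ h3) (hc _ _ _ h4)

theorem gpv_map (L : (Fin 4 → ℝ) →ₗ[ℝ] (Fin 4 → ℝ)) (hL : Function.Injective L) (ρ : V → ℝ)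
    (hρ : ∀ v, ρ v ≠ 0) (hu : ∀ v, u' v = ρ v • L (u v)) (h : GPV u) : GPV u' := by
  intro S hS c hc v hv
  have h1 := h S hS (fun v => ρ v * c v) (AInv_sum L hL ρ hu S c hc) v hv
  exact (mul_eq_zero.mp h1).resolve_left (hρ v)

end Pool.Agent.Lib.MP_a3b162_co.CS
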