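import Pool.Agent.Lib.MP_a3b162_co.CS.AHexa

/-!
Module AMed: in a hexagon of three points `x, y, w` and three points `a, b, c`, all nine pairs
adjacent, the points `x, y, w` are in the same gap of `a, b, c` (only `Hexa`, no geometry).

`med`: `C a b c`, `x` in the gap `(a, b)`: `C a x b`, `y` in the gap `(b, c)`: `C b y c`. Cut at `a`: the
order is `x, b, y, c` (`C a x b`, `C a b y`, `C a y c`; `C a b y` and `C a y c` follow from `C b y c`,
`C a b c` by `rot`, `trans`). The point `w` has one of five positions (`total`):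
before `x`: rule for `a, w, x, b, y, c`; between `x, b`: `a, x, w, b, y, c`; between `b, y`:
`a, x, b, w, y, c`; between `y, c`: `a, x, b, y, w, c`; after `c`: `a, x, b, y, c, w`. In each case the three
pairs (1st, 2nd), (3rd, 4th), (5th, 6th) are adjacent.

`med_all`: all cases. If `x` is in the gap `(a, b)` (`¬ C a b x`) then `y` is not in `(b, c)`: `med`. Not in
`(c, a)`: `med` with `(a, b, c) := (c, a, b)` and `x, y` exchanged.
-/

set_option autoImplicit false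

namespace Pool.Agent.Lib.MP_a3b162_co.CS

open Finset
open scoped Classical

variable {V : Type} {G : SimpleGraph V} {S : Finset V} {C : V → V → V → Prop}

theorem amed_nd {a b c x y w : V} (hn : [a, b, c, x, y, w].Nodup) :
    [a, b, c, y, x, w].Nodup ∧ [b, c, a, x, y, w].Nodup := by
  simp only [List.nodup_cons, List.mem_cons, List.not_mem_nil, or_false, not_or,
    List.nodup_nil, and_true, not_false_eq_true] at hn ⊢
  obtain ⟨⟨ab, ac, ax, ay, aw⟩, ⟨bc, bx, by', bw⟩, ⟨cx, cy, cw⟩, ⟨xy, xw⟩, yw⟩ := hn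
  exact ⟨⟨⟨ab, ac, ay, ax, aw⟩, ⟨bc, by', bx, bw⟩, ⟨cy, cx, cw⟩, ⟨Ne.symm xy, yw⟩, xw⟩,
    ⟨bc, Ne.symm ab, bx, by', bw⟩, ⟨Ne.symm ac, cx, cy, cw⟩, ⟨ax, ay, aw⟩, ⟨xy, xw⟩, yw⟩

theorem med (H : Hexa G S C) {a b c x y w : V} (ha : a ∈ S) (hb : b ∈ S) (hc : c ∈ S) (hx : x ∈ S)
    (hy : y ∈ S) (hw : w ∈ S) (hn : [a, b, c, x, y, w].Nodup)
    (xa : G.Adj x a) (xb : G.Adj x b) (xc : G.Adj x c) (ya : G.Adj y a) (yb : G.Adj y b)
    (yc : G.Adj y c) (wa : G.Adj w a) (wb : G.Adj w b) (wc : G.Adj w c)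
    (habc : C a b c) (h1 : C a x b) (h2 : C b y c) : False := by
  simp only [List.nodup_cons, List.mem_cons, List.not_mem_nil, or_false, not_or,
    List.nodup_nil, and_true, not_false_eq_true] at hn
  obtain ⟨⟨ab, ac, ax, ay, aw⟩, ⟨bc, bx, by', bw⟩, ⟨cx, cy, cw⟩, ⟨xy, xw⟩, yw⟩ := hn
  have h3 : C a b y := H.rot (H.rot (H.trans h2 (H.rot habc)))
  have h4 : C a y c := H.rot (H.trans (H.rot (H.rot habc)) (H.rot (H.rot h2)))
  rcases H.total ha hw hx aw (Ne.symm xw) ax with w1 | w1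
  · exact H.rule ha hw hx hb hy hc w1 h1 h3 h4 ⟨wa.symm, xb, yc⟩
  rcases H.total ha hw hb aw (Ne.symm bw) ab with w2 | w2
  · exact H.rule ha hx hw hb hy hc w1 w2 h3 h4 ⟨xa.symm, wb, yc⟩
  rcases H.total ha hw hy aw (Ne.symm yw) ay with w3 | w3
  · exact H.rule ha hx hb hw hy hc h1 w2 w3 h4 ⟨xa.symm, wb.symm, yc⟩
  rcases H.total ha hw hc aw (Ne.symm cw) ac with w4 | w4
  · exact H.rule ha hx hb hy hw hc h1 h3 w3 w4 ⟨xa.symm, yb.symm, wc⟩
  · exact H.rule ha hx hb hy hc hw h1 h3 h4 w4 ⟨xa.symm, yb.symm, wc.symm⟩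

/-- every point is in one of the three gaps -/
theorem amed_gap (H : Hexa G S C) {a b c x : V} (ha : a ∈ S) (hb : b ∈ S) (hc : c ∈ S)
    (hx : x ∈ S) (ab : a ≠ b) (ac : a ≠ c) (ax : a ≠ x) (bx : b ≠ x) (cx : c ≠ x)
    (habc : C a b c) : C a x b ∨ C b x c ∨ C c x a := by
  rcases H.total ha hx hb ax (Ne.symm bx) ab with h1 | h1
  · exact Or.inl h1
  rcases H.total ha hx hc ax (Ne.symm cx) ac with h2 | h2
  · exact Or.inr (Or.inl (H.rot (H.rot (H.trans (H.rot h2) (H.rot (H.rot h1))))))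
  · exact Or.inr (Or.inr (H.rot h2))

theorem amed_key (H : Hexa G S C) {a b c x y w : V} (ha : a ∈ S) (hb : b ∈ S) (hc : c ∈ S)
    (hx : x ∈ S) (hy : y ∈ S) (hw : w ∈ S) (hn : [a, b, c, x, y, w].Nodup)
    (xa : G.Adj x a) (xb : G.Adj x b) (xc : G.Adj x c) (ya : G.Adj y a) (yb : G.Adj y b)
    (yc : G.Adj y c) (wa : G.Adj w a) (wb : G.Adj w b) (wc : G.Adj w c)
    (habc : C a b c) (h1 : C a x b) : C a y b := by
  have hn' := hn
  simp only [List.nodup_cons, List.mem_cons, List.not_mem_nil, or_false, not_or,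
    List.nodup_nil, and_true, not_false_eq_true] at hn'
  obtain ⟨⟨ab, ac, ax, ay, aw⟩, ⟨bc, bx, by', bw⟩, ⟨cx, cy, cw⟩, ⟨xy, xw⟩, yw⟩ := hn'
  rcases amed_gap H ha hb hc hy ab ac ay by' cy habc with h2 | h2 | h2
  · exact h2
  · exact (med H ha hb hc hx hy hw hn xa xb xc ya yb yc wa wb wc habc h1 h2).elim
  · have hn1 := (amed_nd (amed_nd (amed_nd hn).1).2).2
    exact (med H hc ha hb hy hx hw hn1 yc ya yb xc xa xb wc wa wb (H.rot (H.rot habc)) h2 h1).elim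

theorem amed_iff (H : Hexa G S C) {a b c x y w : V} (ha : a ∈ S) (hb : b ∈ S) (hc : c ∈ S)
    (hx : x ∈ S) (hy : y ∈ S) (hw : w ∈ S) (hn : [a, b, c, x, y, w].Nodup)
    (xa : G.Adj x a) (xb : G.Adj x b) (xc : G.Adj x c) (ya : G.Adj y a) (yb : G.Adj y b)
    (yc : G.Adj y c) (wa : G.Adj w a) (wb : G.Adj w b) (wc : G.Adj w c)
    (habc : C a b c) (h1 : C a b x) : C a b y := by
  have hn' := hn
  simp only [List.nodup_cons, List.mem_cons, List.not_mem_nil, or_false, not_or,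
    List.nodup_nil, and_true, not_false_eq_true] at hn'
  obtain ⟨⟨ab, ac, ax, ay, aw⟩, ⟨bc, bx, by', bw⟩, ⟨cx, cy, cw⟩, ⟨xy, xw⟩, yw⟩ := hn'
  rcases H.total ha hb hy ab by' ay with h2 | h2
  · exact h2
  · exact (H.asymm h1 (amed_key H ha hb hc hy hx hw (amed_nd hn).1 ya yb yc xa xb xc wa wb wc
      habc h2)).elim

/-- two of the points `x, y, w` are in the same gap -/
theorem med_all (H : Hexa G S C) {a b c x y w : V} (ha : a ∈ S) (hb : b ∈ S) (hc : c ∈ S)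
    (hx : x ∈ S) (hy : y ∈ S) (hw : w ∈ S) (hn : [a, b, c, x, y, w].Nodup)
    (xa : G.Adj x a) (xb : G.Adj x b) (xc : G.Adj x c) (ya : G.Adj y a) (yb : G.Adj y b)
    (yc : G.Adj y c) (wa : G.Adj w a) (wb : G.Adj w b) (wc : G.Adj w c)
    (habc : C a b c) :
    (C a b x ↔ C a b y) ∧ (C b c x ↔ C b c y) ∧ (C c a x ↔ C c a y) := by
  have hn1 := (amed_nd hn).1
  have hn2 := (amed_nd hn).2
  have hn3 := (amed_nd hn1).2
  have hn4 := (amed_nd hn2).2
  have hn5 := (amed_nd hn3).2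
  refine ⟨⟨?_, ?_⟩, ⟨?_, ?_⟩, ⟨?_, ?_⟩⟩
  · exact amed_iff H ha hb hc hx hy hw hn xa xb xc ya yb yc wa wb wc habc
  · exact amed_iff H ha hb hc hy hx hw hn1 ya yb yc xa xb xc wa wb wc habc
  · exact amed_iff H hb hc ha hx hy hw hn2 xb xc xa yb yc ya wb wc wa (H.rot habc)
  · exact amed_iff H hb hc ha hy hx hw hn3 yb yc ya xb xc xa wb wc wa (H.rot habc)
  · exact amed_iff H hc ha hb hx hy hw hn4 xc xa xb yc ya yb wc wa wb (H.rot (H.rot habc))
  · exact amed_iff H hc ha hb hy hx hw hn5 yc ya yb xc xa xb wc wa wb (H.rot (H.rot habc))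

end Pool.Agent.Lib.MP_a3b162_co.CS
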