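import Pool.Agent.Lib.MP_a3b162_co.CS.AGale3
import Pool.Agent.Lib.MP_a3b162_co.CS.AMed
import Pool.Agent.Lib.MP_a3b162_co.CS.AInv

/-!
Module AChainE: from a chart to a chain.

`same_sign`: `gale3` for `a, b, c` and `med_all` (`x, y, w` = `x i, x j`, the third): `c` is not the
median in the coordinate `i` iff it is not the median in the coordinate `j`.
`chain_exists`: if `|Z| ≤ 1`: `u' = u` (`mono` is trivial). Otherwise, for `p ≠ q` in `Z` let
`φ_i p q = sign of (p_i - q_i)(p_0 - q_0)` (not zero by `co_ne`). By `same_sign` (with `c := p`)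
`φ_i p q = φ_i p r` for `q, r ≠ p`, and `φ_i` is symmetric, so it is a constant `σ_i = ± 1` (`σ_0 = 1`).
`L` = the diagonal map with entries `σ_0, σ_1, σ_2, 1`, `ρ (x i) = σ_i`, `ρ z = 1` otherwise,
`u' z = ρ z • L (u z)`: `hexRule_map`, `gpv_map`; `u' (x i) = σ_i^2 e_i = e_i`; the last coordinates do
not change; `co u' z i = σ_i * co u z i` for `z ∈ Z`, so `(p_i - q_i)(p_0 - q_0) > 0` for all `i` now.
-/

set_option autoImplicit false

namespace Pool.Agent.Lib.MP_a3b162_co.CS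

open Finset
open scoped Classical

variable {V : Type} {G : SimpleGraph V} {u : V → Fin 4 → ℝ} {x : Fin 3 → V}

theorem same_sign (h : Chart G u x) {a b c : V} (ha : ∀ i, G.Adj (x i) a)
    (hb : ∀ i, G.Adj (x i) b) (hc : ∀ i, G.Adj (x i) c) (hab : a ≠ b) (hac : a ≠ c) (hbc : b ≠ c)
    (i j : Fin 3) : 0 < (co u c i - co u a i) * (co u c i - co u b i) ↔
      0 < (co u c j - co u a j) * (co u c j - co u b j) := by
  by_cases hij : i = j
  · rw [hij]
  obtain ⟨k, hki, hkj⟩ : ∃ k : Fin 3, k ≠ i ∧ k ≠ j := by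
    revert i j; decide
  obtain ⟨C, H, habc, hC1, hC2, hC3, hC4⟩ := gale3 h (fun i => (ha i).ne') (fun i => (hb i).ne')
    (fun i => (hc i).ne') hab hac hbc
  have hxS : ∀ i, x i ∈ ({a, b, c, x 0, x 1, x 2} : Finset V) := by
    intro i
    fin_cases i <;> simp
  have hn : [a, b, c, x i, x j, x k].Nodup := by
    simp only [List.nodup_cons, List.mem_cons, List.not_mem_nil, or_false, not_or,
      not_false_eq_true, List.nodup_nil, and_true]
    exact ⟨⟨hab, hac, (ha i).ne', (ha j).ne', (ha k).ne'⟩, ⟨hbc, (hb i).ne', (hb j).ne', (hb k).ne'⟩,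
      ⟨(hc i).ne', (hc j).ne', (hc k).ne'⟩, ⟨fun e => hij (h.inj e), fun e => hki (h.inj e).symm⟩,
      fun e => hkj (h.inj e).symm⟩
  have hm := (med_all H (by simp) (by simp) (by simp) (hxS i) (hxS j) (hxS k) hn (ha i) (hb i) (hc i)
    (ha j) (hb j) (hc j) (ha k) (hb k) (hc k) habc).1
  rw [← hC1 i, ← hC1 j]
  exact hm

theorem chain_exists (h : Chart G u x) (Z : Finset V) (hZ : ∀ i, ∀ z ∈ Z, G.Adj (x i) z) :
    ∃ u' : V → Fin 4 → ℝ, Chain G u' x Z := by
  by_cases hne : ∃ p ∈ Z, ∃ q ∈ Z, p ≠ q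
  swap
  · push Not at hne
    refine ⟨u, { toChart := h, adj := hZ, mono := ?_ }⟩
    intro a ha b hb i j hlt
    rw [hne a ha b hb] at hlt
    exact absurd hlt (lt_irrefl _)
  obtain ⟨p0, hp0, q0, hq0, hpq0⟩ := hne
  have hx : ∀ z ∈ Z, ∀ i, z ≠ x i := fun z hz i => (hZ i z hz).ne'
  obtain ⟨F, hF⟩ : ∃ F : Fin 3 → V → V → ℝ,
      F = fun i p q => (co u p i - co u q i) * (co u p 0 - co u q 0) := ⟨_, rfl⟩
  have hFsymm : ∀ i p q, F i p q = F i q p := by
    intro i p q
    simp only [hF]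
    ring
  have hFne : ∀ i, ∀ p ∈ Z, ∀ q ∈ Z, p ≠ q → F i p q ≠ 0 := by
    intro i p hp q hq hpq
    simp only [hF]
    exact mul_ne_zero (sub_ne_zero.mpr (co_ne h (hx p hp) (hx q hq) hpq i))
      (sub_ne_zero.mpr (co_ne h (hx p hp) (hx q hq) hpq 0))
  -- step A
  have hA : ∀ i, ∀ p ∈ Z, ∀ q ∈ Z, ∀ r ∈ Z, p ≠ q → p ≠ r → 0 < F i p q → 0 < F i p r := by
    intro i p hp q hq r hr hpq hpr hpos
    by_cases hqr : q = r
    · rw [← hqr]; exact hpos
    have hs := same_sign h (a := q) (b := r) (c := p) (fun i => hZ i q hq) (fun i => hZ i r hr)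
      (fun i => hZ i p hp) hqr hpq.symm hpr.symm i 0
    have h1 := hFne i p hp r hr hpr
    have hn1 : co u p i - co u q i ≠ 0 := sub_ne_zero.mpr (co_ne h (hx p hp) (hx q hq) hpq i)
    have hn2 : co u p i - co u r i ≠ 0 := sub_ne_zero.mpr (co_ne h (hx p hp) (hx r hr) hpr i)
    have hn3 : co u p 0 - co u q 0 ≠ 0 := sub_ne_zero.mpr (co_ne h (hx p hp) (hx q hq) hpq 0)
    have hn4 : co u p 0 - co u r 0 ≠ 0 := sub_ne_zero.mpr (co_ne h (hx p hp) (hx r hr) hpr 0)
    simp only [hF] at hpos h1 ⊢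
    have key : 0 < ((co u p i - co u q i) * (co u p i - co u r i)) *
        ((co u p 0 - co u q 0) * (co u p 0 - co u r 0)) := by
      by_cases hc : 0 < (co u p i - co u q i) * (co u p i - co u r i)
      · exact mul_pos hc (hs.mp hc)
      · have hc' : ¬ 0 < (co u p 0 - co u q 0) * (co u p 0 - co u r 0) := fun hh => hc (hs.mpr hh)
        exact mul_pos_of_neg_of_neg (lt_of_le_of_ne (not_lt.mp hc) (mul_ne_zero hn1 hn2))
          (lt_of_le_of_ne (not_lt.mp hc') (mul_ne_zero hn3 hn4))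
    have key2 : 0 < ((co u p i - co u q i) * (co u p 0 - co u q 0)) *
        ((co u p i - co u r i) * (co u p 0 - co u r 0)) := by
      have e : ((co u p i - co u q i) * (co u p 0 - co u q 0)) *
        ((co u p i - co u r i) * (co u p 0 - co u r 0)) =
        ((co u p i - co u q i) * (co u p i - co u r i)) *
        ((co u p 0 - co u q 0) * (co u p 0 - co u r 0)) := by ring
      rw [e]; exact key
    exact (pos_iff_pos_of_mul_pos key2).mp hpos
  -- step B
  have hB : ∀ i, ∀ p ∈ Z, ∀ q ∈ Z, ∀ r ∈ Z, ∀ s ∈ Z, p ≠ q → r ≠ s → 0 < F i p q → 0 < F i r s := by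
    intro i p hp q hq r hr s hs hpq hrs hpos
    by_cases hpr : p = r
    · subst hpr
      exact hA i p hp q hq s hs hpq hrs hpos
    · have h1 := hA i p hp q hq r hr hpq hpr hpos
      rw [hFsymm] at h1
      exact hA i r hr p hp s hs (fun e => hpr e.symm) hrs h1
  obtain ⟨σ, hσ⟩ : ∃ σ : Fin 3 → ℝ, σ = fun i => if 0 < F i p0 q0 then 1 else -1 := ⟨_, rfl⟩
  have hσ2 : ∀ i, σ i * σ i = 1 := by
    intro i
    rw [hσ]
    by_cases hc : 0 < F i p0 q0
    · simp [hc]
    · simp [hc]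
  have hσ0 : ∀ i, σ i ≠ 0 := by
    intro i hi
    have := hσ2 i
    rw [hi] at this
    norm_num at this
  have hpos : ∀ i, ∀ p ∈ Z, ∀ q ∈ Z, p ≠ q → 0 < σ i * F i p q := by
    intro i p hp q hq hpq
    by_cases hc : 0 < F i p0 q0
    · have h1 := hB i p0 hp0 q0 hq0 p hp q hq hpq0 hpq hc
      have h2 : σ i = 1 := by rw [hσ]; simp [hc]
      rw [h2, one_mul]
      exact h1
    · have h1 : ¬ 0 < F i p q := fun hh => hc (hB i p hp q hq p0 hp0 q0 hq0 hpq hpq0 hh)
      have h2 : σ i = -1 := by rw [hσ]; simp [hc]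
      have h3 : F i p q < 0 := lt_of_le_of_ne (not_lt.mp h1) (hFne i p hp q hq hpq)
      rw [h2]
      linarith
  obtain ⟨τ, hτ, hτ3⟩ : ∃ τ : Fin 4 → ℝ, (∀ i : Fin 3, τ i.castSucc = σ i) ∧ τ 3 = 1 := by
    refine ⟨Fin.snoc (α := fun _ => ℝ) σ 1, fun i => Fin.snoc_castSucc (α := fun _ => ℝ) _ _ _, ?_⟩
    have : (3 : Fin 4) = Fin.last 3 := rfl
    rw [this, Fin.snoc_last (α := fun _ => ℝ)]
  have hτ0 : ∀ m, τ m ≠ 0 := by
    intro m
    refine Fin.lastCases ?_ (fun i => ?_) m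
    · have : Fin.last 3 = (3 : Fin 4) := rfl
      rw [this, hτ3]
      exact one_ne_zero
    · rw [hτ]
      exact hσ0 i
  let L : (Fin 4 → ℝ) →ₗ[ℝ] (Fin 4 → ℝ) :=
    { toFun := fun v m => τ m * v m
      map_add' := by
        intro v w
        funext m
        simp only [Pi.add_apply]
        ring
      map_smul' := by
        intro c v
        funext m
        simp only [Pi.smul_apply, smul_eq_mul, RingHom.id_apply]
        ring }
  have hLa : ∀ v m, L v m = τ m * v m := fun _ _ => rfl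
  have hLinj : Function.Injective L := by
    intro v w hvw
    funext m
    have h1 : L v m = L w m := by rw [hvw]
    rw [hLa, hLa] at h1
    exact mul_left_cancel₀ (hτ0 m) h1
  obtain ⟨ρ, hρx, hρ1⟩ : ∃ ρ : V → ℝ, (∀ i, ρ (x i) = σ i) ∧ ∀ z, (∀ i, z ≠ x i) → ρ z = 1 := by
    refine ⟨fun v => if hv : ∃ i, v = x i then σ hv.choose else 1, ?_, ?_⟩
    · intro i
      have hv : ∃ j, x i = x j := ⟨i, rfl⟩
      have e : hv.choose = i := (h.inj hv.choose_spec).symm
      simp only [dif_pos hv]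
      rw [e]
    · intro z hz
      have hv : ¬ ∃ j, z = x j := by
        rintro ⟨j, hj⟩
        exact hz j hj
      simp only [dif_neg hv]
  have hρ0 : ∀ v, ρ v ≠ 0 := by
    intro v
    by_cases hv : ∃ i, v = x i
    · obtain ⟨i, rfl⟩ := hv
      rw [hρx]
      exact hσ0 i
    · rw [hρ1 v (fun i hi => hv ⟨i, hi⟩)]
      exact one_ne_zero
  have hco : ∀ z ∈ Z, ∀ i, co (fun v => ρ v • L (u v)) z i = σ i * co u z i := by
    intro z hz i
    unfold co
    simp only [Pi.smul_apply, smul_eq_mul, hLa, hτ, hρ1 z (hx z hz), one_mul]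
  refine ⟨fun v => ρ v • L (u v), ⟨⟨?_, ?_, h.inj, ?_, ?_⟩, hZ, ?_⟩⟩
  · exact hexRule_map L hLinj ρ hρ0 (fun _ => rfl) h.hex
  · exact gpv_map L hLinj ρ hρ0 (fun _ => rfl) h.gp
  · intro i
    funext m
    simp only [Pi.smul_apply, smul_eq_mul, hLa, hρx]
    rw [h.xe i]
    by_cases hm : m = i.castSucc
    · rw [hm, Pi.single_eq_same, hτ, mul_one, hσ2]
    · rw [Pi.single_eq_of_ne hm, mul_zero, mul_zero]
  · intro z hz
    simp only [Pi.smul_apply, smul_eq_mul, hLa, hρ1 z hz, hτ3, h.one z hz, one_mul]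
  · intro a ha b hb i j hlt
    rw [hco a ha i, hco b hb i] at hlt
    rw [hco a ha j, hco b hb j]
    by_cases hab : a = b
    · rw [hab] at hlt
      exact absurd hlt (lt_irrefl _)
    have h1 := hpos i a ha b hb hab
    have h2 := hpos j a ha b hb hab
    simp only [hF] at h1 h2
    have h1' : 0 < (σ i * (co u a i - co u b i)) * (co u a 0 - co u b 0) := by
      have e : (σ i * (co u a i - co u b i)) * (co u a 0 - co u b 0) =
        σ i * ((co u a i - co u b i) * (co u a 0 - co u b 0)) := by ring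
      rw [e]; exact h1
    have h2' : 0 < (σ j * (co u a j - co u b j)) * (co u a 0 - co u b 0) := by
      have e : (σ j * (co u a j - co u b j)) * (co u a 0 - co u b 0) =
        σ j * ((co u a j - co u b j) * (co u a 0 - co u b 0)) := by ring
      rw [e]; exact h2
    have h3 : σ i * (co u a i - co u b i) < 0 := by linarith
    have h4 : co u a 0 - co u b 0 < 0 := (neg_iff_neg_of_mul_pos h1').mp h3
    have h5 : σ j * (co u a j - co u b j) < 0 := (neg_iff_neg_of_mul_pos h2').mpr h4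
    linarith

end Pool.Agent.Lib.MP_a3b162_co.CS
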