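import Pool.Agent.Lib.MP_a3b162_co.CS.AInv

/-!
Module AChart: existence of a chart.

The four vectors `v (x 0), v (x 1), v (x 2), v z0` are linearly independent (`GPV` for
`S = {x 0, x 1, x 2, z0}`, four elements), so they are a basis of `Fin 4 → ℝ`
(`basisOfLinearIndependentOfCardEqFinrank`); let `L` be the linear map which sends this basis to the
standard basis (`Basis.equivFun`): `L (v (x i)) = Pi.single i.castSucc 1`. For `z` different from the
`x i`: `L (v z) 3 ≠ 0`, otherwise `v z` is a linear combination of the `v (x i)`, against `GPV` for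
`S = {x 0, x 1, x 2, z}`. Put `ρ (x i) = 1`, `ρ z = (L (v z) 3)⁻¹` otherwise, `u z = ρ z • L (v z)`, and use
`hexRule_map`, `gpv_map`.
-/

set_option autoImplicit false

namespace Pool.Agent.Lib.MP_a3b162_co.CS

open Finset
open scoped Classical

variable {V : Type} {G : SimpleGraph V} {v : V → Fin 4 → ℝ}

theorem AChart_li (hG : GPV v) {w : Fin 4 → V} (hw : Function.Injective w) :
    LinearIndependent ℝ (fun i => v (w i)) := by
  rw [Fintype.linearIndependent_iff]
  intro g hg i
  have h1 := hG (univ.image w) (by rw [Finset.card_image_of_injective _ hw]; simp)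
    (Function.extend w g 0) (by
      rw [Finset.sum_image (fun a _ b _ h => hw h)]
      simp only [hw.extend_apply]
      exact hg) (w i) (Finset.mem_image_of_mem _ (Finset.mem_univ i))
  rwa [hw.extend_apply] at h1

theorem AChart_inj {x : Fin 3 → V} (hx : Function.Injective x) {z : V} (hz : ∀ i, z ≠ x i) :
    Function.Injective (Fin.snoc x z : Fin 4 → V) := by
  intro a b hab
  induction a using Fin.lastCases with
  | last =>
    induction b using Fin.lastCases with
    | last => rfl
    | cast b =>
      simp only [Fin.snoc_last, Fin.snoc_castSucc] at hab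
      exact absurd hab (hz b)
  | cast a =>
    induction b using Fin.lastCases with
    | last =>
      simp only [Fin.snoc_last, Fin.snoc_castSucc] at hab
      exact absurd hab.symm (hz a)
    | cast b =>
      simp only [Fin.snoc_castSucc] at hab
      rw [hx hab]

theorem chart_exists (hH : HexRule G v) (hG : GPV v) {x : Fin 3 → V} (hx : Function.Injective x)
    {z0 : V} (hz : ∀ i, z0 ≠ x i) : ∃ u, Chart G u x := by
  set w : Fin 4 → V := Fin.snoc x z0 with hwdef
  have hw : Function.Injective w := AChart_inj hx hz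
  have hli := AChart_li hG hw
  let b := basisOfLinearIndependentOfCardEqFinrank hli (by simp)
  have hb : ∀ i, b i = v (w i) := fun i => by simp [b]
  let L : (Fin 4 → ℝ) →ₗ[ℝ] (Fin 4 → ℝ) := b.equivFun.toLinearMap
  have hLi : Function.Injective L := b.equivFun.injective
  have hLb : ∀ i, L (v (w i)) = Pi.single i 1 := by
    intro i
    rw [← hb i]
    show b.equivFun (b i) = _
    ext j
    rw [Module.Basis.equivFun_self, Pi.single_apply]
    simp only [eq_comm]
  have hLx : ∀ i : Fin 3, L (v (x i)) = Pi.single i.castSucc 1 := by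
    intro i
    have h := hLb i.castSucc
    rwa [hwdef, Fin.snoc_castSucc] at h
  have hL3 : ∀ z, (∀ i, z ≠ x i) → L (v z) 3 ≠ 0 := by
    intro z hzx h0
    have hli' := AChart_li hG (AChart_inj hx hzx)
    rw [Fintype.linearIndependent_iff] at hli'
    have h1 := hli' (Fin.snoc (fun i : Fin 3 => L (v z) i.castSucc) (-1)) (by
      apply hLi
      rw [map_zero, Fin.sum_univ_castSucc, map_add, map_sum]
      simp only [Fin.snoc_castSucc, Fin.snoc_last, map_smul, hLx]
      ext j
      simp only [Pi.add_apply, Finset.sum_apply, Pi.smul_apply, Pi.single_apply, smul_eq_mul,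
        Pi.zero_apply]
      induction j using Fin.lastCases with
      | last =>
        have h3 : L (v z) (Fin.last 3) = 0 := h0
        rw [h3]
        simp only [mul_ite, mul_one, mul_zero, add_zero]
        exact Finset.sum_eq_zero (fun i _ => if_neg (Fin.castSucc_ne_last i).symm)
      | cast j =>
        simp) (Fin.last 3)
    rw [Fin.snoc_last] at h1
    norm_num at h1
  let ρ : V → ℝ := fun z => if ∃ i, z = x i then 1 else (L (v z) 3)⁻¹
  have hρ1 : ∀ i, ρ (x i) = 1 := fun i => if_pos ⟨i, rfl⟩
  have hρ2 : ∀ z, (∀ i, z ≠ x i) → ρ z = (L (v z) 3)⁻¹ := fun z hzx =>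
    if_neg (fun ⟨i, hi⟩ => hzx i hi)
  have hρ : ∀ z, ρ z ≠ 0 := by
    intro z
    by_cases h : ∃ i, z = x i
    · obtain ⟨i, rfl⟩ := h
      rw [hρ1]
      exact one_ne_zero
    · have h' : ∀ i, z ≠ x i := fun i hi => h ⟨i, hi⟩
      rw [hρ2 z h']
      exact inv_ne_zero (hL3 z h')
  refine ⟨fun z => ρ z • L (v z), hexRule_map L hLi ρ hρ (fun _ => rfl) hH,
    gpv_map L hLi ρ hρ (fun _ => rfl) hG, hx, ?_, ?_⟩
  · intro i
    show ρ (x i) • L (v (x i)) = _
    rw [hρ1, one_smul, hLx]
  · intro z hzx
    show ρ z * L (v z) 3 = 1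
    rw [hρ2 z hzx]
    exact inv_mul_cancel₀ (hL3 z hzx)

end Pool.Agent.Lib.MP_a3b162_co.CS
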