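import Pool.Agent.Lib.MP_a3b162_co.CS.AFL

/-!
Module ACirc: the circle lemma, linear form.

Hypotheses: `Extreme`; `b1` is the largest element of `Z`; `b1 c1` is an edge and no other edge has both
ends in `{v | h v ≤ h c1} ∪ {b1}` (the clockwise arc from `b1` to `c1`).

`extreme_FL`: for `(b, c) ∈ EE`: one of the four clauses of `Extreme` fails. No neighbour of `b`
between: `IsF b (b, c)`. No neighbour of `b` outside: `dnN b = ∅` and `c` is the largest neighbour: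
`IsL b (b, c)`. No neighbour of `c` between: `IsL c (b, c)`. No neighbour of `c` outside:
`IsF c (b, c)` (`upN c = ∅`, `b` the smallest neighbour).

`inner_min`: among the edges inside `[s, t]` take one with `h c - h b` minimal; it is `IsF b` and `IsL c`.

`circle_linear`: let `E = EE G Z h`.
(M1) `e1 = (c1, b1)` satisfies `IsF b1 e1` (`upN b1 = ∅`; a neighbour `w` of `b1` with `h w ≤ h c1` is
`c1`) and `IsL c1 e1` (`dnN c1 = ∅`; `b1` is the largest).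
Let `x` be the smallest vertex of `Z` with a neighbour in `Z`, `y` its smallest neighbour; `dnN x = ∅`,
`IsF x (x, y)`.
Case `upN y = ∅`: `IsF y (x, y)` (`x` is the smallest possible neighbour). Let `e2` be an inner minimal
edge. If `e2 ≠ e1`: `card_le_of_two` with `e1, e2` and `x, y`. If `e2 = e1`: `IsF c1 e1`, `IsL b1 e1` (from
`inner_min`), `card_le_of_one` with `x := c1`, `y := b1`.
Case `w ∈ upN y`: `e2` inner minimal in `[x, y]`, `e3` inner minimal in `[y, w]`, `e2 ≠ e3`. If `e1` is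
different from both: `card_le_of_three`. If `e1 = e2` or `e1 = e3`: `card_le_of_one` as before.
-/

set_option autoImplicit false

namespace Pool.Agent.Lib.MP_a3b162_co.CS

open Finset
open scoped Classical

variable {V : Type} {G : SimpleGraph V} {Z : Finset V} {h : V → ℝ}

theorem acirc_mem_up {v w : V} : w ∈ upN G Z h v ↔ w ∈ Z ∧ G.Adj v w ∧ h v < h w := by
  unfold upN
  rw [mem_filter]

theorem acirc_mem_dn {v w : V} : w ∈ dnN G Z h v ↔ w ∈ Z ∧ G.Adj v w ∧ h w < h v := by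
  unfold dnN
  rw [mem_filter]

theorem extreme_FL (hinj : ∀ a ∈ Z, ∀ b ∈ Z, h a = h b → a = b) (hE : Extreme G Z h)
    {e : V × V} (he : e ∈ EE G Z h) : ∃ v, IsF G Z h v e ∨ IsL G Z h v e := by
  obtain ⟨b, c⟩ := e
  obtain ⟨hb, hc, hadj, hlt⟩ := mem_EE.1 he
  dsimp only at hb hc hadj hlt
  have hcu : c ∈ upN G Z h b := acirc_mem_up.2 ⟨hc, hadj, hlt⟩
  have hbd : b ∈ dnN G Z h c := acirc_mem_dn.2 ⟨hb, hadj.symm, hlt⟩
  by_contra hcon
  apply hE b hb c hc hadj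
  refine ⟨?_, ?_, ?_, ?_⟩
  · by_contra hn
    apply hcon
    refine ⟨b, Or.inl ⟨hb, Or.inl ⟨rfl, hcu, ?_⟩⟩⟩
    intro w hw
    obtain ⟨hw1, hw2, hw3⟩ := acirc_mem_up.1 hw
    by_contra hlt'
    exact hn ⟨w, hw1, hw2, Or.inl ⟨hw3, lt_of_not_ge hlt'⟩⟩
  · by_contra hn
    apply hcon
    refine ⟨b, Or.inr ⟨hb, Or.inr ⟨?_, rfl, hcu, ?_⟩⟩⟩
    · rw [Finset.eq_empty_iff_forall_notMem]
      intro w hw
      obtain ⟨hw1, hw2, hw3⟩ := acirc_mem_dn.1 hw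
      exact hn ⟨w, hw1, hw2, Or.inl ⟨hw3, hw3.trans hlt⟩⟩
    · intro w hw
      obtain ⟨hw1, hw2, hw3⟩ := acirc_mem_up.1 hw
      by_contra hlt'
      exact hn ⟨w, hw1, hw2, Or.inr ⟨hw3, lt_of_not_ge hlt'⟩⟩
  · by_contra hn
    apply hcon
    refine ⟨c, Or.inr ⟨hc, Or.inl ⟨rfl, hbd, ?_⟩⟩⟩
    intro w hw
    obtain ⟨hw1, hw2, hw3⟩ := acirc_mem_dn.1 hw
    by_contra hlt'
    exact hn ⟨w, hw1, hw2, Or.inl ⟨lt_of_not_ge hlt', hw3⟩⟩
  · by_contra hn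
    apply hcon
    refine ⟨c, Or.inl ⟨hc, Or.inr ⟨?_, rfl, hbd, ?_⟩⟩⟩
    · rw [Finset.eq_empty_iff_forall_notMem]
      intro w hw
      obtain ⟨hw1, hw2, hw3⟩ := acirc_mem_up.1 hw
      exact hn ⟨w, hw1, hw2, Or.inr ⟨hlt.trans hw3, hw3⟩⟩
    · intro w hw
      obtain ⟨hw1, hw2, hw3⟩ := acirc_mem_dn.1 hw
      by_contra hlt'
      exact hn ⟨w, hw1, hw2, Or.inl ⟨lt_of_not_ge hlt', hw3⟩⟩

theorem inner_min (hinj : ∀ a ∈ Z, ∀ b ∈ Z, h a = h b → a = b) {s t : V} (hst : (s, t) ∈ EE G Z h) :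
    ∃ b c, (b, c) ∈ EE G Z h ∧ h s ≤ h b ∧ h c ≤ h t ∧ IsF G Z h b (b, c) ∧
      IsL G Z h c (b, c) := by
  obtain ⟨e, he, hmin⟩ := exists_min_image ((EE G Z h).filter fun e => h s ≤ h e.1 ∧ h e.2 ≤ h t)
    (fun e => h e.2 - h e.1) ⟨(s, t), mem_filter.2 ⟨hst, le_rfl, le_rfl⟩⟩
  obtain ⟨b, c⟩ := e
  obtain ⟨he1, he2, he3⟩ := mem_filter.1 he
  dsimp only at he2 he3
  obtain ⟨hb, hc, hadj, hlt⟩ := mem_EE.1 he1
  dsimp only at hb hc hadj hlt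
  have hcu : c ∈ upN G Z h b := acirc_mem_up.2 ⟨hc, hadj, hlt⟩
  have hbd : b ∈ dnN G Z h c := acirc_mem_dn.2 ⟨hb, hadj.symm, hlt⟩
  refine ⟨b, c, he1, he2, he3, ⟨hb, Or.inl ⟨rfl, hcu, ?_⟩⟩, ⟨hc, Or.inl ⟨rfl, hbd, ?_⟩⟩⟩
  · intro w hw
    obtain ⟨hw1, hw2, hw3⟩ := acirc_mem_up.1 hw
    show h c ≤ h w
    by_contra hlt'
    have h1 : h w < h c := lt_of_not_ge hlt'
    have h2 := hmin (b, w) (mem_filter.2 ⟨mem_EE.2 ⟨hb, hw1, hw2, hw3⟩, he2, h1.le.trans he3⟩)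
    dsimp only at h2
    linarith
  · intro w hw
    obtain ⟨hw1, hw2, hw3⟩ := acirc_mem_dn.1 hw
    show h w ≤ h b
    by_contra hlt'
    have h1 : h b < h w := lt_of_not_ge hlt'
    have h2 := hmin (w, c) (mem_filter.2 ⟨mem_EE.2 ⟨hw1, hc, hw2.symm, hw3⟩, he2.trans h1.le, he3⟩)
    dsimp only at h2
    linarith

theorem circle_linear (hinj : ∀ a ∈ Z, ∀ b ∈ Z, h a = h b → a = b) (hE : Extreme G Z h)
    {b1 c1 : V} (hb : b1 ∈ Z) (hc : c1 ∈ Z) (hbc : G.Adj b1 c1) (hmax : ∀ v ∈ Z, h v ≤ h b1)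
    (hmin : ∀ v ∈ Z, ∀ w ∈ Z, G.Adj v w → (h v ≤ h c1 ∨ v = b1) → (h w ≤ h c1 ∨ w = b1) →
      (v = b1 ∧ w = c1) ∨ (v = c1 ∧ w = b1)) :
    (EE G Z h).card + 3 ≤ 2 * Z.card := by
  have hlt : h c1 < h b1 := by
    rcases lt_or_eq_of_le (hmax c1 hc) with h1 | h1
    · exact h1
    · exact absurd (hinj _ hc _ hb h1).symm hbc.ne
  have hEE : ∀ e ∈ EE G Z h, ∃ v, IsF G Z h v e ∨ IsL G Z h v e := fun e he =>
    extreme_FL hinj hE he
  -- the edge from c1 to b1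
  have f1 : IsF G Z h b1 (c1, b1) := by
    refine ⟨hb, Or.inr ⟨?_, rfl, acirc_mem_dn.2 ⟨hc, hbc, hlt⟩, ?_⟩⟩
    · rw [Finset.eq_empty_iff_forall_notMem]
      intro w hw
      obtain ⟨hw1, -, hw3⟩ := acirc_mem_up.1 hw
      exact absurd (hmax w hw1) (not_le.2 hw3)
    · intro w hw
      obtain ⟨hw1, hw2, hw3⟩ := acirc_mem_dn.1 hw
      show h c1 ≤ h w
      by_contra hn
      have h1 : h w < h c1 := lt_of_not_ge hn
      rcases hmin b1 hb w hw1 hw2 (Or.inr rfl) (Or.inl h1.le) with h2 | h2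
      · rw [h2.2] at h1
        exact lt_irrefl _ h1
      · exact hbc.ne h2.1
  have l1 : IsL G Z h c1 (c1, b1) := by
    refine ⟨hc, Or.inr ⟨?_, rfl, acirc_mem_up.2 ⟨hb, hbc.symm, hlt⟩, ?_⟩⟩
    · rw [Finset.eq_empty_iff_forall_notMem]
      intro w hw
      obtain ⟨hw1, hw2, hw3⟩ := acirc_mem_dn.1 hw
      rcases hmin c1 hc w hw1 hw2 (Or.inl le_rfl) (Or.inl hw3.le) with h2 | h2
      · exact hbc.ne h2.1.symm
      · rw [h2.2] at hw3
        exact lt_asymm hlt hw3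
    · intro w hw
      exact hmax w (acirc_mem_up.1 hw).1
  -- an inner minimal edge equal to it
  have one : ∀ b c : V, IsF G Z h b (b, c) → IsL G Z h c (b, c) → (b, c) = (c1, b1) →
      (EE G Z h).card + 3 ≤ 2 * Z.card := by
    intro b c hf hl heq
    obtain ⟨rfl, rfl⟩ := Prod.mk.inj heq
    exact card_le_of_one hinj (EE G Z h) hEE (x := b) (y := c) hbc.ne.symm hf f1 l1 hl
  -- the smallest vertex with a neighbour
  obtain ⟨x, hx, hxmin⟩ := exists_min_image (Z.filter fun v => ∃ w ∈ Z, G.Adj v w) h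
    ⟨b1, mem_filter.2 ⟨hb, c1, hc, hbc⟩⟩
  obtain ⟨hxZ, w0, hw0, hxw0⟩ := mem_filter.1 hx
  have hxd : ∀ w ∈ Z, G.Adj x w → h x < h w := by
    intro w hw hxw
    have h1 := hxmin w (mem_filter.2 ⟨hw, x, hxZ, hxw.symm⟩)
    rcases lt_or_eq_of_le h1 with h2 | h2
    · exact h2
    · exact absurd (hinj _ hxZ _ hw h2) hxw.ne
  obtain ⟨y, hy, hymin⟩ := exists_min_image (upN G Z h x) h
    ⟨w0, acirc_mem_up.2 ⟨hw0, hxw0, hxd w0 hw0 hxw0⟩⟩
  obtain ⟨hyZ, hxy, hxylt⟩ := acirc_mem_up.1 hy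
  have fx : IsF G Z h x (x, y) := ⟨hxZ, Or.inl ⟨rfl, hy, hymin⟩⟩
  have hxyE : (x, y) ∈ EE G Z h := mem_EE.2 ⟨hxZ, hyZ, hxy, hxylt⟩
  obtain ⟨b2, c2, h2E, h2s, h2t, f2, l2⟩ := inner_min hinj hxyE
  rcases (upN G Z h y).eq_empty_or_nonempty with hye | ⟨w, hw⟩
  · have fy : IsF G Z h y (x, y) := by
      refine ⟨hyZ, Or.inr ⟨hye, rfl, acirc_mem_dn.2 ⟨hxZ, hxy.symm, hxylt⟩, ?_⟩⟩
      intro w hw
      obtain ⟨hw1, hw2, -⟩ := acirc_mem_dn.1 hw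
      exact hxmin w (mem_filter.2 ⟨hw1, y, hyZ, hw2.symm⟩)
    by_cases heq : (b2, c2) = (c1, b1)
    · exact one b2 c2 f2 l2 heq
    · exact card_le_of_two hinj (EE G Z h) hEE (Ne.symm heq) f1 l1 f2 l2 hxy.ne fx fy
  · obtain ⟨hwZ, hyw, hywlt⟩ := acirc_mem_up.1 hw
    have hywE : (y, w) ∈ EE G Z h := mem_EE.2 ⟨hyZ, hwZ, hyw, hywlt⟩
    obtain ⟨b3, c3, h3E, h3s, h3t, f3, l3⟩ := inner_min hinj hywE
    have h23 : (b2, c2) ≠ (b3, c3) := by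
      intro heq
      obtain ⟨rfl, rfl⟩ := Prod.mk.inj heq
      have h4 := (mem_EE.1 h3E).2.2.2
      dsimp only at h4
      linarith
    by_cases heq2 : (b2, c2) = (c1, b1)
    · exact one b2 c2 f2 l2 heq2
    · by_cases heq3 : (b3, c3) = (c1, b1)
      · exact one b3 c3 f3 l3 heq3
      · exact card_le_of_three hinj (EE G Z h) hEE (Ne.symm heq2) (Ne.symm heq3) h23
          f1 l1 f2 l2 f3 l3

end Pool.Agent.Lib.MP_a3b162_co.CS
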