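import Pool.Agent.Lib.MP_a3b162_co.CS.ACDefs

/-!
Module AEE: counting edges by ordered pairs.

`ee_eq`: `ee G Z Z` is the number of adjacent ordered pairs `(v, w)`, `v, w ∈ Z` (`ee`, `dg`, `nb` are
sums / cardinalities of filters); such a pair has `h v < h w` or `h w < h v` (`h` is injective on `Z`),
and `(v, w) ↦ (w, v)` is a bijection between the two kinds.
-/

set_option autoImplicit false

namespace Pool.Agent.Lib.MP_a3b162_co.CS

open Finset
open scoped Classical

variable {V : Type} {G : SimpleGraph V} {Z : Finset V} {h : V → ℝ}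

theorem mem_EE {p : V × V} : p ∈ EE G Z h ↔ p.1 ∈ Z ∧ p.2 ∈ Z ∧ G.Adj p.1 p.2 ∧ h p.1 < h p.2 := by
  unfold EE
  rw [Finset.mem_filter, Finset.mem_product]
  tauto

theorem ee_eq (hinj : ∀ a ∈ Z, ∀ b ∈ Z, h a = h b → a = b) :
    ee G Z Z = 2 * (EE G Z h).card := by
  have h1 : ee G Z Z = ((Z ×ˢ Z).filter fun p => G.Adj p.1 p.2).card := by
    unfold ee dg nb
    rw [Finset.card_filter, Finset.sum_product]
    apply Finset.sum_congr rfl
    intro v _
    rw [Finset.card_filter]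
  have h2 : ((Z ×ˢ Z).filter fun p => G.Adj p.1 p.2)
      = EE G Z h ∪ (Z ×ˢ Z).filter fun p => G.Adj p.1 p.2 ∧ h p.2 < h p.1 := by
    ext p
    unfold EE
    simp only [Finset.mem_union, Finset.mem_filter, Finset.mem_product]
    constructor
    · rintro ⟨⟨ha, hb⟩, hadj⟩
      rcases lt_trichotomy (h p.1) (h p.2) with hlt | heq | hgt
      · exact Or.inl ⟨⟨ha, hb⟩, hadj, hlt⟩
      · exact absurd (hinj _ ha _ hb heq) hadj.ne
      · exact Or.inr ⟨⟨ha, hb⟩, hadj, hgt⟩
    · rintro (⟨hz, hadj, -⟩ | ⟨hz, hadj, -⟩)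
      · exact ⟨hz, hadj⟩
      · exact ⟨hz, hadj⟩
  have h3 : Disjoint (EE G Z h) ((Z ×ˢ Z).filter fun p => G.Adj p.1 p.2 ∧ h p.2 < h p.1) := by
    rw [Finset.disjoint_left]
    intro p hp hq
    unfold EE at hp
    rw [Finset.mem_filter] at hp hq
    exact lt_asymm hp.2.2 hq.2.2
  have h4 : ((Z ×ˢ Z).filter fun p => G.Adj p.1 p.2 ∧ h p.2 < h p.1).card = (EE G Z h).card := by
    apply Finset.card_nbij' (fun p => (p.2, p.1)) (fun p => (p.2, p.1))
    · intro p hp
      unfold EE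
      simp only [Finset.mem_coe, Finset.mem_filter, Finset.mem_product] at hp ⊢
      exact ⟨⟨hp.1.2, hp.1.1⟩, hp.2.1.symm, hp.2.2⟩
    · intro p hp
      unfold EE at hp
      simp only [Finset.mem_coe, Finset.mem_filter, Finset.mem_product] at hp ⊢
      exact ⟨⟨hp.1.2, hp.1.1⟩, hp.2.1.symm, hp.2.2⟩
    · intro p _
      rfl
    · intro p _
      rfl
  rw [h1, h2, Finset.card_union_of_disjoint h3, h4]
  ring

end Pool.Agent.Lib.MP_a3b162_co.CS
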