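import Pool.Agent.Lib.MP_a3b162_co.CS.AEE

/-!
Module AFL: first and last edge of a vertex.

The vertices of `Z` are on a circle, in the order of `h` (`h` injective on `Z`). `IsF v e`: `e` is the
edge from `v` to the first neighbour met clockwise from `v` (first the larger neighbours, increasing,
then, if there are none, the smallest neighbour). `IsL v e`: `e` is the edge to the last neighbour.
Edges are pairs (smaller end, larger end).

* `isF_unique`, `isL_unique`: minimum / maximum of an injective function are unique (`e.1 = v` and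
  `e.2` is in the upper part in the first case, the second case has an empty upper part).
* `fl_count`: let `Z' ⊆ Z` be the set of the vertices with a neighbour in `Z`; choose `F v`, `L v` with
  `IsF v (F v)`, `IsL v (L v)` for `v ∈ Z'` (`isF_exists`, `isL_exists`: `exists_min_image` etc.). The set
  `{e | ∃ v, IsF v e}` is the image `F '' Z'`. The three conclusions: a set contained in
  `F '' Z'` has at most `|Z|` elements; if `F v = F v'` with `v ≠ v'` at most `|Z| - 1`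
  (`card_image` of `Z'.erase v`); union / intersection: `card_union_add_card_inter`.
-/

set_option autoImplicit false

namespace Pool.Agent.Lib.MP_a3b162_co.CS

open Finset
open scoped Classical

variable {V : Type} {G : SimpleGraph V} {Z : Finset V} {h : V → ℝ}

/-- larger neighbours -/
noncomputable def upN (G : SimpleGraph V) (Z : Finset V) (h : V → ℝ) (v : V) : Finset V :=
  Z.filter fun w => G.Adj v w ∧ h v < h w

/-- smaller neighbours -/
noncomputable def dnN (G : SimpleGraph V) (Z : Finset V) (h : V → ℝ) (v : V) : Finset V :=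
  Z.filter fun w => G.Adj v w ∧ h w < h v

/-- `e` is the first edge at `v` -/
def IsF (G : SimpleGraph V) (Z : Finset V) (h : V → ℝ) (v : V) (e : V × V) : Prop :=
  v ∈ Z ∧ ((e.1 = v ∧ e.2 ∈ upN G Z h v ∧ ∀ w ∈ upN G Z h v, h e.2 ≤ h w) ∨
    (upN G Z h v = ∅ ∧ e.2 = v ∧ e.1 ∈ dnN G Z h v ∧ ∀ w ∈ dnN G Z h v, h e.1 ≤ h w))

/-- `e` is the last edge at `v` -/
def IsL (G : SimpleGraph V) (Z : Finset V) (h : V → ℝ) (v : V) (e : V × V) : Prop :=
  v ∈ Z ∧ ((e.2 = v ∧ e.1 ∈ dnN G Z h v ∧ ∀ w ∈ dnN G Z h v, h w ≤ h e.1) ∨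
    (dnN G Z h v = ∅ ∧ e.1 = v ∧ e.2 ∈ upN G Z h v ∧ ∀ w ∈ upN G Z h v, h w ≤ h e.2))

theorem isF_unique (hinj : ∀ a ∈ Z, ∀ b ∈ Z, h a = h b → a = b) {v : V} {e e' : V × V}
    (h1 : IsF G Z h v e) (h2 : IsF G Z h v e') : e = e' := by
  obtain ⟨hv, h1⟩ := h1
  obtain ⟨_, h2⟩ := h2
  rcases h1 with ⟨a1, a2, a3⟩ | ⟨a0, a1, a2, a3⟩
  · rcases h2 with ⟨b1, b2, b3⟩ | ⟨b0, b1, b2, b3⟩
    · refine Prod.ext (a1.trans b1.symm) ?_
      exact hinj _ (Finset.mem_filter.mp a2).1 _ (Finset.mem_filter.mp b2).1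
        (le_antisymm (a3 _ b2) (b3 _ a2))
    · rw [b0] at a2
      exact absurd a2 (Finset.notMem_empty _)
  · rcases h2 with ⟨b1, b2, b3⟩ | ⟨b0, b1, b2, b3⟩
    · rw [a0] at b2
      exact absurd b2 (Finset.notMem_empty _)
    · refine Prod.ext ?_ (a1.trans b1.symm)
      exact hinj _ (Finset.mem_filter.mp a2).1 _ (Finset.mem_filter.mp b2).1
        (le_antisymm (a3 _ b2) (b3 _ a2))

theorem isL_unique (hinj : ∀ a ∈ Z, ∀ b ∈ Z, h a = h b → a = b) {v : V} {e e' : V × V}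
    (h1 : IsL G Z h v e) (h2 : IsL G Z h v e') : e = e' := by
  obtain ⟨hv, h1⟩ := h1
  obtain ⟨_, h2⟩ := h2
  rcases h1 with ⟨a1, a2, a3⟩ | ⟨a0, a1, a2, a3⟩
  · rcases h2 with ⟨b1, b2, b3⟩ | ⟨b0, b1, b2, b3⟩
    · refine Prod.ext ?_ (a1.trans b1.symm)
      exact hinj _ (Finset.mem_filter.mp a2).1 _ (Finset.mem_filter.mp b2).1
        (le_antisymm (b3 _ a2) (a3 _ b2))
    · rw [b0] at a2
      exact absurd a2 (Finset.notMem_empty _)
  · rcases h2 with ⟨b1, b2, b3⟩ | ⟨b0, b1, b2, b3⟩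
    · rw [a0] at b2
      exact absurd b2 (Finset.notMem_empty _)
    · refine Prod.ext (a1.trans b1.symm) ?_
      exact hinj _ (Finset.mem_filter.mp a2).1 _ (Finset.mem_filter.mp b2).1
        (le_antisymm (b3 _ a2) (a3 _ b2))

theorem isF_exists (hinj : ∀ a ∈ Z, ∀ b ∈ Z, h a = h b → a = b) {v w : V} (hv : v ∈ Z)
    (hw : w ∈ Z) (hvw : G.Adj v w) : ∃ e, IsF G Z h v e := by
  rcases Finset.eq_empty_or_nonempty (upN G Z h v) with h0 | h0
  · have hne : (dnN G Z h v).Nonempty := by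
      refine ⟨w, Finset.mem_filter.mpr ⟨hw, hvw, ?_⟩⟩
      rcases lt_trichotomy (h w) (h v) with hlt | heq | hgt
      · exact hlt
      · exact absurd (hinj _ hw _ hv heq) hvw.ne'
      · have : w ∈ upN G Z h v := Finset.mem_filter.mpr ⟨hw, hvw, hgt⟩
        rw [h0] at this
        exact absurd this (Finset.notMem_empty _)
    obtain ⟨b, hb, hmin⟩ := Finset.exists_min_image _ h hne
    exact ⟨(b, v), hv, Or.inr ⟨h0, rfl, hb, hmin⟩⟩
  · obtain ⟨b, hb, hmin⟩ := Finset.exists_min_image _ h h0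
    exact ⟨(v, b), hv, Or.inl ⟨rfl, hb, hmin⟩⟩

theorem isL_exists (hinj : ∀ a ∈ Z, ∀ b ∈ Z, h a = h b → a = b) {v w : V} (hv : v ∈ Z)
    (hw : w ∈ Z) (hvw : G.Adj v w) : ∃ e, IsL G Z h v e := by
  rcases Finset.eq_empty_or_nonempty (dnN G Z h v) with h0 | h0
  · have hne : (upN G Z h v).Nonempty := by
      refine ⟨w, Finset.mem_filter.mpr ⟨hw, hvw, ?_⟩⟩
      rcases lt_trichotomy (h w) (h v) with hlt | heq | hgt
      · have : w ∈ dnN G Z h v := Finset.mem_filter.mpr ⟨hw, hvw, hlt⟩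
        rw [h0] at this
        exact absurd this (Finset.notMem_empty _)
      · exact absurd (hinj _ hw _ hv heq) hvw.ne'
      · exact hgt
    obtain ⟨b, hb, hmax⟩ := Finset.exists_max_image _ h hne
    exact ⟨(v, b), hv, Or.inr ⟨h0, rfl, hb, hmax⟩⟩
  · obtain ⟨b, hb, hmax⟩ := Finset.exists_max_image _ h h0
    exact ⟨(b, v), hv, Or.inl ⟨rfl, hb, hmax⟩⟩

omit G Z h in
theorem cardP_le {P : V → V × V → Prop} {Z : Finset V} (hZ : ∀ v e, P v e → v ∈ Z)
    (hu : ∀ v e e', P v e → P v e' → e = e') (E : Finset (V × V))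
    (hE : ∀ e ∈ E, ∃ v, P v e) : E.card ≤ Z.card := by
  let g : V × V → V := fun e => if hh : ∃ v, P v e then hh.choose else e.1
  have hg : ∀ e ∈ E, P (g e) e := by
    intro e he
    have hh := hE e he
    have : g e = hh.choose := dif_pos hh
    rw [this]
    exact hh.choose_spec
  refine Finset.card_le_card_of_injOn g (fun e he => hZ _ _ (hg e he)) ?_
  intro e he e' he' hee
  have h2 := hg e' he'
  have hee' : g e = g e' := hee
  rw [← hee'] at h2
  exact hu _ _ _ (hg e he) h2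

omit G Z h in
theorem cardP_lt {P : V → V × V → Prop} {Z : Finset V} (hZ : ∀ v e, P v e → v ∈ Z)
    (hu : ∀ v e e', P v e → P v e' → e = e') (E : Finset (V × V))
    (hE : ∀ e ∈ E, ∃ v, P v e) {x y : V} (hxy : x ≠ y) {e : V × V} (hx : P x e) (hy : P y e) :
    E.card + 1 ≤ Z.card := by
  have hxZ : x ∈ Z := hZ _ _ hx
  have h1 : E.card ≤ (Z.erase x).card := by
    refine cardP_le (P := fun v e' => P v e' ∧ v ≠ x) ?_ ?_ E ?_
    · rintro v e' ⟨h1, h2⟩
      exact Finset.mem_erase.mpr ⟨h2, hZ _ _ h1⟩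
    · rintro v e' e'' ⟨h1, _⟩ ⟨h2, _⟩
      exact hu _ _ _ h1 h2
    · intro e' he'
      obtain ⟨v, hv⟩ := hE e' he'
      by_cases hvx : v = x
      · subst hvx
        have : e' = e := hu _ _ _ hv hx
        subst this
        exact ⟨y, hy, hxy.symm⟩
      · exact ⟨v, hv, hvx⟩
  have h2 := Finset.card_erase_add_one hxZ
  omega

/-- a set of edges which are first edges -/
theorem card_le_of_F (hinj : ∀ a ∈ Z, ∀ b ∈ Z, h a = h b → a = b) (E : Finset (V × V))
    (hE : ∀ e ∈ E, ∃ v, IsF G Z h v e) : E.card ≤ Z.card :=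
  cardP_le (P := IsF G Z h) (fun _ _ h1 => h1.1) (fun _ _ _ h1 h2 => isF_unique hinj h1 h2) E hE

omit G Z h in
theorem card_union_aux (E C : Finset (V × V)) (P Q : V × V → Prop)
    (hE : ∀ e ∈ E, P e ∨ Q e) (hC : ∀ e ∈ C, P e ∧ Q e) {a b : ℕ}
    (ha : ∀ S : Finset (V × V), (∀ e ∈ S, P e) → S.card ≤ a)
    (hb : ∀ S : Finset (V × V), (∀ e ∈ S, Q e) → S.card ≤ b) :
    E.card + C.card ≤ a + b := by
  have h1 : E ⊆ (E ∪ C).filter P ∪ (E ∪ C).filter Q := by
    intro e he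
    rcases hE e he with hp | hq
    · exact Finset.mem_union_left _ (Finset.mem_filter.mpr ⟨Finset.mem_union_left _ he, hp⟩)
    · exact Finset.mem_union_right _ (Finset.mem_filter.mpr ⟨Finset.mem_union_left _ he, hq⟩)
  have h2 : C ⊆ (E ∪ C).filter P ∩ (E ∪ C).filter Q := by
    intro e he
    exact Finset.mem_inter.mpr
      ⟨Finset.mem_filter.mpr ⟨Finset.mem_union_right _ he, (hC e he).1⟩,
        Finset.mem_filter.mpr ⟨Finset.mem_union_right _ he, (hC e he).2⟩⟩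
  have h3 := Finset.card_le_card h1
  have h4 := Finset.card_le_card h2
  have h5 := Finset.card_union_add_card_inter ((E ∪ C).filter P) ((E ∪ C).filter Q)
  have h6 := ha ((E ∪ C).filter P) (fun e he => (Finset.mem_filter.mp he).2)
  have h7 := hb ((E ∪ C).filter Q) (fun e he => (Finset.mem_filter.mp he).2)
  omega

theorem exists_or_split (E : Finset (V × V))
    (hE : ∀ e ∈ E, ∃ v, IsF G Z h v e ∨ IsL G Z h v e) :
    ∀ e ∈ E, (∃ v, IsF G Z h v e) ∨ (∃ v, IsL G Z h v e) := by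
  intro e he
  obtain ⟨v, hv | hv⟩ := hE e he
  · exact Or.inl ⟨v, hv⟩
  · exact Or.inr ⟨v, hv⟩

theorem boundF (hinj : ∀ a ∈ Z, ∀ b ∈ Z, h a = h b → a = b) (S : Finset (V × V))
    (hS : ∀ e ∈ S, ∃ v, IsF G Z h v e) : S.card ≤ Z.card :=
  cardP_le (P := IsF G Z h) (fun _ _ h1 => h1.1) (fun _ _ _ h1 h2 => isF_unique hinj h1 h2) S hS

theorem boundL (hinj : ∀ a ∈ Z, ∀ b ∈ Z, h a = h b → a = b) (S : Finset (V × V))
    (hS : ∀ e ∈ S, ∃ v, IsL G Z h v e) : S.card ≤ Z.card :=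
  cardP_le (P := IsL G Z h) (fun _ _ h1 => h1.1) (fun _ _ _ h1 h2 => isL_unique hinj h1 h2) S hS

theorem boundF' (hinj : ∀ a ∈ Z, ∀ b ∈ Z, h a = h b → a = b)
    {x y : V} (hxy : x ≠ y) {e : V × V} (fx : IsF G Z h x e) (fy : IsF G Z h y e)
    (S : Finset (V × V)) (hS : ∀ e ∈ S, ∃ v, IsF G Z h v e) : S.card ≤ Z.card - 1 := by
  have := cardP_lt (P := IsF G Z h) (Z := Z) (fun _ _ h1 => h1.1)
    (fun _ _ _ h1 h2 => isF_unique hinj h1 h2) S hS hxy fx fy
  omega

theorem boundL' (hinj : ∀ a ∈ Z, ∀ b ∈ Z, h a = h b → a = b)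
    {x y : V} (hxy : x ≠ y) {e : V × V} (fx : IsL G Z h x e) (fy : IsL G Z h y e)
    (S : Finset (V × V)) (hS : ∀ e ∈ S, ∃ v, IsL G Z h v e) : S.card ≤ Z.card - 1 := by
  have := cardP_lt (P := IsL G Z h) (Z := Z) (fun _ _ h1 => h1.1)
    (fun _ _ _ h1 h2 => isL_unique hinj h1 h2) S hS hxy fx fy
  omega

/-- first edges and last edges, three common ones -/
theorem card_le_of_three (hinj : ∀ a ∈ Z, ∀ b ∈ Z, h a = h b → a = b) (E : Finset (V × V))
    (hE : ∀ e ∈ E, ∃ v, IsF G Z h v e ∨ IsL G Z h v e)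
    {e1 e2 e3 : V × V} (h12 : e1 ≠ e2) (h13 : e1 ≠ e3) (h23 : e2 ≠ e3)
    {v1 w1 v2 w2 v3 w3 : V} (f1 : IsF G Z h v1 e1) (l1 : IsL G Z h w1 e1)
    (f2 : IsF G Z h v2 e2) (l2 : IsL G Z h w2 e2) (f3 : IsF G Z h v3 e3) (l3 : IsL G Z h w3 e3) :
    E.card + 3 ≤ 2 * Z.card := by
  have h0 := card_union_aux E {e1, e2, e3} (fun e => ∃ v, IsF G Z h v e)
    (fun e => ∃ v, IsL G Z h v e) (exists_or_split E hE) (by
      intro e he
      simp only [Finset.mem_insert, Finset.mem_singleton] at he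
      rcases he with rfl | rfl | rfl
      · exact ⟨⟨v1, f1⟩, ⟨w1, l1⟩⟩
      · exact ⟨⟨v2, f2⟩, ⟨w2, l2⟩⟩
      · exact ⟨⟨v3, f3⟩, ⟨w3, l3⟩⟩) (boundF hinj) (boundL hinj)
  have h1 : ({e1, e2, e3} : Finset (V × V)).card = 3 := by
    rw [Finset.card_insert_of_notMem, Finset.card_insert_of_notMem, Finset.card_singleton]
    · simpa using h23
    · simp only [Finset.mem_insert, Finset.mem_singleton]
      rintro (hh | hh)
      · exact h12 hh
      · exact h13 hh
  omega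

/-- first edges and last edges, two common ones, two vertices with the same first edge -/
theorem card_le_of_two (hinj : ∀ a ∈ Z, ∀ b ∈ Z, h a = h b → a = b) (E : Finset (V × V))
    (hE : ∀ e ∈ E, ∃ v, IsF G Z h v e ∨ IsL G Z h v e)
    {e1 e2 : V × V} (h12 : e1 ≠ e2)
    {v1 w1 v2 w2 : V} (f1 : IsF G Z h v1 e1) (l1 : IsL G Z h w1 e1)
    (f2 : IsF G Z h v2 e2) (l2 : IsL G Z h w2 e2)
    {x y : V} (hxy : x ≠ y) {e : V × V} (fx : IsF G Z h x e) (fy : IsF G Z h y e) :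
    E.card + 3 ≤ 2 * Z.card := by
  have h0 := card_union_aux E {e1, e2} (fun e => ∃ v, IsF G Z h v e)
    (fun e => ∃ v, IsL G Z h v e) (exists_or_split E hE) (by
      intro e he
      simp only [Finset.mem_insert, Finset.mem_singleton] at he
      rcases he with rfl | rfl
      · exact ⟨⟨v1, f1⟩, ⟨w1, l1⟩⟩
      · exact ⟨⟨v2, f2⟩, ⟨w2, l2⟩⟩) (boundF' hinj hxy fx fy) (boundL hinj)
  have h1 : ({e1, e2} : Finset (V × V)).card = 2 := Finset.card_pair h12
  have h2 : 1 ≤ Z.card := Finset.card_pos.mpr ⟨x, fx.1⟩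
  omega

/-- first edges and last edges, an edge which is first and last at both of its ends -/
theorem card_le_of_one (hinj : ∀ a ∈ Z, ∀ b ∈ Z, h a = h b → a = b) (E : Finset (V × V))
    (hE : ∀ e ∈ E, ∃ v, IsF G Z h v e ∨ IsL G Z h v e)
    {e : V × V} {x y : V} (hxy : x ≠ y) (fx : IsF G Z h x e) (fy : IsF G Z h y e)
    (lx : IsL G Z h x e) (ly : IsL G Z h y e) : E.card + 3 ≤ 2 * Z.card := by
  have h0 := card_union_aux E {e} (fun e => ∃ v, IsF G Z h v e)
    (fun e => ∃ v, IsL G Z h v e) (exists_or_split E hE) (by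
      intro e' he
      rw [Finset.mem_singleton] at he
      subst he
      exact ⟨⟨x, fx⟩, ⟨x, lx⟩⟩) (boundF' hinj hxy fx fy) (boundL' hinj hxy lx ly)
  have h1 : ({e} : Finset (V × V)).card = 1 := Finset.card_singleton e
  have h2 : 1 ≤ Z.card := Finset.card_pos.mpr ⟨x, fx.1⟩
  omega

/-- two families, one common member -/
theorem card_le_of_FL (hinj : ∀ a ∈ Z, ∀ b ∈ Z, h a = h b → a = b) (E : Finset (V × V))
    (A B : Finset V) (hA : A ⊆ Z) (hB : B ⊆ Z) (hAB : Disjoint A B)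
    (hE : ∀ e ∈ E, (∃ v ∈ A, IsF G Z h v e) ∨ (∃ v ∈ B, IsL G Z h v e))
    {e : V × V} {v w : V} (hv : v ∈ A) (hw : w ∈ B) (f : IsF G Z h v e) (l : IsL G Z h w e) :
    E.card + 1 ≤ Z.card := by
  have h0 := card_union_aux E {e} (fun e => ∃ v ∈ A, IsF G Z h v e)
    (fun e => ∃ v ∈ B, IsL G Z h v e) hE (by
      intro e' he
      rw [Finset.mem_singleton] at he
      subst he
      exact ⟨⟨v, hv, f⟩, ⟨w, hw, l⟩⟩)
    (cardP_le (P := fun v e => v ∈ A ∧ IsF G Z h v e) (Z := A) (fun _ _ h1 => h1.1)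
      (fun _ _ _ h1 h2 => isF_unique hinj h1.2 h2.2))
    (cardP_le (P := fun v e => v ∈ B ∧ IsL G Z h v e) (Z := B) (fun _ _ h1 => h1.1)
      (fun _ _ _ h1 h2 => isL_unique hinj h1.2 h2.2))
  have h1 : ({e} : Finset (V × V)).card = 1 := Finset.card_singleton e
  have h4 : A.card + B.card ≤ Z.card := by
    rw [← Finset.card_union_of_disjoint hAB]
    exact Finset.card_le_card (Finset.union_subset hA hB)
  omega

end Pool.Agent.Lib.MP_a3b162_co.CS
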