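import Pool.Agent.Lib.MP_a3b162_co.CS.AFL

/-!
Module AFor: the two counting lemmas for T2.

`forest_card`: (h1) no vertex has a smaller and a larger neighbour; (h2) no edge `l < u` has a
neighbour `p` of `l` and a neighbour `p'` of `u`, both strictly between `l` and `u`.
Let `A` = vertices of `Z` with a larger neighbour in `Z`, `B` = those with a smaller one; disjoint by
(h1). By (h2) every edge `(l, u)` is `IsF l (l, u)` (no `p`) or `IsL u (l, u)` (no `p'`), `l ∈ A`, `u ∈ B`.
If there is no edge: `ee = 0`, `Z` nonempty. Otherwise an edge `(b, c)` with `h c - h b` minimal is both,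
so `card_le_of_FL`, and `ee_eq`.

`cover_four`: no three pairwise disjoint edges inside `Z` => a cover with at most four vertices: no edge:
`∅`; else an edge `a b`; if some edge `c d` avoids `a, b`: `{a, b, c, d}` (an edge avoiding it would be
a third one); else `{a, b}`.
-/

set_option autoImplicit false

namespace Pool.Agent.Lib.MP_a3b162_co.CS

open Finset
open scoped Classical

variable {V : Type} {G : SimpleGraph V} {Z : Finset V} {h : V → ℝ}

theorem forest_card (hinj : ∀ a ∈ Z, ∀ b ∈ Z, h a = h b → a = b) (hne : Z.Nonempty)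
    (h1 : ∀ a ∈ Z, ∀ b ∈ Z, ∀ c ∈ Z, h a < h b → h b < h c → ¬ (G.Adj a b ∧ G.Adj b c))
    (h2 : ∀ l ∈ Z, ∀ u ∈ Z, ∀ p ∈ Z, ∀ q ∈ Z, G.Adj l u → G.Adj l p → G.Adj u q →
      h l < h p → h p < h u → h l < h q → h q < h u → False) :
    ee G Z Z + 2 ≤ 2 * Z.card := by
  classical
  rw [ee_eq hinj]
  have hZ : 0 < Z.card := hne.card_pos
  by_cases hE : (EE G Z h).Nonempty
  · suffices (EE G Z h).card + 1 ≤ Z.card by omega
    set A := Z.filter (fun v => ∃ w ∈ Z, G.Adj v w ∧ h v < h w) with hA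
    set B := Z.filter (fun v => ∃ w ∈ Z, G.Adj v w ∧ h w < h v) with hB
    have hAB : Disjoint A B := by
      rw [Finset.disjoint_left]
      intro v hvA hvB
      rw [hA, Finset.mem_filter] at hvA
      rw [hB, Finset.mem_filter] at hvB
      obtain ⟨hvZ, c, hc, hvc, hlt⟩ := hvA
      obtain ⟨_, a, ha, hva, hgt⟩ := hvB
      exact h1 a ha v hvZ c hc hgt hlt ⟨hva.symm, hvc⟩
    obtain ⟨e, he, hmin⟩ := Finset.exists_min_image (EE G Z h) (fun p => h p.2 - h p.1) hE
    have he' := mem_EE.1 he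
    obtain ⟨he1, he2, hadj, hlt⟩ := he'
    refine card_le_of_FL (G := G) hinj (EE G Z h) A B (Finset.filter_subset _ _) (Finset.filter_subset _ _)
      hAB ?_ (e := e) (v := e.1) (w := e.2) ?_ ?_ ?_ ?_
    · intro f hf
      obtain ⟨hf1, hf2, hfa, hfl⟩ := mem_EE.1 hf
      by_cases hp : ∃ p ∈ Z, G.Adj f.1 p ∧ h f.1 < h p ∧ h p < h f.2
      · right
        obtain ⟨p, hpZ, hpa, hp1, hp2⟩ := hp
        refine ⟨f.2, ?_, hf2, Or.inl ⟨rfl, ?_, ?_⟩⟩
        · rw [hB, Finset.mem_filter]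
          exact ⟨hf2, f.1, hf1, hfa.symm, hfl⟩
        · rw [dnN, Finset.mem_filter]
          exact ⟨hf1, hfa.symm, hfl⟩
        · intro w hw
          rw [dnN, Finset.mem_filter] at hw
          obtain ⟨hwZ, hwa, hwl⟩ := hw
          by_contra hcon
          push Not at hcon
          exact h2 f.1 hf1 f.2 hf2 p hpZ w hwZ hfa hpa hwa hp1 hp2 hcon hwl
      · left
        push Not at hp
        refine ⟨f.1, ?_, hf1, Or.inl ⟨rfl, ?_, ?_⟩⟩
        · rw [hA, Finset.mem_filter]
          exact ⟨hf1, f.2, hf2, hfa, hfl⟩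
        · rw [upN, Finset.mem_filter]
          exact ⟨hf2, hfa, hfl⟩
        · intro w hw
          rw [upN, Finset.mem_filter] at hw
          obtain ⟨hwZ, hwa, hwl⟩ := hw
          exact hp w hwZ hwa hwl
    · rw [hA, Finset.mem_filter]
      exact ⟨he1, e.2, he2, hadj, hlt⟩
    · rw [hB, Finset.mem_filter]
      exact ⟨he2, e.1, he1, hadj.symm, hlt⟩
    · refine ⟨he1, Or.inl ⟨rfl, ?_, ?_⟩⟩
      · rw [upN, Finset.mem_filter]
        exact ⟨he2, hadj, hlt⟩
      · intro w hw
        rw [upN, Finset.mem_filter] at hw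
        obtain ⟨hwZ, hwa, hwl⟩ := hw
        have hm := hmin (e.1, w) (mem_EE.2 ⟨he1, hwZ, hwa, hwl⟩)
        simp only at hm
        linarith
    · refine ⟨he2, Or.inl ⟨rfl, ?_, ?_⟩⟩
      · rw [dnN, Finset.mem_filter]
        exact ⟨he1, hadj.symm, hlt⟩
      · intro w hw
        rw [dnN, Finset.mem_filter] at hw
        obtain ⟨hwZ, hwa, hwl⟩ := hw
        have hm := hmin (w, e.2) (mem_EE.2 ⟨hwZ, he2, hwa.symm, hwl⟩)
        simp only at hm
        linarith
  · rw [Finset.not_nonempty_iff_eq_empty] at hE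
    rw [hE, Finset.card_empty]
    omega

theorem cover_four (hno : ∀ a1 b1 a2 b2 a3 b3 : V, [a1, b1, a2, b2, a3, b3].Nodup →
      (∀ v ∈ [a1, b1, a2, b2, a3, b3], v ∈ Z) → G.Adj a1 b1 → G.Adj a2 b2 → G.Adj a3 b3 → False) :
    ∃ C ⊆ Z, C.card ≤ 4 ∧ ∀ a ∈ Z, ∀ b ∈ Z, G.Adj a b → a ∈ C ∨ b ∈ C := by
  classical
  by_cases hab : ∃ a ∈ Z, ∃ b ∈ Z, G.Adj a b
  · obtain ⟨a, ha, b, hb, hadj⟩ := hab
    by_cases hcd : ∃ c ∈ Z, ∃ d ∈ Z, G.Adj c d ∧ c ≠ a ∧ c ≠ b ∧ d ≠ a ∧ d ≠ b
    · obtain ⟨c, hc, d, hd, hcd, hca, hcb, hda, hdb⟩ := hcd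
      refine ⟨{a, b, c, d}, ?_, Finset.card_le_four, ?_⟩
      · intro x hx
        simp only [Finset.mem_insert, Finset.mem_singleton] at hx
        rcases hx with rfl | rfl | rfl | rfl <;> assumption
      · intro x hx y hy hxy
        by_contra hcon
        push Not at hcon
        obtain ⟨hx', hy'⟩ := hcon
        simp only [Finset.mem_insert, Finset.mem_singleton, not_or] at hx' hy'
        obtain ⟨x1, x2, x3, x4⟩ := hx'
        obtain ⟨y1, y2, y3, y4⟩ := hy'
        refine hno a b c d x y ?_ ?_ hadj hcd hxy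
        · simp only [List.nodup_cons, List.mem_cons, List.not_mem_nil, or_false, not_or,
            not_false_eq_true, List.nodup_nil, and_true]
          exact ⟨⟨hadj.ne, hca.symm, hda.symm, Ne.symm x1, Ne.symm y1⟩,
            ⟨hcb.symm, hdb.symm, Ne.symm x2, Ne.symm y2⟩, ⟨hcd.ne, Ne.symm x3, Ne.symm y3⟩,
            ⟨Ne.symm x4, Ne.symm y4⟩, hxy.ne⟩
        · intro v hv
          simp only [List.mem_cons, List.not_mem_nil, or_false] at hv
          rcases hv with rfl | rfl | rfl | rfl | rfl | rfl <;> assumption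
    · refine ⟨{a, b}, ?_, le_trans Finset.card_le_two (by norm_num), ?_⟩
      · intro x hx
        simp only [Finset.mem_insert, Finset.mem_singleton] at hx
        rcases hx with rfl | rfl <;> assumption
      · intro x hx y hy hxy
        by_contra hcon
        push Not at hcon
        obtain ⟨hx', hy'⟩ := hcon
        simp only [Finset.mem_insert, Finset.mem_singleton, not_or] at hx' hy'
        exact hcd ⟨x, hx, y, hy, hxy, hx'.1, hx'.2, hy'.1, hy'.2⟩
  · push Not at hab
    exact ⟨∅, Finset.empty_subset _, by simp, fun a ha b hb hadj => absurd hadj (hab a ha b hb)⟩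

end Pool.Agent.Lib.MP_a3b162_co.CS
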