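import Pool.Agent.Lib.MP_a3b162_co.CS.Defs

/-!
Geometry of full pairs (campaign cs, group A): definitions.

* `br`, `Cyc`: orientation of two vectors of the plane; cyclic order of three lines.
* `Gale u S d`: `d` is a Gale diagram (two linear dependencies) of the vectors `u v`, `v ∈ S`.
* `HexRule G u`: the hexagon rule for the graph `G` and the vectors `u`.
* `Hexa G S C`: the six-element set `S` with a cyclic order `C` satisfying the rule.
* `Chart`, `Chain`: `x 0, x 1, x 2` are the first three unit vectors, all other vectors have last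
  coordinate `1`; in a chain the three coordinates define the same order on `Z`.
* `Ar u k i p q r`: orientation of three points in the plane of the coordinates `k`, `i`.
* `Tri G x q g`: four points `q 0, .., q 3` in cyclic order and the gaps `g` of the `x i`.
-/

set_option autoImplicit false

namespace Pool.Agent.Lib.MP_a3b162_co.CS

open Finset
open scoped Classical

variable {V : Type}

/-- orientation of two vectors of the plane -/
def br (a b : ℝ × ℝ) : ℝ := a.1 * b.2 - a.2 * b.1

/-- the lines spanned by `d a`, `d b`, `d c` are distinct and in this cyclic order -/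
def Cyc (d : V → ℝ × ℝ) (a b c : V) : Prop :=
  0 < br (d a) (d b) * br (d b) (d c) * br (d c) (d a)

/-- two linear dependencies of the vectors `u v`, `v ∈ S` -/
structure Gale (u : V → Fin 4 → ℝ) (S : Finset V) (d : V → ℝ × ℝ) : Prop where
  s1 : ∑ v ∈ S, (d v).1 • u v = 0
  s2 : ∑ v ∈ S, (d v).2 • u v = 0

/-- the hexagon rule: three alternate sides of a Gale hexagon are not all edges -/
def HexRule (G : SimpleGraph V) (u : V → Fin 4 → ℝ) : Prop :=
  ∀ (S : Finset V) (d : V → ℝ × ℝ), Gale u S d → ∀ p0 p1 p2 p3 p4 p5 : V,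
    [p0, p1, p2, p3, p4, p5].Nodup → S = {p0, p1, p2, p3, p4, p5} →
    Cyc d p0 p1 p2 → Cyc d p0 p2 p3 → Cyc d p0 p3 p4 → Cyc d p0 p4 p5 →
    ¬ (G.Adj p0 p1 ∧ G.Adj p2 p3 ∧ G.Adj p4 p5)

/-- every four vectors with different indices are linearly independent -/
def GPV (u : V → Fin 4 → ℝ) : Prop :=
  ∀ S : Finset V, S.card = 4 → ∀ c : V → ℝ, ∑ v ∈ S, c v • u v = 0 → ∀ v ∈ S, c v = 0

/-- general position, for finitely many vectors -/
def GP {n : ℕ} (v : Fin n → Fin 4 → ℝ) : Prop :=
  ∀ c : Fin n → ℝ, ∑ a, c a • v a = 0 → (univ.filter fun a => c a ≠ 0).card ≤ 4 → c = 0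

/-- the pair `i, j` is full -/
def FullA {n : ℕ} (v : Fin n → Fin 4 → ℝ) (i j : Fin n) : Prop :=
  i ≠ j ∧ ∀ c : Fin n → ℝ, ∑ a, c a • v a = 0 → c ≠ 0 →
    |c i| + |c j| < ∑ a ∈ univ \ {i, j}, |c a|

/-- the graph of full pairs -/
def fullGraphA {n : ℕ} (v : Fin n → Fin 4 → ℝ) : SimpleGraph (Fin n) where
  Adj i j := FullA v i j
  symm := ⟨fun i j h => ⟨h.1.symm, fun c h1 h2 => by
    rw [add_comm, Finset.pair_comm]; exact h.2 c h1 h2⟩⟩
  loopless := ⟨fun _ h => h.1 rfl⟩

/-- a set of six vertices with a cyclic order satisfying the hexagon rule -/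
structure Hexa (G : SimpleGraph V) (S : Finset V) (C : V → V → V → Prop) : Prop where
  card : S.card = 6
  rot : ∀ {a b c : V}, C a b c → C b c a
  asymm : ∀ {a b c : V}, C a b c → ¬ C a c b
  total : ∀ {a b c : V}, a ∈ S → b ∈ S → c ∈ S → a ≠ b → b ≠ c → a ≠ c → C a b c ∨ C a c b
  trans : ∀ {a b c d : V}, C a b c → C a c d → C a b d
  rule : ∀ {p0 p1 p2 p3 p4 p5 : V}, p0 ∈ S → p1 ∈ S → p2 ∈ S → p3 ∈ S → p4 ∈ S → p5 ∈ S →
    C p0 p1 p2 → C p0 p2 p3 → C p0 p3 p4 → C p0 p4 p5 →
    ¬ (G.Adj p0 p1 ∧ G.Adj p2 p3 ∧ G.Adj p4 p5)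

/-- the first three coordinates -/
def co (u : V → Fin 4 → ℝ) (z : V) (i : Fin 3) : ℝ := u z i.castSucc

/-- orientation of the points `p, q, r` in the plane of the coordinates `k`, `i` -/
def Ar (u : V → Fin 4 → ℝ) (k i : Fin 3) (p q r : V) : ℝ :=
  (co u q k - co u p k) * (co u r i - co u p i) - (co u r k - co u p k) * (co u q i - co u p i)

/-- chart: `x i` is the `i`-th unit vector, the last coordinate of the other vectors is `1` -/
structure Chart (G : SimpleGraph V) (u : V → Fin 4 → ℝ) (x : Fin 3 → V) : Prop where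
  hex : HexRule G u
  gp : GPV u
  inj : Function.Injective x
  xe : ∀ i : Fin 3, u (x i) = Pi.single i.castSucc 1
  one : ∀ z, (∀ i, z ≠ x i) → u z 3 = 1

/-- chain: moreover the points of `Z` are adjacent to the `x i` and the three coordinates define the
same order on `Z` -/
structure Chain (G : SimpleGraph V) (u : V → Fin 4 → ℝ) (x : Fin 3 → V) (Z : Finset V) : Prop
    extends Chart G u x where
  adj : ∀ i, ∀ z ∈ Z, G.Adj (x i) z
  mono : ∀ a ∈ Z, ∀ b ∈ Z, ∀ i j, co u a i < co u b i → co u a j < co u b j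

/-- four points `q 0, q 1, q 2, q 3` in cyclic order in every hexagon with two of the `x i`; in the
hexagon with `x i`, `x j` the point `x i` is in the gap `(q (g j), q (g j + 1))` and the point `x j`
is in the gap `(q (g i), q (g i + 1))`. -/
structure Tri (G : SimpleGraph V) (x : Fin 3 → V) (q : Fin 4 → V) (g : Fin 3 → Fin 4) : Prop where
  adj : ∀ i m, G.Adj (x i) (q m)
  xinj : Function.Injective x
  qinj : Function.Injective q
  hexa : ∀ i j, i ≠ j → ∃ C : V → V → V → Prop, Hexa G {q 0, q 1, q 2, q 3, x i, x j} C ∧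
    C (q 0) (q 1) (q 2) ∧ C (q 0) (q 2) (q 3) ∧
    (∀ m, C (q m) (q (m + 1)) (x i) ↔ g j ≠ m) ∧ (∀ m, C (q m) (q (m + 1)) (x j) ↔ g i ≠ m)

end Pool.Agent.Lib.MP_a3b162_co.CS
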