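import Pool.Agent.Lib.MP_a3b162_co.CS.AGDefs

/-!
Module AGen: general position in a chart.

`fin4_cases`: `decide` (after `revert`). A vector `w : Fin 4 → ℝ` is `0` iff its coordinates `3`,
`k.castSucc`, `i.castSucc`, `j.castSucc` are `0` (`k, i, j` the three elements of `Fin 3`).
* `co_ne`: if `co u a k = co u b k` then `u a - u b - (co u a i - co u b i) • u (x i) -
  (co u a j - co u b j) • u (x j) = 0`: against `GPV` for `{a, b, x i, x j}`.
* `Ar_ne`: if `Ar u k i p q r = 0`: the coefficients `q_k - r_k, r_k - p_k, p_k - q_k` of `p, q, r` (not zero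
  by `co_ne`) have sum `0`, kill the coordinate `k`, and the coordinate `i` (this is `± Ar`); with a
  suitable coefficient of `x j` a dependency of `{p, q, r, x j}`.
* `quad_ne`: put `A = Ar u k i a2 a3 a4`, `B = Ar u k i a1 a3 a4`, `A' = Ar u k j a2 a3 a4`,
  `B' = Ar u k j a1 a3 a4`. With `t_mn = co u am k - co u an k`, the coefficients
  `λ1 = (t43, 0)`, `λ2 = (0, t43)`, `λ3 = (-t41, -t42)`, `λ4 = (t31, t32)` of `a1..a4` satisfy: sum `0`,
  `∑ λ t = 0`, `∑ λm * co u am i = (B, A)`, `∑ λm * co u am j = (B', A')` (ring). If `B * A' = A * B'`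
  then the combination with `θ = (A, -B)` (that is `A * first component - B * second component`) is a
  dependency of `a1, a2, a3, a4` alone, with coefficient `A * t43 ≠ 0` at `a1`.
* `Ar_swap`, `Ar_rel`, `Ar_cone`, `Ar_perm`: ring.
-/

set_option autoImplicit false

namespace Pool.Agent.Lib.MP_a3b162_co.CS

open Finset
open scoped Classical

variable {V : Type} {G : SimpleGraph V} {u : V → Fin 4 → ℝ} {x : Fin 3 → V}

theorem fin4_cases {k i j : Fin 3} (hki : k ≠ i) (hkj : k ≠ j) (hij : i ≠ j) (m : Fin 4) :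
    m = 3 ∨ m = k.castSucc ∨ m = i.castSucc ∨ m = j.castSucc := by
  have h1 : k.1 ≠ i.1 := fun h => hki (Fin.ext h)
  have h2 : k.1 ≠ j.1 := fun h => hkj (Fin.ext h)
  have h3 : i.1 ≠ j.1 := fun h => hij (Fin.ext h)
  have h4 := k.isLt
  have h5 := i.isLt
  have h6 := j.isLt
  have h7 := m.isLt
  have h8 : m.1 = 3 ∨ m.1 = k.1 ∨ m.1 = i.1 ∨ m.1 = j.1 := by omega
  rcases h8 with h | h | h | h
  · exact Or.inl (Fin.ext h)
  · exact Or.inr (Or.inl (Fin.ext h))
  · exact Or.inr (Or.inr (Or.inl (Fin.ext h)))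
  · exact Or.inr (Or.inr (Or.inr (Fin.ext h)))

theorem vec_eq_zero {k i j : Fin 3} (hki : k ≠ i) (hkj : k ≠ j) (hij : i ≠ j) {w : Fin 4 → ℝ}
    (h3 : w 3 = 0) (hk : w k.castSucc = 0) (hi : w i.castSucc = 0) (hj : w j.castSucc = 0) :
    w = 0 := by
  funext m
  rcases fin4_cases hki hkj hij m with h | h | h | h
  · rw [h]; exact h3
  · rw [h]; exact hk
  · rw [h]; exact hi
  · rw [h]; exact hj

theorem agen_gp4 (h : GPV u) {a b c d : V} (hn : [a, b, c, d].Nodup) {α β γ δ : ℝ}
    (hs : α • u a + (β • u b + (γ • u c + δ • u d)) = 0) : α = 0 ∧ β = 0 ∧ γ = 0 ∧ δ = 0 := by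
  simp only [List.nodup_cons, List.mem_cons, List.not_mem_nil, or_false, not_or,
    List.nodup_nil, and_true] at hn
  obtain ⟨⟨hab, hac, had⟩, ⟨hbc, hbd⟩, hcd, -⟩ := hn
  have h1 := h {a, b, c, d}
    (by
      rw [Finset.card_insert_of_notMem (by simp [hab, hac, had]),
        Finset.card_insert_of_notMem (by simp [hbc, hbd]),
        Finset.card_insert_of_notMem (by simp [hcd]), Finset.card_singleton])
    (fun v => if v = a then α else if v = b then β else if v = c then γ else δ)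
    (by
      rw [Finset.sum_insert (by simp [hab, hac, had]),
        Finset.sum_insert (by simp [hbc, hbd]),
        Finset.sum_insert (by simp [hcd]), Finset.sum_singleton]
      simp only [if_true, if_neg (Ne.symm hab), if_neg (Ne.symm hac), if_neg (Ne.symm hbc),
        if_neg (Ne.symm had), if_neg (Ne.symm hbd), if_neg (Ne.symm hcd)]
      exact hs)
  have h2 := h1 a (by simp)
  have h3 := h1 b (by simp)
  have h4 := h1 c (by simp)
  have h5 := h1 d (by simp)
  simp only [if_true, if_neg (Ne.symm hab), if_neg (Ne.symm hac), if_neg (Ne.symm hbc),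
    if_neg (Ne.symm had), if_neg (Ne.symm hbd), if_neg (Ne.symm hcd)] at h2 h3 h4 h5
  exact ⟨h2, h3, h4, h5⟩

theorem agen_x3 (h : Chart G u x) (i : Fin 3) : u (x i) 3 = 0 := by
  rw [h.xe i]
  have h1 : (3 : Fin 4) ≠ i.castSucc := by
    revert i
    decide
  exact Pi.single_eq_of_ne h1 1

theorem agen_xx (h : Chart G u x) (i : Fin 3) : u (x i) i.castSucc = 1 := by
  rw [h.xe i]
  exact Pi.single_eq_same _ _

theorem agen_xk (h : Chart G u x) {k i : Fin 3} (hki : k ≠ i) : u (x i) k.castSucc = 0 := by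
  rw [h.xe i]
  have h1 : k.castSucc ≠ i.castSucc := fun h2 => hki (Fin.castSucc_injective 3 h2)
  exact Pi.single_eq_of_ne h1 1

theorem agen_two (k : Fin 3) : ∃ i j : Fin 3, k ≠ i ∧ k ≠ j ∧ i ≠ j := by
  revert k
  decide

theorem agen_three {k i : Fin 3} (h : k ≠ i) : ∃ j : Fin 3, k ≠ j ∧ i ≠ j := by
  revert k i
  decide

theorem co_ne (h : Chart G u x) {a b : V} (ha : ∀ i, a ≠ x i) (hb : ∀ i, b ≠ x i) (hab : a ≠ b)
    (k : Fin 3) : co u a k ≠ co u b k := by
  intro he
  obtain ⟨i, j, hki, hkj, hij⟩ := agen_two k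
  have hn : [a, b, x i, x j].Nodup := by
    simp only [List.nodup_cons, List.mem_cons, List.not_mem_nil, or_false, not_or,
      List.nodup_nil, and_true, not_false_eq_true]
    exact ⟨⟨hab, ha i, ha j⟩, ⟨hb i, hb j⟩, fun h1 => hij (h.inj h1)⟩
  have h1 := agen_gp4 h.gp hn (α := 1) (β := -1) (γ := -(co u a i - co u b i))
    (δ := -(co u a j - co u b j)) (by
      apply vec_eq_zero hki hkj hij
      · simp only [Pi.add_apply, Pi.smul_apply, smul_eq_mul, agen_x3 h, h.one a ha, h.one b hb]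
        ring
      · simp only [Pi.add_apply, Pi.smul_apply, smul_eq_mul, agen_xk h hki, agen_xk h hkj]
        have h2 : u a k.castSucc = u b k.castSucc := he
        rw [h2]
        ring
      · simp only [Pi.add_apply, Pi.smul_apply, smul_eq_mul, agen_xx h, agen_xk h hij]
        unfold co
        ring
      · simp only [Pi.add_apply, Pi.smul_apply, smul_eq_mul, agen_xx h, agen_xk h hij.symm]
        unfold co
        ring)
  exact one_ne_zero h1.1

theorem Ar_ne (h : Chart G u x) {p q r : V} (hp : ∀ i, p ≠ x i) (hq : ∀ i, q ≠ x i)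
    (hr : ∀ i, r ≠ x i) (hpq : p ≠ q) (hpr : p ≠ r) (hqr : q ≠ r) {k i : Fin 3} (hki : k ≠ i) :
    Ar u k i p q r ≠ 0 := by
  intro he
  obtain ⟨j, hkj, hij⟩ := agen_three hki
  have hn : [p, q, r, x j].Nodup := by
    simp only [List.nodup_cons, List.mem_cons, List.not_mem_nil, or_false, not_or,
      List.nodup_nil, and_true, not_false_eq_true]
    exact ⟨⟨hpq, hpr, hp j⟩, ⟨hqr, hq j⟩, hr j⟩
  have h1 := agen_gp4 h.gp hn (α := co u q k - co u r k) (β := co u r k - co u p k)
    (γ := co u p k - co u q k)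
    (δ := -((co u q k - co u r k) * co u p j + (co u r k - co u p k) * co u q j +
      (co u p k - co u q k) * co u r j)) (by
      apply vec_eq_zero hki hkj hij
      · simp only [Pi.add_apply, Pi.smul_apply, smul_eq_mul, agen_x3 h, h.one p hp, h.one q hq,
          h.one r hr]
        ring
      · simp only [Pi.add_apply, Pi.smul_apply, smul_eq_mul, agen_xk h hkj]
        unfold co
        ring
      · simp only [Pi.add_apply, Pi.smul_apply, smul_eq_mul, agen_xk h hij]
        unfold Ar co at he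
        unfold co
        linear_combination - he
      · simp only [Pi.add_apply, Pi.smul_apply, smul_eq_mul, agen_xx h]
        unfold co
        ring)
  exact co_ne h hq hr hqr k (sub_eq_zero.mp h1.1)

theorem quad_ne (h : Chart G u x) {a1 a2 a3 a4 : V} (h1 : ∀ i, a1 ≠ x i) (h2 : ∀ i, a2 ≠ x i)
    (h3 : ∀ i, a3 ≠ x i) (h4 : ∀ i, a4 ≠ x i) (hn : [a1, a2, a3, a4].Nodup) {k i j : Fin 3}
    (hki : k ≠ i) (hkj : k ≠ j) (hij : i ≠ j) :
    Ar u k i a1 a3 a4 * Ar u k j a2 a3 a4 ≠ Ar u k i a2 a3 a4 * Ar u k j a1 a3 a4 := by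
  intro he
  have hn' := hn
  simp only [List.nodup_cons, List.mem_cons, List.not_mem_nil, or_false, not_or,
    List.nodup_nil, and_true] at hn'
  obtain ⟨⟨h12, h13, h14⟩, ⟨h23, h24⟩, h34, -⟩ := hn'
  have hA := Ar_ne h h2 h3 h4 h23 h24 h34 hki
  have ht := co_ne h h4 h3 (Ne.symm h34) k
  have h5 := agen_gp4 h.gp hn
    (α := Ar u k i a2 a3 a4 * (co u a4 k - co u a3 k))
    (β := - (Ar u k i a1 a3 a4 * (co u a4 k - co u a3 k)))
    (γ := - (Ar u k i a2 a3 a4 * (co u a4 k - co u a1 k)) +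
      Ar u k i a1 a3 a4 * (co u a4 k - co u a2 k))
    (δ := Ar u k i a2 a3 a4 * (co u a3 k - co u a1 k) -
      Ar u k i a1 a3 a4 * (co u a3 k - co u a2 k)) (by
      apply vec_eq_zero hki hkj hij
      · simp only [Pi.add_apply, Pi.smul_apply, smul_eq_mul, h.one a1 h1, h.one a2 h2,
          h.one a3 h3, h.one a4 h4]
        ring
      · simp only [Pi.add_apply, Pi.smul_apply, smul_eq_mul]
        unfold Ar co
        ring
      · simp only [Pi.add_apply, Pi.smul_apply, smul_eq_mul]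
        unfold Ar co
        ring
      · simp only [Pi.add_apply, Pi.smul_apply, smul_eq_mul]
        unfold Ar co at he
        unfold Ar co
        linear_combination - he)
  exact (mul_ne_zero hA (sub_ne_zero.mpr ht)) h5.1

theorem Ar_swap (k i : Fin 3) (p q r : V) : Ar u i k p q r = - Ar u k i p q r := by
  unfold Ar
  ring

theorem Ar_perm (k i : Fin 3) (p q r : V) :
    Ar u k i q r p = Ar u k i p q r ∧ Ar u k i r p q = Ar u k i p q r ∧
    Ar u k i p r q = - Ar u k i p q r ∧ Ar u k i q p r = - Ar u k i p q r ∧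
    Ar u k i r q p = - Ar u k i p q r := by
  unfold Ar
  refine ⟨?_, ?_, ?_, ?_, ?_⟩ <;> ring

/-- the four orientations of four points -/
theorem Ar_rel (k i : Fin 3) (a1 a2 a3 a4 : V) :
    Ar u k i a2 a3 a4 - Ar u k i a1 a3 a4 + Ar u k i a1 a2 a4 - Ar u k i a1 a2 a3 = 0 := by
  unfold Ar
  ring

theorem Ar_cone (k i : Fin 3) (a1 a2 a3 a4 : V) :
    (co u a3 k - co u a2 k) * Ar u k i a1 a3 a4 =
      (co u a3 k - co u a1 k) * Ar u k i a2 a3 a4 + (co u a4 k - co u a3 k) * Ar u k i a1 a2 a3 ∧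
    (co u a4 k - co u a2 k) * Ar u k i a1 a3 a4 =
      (co u a4 k - co u a1 k) * Ar u k i a2 a3 a4 + (co u a4 k - co u a3 k) * Ar u k i a1 a2 a4 ∧
    (co u a3 k - co u a1 k) * Ar u k i a1 a2 a4 =
      (co u a2 k - co u a1 k) * Ar u k i a1 a3 a4 + (co u a4 k - co u a1 k) * Ar u k i a1 a2 a3 ∧
    (co u a3 k - co u a2 k) * Ar u k i a1 a2 a4 =
      (co u a2 k - co u a1 k) * Ar u k i a2 a3 a4 + (co u a4 k - co u a2 k) * Ar u k i a1 a2 a3 := by
  unfold Ar
  refine ⟨?_, ?_, ?_, ?_⟩ <;> ring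

end Pool.Agent.Lib.MP_a3b162_co.CS
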