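import Pool.Agent.Lib.MP_a3b162_co.CS.AHexa
import Pool.Agent.Lib.MP_a3b162_co.CS.AGen

/-!
Module AGale3: the hexagon of `x 0, x 1, x 2` and three other points `a, b, c` of a chart.

Gale diagram: `d a = (1, 0)`, `d b = (0, 1)`, `d c = (-1, -1)`,
`d (x i) = (c_i - a_i, c_i - b_i)` (`a_i = co u a i` etc.), `d` defined by `if`. Sums: the last coordinate
is `1 + 0 - 1 = 0`, the coordinate `i` is `a_i - c_i + (c_i - a_i) = 0`, and the same for the second
component (the `x i` are the unit vectors). Brackets: `br a b = 1`, `br b c = 1`, `br c a = 1`,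
`br a (x i) = c_i - b_i`, `br b (x i) = -(c_i - a_i)`, `br c (x i) = b_i - a_i`,
`br (x i) (x j) = Ar u i j a b c`: not zero by `co_ne`, `Ar_ne`. `hexa_of_gale` with `C = Cyc d`.
The products in `Cyc`: `a b (x i)`: `(c_i - a_i)(c_i - b_i)`; `b c (x i)`: `(a_i - b_i)(a_i - c_i)`;
`c a (x i)`: `(b_i - c_i)(b_i - a_i)`; `a (x i) (x j)`: `-(c_i - b_i)(c_j - b_j) Ar u i j a b c`.
(All signs checked by computer.)
-/

set_option autoImplicit false

namespace Pool.Agent.Lib.MP_a3b162_co.CS

open Finset
open scoped Classical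

variable {V : Type} {G : SimpleGraph V} {u : V → Fin 4 → ℝ} {x : Fin 3 → V}

theorem AGale3_fin (i : Fin 3) : i = 0 ∨ i = 1 ∨ i = 2 := by
  revert i
  decide

theorem gale3 (h : Chart G u x) {a b c : V} (ha : ∀ i, a ≠ x i) (hb : ∀ i, b ≠ x i)
    (hc : ∀ i, c ≠ x i) (hab : a ≠ b) (hac : a ≠ c) (hbc : b ≠ c) :
    ∃ C : V → V → V → Prop, Hexa G {a, b, c, x 0, x 1, x 2} C ∧ C a b c ∧
      (∀ i, C a b (x i) ↔ 0 < (co u c i - co u a i) * (co u c i - co u b i)) ∧
      (∀ i, C b c (x i) ↔ 0 < (co u a i - co u b i) * (co u a i - co u c i)) ∧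
      (∀ i, C c a (x i) ↔ 0 < (co u b i - co u c i) * (co u b i - co u a i)) ∧
      (∀ i j, i ≠ j → (C a (x i) (x j) ↔
        (co u c i - co u b i) * (co u c j - co u b j) * Ar u i j a b c < 0)) := by
  have hx01 : x 0 ≠ x 1 := fun e => absurd (h.inj e) (by decide)
  have hx02 : x 0 ≠ x 2 := fun e => absurd (h.inj e) (by decide)
  have hx12 : x 1 ≠ x 2 := fun e => absurd (h.inj e) (by decide)
  obtain ⟨d, hd⟩ : ∃ d : V → ℝ × ℝ, d = fun z =>
      if z = a then (1, 0) else if z = b then (0, 1) else if z = c then (-1, -1) else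
      if z = x 0 then (co u c 0 - co u a 0, co u c 0 - co u b 0) else
      if z = x 1 then (co u c 1 - co u a 1, co u c 1 - co u b 1) else
      (co u c 2 - co u a 2, co u c 2 - co u b 2) := ⟨_, rfl⟩
  have da : d a = (1, 0) := by simp [hd]
  have db : d b = (0, 1) := by simp [hd, hab.symm]
  have dc : d c = (-1, -1) := by simp [hd, hac.symm, hbc.symm]
  have dx : ∀ i, d (x i) = (co u c i - co u a i, co u c i - co u b i) := by
    intro i
    have e1 := (ha i).symm
    have e2 := (hb i).symm
    have e3 := (hc i).symm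
    rcases AGale3_fin i with rfl | rfl | rfl
    · simp [hd, e1, e2, e3]
    · simp [hd, e1, e2, e3, hx01.symm]
    · simp [hd, e1, e2, e3, hx02.symm, hx12.symm]
  have bab : br (d a) (d b) = 1 := by rw [da, db]; simp [br]
  have bba : br (d b) (d a) = -1 := by rw [da, db]; simp [br]
  have bbc : br (d b) (d c) = 1 := by rw [db, dc]; simp [br]
  have bcb : br (d c) (d b) = -1 := by rw [db, dc]; simp [br]
  have bca : br (d c) (d a) = 1 := by rw [dc, da]; simp [br]
  have bac : br (d a) (d c) = -1 := by rw [dc, da]; simp [br]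
  have bax : ∀ i, br (d a) (d (x i)) = co u c i - co u b i := by
    intro i; rw [da, dx]; simp [br]
  have bxa : ∀ i, br (d (x i)) (d a) = -(co u c i - co u b i) := by
    intro i; rw [da, dx]; simp [br]
  have bbx : ∀ i, br (d b) (d (x i)) = -(co u c i - co u a i) := by
    intro i; rw [db, dx]; simp [br]
  have bxb : ∀ i, br (d (x i)) (d b) = co u c i - co u a i := by
    intro i; rw [db, dx]; simp [br]
  have bcx : ∀ i, br (d c) (d (x i)) = co u b i - co u a i := by
    intro i; rw [dc, dx]; simp only [br]; ring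
  have bxc : ∀ i, br (d (x i)) (d c) = -(co u b i - co u a i) := by
    intro i; rw [dc, dx]; simp only [br]; ring
  have bxx : ∀ i j, br (d (x i)) (d (x j)) = Ar u i j a b c := by
    intro i j; rw [dx, dx]; simp only [br, Ar]; ring
  have nab : ∀ i, co u b i - co u a i ≠ 0 := fun i => sub_ne_zero.mpr (co_ne h hb ha hab.symm i)
  have nac : ∀ i, co u c i - co u a i ≠ 0 := fun i => sub_ne_zero.mpr (co_ne h hc ha hac.symm i)
  have nbc : ∀ i, co u c i - co u b i ≠ 0 := fun i => sub_ne_zero.mpr (co_ne h hc hb hbc.symm i)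
  have hmem : ∀ z, z ∈ ({a, b, c, x 0, x 1, x 2} : Finset V) ↔
      z = a ∨ z = b ∨ z = c ∨ ∃ i, z = x i := by
    intro z
    simp only [Finset.mem_insert, Finset.mem_singleton]
    constructor
    · rintro (e | e | e | e | e | e)
      · exact Or.inl e
      · exact Or.inr (Or.inl e)
      · exact Or.inr (Or.inr (Or.inl e))
      · exact Or.inr (Or.inr (Or.inr ⟨0, e⟩))
      · exact Or.inr (Or.inr (Or.inr ⟨1, e⟩))
      · exact Or.inr (Or.inr (Or.inr ⟨2, e⟩))
    · rintro (e | e | e | ⟨i, e⟩)
      · simp [e]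
      · simp [e]
      · simp [e]
      · rcases AGale3_fin i with rfl | rfl | rfl <;> simp [e]
  have i1 : a ∉ ({b, c, x 0, x 1, x 2} : Finset V) := by
    simp [hab, hac, ha]
  have i2 : b ∉ ({c, x 0, x 1, x 2} : Finset V) := by
    simp [hbc, hb]
  have i3 : c ∉ ({x 0, x 1, x 2} : Finset V) := by
    simp [hc]
  have i4 : x 0 ∉ ({x 1, x 2} : Finset V) := by
    simp [hx01, hx02]
  have i5 : x 1 ∉ ({x 2} : Finset V) := by
    simp [hx12]
  have hcard : ({a, b, c, x 0, x 1, x 2} : Finset V).card = 6 := by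
    rw [Finset.card_insert_of_notMem i1, Finset.card_insert_of_notMem i2,
      Finset.card_insert_of_notMem i3, Finset.card_insert_of_notMem i4,
      Finset.card_insert_of_notMem i5, Finset.card_singleton]
  have a3 := h.one a ha
  have b3 := h.one b hb
  have c3 := h.one c hc
  have hk : ∀ m : Fin 4, m = 3 ∨ ∃ i : Fin 3, m = i.castSucc := by
    intro m
    rcases fin4_cases (k := 0) (i := 1) (j := 2) (by decide) (by decide) (by decide) m with
      e | e | e | e
    · exact Or.inl e
    · exact Or.inr ⟨0, e⟩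
    · exact Or.inr ⟨1, e⟩
    · exact Or.inr ⟨2, e⟩
  have hG : Gale u {a, b, c, x 0, x 1, x 2} d := by
    constructor
    · rw [Finset.sum_insert i1, Finset.sum_insert i2, Finset.sum_insert i3, Finset.sum_insert i4,
        Finset.sum_insert i5, Finset.sum_singleton, da, db, dc, dx, dx, dx, h.xe, h.xe, h.xe]
      funext m
      rcases hk m with rfl | ⟨i, rfl⟩
      · simp [a3, c3, Fin.ext_iff]
      · rcases AGale3_fin i with rfl | rfl | rfl <;>
          simp [Fin.ext_iff, co] <;> ring
    · rw [Finset.sum_insert i1, Finset.sum_insert i2, Finset.sum_insert i3, Finset.sum_insert i4,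
        Finset.sum_insert i5, Finset.sum_singleton, da, db, dc, dx, dx, dx, h.xe, h.xe, h.xe]
      funext m
      rcases hk m with rfl | ⟨i, rfl⟩
      · simp [b3, c3, Fin.ext_iff]
      · rcases AGale3_fin i with rfl | rfl | rfl <;>
          simp [Fin.ext_iff, co] <;> ring
  have hB : ∀ p ∈ ({a, b, c, x 0, x 1, x 2} : Finset V),
      ∀ q ∈ ({a, b, c, x 0, x 1, x 2} : Finset V), p ≠ q → br (d p) (d q) ≠ 0 := by
    intro p hp q hq hpq
    rw [hmem] at hp hq
    rcases hp with rfl | rfl | rfl | ⟨i, rfl⟩ <;> rcases hq with rfl | rfl | rfl | ⟨j, rfl⟩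
    · exact absurd rfl hpq
    · rw [bab]; norm_num
    · rw [bac]; norm_num
    · rw [bax]; exact nbc j
    · rw [bba]; norm_num
    · exact absurd rfl hpq
    · rw [bbc]; norm_num
    · rw [bbx]; exact neg_ne_zero.mpr (nac j)
    · rw [bca]; norm_num
    · rw [bcb]; norm_num
    · exact absurd rfl hpq
    · rw [bcx]; exact nab j
    · rw [bxa]; exact neg_ne_zero.mpr (nbc i)
    · rw [bxb]; exact nac i
    · rw [bxc]; exact neg_ne_zero.mpr (nab i)
    · rw [bxx]
      have hij : i ≠ j := fun e => hpq (by rw [e])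
      exact Ar_ne h ha hb hc hab hac hbc hij
  refine ⟨Cyc d, hexa_of_gale h.hex hcard hG hB, ?_, ?_, ?_, ?_, ?_⟩
  · simp only [Cyc]
    rw [bab, bbc, bca]; norm_num
  · intro i
    simp only [Cyc]
    rw [bab, bbx, bxa]
    have : (1 : ℝ) * -(co u c i - co u a i) * -(co u c i - co u b i) =
      (co u c i - co u a i) * (co u c i - co u b i) := by ring
    rw [this]
  · intro i
    simp only [Cyc]
    rw [bbc, bcx, bxb]
    have : (1 : ℝ) * (co u b i - co u a i) * (co u c i - co u a i) =
      (co u a i - co u b i) * (co u a i - co u c i) := by ring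
    rw [this]
  · intro i
    simp only [Cyc]
    rw [bca, bax, bxc]
    have : (1 : ℝ) * (co u c i - co u b i) * -(co u b i - co u a i) =
      (co u b i - co u c i) * (co u b i - co u a i) := by ring
    rw [this]
  · intro i j hij
    simp only [Cyc]
    rw [bax, bxx, bxa]
    have : (co u c i - co u b i) * Ar u i j a b c * -(co u c j - co u b j) =
      -((co u c i - co u b i) * (co u c j - co u b j) * Ar u i j a b c) := by ring
    rw [this, neg_pos]

end Pool.Agent.Lib.MP_a3b162_co.CS
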