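import Pool.Agent.Lib.MP_a3b162_co.CS.AHexa
import Pool.Agent.Lib.MP_a3b162_co.CS.ACh

/-!
Module AGale4: the hexagon of `x i, x j` and four points `a1 < a2 < a3 < a4` of a chain; `k` is the third
index.

Gale diagram (`t_mn = co u am k - co u an k`, positive for `m > n`):
`d a1 = (t43, 0)`, `d a2 = (0, t43)`, `d a3 = (-t41, -t42)`, `d a4 = (t31, t32)`,
`d (x i) = (-B_i, -A_i)`, `d (x j) = (-B_j, -A_j)` where `A_m, B_m, C_m, D_m` are `Ar u k m` of
`a2 a3 a4`, `a1 a3 a4`, `a1 a2 a4`, `a1 a2 a3`. Sums: `vec_eq_zero` (coordinate `3`: sum of the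
coefficients of `a1..a4`; coordinate `k`; coordinate `i`, `j`: ring).
Brackets: `br a1 a2 = t43^2`, `br a1 a3 = -t43 t42`, `br a1 a4 = t43 t32`, `br a2 a3 = t43 t41`,
`br a2 a4 = -t43 t31`, `br a3 a4 = t43 t21`; `br a1 (x m) = -t43 A_m`, `br a2 (x m) = t43 B_m`,
`br a3 (x m) = -t43 C_m`, `br a4 (x m) = t43 D_m`, `br (x i) (x j) = B_i A_j - A_i B_j` (ring each, `Ar`
unfolded), not zero by `Ar_ne`, `quad_ne`. `hexa_of_gale`, `C = Cyc d`. The products in `Cyc` are positive
multiples of: `a1 a2 a3`, `a1 a3 a4`: `1`; `a1 a2 x`: `A B`; `a2 a3 x`: `B C`; `a3 a4 x`: `C D`; `a4 a1 x`: `-A D`.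
(All signs checked by computer.)
-/

set_option autoImplicit false

namespace Pool.Agent.Lib.MP_a3b162_co.CS

open Finset
open scoped Classical

variable {V : Type} {G : SimpleGraph V} {u : V → Fin 4 → ℝ} {x : Fin 3 → V} {Z : Finset V}

theorem AGale4_br_symm {a b : ℝ × ℝ} (h : br a b ≠ 0) : br b a ≠ 0 := by
  unfold br at h ⊢
  intro h0
  apply h
  linarith

theorem gale4 (h : Chain G u x Z) {a1 a2 a3 a4 : V} (m1 : a1 ∈ Z) (m2 : a2 ∈ Z)
    (m3 : a3 ∈ Z) (m4 : a4 ∈ Z) (h12 : co u a1 0 < co u a2 0) (h23 : co u a2 0 < co u a3 0)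
    (h34 : co u a3 0 < co u a4 0) {k i j : Fin 3} (hki : k ≠ i) (hkj : k ≠ j) (hij : i ≠ j) :
    ∃ C : V → V → V → Prop, Hexa G {a1, a2, a3, a4, x i, x j} C ∧ C a1 a2 a3 ∧ C a1 a3 a4 ∧
      (∀ m, m = i ∨ m = j →
        (C a1 a2 (x m) ↔ 0 < Ar u k m a2 a3 a4 * Ar u k m a1 a3 a4) ∧
        (C a2 a3 (x m) ↔ 0 < Ar u k m a1 a3 a4 * Ar u k m a1 a2 a4) ∧
        (C a3 a4 (x m) ↔ 0 < Ar u k m a1 a2 a4 * Ar u k m a1 a2 a3) ∧
        (C a4 a1 (x m) ↔ Ar u k m a2 a3 a4 * Ar u k m a1 a2 a3 < 0)) := by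
  have e12 : a1 ≠ a2 := fun e => by rw [e] at h12; exact lt_irrefl _ h12
  have e13 : a1 ≠ a3 := fun e => by rw [e] at h12; exact lt_irrefl _ (h12.trans h23)
  have e14 : a1 ≠ a4 := fun e => by rw [e] at h12; exact lt_irrefl _ (h12.trans (h23.trans h34))
  have e23 : a2 ≠ a3 := fun e => by rw [e] at h23; exact lt_irrefl _ h23
  have e24 : a2 ≠ a4 := fun e => by rw [e] at h23; exact lt_irrefl _ (h23.trans h34)
  have e34 : a3 ≠ a4 := fun e => by rw [e] at h34; exact lt_irrefl _ h34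
  have exx : x i ≠ x j := fun e => hij (h.inj e)
  have x1 := fun i => h.ne_x m1 i
  have x2 := fun i => h.ne_x m2 i
  have x3 := fun i => h.ne_x m3 i
  have x4 := fun i => h.ne_x m4 i
  have k12 : 0 < co u a2 k - co u a1 k := sub_pos.2 (h.mono a1 m1 a2 m2 0 k h12)
  have k23 : 0 < co u a3 k - co u a2 k := sub_pos.2 (h.mono a2 m2 a3 m3 0 k h23)
  have k34 : 0 < co u a4 k - co u a3 k := sub_pos.2 (h.mono a3 m3 a4 m4 0 k h34)
  have k13 : 0 < co u a3 k - co u a1 k := by linarith
  have k14 : 0 < co u a4 k - co u a1 k := by linarith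
  have k24 : 0 < co u a4 k - co u a2 k := by linarith
  obtain ⟨d, hd⟩ : ∃ d : V → ℝ × ℝ, d = fun v =>
      if v = a1 then (co u a4 k - co u a3 k, 0) else
      if v = a2 then (0, co u a4 k - co u a3 k) else
      if v = a3 then (-(co u a4 k - co u a1 k), -(co u a4 k - co u a2 k)) else
      if v = a4 then (co u a3 k - co u a1 k, co u a3 k - co u a2 k) else
      if v = x i then (-Ar u k i a1 a3 a4, -Ar u k i a2 a3 a4) else
      (-Ar u k j a1 a3 a4, -Ar u k j a2 a3 a4) := ⟨_, rfl⟩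
  have d1 : d a1 = (co u a4 k - co u a3 k, 0) := by rw [hd]; simp
  have d2 : d a2 = (0, co u a4 k - co u a3 k) := by rw [hd]; simp [e12.symm]
  have d3 : d a3 = (-(co u a4 k - co u a1 k), -(co u a4 k - co u a2 k)) := by
    rw [hd]; simp [e13.symm, e23.symm]
  have d4 : d a4 = (co u a3 k - co u a1 k, co u a3 k - co u a2 k) := by
    rw [hd]; simp [e14.symm, e24.symm, e34.symm]
  have di : d (x i) = (-Ar u k i a1 a3 a4, -Ar u k i a2 a3 a4) := by
    rw [hd]; simp [(x1 i).symm, (x2 i).symm, (x3 i).symm, (x4 i).symm]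
  have dj : d (x j) = (-Ar u k j a1 a3 a4, -Ar u k j a2 a3 a4) := by
    rw [hd]; simp [(x1 j).symm, (x2 j).symm, (x3 j).symm, (x4 j).symm, exx.symm]
  have dm : ∀ m, m = i ∨ m = j → d (x m) = (-Ar u k m a1 a3 a4, -Ar u k m a2 a3 a4) := by
    rintro m (rfl | rfl)
    · exact di
    · exact dj
  have b12 : br (d a1) (d a2) = (co u a4 k - co u a3 k) ^ 2 := by
    rw [d1, d2]; simp only [br]; ring
  have b13 : br (d a1) (d a3) = -((co u a4 k - co u a3 k) * (co u a4 k - co u a2 k)) := by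
    rw [d1, d3]; simp only [br]; ring
  have b14 : br (d a1) (d a4) = (co u a4 k - co u a3 k) * (co u a3 k - co u a2 k) := by
    rw [d1, d4]; simp only [br]; ring
  have b23 : br (d a2) (d a3) = (co u a4 k - co u a3 k) * (co u a4 k - co u a1 k) := by
    rw [d2, d3]; simp only [br]; ring
  have b24 : br (d a2) (d a4) = -((co u a4 k - co u a3 k) * (co u a3 k - co u a1 k)) := by
    rw [d2, d4]; simp only [br]; ring
  have b34 : br (d a3) (d a4) = (co u a4 k - co u a3 k) * (co u a2 k - co u a1 k) := by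
    rw [d3, d4]; simp only [br]; ring
  have b1x : ∀ m, m = i ∨ m = j → br (d a1) (d (x m)) =
      -((co u a4 k - co u a3 k) * Ar u k m a2 a3 a4) := by
    intro m hm
    rw [d1, dm m hm]; simp only [br]; ring
  have b2x : ∀ m, m = i ∨ m = j → br (d a2) (d (x m)) =
      (co u a4 k - co u a3 k) * Ar u k m a1 a3 a4 := by
    intro m hm
    rw [d2, dm m hm]; simp only [br]; ring
  have b3x : ∀ m, m = i ∨ m = j → br (d a3) (d (x m)) =
      -((co u a4 k - co u a3 k) * Ar u k m a1 a2 a4) := by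
    intro m hm
    rw [d3, dm m hm]; simp only [br, Ar]; ring
  have b4x : ∀ m, m = i ∨ m = j → br (d a4) (d (x m)) =
      (co u a4 k - co u a3 k) * Ar u k m a1 a2 a3 := by
    intro m hm
    rw [d4, dm m hm]; simp only [br, Ar]; ring
  have bxx : br (d (x i)) (d (x j)) ≠ 0 := by
    have hq := quad_ne h.toChart x1 x2 x3 x4 (by simp [e12, e13, e14, e23, e24, e34]) hki hkj hij
    rw [di, dj]
    simp only [br]
    intro h0
    apply hq
    linarith
  have hkm : ∀ m, m = i ∨ m = j → k ≠ m := by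
    rintro m (rfl | rfl)
    · exact hki
    · exact hkj
  have nA : ∀ m, m = i ∨ m = j → Ar u k m a2 a3 a4 ≠ 0 := fun m hm =>
    Ar_ne h.toChart x2 x3 x4 e23 e24 e34 (hkm m hm)
  have nB : ∀ m, m = i ∨ m = j → Ar u k m a1 a3 a4 ≠ 0 := fun m hm =>
    Ar_ne h.toChart x1 x3 x4 e13 e14 e34 (hkm m hm)
  have nC : ∀ m, m = i ∨ m = j → Ar u k m a1 a2 a4 ≠ 0 := fun m hm =>
    Ar_ne h.toChart x1 x2 x4 e12 e14 e24 (hkm m hm)
  have nD : ∀ m, m = i ∨ m = j → Ar u k m a1 a2 a3 ≠ 0 := fun m hm =>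
    Ar_ne h.toChart x1 x2 x3 e12 e13 e23 (hkm m hm)
  have n12 : br (d a1) (d a2) ≠ 0 := by rw [b12]; positivity
  have n13 : br (d a1) (d a3) ≠ 0 := by rw [b13]; exact neg_ne_zero.2 (by positivity)
  have n14 : br (d a1) (d a4) ≠ 0 := by rw [b14]; positivity
  have n23 : br (d a2) (d a3) ≠ 0 := by rw [b23]; positivity
  have n24 : br (d a2) (d a4) ≠ 0 := by rw [b24]; exact neg_ne_zero.2 (by positivity)
  have n34 : br (d a3) (d a4) ≠ 0 := by rw [b34]; positivity
  have n1x : ∀ m, m = i ∨ m = j → br (d a1) (d (x m)) ≠ 0 := fun m hm => by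
    rw [b1x m hm]; exact neg_ne_zero.2 (mul_ne_zero k34.ne' (nA m hm))
  have n2x : ∀ m, m = i ∨ m = j → br (d a2) (d (x m)) ≠ 0 := fun m hm => by
    rw [b2x m hm]; exact mul_ne_zero k34.ne' (nB m hm)
  have n3x : ∀ m, m = i ∨ m = j → br (d a3) (d (x m)) ≠ 0 := fun m hm => by
    rw [b3x m hm]; exact neg_ne_zero.2 (mul_ne_zero k34.ne' (nC m hm))
  have n4x : ∀ m, m = i ∨ m = j → br (d a4) (d (x m)) ≠ 0 := fun m hm => by
    rw [b4x m hm]; exact mul_ne_zero k34.ne' (nD m hm)
  have n1i := n1x i (Or.inl rfl)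
  have n1j := n1x j (Or.inr rfl)
  have n2i := n2x i (Or.inl rfl)
  have n2j := n2x j (Or.inr rfl)
  have n3i := n3x i (Or.inl rfl)
  have n3j := n3x j (Or.inr rfl)
  have n4i := n4x i (Or.inl rfl)
  have n4j := n4x j (Or.inr rfl)
  have hcard : ({a1, a2, a3, a4, x i, x j} : Finset V).card = 6 := by
    rw [card_insert_of_notMem, card_insert_of_notMem, card_insert_of_notMem,
      card_insert_of_notMem, card_pair exx]
    · simp [x4 i, x4 j]
    · simp [x3 i, x3 j, e34]
    · simp [x2 i, x2 j, e23, e24]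
    · simp [x1 i, x1 j, e12, e13, e14]
  have hsum : ∀ f : V → Fin 4 → ℝ, (∑ v ∈ ({a1, a2, a3, a4, x i, x j} : Finset V), f v) =
      f a1 + (f a2 + (f a3 + (f a4 + (f (x i) + f (x j))))) := by
    intro f
    rw [sum_insert, sum_insert, sum_insert, sum_insert, sum_pair exx]
    · simp [x4 i, x4 j]
    · simp [x3 i, x3 j, e34]
    · simp [x2 i, x2 j, e23, e24]
    · simp [x1 i, x1 j, e12, e13, e14]
  have o1 := h.one a1 x1
  have o2 := h.one a2 x2
  have o3 := h.one a3 x3
  have o4 := h.one a4 x4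
  have ki' : k.castSucc ≠ i.castSucc := fun e => hki (Fin.castSucc_injective _ e)
  have kj' : k.castSucc ≠ j.castSucc := fun e => hkj (Fin.castSucc_injective _ e)
  have ij' : i.castSucc ≠ j.castSucc := fun e => hij (Fin.castSucc_injective _ e)
  have c3 : ∀ m : Fin 3, (3 : Fin 4) ≠ m.castSucc := by decide
  have hgale : Gale u {a1, a2, a3, a4, x i, x j} d := by
    constructor
    · rw [hsum, d1, d2, d3, d4, di, dj, h.xe i, h.xe j]
      refine vec_eq_zero hki hkj hij ?_ ?_ ?_ ?_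
      · simp only [Pi.add_apply, Pi.smul_apply, smul_eq_mul, o1, o2, o3, o4,
          Pi.single_eq_of_ne (c3 i), Pi.single_eq_of_ne (c3 j)]
        ring
      · simp only [Pi.add_apply, Pi.smul_apply, smul_eq_mul,
          Pi.single_eq_of_ne ki', Pi.single_eq_of_ne kj', co]
        ring
      · simp only [Pi.add_apply, Pi.smul_apply, smul_eq_mul,
          Pi.single_eq_same, Pi.single_eq_of_ne ij', co, Ar]
        ring
      · simp only [Pi.add_apply, Pi.smul_apply, smul_eq_mul,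
          Pi.single_eq_same, Pi.single_eq_of_ne ij'.symm, co, Ar]
        ring
    · rw [hsum, d1, d2, d3, d4, di, dj, h.xe i, h.xe j]
      refine vec_eq_zero hki hkj hij ?_ ?_ ?_ ?_
      · simp only [Pi.add_apply, Pi.smul_apply, smul_eq_mul, o1, o2, o3, o4,
          Pi.single_eq_of_ne (c3 i), Pi.single_eq_of_ne (c3 j)]
        ring
      · simp only [Pi.add_apply, Pi.smul_apply, smul_eq_mul,
          Pi.single_eq_of_ne ki', Pi.single_eq_of_ne kj', co]
        ring
      · simp only [Pi.add_apply, Pi.smul_apply, smul_eq_mul,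
          Pi.single_eq_same, Pi.single_eq_of_ne ij', co, Ar]
        ring
      · simp only [Pi.add_apply, Pi.smul_apply, smul_eq_mul,
          Pi.single_eq_same, Pi.single_eq_of_ne ij'.symm, co, Ar]
        ring
  have hb : ∀ a ∈ ({a1, a2, a3, a4, x i, x j} : Finset V),
      ∀ b ∈ ({a1, a2, a3, a4, x i, x j} : Finset V), a ≠ b → br (d a) (d b) ≠ 0 := by
    intro a ha b hb hab
    simp only [mem_insert, mem_singleton] at ha hb
    rcases ha with ha | ha | ha | ha | ha | ha <;>
      rcases hb with hb | hb | hb | hb | hb | hb <;> rw [ha, hb] <;>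
      first
      | exact absurd (ha.trans hb.symm) hab
      | assumption
      | (apply AGale4_br_symm; assumption)
  refine ⟨Cyc d, hexa_of_gale h.hex hcard hgale hb, ?_, ?_, ?_⟩
  · unfold Cyc
    have e : br (d a3) (d a1) = (co u a4 k - co u a3 k) * (co u a4 k - co u a2 k) := by
      rw [d1, d3]; simp only [br]; ring
    rw [b12, b23, e]
    positivity
  · unfold Cyc
    have e : br (d a4) (d a1) = -((co u a4 k - co u a3 k) * (co u a3 k - co u a2 k)) := by
      rw [d1, d4]; simp only [br]; ring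
    rw [b13, b34, e]
    have e' : -((co u a4 k - co u a3 k) * (co u a4 k - co u a2 k)) *
        ((co u a4 k - co u a3 k) * (co u a2 k - co u a1 k)) *
        -((co u a4 k - co u a3 k) * (co u a3 k - co u a2 k)) =
        ((co u a4 k - co u a3 k) * (co u a4 k - co u a2 k)) *
        ((co u a4 k - co u a3 k) * (co u a2 k - co u a1 k)) *
        ((co u a4 k - co u a3 k) * (co u a3 k - co u a2 k)) := by ring
    rw [e']
    positivity
  · intro m hm
    have s1 : br (d (x m)) (d a1) = (co u a4 k - co u a3 k) * Ar u k m a2 a3 a4 := by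
      have := b1x m hm
      have e : br (d (x m)) (d a1) = -br (d a1) (d (x m)) := by unfold br; ring
      rw [e, this]; ring
    have s2 : br (d (x m)) (d a2) = -((co u a4 k - co u a3 k) * Ar u k m a1 a3 a4) := by
      have := b2x m hm
      have e : br (d (x m)) (d a2) = -br (d a2) (d (x m)) := by unfold br; ring
      rw [e, this]
    have s3 : br (d (x m)) (d a3) = (co u a4 k - co u a3 k) * Ar u k m a1 a2 a4 := by
      have := b3x m hm
      have e : br (d (x m)) (d a3) = -br (d a3) (d (x m)) := by unfold br; ring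
      rw [e, this]; ring
    have s4 : br (d (x m)) (d a4) = -((co u a4 k - co u a3 k) * Ar u k m a1 a2 a3) := by
      have := b4x m hm
      have e : br (d (x m)) (d a4) = -br (d a4) (d (x m)) := by unfold br; ring
      rw [e, this]
    have s41 : br (d a4) (d a1) = -((co u a4 k - co u a3 k) * (co u a3 k - co u a2 k)) := by
      rw [d1, d4]; simp only [br]; ring
    unfold Cyc
    refine ⟨?_, ?_, ?_, ?_⟩
    · rw [b12, b2x m hm, s1]
      have e : (co u a4 k - co u a3 k) ^ 2 * ((co u a4 k - co u a3 k) * Ar u k m a1 a3 a4) *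
          ((co u a4 k - co u a3 k) * Ar u k m a2 a3 a4) =
          (co u a4 k - co u a3 k) ^ 4 * (Ar u k m a2 a3 a4 * Ar u k m a1 a3 a4) := by ring
      rw [e]
      exact mul_pos_iff_of_pos_left (by positivity)
    · rw [b23, b3x m hm, s2]
      have e : (co u a4 k - co u a3 k) * (co u a4 k - co u a1 k) *
          -((co u a4 k - co u a3 k) * Ar u k m a1 a2 a4) *
          -((co u a4 k - co u a3 k) * Ar u k m a1 a3 a4) =
          ((co u a4 k - co u a3 k) ^ 3 * (co u a4 k - co u a1 k)) *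
            (Ar u k m a1 a3 a4 * Ar u k m a1 a2 a4) := by ring
      rw [e]
      exact mul_pos_iff_of_pos_left (by positivity)
    · rw [b34, b4x m hm, s3]
      have e : (co u a4 k - co u a3 k) * (co u a2 k - co u a1 k) *
          ((co u a4 k - co u a3 k) * Ar u k m a1 a2 a3) *
          ((co u a4 k - co u a3 k) * Ar u k m a1 a2 a4) =
          ((co u a4 k - co u a3 k) ^ 3 * (co u a2 k - co u a1 k)) *
            (Ar u k m a1 a2 a4 * Ar u k m a1 a2 a3) := by ring
      rw [e]
      exact mul_pos_iff_of_pos_left (by positivity)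
    · rw [s41, b1x m hm, s4]
      have e : -((co u a4 k - co u a3 k) * (co u a3 k - co u a2 k)) *
          -((co u a4 k - co u a3 k) * Ar u k m a2 a3 a4) *
          -((co u a4 k - co u a3 k) * Ar u k m a1 a2 a3) =
          ((co u a4 k - co u a3 k) ^ 3 * (co u a3 k - co u a2 k)) *
            (-(Ar u k m a2 a3 a4 * Ar u k m a1 a2 a3)) := by ring
      rw [e, mul_pos_iff_of_pos_left (by positivity)]
      exact neg_pos

end Pool.Agent.Lib.MP_a3b162_co.CS
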