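import Pool.Agent.Lib.MP_a3b162_co.CS.ACirc

/-!
Module ARot: the circle lemma.

If there is no edge: `ee = 0` and `6 ≤ 4 |Z|`. Otherwise choose `K` with `|h v| < K / 4` on `Z` and put
`dist v w = h w - h v` if `h v < h w`, and `h w - h v + K` otherwise (clockwise distance). Let `(b1, c1)`
be an ordered pair of adjacent elements of `Z` with minimal `dist b1 c1`. Put
`h' v = h v` if `h b1 < h v`, and `h v + K` otherwise. Then `h'` is injective on `Z`, `b1` is its largest
element, `dist b1 v = h' v - h b1` for `v ≠ b1`; `hmin` of `circle_linear` for `h'`: an edge `v w` inside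
the arc has `dist v w` or `dist w v` at most `dist b1 c1`, with equality only for the pair itself
(if `h' v < h' w ≤ h' c1` then `dist v w = h' w - h' v < h' c1 - h b1`; if `v = b1`: `dist b1 w =
h' w - h b1 ≤ h' c1 - h b1`, equality iff `w = c1`).
`Extreme G Z h'`: rotating exchanges or keeps `InB` and `OutB` for all points at the same time: for
`b ≠ c`: if both `h b, h c` are `> h b1` or both `≤ h b1` then `InB h' b c p ↔ InB h b c p` (`p ≠ b, c`,
`p ∈ Z`) and `OutB` the same; otherwise `InB h' b c p ↔ OutB h b c p` and `OutB h' b c p ↔ InB h b c p`.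
Finally `ee_eq` for `h'` (or for `h`).
-/

set_option autoImplicit false

namespace Pool.Agent.Lib.MP_a3b162_co.CS

open Finset
open scoped Classical

variable {V : Type} {G : SimpleGraph V} {Z : Finset V} {h : V → ℝ}

/-- real form of the exchange of `InB` and `OutB` -/
theorem ARot_real {K x b c p b' c' p' : ℝ} (hx : |x| < K / 4) (hb : |b| < K / 4) (hc : |c| < K / 4)
    (hp : |p| < K / 4) (eb : b' = if x < b then b else b + K)
    (ec : c' = if x < c then c else c + K) (ep : p' = if x < p then p else p + K)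
    (hs : x < b ↔ x < c) :
    (((b' < p' ∧ p' < c') ∨ (c' < p' ∧ p' < b')) ↔ ((b < p ∧ p < c) ∨ (c < p ∧ p < b))) ∧
    (((p' < b' ∧ p' < c') ∨ (b' < p' ∧ c' < p')) ↔ ((p < b ∧ p < c) ∨ (b < p ∧ c < p))) := by
  rw [abs_lt] at hx hb hc hp
  obtain ⟨hx1, hx2⟩ := hx
  obtain ⟨hb1, hb2⟩ := hb
  obtain ⟨hc1, hc2⟩ := hc
  obtain ⟨hp1, hp2⟩ := hp
  by_cases h1 : x < b
  · have h2 : x < c := hs.1 h1
    rw [if_pos h1] at eb
    rw [if_pos h2] at ec
    subst eb; subst ec
    by_cases h3 : x < p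
    · rw [if_pos h3] at ep
      subst ep
      exact ⟨Iff.rfl, Iff.rfl⟩
    · rw [if_neg h3] at ep
      subst ep
      rw [not_lt] at h3
      refine ⟨⟨?_, ?_⟩, ⟨?_, ?_⟩⟩
      · rintro (⟨u, w⟩ | ⟨u, w⟩) <;> exfalso <;> linarith
      · rintro (⟨u, w⟩ | ⟨u, w⟩) <;> exfalso <;> linarith
      · intro _
        left; constructor <;> linarith
      · intro _
        right; constructor <;> linarith
  · have h2 : ¬ x < c := fun h => h1 (hs.2 h)
    rw [if_neg h1] at eb
    rw [if_neg h2] at ec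
    subst eb; subst ec
    rw [not_lt] at h1 h2
    by_cases h3 : x < p
    · rw [if_pos h3] at ep
      subst ep
      refine ⟨⟨?_, ?_⟩, ⟨?_, ?_⟩⟩
      · rintro (⟨u, w⟩ | ⟨u, w⟩) <;> exfalso <;> linarith
      · rintro (⟨u, w⟩ | ⟨u, w⟩) <;> exfalso <;> linarith
      · intro _
        right; constructor <;> linarith
      · intro _
        left; constructor <;> linarith
    · rw [if_neg h3] at ep
      subst ep
      constructor <;> simp only [add_lt_add_iff_right]

theorem ARot_real' {K x b c p b' c' p' : ℝ} (hx : |x| < K / 4) (hb : |b| < K / 4)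
    (hc : |c| < K / 4)
    (hp : |p| < K / 4) (eb : b' = if x < b then b else b + K)
    (ec : c' = if x < c then c else c + K) (ep : p' = if x < p then p else p + K)
    (h1 : x < b) (h2 : ¬ x < c) :
    (((b' < p' ∧ p' < c') ∨ (c' < p' ∧ p' < b')) ↔ ((p < b ∧ p < c) ∨ (b < p ∧ c < p))) ∧
    (((p' < b' ∧ p' < c') ∨ (b' < p' ∧ c' < p')) ↔ ((b < p ∧ p < c) ∨ (c < p ∧ p < b))) := by
  rw [abs_lt] at hx hb hc hp
  obtain ⟨hx1, hx2⟩ := hx
  obtain ⟨hb1, hb2⟩ := hb
  obtain ⟨hc1, hc2⟩ := hc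
  obtain ⟨hp1, hp2⟩ := hp
  rw [if_pos h1] at eb
  rw [if_neg h2] at ec
  subst eb; subst ec
  rw [not_lt] at h2
  by_cases h3 : x < p
  · rw [if_pos h3] at ep
    subst ep
    refine ⟨⟨?_, ?_⟩, ⟨?_, ?_⟩⟩
    · rintro (⟨u, w⟩ | ⟨u, w⟩)
      · right; constructor <;> linarith
      · exfalso; linarith
    · rintro (⟨u, w⟩ | ⟨u, w⟩)
      · exfalso; linarith
      · left; constructor <;> linarith
    · rintro (⟨u, w⟩ | ⟨u, w⟩)
      · right; constructor <;> linarith
      · exfalso; linarith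
    · rintro (⟨u, w⟩ | ⟨u, w⟩)
      · exfalso; linarith
      · left; constructor <;> linarith
  · rw [if_neg h3] at ep
    subst ep
    rw [not_lt] at h3
    refine ⟨⟨?_, ?_⟩, ⟨?_, ?_⟩⟩
    · rintro (⟨u, w⟩ | ⟨u, w⟩)
      · left; constructor <;> linarith
      · exfalso; linarith
    · rintro (⟨u, w⟩ | ⟨u, w⟩)
      · left; constructor <;> linarith
      · exfalso; linarith
    · rintro (⟨u, w⟩ | ⟨u, w⟩)
      · exfalso; linarith
      · right; constructor <;> linarith
    · rintro (⟨u, w⟩ | ⟨u, w⟩)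
      · exfalso; linarith
      · right; constructor <;> linarith

/-- `Extreme` is kept by the rotation -/
theorem ARot_extreme {K x : ℝ} (hx : |x| < K / 4) (hK : ∀ v ∈ Z, |h v| < K / 4)
    (hE : Extreme G Z h) : Extreme G Z (fun v => if x < h v then h v else h v + K) := by
  intro b hb c hc hbc
  by_cases hs : x < h b ↔ x < h c
  · have key : ∀ p ∈ Z, (InB (fun v => if x < h v then h v else h v + K) b c p ↔ InB h b c p) ∧
        (OutB (fun v => if x < h v then h v else h v + K) b c p ↔ OutB h b c p) := fun p hp =>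
      ARot_real hx (hK b hb) (hK c hc) (hK p hp) rfl rfl rfl hs
    rintro ⟨⟨p1, m1, a1, i1⟩, ⟨p2, m2, a2, i2⟩, ⟨p3, m3, a3, i3⟩, ⟨p4, m4, a4, i4⟩⟩
    exact hE b hb c hc hbc ⟨⟨p1, m1, a1, (key p1 m1).1.1 i1⟩, ⟨p2, m2, a2, (key p2 m2).2.1 i2⟩,
      ⟨p3, m3, a3, (key p3 m3).1.1 i3⟩, ⟨p4, m4, a4, (key p4 m4).2.1 i4⟩⟩
  · have key : ∀ p ∈ Z, (InB (fun v => if x < h v then h v else h v + K) b c p ↔ OutB h b c p) ∧
        (OutB (fun v => if x < h v then h v else h v + K) b c p ↔ InB h b c p) := by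
      intro p hp
      by_cases h1 : x < h b
      · have h2 : ¬ x < h c := fun h2 => hs ⟨fun _ => h2, fun _ => h1⟩
        exact ARot_real' hx (hK b hb) (hK c hc) (hK p hp) rfl rfl rfl h1 h2
      · have h2 : x < h c := by
          by_contra h2
          exact hs ⟨fun h3 => absurd h3 h1, fun h3 => absurd h3 h2⟩
        have h3 := ARot_real' hx (hK c hc) (hK b hb) (hK p hp) rfl rfl rfl h2 h1
        refine ⟨⟨fun h4 => ?_, fun h4 => ?_⟩, ⟨fun h4 => ?_, fun h4 => ?_⟩⟩
        · rcases h3.1.1 (h4.symm) with ⟨u, w⟩ | ⟨u, w⟩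
          · exact Or.inl ⟨w, u⟩
          · exact Or.inr ⟨w, u⟩
        · refine (h3.1.2 ?_).symm
          rcases h4 with ⟨u, w⟩ | ⟨u, w⟩
          · exact Or.inl ⟨w, u⟩
          · exact Or.inr ⟨w, u⟩
        · refine (h3.2.1 ?_).symm
          rcases h4 with ⟨u, w⟩ | ⟨u, w⟩
          · exact Or.inl ⟨w, u⟩
          · exact Or.inr ⟨w, u⟩
        · rcases h3.2.2 (h4.symm) with ⟨u, w⟩ | ⟨u, w⟩
          · exact Or.inl ⟨w, u⟩
          · exact Or.inr ⟨w, u⟩
    rintro ⟨⟨p1, m1, a1, i1⟩, ⟨p2, m2, a2, i2⟩, ⟨p3, m3, a3, i3⟩, ⟨p4, m4, a4, i4⟩⟩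
    exact hE b hb c hc hbc ⟨⟨p2, m2, a2, (key p2 m2).2.1 i2⟩, ⟨p1, m1, a1, (key p1 m1).1.1 i1⟩,
      ⟨p4, m4, a4, (key p4 m4).2.1 i4⟩, ⟨p3, m3, a3, (key p3 m3).1.1 i3⟩⟩

theorem circle (hinj : ∀ a ∈ Z, ∀ b ∈ Z, h a = h b → a = b) (hE : Extreme G Z h)
    (h2 : 2 ≤ Z.card) : ee G Z Z + 6 ≤ 4 * Z.card := by
  by_cases hex : ∃ v ∈ Z, ∃ w ∈ Z, G.Adj v w
  swap
  · have h0 : ee G Z Z = 0 := by
      unfold ee
      refine Finset.sum_eq_zero fun v hv => ?_
      by_contra hne
      obtain ⟨w, hw, hvw⟩ := dg_pos.1 (Nat.pos_of_ne_zero hne)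
      exact hex ⟨v, hv, w, hw, hvw⟩
    omega
  obtain ⟨v0, hv0, w0, hw0, hvw0⟩ := hex
  obtain ⟨K, hK⟩ : ∃ K : ℝ, ∀ v ∈ Z, |h v| < K / 4 := by
    refine ⟨4 * (∑ v ∈ Z, |h v| + 1), fun v hv => ?_⟩
    have h3 : |h v| ≤ ∑ v ∈ Z, |h v| :=
      Finset.single_le_sum (f := fun v => |h v|) (fun i _ => abs_nonneg _) hv
    linarith
  let dist : V → V → ℝ := fun v w => if h v < h w then h w - h v else h w - h v + K
  obtain ⟨⟨b1, c1⟩, hm, hmin⟩ := Finset.exists_min_image
    ((Z ×ˢ Z).filter fun p : V × V => G.Adj p.1 p.2) (fun p => dist p.1 p.2)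
    ⟨(v0, w0), by simp [hv0, hw0, hvw0]⟩
  simp only [mem_filter, mem_product] at hm
  obtain ⟨⟨hb, hc⟩, hbc⟩ := hm
  have hmin' : ∀ v ∈ Z, ∀ w ∈ Z, G.Adj v w → dist b1 c1 ≤ dist v w := fun v hv w hw hvw =>
    hmin (v, w) (by simp [hv, hw, hvw])
  set h' : V → ℝ := fun v => if h b1 < h v then h v else h v + K with hh'
  have hKb := abs_lt.1 (hK b1 hb)
  have hpos : ∀ v ∈ Z, h b1 < h' v := by
    intro v hv
    have := abs_lt.1 (hK v hv)
    simp only [hh']
    split_ifs with h3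
    · exact h3
    · linarith
  have hd1 : ∀ v, dist b1 v = h' v - h b1 := by
    intro v
    simp only [hh', dist]
    split_ifs with h3
    · rfl
    · ring
  have hd2 : ∀ v ∈ Z, ∀ w ∈ Z, h' v < h' w → dist v w = h' w - h' v := by
    intro v hv w hw
    have h5 := abs_lt.1 (hK v hv)
    have h6 := abs_lt.1 (hK w hw)
    simp only [hh', dist]
    split_ifs with h3 h4 h7 <;> intro h8 <;> linarith
  have hinj' : ∀ a ∈ Z, ∀ b ∈ Z, h' a = h' b → a = b := by
    intro v hv w hw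
    have h5 := abs_lt.1 (hK v hv)
    have h6 := abs_lt.1 (hK w hw)
    simp only [hh']
    split_ifs with h3 h4 h7 <;> intro h8
    · exact hinj v hv w hw h8
    · linarith
    · linarith
    · exact hinj v hv w hw (by linarith)
  have hmax : ∀ v ∈ Z, h' v ≤ h' b1 := by
    intro v hv
    have h5 := abs_lt.1 (hK v hv)
    simp only [hh', lt_irrefl, if_false]
    split_ifs with h3
    · linarith
    · linarith
  have hE' : Extreme G Z h' := ARot_extreme (hK b1 hb) hK hE
  have hmin2 : ∀ v ∈ Z, ∀ w ∈ Z, G.Adj v w → (h' v ≤ h' c1 ∨ v = b1) → (h' w ≤ h' c1 ∨ w = b1) →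
      (v = b1 ∧ w = c1) ∨ (v = c1 ∧ w = b1) := by
    intro v hv w hw hvw h3 h4
    have key1 : ∀ w ∈ Z, G.Adj b1 w → h' w ≤ h' c1 → w = c1 := by
      intro w hw hbw h5
      have h6 := hmin' b1 hb w hw hbw
      rw [hd1, hd1] at h6
      exact hinj' w hw c1 hc (by linarith)
    by_cases h5 : v = b1
    · subst h5
      rcases h4 with h4 | h4
      · exact Or.inl ⟨rfl, key1 w hw hvw h4⟩
      · exact absurd (h4 ▸ hvw) (G.loopless.irrefl _)
    · have h3' := h3.resolve_right h5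
      by_cases h6 : w = b1
      · subst h6
        exact Or.inr ⟨key1 v hv hvw.symm h3', rfl⟩
      · have h4' := h4.resolve_right h6
        exfalso
        rcases lt_trichotomy (h' v) (h' w) with h7 | h7 | h7
        · have h8 := hmin' v hv w hw hvw
          rw [hd1, hd2 v hv w hw h7] at h8
          have := hpos v hv
          linarith
        · exact hvw.ne (hinj' v hv w hw h7)
        · have h8 := hmin' w hw v hv hvw.symm
          rw [hd1, hd2 w hw v hv h7] at h8
          have := hpos w hw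
          linarith
  have h9 := circle_linear hinj' hE' hb hc hbc hmax hmin2
  have h10 := ee_eq (G := G) (Z := Z) hinj'
  omega

end Pool.Agent.Lib.MP_a3b162_co.CS
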