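import Pool.Agent.Lib.MP_a3b162_co.CS.ARin
import Pool.Agent.Lib.MP_a3b162_co.CS.ARot

/-!
Module AStep4: T0.

`step4`: let `b c` be an edge, `b < c` after exchanging (`InB`, `OutB` and the statement are symmetric in
`b, c`), `p, q` neighbours of `b`, `p', q'` neighbours of `c`, `p, p'` in `(b, c)`, `q, q'` outside.
For each of the three planes `(0,1), (0,2), (1,2)` with `α z = Ar u k i b c z`:
`S3_b` gives the sign of `α p * α q`, `S3_c` the sign of `α p' * α q'` (note `G.Adj c b`).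
* `q, q' > c`: `α p α q < 0`, `α p' α q' > 0`; `q, q' < b`: `α p α q > 0`, `α p' α q' < 0`: in both cases
  `(α p α p') (α q α q') < 0`, so in each of the three planes `α p α p' < 0` or `α q α q' < 0`. By `R_in` the
  first holds in at most one plane, by `R_same` the second holds in at most one plane. Contradiction.
* `q < b`, `c < q'`: `α p α q > 0`, `α p' α q' > 0`; `q > c`, `q' < b`: both negative. In both cases
  `(α p α p') (α q α q') > 0`. By `R_in` there are two planes with not `α p α p' < 0` (not zero by `Ar_ne`, so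
  `> 0`); in these `α q α q' > 0`, against `R_opp`.
`R_in` etc. are for planes `k i`, `k j` with a common index: `(0,1),(0,2)`: `k = 0`; `(0,1),(1,2)`: `k = 1` and
`Ar u 1 0 = - Ar u 0 1` (`Ar_swap`), products do not change; `(0,2),(1,2)`: `k = 2`.

`T0_chain`: `circle` with `h z = co u z 0`, injective by `Chain.coinj`, `Extreme` by `step4`.
-/

set_option autoImplicit false

namespace Pool.Agent.Lib.MP_a3b162_co.CS

open Finset
open scoped Classical

variable {V : Type} {G : SimpleGraph V} {u : V → Fin 4 → ℝ} {x : Fin 3 → V} {Z : Finset V}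

/-- the product of two orientations -/
noncomputable def AStep4W (u : V → Fin 4 → ℝ) (b c : V) (k i : Fin 3) (y y' : V) : ℝ :=
  Ar u k i b c y * Ar u k i b c y'

theorem AStep4W_swap (b c : V) (k i : Fin 3) (y y' : V) :
    AStep4W u b c i k y y' = AStep4W u b c k i y y' := by
  unfold AStep4W
  rw [Ar_swap, Ar_swap k i b c y']
  ring

theorem AStep4W_comm (b c : V) (k i : Fin 3) (y y' : V) :
    AStep4W u b c k i y y' = AStep4W u b c k i y' y := by
  unfold AStep4W
  ring

/-- two properties of the three planes, each true for at most one of them, at least one of them true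
for each plane -/
theorem AStep4_three {P Q : Fin 3 → Fin 3 → Prop} (hP : ∀ k i, P i k ↔ P k i)
    (hQ : ∀ k i, Q i k ↔ Q k i)
    (h1 : ∀ k i j, k ≠ i → k ≠ j → i ≠ j → ¬ (P k i ∧ P k j))
    (h2 : ∀ k i j, k ≠ i → k ≠ j → i ≠ j → ¬ (Q k i ∧ Q k j))
    (h3 : ∀ k i, k ≠ i → P k i ∨ Q k i) : False := by
  have a1 := h1 0 1 2 (by decide) (by decide) (by decide)
  have a2 := h1 1 0 2 (by decide) (by decide) (by decide)
  have a3 := h1 2 0 1 (by decide) (by decide) (by decide)
  have b1 := h2 0 1 2 (by decide) (by decide) (by decide)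
  have b2 := h2 1 0 2 (by decide) (by decide) (by decide)
  have b3 := h2 2 0 1 (by decide) (by decide) (by decide)
  have c1 := h3 0 1 (by decide)
  have c2 := h3 0 2 (by decide)
  have c3 := h3 1 2 (by decide)
  rw [hP 0 1] at a2
  rw [hP 0 2, hP 1 2] at a3
  rw [hQ 0 1] at b2
  rw [hQ 0 2, hQ 1 2] at b3
  rcases c1 with c1 | c1 <;> rcases c2 with c2 | c2 <;> rcases c3 with c3 | c3
  · exact a1 ⟨c1, c2⟩
  · exact a1 ⟨c1, c2⟩
  · exact a2 ⟨c1, c3⟩
  · exact b3 ⟨c2, c3⟩
  · exact a3 ⟨c2, c3⟩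
  · exact b2 ⟨c1, c3⟩
  · exact b1 ⟨c1, c2⟩
  · exact b1 ⟨c1, c2⟩

theorem AStep4_sign {a1 a2 a3 a4 : ℝ} (h : a1 * a2 * (a3 * a4) < 0) : a1 * a3 < 0 ∨ a2 * a4 < 0 := by
  by_contra hn
  push Not at hn
  nlinarith [mul_nonneg hn.1 hn.2]

theorem AStep4_sign' {a1 a2 a3 a4 : ℝ} (h : 0 < a1 * a2 * (a3 * a4)) : a1 * a3 < 0 ∨ 0 < a2 * a4 := by
  by_contra hn
  push Not at hn
  nlinarith [mul_nonneg hn.1 (neg_nonneg.2 hn.2)]

theorem AStep4_lt (h : Chain G u x Z) {b c p q p' q' : V} (mb : b ∈ Z) (mc : c ∈ Z) (mp : p ∈ Z)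
    (mq : q ∈ Z) (mp' : p' ∈ Z) (mq' : q' ∈ Z) (hbc : G.Adj b c) (hbp : G.Adj b p)
    (hbq : G.Adj b q) (hcp : G.Adj c p') (hcq : G.Adj c q') (hlt : co u b 0 < co u c 0)
    (ip : InB (fun z => co u z 0) b c p) (oq : OutB (fun z => co u z 0) b c q)
    (ip' : InB (fun z => co u z 0) b c p') (oq' : OutB (fun z => co u z 0) b c q') : False := by
  have hp : co u b 0 < co u p 0 ∧ co u p 0 < co u c 0 := by
    rcases ip with h1 | h1
    · exact h1
    · exact absurd (h1.1.trans h1.2) (not_lt.2 hlt.le)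
  have hp' : co u b 0 < co u p' 0 ∧ co u p' 0 < co u c 0 := by
    rcases ip' with h1 | h1
    · exact h1
    · exact absurd (h1.1.trans h1.2) (not_lt.2 hlt.le)
  have hin : ∀ k i j : Fin 3, k ≠ i → k ≠ j → i ≠ j →
      ¬ (AStep4W u b c k i p p' < 0 ∧ AStep4W u b c k j p p' < 0) := fun k i j hki hkj hij =>
    R_in h mb mc mp mp' hki hkj hij hbc hp.1 hp.2 hp'.1 hp'.2
  rcases oq with q1 | q1 <;> rcases oq' with q1' | q1'
  · -- both below
    refine AStep4_three (P := fun k i => AStep4W u b c k i p p' < 0)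
      (Q := fun k i => AStep4W u b c k i q q' < 0) (fun k i => by rw [AStep4W_swap])
      (fun k i => by rw [AStep4W_swap]) hin
      (fun k i j hki hkj hij => R_same h mb mc mq mq' hki hkj hij hbc hlt (Or.inr ⟨q1.1, q1'.1⟩)) ?_
    intro k i hki
    have e1 := (S3_b h mb mc mp mq hki hbc hbp hbq hp.1 hp.2).2 q1.1
    have e2 := (S3_c h mb mc mp' mq' hki hbc hcp hcq hp'.1 hp'.2).2 q1'.1
    exact AStep4_sign (mul_neg_of_pos_of_neg e1 e2)
  · -- `q` below, `q'` above
    refine AStep4_three (P := fun k i => AStep4W u b c k i p p' < 0)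
      (Q := fun k i => 0 < AStep4W u b c k i q q') (fun k i => by rw [AStep4W_swap])
      (fun k i => by rw [AStep4W_swap]) hin
      (fun k i j hki hkj hij => R_opp h mb mc mq mq' hki hkj hij hbc hlt q1.1 q1'.2) ?_
    intro k i hki
    have e1 := (S3_b h mb mc mp mq hki hbc hbp hbq hp.1 hp.2).2 q1.1
    have e2 := (S3_c h mb mc mp' mq' hki hbc hcp hcq hp'.1 hp'.2).1 q1'.2
    exact AStep4_sign' (mul_pos e1 e2)
  · -- `q` above, `q'` below
    refine AStep4_three (P := fun k i => AStep4W u b c k i p p' < 0)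
      (Q := fun k i => 0 < AStep4W u b c k i q q') (fun k i => by rw [AStep4W_swap])
      (fun k i => by rw [AStep4W_swap]) hin
      (fun k i j hki hkj hij => ?_) ?_
    · rw [AStep4W_comm b c k i q q', AStep4W_comm b c k j q q']
      exact R_opp h mb mc mq' mq hki hkj hij hbc hlt q1'.1 q1.2
    · intro k i hki
      have e1 := (S3_b h mb mc mp mq hki hbc hbp hbq hp.1 hp.2).1 q1.2
      have e2 := (S3_c h mb mc mp' mq' hki hbc hcp hcq hp'.1 hp'.2).2 q1'.1
      exact AStep4_sign' (mul_pos_of_neg_of_neg e1 e2)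
  · -- both above
    refine AStep4_three (P := fun k i => AStep4W u b c k i p p' < 0)
      (Q := fun k i => AStep4W u b c k i q q' < 0) (fun k i => by rw [AStep4W_swap])
      (fun k i => by rw [AStep4W_swap]) hin
      (fun k i j hki hkj hij => R_same h mb mc mq mq' hki hkj hij hbc hlt (Or.inl ⟨q1.2, q1'.2⟩)) ?_
    intro k i hki
    have e1 := (S3_b h mb mc mp mq hki hbc hbp hbq hp.1 hp.2).1 q1.2
    have e2 := (S3_c h mb mc mp' mq' hki hbc hcp hcq hp'.1 hp'.2).1 q1'.2
    exact AStep4_sign (mul_neg_of_neg_of_pos e1 e2)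

theorem step4 (h : Chain G u x Z) : Extreme G Z (fun z => co u z 0) := by
  rintro b mb c mc hbc ⟨⟨p, mp, hbp, ip⟩, ⟨q, mq, hbq, oq⟩, ⟨p', mp', hcp, ip'⟩, ⟨q', mq', hcq, oq'⟩⟩
  rcases lt_trichotomy (co u b 0) (co u c 0) with hlt | heq | hgt
  · exact AStep4_lt h mb mc mp mq mp' mq' hbc hbp hbq hcp hcq hlt ip oq ip' oq'
  · exact hbc.ne (h.coinj 0 mb mc heq)
  · exact AStep4_lt h mc mb mp' mq' mp mq hbc.symm hcp hcq hbp hbq hgt ip'.symm
      (oq'.imp And.symm And.symm) ip.symm (oq.imp And.symm And.symm)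

theorem T0_chain (h : Chain G u x Z) (h2 : 2 ≤ Z.card) : ee G Z Z + 6 ≤ 4 * Z.card :=
  circle (fun _ ha _ hb hab => h.coinj 0 ha hb hab) (step4 h) h2

end Pool.Agent.Lib.MP_a3b162_co.CS
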