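import Pool.Agent.Lib.MP_a3b162_co.CS.AMed

/-!
Module ATriR: combinatorial rules for four points in cyclic order and two of the `x i` (only `Tri`,
`Hexa`; no geometry).

`tri_rot`: shift of the indices: `q'(m) = q (m + 1)`, `g' i = g i - 1` (in `Fin 4`).
`C (q 1) (q 2) (q 3)`, `C (q 1) (q 3) (q 0)` follow from `C (q 0) (q 1) (q 2)`, `C (q 0) (q 2) (q 3)`; the set
is the same. So in the other statements one may assume `m = 0` (apply `tri_rot` `m` times: a lemma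
`Tri G x (fun l => q (l + m)) (fun i => g i - m)`).

`tri_weak` (`m = 0`): `q 0, q 1` adjacent, `g i = g j = 2`: in the hexagon with `x i, x j` both are in the gap
`(q 2, q 3)`, i.e. not `C (q 2) (q 3) (x i)`, so `C (q 2) (x i) (q 3)`. Cut at `q 0`: the order is
`q 1, q 2, x, y, q 3` with `{x, y} = {x i, x j}` (`total` for `q 0, x i, x j`). `rule` for
`q 0, q 1, q 2, x, y, q 3`: pairs `(q 0, q 1)`, `(q 2, x)`, `(y, q 3)`.

`tri_LL` (`m = 0`): `q 0` adjacent to `q 1, q 2, q 3`. Suppose `g i = 1` or `g i = 2`. Take `j ≠ i`, and the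
hexagon with `x i`, `x j` (gap of `x j` is given by `g i`). The three points `q 1, q 2, q 3` (in cyclic
order) and the three points `q 0, x j, x i`: all nine pairs adjacent; `q 0` is in the gap `(q 3, q 1)` and
`x j` is in the gap `(q 1, q 2)` or `(q 2, q 3)`: against `med_all`.

`tri_one` (`m = 0`): `q 0, q 1` adjacent, neither `x i` nor `x j` in the gap `(q 0, q 1)`, not both in the gap
`(q 1, q 2)`, not both in the gap `(q 3, q 0)`. Cut at `q 0`: after `q 1` come the four points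
`q 2, q 3, x, y` with `q 2` before `q 3`. If `x` is in `(q 1, q 2)` and `y` in `(q 2, q 3)`: `rule` for
`q 0, q 1, x, q 2, y, q 3`; `x` in `(q 1, q 2)`, `y` in `(q 3, q 0)`: `q 0, q 1, x, q 2, q 3, y`; `x` in
`(q 2, q 3)`, `y` in `(q 3, q 0)`: `q 0, q 1, q 2, x, q 3, y`; both in `(q 2, q 3)`: `tri_weak`.

`tri_two` (`m = 0`): `q 0, q 1` adjacent, `q 2, q 3` adjacent, `x i, x j` adjacent: not both in the gap
`(q 1, q 2)`: `rule` for `q 0, q 1, x, y, q 2, q 3`; not both in the gap `(q 3, q 0)`: `rule` for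
`q 0, q 1, q 2, q 3, x, y`.
-/

set_option autoImplicit false

namespace Pool.Agent.Lib.MP_a3b162_co.CS

open Finset
open scoped Classical

variable {V : Type} {G : SimpleGraph V} {x : Fin 3 → V} {q : Fin 4 → V} {g : Fin 3 → Fin 4}

theorem ATriR_btw {S : Finset V} {C : V → V → V → Prop} (H : Hexa G S C) {o a b y : V}
    (h : C o a b) (hy : C a y b) : C o a y ∧ C o y b := by
  constructor
  · exact H.rot (H.rot (H.trans hy (H.rot h)))
  · exact H.rot (H.trans (H.rot (H.rot h)) (H.rot (H.rot hy)))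

theorem ATriR_pos {S : Finset V} {C : V → V → V → Prop} (H : Hexa G S C) {q : Fin 4 → V} {y : V}
    {a : Fin 4} (hq : ∀ m, q m ∈ S) (hy : y ∈ S) (hne : ∀ m, q m ≠ y) (qinj : Function.Injective q)
    (h1 : C (q 0) (q 1) (q 2)) (h2 : C (q 0) (q 2) (q 3))
    (h3 : ∀ m, C (q m) (q (m + 1)) y ↔ a ≠ m) :
    (a = 1 → C (q 0) (q 1) y ∧ C (q 0) y (q 2)) ∧ (a = 2 → C (q 0) (q 2) y ∧ C (q 0) y (q 3)) ∧
    (a = 3 → C (q 0) (q 3) y) := by
  have n12 : q 1 ≠ q 2 := fun h => absurd (qinj h) (by decide)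
  have n23 : q 2 ≠ q 3 := fun h => absurd (qinj h) (by decide)
  have n30 : q 3 ≠ q 0 := fun h => absurd (qinj h) (by decide)
  refine ⟨fun ha => ?_, fun ha => ?_, fun ha => ?_⟩
  · have h4 : ¬ C (q 1) (q 2) y := fun h => (h3 1).1 h ha
    rcases H.total (hq 1) (hq 2) hy n12 (hne 2) (hne 1) with h5 | h5
    · exact absurd h5 h4
    · exact ATriR_btw H h1 h5
  · have h4 : ¬ C (q 2) (q 3) y := fun h => (h3 2).1 h ha
    rcases H.total (hq 2) (hq 3) hy n23 (hne 3) (hne 2) with h5 | h5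
    · exact absurd h5 h4
    · exact ATriR_btw H h2 h5
  · have h4 : ¬ C (q 3) (q 0) y := fun h => (h3 3).1 h ha
    rcases H.total (hq 3) (hq 0) hy n30 (hne 0) (hne 3) with h5 | h5
    · exact absurd h5 h4
    · exact H.rot (H.rot h5)

theorem ATriR_rot1 (T : Tri G x q g) : Tri G x (fun l => q (l + 1)) (fun i => g i - 1) := by
  refine { adj := fun i m => T.adj i (m + 1), xinj := T.xinj, qinj := fun a b hab => ?_, hexa := ?_ }
  · exact add_right_cancel (T.qinj hab)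
  · intro i j hij
    obtain ⟨C, H, h1, h2, h3, h4⟩ := T.hexa i j hij
    have hS : ({q (0 + 1), q (1 + 1), q (2 + 1), q (3 + 1), x i, x j} : Finset V) =
        {q 0, q 1, q 2, q 3, x i, x j} := by
      show ({q 1, q 2, q 3, q 0, x i, x j} : Finset V) = {q 0, q 1, q 2, q 3, x i, x j}
      ext z
      simp only [Finset.mem_insert, Finset.mem_singleton]
      tauto
    have key : ∀ (m : Fin 4) (a : Fin 4), a - 1 ≠ m ↔ a ≠ m + 1 := by decide
    refine ⟨C, hS ▸ H, ?_, ?_, ?_, ?_⟩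
    · show C (q 1) (q 2) (q 3)
      exact H.rot (H.rot (H.trans (H.rot h2) (H.rot (H.rot h1))))
    · show C (q 1) (q 3) (q 0)
      exact H.rot (H.trans h1 h2)
    · intro m
      exact (h3 (m + 1)).trans (key m (g j)).symm
    · intro m
      exact (h4 (m + 1)).trans (key m (g i)).symm

theorem tri_rot (T : Tri G x q g) (m : Fin 4) :
    Tri G x (fun l => q (l + m)) (fun i => g i - m) := by
  have hm : m = 0 ∨ m = 1 ∨ m = 2 ∨ m = 3 := by
    revert m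
    decide
  rcases hm with rfl | rfl | rfl | rfl
  · have e1 : (fun l => q (l + 0)) = q := funext fun l => by rw [add_zero]
    have e2 : (fun i => g i - 0) = g := funext fun i => by rw [sub_zero]
    rw [e1, e2]
    exact T
  · exact ATriR_rot1 T
  · have h := ATriR_rot1 (ATriR_rot1 T)
    have e1 : (fun l => q (l + 2)) = fun l => q (l + 1 + 1) := funext fun l => by
      rw [add_assoc]; rfl
    have e2 : (fun i => g i - 2) = fun i => g i - 1 - 1 := funext fun i => by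
      rw [sub_sub]; rfl
    rw [e1, e2]
    exact h
  · have h := ATriR_rot1 (ATriR_rot1 (ATriR_rot1 T))
    have e1 : (fun l => q (l + 3)) = fun l => q (l + 1 + 1 + 1) := funext fun l => by
      rw [add_assoc, add_assoc]; rfl
    have e2 : (fun i => g i - 3) = fun i => g i - 1 - 1 - 1 := funext fun i => by
      rw [sub_sub, sub_sub]; rfl
    rw [e1, e2]
    exact h

/-- the hexagon of `x i`, `x j`, cut at `q 0` -/
theorem ATriR_pack (T : Tri G x q g) {i j : Fin 3} (hij : i ≠ j) :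
    ∃ (S : Finset V) (C : V → V → V → Prop), Hexa G S C ∧ (∀ m, q m ∈ S) ∧ x i ∈ S ∧ x j ∈ S ∧
      C (q 0) (q 1) (q 2) ∧ C (q 0) (q 2) (q 3) ∧
      (∀ m, C (q m) (q (m + 1)) (x i) ↔ g j ≠ m) ∧ (∀ m, C (q m) (q (m + 1)) (x j) ↔ g i ≠ m) := by
  obtain ⟨C, H, h1, h2, h3, h4⟩ := T.hexa i j hij
  refine ⟨_, C, H, ?_, ?_, ?_, h1, h2, h3, h4⟩
  · intro m
    have hm : m = 0 ∨ m = 1 ∨ m = 2 ∨ m = 3 := by
      revert m
      decide
    rcases hm with rfl | rfl | rfl | rfl <;> simp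
  · simp
  · simp

/-- the linear order after the cut at `q 0` -/
theorem ATriR_ord (T : Tri G x q g) {i j : Fin 3} (hij : i ≠ j) :
    ∃ (S : Finset V) (C : V → V → V → Prop), Hexa G S C ∧ (∀ m, q m ∈ S) ∧ x i ∈ S ∧ x j ∈ S ∧
      C (q 0) (q 1) (q 2) ∧ C (q 0) (q 2) (q 3) ∧
      ((g j = 1 → C (q 0) (q 1) (x i) ∧ C (q 0) (x i) (q 2)) ∧
        (g j = 2 → C (q 0) (q 2) (x i) ∧ C (q 0) (x i) (q 3)) ∧ (g j = 3 → C (q 0) (q 3) (x i))) ∧
      ((g i = 1 → C (q 0) (q 1) (x j) ∧ C (q 0) (x j) (q 2)) ∧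
        (g i = 2 → C (q 0) (q 2) (x j) ∧ C (q 0) (x j) (q 3)) ∧ (g i = 3 → C (q 0) (q 3) (x j))) := by
  obtain ⟨S, C, H, hq, hi, hj, h1, h2, h3, h4⟩ := ATriR_pack T hij
  exact ⟨S, C, H, hq, hi, hj, h1, h2,
    ATriR_pos H hq hi (fun m => (T.adj i m).ne') T.qinj h1 h2 h3,
    ATriR_pos H hq hj (fun m => (T.adj j m).ne') T.qinj h1 h2 h4⟩

theorem ATriR_weak0 (T : Tri G x q g) {i j : Fin 3} (hij : i ≠ j) (hm : G.Adj (q 0) (q 1)) :
    ¬ (g i = 2 ∧ g j = 2) := by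
  rintro ⟨gi, gj⟩
  obtain ⟨S, C, H, hq, hi, hj, h1, h2, ⟨_, a2, _⟩, ⟨_, b2, _⟩⟩ := ATriR_ord T hij
  obtain ⟨a2, a2'⟩ := a2 gj
  obtain ⟨b2, b2'⟩ := b2 gi
  rcases H.total (hq 0) hi hj (T.adj i 0).ne' (fun h => hij (T.xinj h)) (T.adj j 0).ne' with h | h
  · exact H.rule (hq 0) (hq 1) (hq 2) hi hj (hq 3) h1 a2 h b2' ⟨hm, (T.adj i 2).symm, T.adj j 3⟩
  · exact H.rule (hq 0) (hq 1) (hq 2) hj hi (hq 3) h1 b2 h a2' ⟨hm, (T.adj j 2).symm, T.adj i 3⟩

theorem ATriR_LL0 (T : Tri G x q g) (h : ∀ l, l ≠ 0 → G.Adj (q 0) (q l)) (i : Fin 3) :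
    g i ≠ 1 ∧ g i ≠ 2 := by
  obtain ⟨j, hij⟩ : ∃ j : Fin 3, i ≠ j := by
    revert i
    decide
  obtain ⟨S, C, H, hq, hi, hj, h1, h2, h3, h4⟩ := ATriR_pack T hij
  have n : ∀ a b : Fin 4, a ≠ b → q a ≠ q b := fun a b hab h => hab (T.qinj h)
  have ni : ∀ a : Fin 4, q a ≠ x i := fun a => (T.adj i a).ne'
  have nj : ∀ a : Fin 4, q a ≠ x j := fun a => (T.adj j a).ne'
  have nij : x j ≠ x i := fun h => hij (T.xinj h).symm
  have hn : [q 1, q 2, q 3, q 0, x j, x i].Nodup := by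
    simp only [List.nodup_cons, List.mem_cons, List.not_mem_nil, or_false, not_or, List.nodup_nil,
      not_false_eq_true, and_true]
    exact ⟨⟨n 1 2 (by decide), n 1 3 (by decide), n 1 0 (by decide), nj 1, ni 1⟩,
      ⟨n 2 3 (by decide), n 2 0 (by decide), nj 2, ni 2⟩, ⟨n 3 0 (by decide), nj 3, ni 3⟩,
      ⟨nj 0, ni 0⟩, nij⟩
  have h123 : C (q 1) (q 2) (q 3) := H.rot (H.rot (H.trans (H.rot h2) (H.rot (H.rot h1))))
  obtain ⟨m1, m2, _⟩ := med_all H (hq 1) (hq 2) (hq 3) (hq 0) hj hi hn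
    (h 1 (by decide)) (h 2 (by decide)) (h 3 (by decide)) (T.adj j 1) (T.adj j 2) (T.adj j 3)
    (T.adj i 1) (T.adj i 2) (T.adj i 3) h123
  exact ⟨(h4 1).1 (m1.1 (H.rot h1)), (h4 2).1 (m2.1 (H.rot h2))⟩

theorem ATriR_one_aux (T : Tri G x q g) {i j : Fin 3} (hij : i ≠ j) (hm : G.Adj (q 0) (q 1)) :
    ¬ (g j = 1 ∧ g i = 2) ∧ ¬ (g j = 1 ∧ g i = 3) ∧ ¬ (g j = 2 ∧ g i = 3) := by
  obtain ⟨S, C, H, hq, hi, hj, h1, h2, ⟨a1, a2, a3⟩, ⟨b1, b2, b3⟩⟩ := ATriR_ord T hij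
  refine ⟨?_, ?_, ?_⟩
  · rintro ⟨gj, gi⟩
    exact H.rule (hq 0) (hq 1) hi (hq 2) hj (hq 3) (a1 gj).1 (a1 gj).2 (b2 gi).1 (b2 gi).2
      ⟨hm, T.adj i 2, T.adj j 3⟩
  · rintro ⟨gj, gi⟩
    exact H.rule (hq 0) (hq 1) hi (hq 2) (hq 3) hj (a1 gj).1 (a1 gj).2 h2 (b3 gi)
      ⟨hm, T.adj i 2, (T.adj j 3).symm⟩
  · rintro ⟨gj, gi⟩
    exact H.rule (hq 0) (hq 1) (hq 2) hi (hq 3) hj h1 (a2 gj).1 (a2 gj).2 (b3 gi)
      ⟨hm, (T.adj i 2).symm, (T.adj j 3).symm⟩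

theorem ATriR_one0 (T : Tri G x q g) {i j : Fin 3} (hij : i ≠ j) (hm : G.Adj (q 0) (q 1)) :
    g i = 0 ∨ g j = 0 ∨ (g i = 1 ∧ g j = 1) ∨ (g i = 3 ∧ g j = 3) := by
  have h1 := ATriR_one_aux T hij hm
  have h2 := ATriR_one_aux T hij.symm hm
  have h3 := ATriR_weak0 T hij hm
  generalize g i = a at *
  generalize g j = b at *
  clear T hm hij
  revert a b
  decide

theorem ATriR_two0 (T : Tri G x q g) {i j : Fin 3} (hij : i ≠ j) (hx : G.Adj (x i) (x j))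
    (hm : G.Adj (q 0) (q 1)) (hm' : G.Adj (q 2) (q 3)) :
    ¬ (g i = 1 ∧ g j = 1) ∧ ¬ (g i = 3 ∧ g j = 3) := by
  obtain ⟨S, C, H, hq, hi, hj, h1, h2, ⟨a1, a2, a3⟩, ⟨b1, b2, b3⟩⟩ := ATriR_ord T hij
  constructor
  · rintro ⟨gi, gj⟩
    rcases H.total (hq 0) hi hj (T.adj i 0).ne' (fun h => hij (T.xinj h)) (T.adj j 0).ne' with h | h
    · exact H.rule (hq 0) (hq 1) hi hj (hq 2) (hq 3) (a1 gj).1 h (b1 gi).2 h2 ⟨hm, hx, hm'⟩
    · exact H.rule (hq 0) (hq 1) hj hi (hq 2) (hq 3) (b1 gi).1 h (a1 gj).2 h2 ⟨hm, hx.symm, hm'⟩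
  · rintro ⟨gi, gj⟩
    rcases H.total (hq 0) hi hj (T.adj i 0).ne' (fun h => hij (T.xinj h)) (T.adj j 0).ne' with h | h
    · exact H.rule (hq 0) (hq 1) (hq 2) (hq 3) hi hj h1 h2 (a3 gj) h ⟨hm, hm', hx⟩
    · exact H.rule (hq 0) (hq 1) (hq 2) (hq 3) hj hi h1 h2 (b3 gi) h ⟨hm, hm', hx.symm⟩

theorem tri_weak (T : Tri G x q g) {i j : Fin 3} (hij : i ≠ j) {m : Fin 4}
    (hm : G.Adj (q m) (q (m + 1))) : ¬ (g i = m + 2 ∧ g j = m + 2) := by
  have h := ATriR_weak0 (tri_rot T m) hij (by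
    show G.Adj (q (0 + m)) (q (1 + m))
    rw [zero_add, add_comm 1 m]
    exact hm)
  have key : ∀ a m : Fin 4, a - m = 2 ↔ a = m + 2 := by decide
  simpa only [key] using h

theorem tri_LL (T : Tri G x q g) {m : Fin 4} (h : ∀ l, l ≠ m → G.Adj (q m) (q l)) (i : Fin 3) :
    g i = m ∨ g i = m + 3 := by
  have h1 := ATriR_LL0 (tri_rot T m) (by
    intro l hl
    show G.Adj (q (0 + m)) (q (l + m))
    rw [zero_add]
    exact h _ (fun e => hl (by simpa using e))) i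
  have key : ∀ a m : Fin 4, a - m ≠ 1 ∧ a - m ≠ 2 → a = m ∨ a = m + 3 := by decide
  exact key _ _ h1

theorem tri_one (T : Tri G x q g) {i j : Fin 3} (hij : i ≠ j) {m : Fin 4}
    (hm : G.Adj (q m) (q (m + 1))) :
    g i = m ∨ g j = m ∨ (g i = m + 1 ∧ g j = m + 1) ∨ (g i = m + 3 ∧ g j = m + 3) := by
  have h := ATriR_one0 (tri_rot T m) hij (by
    show G.Adj (q (0 + m)) (q (1 + m))
    rw [zero_add, add_comm 1 m]
    exact hm)
  have k0 : ∀ a m : Fin 4, a - m = 0 ↔ a = m := by decide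
  have k1 : ∀ a m : Fin 4, a - m = 1 ↔ a = m + 1 := by decide
  have k3 : ∀ a m : Fin 4, a - m = 3 ↔ a = m + 3 := by decide
  simpa only [k0, k1, k3] using h

theorem tri_two (T : Tri G x q g) {i j : Fin 3} (hij : i ≠ j) (hx : G.Adj (x i) (x j)) {m : Fin 4}
    (hm : G.Adj (q m) (q (m + 1))) (hm' : G.Adj (q (m + 2)) (q (m + 3))) :
    ¬ (g i = m + 1 ∧ g j = m + 1) ∧ ¬ (g i = m + 3 ∧ g j = m + 3) := by
  have h := ATriR_two0 (tri_rot T m) hij hx (by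
    show G.Adj (q (0 + m)) (q (1 + m))
    rw [zero_add, add_comm 1 m]
    exact hm) (by
    show G.Adj (q (2 + m)) (q (3 + m))
    rw [add_comm 2 m, add_comm 3 m]
    exact hm')
  have k1 : ∀ a m : Fin 4, a - m = 1 ↔ a = m + 1 := by decide
  have k3 : ∀ a m : Fin 4, a - m = 3 ↔ a = m + 3 := by decide
  simpa only [k1, k3] using h

end Pool.Agent.Lib.MP_a3b162_co.CS
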