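import Pool.Agent.Lib.MP_a3b162_co.CS.ATri
import Pool.Agent.Lib.MP_a3b162_co.CS.ATriR

/-!
Module ARin: consequences for an edge `b < c` of a chain; `α z = Ar u k i b c z`.
`k, i, j` are the three indices, so `Ar u k i` is the plane of the gap `g j` and `Ar u k j` of `g i`.

* `R_in`: if `y1 = y2` the product is a square. Otherwise assume `y1 < y2` (symmetry); `tri_exists` for
  `b, y1, y2, c`: `α y1 = - C`, `α y2 = - B` (`Ar_perm`), so `α y1 * α y2 = B * C`; both negative means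
  `g i = g j = 1`; `b c` is the side `(q 3, q 0)`: `tri_weak` with `m = 3`.
* `R_same`, both `> c`: `b, c, y1, y2`: `α y1 = D`, `α y2 = C`: `g = 2`, side `(q 0, q 1)`, `m = 0`.
  Both `< b`: `y1, y2, b, c`: `α y1 = B`, `α y2 = A`: `g = 0`, side `(q 2, q 3)`, `m = 2`.
* `R_opp`: `y1, b, c, y2`: `α y1 = D`, `α y2 = A`: positive product means `g = 3`, side `(q 1, q 2)`, `m = 1`.
* `S3_b`: `b` adjacent to `c, p, q`, `b < p < c`. `q > c`: `b, p, c, q`, `tri_LL` with `m = 0`: `g j ∈ {0, 3}`, so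
  `B C > 0`, `C D > 0`, `B D > 0`; `α p = - D`, `α q = B`: product negative. `q < b`: `q, b, p, c`, `m = 1`:
  `g j ∈ {1, 0}`: `C D > 0` and `A D < 0`, so `A C < 0`; `α p = - A`, `α q = C`: product positive.
* `S3_c`: `c` adjacent to `b, p, q`, `b < p < c`. `q > c`: `b, p, c, q`, `m = 2`: `g j ∈ {2, 1}`: `A D < 0`,
  `A B > 0`, so `B D < 0`; `α p = - D`, `α q = B`: product positive. `q < b`: `q, b, p, c`, `m = 3`:
  `g j ∈ {3, 2}`: `A B > 0`, `B C > 0`; `α p = - A`, `α q = C`: product negative.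
(`sign_change` gives the signs of all products from the value of `g j`.)
-/

set_option autoImplicit false

namespace Pool.Agent.Lib.MP_a3b162_co.CS

theorem ARin_third : ∀ i j : Fin 3, ∃ k : Fin 3, i ≠ k ∧ j ≠ k := by
  decide

theorem ARin_f31 : (3 : Fin 4) + 1 = 0 := by decide
theorem ARin_f32 : (3 : Fin 4) + 2 = 1 := by decide
theorem ARin_f33 : (3 : Fin 4) + 3 = 2 := by decide
theorem ARin_f01 : (0 : Fin 4) + 1 = 1 := by decide
theorem ARin_f02 : (0 : Fin 4) + 2 = 2 := by decide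
theorem ARin_f03 : (0 : Fin 4) + 3 = 3 := by decide
theorem ARin_f21 : (2 : Fin 4) + 1 = 3 := by decide
theorem ARin_f22 : (2 : Fin 4) + 2 = 0 := by decide
theorem ARin_f23 : (2 : Fin 4) + 3 = 1 := by decide
theorem ARin_f11 : (1 : Fin 4) + 1 = 2 := by decide
theorem ARin_f12 : (1 : Fin 4) + 2 = 3 := by decide
theorem ARin_f13 : (1 : Fin 4) + 3 = 0 := by decide

theorem ARin_cases : ∀ l : Fin 4, l = 0 ∨ l = 1 ∨ l = 2 ∨ l = 3 := by
  decide

theorem ARin_pp {a b c : ℝ} (h1 : 0 < a * b) (h2 : 0 < b * c) : 0 < a * c := by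
  have hb : b ≠ 0 := by rintro rfl; simp at h1
  have h3 : 0 < (a * b) * (b * c) := mul_pos h1 h2
  have h4 : (a * b) * (b * c) = (b * b) * (a * c) := by ring
  rw [h4] at h3
  exact (mul_pos_iff_of_pos_left (mul_self_pos.2 hb)).1 h3

theorem ARin_pn {a b c : ℝ} (h1 : 0 < a * b) (h2 : b * c < 0) : a * c < 0 := by
  have h := ARin_pp (a := a) (b := b) (c := - c) h1 (by linarith [mul_neg b c])
  linarith [mul_neg a c]

theorem ARin_np {a b c : ℝ} (h1 : a * b < 0) (h2 : 0 < b * c) : a * c < 0 := by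
  have h := ARin_pp (a := - a) (b := b) (c := c) (by linarith [neg_mul a b]) h2
  linarith [neg_mul a c]

open Finset
open scoped Classical

variable {V : Type} {G : SimpleGraph V} {u : V → Fin 4 → ℝ} {x : Fin 3 → V} {Z : Finset V}

theorem ARin_co (h : Chain G u x Z) {a b : V} (ma : a ∈ Z) (mb : b ∈ Z) (hne : a ≠ b) :
    co u a 0 < co u b 0 ∨ co u b 0 < co u a 0 := by
  rcases lt_trichotomy (co u a 0) (co u b 0) with h1 | h1 | h1
  · exact Or.inl h1
  · exact absurd (h.coinj 0 ma mb h1) hne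
  · exact Or.inr h1

theorem ARin_sq (k i : Fin 3) (b c y1 y2 : V) (hy : y1 = y2) :
    ¬ (Ar u k i b c y1 * Ar u k i b c y2 < 0) := by
  subst hy
  exact not_lt.2 (mul_self_nonneg _)

theorem ARin_in_lt (h : Chain G u x Z) {b c y1 y2 : V} (mb : b ∈ Z) (mc : c ∈ Z) (m1 : y1 ∈ Z)
    (m2 : y2 ∈ Z) {k i j : Fin 3} (hki : k ≠ i) (hkj : k ≠ j) (hij : i ≠ j) (hbc : G.Adj b c)
    (h1 : co u b 0 < co u y1 0) (h12 : co u y1 0 < co u y2 0) (h2' : co u y2 0 < co u c 0) :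
    ¬ (Ar u k i b c y1 * Ar u k i b c y2 < 0 ∧ Ar u k j b c y1 * Ar u k j b c y2 < 0) := by
  rintro ⟨e1, e2⟩
  obtain ⟨g, T, hg⟩ := tri_exists h mb m1 m2 mc h1 h12 h2'
  have t1 := (hg k i j hki hkj hij).2.1
  have t2 := (hg k j i hkj hki hij.symm).2.1
  have g1 : g j = 1 := by
    rw [t1, ← neg_mul_neg, ← (Ar_perm (u := u) k i b y2 c).2.2.1, ← (Ar_perm (u := u) k i b y1 c).2.2.1,
      mul_comm]
    exact e1
  have g2 : g i = 1 := by
    rw [t2, ← neg_mul_neg, ← (Ar_perm (u := u) k j b y2 c).2.2.1, ← (Ar_perm (u := u) k j b y1 c).2.2.1,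
      mul_comm]
    exact e2
  have hw := tri_weak T hij (m := 3) (by rw [ARin_f31]; exact hbc.symm)
  rw [ARin_f32] at hw
  exact hw ⟨g2, g1⟩

theorem R_in (h : Chain G u x Z) {b c y1 y2 : V} (mb : b ∈ Z) (mc : c ∈ Z) (m1 : y1 ∈ Z)
    (m2 : y2 ∈ Z) {k i j : Fin 3} (hki : k ≠ i) (hkj : k ≠ j) (hij : i ≠ j) (hbc : G.Adj b c)
    (h1 : co u b 0 < co u y1 0) (h1' : co u y1 0 < co u c 0)
    (h2 : co u b 0 < co u y2 0) (h2' : co u y2 0 < co u c 0) :
    ¬ (Ar u k i b c y1 * Ar u k i b c y2 < 0 ∧ Ar u k j b c y1 * Ar u k j b c y2 < 0) := by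
  by_cases hy : y1 = y2
  · exact fun hh => ARin_sq k i b c y1 y2 hy hh.1
  · rcases ARin_co h m1 m2 hy with h3 | h3
    · exact ARin_in_lt h mb mc m1 m2 hki hkj hij hbc h1 h3 h2'
    · intro hh
      refine ARin_in_lt h mb mc m2 m1 hki hkj hij hbc h2 h3 h1' ?_
      rw [mul_comm, mul_comm (Ar u k j b c y2)]
      exact hh

theorem ARin_gt (h : Chain G u x Z) {b c y1 y2 : V} (mb : b ∈ Z) (mc : c ∈ Z) (m1 : y1 ∈ Z)
    (m2 : y2 ∈ Z) {k i j : Fin 3} (hki : k ≠ i) (hkj : k ≠ j) (hij : i ≠ j) (hbc : G.Adj b c)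
    (hlt : co u b 0 < co u c 0) (h1 : co u c 0 < co u y1 0) (h12 : co u y1 0 < co u y2 0) :
    ¬ (Ar u k i b c y1 * Ar u k i b c y2 < 0 ∧ Ar u k j b c y1 * Ar u k j b c y2 < 0) := by
  rintro ⟨e1, e2⟩
  obtain ⟨g, T, hg⟩ := tri_exists h mb mc m1 m2 hlt h1 h12
  have g1 : g j = 2 := by
    rw [(hg k i j hki hkj hij).2.2.1, mul_comm]
    exact e1
  have g2 : g i = 2 := by
    rw [(hg k j i hkj hki hij.symm).2.2.1, mul_comm]
    exact e2
  have hw := tri_weak T hij (m := 0) (by rw [ARin_f01]; exact hbc)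
  rw [ARin_f02] at hw
  exact hw ⟨g2, g1⟩

theorem ARin_lt (h : Chain G u x Z) {b c y1 y2 : V} (mb : b ∈ Z) (mc : c ∈ Z) (m1 : y1 ∈ Z)
    (m2 : y2 ∈ Z) {k i j : Fin 3} (hki : k ≠ i) (hkj : k ≠ j) (hij : i ≠ j) (hbc : G.Adj b c)
    (hlt : co u b 0 < co u c 0) (h12 : co u y1 0 < co u y2 0) (h2 : co u y2 0 < co u b 0) :
    ¬ (Ar u k i b c y1 * Ar u k i b c y2 < 0 ∧ Ar u k j b c y1 * Ar u k j b c y2 < 0) := by
  rintro ⟨e1, e2⟩
  obtain ⟨g, T, hg⟩ := tri_exists h m1 m2 mb mc h12 h2 hlt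
  have g1 : g j = 0 := by
    rw [(hg k i j hki hkj hij).1, ← (Ar_perm (u := u) k i y2 b c).1, ← (Ar_perm (u := u) k i y1 b c).1,
      mul_comm]
    exact e1
  have g2 : g i = 0 := by
    rw [(hg k j i hkj hki hij.symm).1, ← (Ar_perm (u := u) k j y2 b c).1,
      ← (Ar_perm (u := u) k j y1 b c).1, mul_comm]
    exact e2
  have hw := tri_weak T hij (m := 2) (by rw [ARin_f21]; exact hbc)
  rw [ARin_f22] at hw
  exact hw ⟨g2, g1⟩

theorem R_same (h : Chain G u x Z) {b c y1 y2 : V} (mb : b ∈ Z) (mc : c ∈ Z) (m1 : y1 ∈ Z)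
    (m2 : y2 ∈ Z) {k i j : Fin 3} (hki : k ≠ i) (hkj : k ≠ j) (hij : i ≠ j) (hbc : G.Adj b c)
    (hlt : co u b 0 < co u c 0)
    (h1 : (co u c 0 < co u y1 0 ∧ co u c 0 < co u y2 0) ∨
      (co u y1 0 < co u b 0 ∧ co u y2 0 < co u b 0)) :
    ¬ (Ar u k i b c y1 * Ar u k i b c y2 < 0 ∧ Ar u k j b c y1 * Ar u k j b c y2 < 0) := by
  by_cases hy : y1 = y2
  · exact fun hh => ARin_sq k i b c y1 y2 hy hh.1
  · rcases ARin_co h m1 m2 hy with h3 | h3
    · rcases h1 with ⟨h4, h5⟩ | ⟨h4, h5⟩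
      · exact ARin_gt h mb mc m1 m2 hki hkj hij hbc hlt h4 h3
      · exact ARin_lt h mb mc m1 m2 hki hkj hij hbc hlt h3 h5
    · intro hh
      rw [mul_comm, mul_comm (Ar u k j b c y1)] at hh
      rcases h1 with ⟨h4, h5⟩ | ⟨h4, h5⟩
      · exact ARin_gt h mb mc m2 m1 hki hkj hij hbc hlt h5 h3 hh
      · exact ARin_lt h mb mc m2 m1 hki hkj hij hbc hlt h3 h4 hh

theorem R_opp (h : Chain G u x Z) {b c y1 y2 : V} (mb : b ∈ Z) (mc : c ∈ Z) (m1 : y1 ∈ Z)
    (m2 : y2 ∈ Z) {k i j : Fin 3} (hki : k ≠ i) (hkj : k ≠ j) (hij : i ≠ j) (hbc : G.Adj b c)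
    (hlt : co u b 0 < co u c 0) (h1 : co u y1 0 < co u b 0) (h2 : co u c 0 < co u y2 0) :
    ¬ (0 < Ar u k i b c y1 * Ar u k i b c y2 ∧ 0 < Ar u k j b c y1 * Ar u k j b c y2) := by
  rintro ⟨e1, e2⟩
  obtain ⟨g, T, hg⟩ := tri_exists h m1 mb mc m2 h1 hlt h2
  have g1 : g j = 3 := by
    rw [(hg k i j hki hkj hij).2.2.2, ← (Ar_perm (u := u) k i y1 b c).1, mul_comm]
    exact e1
  have g2 : g i = 3 := by
    rw [(hg k j i hkj hki hij.symm).2.2.2, ← (Ar_perm (u := u) k j y1 b c).1, mul_comm]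
    exact e2
  have hw := tri_weak T hij (m := 1) (by rw [ARin_f11]; exact hbc)
  rw [ARin_f12] at hw
  exact hw ⟨g2, g1⟩

theorem S3_b (h : Chain G u x Z) {b c p q : V} (mb : b ∈ Z) (mc : c ∈ Z) (mp : p ∈ Z)
    (mq : q ∈ Z) {k i : Fin 3} (hki : k ≠ i) (hbc : G.Adj b c) (hbp : G.Adj b p)
    (hbq : G.Adj b q) (h1 : co u b 0 < co u p 0) (h2 : co u p 0 < co u c 0) :
    (co u c 0 < co u q 0 → Ar u k i b c p * Ar u k i b c q < 0) ∧
    (co u q 0 < co u b 0 → 0 < Ar u k i b c p * Ar u k i b c q) := by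
  obtain ⟨j, hkj, hij⟩ := ARin_third k i
  constructor
  · intro h3
    obtain ⟨g, T, hg⟩ := tri_exists h mb mp mc mq h1 h2 h3
    have hadj : ∀ l, l ≠ 0 → G.Adj (![b, p, c, q] 0) (![b, p, c, q] l) := by
      intro l hl
      rcases ARin_cases l with rfl | rfl | rfl | rfl
      · exact absurd rfl hl
      · exact hbp
      · exact hbc
      · exact hbq
    have hL := tri_LL T hadj j
    rw [ARin_f03] at hL
    obtain ⟨t0, t1, t2, t3⟩ := hg k i j hki hkj hij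
    have hs := sign_change h mb mp mc mq h1 h2 h3 hki rfl rfl rfl rfl
    rw [(Ar_perm (u := u) k i b p c).2.2.1, neg_mul, neg_lt_zero, mul_comm]
    rcases hL with hL | hL
    · rcases hs with hs | hs | hs | hs
      · exact ARin_pp hs.2.1 hs.2.2.1
      · exact absurd (t0.1 hL) (not_lt.2 hs.1.le)
      · exact absurd (t0.1 hL) (not_lt.2 hs.1.le)
      · exact absurd (t0.1 hL) (not_lt.2 hs.1.le)
    · rcases hs with hs | hs | hs | hs
      · exact absurd (t3.1 hL) (not_lt.2 hs.2.2.2.le)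
      · exact absurd (t3.1 hL) (not_lt.2 hs.2.2.2.le)
      · exact absurd (t3.1 hL) (not_lt.2 hs.2.2.2.le)
      · exact ARin_pp hs.2.1 hs.2.2.1
  · intro h3
    obtain ⟨g, T, hg⟩ := tri_exists h mq mb mp mc h3 h1 h2
    have hadj : ∀ l, l ≠ 1 → G.Adj (![q, b, p, c] 1) (![q, b, p, c] l) := by
      intro l hl
      rcases ARin_cases l with rfl | rfl | rfl | rfl
      · exact hbq
      · exact absurd rfl hl
      · exact hbp
      · exact hbc
    have hL := tri_LL T hadj j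
    rw [ARin_f13] at hL
    obtain ⟨t0, t1, t2, t3⟩ := hg k i j hki hkj hij
    have hs := sign_change h mq mb mp mc h3 h1 h2 hki rfl rfl rfl rfl
    rw [(Ar_perm (u := u) k i b p c).2.2.1, (Ar_perm (u := u) k i q b c).1, neg_mul, neg_pos]
    rcases hL with hL | hL
    · rcases hs with hs | hs | hs | hs
      · exact ARin_np hs.1 hs.2.1
      · exact ARin_pn hs.1 hs.2.1
      · exact absurd (t1.1 hL) (not_lt.2 hs.2.1.le)
      · exact absurd (t1.1 hL) (not_lt.2 hs.2.1.le)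
    · rcases hs with hs | hs | hs | hs
      · exact ARin_np hs.1 hs.2.1
      · exact ARin_pn hs.1 hs.2.1
      · exact absurd (t0.1 hL) (not_lt.2 hs.1.le)
      · exact absurd (t0.1 hL) (not_lt.2 hs.1.le)

theorem S3_c (h : Chain G u x Z) {b c p q : V} (mb : b ∈ Z) (mc : c ∈ Z) (mp : p ∈ Z)
    (mq : q ∈ Z) {k i : Fin 3} (hki : k ≠ i) (hbc : G.Adj b c) (hcp : G.Adj c p)
    (hcq : G.Adj c q) (h1 : co u b 0 < co u p 0) (h2 : co u p 0 < co u c 0) :
    (co u c 0 < co u q 0 → 0 < Ar u k i b c p * Ar u k i b c q) ∧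
    (co u q 0 < co u b 0 → Ar u k i b c p * Ar u k i b c q < 0) := by
  obtain ⟨j, hkj, hij⟩ := ARin_third k i
  constructor
  · intro h3
    obtain ⟨g, T, hg⟩ := tri_exists h mb mp mc mq h1 h2 h3
    have hadj : ∀ l, l ≠ 2 → G.Adj (![b, p, c, q] 2) (![b, p, c, q] l) := by
      intro l hl
      rcases ARin_cases l with rfl | rfl | rfl | rfl
      · exact hbc.symm
      · exact hcp
      · exact absurd rfl hl
      · exact hcq
    have hL := tri_LL T hadj j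
    rw [ARin_f23] at hL
    obtain ⟨t0, t1, t2, t3⟩ := hg k i j hki hkj hij
    have hs := sign_change h mb mp mc mq h1 h2 h3 hki rfl rfl rfl rfl
    rw [(Ar_perm (u := u) k i b p c).2.2.1, neg_mul, neg_pos, mul_comm]
    rcases hL with hL | hL
    · rcases hs with hs | hs | hs | hs
      · exact absurd (t2.1 hL) (not_lt.2 hs.2.2.1.le)
      · exact absurd (t2.1 hL) (not_lt.2 hs.2.2.1.le)
      · exact ARin_pn hs.2.1 hs.2.2.1
      · exact absurd (t2.1 hL) (not_lt.2 hs.2.2.1.le)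
    · rcases hs with hs | hs | hs | hs
      · exact absurd (t1.1 hL) (not_lt.2 hs.2.1.le)
      · exact ARin_np hs.2.1 hs.2.2.1
      · exact absurd (t1.1 hL) (not_lt.2 hs.2.1.le)
      · exact absurd (t1.1 hL) (not_lt.2 hs.2.1.le)
  · intro h3
    obtain ⟨g, T, hg⟩ := tri_exists h mq mb mp mc h3 h1 h2
    have hadj : ∀ l, l ≠ 3 → G.Adj (![q, b, p, c] 3) (![q, b, p, c] l) := by
      intro l hl
      rcases ARin_cases l with rfl | rfl | rfl | rfl
      · exact hcq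
      · exact hbc.symm
      · exact hcp
      · exact absurd rfl hl
    have hL := tri_LL T hadj j
    rw [ARin_f33] at hL
    obtain ⟨t0, t1, t2, t3⟩ := hg k i j hki hkj hij
    have hs := sign_change h mq mb mp mc h3 h1 h2 hki rfl rfl rfl rfl
    rw [(Ar_perm (u := u) k i b p c).2.2.1, (Ar_perm (u := u) k i q b c).1, neg_mul, neg_lt_zero]
    rcases hL with hL | hL
    · rcases hs with hs | hs | hs | hs
      · exact absurd (t3.1 hL) (not_lt.2 hs.2.2.2.le)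
      · exact absurd (t3.1 hL) (not_lt.2 hs.2.2.2.le)
      · exact absurd (t3.1 hL) (not_lt.2 hs.2.2.2.le)
      · exact ARin_pp hs.1 hs.2.1
    · rcases hs with hs | hs | hs | hs
      · exact absurd (t2.1 hL) (not_lt.2 hs.2.2.1.le)
      · exact absurd (t2.1 hL) (not_lt.2 hs.2.2.1.le)
      · exact ARin_pp hs.1 hs.2.1
      · exact absurd (t2.1 hL) (not_lt.2 hs.2.2.1.le)

end Pool.Agent.Lib.MP_a3b162_co.CS
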