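import Pool.Agent.Lib.MP_a3b162_co.CS.AFL

/-!
Module AHP: graphs in which disjoint edges cross.

`Crossing`: for `a < b < c < d` not both `a b` and `c d` are edges and not both `a d` and `b c`.

`crossing_card` (Hopf-Pannwitz): every edge `(b, c) ∈ EE` is a first edge: otherwise not `IsF b (b, c)`:
there is a neighbour `p` of `b` with `b < p < c`; and not `IsF c (b, c)`: there is a neighbour `q` of `c`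
with `q > c`, or `q < b`. Then `b p` and `c q` violate `Crossing` (`b < p < c < q`: edges `b p`, `c q`;
`q < b < p < c`: edges `q c`, `b p`). So `card_le_of_F` and `ee_eq`.

`crossing_no_c4`: `z1 z2`, `z3 z4` are disjoint edges, also `z2 z3`, `z4 z1`. Order the four points: two
disjoint edges on four points `a < b < c < d` which satisfy `Crossing` are `a c` and `b d`; but the two
pairs of opposite edges of the 4-cycle are different partitions.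

`crossing_three`: three pairwise disjoint edges `(l1,u1)`, `(l2,u2)`, `(l3,u3)` (`l < u`): after
renumbering `l1 < l2 < l3`; crossing gives `l2 < u1 < u2`, `l3 < u1 < u3`, `l3 < u2 < u3`.
-/

set_option autoImplicit false

namespace Pool.Agent.Lib.MP_a3b162_co.CS

open Finset
open scoped Classical

variable {V : Type} {G : SimpleGraph V} {Z : Finset V} {h : V → ℝ}

/-- disjoint edges cross -/
def Crossing (G : SimpleGraph V) (Z : Finset V) (h : V → ℝ) : Prop :=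
  ∀ a ∈ Z, ∀ b ∈ Z, ∀ c ∈ Z, ∀ d ∈ Z, h a < h b → h b < h c → h c < h d →
    ¬ (G.Adj a b ∧ G.Adj c d) ∧ ¬ (G.Adj a d ∧ G.Adj b c)

/-- two disjoint edges interlace -/
theorem ahp_aux (hC : Crossing G Z h) {x y z w : V} (hx : x ∈ Z) (hy : y ∈ Z) (hz : z ∈ Z)
    (hw : w ∈ Z) (hxy : h x < h y) (hzw : h z < h w) (exy : G.Adj x y) (ezw : G.Adj z w)
    (n1 : h x ≠ h z) (n2 : h x ≠ h w) (n3 : h y ≠ h z) (n4 : h y ≠ h w) :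
    (h x < h z ∧ h z < h y ∧ h y < h w) ∨ (h z < h x ∧ h x < h w ∧ h w < h y) := by
  rcases lt_or_gt_of_ne n1 with a1 | a1
  · rcases lt_or_gt_of_ne n3 with a3 | a3
    · exact absurd ⟨exy, ezw⟩ (hC x hx y hy z hz w hw hxy a3 hzw).1
    · rcases lt_or_gt_of_ne n4 with a4 | a4
      · exact Or.inl ⟨a1, a3, a4⟩
      · exact absurd ⟨exy, ezw⟩ (hC x hx z hz w hw y hy a1 hzw a4).2
  · rcases lt_or_gt_of_ne n2 with a2 | a2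
    · rcases lt_or_gt_of_ne n4 with a4 | a4
      · exact absurd ⟨ezw, exy⟩ (hC z hz x hx y hy w hw a1 hxy a4).2
      · exact Or.inr ⟨a1, a2, a4⟩
    · exact absurd ⟨ezw, exy⟩ (hC z hz w hw x hx y hy hzw a2 hxy).1

theorem crossing_card (hinj : ∀ a ∈ Z, ∀ b ∈ Z, h a = h b → a = b) (hC : Crossing G Z h) :
    ee G Z Z ≤ 2 * Z.card := by
  rw [ee_eq hinj]
  apply Nat.mul_le_mul_left
  apply card_le_of_F hinj (EE G Z h)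
  rintro ⟨b, c⟩ he
  obtain ⟨hb, hc, hbc, hlt⟩ := mem_EE.1 he
  simp only at hb hc hbc hlt
  by_contra hcon
  push Not at hcon
  have hcU : c ∈ upN G Z h b := by simp only [upN, mem_filter]; exact ⟨hc, hbc, hlt⟩
  have hbD : b ∈ dnN G Z h c := by simp only [dnN, mem_filter]; exact ⟨hb, hbc.symm, hlt⟩
  have h1 : ∃ p ∈ upN G Z h b, h p < h c := by
    by_contra h1
    push Not at h1
    exact hcon b ⟨hb, Or.inl ⟨rfl, hcU, h1⟩⟩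
  obtain ⟨p, hp, hpc⟩ := h1
  simp only [upN, mem_filter] at hp
  obtain ⟨hpZ, hbp, hbp'⟩ := hp
  rcases (upN G Z h c).eq_empty_or_nonempty with h2 | ⟨q, hq⟩
  · have h3 : ∃ q ∈ dnN G Z h c, h q < h b := by
      by_contra h3
      push Not at h3
      exact hcon c ⟨hc, Or.inr ⟨h2, rfl, hbD, h3⟩⟩
    obtain ⟨q, hq, hqb⟩ := h3
    simp only [dnN, mem_filter] at hq
    exact (hC q hq.1 b hb p hpZ c hc hqb hbp' hpc).2 ⟨hq.2.1.symm, hbp⟩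
  · simp only [upN, mem_filter] at hq
    exact (hC b hb p hpZ c hc q hq.1 hbp' hpc hq.2.2).1 ⟨hbp, hq.2.1⟩

/-- two disjoint edges interlace, all orientations -/
theorem ahp_sep (hC : Crossing G Z h) {x y z w : V} (hx : x ∈ Z) (hy : y ∈ Z) (hz : z ∈ Z)
    (hw : w ∈ Z) (exy : G.Adj x y) (ezw : G.Adj z w) (n0 : h x ≠ h y) (n5 : h z ≠ h w)
    (n1 : h x ≠ h z) (n2 : h x ≠ h w) (n3 : h y ≠ h z) (n4 : h y ≠ h w) :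
    (h x < h z ∧ h z < h y ∧ h y < h w) ∨ (h z < h x ∧ h x < h w ∧ h w < h y) ∨
    (h y < h z ∧ h z < h x ∧ h x < h w) ∨ (h z < h y ∧ h y < h w ∧ h w < h x) ∨
    (h x < h w ∧ h w < h y ∧ h y < h z) ∨ (h w < h x ∧ h x < h z ∧ h z < h y) ∨
    (h y < h w ∧ h w < h x ∧ h x < h z) ∨ (h w < h y ∧ h y < h z ∧ h z < h x) := by
  rcases lt_or_gt_of_ne n0 with a0 | a0 <;> rcases lt_or_gt_of_ne n5 with a5 | a5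
  · rcases ahp_aux hC hx hy hz hw a0 a5 exy ezw n1 n2 n3 n4 with h1 | h1
    exacts [Or.inl h1, Or.inr (Or.inl h1)]
  · rcases ahp_aux hC hx hy hw hz a0 a5 exy ezw.symm n2 n1 n4 n3 with h1 | h1
    exacts [Or.inr (Or.inr (Or.inr (Or.inr (Or.inl h1)))),
      Or.inr (Or.inr (Or.inr (Or.inr (Or.inr (Or.inl h1)))))]
  · rcases ahp_aux hC hy hx hz hw a0 a5 exy.symm ezw n3 n4 n1 n2 with h1 | h1
    exacts [Or.inr (Or.inr (Or.inl h1)), Or.inr (Or.inr (Or.inr (Or.inl h1)))]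
  · rcases ahp_aux hC hy hx hw hz a0 a5 exy.symm ezw.symm n4 n3 n2 n1 with h1 | h1
    exacts [Or.inr (Or.inr (Or.inr (Or.inr (Or.inr (Or.inr (Or.inl h1)))))),
      Or.inr (Or.inr (Or.inr (Or.inr (Or.inr (Or.inr (Or.inr h1))))))]

theorem crossing_no_c4 (hinj : ∀ a ∈ Z, ∀ b ∈ Z, h a = h b → a = b) (hC : Crossing G Z h)
    {z1 z2 z3 z4 : V} (h1 : z1 ∈ Z) (h2 : z2 ∈ Z) (h3 : z3 ∈ Z) (h4 : z4 ∈ Z)
    (h13 : z1 ≠ z3) (h24 : z2 ≠ z4) (e12 : G.Adj z1 z2) (e23 : G.Adj z2 z3) (e34 : G.Adj z3 z4)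
    (e41 : G.Adj z4 z1) : False := by
  have n12 : h z1 ≠ h z2 := fun e => e12.ne (hinj _ h1 _ h2 e)
  have n23 : h z2 ≠ h z3 := fun e => e23.ne (hinj _ h2 _ h3 e)
  have n34 : h z3 ≠ h z4 := fun e => e34.ne (hinj _ h3 _ h4 e)
  have n41 : h z4 ≠ h z1 := fun e => e41.ne (hinj _ h4 _ h1 e)
  have n13 : h z1 ≠ h z3 := fun e => h13 (hinj _ h1 _ h3 e)
  have n24 : h z2 ≠ h z4 := fun e => h24 (hinj _ h2 _ h4 e)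
  have k1 := ahp_sep hC h1 h2 h3 h4 e12 e34 n12 n34 n13 n41.symm n23 n24
  have k2 := ahp_sep hC h2 h3 h4 h1 e23 e41 n23 n41 n24 n12.symm n34 n13.symm
  clear n12 n23 n34 n41 n13 n24 e12 e23 e34 e41 h13 h24 h1 h2 h3 h4
  rcases k1 with ⟨p1, p2, p3⟩ | ⟨p1, p2, p3⟩ | ⟨p1, p2, p3⟩ | ⟨p1, p2, p3⟩ | ⟨p1, p2, p3⟩ |
    ⟨p1, p2, p3⟩ | ⟨p1, p2, p3⟩ | ⟨p1, p2, p3⟩ <;>
  rcases k2 with ⟨q1, q2, q3⟩ | ⟨q1, q2, q3⟩ | ⟨q1, q2, q3⟩ | ⟨q1, q2, q3⟩ | ⟨q1, q2, q3⟩ |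
    ⟨q1, q2, q3⟩ | ⟨q1, q2, q3⟩ | ⟨q1, q2, q3⟩ <;> linarith

/-- three pairwise disjoint oriented edges -/
theorem ahp_three (hC : Crossing G Z h)
    {a1 b1 a2 b2 a3 b3 : V} (ha1 : a1 ∈ Z) (hb1 : b1 ∈ Z) (ha2 : a2 ∈ Z) (hb2 : b2 ∈ Z)
    (ha3 : a3 ∈ Z) (hb3 : b3 ∈ Z) (e1 : G.Adj a1 b1) (e2 : G.Adj a2 b2) (e3 : G.Adj a3 b3)
    (o1 : h a1 < h b1) (o2 : h a2 < h b2) (o3 : h a3 < h b3)
    (n12 : h a1 ≠ h a2 ∧ h a1 ≠ h b2 ∧ h b1 ≠ h a2 ∧ h b1 ≠ h b2)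
    (n13 : h a1 ≠ h a3 ∧ h a1 ≠ h b3 ∧ h b1 ≠ h a3 ∧ h b1 ≠ h b3)
    (n23 : h a2 ≠ h a3 ∧ h a2 ≠ h b3 ∧ h b2 ≠ h a3 ∧ h b2 ≠ h b3) :
    ∃ p0 ∈ Z, ∃ p1 ∈ Z, ∃ p2 ∈ Z, ∃ p3 ∈ Z, ∃ p4 ∈ Z, ∃ p5 ∈ Z,
      h p0 < h p1 ∧ h p1 < h p2 ∧ h p2 < h p3 ∧ h p3 < h p4 ∧ h p4 < h p5 ∧
      G.Adj p0 p3 ∧ G.Adj p1 p4 ∧ G.Adj p2 p5 := by
  rcases ahp_aux hC ha1 hb1 ha2 hb2 o1 o2 e1 e2 n12.1 n12.2.1 n12.2.2.1 n12.2.2.2 with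
      ⟨x1, x2, x3⟩ | ⟨x1, x2, x3⟩ <;>
  rcases ahp_aux hC ha1 hb1 ha3 hb3 o1 o3 e1 e3 n13.1 n13.2.1 n13.2.2.1 n13.2.2.2 with
      ⟨y1, y2, y3⟩ | ⟨y1, y2, y3⟩ <;>
  rcases ahp_aux hC ha2 hb2 ha3 hb3 o2 o3 e2 e3 n23.1 n23.2.1 n23.2.2.1 n23.2.2.2 with
      ⟨w1, w2, w3⟩ | ⟨w1, w2, w3⟩
  · exact ⟨a1, ha1, a2, ha2, a3, ha3, b1, hb1, b2, hb2, b3, hb3, x1, w1, y2, x3, w3, e1, e2, e3⟩
  · exact ⟨a1, ha1, a3, ha3, a2, ha2, b1, hb1, b3, hb3, b2, hb2, y1, w1, x2, y3, w3, e1, e3, e2⟩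
  · exfalso; linarith
  · exact ⟨a3, ha3, a1, ha1, a2, ha2, b3, hb3, b1, hb1, b2, hb2, y1, x1, w2, y3, x3, e3, e1, e2⟩
  · exact ⟨a2, ha2, a1, ha1, a3, ha3, b2, hb2, b1, hb1, b3, hb3, x1, y1, w2, x3, y3, e2, e1, e3⟩
  · exfalso; linarith
  · exact ⟨a2, ha2, a3, ha3, a1, ha1, b2, hb2, b3, hb3, b1, hb1, w1, y1, x2, w3, y3, e2, e3, e1⟩
  · exact ⟨a3, ha3, a2, ha2, a1, ha1, b3, hb3, b2, hb2, b1, hb1, w1, x1, y2, w3, x3, e3, e2, e1⟩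

/-- three pairwise disjoint edges are the long diagonals of a hexagon -/
theorem crossing_three (hinj : ∀ a ∈ Z, ∀ b ∈ Z, h a = h b → a = b) (hC : Crossing G Z h)
    {a1 b1 a2 b2 a3 b3 : V} (hn : [a1, b1, a2, b2, a3, b3].Nodup)
    (hZ : ∀ v ∈ [a1, b1, a2, b2, a3, b3], v ∈ Z)
    (e1 : G.Adj a1 b1) (e2 : G.Adj a2 b2) (e3 : G.Adj a3 b3) :
    ∃ p0 ∈ Z, ∃ p1 ∈ Z, ∃ p2 ∈ Z, ∃ p3 ∈ Z, ∃ p4 ∈ Z, ∃ p5 ∈ Z,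
      h p0 < h p1 ∧ h p1 < h p2 ∧ h p2 < h p3 ∧ h p3 < h p4 ∧ h p4 < h p5 ∧
      G.Adj p0 p3 ∧ G.Adj p1 p4 ∧ G.Adj p2 p5 := by
  have ha1 : a1 ∈ Z := hZ _ (by simp)
  have hb1 : b1 ∈ Z := hZ _ (by simp)
  have ha2 : a2 ∈ Z := hZ _ (by simp)
  have hb2 : b2 ∈ Z := hZ _ (by simp)
  have ha3 : a3 ∈ Z := hZ _ (by simp)
  have hb3 : b3 ∈ Z := hZ _ (by simp)
  simp only [List.nodup_cons, List.mem_cons, List.not_mem_nil, or_false, not_or,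
    not_false_eq_true, List.nodup_nil, and_true] at hn
  obtain ⟨⟨m1, m2, m3, m4, m5⟩, ⟨m6, m7, m8, m9⟩, ⟨m10, m11, m12⟩, ⟨m13, m14⟩, m15⟩ := hn
  have N : ∀ {x y : V}, x ∈ Z → y ∈ Z → x ≠ y → h x ≠ h y := fun hx hy hxy e =>
    hxy (hinj _ hx _ hy e)
  have k1 := N ha1 ha2 m2
  have k2 := N ha1 hb2 m3
  have k3 := N hb1 ha2 m6
  have k4 := N hb1 hb2 m7
  have l1 := N ha1 ha3 m4
  have l2 := N ha1 hb3 m5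
  have l3 := N hb1 ha3 m8
  have l4 := N hb1 hb3 m9
  have r1 := N ha2 ha3 m11
  have r2 := N ha2 hb3 m12
  have r3 := N hb2 ha3 m13
  have r4 := N hb2 hb3 m14
  rcases lt_or_gt_of_ne (N ha1 hb1 m1) with o1 | o1 <;>
  rcases lt_or_gt_of_ne (N ha2 hb2 m10) with o2 | o2 <;>
  rcases lt_or_gt_of_ne (N ha3 hb3 m15) with o3 | o3
  · exact ahp_three hC ha1 hb1 ha2 hb2 ha3 hb3 e1 e2 e3 o1 o2 o3 ⟨k1, k2, k3, k4⟩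
      ⟨l1, l2, l3, l4⟩ ⟨r1, r2, r3, r4⟩
  · exact ahp_three hC ha1 hb1 ha2 hb2 hb3 ha3 e1 e2 e3.symm o1 o2 o3 ⟨k1, k2, k3, k4⟩
      ⟨l2, l1, l4, l3⟩ ⟨r2, r1, r4, r3⟩
  · exact ahp_three hC ha1 hb1 hb2 ha2 ha3 hb3 e1 e2.symm e3 o1 o2 o3 ⟨k2, k1, k4, k3⟩
      ⟨l1, l2, l3, l4⟩ ⟨r3, r4, r1, r2⟩
  · exact ahp_three hC ha1 hb1 hb2 ha2 hb3 ha3 e1 e2.symm e3.symm o1 o2 o3 ⟨k2, k1, k4, k3⟩
      ⟨l2, l1, l4, l3⟩ ⟨r4, r3, r2, r1⟩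
  · exact ahp_three hC hb1 ha1 ha2 hb2 ha3 hb3 e1.symm e2 e3 o1 o2 o3 ⟨k3, k4, k1, k2⟩
      ⟨l3, l4, l1, l2⟩ ⟨r1, r2, r3, r4⟩
  · exact ahp_three hC hb1 ha1 ha2 hb2 hb3 ha3 e1.symm e2 e3.symm o1 o2 o3 ⟨k3, k4, k1, k2⟩
      ⟨l4, l3, l2, l1⟩ ⟨r2, r1, r4, r3⟩
  · exact ahp_three hC hb1 ha1 hb2 ha2 ha3 hb3 e1.symm e2.symm e3 o1 o2 o3 ⟨k4, k3, k2, k1⟩
      ⟨l3, l4, l1, l2⟩ ⟨r3, r4, r1, r2⟩
  · exact ahp_three hC hb1 ha1 hb2 ha2 hb3 ha3 e1.symm e2.symm e3.symm o1 o2 o3 ⟨k4, k3, k2, k1⟩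
      ⟨l4, l3, l2, l1⟩ ⟨r4, r3, r2, r1⟩

end Pool.Agent.Lib.MP_a3b162_co.CS
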