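import Pool.Agent.Lib.MP_a3b162_co.CS.ATriR

/-!
Module ATriX: two opposite sides are not both edges if two of the `x i` are adjacent.

Let `k` be the third index. By `tri_one` for `m` and for `m + 2` (`q (m + 2 + 1) = q (m + 3)`) and
`tri_two`: for the pair `i, j`: (one of `g i, g j` is `m`, or both `m + 1`, or both `m + 3`) and (one is
`m + 2`, or both `m + 3`, or both `m + 5 = m + 1`), not both `m + 1`, not both `m + 3`: so
`{g i, g j} = {m, m + 2}`. The pair `i, k`: if `g i = m` then `g k = m + 2`, if `g i = m + 2` then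
`g k = m`; the same for `j, k`: contradiction. (All is a finite check in `Fin 4`: `decide` after
generalising.)
-/

set_option autoImplicit false

namespace Pool.Agent.Lib.MP_a3b162_co.CS

theorem ATriX_third : ∀ i j : Fin 3, ∃ k : Fin 3, i ≠ k ∧ j ≠ k := by
  decide

theorem ATriX_add : ∀ m : Fin 4, m + 2 + 1 = m + 3 := by
  decide

theorem ATriX_fin : ∀ m gi gj gk : Fin 4,
    (gi = m ∨ gj = m ∨ (gi = m + 1 ∧ gj = m + 1) ∨ (gi = m + 3 ∧ gj = m + 3)) →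
    (gi = m + 2 ∨ gj = m + 2 ∨ (gi = m + 2 + 1 ∧ gj = m + 2 + 1) ∨
      (gi = m + 2 + 3 ∧ gj = m + 2 + 3)) →
    (gi = m ∨ gk = m ∨ (gi = m + 1 ∧ gk = m + 1) ∨ (gi = m + 3 ∧ gk = m + 3)) →
    (gi = m + 2 ∨ gk = m + 2 ∨ (gi = m + 2 + 1 ∧ gk = m + 2 + 1) ∨
      (gi = m + 2 + 3 ∧ gk = m + 2 + 3)) →
    (gj = m ∨ gk = m ∨ (gj = m + 1 ∧ gk = m + 1) ∨ (gj = m + 3 ∧ gk = m + 3)) →
    (gj = m + 2 ∨ gk = m + 2 ∨ (gj = m + 2 + 1 ∧ gk = m + 2 + 1) ∨
      (gj = m + 2 + 3 ∧ gk = m + 2 + 3)) →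
    ¬ (gi = m + 1 ∧ gj = m + 1) ∧ ¬ (gi = m + 3 ∧ gj = m + 3) → False := by
  intro m gi gj gk
  have h3 : ((3 : Fin 4) : ℕ) = 3 := rfl
  have h2 : ((2 : Fin 4) : ℕ) = 2 := rfl
  have h1 : ((1 : Fin 4) : ℕ) = 1 := rfl
  simp only [Fin.ext_iff, Fin.val_add, h1, h2, h3]
  have := m.2
  have := gi.2
  have := gj.2
  have := gk.2
  omega

open Finset
open scoped Classical

variable {V : Type} {G : SimpleGraph V} {x : Fin 3 → V} {q : Fin 4 → V} {g : Fin 3 → Fin 4}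

theorem tri_cross (T : Tri G x q g) {i j : Fin 3} (hij : i ≠ j) (hx : G.Adj (x i) (x j))
    {m : Fin 4} (hm : G.Adj (q m) (q (m + 1))) (hm' : G.Adj (q (m + 2)) (q (m + 3))) : False := by
  obtain ⟨k, hik, hjk⟩ := ATriX_third i j
  have hm2 : G.Adj (q (m + 2)) (q (m + 2 + 1)) := by
    rw [ATriX_add m]
    exact hm'
  exact ATriX_fin m (g i) (g j) (g k) (tri_one T hij hm) (tri_one T hij hm2) (tri_one T hik hm)
    (tri_one T hik hm2) (tri_one T hjk hm) (tri_one T hjk hm2) (tri_two T hij hx hm hm')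

end Pool.Agent.Lib.MP_a3b162_co.CS
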