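import Pool.Agent.Lib.MP_a3b162_co.CS.ATri
import Pool.Agent.Lib.MP_a3b162_co.CS.ATriX
import Pool.Agent.Lib.MP_a3b162_co.CS.AHP

/-!
Module AT1: T1.

`crossing_chain`: for `a < b < c < d` take `tri_exists`; `a b`, `c d` are the sides `(q 0, q 1)`, `(q 2, q 3)`:
`tri_cross` with `m = 0`; `b c`, `d a` are the sides `(q 1, q 2)`, `(q 3, q 0)`: `m = 1`.
-/

set_option autoImplicit false

namespace Pool.Agent.Lib.MP_a3b162_co.CS

open Finset
open scoped Classical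

variable {V : Type} {G : SimpleGraph V} {u : V → Fin 4 → ℝ} {x : Fin 3 → V} {Z : Finset V}

theorem crossing_chain (h : Chain G u x Z) {i j : Fin 3} (hij : i ≠ j)
    (hx : G.Adj (x i) (x j)) : Crossing G Z (fun z => co u z 0) := by
  intro a ha b hb c hc d hd hab hbc hcd
  obtain ⟨g, T, _⟩ := tri_exists h ha hb hc hd hab hbc hcd
  refine ⟨fun hh => ?_, fun hh => ?_⟩
  · exact tri_cross T hij hx (m := 0) (show G.Adj a b from hh.1) (show G.Adj c d from hh.2)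
  · exact tri_cross T hij hx (m := 1) (show G.Adj b c from hh.2) (show G.Adj d a from hh.1.symm)

theorem T1_chain (h : Chain G u x Z) {i j : Fin 3} (hij : i ≠ j)
    (hx : G.Adj (x i) (x j)) : ee G Z Z ≤ 2 * Z.card :=
  crossing_card (fun _ ha _ hb hab => h.coinj 0 ha hb hab) (crossing_chain h hij hx)

theorem T1c_chain (h : Chain G u x Z) {i j : Fin 3} (hij : i ≠ j)
    (hx : G.Adj (x i) (x j)) {z1 z2 z3 z4 : V} (h1 : z1 ∈ Z) (h2 : z2 ∈ Z) (h3 : z3 ∈ Z)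
    (h4 : z4 ∈ Z) (h13 : z1 ≠ z3) (h24 : z2 ≠ z4) (e12 : G.Adj z1 z2) (e23 : G.Adj z2 z3)
    (e34 : G.Adj z3 z4) (e41 : G.Adj z4 z1) : False :=
  crossing_no_c4 (fun _ ha _ hb hab => h.coinj 0 ha hb hab) (crossing_chain h hij hx)
    h1 h2 h3 h4 h13 h24 e12 e23 e34 e41

end Pool.Agent.Lib.MP_a3b162_co.CS
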