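import Pool.Agent.Lib.MP_a3b162_co.CS.AM12
import Pool.Agent.Lib.MP_a3b162_co.CS.ARin
import Pool.Agent.Lib.MP_a3b162_co.CS.AT1
import Pool.Agent.Lib.MP_a3b162_co.CS.AFor

/-!
Module AT2: T2. `x m` is adjacent to the two other `x l`; `j, j'` are the two other indices; `R_in` is
used with `k = m`, planes `m j` and `m j'`.

`T2_chain`: `forest_card` with `h z = co u z 0`. (h1) `a < b < c`, `a b` and `b c` edges: `M2` gives
`Ar u m j a b c < 0`, `M1` gives `> 0`. (h2) `l u` an edge (`l < u` because `l < p < u`), `p` a neighbour of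
`l`, `q` a neighbour of `u`, both in `(l, u)`: `M2` for `l, p, u`: `Ar l p u < 0`; `M1` for `l, q, u`:
`Ar l q u > 0`; so `Ar l u p > 0 > Ar l u q` in both planes: against `R_in`.

`no_three`: three pairwise disjoint edges: by `crossing_three` (`crossing_chain`) there are
`0 < 1 < 2 < 3 < 4 < 5` with edges `03`, `14`, `25`. For both planes: `M1` for `1, 2, 5`: `Ar 1 2 5 > 0`;
`M2` for `1, 4, 5`: `Ar 1 4 5 < 0`; `sign_change` for `1, 2, 4, 5` (`B = Ar 1 4 5`, `C = Ar 1 2 5`,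
`D = Ar 1 2 4`): `B C < 0`, so `C D > 0`: `Ar 1 2 4 > 0`. `M2` for `0, 3, 4`: `Ar 0 3 4 < 0`; `M1` for
`0, 1, 4`: `Ar 0 1 4 > 0`; `sign_change` for `0, 1, 3, 4` (`A = Ar 1 3 4`, `B = Ar 0 3 4`,
`C = Ar 0 1 4`): `B C < 0`, so `A B > 0`: `Ar 1 3 4 < 0`. So `Ar 1 4 2 < 0 < Ar 1 4 3` in both planes:
against `R_in` for the edge `1 4`.
-/

set_option autoImplicit false

namespace Pool.Agent.Lib.MP_a3b162_co.CS

open Finset
open scoped Classical

variable {V : Type} {G : SimpleGraph V} {u : V → Fin 4 → ℝ} {x : Fin 3 → V} {Z : Finset V}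

theorem at2_others (m : Fin 3) : ∃ i j : Fin 3, m ≠ i ∧ m ≠ j ∧ i ≠ j := by
  revert m
  decide

theorem T2_chain (h : Chain G u x Z) {m : Fin 3} (hx : ∀ l, l ≠ m → G.Adj (x m) (x l))
    (hne : Z.Nonempty) : ee G Z Z + 2 ≤ 2 * Z.card := by
  obtain ⟨i, j, hmi, hmj, hij⟩ := at2_others m
  refine forest_card (h := fun z => co u z 0) (fun a ha b hb hab => h.coinj 0 ha hb hab) hne ?_ ?_
  · intro a ha b hb c hc hab hbc he
    have h1 := M2 h ha hb hc hab hbc hmi hx he.1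
    have h2 := M1 h ha hb hc hab hbc hmi hx he.2
    exact lt_asymm h1 h2
  · intro l hl w hw p hp q hq elw elp ewq hlp hpw hlq hqw
    have key : ∀ j : Fin 3, m ≠ j → Ar u m j l w p * Ar u m j l w q < 0 := by
      intro j hj
      have h1 := M2 h hl hp hw hlp hpw hj hx elp
      have h2 := M1 h hl hq hw hlq hqw hj hx ewq.symm
      have h3' := (Ar_perm (u := u) m j l w p)
      have h4' := (Ar_perm (u := u) m j l w q)
      have h5 : Ar u m j l p w = - Ar u m j l w p := h3'.2.2.1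
      have h6 : Ar u m j l q w = - Ar u m j l w q := h4'.2.2.1
      rw [h5] at h1
      rw [h6] at h2
      nlinarith
    exact R_in h hl hw hp hq hmi hmj hij elw hlp hpw hlq hqw ⟨key i hmi, key j hmj⟩

theorem at2_plane (h : Chain G u x Z) {m : Fin 3} (hx : ∀ l, l ≠ m → G.Adj (x m) (x l))
    {p0 p1 p2 p3 p4 p5 : V} (h0 : p0 ∈ Z) (h1 : p1 ∈ Z) (h2 : p2 ∈ Z) (h3 : p3 ∈ Z)
    (h4 : p4 ∈ Z) (h5 : p5 ∈ Z) (h01 : co u p0 0 < co u p1 0) (h12 : co u p1 0 < co u p2 0)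
    (h23 : co u p2 0 < co u p3 0) (h34 : co u p3 0 < co u p4 0) (h45 : co u p4 0 < co u p5 0)
    (e03 : G.Adj p0 p3) (e14 : G.Adj p1 p4) (e25 : G.Adj p2 p5) {j : Fin 3} (hj : m ≠ j) :
    Ar u m j p1 p4 p2 * Ar u m j p1 p4 p3 < 0 := by
  have a1 := M1 h h1 h2 h5 h12 (h23.trans (h34.trans h45)) hj hx e25
  have a2 := M2 h h1 h4 h5 (h12.trans (h23.trans h34)) h45 hj hx e14
  have a3 := M2 h h0 h3 h4 (h01.trans (h12.trans h23)) h34 hj hx e03
  have a4 := M1 h h0 h1 h4 h01 (h12.trans (h23.trans h34)) hj hx e14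
  have a5 : 0 < Ar u m j p1 p2 p4 := by
    rcases sign_change h h1 h2 h4 h5 h12 (h23.trans h34) h45 hj rfl rfl rfl rfl with
      ⟨_, b2, _, _⟩ | ⟨_, _, b3, _⟩ | ⟨_, b2, _, _⟩ | ⟨_, b2, _, _⟩
    · exact absurd b2 (not_lt.mpr (mul_nonpos_of_nonpos_of_nonneg a2.le a1.le))
    · exact (pos_iff_pos_of_mul_pos b3).mp a1
    · exact absurd b2 (not_lt.mpr (mul_nonpos_of_nonpos_of_nonneg a2.le a1.le))
    · exact absurd b2 (not_lt.mpr (mul_nonpos_of_nonpos_of_nonneg a2.le a1.le))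
  have a6 : Ar u m j p1 p3 p4 < 0 := by
    rcases sign_change h h0 h1 h3 h4 h01 (h12.trans h23) h34 hj rfl rfl rfl rfl with
      ⟨_, b2, _, _⟩ | ⟨b1, _, _, _⟩ | ⟨_, b2, _, _⟩ | ⟨_, b2, _, _⟩
    · exact absurd b2 (not_lt.mpr (mul_nonpos_of_nonpos_of_nonneg a3.le a4.le))
    · exact (neg_iff_neg_of_mul_pos b1).mpr a3
    · exact absurd b2 (not_lt.mpr (mul_nonpos_of_nonpos_of_nonneg a3.le a4.le))
    · exact absurd b2 (not_lt.mpr (mul_nonpos_of_nonpos_of_nonneg a3.le a4.le))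
  have c1 : Ar u m j p1 p2 p4 = - Ar u m j p1 p4 p2 := (Ar_perm (u := u) m j p1 p4 p2).2.2.1
  have c2 : Ar u m j p1 p3 p4 = - Ar u m j p1 p4 p3 := (Ar_perm (u := u) m j p1 p4 p3).2.2.1
  rw [c1] at a5
  rw [c2] at a6
  nlinarith

theorem no_three (h : Chain G u x Z) {m : Fin 3} (hx : ∀ l, l ≠ m → G.Adj (x m) (x l)) :
    ∀ a1 b1 a2 b2 a3 b3 : V, [a1, b1, a2, b2, a3, b3].Nodup →
      (∀ v ∈ [a1, b1, a2, b2, a3, b3], v ∈ Z) → G.Adj a1 b1 → G.Adj a2 b2 → G.Adj a3 b3 →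
      False := by
  intro a1 b1 a2 b2 a3 b3 hn hZ e1 e2 e3
  obtain ⟨i, j, hmi, hmj, hij⟩ := at2_others m
  obtain ⟨p0, h0, p1, h1, p2, h2, p3, h3, p4, h4, p5, h5, h01, h12, h23, h34, h45, e03, e14, e25⟩ :=
    crossing_three (h := fun z => co u z 0) (fun a ha b hb hab => h.coinj 0 ha hb hab)
      (crossing_chain h hmi (hx i hmi.symm)) hn hZ e1 e2 e3
  exact R_in h h1 h4 h2 h3 hmi hmj hij e14 h12 (h23.trans h34) (h12.trans h23) h34
    ⟨at2_plane h hx h0 h1 h2 h3 h4 h5 h01 h12 h23 h34 h45 e03 e14 e25 hmi,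
      at2_plane h hx h0 h1 h2 h3 h4 h5 h01 h12 h23 h34 h45 e03 e14 e25 hmj⟩

end Pool.Agent.Lib.MP_a3b162_co.CS
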