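import Pool.Agent.Lib.MP_a3b162_co.CS.AKF
import Pool.Agent.Lib.MP_a3b162_co.CS.AChart
import Pool.Agent.Lib.MP_a3b162_co.CS.AChainE
import Pool.Agent.Lib.MP_a3b162_co.CS.AStep4
import Pool.Agent.Lib.MP_a3b162_co.CS.AT2

/-!
Module AGeo: assembly.

`chain_of_full`: `G = fullGraphA v`, `hexRule_full`, `gpv_of_gp`; `Z` nonempty, its element `z0` is
different from the `x i` (adjacent to them): `chart_exists`, `chain_exists`.
`geo_fullA`: `x = ![x1, x2, x3]`. T0: `T0_chain` (`Z` nonempty as `2 ≤ |Z|`). T1: `Z = ∅`: `ee = 0`; otherwise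
`T1_chain` with `i = 0`, `j = 1`. T1c: `Z = {z1, z2, z3, z4}`, `T1c_chain`. T2: `m = 1`, `T2_chain`.
T2c: `Z = ∅`: `C = ∅`; otherwise `cover_four` with `no_three`.
-/

set_option autoImplicit false

namespace Pool.Agent.Lib.MP_a3b162_co.CS

open Finset
open scoped Classical

theorem chain_of_full {n : ℕ} {v : Fin n → Fin 4 → ℝ} (h : GP v) {x : Fin 3 → Fin n}
    (hx : Function.Injective x) {Z : Finset (Fin n)} (hne : Z.Nonempty)
    (hZ : ∀ i, ∀ z ∈ Z, (fullGraphA v).Adj (x i) z) : ∃ u, Chain (fullGraphA v) u x Z := by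
  obtain ⟨z0, hz0⟩ := hne
  obtain ⟨u, hu⟩ := chart_exists (hexRule_full v) (gpv_of_gp h) hx
    (fun i => (hZ i z0 hz0).ne.symm)
  exact chain_exists hu Z hZ

theorem AGeo_inj {n : ℕ} {x1 x2 x3 : Fin n} (h12 : x1 ≠ x2) (h13 : x1 ≠ x3) (h23 : x2 ≠ x3) :
    Function.Injective ![x1, x2, x3] := by
  intro i j hij
  fin_cases i <;> fin_cases j <;> simp_all

theorem AGeo_adj {n : ℕ} {v : Fin n → Fin 4 → ℝ} {x1 x2 x3 : Fin n} {Z : Finset (Fin n)}
    (hZ : ∀ z ∈ Z, (fullGraphA v).Adj x1 z ∧ (fullGraphA v).Adj x2 z ∧ (fullGraphA v).Adj x3 z) :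
    ∀ i, ∀ z ∈ Z, (fullGraphA v).Adj (![x1, x2, x3] i) z := by
  intro i z hz
  obtain ⟨h1, h2, h3⟩ := hZ z hz
  fin_cases i
  · exact h1
  · exact h2
  · exact h3

theorem AGeo_mid {n : ℕ} {v : Fin n → Fin 4 → ℝ} {x1 x2 x3 : Fin n}
    (h12 : (fullGraphA v).Adj x1 x2) (h23 : (fullGraphA v).Adj x2 x3) :
    ∀ l, l ≠ (1 : Fin 3) → (fullGraphA v).Adj (![x1, x2, x3] 1) (![x1, x2, x3] l) := by
  intro l hl
  fin_cases l
  · exact h12.symm
  · exact absurd rfl hl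
  · exact h23

theorem geo_fullA {n : ℕ} {v : Fin n → Fin 4 → ℝ} (h : GP v) : Geo (fullGraphA v) := by
  refine ⟨?_, ?_, ?_, ?_, ?_⟩
  · intro x1 x2 x3 h12 h13 h23 Z hZ h2
    obtain ⟨u, hu⟩ := chain_of_full h (AGeo_inj h12 h13 h23) (Z := Z)
      (Finset.card_pos.mp (by omega)) (AGeo_adj hZ)
    exact T0_chain hu h2
  · intro x1 x2 x3 h12 h13 h23 Z hZ
    rcases Z.eq_empty_or_nonempty with rfl | hne
    · simp [ee]
    · obtain ⟨u, hu⟩ := chain_of_full h (AGeo_inj h12.ne h13 h23) hne (AGeo_adj hZ)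
      exact T1_chain hu (i := 0) (j := 1) (by decide) h12
  · intro x1 x2 x3 h12 h13 h23 z1 z2 z3 z4 hZ h1 h2 e12 e23 e34 e41
    have hZ' : ∀ z ∈ ({z1, z2, z3, z4} : Finset (Fin n)),
        (fullGraphA v).Adj x1 z ∧ (fullGraphA v).Adj x2 z ∧ (fullGraphA v).Adj x3 z := by
      intro z hz
      refine hZ z ?_
      simpa using hz
    obtain ⟨u, hu⟩ := chain_of_full h (AGeo_inj h12.ne h13 h23) ⟨z1, by simp⟩ (AGeo_adj hZ')
    exact T1c_chain hu (i := 0) (j := 1) (by decide) h12 (z1 := z1) (z2 := z2) (z3 := z3) (z4 := z4)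
      (by simp) (by simp) (by simp) (by simp) h1 h2 e12 e23 e34 e41
  · intro x1 x2 x3 h12 h23 h13 Z hZ hne
    obtain ⟨u, hu⟩ := chain_of_full h (AGeo_inj h12.ne h13 h23.ne) hne (AGeo_adj hZ)
    exact T2_chain hu (AGeo_mid h12 h23) hne
  · intro x1 x2 x3 h12 h23 h13 Z hZ
    rcases Z.eq_empty_or_nonempty with rfl | hne
    · exact ⟨∅, by simp, by simp, by simp⟩
    · obtain ⟨u, hu⟩ := chain_of_full h (AGeo_inj h12.ne h13 h23.ne) hne (AGeo_adj hZ)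
      exact cover_four (no_three hu (AGeo_mid h12 h23))

end Pool.Agent.Lib.MP_a3b162_co.CS
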