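import Pool.Agent.Lib.MP_a3b162_co.CS.Api
import Pool.Agent.Lib.MP_a3b162_co.NG.Basic

/-!
MODULE FullG (60 min).  The graph of full pairs and the upper bound of `EE`.

`full_of_pres`: both signs present gives the dependency inequality: `full_dep` of `Core.lean` with
`I = {i, j}`: `FullS v {i, j}`: for `σ` with `σ i = true`, `σ j = b` take `φ` of `Pres v i j b`; in general
`sg (σ i) • φ` with `b` chosen such that `sg b = sg (σ i) * sg (σ j)`.
`EE_le_full`: the set `{(i,j,b) : i < j, Pres}` has at most `#{i < j} + #{i < j : both}` elements, and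
`#{i < j : fullGraph}` is `ee univ univ / 2` (`ee G univ univ` counts ordered pairs).
-/

set_option autoImplicit false

namespace Pool.Agent.Lib.MP_a3b162_co.CS

open Finset
open scoped Classical
open Pool.Agent.Lib.MP_a3b162_co.NG

/-- the dependency inequality for the pair `i`, `j` -/
def Full {n : ℕ} (v : Fin n → (Fin 4 → ℝ)) (i j : Fin n) : Prop :=
  i ≠ j ∧ ∀ c : Fin n → ℝ, ∑ a, c a • v a = 0 → c ≠ 0 →
    |c i| + |c j| < ∑ a ∈ univ.filter (fun a => a ≠ i ∧ a ≠ j), |c a|

/-- the graph of full pairs -/
def fullGraph {n : ℕ} (v : Fin n → (Fin 4 → ℝ)) : SimpleGraph (Fin n) where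
  Adj i j := Full v i j
  symm := by
    constructor
    intro i j h
    refine ⟨h.1.symm, fun c hc hc0 => ?_⟩
    have := h.2 c hc hc0
    rw [add_comm]
    convert this using 3
    exact and_comm
  loopless := ⟨fun i h => h.1 rfl⟩

theorem full_of_pres {n : ℕ} {v : Fin n → (Fin 4 → ℝ)} {i j : Fin n} (hij : i ≠ j)
    (h1 : Pres v i j true) (h2 : Pres v i j false) : Full v i j := by
  have hF : FullS v {i, j} := by
    intro σ
    have key : ∀ b : Bool, Pres v i j b → ∀ s : Bool, sg (σ i) = sg s → sg (σ j) = sg s * sg b →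
        ∃ φ : (Fin 4 → ℝ) →ₗ[ℝ] ℝ, (∀ a ∈ ({i, j} : Finset (Fin n)), φ (v a) = sg (σ a)) ∧
          ∀ a ∉ ({i, j} : Finset (Fin n)), |φ (v a)| < 1 := by
      rintro b ⟨φ, ha, hb, hc⟩ s hs1 hs2
      refine ⟨sg s • φ, ?_, ?_⟩
      · intro a haa
        rw [mem_insert, mem_singleton] at haa
        rcases haa with rfl | rfl
        · rw [LinearMap.smul_apply, ha, hs1, smul_eq_mul, mul_one]
        · rw [LinearMap.smul_apply, hb, hs2, smul_eq_mul]
      · intro a haa
        rw [mem_insert, mem_singleton, not_or] at haa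
        rw [LinearMap.smul_apply, smul_eq_mul, abs_mul, abs_sg, one_mul]
        exact hc a haa.1 haa.2
    cases hi : σ i <;> cases hj : σ j
    · exact key true h1 false (by rw [hi]) (by rw [hj]; simp)
    · exact key false h2 false (by rw [hi]) (by rw [hj]; simp)
    · exact key false h2 true (by rw [hi]) (by rw [hj]; simp)
    · exact key true h1 true (by rw [hi]) (by rw [hj]; simp)
  refine ⟨hij, fun c hc hc0 => ?_⟩
  have h := full_dep hF hc hc0
  rw [sum_pair hij] at h
  have e : (univ.filter fun a => a ≠ i ∧ a ≠ j) = ({i, j} : Finset (Fin n))ᶜ := by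
    ext a
    simp only [mem_filter, mem_univ, true_and, mem_compl, mem_insert, mem_singleton, not_or]
  rw [e]
  exact h

theorem EE_le_full {n : ℕ} (v : Fin n → (Fin 4 → ℝ)) :
    2 * EE v ≤ n * (n - 1) + ee (fullGraph v) univ univ := by
  set G := fullGraph v with hG
  have hE : EE v = ∑ i : Fin n, ∑ j : Fin n, ∑ b : Bool, if i < j ∧ Pres v i j b then 1 else 0 := by
    have h1 : {t : Fin n × Fin n × Bool | t.1 < t.2.1 ∧ Pres v t.1 t.2.1 t.2.2} =
        ((univ.filter fun t : Fin n × Fin n × Bool => t.1 < t.2.1 ∧ Pres v t.1 t.2.1 t.2.2 :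
          Finset _) : Set (Fin n × Fin n × Bool)) := by
      ext t
      simp
    unfold EE
    rw [h1, Set.ncard_coe_finset, card_filter, Fintype.sum_prod_type]
    refine sum_congr rfl fun i _ => ?_
    rw [Fintype.sum_prod_type]
  have hb : ∀ i j : Fin n, (∑ b : Bool, if i < j ∧ Pres v i j b then 1 else 0) ≤
      (if i < j then 1 else 0) + (if i < j ∧ G.Adj i j then 1 else 0) := by
    intro i j
    rw [Fintype.sum_bool]
    by_cases hij : i < j
    · by_cases ht : Pres v i j true
      · by_cases hf : Pres v i j false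
        · have hA : G.Adj i j := full_of_pres hij.ne ht hf
          simp [hij, ht, hf, hA]
        · simp [hij, ht, hf]
      · by_cases hf : Pres v i j false
        · simp [hij, ht, hf]
        · simp [hij, ht, hf]
    · simp [hij]
  set A := ∑ i : Fin n, ∑ j : Fin n, if i < j then 1 else 0 with hA
  set B := ∑ i : Fin n, ∑ j : Fin n, if i < j ∧ G.Adj i j then 1 else 0 with hB
  have h2 : EE v ≤ A + B := by
    rw [hE, hA, hB, ← sum_add_distrib]
    refine sum_le_sum fun i _ => ?_
    rw [← sum_add_distrib]
    exact sum_le_sum fun j _ => hb i j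
  have hA2 : 2 * A + n = n * n := by
    have e1 : A = ∑ i : Fin n, ∑ j : Fin n, if j < i then 1 else 0 := by
      rw [hA, sum_comm]
    have e2 : n = ∑ i : Fin n, ∑ j : Fin n, if i = j then 1 else 0 := by
      simp
    have e3 : n * n = ∑ i : Fin n, ∑ j : Fin n, 1 := by
      simp
    have e4 : A + A + n = n * n := by
      conv_lhs =>
        lhs
        rhs
        rw [e1]
      conv_lhs =>
        rhs
        rw [e2]
      rw [hA, e3, ← sum_add_distrib, ← sum_add_distrib]
      refine sum_congr rfl fun i _ => ?_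
      rw [← sum_add_distrib, ← sum_add_distrib]
      refine sum_congr rfl fun j _ => ?_
      rcases lt_trichotomy i j with h | h | h
      · simp [h, h.ne, not_lt.2 h.le]
      · simp [h]
      · simp [h, h.ne', not_lt.2 h.le]
    omega
  have hB2 : 2 * B = ee G univ univ := by
    have e1 : B = ∑ i : Fin n, ∑ j : Fin n, if j < i ∧ G.Adj i j then 1 else 0 := by
      rw [hB, sum_comm]
      refine sum_congr rfl fun i _ => sum_congr rfl fun j _ => ?_
      rw [G.adj_comm]
    have e4 : B + B = ee G univ univ := by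
      conv_lhs =>
        rhs
        rw [e1]
      rw [hB, ee, ← sum_add_distrib]
      refine sum_congr rfl fun i _ => ?_
      rw [dg_eq_sum, ← sum_add_distrib]
      refine sum_congr rfl fun j _ => ?_
      rcases lt_trichotomy i j with h | h | h
      · simp [h, not_lt.2 h.le]
      · subst h
        simp
      · simp [h, not_lt.2 h.le]
    omega
  have h3 : n * (n - 1) = 2 * A := by
    rw [Nat.mul_sub, mul_one]
    omega
  rw [h3, ← hB2]
  omega

end Pool.Agent.Lib.MP_a3b162_co.CS
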