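import Pool.Agent.Lib.MP_a3b162_co.CS.AGeo
import Pool.Agent.Lib.MP_a3b162_co.CS.FullG

/-!
The geometry of the graph of full pairs, with the definitions of `FullG`.
-/

set_option autoImplicit false

namespace Pool.Agent.Lib.MP_a3b162_co.CS

open Finset
open scoped Classical
open Pool.Agent.Lib.MP_a3b162_co.NG

theorem gp_of_genA {n : ℕ} {v : Fin n → Fin 4 → ℝ} (h : GenA v) : GP v := by
  intro c hc hcard
  have hli := h (univ.filter fun a => c a ≠ 0) hcard
  rw [Fintype.linearIndependent_iff] at hli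
  have h1 : ∑ i : (univ.filter fun a => c a ≠ 0 : Finset (Fin n)), c i • v i = 0 := by
    rw [Finset.sum_coe_sort (univ.filter fun a => c a ≠ 0) fun a => c a • v a, sum_filter]
    refine Eq.trans (sum_congr rfl fun a _ => ?_) hc
    by_cases ha : c a = 0
    · simp [ha]
    · simp [ha]
  have h2 := hli (fun i => c i) h1
  funext a
  by_contra ha
  exact ha (h2 ⟨a, by simpa using ha⟩)

theorem fullGraphA_eq {n : ℕ} (v : Fin n → Fin 4 → ℝ) : fullGraphA v = fullGraph v := by
  ext i j
  change FullA v i j ↔ Full v i j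
  unfold FullA Full
  have e : (univ.filter fun a : Fin n => a ≠ i ∧ a ≠ j) = univ \ {i, j} := by
    ext a
    simp
  rw [e]

theorem geo_full {n : ℕ} {v : Fin n → (Fin 4 → ℝ)} (h : GenA v) : Geo (fullGraph v) := by
  rw [← fullGraphA_eq]
  exact geo_fullA (gp_of_genA h)

end Pool.Agent.Lib.MP_a3b162_co.CS
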