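import Pool.Agent.Lib.MP_a3b162_co.CS.AGDefs

/-!
Module AHexa: from a Gale diagram to an abstract hexagon.

Write `T a b c = br (d a) (d b) * br (d b) (d c) * br (d c) (d a)`, so `Cyc d a b c ↔ 0 < T a b c`.
`br` is antisymmetric: `T` is invariant under rotation and changes sign under a transposition
(`rot`, `asymm`, and `total` because no bracket vanishes). Plucker relation
`br a b * br c e - br a c * br b e + br a e * br b c = 0` (ring) gives
`T a b e * (br a c)^2 = (br a b)^2 * T a c e + (br a e)^2 * T a b c`, hence `trans`.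
`rule`: the six points are pairwise different (`Cyc` is false if two of its arguments are equal; by
`trans` also `Cyc p0 p1 p3`, `Cyc p0 p1 p4`, `Cyc p0 p1 p5`, `Cyc p0 p2 p4`, `Cyc p0 p2 p5`,
`Cyc p0 p3 p5`) and belong to `S`, which has six elements, so `S = {p0, .., p5}`
(`Finset.eq_of_subset_of_card_le`).

`rule_rot`: the other alternating matching: apply `rule` to `p1, p2, p3, p4, p5, p0`
(`C p1 p2 p3` etc. follow from `rot`, `trans`: from `C p0 p1 p2`, `C p0 p2 p3` one gets `C p0 p1 p3`, and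
`C p2 p0 p1`, `C p2 p3 p0` give `C p2 p3 p1`, that is `C p1 p2 p3`).
-/

set_option autoImplicit false

namespace Pool.Agent.Lib.MP_a3b162_co.CS

open Finset
open scoped Classical

variable {V : Type} {G : SimpleGraph V} {u : V → Fin 4 → ℝ}

theorem ahexa_br_self (a : ℝ × ℝ) : br a a = 0 := by
  unfold br
  ring

theorem ahexa_rot {d : V → ℝ × ℝ} {a b c : V} (h : Cyc d a b c) : Cyc d b c a := by
  unfold Cyc at h ⊢
  have e : br (d b) (d c) * br (d c) (d a) * br (d a) (d b) =
      br (d a) (d b) * br (d b) (d c) * br (d c) (d a) := by ring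
  rw [e]
  exact h

theorem ahexa_neg (d : V → ℝ × ℝ) (a b c : V) :
    br (d a) (d c) * br (d c) (d b) * br (d b) (d a) =
      -(br (d a) (d b) * br (d b) (d c) * br (d c) (d a)) := by
  unfold br
  ring

theorem ahexa_ne {d : V → ℝ × ℝ} {a b c : V} (h : Cyc d a b c) : a ≠ b ∧ b ≠ c ∧ a ≠ c := by
  unfold Cyc at h
  refine ⟨?_, ?_, ?_⟩
  · rintro rfl
    rw [ahexa_br_self] at h
    simp at h
  · rintro rfl
    rw [ahexa_br_self] at h
    simp at h
  · rintro rfl
    rw [ahexa_br_self] at h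
    simp at h

theorem ahexa_trans {d : V → ℝ × ℝ} {a b c e : V} (h1 : Cyc d a b c) (h2 : Cyc d a c e) :
    Cyc d a b e := by
  unfold Cyc at h1 h2 ⊢
  have key : br (d a) (d b) * br (d b) (d e) * br (d e) (d a) * (br (d a) (d c)) ^ 2 =
      (br (d a) (d b)) ^ 2 * (br (d a) (d c) * br (d c) (d e) * br (d e) (d a)) +
      (br (d a) (d e)) ^ 2 * (br (d a) (d b) * br (d b) (d c) * br (d c) (d a)) := by
    unfold br
    ring
  have hab : br (d a) (d b) ≠ 0 := by
    intro h0
    rw [h0] at h1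
    simp at h1
  have hac : br (d a) (d c) ≠ 0 := by
    intro h0
    rw [h0] at h2
    simp at h2
  have p1 : 0 < (br (d a) (d b)) ^ 2 * (br (d a) (d c) * br (d c) (d e) * br (d e) (d a)) :=
    mul_pos (by positivity) h2
  have p2 : 0 ≤ (br (d a) (d e)) ^ 2 * (br (d a) (d b) * br (d b) (d c) * br (d c) (d a)) :=
    mul_nonneg (sq_nonneg _) h1.le
  have p3 : 0 < br (d a) (d b) * br (d b) (d e) * br (d e) (d a) * (br (d a) (d c)) ^ 2 := by
    rw [key]
    linarith
  exact pos_of_mul_pos_left p3 (sq_nonneg _)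

theorem hexa_of_gale {S : Finset V} {d : V → ℝ × ℝ} (hH : HexRule G u) (hS : S.card = 6)
    (hg : Gale u S d) (hb : ∀ a ∈ S, ∀ b ∈ S, a ≠ b → br (d a) (d b) ≠ 0) :
    Hexa G S (Cyc d) where
  card := hS
  rot := ahexa_rot
  asymm := by
    intro a b c h1 h2
    unfold Cyc at h1 h2
    rw [ahexa_neg] at h2
    linarith
  total := by
    intro a b c ha hb' hc hab hbc hac
    unfold Cyc
    rw [ahexa_neg d a b c]
    have h1 : br (d a) (d b) * br (d b) (d c) * br (d c) (d a) ≠ 0 :=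
      mul_ne_zero (mul_ne_zero (hb a ha b hb' hab) (hb b hb' c hc hbc)) (hb c hc a ha hac.symm)
    rcases lt_or_gt_of_ne h1 with h | h
    · right
      linarith
    · left
      exact h
  trans := ahexa_trans
  rule := by
    intro p0 p1 p2 p3 p4 p5 m0 m1 m2 m3 m4 m5 h1 h2 h3 h4
    have c013 := ahexa_trans h1 h2
    have c014 := ahexa_trans c013 h3
    have c015 := ahexa_trans c014 h4
    have c024 := ahexa_trans h2 h3
    have c025 := ahexa_trans c024 h4
    have c035 := ahexa_trans h3 h4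
    obtain ⟨n01, n12, n02⟩ := ahexa_ne h1
    obtain ⟨-, n13, n03⟩ := ahexa_ne c013
    obtain ⟨-, n14, n04⟩ := ahexa_ne c014
    obtain ⟨-, n15, n05⟩ := ahexa_ne c015
    obtain ⟨-, n23, -⟩ := ahexa_ne h2
    obtain ⟨-, n24, -⟩ := ahexa_ne c024
    obtain ⟨-, n25, -⟩ := ahexa_ne c025
    obtain ⟨-, n34, -⟩ := ahexa_ne h3
    obtain ⟨-, n35, -⟩ := ahexa_ne c035
    obtain ⟨-, n45, -⟩ := ahexa_ne h4
    have hnd : [p0, p1, p2, p3, p4, p5].Nodup := by
      simp [n01, n02, n03, n04, n05, n12, n13, n14, n15, n23, n24, n25, n34, n35, n45]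
    have hcard : ({p0, p1, p2, p3, p4, p5} : Finset V).card = 6 := by
      have e : ({p0, p1, p2, p3, p4, p5} : Finset V) = [p0, p1, p2, p3, p4, p5].toFinset := by
        ext x
        simp
      rw [e, List.toFinset_card_of_nodup hnd]
      rfl
    have hsub : ({p0, p1, p2, p3, p4, p5} : Finset V) ⊆ S := by
      intro x hx
      simp only [mem_insert, mem_singleton] at hx
      rcases hx with rfl | rfl | rfl | rfl | rfl | rfl <;> assumption
    have hSe := eq_of_subset_of_card_le hsub (by rw [hcard, hS])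
    exact hH S d hg p0 p1 p2 p3 p4 p5 hnd hSe.symm h1 h2 h3 h4

theorem ahexa_mid {S : Finset V} {C : V → V → V → Prop} (H : Hexa G S C) {a b c e : V}
    (h1 : C a b c) (h2 : C a c e) : C b c e := by
  have e1 : C c a b := H.rot (H.rot h1)
  have e2 : C c e a := H.rot h2
  have e3 : C c e b := H.trans e2 e1
  exact H.rot (H.rot e3)

theorem Hexa.rule_rot {S : Finset V} {C : V → V → V → Prop} (H : Hexa G S C)
    {p0 p1 p2 p3 p4 p5 : V} (m0 : p0 ∈ S) (m1 : p1 ∈ S) (m2 : p2 ∈ S) (m3 : p3 ∈ S) (m4 : p4 ∈ S)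
    (m5 : p5 ∈ S) (h1 : C p0 p1 p2) (h2 : C p0 p2 p3) (h3 : C p0 p3 p4) (h4 : C p0 p4 p5) :
    ¬ (G.Adj p1 p2 ∧ G.Adj p3 p4 ∧ G.Adj p5 p0) := by
  have c013 := H.trans h1 h2
  have c014 := H.trans c013 h3
  have c015 := H.trans c014 h4
  exact H.rule m1 m2 m3 m4 m5 m0 (ahexa_mid H h1 h2) (ahexa_mid H c013 h3) (ahexa_mid H c014 h4)
    (H.rot c015)

end Pool.Agent.Lib.MP_a3b162_co.CS
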