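import Pool.Agent.Lib.MP_a3b162_co.CS.AGDefs

/-!
Module AKF: the hexagon rule for full pairs.

`gpv_of_gp`: extend `c` by `0` outside `S`.

`hexRule_full`. Let `S = {p0, .., p5}`, `d` a Gale diagram, the four `Cyc` conditions, and suppose that
`p0 p1`, `p2 p3`, `p4 p5` are full. Put `w0 = d p0` and, for `a ≥ 1`, `wa = d pa` or `wa = - d pa`, such that
`m(w0, wa) > 0` where `m(v, w) = - br v w` (all `br (d p0) (d pa) ≠ 0` by the `Cyc` conditions). The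
product in `Cyc` does not change under `d pa -> - d pa`, so `Cyc d p0 pa p(a+1)` gives `m(wa, w(a+1)) > 0`
for `a = 1..4`; by the Plucker relation
`m(w0,a) m(b,c) - m(w0,b) m(a,c) + m(w0,c) m(a,b) = 0` all `m(wa, wb) > 0` for `a < b`.
For a linear form `θ w = s * w.1 + t * w.2` the coefficients `c v = θ (d v)` for `v ∈ S`, `0` otherwise,
are a linear dependency of `v`, with `|c pa| = |θ wa|`; it is not zero if some `θ wa ≠ 0`.
Put `s1 = w0 + w1`, `s2 = w2 + w3`, `s3 = w4 + w5`, `a1 = m(s2,s3)`, `a2 = m(s1,s3)`, `a3 = m(s1,s2)`, all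
positive, `a2 * s2 = a1 * s1 + a3 * s3` (ring). Three cases:
* `a2 ≤ a1, a3`: `θ w = m(w0,w) + m(w,w5)` is positive on all `wa`, and
  `a2 θ(s2) = a1 θ(s1) + a3 θ(s3) ≥ a2 (θ(s1) + θ(s3))`, against full `p2 p3`.
* `a1 ≤ a2, a3`: `θ w = m(w,w3) + m(w,w4)` is positive on `w0..w3`, negative on `w4, w5`:
  `a1 θ(s1) = a2 θ(s2) - a3 θ(s3) ≥ a1 (|θ(s2)| + |θ(s3)|)`, against full `p0 p1`.
* `a3 ≤ a1, a2`: `θ w = m(w1,w) + m(w2,w)` is negative on `w0, w1`, positive on `w2..w5`: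
  `a3 θ(s3) = a2 θ(s2) - a1 θ(s1) ≥ a3 (|θ(s1)| + |θ(s2)|)`, against full `p4 p5`.
Suggestion: first a lemma for six vectors `w : Fin 6 → ℝ × ℝ` with `m(wa, wb) > 0` for `a < b`: there are
`s, t` such that `θ` does not vanish on some `wa` and one of the three inequalities
`|θ w0| + |θ w1| ≥` rest, `|θ w2| + |θ w3| ≥` rest, `|θ w4| + |θ w5| ≥` rest holds.
-/

set_option autoImplicit false

namespace Pool.Agent.Lib.MP_a3b162_co.CS

open Finset
open scoped Classical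

theorem gpv_of_gp {n : ℕ} {v : Fin n → Fin 4 → ℝ} (h : GP v) : GPV v := by
  intro S hS c hc w hw
  have key := h (fun a => if a ∈ S then c a else 0) ?_ ?_
  · have := congrFun key w
    simpa [hw] using this
  · rw [← Finset.sum_subset (Finset.subset_univ S)]
    · rw [← hc]
      refine Finset.sum_congr rfl fun a ha => ?_
      simp [ha]
    · intro a _ ha
      simp [ha]
  · rw [← hS]
    refine Finset.card_le_card fun a ha => ?_
    by_contra hna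
    simp [hna] at ha

theorem AKF_key {A B C T1 T2 T3 : ℝ} (hB : 0 < B) (h : B * T2 = A * T1 + C * T3) (h1 : 0 ≤ T1)
    (h3 : 0 ≤ T3) (hA : B ≤ A) (hC : B ≤ C) : T1 + T3 ≤ T2 := by
  have e1 : B * T1 ≤ A * T1 := mul_le_mul_of_nonneg_right hA h1
  have e3 : B * T3 ≤ C * T3 := mul_le_mul_of_nonneg_right hC h3
  have : B * (T1 + T3) ≤ B * T2 := by rw [h, mul_add]; linarith
  exact le_of_mul_le_mul_left this hB

theorem AKF_six (w0 w1 w2 w3 w4 w5 : ℝ × ℝ) (h01 : br w0 w1 < 0) (h02 : br w0 w2 < 0)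
    (h03 : br w0 w3 < 0) (h04 : br w0 w4 < 0) (h05 : br w0 w5 < 0) (h12 : br w1 w2 < 0)
    (h13 : br w1 w3 < 0) (h14 : br w1 w4 < 0) (h15 : br w1 w5 < 0) (h23 : br w2 w3 < 0)
    (h24 : br w2 w4 < 0) (h25 : br w2 w5 < 0) (h34 : br w3 w4 < 0) (h35 : br w3 w5 < 0)
    (h45 : br w4 w5 < 0) :
    ∃ s t : ℝ, s * w0.1 + t * w0.2 ≠ 0 ∧
      (|s * w2.1 + t * w2.2| + |s * w3.1 + t * w3.2| + |s * w4.1 + t * w4.2| +
          |s * w5.1 + t * w5.2| ≤ |s * w0.1 + t * w0.2| + |s * w1.1 + t * w1.2| ∨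
        |s * w0.1 + t * w0.2| + |s * w1.1 + t * w1.2| + |s * w4.1 + t * w4.2| +
          |s * w5.1 + t * w5.2| ≤ |s * w2.1 + t * w2.2| + |s * w3.1 + t * w3.2| ∨
        |s * w0.1 + t * w0.2| + |s * w1.1 + t * w1.2| + |s * w2.1 + t * w2.2| +
          |s * w3.1 + t * w3.2| ≤ |s * w4.1 + t * w4.2| + |s * w5.1 + t * w5.2|) := by
  obtain ⟨x0, y0⟩ := w0
  obtain ⟨x1, y1⟩ := w1
  obtain ⟨x2, y2⟩ := w2
  obtain ⟨x3, y3⟩ := w3
  obtain ⟨x4, y4⟩ := w4
  obtain ⟨x5, y5⟩ := w5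
  simp only [br] at *
  have hid : ∀ s t : ℝ,
      -((x0 * y4 - y0 * x4) + (x0 * y5 - y0 * x5) + (x1 * y4 - y1 * x4) + (x1 * y5 - y1 * x5)) *
        ((s * x2 + t * y2) + (s * x3 + t * y3)) =
      -((x2 * y4 - y2 * x4) + (x2 * y5 - y2 * x5) + (x3 * y4 - y3 * x4) + (x3 * y5 - y3 * x5)) *
        ((s * x0 + t * y0) + (s * x1 + t * y1)) +
      -((x0 * y2 - y0 * x2) + (x0 * y3 - y0 * x3) + (x1 * y2 - y1 * x2) + (x1 * y3 - y1 * x3)) *
        ((s * x4 + t * y4) + (s * x5 + t * y5)) := by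
    intro s t; ring
  set A : ℝ := -((x2 * y4 - y2 * x4) + (x2 * y5 - y2 * x5) + (x3 * y4 - y3 * x4) +
    (x3 * y5 - y3 * x5)) with hA
  set B : ℝ := -((x0 * y4 - y0 * x4) + (x0 * y5 - y0 * x5) + (x1 * y4 - y1 * x4) +
    (x1 * y5 - y1 * x5)) with hB
  set C : ℝ := -((x0 * y2 - y0 * x2) + (x0 * y3 - y0 * x3) + (x1 * y2 - y1 * x2) +
    (x1 * y3 - y1 * x3)) with hC
  have pA : 0 < A := by rw [hA]; linarith
  have pB : 0 < B := by rw [hB]; linarith
  have pC : 0 < C := by rw [hC]; linarith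
  clear_value A B C
  by_cases c1 : B ≤ A ∧ B ≤ C
  · refine ⟨y0 - y5, x5 - x0, ?_, Or.inr (Or.inl ?_)⟩
    · apply ne_of_gt; linarith
    · have e0 : 0 < (y0 - y5) * x0 + (x5 - x0) * y0 := by linarith
      have e1 : 0 < (y0 - y5) * x1 + (x5 - x0) * y1 := by linarith
      have e2 : 0 < (y0 - y5) * x2 + (x5 - x0) * y2 := by linarith
      have e3 : 0 < (y0 - y5) * x3 + (x5 - x0) * y3 := by linarith
      have e4 : 0 < (y0 - y5) * x4 + (x5 - x0) * y4 := by linarith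
      have e5 : 0 < (y0 - y5) * x5 + (x5 - x0) * y5 := by linarith
      rw [abs_of_pos e0, abs_of_pos e1, abs_of_pos e2, abs_of_pos e3, abs_of_pos e4, abs_of_pos e5]
      have := AKF_key pB (hid (y0 - y5) (x5 - x0)) (by linarith) (by linarith) c1.1 c1.2
      linarith
  · by_cases c2 : A ≤ B ∧ A ≤ C
    · refine ⟨-y3 - y4, x3 + x4, ?_, Or.inl ?_⟩
      · apply ne_of_gt; linarith
      · have e0 : 0 < (-y3 - y4) * x0 + (x3 + x4) * y0 := by linarith
        have e1 : 0 < (-y3 - y4) * x1 + (x3 + x4) * y1 := by linarith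
        have e2 : 0 < (-y3 - y4) * x2 + (x3 + x4) * y2 := by linarith
        have e3 : 0 < (-y3 - y4) * x3 + (x3 + x4) * y3 := by linarith
        have e4 : (-y3 - y4) * x4 + (x3 + x4) * y4 < 0 := by linarith
        have e5 : (-y3 - y4) * x5 + (x3 + x4) * y5 < 0 := by linarith
        rw [abs_of_pos e0, abs_of_pos e1, abs_of_pos e2, abs_of_pos e3, abs_of_neg e4,
          abs_of_neg e5]
        have hh := hid (-y3 - y4) (x3 + x4)
        have := AKF_key (A := B) (C := C)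
          (T1 := ((-y3 - y4) * x2 + (x3 + x4) * y2) + ((-y3 - y4) * x3 + (x3 + x4) * y3))
          (T2 := ((-y3 - y4) * x0 + (x3 + x4) * y0) + ((-y3 - y4) * x1 + (x3 + x4) * y1))
          (T3 := -(((-y3 - y4) * x4 + (x3 + x4) * y4) + ((-y3 - y4) * x5 + (x3 + x4) * y5)))
          pA (by rw [hh]; ring) (by linarith) (by linarith) c2.1 c2.2
        linarith
    · have c3 : C ≤ B ∧ C ≤ A := by
        rw [not_and_or, not_le, not_le] at c1 c2
        rcases c1 with c1 | c1 <;> rcases c2 with c2 | c2 <;> constructor <;> linarith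
      refine ⟨y1 + y2, -x1 - x2, ?_, Or.inr (Or.inr ?_)⟩
      · apply ne_of_lt; linarith
      · have e0 : (y1 + y2) * x0 + (-x1 - x2) * y0 < 0 := by linarith
        have e1 : (y1 + y2) * x1 + (-x1 - x2) * y1 < 0 := by linarith
        have e2 : 0 < (y1 + y2) * x2 + (-x1 - x2) * y2 := by linarith
        have e3 : 0 < (y1 + y2) * x3 + (-x1 - x2) * y3 := by linarith
        have e4 : 0 < (y1 + y2) * x4 + (-x1 - x2) * y4 := by linarith
        have e5 : 0 < (y1 + y2) * x5 + (-x1 - x2) * y5 := by linarith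
        rw [abs_of_neg e0, abs_of_neg e1, abs_of_pos e2, abs_of_pos e3, abs_of_pos e4,
          abs_of_pos e5]
        have hh := hid (y1 + y2) (-x1 - x2)
        have := AKF_key (A := B) (C := A)
          (T1 := ((y1 + y2) * x2 + (-x1 - x2) * y2) + ((y1 + y2) * x3 + (-x1 - x2) * y3))
          (T2 := ((y1 + y2) * x4 + (-x1 - x2) * y4) + ((y1 + y2) * x5 + (-x1 - x2) * y5))
          (T3 := -(((y1 + y2) * x0 + (-x1 - x2) * y0) + ((y1 + y2) * x1 + (-x1 - x2) * y1)))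
          pC (by rw [hh]; ring) (by linarith) (by linarith) c3.1 c3.2
        linarith

/-- six vectors of the plane -/
theorem six_vectors (w : Fin 6 → ℝ × ℝ) (hw : ∀ a b : Fin 6, a < b → br (w a) (w b) < 0) :
    ∃ s t : ℝ, (∃ a, s * (w a).1 + t * (w a).2 ≠ 0) ∧
      (∃ r : Fin 6 → ℝ, (∀ a, r a = |s * (w a).1 + t * (w a).2|) ∧
        (r 2 + r 3 + r 4 + r 5 ≤ r 0 + r 1 ∨ r 0 + r 1 + r 4 + r 5 ≤ r 2 + r 3 ∨
          r 0 + r 1 + r 2 + r 3 ≤ r 4 + r 5)) := by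
  obtain ⟨s, t, h0, h⟩ := AKF_six (w 0) (w 1) (w 2) (w 3) (w 4) (w 5)
    (hw 0 1 (by decide)) (hw 0 2 (by decide)) (hw 0 3 (by decide)) (hw 0 4 (by decide))
    (hw 0 5 (by decide)) (hw 1 2 (by decide)) (hw 1 3 (by decide)) (hw 1 4 (by decide))
    (hw 1 5 (by decide)) (hw 2 3 (by decide)) (hw 2 4 (by decide)) (hw 2 5 (by decide))
    (hw 3 4 (by decide)) (hw 3 5 (by decide)) (hw 4 5 (by decide))
  exact ⟨s, t, ⟨0, h0⟩, fun a => |s * (w a).1 + t * (w a).2|, fun _ => rfl, h⟩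

theorem AKF_sum {n : ℕ} {r : Fin n → ℝ} {S : Finset (Fin n)} (hr : ∀ a, a ∉ S → r a = 0)
    {i j : Fin n} (hij : i ≠ j) : ∑ a ∈ univ \ {i, j}, r a = ∑ a ∈ S, r a - (r i + r j) := by
  have h1 : ∑ a ∈ univ \ {i, j}, r a + ∑ a ∈ ({i, j} : Finset (Fin n)), r a = ∑ a, r a :=
    Finset.sum_sdiff (Finset.subset_univ _)
  rw [Finset.sum_pair hij] at h1
  have h2 : ∑ a ∈ S, r a = ∑ a, r a :=
    Finset.sum_subset (Finset.subset_univ S) fun a _ ha => hr a ha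
  linarith

theorem AKF_plu {w0 a b c : ℝ × ℝ} (ha : br w0 a < 0) (hb : br w0 b < 0) (hc : br w0 c < 0)
    (hab : br a b < 0) (hbc : br b c < 0) : br a c < 0 := by
  have h : br w0 b * br a c = br w0 a * br b c + br w0 c * br a b := by
    simp only [br]; ring
  have h1 : 0 < br w0 a * br b c := mul_pos_of_neg_of_neg ha hbc
  have h2 : 0 < br w0 c * br a b := mul_pos_of_neg_of_neg hc hab
  have h3 : 0 < br w0 b * br a c := by rw [h]; linarith
  by_contra hn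
  have : br w0 b * br a c ≤ 0 := mul_nonpos_of_nonpos_of_nonneg hb.le (not_lt.mp hn)
  linarith

theorem AKF_sgn {v w : ℝ × ℝ} (h : br v w ≠ 0) :
    ∃ e : ℝ, (e = 1 ∨ e = -1) ∧ br v (e * w.1, e * w.2) < 0 := by
  rcases lt_or_gt_of_ne h with h | h
  · exact ⟨1, Or.inl rfl, by simpa using h⟩
  · refine ⟨-1, Or.inr rfl, ?_⟩
    simp only [br] at *
    linarith

theorem AKF_cyc {v a b : ℝ × ℝ} {e f : ℝ} (he : e = 1 ∨ e = -1) (hf : f = 1 ∨ f = -1)
    (h : 0 < br v a * br a b * br b v) (h1 : br v (e * a.1, e * a.2) < 0)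
    (h2 : br v (f * b.1, f * b.2) < 0) : br (e * a.1, e * a.2) (f * b.1, f * b.2) < 0 := by
  have he2 : e * e = 1 := by rcases he with rfl | rfl <;> norm_num
  have hf2 : f * f = 1 := by rcases hf with rfl | rfl <;> norm_num
  have key : br v (e * a.1, e * a.2) * br (e * a.1, e * a.2) (f * b.1, f * b.2) *
      br (f * b.1, f * b.2) v = (e * e) * (f * f) * (br v a * br a b * br b v) := by
    simp only [br]; ring
  rw [he2, hf2, one_mul, one_mul] at key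
  have h3 : 0 < br (f * b.1, f * b.2) v := by simp only [br] at *; linarith
  by_contra hn
  have h4 : br v (e * a.1, e * a.2) * br (e * a.1, e * a.2) (f * b.1, f * b.2) ≤ 0 :=
    mul_nonpos_of_nonpos_of_nonneg h1.le (not_lt.mp hn)
  have h5 := mul_nonpos_of_nonpos_of_nonneg h4 h3.le
  rw [key] at h5
  linarith

theorem AKF_ne {v a b : ℝ × ℝ} (h : 0 < br v a * br a b * br b v) : br v a ≠ 0 ∧ br v b ≠ 0 := by
  constructor
  · intro h0
    rw [h0] at h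
    simp at h
  · intro h0
    have : br b v = 0 := by simp only [br] at *; linarith
    rw [this] at h
    simp at h

theorem AKF_abs {s t e : ℝ} (he : e = 1 ∨ e = -1) (a : ℝ × ℝ) :
    |s * (e * a.1, e * a.2).1 + t * (e * a.1, e * a.2).2| = |s * a.1 + t * a.2| := by
  rcases he with rfl | rfl
  · simp
  · have : s * (-1 * a.1, -1 * a.2).1 + t * (-1 * a.1, -1 * a.2).2 = -(s * a.1 + t * a.2) := by
      ring
    rw [this, abs_neg]

theorem AKF_hT {V : Type} {p0 p1 p2 p3 p4 p5 : V} (f : V → ℝ)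
    (h0 : p0 ≠ p1 ∧ p0 ≠ p2 ∧ p0 ≠ p3 ∧ p0 ≠ p4 ∧ p0 ≠ p5)
    (h1 : p1 ≠ p2 ∧ p1 ≠ p3 ∧ p1 ≠ p4 ∧ p1 ≠ p5) (h2 : p2 ≠ p3 ∧ p2 ≠ p4 ∧ p2 ≠ p5)
    (h3 : p3 ≠ p4 ∧ p3 ≠ p5) (h4 : p4 ≠ p5) :
    ∑ a ∈ ({p0, p1, p2, p3, p4, p5} : Finset V), f a =
      f p0 + (f p1 + (f p2 + (f p3 + (f p4 + f p5)))) := by
  obtain ⟨n01, n02, n03, n04, n05⟩ := h0
  obtain ⟨n12, n13, n14, n15⟩ := h1
  obtain ⟨n23, n24, n25⟩ := h2
  obtain ⟨n34, n35⟩ := h3
  rw [Finset.sum_insert (by simp [n01, n02, n03, n04, n05]),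
    Finset.sum_insert (by simp [n12, n13, n14, n15]), Finset.sum_insert (by simp [n23, n24, n25]),
    Finset.sum_insert (by simp [n34, n35]), Finset.sum_insert (by simp [h4]),
    Finset.sum_singleton]

theorem hexRule_full {n : ℕ} (v : Fin n → Fin 4 → ℝ) : HexRule (fullGraphA v) v := by
  intro S d hg p0 p1 p2 p3 p4 p5 hn hS c12 c23 c34 c45
  rintro ⟨f01, f23, f45⟩
  obtain ⟨n1, n2⟩ := AKF_ne c12
  obtain ⟨-, n3⟩ := AKF_ne c23
  obtain ⟨-, n4⟩ := AKF_ne c34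
  obtain ⟨-, n5⟩ := AKF_ne c45
  obtain ⟨e1, u1, k1⟩ := AKF_sgn n1
  obtain ⟨e2, u2, k2⟩ := AKF_sgn n2
  obtain ⟨e3, u3, k3⟩ := AKF_sgn n3
  obtain ⟨e4, u4, k4⟩ := AKF_sgn n4
  obtain ⟨e5, u5, k5⟩ := AKF_sgn n5
  have k12 := AKF_cyc u1 u2 c12 k1 k2
  have k23 := AKF_cyc u2 u3 c23 k2 k3
  have k34 := AKF_cyc u3 u4 c34 k3 k4
  have k45 := AKF_cyc u4 u5 c45 k4 k5
  have k13 := AKF_plu k1 k2 k3 k12 k23
  have k24 := AKF_plu k2 k3 k4 k23 k34
  have k35 := AKF_plu k3 k4 k5 k34 k45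
  have k14 := AKF_plu k1 k3 k4 k13 k34
  have k25 := AKF_plu k2 k4 k5 k24 k45
  have k15 := AKF_plu k1 k4 k5 k14 k45
  obtain ⟨s, t, h0, h⟩ := AKF_six _ _ _ _ _ _ k1 k2 k3 k4 k5 k12 k13 k14 k15 k23 k24 k25 k34 k35 k45
  rw [AKF_abs u1, AKF_abs u2, AKF_abs u3, AKF_abs u4, AKF_abs u5] at h
  set c : Fin n → ℝ := fun a => if a ∈ S then s * (d a).1 + t * (d a).2 else 0 with hc
  have hcS : ∀ a ∈ S, c a = s * (d a).1 + t * (d a).2 := fun a ha => by simp [hc, ha]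
  have hc0 : ∀ a, a ∉ S → |c a| = 0 := fun a ha => by simp [hc, ha]
  have m0 : p0 ∈ S := by rw [hS]; simp
  have m1 : p1 ∈ S := by rw [hS]; simp
  have m2 : p2 ∈ S := by rw [hS]; simp
  have m3 : p3 ∈ S := by rw [hS]; simp
  have m4 : p4 ∈ S := by rw [hS]; simp
  have m5 : p5 ∈ S := by rw [hS]; simp
  have hsum : ∑ a, c a • v a = 0 := by
    rw [← Finset.sum_subset (Finset.subset_univ S)]
    · have : ∀ a ∈ S, c a • v a = s • ((d a).1 • v a) + t • ((d a).2 • v a) := by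
        intro a ha
        rw [hcS a ha, add_smul, mul_smul, mul_smul]
      rw [Finset.sum_congr rfl this, Finset.sum_add_distrib, ← Finset.smul_sum, ← Finset.smul_sum,
        hg.s1, hg.s2, smul_zero, smul_zero, add_zero]
    · intro a _ ha
      simp [hc, ha]
  have hne : c ≠ 0 := by
    intro h1
    have := congrFun h1 p0
    rw [hcS p0 m0] at this
    exact h0 this
  have F01 := f01.2 c hsum hne
  have F23 := f23.2 c hsum hne
  have F45 := f45.2 c hsum hne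
  simp only [List.nodup_cons, List.mem_cons, List.not_mem_nil, or_false, not_or, not_false_eq_true,
    List.nodup_nil, and_true] at hn
  obtain ⟨⟨n01, n02, n03, n04, n05⟩, ⟨n12, n13, n14, n15⟩, ⟨n23, n24, n25⟩, ⟨n34, n35⟩, n45⟩ := hn
  rw [AKF_sum (r := fun a => |c a|) hc0 n01] at F01
  rw [AKF_sum (r := fun a => |c a|) hc0 n23] at F23
  rw [AKF_sum (r := fun a => |c a|) hc0 n45] at F45
  have hT : ∑ a ∈ S, |c a| = |c p0| + (|c p1| + (|c p2| + (|c p3| + (|c p4| + |c p5|)))) := by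
    rw [hS]
    exact AKF_hT (fun a => |c a|) ⟨n01, n02, n03, n04, n05⟩ ⟨n12, n13, n14, n15⟩ ⟨n23, n24, n25⟩
      ⟨n34, n35⟩ n45
  rw [← hcS p0 m0, ← hcS p1 m1, ← hcS p2 m2, ← hcS p3 m3, ← hcS p4 m4, ← hcS p5 m5] at h
  simp only [hT] at F01 F23 F45
  rcases h with h | h | h <;> linarith

end Pool.Agent.Lib.MP_a3b162_co.CS
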