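import Pool.Agent.Lib.MP_a3b162_co.CS.AGale3
import Pool.Agent.Lib.MP_a3b162_co.CS.ACh

/-!
Module AM12: the rules for three points of a chain when `x m` is adjacent to the two other `x j`.

`gale3` for `a < b < c`: `C a b c`; `(c_i - a_i)(c_i - b_i) > 0`, `(a_i - b_i)(a_i - c_i) > 0` and
`(b_i - c_i)(b_i - a_i) < 0`, so all three `x i` are in the gap `(c, a)`: `¬ C c a (x i)`, i.e.
`C c (x i) a`. `C a (x i) (x j)` iff `Ar u i j a b c < 0`. Cut at `a` the order is `b, c`, then the three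
`x i`.
`M1`: `b c` an edge; suppose `Ar u m j a b c < 0` for some `j ≠ m` (it is not `0` by `Ar_ne`), so
`C a (x m) (x j)`: `x m` comes before `x j`. Let `l` be the third index. Order of the three after `c`:
`m, j, l`, or `m, l, j`, or `l, m, j`. Rule (for the matching `(b, c)`, (1st, 2nd), (3rd, `a`)):
`Hexa.rule` for `b, c, x_(1), x_(2), x_(3), a`. In the three cases the pairs (1st, 2nd) are `m j`, `m l`,
`l m`: adjacent, and (3rd, `a`) is adjacent.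
`M2`: `a b` an edge; suppose `0 < Ar u m j a b c` for some `j ≠ m`: `x j` comes before `x m`. Orders:
`j, m, l`, or `j, l, m`, or `l, j, m`. `Hexa.rule` for `a, b, c, x_(1), x_(2), x_(3)`: pairs `(a, b)`,
`(c, 1st)`, (2nd, 3rd) which is `m l`, `l m`, `j m`.
-/

set_option autoImplicit false

namespace Pool.Agent.Lib.MP_a3b162_co.CS

open Finset
open scoped Classical

variable {V : Type} {G : SimpleGraph V} {u : V → Fin 4 → ℝ} {x : Fin 3 → V} {Z : Finset V}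

theorem am_third (m j : Fin 3) (h : m ≠ j) : ∃ l : Fin 3, l ≠ m ∧ l ≠ j := by
  revert m j
  decide

/-- the hexagon of three points of a chain: the three `x i` are in the gap `(c, a)`; if `x p` comes
before `x q` then there is an order of the three with this property -/
theorem am_main (h : Chain G u x Z) {a b c : V} (ma : a ∈ Z) (mb : b ∈ Z) (mc : c ∈ Z)
    (hab : co u a 0 < co u b 0) (hbc : co u b 0 < co u c 0) {p q r : Fin 3} (hpq : p ≠ q)
    (hrp : r ≠ p) (hrq : r ≠ q) (hlt : Ar u p q a b c < 0) :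
    ∃ i j k : Fin 3, ((i = p ∧ j = q ∧ k = r) ∨ (i = p ∧ j = r ∧ k = q) ∨
      (i = r ∧ j = p ∧ k = q)) ∧
      ¬ (G.Adj b c ∧ G.Adj (x i) (x j) ∧ G.Adj (x k) a) ∧
      ¬ (G.Adj a b ∧ G.Adj c (x i) ∧ G.Adj (x j) (x k)) := by
  have na : ∀ i, a ≠ x i := h.ne_x ma
  have nb : ∀ i, b ≠ x i := h.ne_x mb
  have nc : ∀ i, c ≠ x i := h.ne_x mc
  have n1 : a ≠ b := by rintro rfl; exact lt_irrefl _ hab
  have n2 : b ≠ c := by rintro rfl; exact lt_irrefl _ hbc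
  have n3 : a ≠ c := by rintro rfl; exact lt_irrefl _ (hab.trans hbc)
  have cab : ∀ i, co u a i < co u b i := fun i => (h.lt_iff ma mb 0 i).1 hab
  have cbc : ∀ i, co u b i < co u c i := fun i => (h.lt_iff mb mc 0 i).1 hbc
  obtain ⟨C, H, habc, -, -, h3, h4⟩ := gale3 h.toChart na nb nc n1 n3 n2
  have Sa : a ∈ ({a, b, c, x 0, x 1, x 2} : Finset V) := by simp
  have Sb : b ∈ ({a, b, c, x 0, x 1, x 2} : Finset V) := by simp
  have Sc : c ∈ ({a, b, c, x 0, x 1, x 2} : Finset V) := by simp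
  have Sx : ∀ i, x i ∈ ({a, b, c, x 0, x 1, x 2} : Finset V) := by
    intro i
    fin_cases i <;> simp
  have gap : ∀ i, C a c (x i) := by
    intro i
    have hn : ¬ C c a (x i) := by
      rw [h3]
      have e1 : co u b i - co u c i < 0 := by linarith [cbc i]
      have e2 : 0 < co u b i - co u a i := by linarith [cab i]
      have := mul_neg_of_neg_of_pos e1 e2
      linarith
    rcases H.total Sc Sa (Sx i) n3.symm (na i) (nc i) with h5 | h5
    · exact absurd h5 hn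
    · exact H.rot (H.rot h5)
  have tot : ∀ i j, i ≠ j → C a (x i) (x j) ∨ C a (x j) (x i) := fun i j hij =>
    H.total Sa (Sx i) (Sx j) (na i) (fun e => hij (h.inj e)) (na j)
  have hC : C a (x p) (x q) := by
    rw [h4 p q hpq]
    have e1 : 0 < co u c p - co u b p := by linarith [cbc p]
    have e2 : 0 < co u c q - co u b q := by linarith [cbc q]
    exact mul_neg_of_pos_of_neg (mul_pos e1 e2) hlt
  have key : ∀ i j k, C a (x i) (x j) → C a (x j) (x k) →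
      ¬ (G.Adj b c ∧ G.Adj (x i) (x j) ∧ G.Adj (x k) a) ∧
      ¬ (G.Adj a b ∧ G.Adj c (x i) ∧ G.Adj (x j) (x k)) := fun i j k h5 h6 =>
    ⟨H.rule_rot Sa Sb Sc (Sx i) (Sx j) (Sx k) habc (gap i) h5 h6,
      H.rule Sa Sb Sc (Sx i) (Sx j) (Sx k) habc (gap i) h5 h6⟩
  rcases tot q r hrq.symm with h5 | h5
  · exact ⟨p, q, r, Or.inl ⟨rfl, rfl, rfl⟩, key p q r hC h5⟩
  · rcases tot p r hrp.symm with h6 | h6
    · exact ⟨p, r, q, Or.inr (Or.inl ⟨rfl, rfl, rfl⟩), key p r q h6 h5⟩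
    · exact ⟨r, p, q, Or.inr (Or.inr ⟨rfl, rfl, rfl⟩), key r p q h6 hC⟩

theorem am_ne (h : Chain G u x Z) {a b c : V} (ma : a ∈ Z) (mb : b ∈ Z) (mc : c ∈ Z)
    (hab : co u a 0 < co u b 0) (hbc : co u b 0 < co u c 0) {m j : Fin 3} (hmj : m ≠ j) :
    Ar u m j a b c ≠ 0 := by
  refine Ar_ne h.toChart (h.ne_x ma) (h.ne_x mb) (h.ne_x mc) ?_ ?_ ?_ hmj
  · rintro rfl; exact lt_irrefl _ hab
  · rintro rfl; exact lt_irrefl _ (hab.trans hbc)
  · rintro rfl; exact lt_irrefl _ hbc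

theorem M1 (h : Chain G u x Z) {a b c : V} (ma : a ∈ Z) (mb : b ∈ Z) (mc : c ∈ Z)
    (hab : co u a 0 < co u b 0) (hbc : co u b 0 < co u c 0) {m j : Fin 3} (hmj : m ≠ j)
    (hx : ∀ l, l ≠ m → G.Adj (x m) (x l)) (e : G.Adj b c) : 0 < Ar u m j a b c := by
  by_contra hn
  have hlt : Ar u m j a b c < 0 :=
    lt_of_le_of_ne (not_lt.1 hn) (am_ne h ma mb mc hab hbc hmj)
  obtain ⟨l, hlm, hlj⟩ := am_third m j hmj
  obtain ⟨i, j', k, hc, h1, -⟩ := am_main h ma mb mc hab hbc hmj hlm hlj hlt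
  rcases hc with ⟨rfl, rfl, rfl⟩ | ⟨rfl, rfl, rfl⟩ | ⟨rfl, rfl, rfl⟩
  · exact h1 ⟨e, hx _ hmj.symm, h.adj _ a ma⟩
  · exact h1 ⟨e, hx _ hlm, h.adj _ a ma⟩
  · exact h1 ⟨e, (hx _ hlm).symm, h.adj _ a ma⟩

theorem M2 (h : Chain G u x Z) {a b c : V} (ma : a ∈ Z) (mb : b ∈ Z) (mc : c ∈ Z)
    (hab : co u a 0 < co u b 0) (hbc : co u b 0 < co u c 0) {m j : Fin 3} (hmj : m ≠ j)
    (hx : ∀ l, l ≠ m → G.Adj (x m) (x l)) (e : G.Adj a b) : Ar u m j a b c < 0 := by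
  by_contra hn
  have hlt : Ar u j m a b c < 0 := by
    have h0 : 0 < Ar u m j a b c :=
      lt_of_le_of_ne (not_lt.1 hn) (am_ne h ma mb mc hab hbc hmj).symm
    rw [Ar_swap]
    linarith
  obtain ⟨l, hlm, hlj⟩ := am_third m j hmj
  obtain ⟨i, j', k, hc, -, h1⟩ := am_main h ma mb mc hab hbc hmj.symm hlj hlm hlt
  rcases hc with ⟨rfl, rfl, rfl⟩ | ⟨rfl, rfl, rfl⟩ | ⟨rfl, rfl, rfl⟩
  · exact h1 ⟨e, (h.adj _ c mc).symm, hx _ hlm⟩
  · exact h1 ⟨e, (h.adj _ c mc).symm, (hx _ hlm).symm⟩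
  · exact h1 ⟨e, (h.adj _ c mc).symm, (hx _ hmj.symm).symm⟩

end Pool.Agent.Lib.MP_a3b162_co.CS
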