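import Pool.Agent.Lib.MP_a3b162_co.CS.AGale4

/-!
Module ATri: the gaps.

For `j : Fin 3` let `k, i` be the other two indices, `A, B, C, D` the four orientations of
`a1 < a2 < a3 < a4` in the plane `k, i` (products of two of them do not change when `k, i` are exchanged,
`Ar_swap`). By `sign_change` exactly one of `A B < 0`, `B C < 0`, `C D < 0`, `0 < A D` holds: put
`g j = 0, 1, 2, 3` accordingly. In the hexagon `gale4` with `x i, x j`: `C a1 a2 (x i)` iff `0 < A B` iff not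
`A B < 0` iff `g j ≠ 0`, and so on (`q = ![a1, a2, a3, a4]`, `m + 1` in `Fin 4`, `q (3 + 1) = q 0 = a1`).
-/

set_option autoImplicit false

namespace Pool.Agent.Lib.MP_a3b162_co.CS

open Finset
open scoped Classical

variable {V : Type} {G : SimpleGraph V} {u : V → Fin 4 → ℝ} {x : Fin 3 → V} {Z : Finset V}

theorem atri_gap (h : Chain G u x Z) {a1 a2 a3 a4 : V} (m1 : a1 ∈ Z) (m2 : a2 ∈ Z)
    (m3 : a3 ∈ Z) (m4 : a4 ∈ Z) (h12 : co u a1 0 < co u a2 0) (h23 : co u a2 0 < co u a3 0)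
    (h34 : co u a3 0 < co u a4 0) (j : Fin 3) :
    ∃ gj : Fin 4, ∀ k i : Fin 3, k ≠ i → k ≠ j → i ≠ j →
        (gj = 0 ↔ Ar u k i a2 a3 a4 * Ar u k i a1 a3 a4 < 0) ∧
        (gj = 1 ↔ Ar u k i a1 a3 a4 * Ar u k i a1 a2 a4 < 0) ∧
        (gj = 2 ↔ Ar u k i a1 a2 a4 * Ar u k i a1 a2 a3 < 0) ∧
        (gj = 3 ↔ 0 < Ar u k i a2 a3 a4 * Ar u k i a1 a2 a3) := by
  have h3 : ∀ j : Fin 3, ∃ k i : Fin 3, k ≠ i ∧ k ≠ j ∧ i ≠ j := by decide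
  obtain ⟨k0, i0, hki, hkj, hij⟩ := h3 j
  have hred : ∀ k0 i0 j k i : Fin 3, k0 ≠ i0 → k0 ≠ j → i0 ≠ j → k ≠ i → k ≠ j → i ≠ j →
      (k = k0 ∧ i = i0) ∨ (k = i0 ∧ i = k0) := by decide
  have hs := sign_change h m1 m2 m3 m4 h12 h23 h34 hki rfl rfl rfl rfl
  have main : ∀ gj : Fin 4,
      ((gj = 0 ↔ Ar u k0 i0 a2 a3 a4 * Ar u k0 i0 a1 a3 a4 < 0) ∧
        (gj = 1 ↔ Ar u k0 i0 a1 a3 a4 * Ar u k0 i0 a1 a2 a4 < 0) ∧
        (gj = 2 ↔ Ar u k0 i0 a1 a2 a4 * Ar u k0 i0 a1 a2 a3 < 0) ∧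
        (gj = 3 ↔ 0 < Ar u k0 i0 a2 a3 a4 * Ar u k0 i0 a1 a2 a3)) →
      ∃ gj : Fin 4, ∀ k i : Fin 3, k ≠ i → k ≠ j → i ≠ j →
        (gj = 0 ↔ Ar u k i a2 a3 a4 * Ar u k i a1 a3 a4 < 0) ∧
        (gj = 1 ↔ Ar u k i a1 a3 a4 * Ar u k i a1 a2 a4 < 0) ∧
        (gj = 2 ↔ Ar u k i a1 a2 a4 * Ar u k i a1 a2 a3 < 0) ∧
        (gj = 3 ↔ 0 < Ar u k i a2 a3 a4 * Ar u k i a1 a2 a3) := by
    intro gj hgj
    refine ⟨gj, fun k i h1 h2 h4 => ?_⟩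
    rcases hred k0 i0 j k i hki hkj hij h1 h2 h4 with ⟨rfl, rfl⟩ | ⟨rfl, rfl⟩
    · exact hgj
    · rw [Ar_swap i k a2 a3 a4, Ar_swap i k a1 a3 a4, Ar_swap i k a1 a2 a4, Ar_swap i k a1 a2 a3]
      simp only [neg_mul_neg]
      exact hgj
  rcases hs with ⟨p1, p2, p3, p4⟩ | ⟨p1, p2, p3, p4⟩ | ⟨p1, p2, p3, p4⟩ | ⟨p1, p2, p3, p4⟩
  · exact main 0 ⟨iff_of_true rfl p1, iff_of_false (by decide) p2.le.not_gt,
      iff_of_false (by decide) p3.le.not_gt, iff_of_false (by decide) p4.le.not_gt⟩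
  · exact main 1 ⟨iff_of_false (by decide) p1.le.not_gt, iff_of_true rfl p2,
      iff_of_false (by decide) p3.le.not_gt, iff_of_false (by decide) p4.le.not_gt⟩
  · exact main 2 ⟨iff_of_false (by decide) p1.le.not_gt, iff_of_false (by decide) p2.le.not_gt,
      iff_of_true rfl p3, iff_of_false (by decide) p4.le.not_gt⟩
  · exact main 3 ⟨iff_of_false (by decide) p1.le.not_gt, iff_of_false (by decide) p2.le.not_gt,
      iff_of_false (by decide) p3.le.not_gt, iff_of_true rfl p4⟩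

theorem tri_exists (h : Chain G u x Z) {a1 a2 a3 a4 : V} (m1 : a1 ∈ Z) (m2 : a2 ∈ Z)
    (m3 : a3 ∈ Z) (m4 : a4 ∈ Z) (h12 : co u a1 0 < co u a2 0) (h23 : co u a2 0 < co u a3 0)
    (h34 : co u a3 0 < co u a4 0) :
    ∃ g : Fin 3 → Fin 4, Tri G x ![a1, a2, a3, a4] g ∧
      ∀ k i j : Fin 3, k ≠ i → k ≠ j → i ≠ j →
        (g j = 0 ↔ Ar u k i a2 a3 a4 * Ar u k i a1 a3 a4 < 0) ∧
        (g j = 1 ↔ Ar u k i a1 a3 a4 * Ar u k i a1 a2 a4 < 0) ∧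
        (g j = 2 ↔ Ar u k i a1 a2 a4 * Ar u k i a1 a2 a3 < 0) ∧
        (g j = 3 ↔ 0 < Ar u k i a2 a3 a4 * Ar u k i a1 a2 a3) := by
  choose g hg using atri_gap h m1 m2 m3 m4 h12 h23 h34
  refine ⟨g, ?_, fun k i j h1 h2 h3 => hg j k i h1 h2 h3⟩
  have hthird : ∀ i j : Fin 3, i ≠ j → ∃ k : Fin 3, k ≠ i ∧ k ≠ j := by decide
  -- the signs of the products
  have key : ∀ k i j : Fin 3, k ≠ i → k ≠ j → i ≠ j →
      (0 < Ar u k i a2 a3 a4 * Ar u k i a1 a3 a4 ↔ g j ≠ 0) ∧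
      (0 < Ar u k i a1 a3 a4 * Ar u k i a1 a2 a4 ↔ g j ≠ 1) ∧
      (0 < Ar u k i a1 a2 a4 * Ar u k i a1 a2 a3 ↔ g j ≠ 2) ∧
      (Ar u k i a2 a3 a4 * Ar u k i a1 a2 a3 < 0 ↔ g j ≠ 3) := by
    intro k i j hki hkj hij
    obtain ⟨e0, e1, e2, e3⟩ := hg j k i hki hkj hij
    have hs := sign_change h m1 m2 m3 m4 h12 h23 h34 hki rfl rfl rfl rfl
    have hne : Ar u k i a2 a3 a4 * Ar u k i a1 a3 a4 ≠ 0 ∧
        Ar u k i a1 a3 a4 * Ar u k i a1 a2 a4 ≠ 0 ∧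
        Ar u k i a1 a2 a4 * Ar u k i a1 a2 a3 ≠ 0 ∧
        Ar u k i a2 a3 a4 * Ar u k i a1 a2 a3 ≠ 0 := by
      rcases hs with ⟨p1, p2, p3, p4⟩ | ⟨p1, p2, p3, p4⟩ | ⟨p1, p2, p3, p4⟩ | ⟨p1, p2, p3, p4⟩
      · exact ⟨p1.ne, p2.ne', p3.ne', p4.ne⟩
      · exact ⟨p1.ne', p2.ne, p3.ne', p4.ne⟩
      · exact ⟨p1.ne', p2.ne', p3.ne, p4.ne⟩
      · exact ⟨p1.ne', p2.ne', p3.ne', p4.ne'⟩
    obtain ⟨n0, n1, n2, n3⟩ := hne
    refine ⟨?_, ?_, ?_, ?_⟩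
    · rw [Ne, e0, not_lt]
      exact ⟨le_of_lt, fun h' => lt_of_le_of_ne h' n0.symm⟩
    · rw [Ne, e1, not_lt]
      exact ⟨le_of_lt, fun h' => lt_of_le_of_ne h' n1.symm⟩
    · rw [Ne, e2, not_lt]
      exact ⟨le_of_lt, fun h' => lt_of_le_of_ne h' n2.symm⟩
    · rw [Ne, e3, not_lt]
      exact ⟨le_of_lt, fun h' => lt_of_le_of_ne h' n3⟩
  have hmem : ∀ m : Fin 4, (![a1, a2, a3, a4] : Fin 4 → V) m ∈ Z := by
    intro m
    fin_cases m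
    · exact m1
    · exact m2
    · exact m3
    · exact m4
  have hmono : StrictMono (fun m : Fin 4 => co u ((![a1, a2, a3, a4] : Fin 4 → V) m) 0) := by
    rw [Fin.strictMono_iff_lt_succ]
    intro m
    fin_cases m
    · exact h12
    · exact h23
    · exact h34
  refine ⟨fun i m => h.adj i _ (hmem m), h.inj, ?_, ?_⟩
  · intro m n hmn
    apply hmono.injective
    show co u ((![a1, a2, a3, a4] : Fin 4 → V) m) 0 = co u ((![a1, a2, a3, a4] : Fin 4 → V) n) 0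
    rw [hmn]
  · intro i j hij
    obtain ⟨k, hki, hkj⟩ := hthird i j hij
    obtain ⟨C, hC, c1, c2, c3⟩ := gale4 h m1 m2 m3 m4 h12 h23 h34 hki hkj hij
    refine ⟨C, hC, c1, c2, ?_, ?_⟩
    · obtain ⟨t0, t1, t2, t3⟩ := key k i j hki hkj hij
      obtain ⟨s0, s1, s2, s3⟩ := c3 i (Or.inl rfl)
      intro m
      fin_cases m
      · exact s0.trans t0
      · exact s1.trans t1
      · exact s2.trans t2
      · exact s3.trans t3
    · obtain ⟨t0, t1, t2, t3⟩ := key k j i hkj hki hij.symm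
      obtain ⟨s0, s1, s2, s3⟩ := c3 j (Or.inr rfl)
      intro m
      fin_cases m
      · exact s0.trans t0
      · exact s1.trans t1
      · exact s2.trans t2
      · exact s3.trans t3

end Pool.Agent.Lib.MP_a3b162_co.CS
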