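import Pool.Agent.Lib.MP_a3b162_co.CS.Defs

/-!
Basic facts about `nb`, `ms`, `dg`, `ee`, `mm`, `cl`.
-/

set_option autoImplicit false

namespace Pool.Agent.Lib.MP_a3b162_co.CS

open Finset
open scoped Classical

variable {V : Type} {G : SimpleGraph V}

theorem mem_nb {v w : V} {A : Finset V} : w ∈ nb G v A ↔ w ∈ A ∧ G.Adj v w := by
  simp [nb]

theorem mem_ms {v w : V} {A : Finset V} : w ∈ ms G v A ↔ w ∈ A ∧ ¬ G.Adj v w := by
  simp [ms]

theorem mem_cl {x : V} {X Y : Finset V} : x ∈ cl G X Y ↔ x ∈ X ∧ ∀ y ∈ Y, G.Adj x y := by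
  simp only [cl, mem_filter, eq_empty_iff_forall_notMem, mem_ms]
  constructor
  · rintro ⟨h1, h2⟩
    exact ⟨h1, fun y hy => by by_contra h; exact h2 y ⟨hy, h⟩⟩
  · rintro ⟨h1, h2⟩
    exact ⟨h1, fun y hy => hy.2 (h2 y hy.1)⟩

theorem nb_subset (v : V) (A : Finset V) : nb G v A ⊆ A := filter_subset _ _

theorem ms_subset (v : V) (A : Finset V) : ms G v A ⊆ A := filter_subset _ _

theorem cl_subset (X Y : Finset V) : cl G X Y ⊆ X := filter_subset _ _

theorem dg_add_ms (v : V) (A : Finset V) : dg G v A + (ms G v A).card = A.card := by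
  simp only [dg, nb, ms]
  exact card_filter_add_card_filter_not _

theorem dg_le_card (v : V) (A : Finset V) : dg G v A ≤ A.card := card_le_card (nb_subset v A)

theorem nb_mono (v : V) {A B : Finset V} (h : A ⊆ B) : nb G v A ⊆ nb G v B :=
  filter_subset_filter _ h

theorem ms_mono (v : V) {A B : Finset V} (h : A ⊆ B) : ms G v A ⊆ ms G v B :=
  filter_subset_filter _ h

theorem dg_mono (v : V) {A B : Finset V} (h : A ⊆ B) : dg G v A ≤ dg G v B :=
  card_le_card (nb_mono v h)

theorem dg_empty (v : V) : dg G v ∅ = 0 := by simp [dg, nb]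

theorem dg_union (v : V) {A B : Finset V} (h : Disjoint A B) :
    dg G v (A ∪ B) = dg G v A + dg G v B := by
  simp only [dg, nb, filter_union]
  exact card_union_of_disjoint (disjoint_filter_filter h)

theorem dg_union_le (v : V) (A B : Finset V) : dg G v (A ∪ B) ≤ dg G v A + dg G v B := by
  simp only [dg, nb, filter_union]
  exact card_union_le _ _

theorem dg_sdiff (v : V) {A B : Finset V} (h : B ⊆ A) :
    dg G v (A \ B) + dg G v B = dg G v A := by
  rw [← dg_union v (disjoint_sdiff_self_left : Disjoint (A \ B) B), sdiff_union_of_subset h]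

theorem dg_insert (v w : V) {A : Finset V} (h : w ∉ A) :
    dg G v (insert w A) = dg G v A + (if G.Adj v w then 1 else 0) := by
  simp only [dg, nb, filter_insert]
  split_ifs with h1
  · rw [card_insert_of_notMem (by simp [h])]
  · simp

theorem dg_eq_sum (v : V) (A : Finset V) : dg G v A = ∑ w ∈ A, if G.Adj v w then 1 else 0 := by
  simp only [dg, nb, card_filter]

theorem dg_pos {v : V} {A : Finset V} : 0 < dg G v A ↔ ∃ w ∈ A, G.Adj v w := by
  simp only [dg, card_pos]
  constructor
  · rintro ⟨w, hw⟩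
    exact ⟨w, (mem_nb.1 hw).1, (mem_nb.1 hw).2⟩
  · rintro ⟨w, h1, h2⟩
    exact ⟨w, mem_nb.2 ⟨h1, h2⟩⟩

theorem one_lt_dg {v : V} {A : Finset V} (h : 2 ≤ dg G v A) :
    ∃ a ∈ A, ∃ b ∈ A, a ≠ b ∧ G.Adj v a ∧ G.Adj v b := by
  obtain ⟨a, ha, b, hb, hab⟩ := one_lt_card.1 (show 1 < (nb G v A).card from h)
  exact ⟨a, (mem_nb.1 ha).1, b, (mem_nb.1 hb).1, hab, (mem_nb.1 ha).2, (mem_nb.1 hb).2⟩

theorem two_lt_dg {v : V} {A : Finset V} (h : 3 ≤ dg G v A) :
    ∃ a ∈ A, ∃ b ∈ A, ∃ c ∈ A, a ≠ b ∧ a ≠ c ∧ b ≠ c ∧ G.Adj v a ∧ G.Adj v b ∧ G.Adj v c := by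
  obtain ⟨a, ha, b, hb, c, hc, h1, h2, h3⟩ := two_lt_card.1 (show 2 < (nb G v A).card from h)
  exact ⟨a, (mem_nb.1 ha).1, b, (mem_nb.1 hb).1, c, (mem_nb.1 hc).1, h1, h2, h3,
    (mem_nb.1 ha).2, (mem_nb.1 hb).2, (mem_nb.1 hc).2⟩

theorem ee_empty_left (B : Finset V) : ee G ∅ B = 0 := by simp [ee]

theorem ee_empty_right (A : Finset V) : ee G A ∅ = 0 := by simp [ee, dg_empty]

theorem ee_comm (A B : Finset V) : ee G A B = ee G B A := by
  simp only [ee, dg_eq_sum]
  rw [sum_comm]
  refine sum_congr rfl fun w _ => sum_congr rfl fun v _ => ?_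
  rw [G.adj_comm]

theorem ee_union_left {A B : Finset V} (h : Disjoint A B) (C : Finset V) :
    ee G (A ∪ B) C = ee G A C + ee G B C := sum_union h

theorem ee_union_right (A : Finset V) {B C : Finset V} (h : Disjoint B C) :
    ee G A (B ∪ C) = ee G A B + ee G A C := by
  rw [ee_comm, ee_union_left h, ee_comm B, ee_comm C]

theorem ee_union_self {A B : Finset V} (h : Disjoint A B) :
    ee G (A ∪ B) (A ∪ B) = ee G A A + 2 * ee G A B + ee G B B := by
  rw [ee_union_left h, ee_union_right _ h, ee_union_right _ h, ee_comm B A]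
  ring

theorem ee_mono {A A' B B' : Finset V} (h : A ⊆ A') (h' : B ⊆ B') : ee G A B ≤ ee G A' B' :=
  (sum_le_sum fun v _ => dg_mono v h').trans (sum_le_sum_of_subset h)

theorem ee_singleton_left (v : V) (B : Finset V) : ee G {v} B = dg G v B := by simp [ee]

theorem ee_singleton_right (A : Finset V) (v : V) : ee G A {v} = dg G v A := by
  rw [ee_comm, ee_singleton_left]

theorem ee_insert_self {v : V} {A : Finset V} (h : v ∉ A) :
    ee G (insert v A) (insert v A) = ee G A A + 2 * dg G v A := by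
  have e : insert v A = {v} ∪ A := insert_eq v A
  rw [e, ee_union_self (disjoint_singleton_left.2 h), ee_singleton_left, ee_singleton_left]
  have : dg G v {v} = 0 := by simp [dg, nb]
  rw [this]
  ring

theorem ee_erase_self {v : V} {A : Finset V} (h : v ∈ A) :
    ee G (A.erase v) (A.erase v) + 2 * dg G v A = ee G A A := by
  have h1 := ee_insert_self (G := G) (notMem_erase v A)
  rw [insert_erase h] at h1
  have h2 : dg G v A = dg G v (A.erase v) := by
    conv_lhs => rw [← insert_erase h]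
    rw [dg_insert v v (notMem_erase v A)]
    simp
  omega

/-- deleting a set `R`: at most `∑_{r ∈ R} dg r A` edges are lost -/
theorem ee_sdiff_ge (A R : Finset V) (h : R ⊆ A) :
    ee G A A ≤ ee G (A \ R) (A \ R) + 2 * ∑ r ∈ R, dg G r A := by
  have h1 : A = (A \ R) ∪ R := (sdiff_union_of_subset h).symm
  have hd : Disjoint (A \ R) R := disjoint_sdiff_self_left
  have h2 : ee G A A = ee G (A \ R) (A \ R) + 2 * ee G (A \ R) R + ee G R R := by
    conv_lhs => rw [h1]
    exact ee_union_self hd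
  have h3 : ∑ r ∈ R, dg G r A = ee G R (A \ R) + ee G R R := by
    rw [← ee_union_right R hd, ← h1]
    rfl
  rw [h2, h3, ee_comm (A \ R) R]
  omega

theorem mm_comm (A B : Finset V) : mm G A B = mm G B A := by
  have e : ∀ v : V, ∀ A : Finset V, (ms G v A).card = ∑ w ∈ A, if ¬ G.Adj v w then 1 else 0 := by
    intro v A
    simp only [ms, card_filter]
  simp only [mm, e]
  rw [sum_comm]
  refine sum_congr rfl fun w _ => sum_congr rfl fun v _ => ?_
  rw [G.adj_comm]

theorem ee_add_mm (A B : Finset V) : ee G A B + mm G A B = A.card * B.card := by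
  simp only [ee, mm]
  rw [← sum_add_distrib, sum_congr rfl fun v _ => dg_add_ms v B, sum_const, smul_eq_mul]

theorem ms_le_mm {v : V} {A B : Finset V} (h : v ∈ A) : (ms G v B).card ≤ mm G A B :=
  single_le_sum (f := fun v => (ms G v B).card) (fun _ _ => Nat.zero_le _) h

/-- the number of vertices of `X` which are not clean -/
theorem card_not_cl (X Y : Finset V) : X.card ≤ (cl G X Y).card + mm G X Y := by
  have h1 : (cl G X Y).card + (X.filter fun x => ¬ ms G x Y = ∅).card = X.card := by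
    simp only [cl]
    exact card_filter_add_card_filter_not _
  have h2 : (X.filter fun x => ¬ ms G x Y = ∅).card ≤ mm G X Y := by
    rw [card_filter, mm]
    refine sum_le_sum fun x _ => ?_
    by_cases h : ms G x Y = ∅
    · simp [h]
    · have : (ms G x Y).card ≠ 0 := fun h0 => h (card_eq_zero.1 h0)
      simp only [h, not_false_eq_true, if_true]
      omega
  omega

/-- sharing: `∑ a_w ≤ |A| + ∑ (a_w choose 2)` type bound: if every two members of `C` have at most
`2` common neighbours in `A`, then `ee G A C ≤ |A| + |C|^2` -/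
theorem ee_le_of_share {A C : Finset V}
    (h : ∀ p ∈ C, ∀ q ∈ C, p ≠ q → (A.filter fun w => G.Adj p w ∧ G.Adj q w).card ≤ 2) :
    ee G A C ≤ A.card + C.card * C.card := by
  have h1 : ∀ w ∈ A, dg G w C * (dg G w C - 1) =
      ((C ×ˢ C).filter fun pq => pq.1 ≠ pq.2 ∧ G.Adj pq.1 w ∧ G.Adj pq.2 w).card := by
    intro w _
    have e : ((C ×ˢ C).filter fun pq => pq.1 ≠ pq.2 ∧ G.Adj pq.1 w ∧ G.Adj pq.2 w) =
        (nb G w C).offDiag := by
      ext ⟨p, q⟩
      simp only [mem_filter, mem_product, mem_offDiag, mem_nb, G.adj_comm w]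
      tauto
    rw [e, offDiag_card, dg, Nat.mul_sub, mul_one]
  have h2 : ∑ w ∈ A, dg G w C * (dg G w C - 1) ≤ 2 * (C.card * C.card - C.card) := by
    rw [sum_congr rfl h1]
    have e1 : ∑ w ∈ A, ((C ×ˢ C).filter fun pq => pq.1 ≠ pq.2 ∧ G.Adj pq.1 w ∧ G.Adj pq.2 w).card
        = ∑ pq ∈ C.offDiag, (A.filter fun w => G.Adj pq.1 w ∧ G.Adj pq.2 w).card := by
      simp only [card_filter]
      rw [sum_comm]
      have e2 : C.offDiag = (C ×ˢ C).filter fun pq => pq.1 ≠ pq.2 := by
        ext ⟨p, q⟩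
        simp only [mem_filter, mem_product, mem_offDiag]
        tauto
      rw [e2, sum_filter]
      refine sum_congr rfl fun pq _ => ?_
      split_ifs with hne
      · refine sum_congr rfl fun w _ => ?_
        simp [hne]
      · refine sum_eq_zero fun w _ => ?_
        simp only [ne_eq, not_not] at hne
        simp [hne]
    rw [e1]
    calc _ ≤ ∑ pq ∈ C.offDiag, 2 := by
            refine sum_le_sum fun pq hpq => ?_
            rw [mem_offDiag] at hpq
            exact h _ hpq.1 _ hpq.2.1 hpq.2.2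
      _ = _ := by rw [sum_const, offDiag_card, smul_eq_mul, mul_comm]
  have h3 : ∀ a : ℕ, 2 * a ≤ 2 + a * (a - 1) := by
    intro a
    rcases a with _ | _ | a
    · simp
    · simp
    · simp only [Nat.add_sub_cancel]
      nlinarith
  have h4 : 2 * ee G A C ≤ 2 * A.card + 2 * (C.card * C.card - C.card) := by
    calc 2 * ee G A C = ∑ w ∈ A, 2 * dg G w C := by rw [ee, mul_sum]
      _ ≤ ∑ w ∈ A, (2 + dg G w C * (dg G w C - 1)) := sum_le_sum fun w _ => h3 _
      _ = 2 * A.card + ∑ w ∈ A, dg G w C * (dg G w C - 1) := by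
          rw [sum_add_distrib, sum_const, smul_eq_mul, mul_comm]
      _ ≤ _ := by omega
  have h5 : C.card * C.card - C.card ≤ C.card * C.card := Nat.sub_le _ _
  omega

end Pool.Agent.Lib.MP_a3b162_co.CS
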