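import Pool.Agent.Lib.MP_a3b162_co.CS.BNear
import Pool.Agent.Lib.MP_a3b162_co.Core

/-!
MODULE BConf (75 min).  The lower bound: the configuration.

`r` from `pp_xy`.  `v 0 = e_2`, `v 1 = e_4` (`![0,1,0,0]`, `![0,0,0,1]`), and for `i ≥ 2`: `xx (τ i)` for even
`i`, `yy (τ i)` for odd `i`, `τ i = r (i+1)/(n+2)` (pairwise different, `|τ i| ≤ r ≤ 1/100`); see
`../LC.lean` (`clusters`) for a similar definition.
`φ = phi α β γ δ`: `φ (xx T) = PP α β γ δ T`, `φ (yy U) = PP δ γ β α U`, `φ e_2 = (β+γ)/2`,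
`φ e_4 = (β-γ)/2` (`ring`).
Pairs: two `xx` (sign true): `pp_xx`; two `yy`: `pp_xx` with the roles exchanged (take `phi δ γ β α`);
`xx`-`yy`, both signs: `pp_xy`; (`yy`-`xx`: Pres is symmetric, `NG.pres_symm` or multiply `φ` by `sg b`.)
`xx`-`e_2`, sign `s`: `pp_e` with `β = 7s/5`, `γ = 3s/5` (`φ e_2 = s`, `φ e_4 = 2s/5`);
`xx`-`e_4`, sign `s`: `β = 7s/5`, `γ = -3s/5` (`φ e_4 = s`, `φ e_2 = 2s/5`);
`yy`-`e_2`, sign `s`: `pp_e` with `(β, γ) := (7s/5, 3s/5)` gives `(α, δ)`; take `phi δ γ β α` (so the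
`PP` of `yy` is `PP α β γ δ`): `φ e_2 = (γ+β)/2 = s`, `φ e_4 = (γ-β)/2 = -2s/5`;
`yy`-`e_4`, sign `s`: `(β, γ) := (-7s/5, 3s/5)`, `phi δ γ β α`: `φ e_4 = (γ-β)/2 = s`,
`φ e_2 = (γ+β)/2 = -2s/5`.
`e_2`-`e_4`, sign `s`: `φ = v_1 + s v_3` (coordinates): `φ (xx T)`, `φ (yy U)` are at most `4 · 1/100`.
-/

set_option autoImplicit false

namespace Pool.Agent.Lib.MP_a3b162_co.CS

/-- first curve -/
noncomputable def xx (t : ℝ) : Fin 4 → ℝ :=
  ![1 - t ^ 2 - t ^ 4, 3 / 2 * t + 5 / 8 * t ^ 2 + t ^ 3, t, -(3 / 2 * t) + 5 / 8 * t ^ 2 - t ^ 3]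

/-- second curve -/
noncomputable def yy (u : ℝ) : Fin 4 → ℝ :=
  ![u, 3 / 2 * u + 5 / 8 * u ^ 2 + u ^ 3, 1 - u ^ 2 - u ^ 4, 3 / 2 * u - 5 / 8 * u ^ 2 + u ^ 3]

/-- the functional with parameters `α β γ δ` -/
noncomputable def phi (α β γ δ : ℝ) : (Fin 4 → ℝ) →ₗ[ℝ] ℝ :=
  α • LinearMap.proj 0 + ((β + γ) / 2) • LinearMap.proj 1 + δ • LinearMap.proj 2 +
    ((β - γ) / 2) • LinearMap.proj 3

theorem phi_xx (α β γ δ T : ℝ) : phi α β γ δ (xx T) = PP α β γ δ T := by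
  simp [phi, xx, PP]
  ring

theorem phi_yy (α β γ δ U : ℝ) : phi α β γ δ (yy U) = PP δ γ β α U := by
  simp [phi, yy, PP]
  ring

/-- the points of the configuration -/
inductive BconfPt : Type
  | E2 : BconfPt
  | E4 : BconfPt
  | X : ℝ → BconfPt
  | Y : ℝ → BconfPt

/-- the coordinates -/
noncomputable def BconfPt.ev : BconfPt → (Fin 4 → ℝ)
  | .E2 => ![0, 1, 0, 0]
  | .E4 => ![0, 0, 0, 1]
  | .X t => xx t
  | .Y u => yy u

/-- small parameters -/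
def BconfPt.small (r : ℝ) : BconfPt → Prop
  | .E2 => True
  | .E4 => True
  | .X t => |t| ≤ r
  | .Y u => |u| ≤ r

/-- the pair is present with sign `s` -/
def BconfP2 (r : ℝ) (p q : BconfPt) (s : Bool) : Prop :=
  ∃ φ : (Fin 4 → ℝ) →ₗ[ℝ] ℝ, φ p.ev = 1 ∧ φ q.ev = sg s ∧
    ∀ w : BconfPt, w.small r → w ≠ p → w ≠ q → |φ w.ev| < 1

theorem bconf_symm {r : ℝ} {p q : BconfPt} {s : Bool} (h : BconfP2 r p q s) :
    BconfP2 r q p s := by
  obtain ⟨φ, h1, h2, h3⟩ := h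
  refine ⟨sg s • φ, ?_, ?_, fun w hw hq hp => ?_⟩
  · rw [LinearMap.smul_apply, h2, smul_eq_mul, sg_mul_self]
  · rw [LinearMap.smul_apply, h1, smul_eq_mul, mul_one]
  · rw [LinearMap.smul_apply, smul_eq_mul, abs_mul, abs_sg, one_mul]
    exact h3 w hw hp hq

theorem bconf_phi_E2 (α β γ δ : ℝ) : phi α β γ δ (BconfPt.ev .E2) = (β + γ) / 2 := by
  simp [phi, BconfPt.ev]

theorem bconf_phi_E4 (α β γ δ : ℝ) : phi α β γ δ (BconfPt.ev .E4) = (β - γ) / 2 := by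
  simp [phi, BconfPt.ev]

theorem bconf_phi_X (α β γ δ t : ℝ) : phi α β γ δ (BconfPt.ev (.X t)) = PP α β γ δ t :=
  phi_xx α β γ δ t

theorem bconf_phi_Y (α β γ δ u : ℝ) : phi α β γ δ (BconfPt.ev (.Y u)) = PP δ γ β α u :=
  phi_yy α β γ δ u

theorem bconf_half {x : ℝ} (h : |x| < 2) : |x / 2| < 1 := by
  rw [abs_div, abs_of_pos (by norm_num : (0 : ℝ) < 2)]
  linarith

theorem bconf_sg (s : Bool) : sg s = 1 ∨ sg s = -1 := by
  cases s
  · right; rfl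
  · left; rfl

theorem bconf_XX {r t1 t2 : ℝ} (hr : r ≤ 1 / 100) (h1 : |t1| ≤ r) (h2 : |t2| ≤ r) :
    BconfP2 r (.X t1) (.X t2) true := by
  obtain ⟨α, β, γ, δ, a1, a2, a3, a4, a5, a6⟩ := pp_xx (h1.trans hr) (h2.trans hr)
  refine ⟨phi α β γ δ, by rw [bconf_phi_X, a1], by rw [bconf_phi_X, a2, sg_true], ?_⟩
  intro w hw hp hq
  cases w with
  | E2 => rw [bconf_phi_E2]; exact bconf_half a5
  | E4 => rw [bconf_phi_E4]; exact bconf_half a6
  | X t =>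
    rw [bconf_phi_X]
    exact a3 t (le_trans hw hr) (fun h => hp (by rw [h])) (fun h => hq (by rw [h]))
  | Y u =>
    rw [bconf_phi_Y]
    exact a4 u (le_trans hw hr)

theorem bconf_YY {r t1 t2 : ℝ} (hr : r ≤ 1 / 100) (h1 : |t1| ≤ r) (h2 : |t2| ≤ r) :
    BconfP2 r (.Y t1) (.Y t2) true := by
  obtain ⟨α, β, γ, δ, a1, a2, a3, a4, a5, a6⟩ := pp_xx (h1.trans hr) (h2.trans hr)
  refine ⟨phi δ γ β α, by rw [bconf_phi_Y, a1], by rw [bconf_phi_Y, a2, sg_true], ?_⟩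
  intro w hw hp hq
  cases w with
  | E2 => rw [bconf_phi_E2, add_comm]; exact bconf_half a5
  | E4 =>
    rw [bconf_phi_E4]
    refine bconf_half ?_
    rw [abs_sub_comm]
    exact a6
  | X t =>
    rw [bconf_phi_X]
    exact a4 t (le_trans hw hr)
  | Y u =>
    rw [bconf_phi_Y]
    exact a3 u (le_trans hw hr) (fun h => hp (by rw [h])) (fun h => hq (by rw [h]))

theorem bconf_XE2 {r t : ℝ} (hr : r ≤ 1 / 100) (h1 : |t| ≤ r) (s : Bool) :
    BconfP2 r (.X t) .E2 s := by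
  obtain ⟨α, δ, a1, a2, a3⟩ := pp_e (β := 7 * sg s / 5) (γ := 3 * sg s / 5) (h1.trans hr)
    (by rcases bconf_sg s with h | h <;> rw [h] <;> norm_num)
    (by rcases bconf_sg s with h | h <;> rw [h] <;> norm_num)
  refine ⟨phi α (7 * sg s / 5) (3 * sg s / 5) δ, by rw [bconf_phi_X, a1], ?_, ?_⟩
  · rw [bconf_phi_E2]; ring
  intro w hw hp hq
  cases w with
  | E2 => exact absurd rfl hq
  | E4 =>
    rw [bconf_phi_E4]
    rcases bconf_sg s with h | h <;> rw [h] <;> norm_num [abs_lt]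
  | X t =>
    rw [bconf_phi_X]
    exact a2 t (le_trans hw hr) (fun h => hp (by rw [h]))
  | Y u =>
    rw [bconf_phi_Y]
    exact a3 u (le_trans hw hr)

theorem bconf_XE4 {r t : ℝ} (hr : r ≤ 1 / 100) (h1 : |t| ≤ r) (s : Bool) :
    BconfP2 r (.X t) .E4 s := by
  obtain ⟨α, δ, a1, a2, a3⟩ := pp_e (β := 7 * sg s / 5) (γ := -(3 * sg s / 5)) (h1.trans hr)
    (by rcases bconf_sg s with h | h <;> rw [h] <;> norm_num)
    (by rcases bconf_sg s with h | h <;> rw [h] <;> norm_num)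
  refine ⟨phi α (7 * sg s / 5) (-(3 * sg s / 5)) δ, by rw [bconf_phi_X, a1], ?_, ?_⟩
  · rw [bconf_phi_E4]; ring
  intro w hw hp hq
  cases w with
  | E4 => exact absurd rfl hq
  | E2 =>
    rw [bconf_phi_E2]
    rcases bconf_sg s with h | h <;> rw [h] <;> norm_num [abs_lt]
  | X t =>
    rw [bconf_phi_X]
    exact a2 t (le_trans hw hr) (fun h => hp (by rw [h]))
  | Y u =>
    rw [bconf_phi_Y]
    exact a3 u (le_trans hw hr)

theorem bconf_YE2 {r t : ℝ} (hr : r ≤ 1 / 100) (h1 : |t| ≤ r) (s : Bool) :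
    BconfP2 r (.Y t) .E2 s := by
  obtain ⟨α, δ, a1, a2, a3⟩ := pp_e (β := 7 * sg s / 5) (γ := 3 * sg s / 5) (h1.trans hr)
    (by rcases bconf_sg s with h | h <;> rw [h] <;> norm_num)
    (by rcases bconf_sg s with h | h <;> rw [h] <;> norm_num)
  refine ⟨phi δ (3 * sg s / 5) (7 * sg s / 5) α, by rw [bconf_phi_Y, a1], ?_, ?_⟩
  · rw [bconf_phi_E2]; ring
  intro w hw hp hq
  cases w with
  | E2 => exact absurd rfl hq
  | E4 =>
    rw [bconf_phi_E4]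
    rcases bconf_sg s with h | h <;> rw [h] <;> norm_num [abs_lt]
  | X t =>
    rw [bconf_phi_X]
    exact a3 t (le_trans hw hr)
  | Y u =>
    rw [bconf_phi_Y]
    exact a2 u (le_trans hw hr) (fun h => hp (by rw [h]))

theorem bconf_YE4 {r t : ℝ} (hr : r ≤ 1 / 100) (h1 : |t| ≤ r) (s : Bool) :
    BconfP2 r (.Y t) .E4 s := by
  obtain ⟨α, δ, a1, a2, a3⟩ := pp_e (β := -(7 * sg s / 5)) (γ := 3 * sg s / 5) (h1.trans hr)
    (by rcases bconf_sg s with h | h <;> rw [h] <;> norm_num)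
    (by rcases bconf_sg s with h | h <;> rw [h] <;> norm_num)
  refine ⟨phi δ (3 * sg s / 5) (-(7 * sg s / 5)) α, by rw [bconf_phi_Y, a1], ?_, ?_⟩
  · rw [bconf_phi_E4]; ring
  intro w hw hp hq
  cases w with
  | E4 => exact absurd rfl hq
  | E2 =>
    rw [bconf_phi_E2]
    rcases bconf_sg s with h | h <;> rw [h] <;> norm_num [abs_lt]
  | X t =>
    rw [bconf_phi_X]
    exact a3 t (le_trans hw hr)
  | Y u =>
    rw [bconf_phi_Y]
    exact a2 u (le_trans hw hr) (fun h => hp (by rw [h]))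

theorem bconf_abs {t : ℝ} (h : |t| ≤ 1 / 100) : |t ^ 2| ≤ 1 / 10000 ∧ |t ^ 3| ≤ 1 / 1000000 := by
  rw [abs_pow, abs_pow]
  have h0 := abs_nonneg t
  constructor
  · calc |t| ^ 2 ≤ (1 / 100) ^ 2 := pow_le_pow_left₀ h0 h 2
      _ = 1 / 10000 := by norm_num
  · calc |t| ^ 3 ≤ (1 / 100) ^ 3 := pow_le_pow_left₀ h0 h 3
      _ = 1 / 1000000 := by norm_num

theorem bconf_EE {r : ℝ} (hr : r ≤ 1 / 100) (s : Bool) : BconfP2 r .E2 .E4 s := by
  refine ⟨LinearMap.proj 1 + sg s • LinearMap.proj 3, ?_, ?_, ?_⟩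
  · simp [BconfPt.ev]
  · simp [BconfPt.ev]
  intro w hw hp hq
  cases w with
  | E2 => exact absurd rfl hp
  | E4 => exact absurd rfl hq
  | X t =>
    have ht : |t| ≤ 1 / 100 := le_trans hw hr
    obtain ⟨b2, b3⟩ := bconf_abs ht
    rw [abs_le] at ht b2 b3
    have e : (LinearMap.proj 1 + sg s • LinearMap.proj 3 : (Fin 4 → ℝ) →ₗ[ℝ] ℝ)
        (BconfPt.ev (.X t)) = (3 / 2 * t + 5 / 8 * t ^ 2 + t ^ 3) +
          sg s * (-(3 / 2 * t) + 5 / 8 * t ^ 2 - t ^ 3) := by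
      simp [BconfPt.ev, xx]
    rw [e, abs_lt]
    rcases bconf_sg s with h | h <;> rw [h] <;> constructor <;> linarith
  | Y t =>
    have ht : |t| ≤ 1 / 100 := le_trans hw hr
    obtain ⟨b2, b3⟩ := bconf_abs ht
    rw [abs_le] at ht b2 b3
    have e : (LinearMap.proj 1 + sg s • LinearMap.proj 3 : (Fin 4 → ℝ) →ₗ[ℝ] ℝ)
        (BconfPt.ev (.Y t)) = (3 / 2 * t + 5 / 8 * t ^ 2 + t ^ 3) +
          sg s * (3 / 2 * t - 5 / 8 * t ^ 2 + t ^ 3) := by
      simp [BconfPt.ev, yy]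
    rw [e, abs_lt]
    rcases bconf_sg s with h | h <;> rw [h] <;> constructor <;> linarith

/-- the kind of the index `i` -/
noncomputable def bconfPt (τ : ℕ → ℝ) (i : ℕ) : BconfPt :=
  if i = 0 then .E2 else if i = 1 then .E4 else if i % 2 = 0 then .X (τ i) else .Y (τ i)

theorem bconf_cases (τ : ℕ → ℝ) (i : ℕ) :
    (i = 0 ∧ bconfPt τ i = .E2) ∨ (i = 1 ∧ bconfPt τ i = .E4) ∨
    (2 ≤ i ∧ i % 2 = 0 ∧ bconfPt τ i = .X (τ i)) ∨
    (2 ≤ i ∧ i % 2 = 1 ∧ bconfPt τ i = .Y (τ i)) := by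
  unfold bconfPt
  by_cases h0 : i = 0
  · left; exact ⟨h0, by rw [if_pos h0]⟩
  by_cases h1 : i = 1
  · right; left; exact ⟨h1, by rw [if_neg h0, if_pos h1]⟩
  by_cases h2 : i % 2 = 0
  · right; right; left
    exact ⟨by omega, h2, by rw [if_neg h0, if_neg h1, if_pos h2]⟩
  · right; right; right
    exact ⟨by omega, by omega, by rw [if_neg h0, if_neg h1, if_neg h2]⟩

theorem bconf_inj {τ : ℕ → ℝ} (hτ : Function.Injective τ) : Function.Injective (bconfPt τ) := by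
  intro i j h
  rcases bconf_cases τ i with ⟨a, b⟩ | ⟨a, b⟩ | ⟨a, a', b⟩ | ⟨a, a', b⟩ <;>
  rcases bconf_cases τ j with ⟨c, d⟩ | ⟨c, d⟩ | ⟨c, c', d⟩ | ⟨c, c', d⟩ <;>
  rw [b, d] at h
  · rw [a, c]
  · cases h
  · cases h
  · cases h
  · cases h
  · rw [a, c]
  · cases h
  · cases h
  · cases h
  · cases h
  · injection h with h; exact hτ h
  · cases h
  · cases h
  · cases h
  · cases h
  · injection h with h; exact hτ h

theorem k2_config (n : ℕ) : ∃ v : Fin n → (Fin 4 → ℝ), ∀ i j : Fin n, i ≠ j →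
    Pres v i j true ∧
      (i.val < 2 ∨ j.val < 2 ∨ i.val % 2 ≠ j.val % 2 → Pres v i j false) := by
  obtain ⟨r, hr, hr100, hxy⟩ := pp_xy
  set τ : ℕ → ℝ := fun i => r * ((i : ℝ) + 1) / ((n : ℝ) + 2) with hτ
  have hn0 : (0 : ℝ) < (n : ℝ) + 2 := by positivity
  have hinj : Function.Injective τ := by
    intro i j h
    simp only [hτ] at h
    have h1 : r * ((i : ℝ) + 1) = r * ((j : ℝ) + 1) := by
      rw [div_left_inj' hn0.ne'] at h
      exact h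
    have h2 : (i : ℝ) + 1 = (j : ℝ) + 1 := mul_left_cancel₀ hr.ne' h1
    have h3 : (i : ℝ) = j := by linarith
    exact_mod_cast h3
  have hsm : ∀ i : Fin n, |τ i| ≤ r := by
    intro i
    have h0 : 0 ≤ τ i := by simp only [hτ]; positivity
    rw [abs_of_nonneg h0]
    simp only [hτ]
    rw [div_le_iff₀ hn0]
    have h1 : ((i : ℕ) : ℝ) + 1 ≤ (n : ℝ) + 2 := by
      have : (i : ℕ) < n := i.isLt
      have h2 : ((i : ℕ) : ℝ) < n := by exact_mod_cast this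
      linarith
    exact mul_le_mul_of_nonneg_left h1 hr.le
  have hsmall : ∀ i : Fin n, (bconfPt τ i).small r := by
    intro i
    rcases bconf_cases τ i with ⟨_, b⟩ | ⟨_, b⟩ | ⟨_, _, b⟩ | ⟨_, _, b⟩ <;> rw [b]
    · trivial
    · trivial
    · exact hsm i
    · exact hsm i
  have hXY : ∀ (t u : ℝ), |t| ≤ r → |u| ≤ r → ∀ s : Bool, BconfP2 r (.X t) (.Y u) s := by
    intro t u ht hu s
    obtain ⟨α, β, γ, δ, a1, a2, a3, a4, a5, a6⟩ := hxy (sg s) (bconf_sg s) t u ht hu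
    refine ⟨phi α β γ δ, by rw [bconf_phi_X, a1], by rw [bconf_phi_Y, a2], ?_⟩
    intro w hw hp hq
    cases w with
    | E2 => rw [bconf_phi_E2]; exact bconf_half a5
    | E4 => rw [bconf_phi_E4]; exact bconf_half a6
    | X t =>
      rw [bconf_phi_X]
      exact a3 t hw (fun h => hp (by rw [h]))
    | Y u =>
      rw [bconf_phi_Y]
      exact a4 u hw (fun h => hq (by rw [h]))
  have key : ∀ (i j : Fin n) (s : Bool), i ≠ j →
      (s = true ∨ (i : ℕ) < 2 ∨ (j : ℕ) < 2 ∨ (i : ℕ) % 2 ≠ (j : ℕ) % 2) →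
      BconfP2 r (bconfPt τ i) (bconfPt τ j) s := by
    intro i j s hij hs
    have hv : (i : ℕ) ≠ j := fun h => hij (Fin.ext h)
    rcases bconf_cases τ i with ⟨a, b⟩ | ⟨a, b⟩ | ⟨a, a', b⟩ | ⟨a, a', b⟩ <;>
    rcases bconf_cases τ j with ⟨c, d⟩ | ⟨c, d⟩ | ⟨c, c', d⟩ | ⟨c, c', d⟩ <;>
    rw [b, d]
    · omega
    · exact bconf_EE hr100 s
    · exact bconf_symm (bconf_XE2 hr100 (hsm j) s)
    · exact bconf_symm (bconf_YE2 hr100 (hsm j) s)
    · exact bconf_symm (bconf_EE hr100 s)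
    · omega
    · exact bconf_symm (bconf_XE4 hr100 (hsm j) s)
    · exact bconf_symm (bconf_YE4 hr100 (hsm j) s)
    · exact bconf_XE2 hr100 (hsm i) s
    · exact bconf_XE4 hr100 (hsm i) s
    · have hs' : s = true := by
        rcases hs with h | h | h | h
        · exact h
        · omega
        · omega
        · omega
      rw [hs']
      exact bconf_XX hr100 (hsm i) (hsm j)
    · exact hXY _ _ (hsm i) (hsm j) s
    · exact bconf_YE2 hr100 (hsm i) s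
    · exact bconf_YE4 hr100 (hsm i) s
    · exact bconf_symm (hXY _ _ (hsm j) (hsm i) s)
    · have hs' : s = true := by
        rcases hs with h | h | h | h
        · exact h
        · omega
        · omega
        · omega
      rw [hs']
      exact bconf_YY hr100 (hsm i) (hsm j)
  have hpres : ∀ (i j : Fin n) (s : Bool), i ≠ j →
      (s = true ∨ (i : ℕ) < 2 ∨ (j : ℕ) < 2 ∨ (i : ℕ) % 2 ≠ (j : ℕ) % 2) →
      Pres (fun i : Fin n => (bconfPt τ i).ev) i j s := by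
    intro i j s hij hs
    obtain ⟨φ, h1, h2, h3⟩ := key i j s hij hs
    refine ⟨φ, h1, h2, fun k hki hkj => h3 _ (hsmall k) (fun h => hki ?_) (fun h => hkj ?_)⟩
    · exact Fin.ext (bconf_inj hinj h)
    · exact Fin.ext (bconf_inj hinj h)
  exact ⟨_, fun i j hij => ⟨hpres i j true hij (Or.inl rfl),
    fun h => hpres i j false hij (Or.inr h)⟩⟩

end Pool.Agent.Lib.MP_a3b162_co.CS
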