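import Pool.Agent.Lib.MP_a3b162_co.CS.BConf
import Pool.Agent.Lib.MP_a3b162_co.NG.Basic

/-!
MODULE BCount (60 min).  The lower bound: counting.

`vtx_of_pres`: for `i` take `j ≠ j'` different from `i` (`n ≥ 3`) and the functionals `φ`, `φ'` of
`Pres v i j true`, `Pres v i j' true`; `(φ + φ')/2` is `1` at `v i` and has absolute value `< 1` at all others
(at `v j`: `(1 + φ' (v j))/2` with `|φ' (v j)| < 1`).
`lower_EE`: `v` from `k2_config`.  `EE v` is at least `#{i < j} + #{i < j : i < 2 or different parity}`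
(pairs `(i,j,true)` and `(i,j,false)`; compare `../Lower.lean`), `2 #{i < j} = n (n-1)`, and
`#{i < j : i < 2 ∨ i % 2 ≠ j % 2} = 1 + 2 (n-2) + ((n-2)/2) ((n-1)/2) = n²/4 + n - 2`
(count the complement: pairs `2 ≤ i < j` of equal parity; or by induction on `n`, step `n → n+1`: the new
vertex `n` has `2 + (n-1)/2` partners `j < n` with `j < 2` or different parity ... for `n ≥ 2`).
-/

set_option autoImplicit false

namespace Pool.Agent.Lib.MP_a3b162_co.CS

open Pool.Agent.Lib.MP_a3b162_co.NG

theorem vtx_of_pres {n : ℕ} (hn : 3 ≤ n) {v : Fin n → (Fin 4 → ℝ)}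
    (h : ∀ i j : Fin n, i ≠ j → Pres v i j true) : Vtx v := by
  intro i
  obtain ⟨j, hj⟩ : ∃ j : Fin n, j ∉ ({i} : Finset (Fin n)) := by
    by_contra hcon
    push Not at hcon
    have h1 : (Finset.univ : Finset (Fin n)) ⊆ {i} := fun k _ => hcon k
    have h2 := Finset.card_le_card h1
    rw [Finset.card_univ, Fintype.card_fin, Finset.card_singleton] at h2
    omega
  obtain ⟨j', hj'⟩ : ∃ j' : Fin n, j' ∉ ({i, j} : Finset (Fin n)) := by
    by_contra hcon
    push Not at hcon
    have h1 : (Finset.univ : Finset (Fin n)) ⊆ {i, j} := fun k _ => hcon k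
    have h2 := Finset.card_le_card h1
    have h3 := Finset.card_le_two (a := i) (b := j)
    rw [Finset.card_univ, Fintype.card_fin] at h2
    omega
  rw [Finset.mem_singleton] at hj
  rw [Finset.mem_insert, Finset.mem_singleton, not_or] at hj'
  obtain ⟨φ, a1, a2, a3⟩ := h i j (Ne.symm hj)
  obtain ⟨ψ, b1, b2, b3⟩ := h i j' (Ne.symm hj'.1)
  rw [sg_true] at a2 b2
  have e : ∀ x, ((1 / 2 : ℝ) • (φ + ψ)) x = (φ x + ψ x) / 2 := by
    intro x
    rw [LinearMap.smul_apply, LinearMap.add_apply, smul_eq_mul]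
    ring
  refine ⟨(1 / 2 : ℝ) • (φ + ψ), ?_, fun k hk => ?_⟩
  · rw [e, a1, b1]
    norm_num
  · rw [e]
    by_cases hkj : k = j
    · subst hkj
      have h1 := b3 k hk (Ne.symm hj'.2)
      rw [a2]
      rw [abs_lt] at h1 ⊢
      constructor <;> linarith [h1.1, h1.2]
    · have h1 := a3 k hk hkj
      by_cases hkj' : k = j'
      · subst hkj'
        rw [b2]
        rw [abs_lt] at h1 ⊢
        constructor <;> linarith [h1.1, h1.2]
      · have h2 := b3 k hk hkj'
        rw [abs_lt] at h1 h2 ⊢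
        constructor <;> linarith [h1.1, h1.2, h2.1, h2.2]

/-- pairs of `Fin n` and sums over `range` -/
theorem bcount_pairs (n : ℕ) (C : ℕ → ℕ → Prop) [∀ i j, Decidable (C i j)] :
    ∑ j ∈ Finset.range n, ((Finset.range j).filter (fun i => C i j)).card ≤
      (Finset.univ.filter (fun p : Fin n × Fin n => p.1 < p.2 ∧
        C (p.1 : ℕ) (p.2 : ℕ))).card := by
  classical
  rw [← Fin.sum_univ_eq_sum_range (fun j => ((Finset.range j).filter (fun i => C i j)).card) n]
  rw [Finset.card_filter, Fintype.sum_prod_type_right]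
  refine Finset.sum_le_sum fun j _ => ?_
  rw [← Finset.card_filter]
  have hsub : (Finset.range (j : ℕ)).filter (fun i => C i j) ⊆
      (Finset.univ.filter (fun i : Fin n => i < j ∧ C (i : ℕ) (j : ℕ))).image
        (fun i : Fin n => (i : ℕ)) := by
    intro x hx
    rw [Finset.mem_filter, Finset.mem_range] at hx
    rw [Finset.mem_image]
    refine ⟨⟨x, hx.1.trans j.isLt⟩, ?_, rfl⟩
    rw [Finset.mem_filter]
    exact ⟨Finset.mem_univ _, hx.1, hx.2⟩
  exact (Finset.card_le_card hsub).trans Finset.card_image_le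

/-- the number of partners -/
theorem bcount_cnt (j : ℕ) (hj : 2 ≤ j) :
    2 + (j - 1) / 2 ≤ ((Finset.range j).filter (fun i => i < 2 ∨ i % 2 ≠ j % 2)).card := by
  induction j using Nat.strong_induction_on with
  | _ j ih =>
    by_cases h4 : j < 4
    · have : j = 2 ∨ j = 3 := by omega
      rcases this with rfl | rfl <;> decide
    · have h1 := ih (j - 2) (by omega) (by omega)
      have hsub : insert (j - 1) ((Finset.range (j - 2)).filter
          (fun i => i < 2 ∨ i % 2 ≠ (j - 2) % 2)) ⊆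
          (Finset.range j).filter (fun i => i < 2 ∨ i % 2 ≠ j % 2) := by
        intro x hx
        rw [Finset.mem_insert, Finset.mem_filter, Finset.mem_range] at hx
        rw [Finset.mem_filter, Finset.mem_range]
        rcases hx with rfl | ⟨h2, h3⟩
        · exact ⟨by omega, Or.inr (by omega)⟩
        · refine ⟨by omega, ?_⟩
          rcases h3 with h3 | h3
          · exact Or.inl h3
          · exact Or.inr (by omega)
      have h2 := Finset.card_le_card hsub
      rw [Finset.card_insert_of_notMem (by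
        rw [Finset.mem_filter, Finset.mem_range]
        intro h
        omega)] at h2
      omega

theorem bcount_sum (n : ℕ) (hn : 2 ≤ n) : n ^ 2 / 4 + n - 2 ≤
    ∑ j ∈ Finset.range n, ((Finset.range j).filter (fun i => i < 2 ∨ i % 2 ≠ j % 2)).card := by
  induction n, hn using Nat.le_induction with
  | base => decide
  | succ n hn ih =>
    rw [Finset.sum_range_succ]
    have h1 := bcount_cnt n hn
    have h2 : (n + 1) ^ 2 / 4 + (n + 1) - 2 ≤ n ^ 2 / 4 + n - 2 + (2 + (n - 1) / 2) := by
      rcases Nat.even_or_odd' n with ⟨k, hk | hk⟩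
      · have e1 : n ^ 2 / 4 = k ^ 2 := by
          rw [hk]
          have : (2 * k) ^ 2 = 4 * k ^ 2 := by ring
          omega
        have e2 : (n + 1) ^ 2 / 4 = k ^ 2 + k := by
          rw [hk]
          have : (2 * k + 1) ^ 2 = 4 * (k ^ 2 + k) + 1 := by ring
          omega
        omega
      · have e1 : n ^ 2 / 4 = k ^ 2 + k := by
          rw [hk]
          have : (2 * k + 1) ^ 2 = 4 * (k ^ 2 + k) + 1 := by ring
          omega
        have e2 : (n + 1) ^ 2 / 4 = k ^ 2 + 2 * k + 1 := by
          rw [hk]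
          have : (2 * k + 1 + 1) ^ 2 = 4 * (k ^ 2 + 2 * k + 1) := by ring
          omega
        omega
    omega

theorem lower_EE {n : ℕ} (hn : 4 ≤ n) : ∃ v : Fin n → (Fin 4 → ℝ), Vtx v ∧
    n * (n - 1) / 2 + (n ^ 2 / 4 + n - 2) ≤ EE v := by
  classical
  obtain ⟨v, hv⟩ := k2_config n
  refine ⟨v, vtx_of_pres (by omega) fun i j hij => (hv i j hij).1, ?_⟩
  have hfin : {t : Fin n × Fin n × Bool | t.1 < t.2.1 ∧ Pres v t.1 t.2.1 t.2.2}.Finite :=
    Set.toFinite _
  set A0 : Finset (Fin n × Fin n) := Finset.univ.filter (fun p : Fin n × Fin n => p.1 < p.2 ∧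
    (fun _ _ : ℕ => True) (p.1 : ℕ) (p.2 : ℕ)) with hA0
  set B0 : Finset (Fin n × Fin n) := Finset.univ.filter (fun p : Fin n × Fin n => p.1 < p.2 ∧
    (fun i j : ℕ => i < 2 ∨ i % 2 ≠ j % 2) (p.1 : ℕ) (p.2 : ℕ)) with hB0
  set A : Finset (Fin n × Fin n × Bool) := A0.image (fun p => (p.1, p.2, true)) with hA
  set B : Finset (Fin n × Fin n × Bool) := B0.image (fun p => (p.1, p.2, false)) with hB
  have hAB : Disjoint A B := by
    rw [Finset.disjoint_left]
    intro t ht ht'
    simp only [hA, Finset.mem_image] at ht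
    simp only [hB, Finset.mem_image] at ht'
    obtain ⟨p, -, rfl⟩ := ht
    obtain ⟨q, -, hq⟩ := ht'
    simp at hq
  have cA' : A.card = A0.card := by
    apply Finset.card_image_of_injective
    rintro ⟨a, b⟩ ⟨c, d⟩ h
    simp only [Prod.mk.injEq, and_true] at h
    exact Prod.ext h.1 h.2
  have cB' : B.card = B0.card := by
    apply Finset.card_image_of_injective
    rintro ⟨a, b⟩ ⟨c, d⟩ h
    simp only [Prod.mk.injEq, and_true] at h
    exact Prod.ext h.1 h.2
  have h1 : n * (n - 1) / 2 ≤ A0.card := by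
    have := bcount_pairs n (fun _ _ => True)
    refine le_trans (le_of_eq ?_) this
    rw [← Finset.sum_range_id]
    refine Finset.sum_congr rfl fun j _ => ?_
    rw [Finset.filter_true, Finset.card_range]
  have h2 : n ^ 2 / 4 + n - 2 ≤ B0.card :=
    (bcount_sum n (by omega)).trans (bcount_pairs n (fun i j => i < 2 ∨ i % 2 ≠ j % 2))
  refine (Nat.add_le_add h1 h2).trans ?_
  rw [← cA', ← cB', ← Finset.card_union_of_disjoint hAB, ← Set.ncard_coe_finset]
  unfold EE
  refine Set.ncard_le_ncard ?_ hfin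
  intro t ht
  simp only [Finset.coe_union, Set.mem_union, Finset.mem_coe] at ht
  rcases ht with ht | ht
  · simp only [hA, hA0, Finset.mem_image, Finset.mem_filter, Finset.mem_univ, true_and] at ht
    obtain ⟨p, hp1, rfl⟩ := ht
    exact ⟨hp1.1, (hv _ _ hp1.1.ne).1⟩
  · simp only [hB, hB0, Finset.mem_image, Finset.mem_filter, Finset.mem_univ, true_and] at ht
    obtain ⟨p, hp1, rfl⟩ := ht
    refine ⟨hp1.1, (hv _ _ hp1.1.ne).2 ?_⟩
    rcases hp1.2 with h | h
    · exact Or.inl h
    · exact Or.inr (Or.inr h)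

end Pool.Agent.Lib.MP_a3b162_co.CS
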