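import Pool.Agent.Lib.MP_a3b162_co.CS.BPoly

/-!
MODULE BNear (75 min).  The lower bound: pairs `x(t)`, `± y(u)`.

For `s = ± 1` we need `(α, β, γ, δ)` near `(1, -2/3, -2s/3, s)` with
`PP α β γ δ t = 1`, `PP' α β γ δ t = 0`, `PP δ γ β α u = s`, `PP' δ γ β α u = 0`: a linear system
`M(t,u) z = b`, `z = (α, β, γ, δ)`, `b = (1, 0, s, 0)`, rows of `M(0,0)`: `(1,0,0,0)`, `(0,0,3/2,1)`, `(0,0,0,1)`,
`(1,3/2,0,0)`, `det M(0,0) ≠ 0`.

`near_solve` (general): `M : ℝ × ℝ → Matrix (Fin 4) (Fin 4) ℝ` continuous, `det (M 0) ≠ 0`: near `0` the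
vector `(M p)⁻¹ *ᵥ b` solves the system and is close to `z0 = (M 0)⁻¹ *ᵥ b` (continuity of `det`, `adjugate`;
`Matrix.mul_nonsing_inv`).
`pp_xy`: `pp_touch` for `PP α β γ δ` at `t` with `s = 1` (`c2 = -α + 5β/8` near `-1 - 5/12`), and for
`PP δ γ β α` at `u` with the sign `s` (`s (-δ + 5γ/8)` near `-1 - 5/12`); `|β ± γ| < 2` near `z0`
(`|β|, |γ| ≤ 2/3 + 1/100`, this also gives `hγ : |γ| ≤ 7/10`).
-/

set_option autoImplicit false

namespace Pool.Agent.Lib.MP_a3b162_co.CS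

open Matrix

theorem near_solve {M : ℝ × ℝ → Matrix (Fin 4) (Fin 4) ℝ} (hM : Continuous M)
    (hdet : (M 0).det ≠ 0) (b z0 : Fin 4 → ℝ) (hz0 : (M 0).mulVec z0 = b) {ε : ℝ} (hε : 0 < ε) :
    ∃ r : ℝ, 0 < r ∧ ∀ t u : ℝ, |t| ≤ r → |u| ≤ r →
      ∃ z : Fin 4 → ℝ, (M (t, u)).mulVec z = b ∧ ∀ i, |z i - z0 i| ≤ ε := by
  have hcd : Continuous fun p => (M p).det := hM.matrix_det
  have hca : Continuous fun p => (M p).adjugate.mulVec b := hM.matrix_adjugate.matrix_mulVec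
    continuous_const
  have hc : ContinuousAt (fun p => ((M p).det)⁻¹ • (M p).adjugate.mulVec b) 0 :=
    (hcd.continuousAt.inv₀ hdet).smul hca.continuousAt
  have hsol : ∀ p, (M p).det ≠ 0 →
      (M p).mulVec (((M p).det)⁻¹ • (M p).adjugate.mulVec b) = b := by
    intro p hp
    rw [mulVec_smul, mulVec_mulVec, mul_adjugate, smul_mulVec, one_mulVec, smul_smul,
      inv_mul_cancel₀ hp, one_smul]
  have h0 : ((M 0).det)⁻¹ • (M 0).adjugate.mulVec b = z0 := by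
    rw [← hz0, mulVec_mulVec, adjugate_mul, smul_mulVec, one_mulVec, smul_smul,
      inv_mul_cancel₀ hdet, one_smul]
  have e1 : ∀ᶠ p in nhds (0 : ℝ × ℝ), (M p).det ≠ 0 := hcd.continuousAt.eventually_ne hdet
  have e2 : ∀ᶠ p in nhds (0 : ℝ × ℝ),
      dist (((M p).det)⁻¹ • (M p).adjugate.mulVec b) z0 < ε := by
    have := hc.tendsto
    rw [h0] at this
    exact Metric.tendsto_nhds.1 this ε hε
  obtain ⟨ρ, hρ, h⟩ := Metric.eventually_nhds_iff.1 (e1.and e2)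
  refine ⟨ρ / 2, by positivity, fun t u ht hu => ?_⟩
  have hd : dist ((t, u) : ℝ × ℝ) 0 < ρ := by
    rw [Prod.dist_eq, max_lt_iff]
    simp only [Prod.fst_zero, Prod.snd_zero, Real.dist_eq, sub_zero]
    constructor <;> linarith
  obtain ⟨h1, h2⟩ := h hd
  refine ⟨_, hsol _ h1, fun i => ?_⟩
  have h3 := dist_le_pi_dist (((M (t, u)).det)⁻¹ • (M (t, u)).adjugate.mulVec b) z0 i
  rw [Real.dist_eq] at h3
  linarith

/-- the matrix of the linear system -/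
noncomputable def bnM (p : ℝ × ℝ) : Matrix (Fin 4) (Fin 4) ℝ :=
  !![1 - p.1 ^ 2 - p.1 ^ 4, 5 / 8 * p.1 ^ 2, 3 / 2 * p.1 + p.1 ^ 3, p.1;
    -2 * p.1 - 4 * p.1 ^ 3, 5 / 4 * p.1, 3 / 2 + 3 * p.1 ^ 2, 1;
    p.2, 3 / 2 * p.2 + p.2 ^ 3, 5 / 8 * p.2 ^ 2, 1 - p.2 ^ 2 - p.2 ^ 4;
    1, 3 / 2 + 3 * p.2 ^ 2, 5 / 4 * p.2, -2 * p.2 - 4 * p.2 ^ 3]

theorem bn_cont : Continuous bnM := by
  refine continuous_matrix fun i j => ?_
  fin_cases i <;> fin_cases j <;> (simp [bnM]; fun_prop)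

theorem bn_det : (bnM 0).det ≠ 0 := by
  have : (bnM 0).det = 9 / 4 ∨ (bnM 0).det = -(9 / 4) := by
    simp [bnM, Matrix.det_succ_row_zero, Fin.sum_univ_succ, Fin.succAbove]
    norm_num
  rcases this with h | h <;> rw [h] <;> norm_num

theorem bn_z0 (s : ℝ) : (bnM 0).mulVec ![1, -2 / 3, -2 * s / 3, s] = ![1, 0, s, 0] := by
  ext i
  fin_cases i <;> simp [bnM, Matrix.mulVec, dotProduct, Fin.sum_univ_four] <;> ring

theorem bn_eqs {t u s : ℝ} {z : Fin 4 → ℝ} (h : (bnM (t, u)).mulVec z = ![1, 0, s, 0]) :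
    PP (z 0) (z 1) (z 2) (z 3) t = 1 ∧ PP' (z 0) (z 1) (z 2) (z 3) t = 0 ∧
      PP (z 3) (z 2) (z 1) (z 0) u = s ∧ PP' (z 3) (z 2) (z 1) (z 0) u = 0 := by
  have h0 := congrFun h 0
  have h1 := congrFun h 1
  have h2 := congrFun h 2
  have h3 := congrFun h 3
  simp [bnM, Matrix.mulVec, dotProduct, Fin.sum_univ_four] at h0 h1 h2 h3
  unfold PP PP'
  refine ⟨?_, ?_, ?_, ?_⟩
  · linarith [h0]
  · linarith [h1]
  · linarith [h2]
  · linarith [h3]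

theorem bn_one (s : ℝ) : ∃ r : ℝ, 0 < r ∧
    ∀ t u : ℝ, |t| ≤ r → |u| ≤ r → ∃ α β γ δ : ℝ, PP α β γ δ t = 1 ∧ PP' α β γ δ t = 0 ∧
      PP δ γ β α u = s ∧ PP' δ γ β α u = 0 ∧ |α - 1| ≤ 1 / 100 ∧ |β - -2 / 3| ≤ 1 / 100 ∧
      |γ - -2 * s / 3| ≤ 1 / 100 ∧ |δ - s| ≤ 1 / 100 := by
  obtain ⟨r, hr, h⟩ := near_solve bn_cont bn_det ![1, 0, s, 0] _ (bn_z0 s)
    (show (0 : ℝ) < 1 / 100 by norm_num)
  refine ⟨r, hr, fun t u ht hu => ?_⟩
  obtain ⟨z, hz, hi⟩ := h t u ht hu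
  obtain ⟨h1, h2, h3, h4⟩ := bn_eqs hz
  exact ⟨z 0, z 1, z 2, z 3, h1, h2, h3, h4, hi 0, hi 1, hi 2, hi 3⟩

theorem pp_xy : ∃ r : ℝ, 0 < r ∧ r ≤ 1 / 100 ∧ ∀ s : ℝ, (s = 1 ∨ s = -1) →
    ∀ t u : ℝ, |t| ≤ r → |u| ≤ r → ∃ α β γ δ : ℝ, PP α β γ δ t = 1 ∧ PP δ γ β α u = s ∧
      (∀ T, |T| ≤ r → T ≠ t → |PP α β γ δ T| < 1) ∧
      (∀ U, |U| ≤ r → U ≠ u → |PP δ γ β α U| < 1) ∧ |β + γ| < 2 ∧ |β - γ| < 2 := by
  obtain ⟨r1, hr1, h1⟩ := bn_one 1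
  obtain ⟨r2, hr2, h2⟩ := bn_one (-1)
  refine ⟨min (min r1 r2) (1 / 100), by positivity, min_le_right _ _, ?_⟩
  intro s hs t u ht hu
  have ht0 : |t| ≤ 1 / 100 := ht.trans (min_le_right _ _)
  have hu0 : |u| ≤ 1 / 100 := hu.trans (min_le_right _ _)
  have key : ∃ α β γ δ : ℝ, PP α β γ δ t = 1 ∧ PP' α β γ δ t = 0 ∧
      PP δ γ β α u = s ∧ PP' δ γ β α u = 0 ∧ |α - 1| ≤ 1 / 100 ∧ |β - -2 / 3| ≤ 1 / 100 ∧
      |γ - -2 * s / 3| ≤ 1 / 100 ∧ |δ - s| ≤ 1 / 100 := by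
    rcases hs with rfl | rfl
    · exact h1 t u (ht.trans ((min_le_left _ _).trans (min_le_left _ _)))
        (hu.trans ((min_le_left _ _).trans (min_le_left _ _)))
    · exact h2 t u (ht.trans ((min_le_left _ _).trans (min_le_right _ _)))
        (hu.trans ((min_le_left _ _).trans (min_le_right _ _)))
  obtain ⟨α, β, γ, δ, e1, e2, e3, e4, ha, hb, hc, hd⟩ := key
  rw [abs_le] at ha hb hc hd
  have hβ : |β| ≤ 7 / 10 := by rw [abs_le]; constructor <;> linarith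
  have hγ : |γ| ≤ 7 / 10 := by
    rw [abs_le]
    rcases hs with rfl | rfl <;> constructor <;> linarith
  have hβ' := abs_le.1 hβ
  have hγ' := abs_le.1 hγ
  refine ⟨α, β, γ, δ, e1, e3, ?_, ?_, ?_, ?_⟩
  · intro T hT hne
    refine pp_touch (Or.inl rfl) (by linarith) ?_ e1 e2 ?_ ?_ (by linarith) hγ hne
    · linarith [hT.trans (min_le_right (min r1 r2) (1 / 100))]
    · linarith
    · rw [abs_le]; constructor <;> linarith
  · intro U hU hne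
    refine pp_touch hs (by linarith) ?_ e3 e4 ?_ ?_ (by linarith) hβ hne
    · linarith [hU.trans (min_le_right (min r1 r2) (1 / 100))]
    · rcases hs with rfl | rfl <;> linarith
    · rw [abs_le]
      rcases hs with rfl | rfl <;> constructor <;> linarith
  · rw [abs_lt]; constructor <;> linarith
  · rw [abs_lt]; constructor <;> linarith

end Pool.Agent.Lib.MP_a3b162_co.CS
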