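import Mathlib

/-!
MODULE BPoly (75 min).  The lower bound, polynomial part.

`PP α β γ δ T = α (1 - T² - T⁴) + (5/8) β T² + γ (3T/2 + T³) + δ T`.  Its coefficients: `c0 = α`,
`c1 = 3γ/2 + δ`, `c2 = -α + 5β/8`, `c3 = γ`, `c4 = -α`.

`pp_touch`: with `p(t) = s`, `p'(t) = 0`: `p(T) - s = (T-t)² (c2 + c3 (T + 2t) + c4 (T² + 2tT + 3t²))`
(`ring` after eliminating), and the bracket times `s` is negative for `|t|, |T| ≤ 1/50` by `hc`, `hγ`, `hα`;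
`|p(T)| > -1` side: `|p(T)| ≤ ...`: as `|α| ≤ 2`, `|β| ≤ 2`, `|γ| ≤ 7/10`, `|c1| ≤ 3` the difference
`|p(T) - s|` is at most `1`.
`pp_e` (pairs with `e_2`, `e_4`): `β ∈ {7/5, -7/5}`, `γ ∈ {3/5, -3/5}`,
`α = (1 + (5/8) β t² + 2 γ t³)/(1 + t² + 3t⁴)`, `δ = α (2t + 4t³) - (5/4) β t - γ (3/2 + 3t²)`: then
`p(t) = 1`, `p'(t) = 0`, `α` near `1`, `|δ| ≤ 9/10 + 1/25`; `pp_touch` with `s = 1`
(`c2 = -α + 5β/8 ≤ -1/10`); and `|PP δ γ β α U| ≤ |δ| + |U| (3|β|/2 + |α|) + ... ≤ 0.94 + 0.07 < 1`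
(reduce `1/50` in the statement if you need it: tell me; do not weaken silently).
`pp_xx` (two points of the same curve): `α = 1/c`, `γ = 2(t1+t2)/c`,
`β = (8/5)(1 - t1² - t2² - 4 t1 t2)/c`, `δ = (2 t1 t2 (t1+t2) - 3 (t1+t2))/c`, `c = 1 + t1² t2²`:
`PP α β γ δ T = 1 - (T - t1)² (T - t2)²/c`.
-/

set_option autoImplicit false

namespace Pool.Agent.Lib.MP_a3b162_co.CS

/-- the polynomial `φ (x(T))` -/
noncomputable def PP (α β γ δ T : ℝ) : ℝ :=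
  α * (1 - T ^ 2 - T ^ 4) + 5 / 8 * β * T ^ 2 + γ * (3 / 2 * T + T ^ 3) + δ * T

/-- its derivative -/
noncomputable def PP' (α β γ δ T : ℝ) : ℝ :=
  α * (-2 * T - 4 * T ^ 3) + 5 / 4 * β * T + γ * (3 / 2 + 3 * T ^ 2) + δ

theorem bp_mul {a b A B : ℝ} (ha : |a| ≤ A) (hb : |b| ≤ B) : |a * b| ≤ A * B := by
  rw [abs_mul]
  exact mul_le_mul ha hb (abs_nonneg b) (le_trans (abs_nonneg a) ha)

theorem bp_sq {t r : ℝ} (ht : |t| ≤ r) : t ^ 2 ≤ r ^ 2 := by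
  rw [← sq_abs t]
  exact pow_le_pow_left₀ (abs_nonneg t) ht 2

theorem pp_touch {α β γ δ t T s : ℝ} (hs : s = 1 ∨ s = -1) (ht : |t| ≤ 1 / 50) (hT : |T| ≤ 1 / 50)
    (h1 : PP α β γ δ t = s) (h2 : PP' α β γ δ t = 0) (hc : s * (-α + 5 / 8 * β) ≤ -(1 / 10))
    (hα : |α| ≤ 2) (hβ : |β| ≤ 2) (hγ : |γ| ≤ 7 / 10) (hne : T ≠ t) :
    |PP α β γ δ T| < 1 := by
  set B : ℝ := (-α + 5 / 8 * β) + γ * (T + 2 * t) - α * ((T + t) ^ 2 + 2 * t ^ 2) with hB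
  have key : PP α β γ δ T = s + (T - t) ^ 2 * B := by
    have h3 : PP α β γ δ T - PP α β γ δ t - PP' α β γ δ t * (T - t) = (T - t) ^ 2 * B := by
      rw [hB]
      unfold PP PP'
      ring
    rw [h1, h2] at h3
    linarith
  have ht' := abs_le.1 ht
  have hT' := abs_le.1 hT
  have hα' := abs_le.1 hα
  have hβ' := abs_le.1 hβ
  have b1 : |γ * (T + 2 * t)| ≤ 7 / 10 * (3 / 50) := by
    refine bp_mul hγ ?_
    rw [abs_le]
    constructor <;> linarith [ht'.1, ht'.2, hT'.1, hT'.2]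
  have b2 : |α * ((T + t) ^ 2 + 2 * t ^ 2)| ≤ 2 * (6 / 2500) := by
    refine bp_mul hα ?_
    have e1 : (T + t) ^ 2 ≤ (1 / 25) ^ 2 := by
      apply bp_sq
      rw [abs_le]
      constructor <;> linarith [ht'.1, ht'.2, hT'.1, hT'.2]
    have e2 : t ^ 2 ≤ (1 / 50) ^ 2 := bp_sq ht
    rw [abs_of_nonneg (by positivity)]
    nlinarith [e1, e2]
  have b1' := abs_le.1 b1
  have b2' := abs_le.1 b2
  have hd1 : 0 < (T - t) ^ 2 := by
    have : T - t ≠ 0 := sub_ne_zero.2 hne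
    positivity
  have hd2 : (T - t) ^ 2 ≤ (1 / 25) ^ 2 := by
    apply bp_sq
    rw [abs_le]
    constructor <;> linarith [ht'.1, ht'.2, hT'.1, hT'.2]
  rw [key, abs_lt]
  rcases hs with rfl | rfl
  · have hB1 : B < 0 := by
      rw [hB]
      linarith [b1'.2, b2'.1]
    have hB2 : -4 ≤ B := by
      rw [hB]
      linarith [b1'.1, b2'.2, hα'.2, hβ'.1]
    have e1 : (T - t) ^ 2 * B < 0 := mul_neg_of_pos_of_neg hd1 hB1
    have e2 : -(1 / 100) ≤ (T - t) ^ 2 * B := by nlinarith [hd1, hd2, hB1, hB2]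
    constructor <;> linarith
  · have hB1 : 0 < B := by
      rw [hB]
      linarith [b1'.1, b2'.2]
    have hB2 : B ≤ 4 := by
      rw [hB]
      linarith [b1'.2, b2'.1, hα'.1, hβ'.2]
    have e1 : 0 < (T - t) ^ 2 * B := mul_pos hd1 hB1
    have e2 : (T - t) ^ 2 * B ≤ 1 / 100 := by nlinarith [hd1, hd2, hB1, hB2]
    constructor <;> linarith

/-- crude bound for the second polynomial -/
theorem bp_two {α β γ δ U A B C D : ℝ} (hU : |U| ≤ 1 / 100) (hα : |α| ≤ A) (hβ : |β| ≤ B)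
    (hγ : |γ| ≤ C) (hδ : |δ| ≤ D)
    (h : D + 1 / 10000 * C + 151 / 10000 * B + 1 / 100 * A < 1) :
    |PP δ γ β α U| < 1 := by
  have hU' := abs_le.1 hU
  have hU2 : U ^ 2 ≤ (1 / 100) ^ 2 := bp_sq hU
  have hU0 : 0 ≤ U ^ 2 := sq_nonneg U
  have a1 : |δ * (1 - U ^ 2 - U ^ 4)| ≤ D * 1 := by
    refine bp_mul hδ ?_
    have e4 : U ^ 4 = U ^ 2 * U ^ 2 := by ring
    rw [e4, abs_le]
    constructor <;> nlinarith [hU2, hU0]
  have a2 : |5 / 8 * γ * U ^ 2| ≤ C * (1 / 10000) := by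
    have e : 5 / 8 * γ * U ^ 2 = γ * (5 / 8 * U ^ 2) := by ring
    rw [e]
    refine bp_mul hγ ?_
    rw [abs_le]
    constructor <;> linarith
  have a3 : |β * (3 / 2 * U + U ^ 3)| ≤ B * (151 / 10000) := by
    refine bp_mul hβ ?_
    have e : 3 / 2 * U + U ^ 3 = U * (3 / 2 + U ^ 2) := by ring
    have e3 : |U * (3 / 2 + U ^ 2)| ≤ 1 / 100 * (151 / 100) := by
      refine bp_mul hU ?_
      rw [abs_le]
      constructor <;> linarith
    rw [e]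
    linarith
  have a4 : |α * U| ≤ A * (1 / 100) := bp_mul hα hU
  have e0 : PP δ γ β α U = δ * (1 - U ^ 2 - U ^ 4) + 5 / 8 * γ * U ^ 2 +
      β * (3 / 2 * U + U ^ 3) + α * U := rfl
  have a1' := abs_le.1 a1
  have a2' := abs_le.1 a2
  have a3' := abs_le.1 a3
  have a4' := abs_le.1 a4
  rw [e0, abs_lt]
  constructor
  · linarith [a1'.1, a2'.1, a3'.1, a4'.1]
  · linarith [a1'.2, a2'.2, a3'.2, a4'.2]

theorem pp_e {t β γ : ℝ} (ht : |t| ≤ 1 / 100) (hβ : β = 7 / 5 ∨ β = -(7 / 5))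
    (hγ : γ = 3 / 5 ∨ γ = -(3 / 5)) : ∃ α δ : ℝ, PP α β γ δ t = 1 ∧
      (∀ T, |T| ≤ 1 / 100 → T ≠ t → |PP α β γ δ T| < 1) ∧
      (∀ U, |U| ≤ 1 / 100 → |PP δ γ β α U| < 1) := by
  have ht' := abs_le.1 ht
  have ht2 : t ^ 2 ≤ (1 / 100) ^ 2 := bp_sq ht
  have ht0 : 0 ≤ t ^ 2 := sq_nonneg t
  have hβa : |β| ≤ 7 / 5 := by
    rcases hβ with rfl | rfl <;> rw [abs_le] <;> constructor <;> norm_num
  have hγa : |γ| ≤ 3 / 5 := by
    rcases hγ with rfl | rfl <;> rw [abs_le] <;> constructor <;> norm_num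
  have hβb := abs_le.1 hβa
  have hγb := abs_le.1 hγa
  have hN : 0 < 1 + t ^ 2 + 3 * t ^ 4 := by positivity
  set N : ℝ := 1 + t ^ 2 + 3 * t ^ 4 with hNd
  set M : ℝ := 1 + 5 / 8 * β * t ^ 2 + 2 * γ * t ^ 3 with hMd
  have hN1 : N ≤ 1 + 2 / 10000 := by
    have e4 : t ^ 4 = t ^ 2 * t ^ 2 := by ring
    rw [hNd, e4]
    nlinarith [ht2, ht0]
  have hN2 : 1 ≤ N := by
    rw [hNd]
    nlinarith [ht0, sq_nonneg (t ^ 2)]
  have m1 : |β * t ^ 2| ≤ 7 / 5 * (1 / 10000) := by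
    refine bp_mul hβa ?_
    rw [abs_of_nonneg ht0]
    linarith
  have m2 : |γ * t ^ 3| ≤ 3 / 5 * (1 / 1000000) := by
    refine bp_mul hγa ?_
    rw [abs_pow]
    calc |t| ^ 3 ≤ (1 / 100) ^ 3 := pow_le_pow_left₀ (abs_nonneg t) ht 3
      _ ≤ 1 / 1000000 := by norm_num
  have m1' := abs_le.1 m1
  have m2' := abs_le.1 m2
  have hM1 : M ≤ 1 + 1 / 10000 := by
    rw [hMd]
    linarith [m1'.2, m2'.2]
  have hM2 : 1 - 1 / 10000 ≤ M := by
    rw [hMd]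
    linarith [m1'.1, m2'.1]
  have hα1 : M / N ≤ 1 + 1 / 10000 := by
    rw [div_le_iff₀ hN]
    nlinarith
  have hα2 : 1 - 4 / 10000 ≤ M / N := by
    rw [le_div_iff₀ hN]
    nlinarith
  set α : ℝ := M / N with hαd
  have hαN : α * N = M := by
    rw [hαd]
    exact div_mul_cancel₀ M hN.ne'
  set δ : ℝ := α * (2 * t + 4 * t ^ 3) - 5 / 4 * β * t - γ * (3 / 2 + 3 * t ^ 2) with hδd
  have hαa : |α| ≤ 1001 / 1000 := by
    rw [abs_le]
    constructor <;> linarith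
  have hδa : |δ| ≤ 94 / 100 := by
    have d1 : |α * (2 * t + 4 * t ^ 3)| ≤ 1001 / 1000 * (201 / 10000) := by
      refine bp_mul hαa ?_
      have e : 2 * t + 4 * t ^ 3 = t * (2 + 4 * t ^ 2) := by ring
      have e3 : |t * (2 + 4 * t ^ 2)| ≤ 1 / 100 * (201 / 100) := by
        refine bp_mul ht ?_
        rw [abs_le]
        constructor <;> linarith
      rw [e]
      linarith
    have d2 : |β * t| ≤ 7 / 5 * (1 / 100) := bp_mul hβa ht
    have d3 : |γ * (3 / 2 + 3 * t ^ 2)| ≤ 3 / 5 * (1501 / 1000) := by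
      refine bp_mul hγa ?_
      rw [abs_le]
      constructor <;> linarith
    have d1' := abs_le.1 d1
    have d2' := abs_le.1 d2
    have d3' := abs_le.1 d3
    rw [hδd, abs_le]
    constructor
    · linarith [d1'.1, d2'.2, d3'.2]
    · linarith [d1'.2, d2'.1, d3'.1]
  have hp : PP α β γ δ t = 1 := by
    have e : PP α β γ δ t = α * N - 5 / 8 * β * t ^ 2 - 2 * γ * t ^ 3 := by
      rw [hδd, hNd]
      unfold PP
      ring
    rw [e, hαN, hMd]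
    ring
  have hp' : PP' α β γ δ t = 0 := by
    rw [hδd]
    unfold PP'
    ring
  refine ⟨α, δ, hp, ?_, ?_⟩
  · intro T hT hne
    refine pp_touch (Or.inl rfl) (by linarith) (by linarith) hp hp' ?_ ?_ ?_ ?_ hne
    · rw [one_mul]
      linarith [hβb.2]
    · linarith
    · linarith
    · linarith
  · intro U hU
    exact bp_two hU hαa hβa hγa hδa (by norm_num)

theorem pp_xx {t1 t2 : ℝ} (h1 : |t1| ≤ 1 / 100) (h2 : |t2| ≤ 1 / 100) :
    ∃ α β γ δ : ℝ, PP α β γ δ t1 = 1 ∧ PP α β γ δ t2 = 1 ∧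
      (∀ T, |T| ≤ 1 / 100 → T ≠ t1 → T ≠ t2 → |PP α β γ δ T| < 1) ∧
      (∀ U, |U| ≤ 1 / 100 → |PP δ γ β α U| < 1) ∧ |β + γ| < 2 ∧ |β - γ| < 2 := by
  have h1' := abs_le.1 h1
  have h2' := abs_le.1 h2
  have s1 : t1 ^ 2 ≤ (1 / 100) ^ 2 := bp_sq h1
  have s2 : t2 ^ 2 ≤ (1 / 100) ^ 2 := bp_sq h2
  have p1 : |t1 * t2| ≤ 1 / 100 * (1 / 100) := bp_mul h1 h2
  have p1' := abs_le.1 p1
  have hc : 0 < 1 + t1 ^ 2 * t2 ^ 2 := by positivity
  set c : ℝ := 1 + t1 ^ 2 * t2 ^ 2 with hcd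
  have hc1 : 1 ≤ c := by
    rw [hcd]
    have : 0 ≤ t1 ^ 2 * t2 ^ 2 := by positivity
    linarith
  have hci : |1 / c| ≤ 1 := by
    rw [abs_of_pos (by positivity), div_le_one hc]
    exact hc1
  set ν : ℝ := 1 / c with hν
  have hνc : ν * c = 1 := by
    rw [hν]
    exact one_div_mul_cancel hc.ne'
  have hνp : 0 < ν := by rw [hν]; positivity
  have key : ∀ T, PP ν (ν * (8 / 5 * (1 - t1 ^ 2 - t2 ^ 2 - 4 * (t1 * t2)))) (ν * (2 * (t1 + t2)))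
      (ν * (2 * (t1 * t2) * (t1 + t2) - 3 * (t1 + t2))) T =
      1 - ν * ((T - t1) ^ 2 * (T - t2) ^ 2) := by
    intro T
    have e : (1 : ℝ) = ν * (1 + t1 ^ 2 * t2 ^ 2) := by rw [← hcd, hνc]
    unfold PP
    linear_combination (-1 : ℝ) * e
  have hβ : |ν * (8 / 5 * (1 - t1 ^ 2 - t2 ^ 2 - 4 * (t1 * t2)))| ≤ 1 * (17 / 10) := by
    refine bp_mul hci ?_
    rw [abs_le]
    constructor <;> nlinarith [sq_nonneg t1, sq_nonneg t2]
  have hγ : |ν * (2 * (t1 + t2))| ≤ 1 * (4 / 100) := by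
    refine bp_mul hci ?_
    rw [abs_le]
    constructor <;> linarith
  have hδ : |ν * (2 * (t1 * t2) * (t1 + t2) - 3 * (t1 + t2))| ≤ 1 * (7 / 100) := by
    refine bp_mul hci ?_
    have e : 2 * (t1 * t2) * (t1 + t2) - 3 * (t1 + t2) = (t1 + t2) * (2 * (t1 * t2) - 3) := by ring
    rw [e]
    have e3 : |(t1 + t2) * (2 * (t1 * t2) - 3)| ≤ 2 / 100 * (7 / 2) := by
      refine bp_mul ?_ ?_
      · rw [abs_le]
        constructor <;> linarith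
      · rw [abs_le]
        constructor <;> linarith [p1'.1, p1'.2]
    linarith
  have hβ' := abs_le.1 hβ
  have hγ' := abs_le.1 hγ
  refine ⟨ν, ν * (8 / 5 * (1 - t1 ^ 2 - t2 ^ 2 - 4 * (t1 * t2))), ν * (2 * (t1 + t2)),
    ν * (2 * (t1 * t2) * (t1 + t2) - 3 * (t1 + t2)), ?_, ?_, ?_, ?_, ?_, ?_⟩
  · rw [key]
    ring
  · rw [key]
    ring
  · intro T hT hn1 hn2
    have hT' := abs_le.1 hT
    have d1 : T - t1 ≠ 0 := sub_ne_zero.2 hn1
    have d2 : T - t2 ≠ 0 := sub_ne_zero.2 hn2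
    have q1 : (T - t1) ^ 2 ≤ (1 / 50) ^ 2 := by
      apply bp_sq
      rw [abs_le]
      constructor <;> linarith [h1'.1, h1'.2, hT'.1, hT'.2]
    have q2 : (T - t2) ^ 2 ≤ (1 / 50) ^ 2 := by
      apply bp_sq
      rw [abs_le]
      constructor <;> linarith [h2'.1, h2'.2, hT'.1, hT'.2]
    have q3 : 0 < (T - t1) ^ 2 * (T - t2) ^ 2 := by positivity
    have q4 : (T - t1) ^ 2 * (T - t2) ^ 2 ≤ (1 / 50) ^ 2 * (1 / 50) ^ 2 :=
      mul_le_mul q1 q2 (sq_nonneg _) (by positivity)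
    have q5 : 0 < ν * ((T - t1) ^ 2 * (T - t2) ^ 2) := mul_pos hνp q3
    have q6 : ν * ((T - t1) ^ 2 * (T - t2) ^ 2) ≤ 1 * ((1 / 50) ^ 2 * (1 / 50) ^ 2) := by
      refine mul_le_mul ?_ q4 q3.le zero_le_one
      exact (abs_le.1 hci).2
    rw [key, abs_lt]
    constructor
    · norm_num at q6 ⊢
      linarith
    · linarith
  · intro U hU
    exact bp_two hU hci hβ hγ hδ (by norm_num)
  · rw [abs_lt]
    constructor <;> linarith [hβ'.1, hβ'.2, hγ'.1, hγ'.2]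
  · rw [abs_lt]
    constructor <;> linarith [hβ'.1, hβ'.2, hγ'.1, hγ'.2]

end Pool.Agent.Lib.MP_a3b162_co.CS
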