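import Pool.Agent.Lib.MP_a3b162_co.CS.Api

/-!
MODULE Sm (75 min).  T0, T1, T2 for triples of vertices which miss only few vertices of `Y`; the error
`err G Y β x = ∑_{r ∈ ms x Y} (dg r Y + β)`.

`err_sum`: double counting, `∑_{x ∈ X} err x = ∑_{r ∈ Y} |ms r X| (dg r Y + β)`, `|ms r X| ≤ M`.

`t0_weak`: `Geo.t0` for all `Z` (for `|Z| ≤ 1` there are no edges, `ee G Z Z = 0`).

`t0_err`: `R = ms x1 Y ∪ ms x2 Y ∪ ms x3 Y`, `Z = (Y \ R) ∪ A`.  `ee Z Z ≤ 4 |Z| ≤ 4 (|Y| + |A|)`, and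
`ee Z Z ≥ ee (Y\R) (Y\R) + 2 ee A (Y\R)`, `ee (Y\R)(Y\R) ≥ ee Y Y - 2 ∑_R dg r Y` (`ee_sdiff_ge`),
`ee A (Y\R) ≥ ee A Y - |A| |R|`, `∑_{r ∈ R} (dg r Y + β) ≤ err x1 + err x2 + err x3`.
`t1_err`: the same with T1.

`t2_err` (with `0 ≤ Δ`): `w` any vertex, `z1 ≠ z2`, `w ≠ z1, z2`, the three span a path (in one of two orders).
`N = nb G w Y`, `R = ms z1 Y ∪ ms z2 Y`, `Z = N \ R`: T2, a cover `C ⊆ Z` with at most 4 elements, so
`ee Z Z ≤ 2 ∑_{c ∈ C} dg c Y ≤ 8 Δ`, and `ee N N ≤ ee Z Z + 2 ∑_{r ∈ R ∩ N} dg r Y ≤ 8 Δ + 2 err z1 + 2 err z2`.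
-/

set_option autoImplicit false

namespace Pool.Agent.Lib.MP_a3b162_co.CS

open Finset
open scoped Classical

variable {V : Type} {G : SimpleGraph V} {X Y : Finset V}

/-- the error of a vertex `x` (seen from `Y`) -/
noncomputable def err (G : SimpleGraph V) (Y : Finset V) (β : ℕ) (x : V) : ℕ :=
  ∑ r ∈ ms G x Y, (dg G r Y + β)

theorem ee_self_eq_zero {Z : Finset V} (h : ∀ a ∈ Z, ∀ b ∈ Z, ¬ G.Adj a b) : ee G Z Z = 0 := by
  rw [ee]
  refine sum_eq_zero fun v hv => ?_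
  rw [dg, card_eq_zero, eq_empty_iff_forall_notMem]
  intro w hw
  exact h v hv w (mem_nb.1 hw).1 (mem_nb.1 hw).2

theorem sum_union_le' (f : V → ℕ) (A B : Finset V) :
    ∑ r ∈ A ∪ B, f r ≤ ∑ r ∈ A, f r + ∑ r ∈ B, f r := by
  have h := sum_union_inter (s₁ := A) (s₂ := B) (f := f)
  omega

theorem core_err {β c : ℕ} {x1 x2 x3 : V} {A : Finset V} (hAY : Disjoint A Y)
    (hβ : A.card ≤ β)
    (hb : ∀ Z ⊆ (Y \ (ms G x1 Y ∪ ms G x2 Y ∪ ms G x3 Y)) ∪ A, ee G Z Z ≤ c * Z.card) :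
    ee G Y Y + 2 * ee G A Y ≤
      c * (Y.card + A.card) + 2 * (err G Y β x1 + err G Y β x2 + err G Y β x3) := by
  set R := ms G x1 Y ∪ ms G x2 Y ∪ ms G x3 Y with hR
  have hRY : R ⊆ Y := union_subset (union_subset (ms_subset _ _) (ms_subset _ _)) (ms_subset _ _)
  have hd : Disjoint (Y \ R) A := (disjoint_of_subset_left sdiff_subset hAY.symm)
  have h1 := hb ((Y \ R) ∪ A) (Finset.Subset.refl _)
  rw [ee_union_self hd] at h1
  have h2 := ee_sdiff_ge (G := G) Y R hRY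
  have h3 : ee G A Y = ee G A (Y \ R) + ee G A R := by
    rw [← ee_union_right A (disjoint_sdiff_self_left : Disjoint (Y \ R) R),
      sdiff_union_of_subset hRY]
  have h4 := ee_add_mm (G := G) A R
  have h5 : ((Y \ R) ∪ A).card ≤ Y.card + A.card :=
    (card_union_le _ _).trans (Nat.add_le_add_right (card_le_card sdiff_subset) _)
  have h6 : ∑ r ∈ R, (dg G r Y + β) ≤ err G Y β x1 + err G Y β x2 + err G Y β x3 := by
    have a1 := sum_union_le' (fun r => dg G r Y + β) (ms G x1 Y ∪ ms G x2 Y) (ms G x3 Y)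
    have a2 := sum_union_le' (fun r => dg G r Y + β) (ms G x1 Y) (ms G x2 Y)
    unfold err
    rw [hR]
    omega
  have h7 : ∑ r ∈ R, (dg G r Y + β) = ∑ r ∈ R, dg G r Y + R.card * β := by
    rw [sum_add_distrib, sum_const, smul_eq_mul]
  have h8 : A.card * R.card ≤ R.card * β := by
    rw [mul_comm]
    exact Nat.mul_le_mul_left _ hβ
  have h9 : ee G (Y \ R) A = ee G A (Y \ R) := ee_comm _ _
  have h10 : c * ((Y \ R) ∪ A).card ≤ c * (Y.card + A.card) := Nat.mul_le_mul_left _ h5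
  rw [h9] at h1
  rw [h7] at h6
  rw [h3]
  generalize c * (Y.card + A.card) = p at *
  generalize c * ((Y \ R) ∪ A).card = q at *
  generalize A.card * R.card = s at *
  generalize R.card * β = t at *
  omega

theorem adj_of_mem_sdiff {x z : V} {R : Finset V} (hz : z ∈ Y \ R) (hR : ms G x Y ⊆ R) :
    G.Adj x z := by
  by_contra hcon
  rw [mem_sdiff] at hz
  exact hz.2 (hR (mem_ms.2 ⟨hz.1, hcon⟩))

theorem err_sum {β : ℕ} {M : ℝ} (hM : ∀ r ∈ Y, ((ms G r X).card : ℝ) ≤ M) :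
    (∑ x ∈ X, (err G Y β x : ℝ)) ≤ M * (ee G Y Y + β * Y.card) := by
  have h1 : (∑ x ∈ X, (err G Y β x : ℝ)) =
      ∑ r ∈ Y, ((ms G r X).card : ℝ) * ((dg G r Y : ℝ) + β) := by
    have e1 : ∀ x ∈ X, (err G Y β x : ℝ) =
        ∑ r ∈ Y, if ¬ G.Adj x r then ((dg G r Y : ℝ) + β) else 0 := by
      intro x _
      rw [err, ms, sum_filter]
      push_cast
      rfl
    rw [sum_congr rfl e1, sum_comm]
    refine sum_congr rfl fun r _ => ?_
    rw [← sum_filter, sum_const, nsmul_eq_mul]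
    congr 2
    rw [ms]
    congr 1
    refine filter_congr fun x _ => ?_
    rw [G.adj_comm]
  rw [h1]
  have h2 : ∑ r ∈ Y, ((ms G r X).card : ℝ) * ((dg G r Y : ℝ) + β) ≤
      ∑ r ∈ Y, M * ((dg G r Y : ℝ) + β) := by
    refine sum_le_sum fun r hr => ?_
    exact mul_le_mul_of_nonneg_right (hM r hr) (by positivity)
  refine h2.trans (le_of_eq ?_)
  rw [← mul_sum, sum_add_distrib, sum_const, nsmul_eq_mul, ee]
  push_cast
  ring

theorem t0_weak (hG : Geo G) {x1 x2 x3 : V} (h12 : x1 ≠ x2) (h13 : x1 ≠ x3) (h23 : x2 ≠ x3)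
    {Z : Finset V} (hZ : ∀ z ∈ Z, G.Adj x1 z ∧ G.Adj x2 z ∧ G.Adj x3 z) :
    ee G Z Z ≤ 4 * Z.card := by
  by_cases h2 : 2 ≤ Z.card
  · have := hG.t0 x1 x2 x3 h12 h13 h23 Z hZ h2
    omega
  · have h0 : ee G Z Z = 0 := by
      refine ee_self_eq_zero fun a ha b hb hab => ?_
      have hne := hab.ne
      exact h2 (one_lt_card.2 ⟨a, ha, b, hb, hne⟩)
    omega

theorem t0_err (hG : Geo G) {β : ℕ} {x1 x2 x3 : V} (h12 : x1 ≠ x2) (h13 : x1 ≠ x3)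
    (h23 : x2 ≠ x3) {A : Finset V} (hAY : Disjoint A Y)
    (hA : ∀ a ∈ A, G.Adj x1 a ∧ G.Adj x2 a ∧ G.Adj x3 a) (hβ : A.card ≤ β) :
    ee G Y Y + 2 * ee G A Y ≤
      4 * (Y.card + A.card) + 2 * (err G Y β x1 + err G Y β x2 + err G Y β x3) := by
  refine core_err hAY hβ fun Z hZ => t0_weak hG h12 h13 h23 fun z hz => ?_
  rcases mem_union.1 (hZ hz) with h | h
  · exact ⟨adj_of_mem_sdiff h (subset_union_left.trans subset_union_left),
      adj_of_mem_sdiff h (subset_union_right.trans subset_union_left),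
      adj_of_mem_sdiff h subset_union_right⟩
  · exact hA z h

theorem t1_err (hG : Geo G) {β : ℕ} {x1 x2 x3 : V} (h12 : G.Adj x1 x2) (h13 : x1 ≠ x3)
    (h23 : x2 ≠ x3) {A : Finset V} (hAY : Disjoint A Y)
    (hA : ∀ a ∈ A, G.Adj x1 a ∧ G.Adj x2 a ∧ G.Adj x3 a) (hβ : A.card ≤ β) :
    ee G Y Y + 2 * ee G A Y ≤
      2 * (Y.card + A.card) + 2 * (err G Y β x1 + err G Y β x2 + err G Y β x3) := by
  refine core_err hAY hβ fun Z hZ => hG.t1 x1 x2 x3 h12 h13 h23 Z fun z hz => ?_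
  rcases mem_union.1 (hZ hz) with h | h
  · exact ⟨adj_of_mem_sdiff h (subset_union_left.trans subset_union_left),
      adj_of_mem_sdiff h (subset_union_right.trans subset_union_left),
      adj_of_mem_sdiff h subset_union_right⟩
  · exact hA z h

theorem t2_err (hG : Geo G) {β : ℕ} {z1 z2 w : V} (hz : z1 ≠ z2) (hw : w ≠ z2)
    (hp : (G.Adj z1 w ∧ G.Adj w z2) ∨ (G.Adj z2 z1 ∧ G.Adj z1 w)) {Δ : ℝ} (hΔ0 : 0 ≤ Δ)
    (hΔ : ∀ y ∈ Y, (dg G y Y : ℝ) ≤ Δ) :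
    (ee G (nb G w Y) (nb G w Y) : ℝ) ≤ 8 * Δ + 2 * (err G Y β z1 + err G Y β z2) := by
  set N := nb G w Y with hN
  have hNY : N ⊆ Y := nb_subset _ _
  set R := N.filter (fun z => ¬ G.Adj z1 z ∨ ¬ G.Adj z2 z) with hR
  have hRN : R ⊆ N := filter_subset _ _
  have hZ : ∀ z ∈ N \ R, G.Adj z1 z ∧ G.Adj z2 z ∧ G.Adj w z := by
    intro z hz
    rw [mem_sdiff] at hz
    have h1 : ¬ (¬ G.Adj z1 z ∨ ¬ G.Adj z2 z) := fun h => hz.2 (mem_filter.2 ⟨hz.1, h⟩)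
    push Not at h1
    exact ⟨h1.1, h1.2, (mem_nb.1 hz.1).2⟩
  have hcov : ∃ C ⊆ N \ R, C.card ≤ 4 ∧
      ∀ a ∈ N \ R, ∀ b ∈ N \ R, G.Adj a b → a ∈ C ∨ b ∈ C := by
    rcases hp with ⟨h1, h2⟩ | ⟨h1, h2⟩
    · exact hG.t2c z1 w z2 h1 h2 hz _ fun z hz' => ⟨(hZ z hz').1, (hZ z hz').2.2, (hZ z hz').2.1⟩
    · exact hG.t2c z2 z1 w h1 h2 hw.symm _
        fun z hz' => ⟨(hZ z hz').2.1, (hZ z hz').1, (hZ z hz').2.2⟩
  obtain ⟨C, hC, hC4, hCc⟩ := hcov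
  have h1 := ee_sdiff_ge (G := G) (N \ R) C hC
  have h2 : ee G ((N \ R) \ C) ((N \ R) \ C) = 0 := by
    refine ee_self_eq_zero fun a ha b hb hab => ?_
    rw [mem_sdiff] at ha hb
    rcases hCc a ha.1 b hb.1 hab with h | h
    · exact ha.2 h
    · exact hb.2 h
  have h3 : (∑ c ∈ C, (dg G c (N \ R) : ℝ)) ≤ 4 * Δ := by
    calc (∑ c ∈ C, (dg G c (N \ R) : ℝ)) ≤ ∑ c ∈ C, Δ := by
          refine sum_le_sum fun c hc => ?_
          have h4 : dg G c (N \ R) ≤ dg G c Y := dg_mono c (sdiff_subset.trans hNY)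
          have h5 : (dg G c (N \ R) : ℝ) ≤ dg G c Y := by exact_mod_cast h4
          exact h5.trans (hΔ c (hNY (mem_sdiff.1 (hC hc)).1))
      _ = C.card * Δ := by rw [sum_const, nsmul_eq_mul]
      _ ≤ 4 * Δ := by
          refine mul_le_mul_of_nonneg_right ?_ hΔ0
          exact_mod_cast hC4
  have h4 := ee_sdiff_ge (G := G) N R hRN
  have h5 : ∑ r ∈ R, dg G r N ≤ err G Y β z1 + err G Y β z2 := by
    have hRsub : R ⊆ ms G z1 Y ∪ ms G z2 Y := by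
      intro r hr
      rw [mem_filter] at hr
      rcases hr.2 with h | h
      · exact mem_union_left _ (mem_ms.2 ⟨hNY hr.1, h⟩)
      · exact mem_union_right _ (mem_ms.2 ⟨hNY hr.1, h⟩)
    have a1 := sum_union_le' (fun r => dg G r Y + β) (ms G z1 Y) (ms G z2 Y)
    have a2 : ∑ r ∈ R, dg G r N ≤ ∑ r ∈ R, (dg G r Y + β) := by
      refine sum_le_sum fun r _ => ?_
      have := dg_mono (G := G) r hNY
      omega
    have a3 : ∑ r ∈ R, (dg G r Y + β) ≤ ∑ r ∈ ms G z1 Y ∪ ms G z2 Y, (dg G r Y + β) :=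
      sum_le_sum_of_subset hRsub
    unfold err
    omega
  have h6 : (ee G N N : ℝ) ≤ ee G (N \ R) (N \ R) + 2 * ((∑ r ∈ R, dg G r N : ℕ) : ℝ) := by
    exact_mod_cast h4
  have h7 : (ee G (N \ R) (N \ R) : ℝ) ≤ 2 * ((∑ c ∈ C, dg G c (N \ R) : ℕ) : ℝ) := by
    rw [h2] at h1
    have : ee G (N \ R) (N \ R) ≤ 2 * ∑ c ∈ C, dg G c (N \ R) := by omega
    exact_mod_cast this
  have h8 : ((∑ r ∈ R, dg G r N : ℕ) : ℝ) ≤ (err G Y β z1 : ℝ) + err G Y β z2 := by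
    exact_mod_cast h5
  push_cast at h7
  linarith

end Pool.Agent.Lib.MP_a3b162_co.CS
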