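import Pool.Agent.Lib.MP_a3b162_co.CS.CutDefs
import Pool.Agent.Lib.MP_a3b162_co.CS.Sm

/-!
MODULE CutB (75 min).  Boundedly many vertices of linear inner degree.

`cut_mm`: from `edges`.
`cut_B`.  `B` = the set in the statement; by `crX`, `crY` every `v ∈ B` has `dg v X ≥ ε k` and
`dg v Y ≥ ε k`.  For `(x, y) ∈ X × Y` let `f(x,y) = #{v ∈ B : v ~ x, v ~ y}`.
`∑ f = ∑_{v ∈ B} dg v X · dg v Y ≥ |B| ε² k²`.  `|X||Y| ≤ 2 k²`.  Power mean:
`(∑ f)³ ≤ (|X||Y|)² ∑ f³`.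
`∑ f³ = ∑_{(v1,v2,v3) ∈ B³} N_X N_Y`, `N_X`, `N_Y` = numbers of common neighbours in `X`, `Y`.
Triples with two equal entries: at most `3 |B|²`, each term `≤ |X||Y| ≤ 2 k²`.  Distinct: `A ⊆ X`,
`A' ⊆ Y` the common neighbourhoods, `Z = A ∪ A'`, `ee Z Z ≤ 4 |Z| ≤ 4 (2k + 1)` (`t0_weak`), and
`2 ee A A' ≤ ee Z Z`, `|A||A'| ≤ ee A A' + mm` (`ee_add_mm`, `mm` monotone), so each term is at most
`4k + 2 + η k²/2 ` (`cut_mm`).
So `|B|³ ε⁶ ≤ 4 (|B|³ (η/2 + (4k+2)/k²) + 6 |B|²)`; with `η = ε⁶/8` and `k` large `|B| ≤ 48/ε⁶`.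
-/

set_option autoImplicit false

namespace Pool.Agent.Lib.MP_a3b162_co.CS

open Finset
open scoped Classical

theorem cut_mm {V : Type} {G : SimpleGraph V} {X Y : Finset V} {k i o : ℕ}
    (h : Cut G X Y k i o) (hk : 1 ≤ k) :
    2 * mm G X Y ≤ ee G X X + ee G Y Y ∧ 2 * (i * i) ≤ ee G X X + ee G Y Y := by
  have h1 := h.edges
  generalize i * i = p at *
  generalize o * i = q at *
  constructor <;> omega

theorem cutB_mm_mono {V : Type} {G : SimpleGraph V} {A A' B B' : Finset V} (h : A ⊆ A') (h' : B ⊆ B') :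
    mm G A B ≤ mm G A' B' :=
  (sum_le_sum fun v _ => card_le_card (ms_mono v h')).trans (sum_le_sum_of_subset h)

theorem cutB_XY {V : Type} {G : SimpleGraph V} {X Y : Finset V} {k i o : ℕ}
    (h : Cut G X Y k i o) (hk : 1 ≤ k) : (X.card : ℝ) * Y.card ≤ 2 * (k : ℝ) ^ 2 := by
  have h1 := h.cX
  have h2 := h.cY
  have h3 := h.ho
  have e1 : (X.card : ℝ) = k + o + i := by rw [h1]; push_cast; ring
  have e2 : (Y.card : ℝ) = k - i := by
    have : ((Y.card + i : ℕ) : ℝ) = k := by rw [h2]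
    push_cast at this
    linarith
  have e3 : (0 : ℝ) ≤ i := Nat.cast_nonneg _
  have e4 : (0 : ℝ) ≤ o := Nat.cast_nonneg _
  have e5 : (o : ℝ) ≤ 1 := by exact_mod_cast h3
  have e6 : (1 : ℝ) ≤ k := by exact_mod_cast hk
  rw [e1, e2]
  nlinarith [mul_nonneg e3 e4, mul_nonneg e3 e3]

/-- number of common neighbours of three vertices, as a sum of products -/
theorem cutB_common {V : Type} {G : SimpleGraph V} (v1 v2 v3 : V) (X : Finset V) :
    (∑ x ∈ X, (if G.Adj v1 x then (1 : ℝ) else 0) * ((if G.Adj v2 x then (1 : ℝ) else 0) *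
      (if G.Adj v3 x then (1 : ℝ) else 0))) =
    ((X.filter fun x => G.Adj v1 x ∧ G.Adj v2 x ∧ G.Adj v3 x).card : ℝ) := by
  rw [card_filter]
  push_cast
  refine sum_congr rfl fun x _ => ?_
  by_cases h1 : G.Adj v1 x <;> by_cases h2 : G.Adj v2 x <;> by_cases h3 : G.Adj v3 x <;>
    simp [h1, h2, h3]

/-- the triple bound -/
theorem cutB_triple {V : Type} {G : SimpleGraph V} {X Y : Finset V} {k i o : ℕ}
    (h : Cut G X Y k i o) (hk : 1 ≤ k) {η : ℝ}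
    (hη : (ee G X X : ℝ) + ee G Y Y ≤ η * (k : ℝ) ^ 2) {v1 v2 v3 : V} (h12 : v1 ≠ v2)
    (h13 : v1 ≠ v3) (h23 : v2 ≠ v3) :
    ((X.filter fun x => G.Adj v1 x ∧ G.Adj v2 x ∧ G.Adj v3 x).card : ℝ) *
      ((Y.filter fun x => G.Adj v1 x ∧ G.Adj v2 x ∧ G.Adj v3 x).card : ℝ) ≤
      4 * k + 2 + η * (k : ℝ) ^ 2 / 2 := by
  set A := X.filter fun x => G.Adj v1 x ∧ G.Adj v2 x ∧ G.Adj v3 x with hA
  set A' := Y.filter fun x => G.Adj v1 x ∧ G.Adj v2 x ∧ G.Adj v3 x with hA'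
  have hAX : A ⊆ X := filter_subset _ _
  have hAY : A' ⊆ Y := filter_subset _ _
  have hd : Disjoint A A' := disjoint_of_subset_left hAX (disjoint_of_subset_right hAY h.disj)
  have h1 := t0_weak (G := G) h.geo h12 h13 h23 (Z := A ∪ A') (fun z hz => by
    rcases mem_union.1 hz with hz | hz
    · exact (mem_filter.1 hz).2
    · exact (mem_filter.1 hz).2)
  rw [ee_union_self hd, card_union_of_disjoint hd] at h1
  have h2 := card_le_card hAX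
  have h3 := card_le_card hAY
  have h4 := h.cX
  have h5 := h.cY
  have h6 := h.ho
  have h7 : ee G A A' ≤ 4 * k + 2 := by omega
  have h8 := ee_add_mm (G := G) A A'
  have h9 : mm G A A' ≤ mm G X Y := cutB_mm_mono hAX hAY
  have h10 := (cut_mm h hk).1
  have h11 : (A.card : ℝ) * A'.card = ee G A A' + mm G A A' := by
    exact_mod_cast h8.symm
  have h12' : (ee G A A' : ℝ) ≤ 4 * k + 2 := by exact_mod_cast h7
  have h13' : (mm G A A' : ℝ) ≤ mm G X Y := by exact_mod_cast h9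
  have h14 : 2 * (mm G X Y : ℝ) ≤ ee G X X + ee G Y Y := by exact_mod_cast h10
  rw [h11]
  linarith

/-- the third moment of the number of common neighbours in `B` -/
theorem cutB_moment {V : Type} {G : SimpleGraph V} {X Y : Finset V} {k i o : ℕ}
    (h : Cut G X Y k i o) (hk : 1 ≤ k) {η : ℝ} (hη0 : 0 ≤ η)
    (hη : (ee G X X : ℝ) + ee G Y Y ≤ η * (k : ℝ) ^ 2) (B : Finset V) :
    (∑ p ∈ X ×ˢ Y, (∑ v ∈ B, (if G.Adj v p.1 then (1 : ℝ) else 0) *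
      (if G.Adj v p.2 then (1 : ℝ) else 0)) ^ 3) ≤
      (B.card : ℝ) ^ 3 * (4 * k + 2 + η * (k : ℝ) ^ 2 / 2) + 6 * (B.card : ℝ) ^ 2 * (k : ℝ) ^ 2 := by
  have hXY := cutB_XY h hk
  set D : ℝ := 4 * k + 2 + η * (k : ℝ) ^ 2 / 2 with hD
  have hD0 : 0 ≤ D := by positivity
  set P : ℝ := 2 * (k : ℝ) ^ 2 with hP
  have hP0 : 0 ≤ P := by positivity
  have e1 : ∀ p : V × V, (∑ v ∈ B, (if G.Adj v p.1 then (1 : ℝ) else 0) *
      (if G.Adj v p.2 then (1 : ℝ) else 0)) ^ 3 =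
      ∑ v1 ∈ B, ∑ v2 ∈ B, ∑ v3 ∈ B,
        ((if G.Adj v1 p.1 then (1 : ℝ) else 0) * ((if G.Adj v2 p.1 then (1 : ℝ) else 0) *
          (if G.Adj v3 p.1 then (1 : ℝ) else 0))) *
        ((if G.Adj v1 p.2 then (1 : ℝ) else 0) * ((if G.Adj v2 p.2 then (1 : ℝ) else 0) *
          (if G.Adj v3 p.2 then (1 : ℝ) else 0))) := by
    intro p
    rw [pow_three, sum_mul_sum, sum_mul_sum]
    refine sum_congr rfl fun v1 _ => ?_
    refine sum_congr rfl fun v2 _ => ?_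
    rw [mul_sum]
    refine sum_congr rfl fun v3 _ => ?_
    ring
  rw [sum_congr rfl fun p _ => e1 p, sum_comm]
  have e2 : ∀ v1 ∈ B, ∀ v2 ∈ B, ∀ v3 ∈ B,
      (∑ p ∈ X ×ˢ Y,
        ((if G.Adj v1 p.1 then (1 : ℝ) else 0) * ((if G.Adj v2 p.1 then (1 : ℝ) else 0) *
          (if G.Adj v3 p.1 then (1 : ℝ) else 0))) *
        ((if G.Adj v1 p.2 then (1 : ℝ) else 0) * ((if G.Adj v2 p.2 then (1 : ℝ) else 0) *
          (if G.Adj v3 p.2 then (1 : ℝ) else 0)))) ≤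
      D + (if v1 = v2 then P else 0) + (if v1 = v3 then P else 0) + (if v2 = v3 then P else 0) := by
    intro v1 _ v2 _ v3 _
    rw [sum_product]
    have e3 : (∑ x ∈ X, ∑ y ∈ Y,
        ((if G.Adj v1 x then (1 : ℝ) else 0) * ((if G.Adj v2 x then (1 : ℝ) else 0) *
          (if G.Adj v3 x then (1 : ℝ) else 0))) *
        ((if G.Adj v1 y then (1 : ℝ) else 0) * ((if G.Adj v2 y then (1 : ℝ) else 0) *
          (if G.Adj v3 y then (1 : ℝ) else 0)))) =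
        ((X.filter fun x => G.Adj v1 x ∧ G.Adj v2 x ∧ G.Adj v3 x).card : ℝ) *
        ((Y.filter fun x => G.Adj v1 x ∧ G.Adj v2 x ∧ G.Adj v3 x).card : ℝ) := by
      rw [← cutB_common, ← cutB_common, sum_mul_sum]
    rw [e3]
    by_cases h12 : v1 = v2 ∨ v1 = v3 ∨ v2 = v3
    · have h5 : ((X.filter fun x => G.Adj v1 x ∧ G.Adj v2 x ∧ G.Adj v3 x).card : ℝ) *
        ((Y.filter fun x => G.Adj v1 x ∧ G.Adj v2 x ∧ G.Adj v3 x).card : ℝ) ≤ P := by
        refine le_trans ?_ hXY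
        refine mul_le_mul ?_ ?_ (Nat.cast_nonneg _) (Nat.cast_nonneg _)
        · exact_mod_cast card_le_card (filter_subset _ _)
        · exact_mod_cast card_le_card (filter_subset _ _)
      refine h5.trans ?_
      have a1 : (0 : ℝ) ≤ (if v1 = v2 then P else 0) := by split_ifs <;> simp [hP0]
      have a2 : (0 : ℝ) ≤ (if v1 = v3 then P else 0) := by split_ifs <;> simp [hP0]
      have a3 : (0 : ℝ) ≤ (if v2 = v3 then P else 0) := by split_ifs <;> simp [hP0]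
      rcases h12 with h12 | h12 | h12
      · rw [if_pos h12]; linarith
      · rw [if_pos h12]; linarith
      · rw [if_pos h12]; linarith
    · push Not at h12
      rw [if_neg h12.1, if_neg h12.2.1, if_neg h12.2.2]
      have := cutB_triple h hk hη h12.1 h12.2.1 h12.2.2
      linarith
  have e4 : (∑ v1 ∈ B, ∑ p ∈ X ×ˢ Y, ∑ v2 ∈ B, ∑ v3 ∈ B,
        ((if G.Adj v1 p.1 then (1 : ℝ) else 0) * ((if G.Adj v2 p.1 then (1 : ℝ) else 0) *
          (if G.Adj v3 p.1 then (1 : ℝ) else 0))) *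
        ((if G.Adj v1 p.2 then (1 : ℝ) else 0) * ((if G.Adj v2 p.2 then (1 : ℝ) else 0) *
          (if G.Adj v3 p.2 then (1 : ℝ) else 0)))) ≤
      ∑ v1 ∈ B, ∑ v2 ∈ B, ∑ v3 ∈ B,
      (D + (if v1 = v2 then P else 0) + (if v1 = v3 then P else 0) +
        (if v2 = v3 then P else 0)) := by
    refine sum_le_sum fun v1 h1 => ?_
    rw [sum_comm]
    refine sum_le_sum fun v2 h2 => ?_
    rw [sum_comm]
    refine sum_le_sum fun v3 h3 => ?_
    exact e2 v1 h1 v2 h2 v3 h3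
  refine e4.trans (le_of_eq ?_)
  have e5 : ∀ v1 ∈ B, (∑ v2 ∈ B, ∑ v3 ∈ B,
      (D + (if v1 = v2 then P else 0) + (if v1 = v3 then P else 0) +
        (if v2 = v3 then P else 0))) =
      (B.card : ℝ) ^ 2 * D + 3 * (B.card * P) := by
    intro v1 h1
    have e6 : ∀ v2 ∈ B, (∑ v3 ∈ B,
      (D + (if v1 = v2 then P else 0) + (if v1 = v3 then P else 0) +
        (if v2 = v3 then P else 0))) =
        B.card * D + B.card * (if v1 = v2 then P else 0) + 2 * P := by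
      intro v2 h2
      rw [sum_add_distrib, sum_add_distrib, sum_const, sum_ite_eq, sum_ite_eq, if_pos h1,
        if_pos h2, nsmul_eq_mul]
      ring
    rw [sum_congr rfl e6, sum_add_distrib, sum_add_distrib, sum_const, sum_const, ← mul_sum,
      sum_ite_eq, if_pos h1, nsmul_eq_mul, nsmul_eq_mul]
    ring
  rw [sum_congr rfl e5, sum_const, nsmul_eq_mul]
  ring

theorem cut_B {ε : ℝ} (hε : 0 < ε) : ∃ (b0 : ℕ) (η : ℝ) (k1 : ℕ), 0 < η ∧
    ∀ (V : Type) (G : SimpleGraph V) (X Y : Finset V) (k i o : ℕ), Cut G X Y k i o → k1 ≤ k →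
      (ee G X X : ℝ) + ee G Y Y ≤ η * (k : ℝ) ^ 2 →
      ((X.filter fun x => ε * k < dg G x X) ∪ (Y.filter fun y => ε * k < dg G y Y)).card
        ≤ b0 := by
  have hE : 0 < ε ^ 6 := by positivity
  refine ⟨⌈48 / ε ^ 6⌉₊, ε ^ 6 / 8, ⌈96 / ε ^ 6⌉₊ + 1, by positivity, ?_⟩
  intro V G X Y k i o h hk hη
  have hk1 : 1 ≤ k := by omega
  have hk1' : (1 : ℝ) ≤ k := by exact_mod_cast hk1
  have hkE : 96 ≤ ε ^ 6 * k := by
    have h1 : 96 / ε ^ 6 ≤ (k : ℝ) := by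
      refine (Nat.le_ceil _).trans ?_
      have : ⌈96 / ε ^ 6⌉₊ ≤ k := by omega
      exact_mod_cast this
    rw [div_le_iff₀ hE] at h1
    linarith
  set B := (X.filter fun x => ε * k < dg G x X) ∪ (Y.filter fun y => ε * k < dg G y Y) with hB
  have hBd : ∀ v ∈ B, ε * k ≤ dg G v X ∧ ε * k ≤ dg G v Y := by
    intro v hv
    rcases mem_union.1 hv with hv | hv
    · rw [mem_filter] at hv
      have h1 : (dg G v X : ℝ) ≤ dg G v Y := by exact_mod_cast h.crX v hv.1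
      exact ⟨hv.2.le, hv.2.le.trans h1⟩
    · rw [mem_filter] at hv
      have h1 : (dg G v Y : ℝ) ≤ dg G v X := by exact_mod_cast h.crY v hv.1
      exact ⟨hv.2.le.trans h1, hv.2.le⟩
  have hmom := cutB_moment h hk1 (η := ε ^ 6 / 8) (by positivity) hη B
  have hXY := cutB_XY h hk1
  have hdg : ∀ (v : V) (A : Finset V), (dg G v A : ℝ) = ∑ x ∈ A, if G.Adj v x then (1 : ℝ) else 0 := by
    intro v A
    rw [dg_eq_sum]
    push_cast
    rfl
  have hsum : (B.card : ℝ) * (ε * k) ^ 2 ≤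
      ∑ p ∈ X ×ˢ Y, (∑ v ∈ B, (if G.Adj v p.1 then (1 : ℝ) else 0) *
      (if G.Adj v p.2 then (1 : ℝ) else 0)) := by
    rw [sum_comm]
    have e1 : ∀ v ∈ B, (ε * k) ^ 2 ≤ ∑ p ∈ X ×ˢ Y, (if G.Adj v p.1 then (1 : ℝ) else 0) *
      (if G.Adj v p.2 then (1 : ℝ) else 0) := by
      intro v hv
      rw [sum_product]
      have e2 : (∑ x ∈ X, ∑ y ∈ Y, (if G.Adj v x then (1 : ℝ) else 0) *
        (if G.Adj v y then (1 : ℝ) else 0)) = (dg G v X : ℝ) * dg G v Y := by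
        rw [hdg, hdg, sum_mul_sum]
      have h1 := hBd v hv
      have h0 : 0 ≤ ε * (k : ℝ) := by positivity
      rw [e2, pow_two]
      exact mul_le_mul h1.1 h1.2 h0 (Nat.cast_nonneg _)
    calc (B.card : ℝ) * (ε * k) ^ 2 = ∑ v ∈ B, (ε * (k : ℝ)) ^ 2 := by
          rw [sum_const, nsmul_eq_mul]
      _ ≤ _ := sum_le_sum e1
  set F : V × V → ℝ := fun p => ∑ v ∈ B, (if G.Adj v p.1 then (1 : ℝ) else 0) *
      (if G.Adj v p.2 then (1 : ℝ) else 0) with hF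
  have hF0 : ∀ p ∈ X ×ˢ Y, 0 ≤ F p := by
    intro p _
    refine sum_nonneg fun v _ => ?_
    positivity
  by_cases hB0 : B.card = 0
  · rw [hB0]; exact Nat.zero_le _
  have hb : (1 : ℝ) ≤ B.card := by
    have : 1 ≤ B.card := by omega
    exact_mod_cast this
  have hpm := pow_sum_div_card_le_sum_pow (s := X ×ˢ Y) (f := F) hF0 2
  have hcard : ((X ×ˢ Y).card : ℝ) ≤ 2 * (k : ℝ) ^ 2 := by
    rw [card_product]
    push_cast
    exact hXY
  have hcard0 : (0 : ℝ) ≤ ((X ×ˢ Y).card : ℝ) := Nat.cast_nonneg _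
  have hS0 : 0 ≤ (B.card : ℝ) * (ε * k) ^ 2 := by positivity
  have hcube : ((B.card : ℝ) * (ε * k) ^ 2) ^ 3 ≤ (∑ p ∈ X ×ˢ Y, F p) ^ 3 :=
    pow_le_pow_left₀ hS0 hsum 3
  have hne : ((X ×ˢ Y).card : ℝ) ≠ 0 := by
    intro h0
    have h1 : (X ×ˢ Y) = ∅ := by
      rw [← card_eq_zero]
      exact_mod_cast h0
    rw [h1, sum_empty] at hsum
    have : 0 < (B.card : ℝ) * (ε * k) ^ 2 := by positivity
    linarith
  have hcpos : (0 : ℝ) < ((X ×ˢ Y).card : ℝ) := lt_of_le_of_ne hcard0 (Ne.symm hne)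
  rw [show 2 + 1 = 3 from rfl, div_le_iff₀ (by positivity)] at hpm
  set S3 : ℝ := ∑ p ∈ X ×ˢ Y, F p ^ 3 with hS3
  have hS30 : 0 ≤ S3 := sum_nonneg fun p hp => pow_nonneg (hF0 p hp) 3
  have hmom' : S3 ≤ (B.card : ℝ) ^ 3 * (4 * k + 2 + ε ^ 6 / 8 * (k : ℝ) ^ 2 / 2) +
      6 * (B.card : ℝ) ^ 2 * (k : ℝ) ^ 2 := hmom
  have hsq : ((X ×ˢ Y).card : ℝ) ^ 2 ≤ (2 * (k : ℝ) ^ 2) ^ 2 := pow_le_pow_left₀ hcard0 hcard 2
  have hmain : ((B.card : ℝ) * (ε * k) ^ 2) ^ 3 ≤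
      ((B.card : ℝ) ^ 3 * (4 * k + 2 + ε ^ 6 / 8 * (k : ℝ) ^ 2 / 2) +
      6 * (B.card : ℝ) ^ 2 * (k : ℝ) ^ 2) * (2 * (k : ℝ) ^ 2) ^ 2 := by
    refine hcube.trans (hpm.trans ?_)
    exact mul_le_mul hmom' hsq (by positivity) (hS30.trans hmom')
  suffices hh : (B.card : ℝ) ≤ 48 / ε ^ 6 by
    exact_mod_cast hh.trans (Nat.le_ceil _)
  generalize (B.card : ℝ) = b at *
  have hk0 : (0 : ℝ) < k := by linarith
  have hk4 : 0 < (k : ℝ) ^ 4 * b ^ 2 := by positivity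
  have e1 : (b * (ε * k) ^ 2) ^ 3 = ((k : ℝ) ^ 4 * b ^ 2) * (b * ε ^ 6 * (k : ℝ) ^ 2) := by ring
  have e2 : (b ^ 3 * (4 * k + 2 + ε ^ 6 / 8 * (k : ℝ) ^ 2 / 2) +
      6 * b ^ 2 * (k : ℝ) ^ 2) * (2 * (k : ℝ) ^ 2) ^ 2 =
      ((k : ℝ) ^ 4 * b ^ 2) * (4 * (b * (4 * k + 2 + ε ^ 6 / 8 * (k : ℝ) ^ 2 / 2) +
        6 * (k : ℝ) ^ 2)) := by ring
  rw [e1, e2] at hmain
  have h3 := le_of_mul_le_mul_left hmain hk4
  have h4 : 24 * (k : ℝ) ≤ ε ^ 6 * (k : ℝ) ^ 2 / 4 := by nlinarith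
  have h5 : b * (4 * (4 * k + 2)) ≤ b * (ε ^ 6 * (k : ℝ) ^ 2 / 4) := by
    refine mul_le_mul_of_nonneg_left ?_ (by linarith)
    linarith
  have h6 : (k : ℝ) ^ 2 * (b * ε ^ 6) ≤ (k : ℝ) ^ 2 * 48 := by nlinarith
  have h7 := le_of_mul_le_mul_left h6 (by positivity)
  rw [le_div_iff₀ hE]
  exact h7

end Pool.Agent.Lib.MP_a3b162_co.CS
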