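import Pool.Agent.Lib.MP_a3b162_co.CS.NDefs

/-!
The maximal cut setting.
-/

set_option autoImplicit false

namespace Pool.Agent.Lib.MP_a3b162_co.CS

open Finset
open scoped Classical

variable {V : Type}

/-- A cut `(X, Y)` of a graph with `2k + o` vertices, `|X| = k + o + i`, `|Y| = k - i`, with the
inequalities which follow from minimum degree `≥ ceil(n/2) + 1` and at least `F(n) + 1` edges, and
`inner degree ≤ cross degree`. -/
structure Cut (G : SimpleGraph V) (X Y : Finset V) (k i o : ℕ) : Prop where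
  geo : Geo G
  disj : Disjoint X Y
  cX : X.card = k + o + i
  cY : Y.card + i = k
  ho : o ≤ 1
  dX : ∀ x ∈ X, 1 + o + i + (ms G x Y).card ≤ dg G x X
  dY : ∀ y ∈ Y, 1 + (ms G y X).card ≤ dg G y Y + i
  edges : 2 * (2 * k + o + mm G X Y + i * i + o * i) ≤ ee G X X + ee G Y Y + 2
  crX : ∀ x ∈ X, dg G x X ≤ dg G x Y
  crY : ∀ y ∈ Y, dg G y Y ≤ dg G y X

end Pool.Agent.Lib.MP_a3b162_co.CS
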