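import Mathlib

/-!
MODULE LNum (45 min).  The numerical contradiction in the case (M,M).  Pure real arithmetic.

`t = β - 2 + y`, `P = y - 31 ρ²`, `39 ρ ≤ P`, `39 ρ ≤ μ`, `P < 1`, `μ ≤ x ≤ y`.
(i) `D ≤ x - μ + μ t + 4 μ ρ² + 2 ρ³ ≤ μ t + 32 ρ²` from `hQ`, `hS2`.
(ii) `β - S ≥ (1 - μ) t + μ - 3 ρ²` from `hS2`; (iii) `β - S ≥ t - ρ³` from `hS1`.
Case `t < 0`: `0 ≤ D` gives `μ |t| ≤ 32 ρ²`, so `|t| ≤ ρ`; (ii): `β - S ≥ 37 ρ`; `hD`: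
`D ≥ (1 - P) D ≥ 39 ρ · 37 ρ - ρ³ > 32 ρ² ≥ D`.
Case `t ≥ 0`: `hD`, (iii), (i): `t (P - (1 - P) μ) ≤ 33 ρ²`; `P - (1-P) μ = P - μ + P μ ≥ 1490 ρ²`, so
`t ≤ 1/40`; `hD`, (ii), (i): `P μ ≤ t (μ - P) + 35 ρ² ≤ 36 ρ²`, but `P μ ≥ 1500 ρ²`.
-/

set_option autoImplicit false

namespace Pool.Agent.Lib.MP_a3b162_co.CS

theorem mm_num {ρ x y μ β D S : ℝ} (hρ : 0 < ρ) (hρ1 : ρ ≤ 1 / 100) (hx : 40 * ρ ≤ x)
    (hxy : x ≤ y) (hy : y ≤ 1 / 2 + 29 * ρ ^ 2) (hμ : μ ≤ x) (hμ1 : x ≤ μ + 29 * ρ ^ 2)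
    (hD0 : 0 ≤ D)
    (hQ : D ≤ x + y + S - 2 + ρ ^ 3)
    (hS1 : S ≤ 2 - y + ρ ^ 3)
    (hS2 : S ≤ (1 - 2 * μ) * (2 - y) + μ * (β + 1 - y + 4 * ρ ^ 2) + ρ ^ 3)
    (hD : (y - 31 * ρ ^ 2) * (β - S) - ρ ^ 3 ≤ (1 - (y - 31 * ρ ^ 2)) * D) : False := by
  obtain ⟨s, hs⟩ : ∃ s, s = ρ ^ 2 := ⟨_, rfl⟩
  obtain ⟨c, hc⟩ : ∃ c, c = ρ ^ 3 := ⟨_, rfl⟩
  obtain ⟨P, hP⟩ : ∃ P, P = y - 31 * ρ ^ 2 := ⟨_, rfl⟩
  obtain ⟨t, ht⟩ : ∃ t, t = β - 2 + y := ⟨_, rfl⟩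
  obtain ⟨E, hE⟩ : ∃ E, E = β - S := ⟨_, rfl⟩
  rw [← hP, ← hc, ← hE] at hD
  rw [← hs] at hP hy hμ1 hS2
  rw [← hc] at hQ hS1 hS2
  have s0 : 0 < s := by rw [hs]; positivity
  have s1 : 100 * s ≤ ρ := by rw [hs]; nlinarith
  have c0 : 0 < c := by rw [hc]; positivity
  have c1 : 100 * c ≤ s := by
    rw [hc, hs]
    have : 0 < ρ ^ 2 := by positivity
    nlinarith
  have hss : s = ρ * ρ := by rw [hs]; ring
  have hP1 : 39 * ρ ≤ P := by linarith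
  have hP2 : P ≤ 1 / 2 := by linarith
  have hm1 : 39 * ρ ≤ μ := by linarith
  have hm2 : μ ≤ 51 / 100 := by linarith
  have hμ0 : 0 < μ := by linarith
  have hP0 : 0 < P := by linarith
  have hms : μ * s ≤ 51 / 100 * s := mul_le_mul_of_nonneg_right hm2 s0.le
  have hPm : 1521 * s ≤ P * μ := by
    have h1 : (39 * ρ) * (39 * ρ) ≤ P * μ := mul_le_mul hP1 hm1 (by positivity) hP0.le
    rw [hss]
    linarith
  -- (i)
  have e1 : D ≤ μ * t + 32 * s := by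
    have h1 : (1 - 2 * μ) * (2 - y) + μ * (β + 1 - y + 4 * s) + x + y - 2 =
        x - μ + μ * t + 4 * (μ * s) := by rw [ht]; ring
    linarith
  -- (ii)
  have e2 : (1 - μ) * t + μ - 3 * s ≤ E := by
    have h1 : β - ((1 - 2 * μ) * (2 - y) + μ * (β + 1 - y + 4 * s)) =
        (1 - μ) * t + μ - 4 * (μ * s) := by rw [ht]; ring
    linarith
  -- (iii)
  have e3 : t - c ≤ E := by linarith
  rcases lt_or_ge t 0 with ht0 | ht0
  · have h1 : 39 * ρ * (-t) ≤ μ * (-t) := mul_le_mul_of_nonneg_right hm1 (by linarith)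
    have h2 : -t ≤ ρ := by
      by_contra h
      push Not at h
      have h3 : 39 * ρ * ρ ≤ 39 * ρ * (-t) := mul_le_mul_of_nonneg_left h.le (by positivity)
      nlinarith
    have h4 : t ≤ (1 - μ) * t := by nlinarith
    have h5 : 37 * ρ ≤ E := by linarith
    have h6 : (39 * ρ) * (37 * ρ) ≤ P * E := mul_le_mul hP1 h5 (by positivity) hP0.le
    have h7 : (1 - P) * D ≤ D := by nlinarith
    have h8 : μ * t ≤ 0 := by nlinarith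
    nlinarith
  · have h1 : P * (t - c) ≤ P * E := mul_le_mul_of_nonneg_left e3 hP0.le
    have h2 : (1 - P) * D ≤ (1 - P) * (μ * t + 32 * s) :=
      mul_le_mul_of_nonneg_left e1 (by linarith)
    have hPc : P * c ≤ c := by nlinarith
    have hPs : 0 ≤ P * s := by positivity
    have h3 : t * (P - μ + P * μ) ≤ 33 * s := by nlinarith
    have h4 : 1490 * s ≤ P - μ + P * μ := by linarith
    have h5 : t * (1490 * s) ≤ t * (P - μ + P * μ) := mul_le_mul_of_nonneg_left h4 ht0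
    have h6 : t ≤ 1 / 40 := by
      by_contra h
      push Not at h
      have h7 : 1 / 40 * (1490 * s) < t * (1490 * s) := mul_lt_mul_of_pos_right h (by positivity)
      linarith
    have h8 : P * ((1 - μ) * t + μ - 3 * s) ≤ P * E := mul_le_mul_of_nonneg_left e2 hP0.le
    have h9 : P * μ ≤ t * (μ - P) + 35 * s := by nlinarith
    have h10 : t * (μ - P) ≤ t * (31 * s) := mul_le_mul_of_nonneg_left (by linarith) ht0
    have h11 : t * (31 * s) ≤ 1 / 40 * (31 * s) := mul_le_mul_of_nonneg_right h6 (by positivity)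
    linarith

end Pool.Agent.Lib.MP_a3b162_co.CS
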