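import Pool.Agent.Lib.MP_a3b162_co.CS.LDefs

/-!
MODULE LType (75 min).  Centres (vertices of `X` with two good neighbours in `X`), matching type, mixed
type.  `Gd = gd G X Y B κ ρ`.

`ls_centre`: two good neighbours `z1 ≠ z2` of `c`; `t2_err` with `w = c`, `Δ = ρ^4 κ`:
`ee (nb c Y) (nb c Y) ≤ 8 ρ^4 κ + 4 ρ^2 κ`.
`ls_typeM`: `W ⊆ X`, every vertex of `W` has at most one neighbour in `Gd ∩ W`; `N = W \ Gd`,
`|N| ≤ 7 ρ^2 κ` (`ls_nongood`): `ee W W = ee Gd' Gd' + 2 ee N Gd' + ee N N ≤ ee Gd' Gd' + 2 |N| + 6 |N|`.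
`ls_match`: `R ⊆ Y` arbitrary, `Gd' = gd Y X ∩ W` where every vertex has at most one neighbour:
`ee Gd' Gd' ≤ ee (Y \ R) (Y \ R) + 2 |R|` (edges touching `R` in a matching; `ee_sdiff_ge`).
`ls_mixed`: a centre `c ∈ X`; all `y ∈ Y` have at most one neighbour in `gd Y X`: `ls_typeM h.symm` with
`W = Y`, `ls_match` with `R = ms c Y` (`Y \ R = nb c Y`, `ls_centre`, `ls_M`):
`ee Y Y ≤ 56 ρ²κ + 5 ρ²κ + 2.02 ρ^4 κ`.
-/

set_option autoImplicit false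

namespace Pool.Agent.Lib.MP_a3b162_co.CS

open Finset
open scoped Classical

variable {V : Type} {G : SimpleGraph V} {X Y B : Finset V} {κ ρ s : ℝ}

theorem ls_centre (h : LS G X Y B κ ρ s) {c : V} (hc : c ∈ X)
    (h2 : 2 ≤ dg G c (gd G X Y B κ ρ)) :
    (ee G (nb G c Y) (nb G c Y) : ℝ) ≤ 5 * ρ ^ 2 * κ := by
  obtain ⟨hκ, _, _, _, _, _⟩ := ls_size h
  obtain ⟨z1, hz1, z2, hz2, hne, ha1, ha2⟩ := one_lt_dg h2
  have hρ0 := h.hρ
  have hρ1 := h.hρ1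
  have hΔ0 : 0 ≤ ρ ^ 4 * κ := mul_nonneg (pow_nonneg hρ0.le 4) hκ.le
  have h3 := t2_err (Y := Y) (β := B.card + 2) h.geo hne ha2.ne (Or.inl ⟨ha1.symm, ha2⟩)
    hΔ0 h.hdY
  have e1 : (err G Y (B.card + 2) z1 : ℝ) ≤ ρ ^ 2 * κ := (mem_filter.1 hz1).2
  have e2 : (err G Y (B.card + 2) z2 : ℝ) ≤ ρ ^ 2 * κ := (mem_filter.1 hz2).2
  have h4 : 8 * (ρ ^ 4 * κ) ≤ ρ ^ 2 * κ := by
    have h5 : 8 * ρ ^ 4 ≤ ρ ^ 2 := by
      have h6 : ρ ^ 2 ≤ (1 / 100) ^ 2 := pow_le_pow_left₀ hρ0.le hρ1 2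
      have h7 : 0 ≤ ρ ^ 2 := sq_nonneg ρ
      nlinarith
    nlinarith
  linarith

theorem ls_typeM (h : LS G X Y B κ ρ s) {W : Finset V} (hW : W ⊆ X)
    (h1 : ∀ x ∈ W, dg G x (gd G X Y B κ ρ ∩ W) ≤ 1) :
    (ee G W W : ℝ) ≤ ee G (gd G X Y B κ ρ ∩ W) (gd G X Y B κ ρ ∩ W) + 56 * ρ ^ 2 * κ := by
  have hng := ls_nongood h
  set A := gd G X Y B κ ρ ∩ W with hA
  have hAW : A ⊆ W := inter_subset_right
  have hd : Disjoint A (W \ A) := disjoint_sdiff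
  have hWA : A ∪ (W \ A) = W := union_sdiff_of_subset hAW
  have h2 := ee_union_self (G := G) hd
  rw [hWA] at h2
  have h3 : ee G A (W \ A) ≤ (W \ A).card := by
    rw [ee_comm]
    have := sum_le_card_nsmul (W \ A) (fun x => dg G x A) 1
      (fun x hx => h1 x (mem_sdiff.1 hx).1)
    simpa [ee] using this
  have h4 : ee G (W \ A) (W \ A) ≤ 6 * (W \ A).card :=
    ls_edges h (sdiff_subset.trans hW)
  have h5 : (W \ A).card ≤ (X \ gd G X Y B κ ρ).card := by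
    apply card_le_card
    intro x hx
    rw [mem_sdiff] at hx ⊢
    refine ⟨hW hx.1, fun hg => hx.2 ?_⟩
    rw [hA, mem_inter]
    exact ⟨hg, hx.1⟩
  have h6 : ee G W W ≤ ee G A A + 8 * (X \ gd G X Y B κ ρ).card := by omega
  have h7 : (ee G W W : ℝ) ≤ ee G A A + 8 * ((X \ gd G X Y B κ ρ).card : ℝ) := by
    exact_mod_cast h6
  linarith

theorem ls_match {U R A : Finset V} (hA : A ⊆ U) (h1 : ∀ y ∈ A, dg G y A ≤ 1) :
    ee G A A ≤ ee G (U \ R) (U \ R) + 2 * (R ∩ U).card := by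
  have h2 := ee_sdiff_ge (G := G) A (R ∩ A) inter_subset_right
  have h3 : ∑ r ∈ R ∩ A, dg G r A ≤ (R ∩ A).card := by
    have := sum_le_card_nsmul (R ∩ A) (fun x => dg G x A) 1
      (fun x hx => h1 x (mem_inter.1 hx).2)
    simpa using this
  have h4 : (R ∩ A).card ≤ (R ∩ U).card := card_le_card (inter_subset_inter_left hA)
  have h5 : A \ (R ∩ A) ⊆ U \ R := by
    intro x hx
    rw [mem_sdiff, mem_inter] at hx
    rw [mem_sdiff]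
    exact ⟨hA hx.1, fun hR => hx.2 ⟨hR, hx.1⟩⟩
  have h6 := ee_mono (G := G) h5 h5
  omega

theorem ls_mixed (h : LS G X Y B κ ρ s) {c : V} (hc : c ∈ X)
    (h2 : 2 ≤ dg G c (gd G X Y B κ ρ)) (hM : ∀ y ∈ Y, dg G y (gd G Y X B κ ρ) ≤ 1) :
    (ee G Y Y : ℝ) ≤ 62 * ρ ^ 2 * κ := by
  obtain ⟨hκ, _, _, _, _, _⟩ := ls_size h
  have hρ0 := h.hρ
  have hρ1 := h.hρ1
  have h3 := ls_typeM h.symm (W := Y) (subset_refl Y)
    (fun y hy => (dg_mono y inter_subset_left).trans (hM y hy))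
  have h4 := ls_match (G := G) (U := Y) (R := ms G c Y) (A := gd G Y X B κ ρ ∩ Y)
    inter_subset_right
    (fun y hy => (dg_mono y inter_subset_left).trans (hM y (mem_inter.1 hy).2))
  have h5 : Y \ ms G c Y = nb G c Y := by
    ext y
    rw [mem_sdiff, mem_ms, mem_nb]
    constructor
    · rintro ⟨h6, h7⟩
      exact ⟨h6, by by_contra h8; exact h7 ⟨h6, h8⟩⟩
    · rintro ⟨h6, h7⟩
      exact ⟨h6, fun h8 => h8.2 h7⟩
  have h6 : ms G c Y ∩ Y = ms G c Y := inter_eq_left.2 (ms_subset c Y)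
  rw [h5, h6] at h4
  have h7 := ls_centre h hc h2
  have h8 := ls_M h c hc
  have h9 : (ee G (gd G Y X B κ ρ ∩ Y) (gd G Y X B κ ρ ∩ Y) : ℝ) ≤
      ee G (nb G c Y) (nb G c Y) + 2 * ((ms G c Y).card : ℝ) := by exact_mod_cast h4
  have h10 : ρ ^ 4 * κ * (202 / 100) ≤ ρ ^ 2 * κ := by
    have h11 : ρ ^ 4 * (202 / 100) ≤ ρ ^ 2 := by
      have h6 : ρ ^ 2 ≤ (1 / 100) ^ 2 := pow_le_pow_left₀ hρ0.le hρ1 2
      have h7 : 0 ≤ ρ ^ 2 := sq_nonneg ρ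
      nlinarith
    nlinarith
  linarith

end Pool.Agent.Lib.MP_a3b162_co.CS
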