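import Pool.Agent.Lib.MP_a3b162_co.CS.LAvg
import Pool.Agent.Lib.MP_a3b162_co.CS.LType
import Pool.Agent.Lib.MP_a3b162_co.CS.LNum

/-!
MODULE LMM (90 min).  No centres on either side (matching type), both sides with many edges:
contradiction.  `Gd = gd G X Y B κ ρ`, `b = |B|`.

`mm_hub`: `x1 ~ x2` good, `x1 ~ v` (`v ∈ B`): `t2_err` with `w = v`, `z1 = x1`, `z2 = x2`
(`z2 ~ z1 ~ w`), `Δ = ρ^4 κ`: `ee (nb v Y) (nb v Y) ≤ 8 ρ^4 κ + 4 ρ²κ`.  `ls_typeM h.symm` (`W = Y`) and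
`ls_match` with `A = gd Y X`, `R = ms v Y`: `ee Y Y ≤ 56 ρ²κ + 4 ρ²κ + 8 ρ^4 κ + 2 |ms v Y|`.
`mm_T1`: `t1_err` with `A ⊆ B`.
`mm_data` (below).  `Mt1` = the `x ∈ Gd` which have a neighbour `x' ∈ Gd` such that some `x3 ∈ Gd`,
`x3 ≠ x, x'`, has `nb x B ∩ nb x' B ⊆ nb x3 B` (closed under `x ↔ x'`; `x'` is unique).
`N1 = |Mt1|`, `B1 = {v ∈ B : ∃ x ∈ Gd, 1 ≤ dg x Gd, x ~ v}`, `β1 = ee B1 Y`.
(a) `ee X X ≤ ee Gd Gd + 56 ρ²κ` (`ls_typeM`), `ee Gd Gd =` number of `x ∈ Gd` with a neighbour in `Gd`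
`≤ N1 + 2·2^b` (an `x` not in `Mt1` has a class `{x'' ∈ Gd : nb x'' B = nb x B}` with at most 2 members);
`N1 ≤ ee Gd Gd ≤ ee X X`.
(b) `2 SS = 2 ∑_{X \ Mt1} + 2 ∑_{Mt1}`, `ls_avg` for `X \ Mt1`; for `Mt1`:
`2 ∑_{x ∈ Mt1} ee (nb x B) Y = ∑_{x ∈ Mt1} (ee (nb x B) Y + ee (nb x' B) Y)`, and
`ee (nb x B) Y + ee (nb x' B) Y = ee (union) Y + ee (intersection) Y ≤ β1 + (|Y| - ee Y Y / 2 + 3.5 ρ²κ)`
(`mm_T1`).
(c) `P1 = ee Y Y / 2 - 31 ρ²κ ≥ 0`; `|ms v Y| ≥ P1` for `v ∈ B1` (`mm_hub`);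
`(|Y| - P1) |ms v Y| ≥ P1 dg v Y` (as `dg v Y = |Y| - |ms v Y|`), so
`(|Y| - P1) DD ≥ ∑_{v ∈ B1} |ms v X| (|Y| - P1) |ms v Y| ≥ P1 ∑_{B1} |ms v X| dg v Y
= P1 (|X| β1 - ∑_{B1} dg v X dg v Y) ≥ P1 (|X| β1 - SS)`.
(d) `β1 ≤ b |Y|`.
`mm_false`: `mm_num` with `x = ee X X/(2κ)`, `y = ee Y Y/(2κ)`, `μ = N1/(2κ)`, `β = β1/κ`, `D = DD/κ²`,
`S = SS/κ²`: `hQ` from `ls_Q`; `hS1` from `ls_avg` with `W = X`; `hS2` from (b); `hD` from (c), (d)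
(`|X| β1 ≥ κ β1 - (|j|/2) b |Y| ≥ κ β1 - ρ^8 κ²` by `hj`; `DD ≤ 2 κ²`); `y ≤ 1/2 + 29 ρ²` from (a) for the
side `Y` (`ee Gd Gd ≤ |Gd|`).  All errors are at most `50 ρ^4 ≤ ρ³` as `ρ ≤ 1/100`.
-/

set_option autoImplicit false

namespace Pool.Agent.Lib.MP_a3b162_co.CS

open Finset
open scoped Classical

variable {V : Type} {G : SimpleGraph V} {X Y B : Finset V} {κ ρ s : ℝ}

private theorem lmm_gdX (G : SimpleGraph V) (X Y B : Finset V) (κ ρ : ℝ) :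
    gd G X Y B κ ρ ⊆ X := filter_subset _ _

private theorem lmm_err {x : V} (hx : x ∈ gd G X Y B κ ρ) :
    (err G Y (B.card + 2) x : ℝ) ≤ ρ ^ 2 * κ := (mem_filter.1 hx).2

private theorem lmm_half (h : LS G X Y B κ ρ s)
    (hM : ∀ y ∈ Y, dg G y (gd G Y X B κ ρ) ≤ 1) (R : Finset V) (hR : R ⊆ Y) :
    (ee G Y Y : ℝ) ≤ ee G (Y \ R) (Y \ R) + 2 * R.card + 56 * ρ ^ 2 * κ := by
  have hI : gd G Y X B κ ρ ∩ Y = gd G Y X B κ ρ := inter_eq_left.2 (lmm_gdX G Y X B κ ρ)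
  have h1 := ls_typeM h.symm (subset_refl Y) (fun y hy => by rw [hI]; exact hM y hy)
  rw [hI] at h1
  have h2 := ls_match (G := G) (R := R) (lmm_gdX G Y X B κ ρ)
    (fun y hy => hM y (lmm_gdX G Y X B κ ρ hy))
  have h3 : R ∩ Y = R := inter_eq_left.2 hR
  rw [h3] at h2
  have h4 : (ee G (gd G Y X B κ ρ) (gd G Y X B κ ρ) : ℝ) ≤
      ee G (Y \ R) (Y \ R) + 2 * R.card := by exact_mod_cast h2
  linarith

theorem mm_hub (h : LS G X Y B κ ρ s) (hM : ∀ y ∈ Y, dg G y (gd G Y X B κ ρ) ≤ 1) {x1 x2 v : V}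
    (h1 : x1 ∈ gd G X Y B κ ρ) (h2 : x2 ∈ gd G X Y B κ ρ) (hv : v ∈ B) (a12 : G.Adj x1 x2)
    (a1 : G.Adj x1 v) : (ee G Y Y : ℝ) ≤ 2 * (ms G v Y).card + 61 * ρ ^ 2 * κ := by
  obtain ⟨hκ, _, _, _, _, _⟩ := ls_size h
  have hX2 : x2 ∈ X := lmm_gdX G X Y B κ ρ h2
  have hne : v ≠ x2 := by
    rintro rfl
    exact (disjoint_left.1 h.dXB) hX2 hv
  have e1 := t2_err h.geo (β := B.card + 2) (z1 := x1) (z2 := x2) (w := v) a12.ne hne
    (Or.inr ⟨a12.symm, a1⟩) (Δ := ρ ^ 4 * κ)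
    (mul_nonneg (pow_nonneg h.hρ.le 4) hκ.le) h.hdY
  have e2 := lmm_half h hM (ms G v Y) (ms_subset _ _)
  have e3 : Y \ ms G v Y = nb G v Y := by
    ext y
    simp only [mem_sdiff, mem_ms, mem_nb]
    tauto
  rw [e3] at e2
  have e4 := lmm_err h1
  have e5 := lmm_err h2
  have e6 : 8 * (ρ ^ 4 * κ) ≤ ρ ^ 2 * κ := by
    have g1 : ρ ^ 2 ≤ (1 / 100) ^ 2 := pow_le_pow_left₀ h.hρ.le h.hρ1 2
    have g2 : 0 ≤ ρ ^ 2 * κ := mul_nonneg (sq_nonneg _) hκ.le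
    have g3 : 8 * (ρ ^ 4 * κ) = 8 * ρ ^ 2 * (ρ ^ 2 * κ) := by ring
    rw [g3]
    have g4 : 8 * ρ ^ 2 ≤ 1 := by linarith
    calc 8 * ρ ^ 2 * (ρ ^ 2 * κ) ≤ 1 * (ρ ^ 2 * κ) := mul_le_mul_of_nonneg_right g4 g2
      _ = ρ ^ 2 * κ := one_mul _
  linarith

theorem mm_T1 (h : LS G X Y B κ ρ s) {x1 x2 x3 : V}
    (h1 : x1 ∈ gd G X Y B κ ρ) (h2 : x2 ∈ gd G X Y B κ ρ) (h3 : x3 ∈ gd G X Y B κ ρ)
    (a12 : G.Adj x1 x2) (h13 : x1 ≠ x3) (h23 : x2 ≠ x3) {A : Finset V} (hA : A ⊆ B)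
    (hAx : ∀ a ∈ A, G.Adj x1 a ∧ G.Adj x2 a ∧ G.Adj x3 a) :
    (ee G Y Y : ℝ) + 2 * ee G A Y ≤ 2 * Y.card + 7 * ρ ^ 2 * κ := by
  obtain ⟨hκ, _, _, _, hB, _⟩ := ls_size h
  have hAc : A.card ≤ B.card := card_le_card hA
  have e1 := t1_err h.geo (β := B.card + 2) a12 h13 h23
    (disjoint_of_subset_left hA h.dYB.symm) hAx (by omega)
  have e1' : (ee G Y Y : ℝ) + 2 * ee G A Y ≤ 2 * (Y.card + A.card) +
      2 * ((err G Y (B.card + 2) x1 : ℝ) + err G Y (B.card + 2) x2 + err G Y (B.card + 2) x3) := by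
    exact_mod_cast e1
  have e2 : (A.card : ℝ) ≤ B.card := by exact_mod_cast hAc
  have e3 := lmm_err h1
  have e4 := lmm_err h2
  have e5 := lmm_err h3
  have e6 : 2 * (ρ ^ 8 * κ) ≤ ρ ^ 2 * κ := by
    have g1 : ρ ^ 6 ≤ (1 / 100) ^ 6 := pow_le_pow_left₀ h.hρ.le h.hρ1 6
    have g2 : 0 ≤ ρ ^ 2 * κ := mul_nonneg (sq_nonneg _) hκ.le
    have g3 : 2 * (ρ ^ 8 * κ) = 2 * ρ ^ 6 * (ρ ^ 2 * κ) := by ring
    rw [g3]
    have g4 : 2 * ρ ^ 6 ≤ 1 := by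
      have : ((1 : ℝ) / 100) ^ 6 ≤ 1 / 2 := by norm_num
      linarith
    calc 2 * ρ ^ 6 * (ρ ^ 2 * κ) ≤ 1 * (ρ ^ 2 * κ) := mul_le_mul_of_nonneg_right g4 g2
      _ = ρ ^ 2 * κ := one_mul _
  linarith

private theorem lmm_pow (h : LS G X Y B κ ρ s) : (2 : ℝ) * 2 ^ B.card ≤ ρ ^ 2 * κ := by
  obtain ⟨hκ, _, _, _, hB, _⟩ := ls_size h
  have h1 := h.hb
  have hB0 : (0 : ℝ) ≤ B.card := Nat.cast_nonneg _
  have h2 : (2 : ℝ) ^ (B.card + 2) = 4 * 2 ^ B.card := by rw [pow_add]; ring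
  rw [h2] at h1
  have h3 : (0 : ℝ) < 2 ^ B.card := by positivity
  have h4 : (9 : ℝ) ≤ ((B.card : ℝ) + 3) ^ 2 := by nlinarith
  have h5 : 9 * (4 * (2 : ℝ) ^ B.card) ≤ ρ ^ 8 * κ :=
    (mul_le_mul_of_nonneg_right h4 (by positivity)).trans h1
  have h6 : ρ ^ 8 * κ ≤ ρ ^ 2 * κ := by
    refine mul_le_mul_of_nonneg_right ?_ hκ.le
    exact pow_le_pow_of_le_one h.hρ.le (by linarith [h.hρ1]) (by norm_num)
  linarith

/-- the upper bound for the number of edges in the matching case -/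
private theorem lmm_up (h : LS G X Y B κ ρ s)
    (hM : ∀ y ∈ Y, dg G y (gd G Y X B κ ρ) ≤ 1) :
    (ee G Y Y : ℝ) ≤ Y.card + 56 * ρ ^ 2 * κ := by
  have hI : gd G Y X B κ ρ ∩ Y = gd G Y X B κ ρ := inter_eq_left.2 (lmm_gdX G Y X B κ ρ)
  have h1 := ls_typeM h.symm (subset_refl Y) (fun y hy => by rw [hI]; exact hM y hy)
  rw [hI] at h1
  have h2 : ee G (gd G Y X B κ ρ) (gd G Y X B κ ρ) ≤ Y.card := by
    calc ee G (gd G Y X B κ ρ) (gd G Y X B κ ρ)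
        ≤ ∑ _y ∈ gd G Y X B κ ρ, 1 :=
          sum_le_sum fun y hy => hM y (lmm_gdX G Y X B κ ρ hy)
      _ = (gd G Y X B κ ρ).card := by rw [sum_const, smul_eq_mul, mul_one]
      _ ≤ Y.card := card_le_card (lmm_gdX G Y X B κ ρ)
  have h3 : (ee G (gd G Y X B κ ρ) (gd G Y X B κ ρ) : ℝ) ≤ Y.card := by exact_mod_cast h2
  linarith

/-- the vertices of the good edges with a third good vertex -/
private noncomputable def lmmT (G : SimpleGraph V) (D B : Finset V) : Finset V :=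
  D.filter fun x => ∃ x' ∈ D, G.Adj x x' ∧ ∃ x3 ∈ D, x ≠ x3 ∧ x' ≠ x3 ∧
    nb G x B ∩ nb G x' B ⊆ nb G x3 B

private theorem lmm_uniq {D : Finset V} (hD : ∀ x ∈ D, dg G x D ≤ 1) {x a b : V} (hx : x ∈ D)
    (ha : a ∈ D) (hb : b ∈ D) (h1 : G.Adj x a) (h2 : G.Adj x b) : a = b := by
  have h3 : (nb G x D).card ≤ 1 := hD x hx
  exact card_le_one.1 h3 a (mem_nb.2 ⟨ha, h1⟩) b (mem_nb.2 ⟨hb, h2⟩)

private theorem lmm_count {D : Finset V} (hD : ∀ x ∈ D, dg G x D ≤ 1) (B : Finset V) :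
    ee G D D ≤ (lmmT G D B).card + 2 * 2 ^ B.card := by
  set N := D.filter fun x => 1 ≤ dg G x D ∧ x ∉ lmmT G D B with hN
  have h1 : ee G D D ≤ (lmmT G D B).card + N.card := by
    have e1 : ee G D D ≤ (D.filter fun x => 1 ≤ dg G x D).card := by
      rw [ee, card_filter]
      refine sum_le_sum fun x hx => ?_
      have := hD x hx
      split_ifs <;> omega
    refine e1.trans ((card_le_card ?_).trans (card_union_le _ _))
    intro x hx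
    rw [mem_filter] at hx
    by_cases hxt : x ∈ lmmT G D B
    · exact mem_union_left _ hxt
    · exact mem_union_right _ (mem_filter.2 ⟨hx.1, hx.2, hxt⟩)
  have h2 : N.card ≤ 2 * (N.image fun x => nb G x B).card := by
    refine card_le_mul_card_image N 2 ?_
    intro A hA
    obtain ⟨x, hx, hxA⟩ := mem_image.1 hA
    have hxN := mem_filter.1 hx
    obtain ⟨x', hx', hadj⟩ := dg_pos.1 (show 0 < dg G x D from hxN.2.1)
    refine (card_le_card ?_).trans (card_le_two (a := x) (b := x'))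
    intro z hz
    rw [mem_filter] at hz
    have hzN := mem_filter.1 hz.1
    by_contra hcon
    rw [mem_insert, mem_singleton, not_or] at hcon
    apply hxN.2.2
    refine mem_filter.2 ⟨hxN.1, x', hx', hadj, z, hzN.1, fun h => hcon.1 h.symm,
      fun h => hcon.2 h.symm, ?_⟩
    rw [hz.2, ← hxA]
    exact inter_subset_left
  have h3 : (N.image fun x => nb G x B).card ≤ 2 ^ B.card := by
    rw [← card_powerset]
    refine card_le_card ?_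
    intro A hA
    obtain ⟨x, _, hxA⟩ := mem_image.1 hA
    rw [mem_powerset, ← hxA]
    exact nb_subset _ _
  omega

/-- double counting with the partner map -/
private theorem lmm_pair {D : Finset V} (hD : ∀ x ∈ D, dg G x D ≤ 1) (B : Finset V) (f : V → ℝ)
    (c : ℝ) (hc : ∀ x ∈ D, ∀ x' ∈ D, ∀ x3 ∈ D, G.Adj x x' → x ≠ x3 → x' ≠ x3 →
      nb G x B ∩ nb G x' B ⊆ nb G x3 B → f x + f x' ≤ c) :
    2 * ∑ x ∈ lmmT G D B, f x ≤ (lmmT G D B).card * c := by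
  have hp : ∀ x, ∃ x', x ∈ lmmT G D B → x' ∈ lmmT G D B ∧ G.Adj x x' ∧ x ∈ D ∧ x' ∈ D ∧
      f x + f x' ≤ c := by
    intro x
    by_cases hx : x ∈ lmmT G D B
    · obtain ⟨hxD, x', hx', hadj, x3, hx3, h1, h2, h3⟩ := mem_filter.1 hx
      refine ⟨x', fun _ => ⟨mem_filter.2 ⟨hx', x, hxD, hadj.symm, x3, hx3, h2, h1, ?_⟩, hadj, hxD,
        hx', hc x hxD x' hx' x3 hx3 hadj h1 h2 h3⟩⟩
      rw [inter_comm]
      exact h3
    · exact ⟨x, fun h => absurd h hx⟩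
  choose p hp using hp
  have h1 : ∑ x ∈ lmmT G D B, f (p x) = ∑ x ∈ lmmT G D B, f x := by
    refine sum_nbij' p p (fun x hx => (hp x hx).1) (fun x hx => (hp x hx).1) ?_ ?_
      (fun x _ => rfl)
    · intro x hx
      obtain ⟨a1, a2, a3, a4, _⟩ := hp x hx
      obtain ⟨_, b2, _, b4, _⟩ := hp (p x) a1
      exact lmm_uniq hD a4 b4 a3 b2 a2.symm
    · intro x hx
      obtain ⟨a1, a2, a3, a4, _⟩ := hp x hx
      obtain ⟨_, b2, _, b4, _⟩ := hp (p x) a1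
      exact lmm_uniq hD a4 b4 a3 b2 a2.symm
  calc 2 * ∑ x ∈ lmmT G D B, f x = ∑ x ∈ lmmT G D B, (f x + f (p x)) := by
        rw [sum_add_distrib, h1]; ring
    _ ≤ ∑ _x ∈ lmmT G D B, c := sum_le_sum fun x hx => (hp x hx).2.2.2.2
    _ = (lmmT G D B).card * c := by rw [sum_const, nsmul_eq_mul]

theorem mm_data (h : LS G X Y B κ ρ s) (hMX : ∀ x ∈ X, dg G x (gd G X Y B κ ρ) ≤ 1)
    (hMY : ∀ y ∈ Y, dg G y (gd G Y X B κ ρ) ≤ 1) (hY : 80 * ρ * κ ≤ ee G Y Y) :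
    ∃ N1 β1 : ℝ, 0 ≤ N1 ∧ 0 ≤ β1 ∧ N1 ≤ ee G X X ∧
      (ee G X X : ℝ) ≤ N1 + 57 * ρ ^ 2 * κ ∧ β1 ≤ B.card * Y.card ∧
      2 * (SS G X Y B : ℝ) ≤ ((X.card : ℝ) - N1) * (4 * Y.card - ee G Y Y) + 44 * ρ ^ 4 * κ ^ 2
        + N1 * (β1 + Y.card - ee G Y Y / 2 + 7 / 2 * ρ ^ 2 * κ) ∧
      (ee G Y Y / 2 - 31 * ρ ^ 2 * κ) * (X.card * β1 - SS G X Y B) ≤
        (Y.card - (ee G Y Y / 2 - 31 * ρ ^ 2 * κ)) * DD G X Y B := by
  obtain ⟨hκ, _, _, _, hB, _⟩ := ls_size h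
  set D := gd G X Y B κ ρ with hDdef
  have hDX : D ⊆ X := lmm_gdX G X Y B κ ρ
  have hD1 : ∀ x ∈ D, dg G x D ≤ 1 := fun x hx => hMX x (hDX hx)
  set T := lmmT G D B with hT
  have hTD : T ⊆ D := filter_subset _ _
  set B1 := B.filter fun v => ∃ x ∈ D, 1 ≤ dg G x D ∧ G.Adj x v with hB1
  have hρ2 : 0 ≤ ρ ^ 2 * κ := mul_nonneg (sq_nonneg _) hκ.le
  have hYup := lmm_up h hMY
  refine ⟨T.card, ee G B1 Y, Nat.cast_nonneg _, Nat.cast_nonneg _, ?_, ?_, ?_, ?_, ?_⟩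
  · have h1 : T.card ≤ ee G X X := by
      calc T.card = ∑ _x ∈ T, 1 := by rw [sum_const, smul_eq_mul, mul_one]
        _ ≤ ∑ x ∈ T, dg G x D := by
            refine sum_le_sum fun x hx => ?_
            obtain ⟨_, x', hx', hadj, _⟩ := mem_filter.1 hx
            exact dg_pos.2 ⟨x', hx', hadj⟩
        _ ≤ ∑ x ∈ X, dg G x D := sum_le_sum_of_subset (hTD.trans hDX)
        _ ≤ ee G X X := sum_le_sum fun x _ => dg_mono x hDX
    exact_mod_cast h1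
  · have hI : D ∩ X = D := inter_eq_left.2 hDX
    have h1 := ls_typeM h (subset_refl X) (fun x hx => by rw [← hDdef, hI]; exact hMX x hx)
    rw [← hDdef, hI] at h1
    have h2 := lmm_count hD1 B
    have h3 : (ee G D D : ℝ) ≤ T.card + 2 * 2 ^ B.card := by exact_mod_cast h2
    have h4 := lmm_pow h
    linarith
  · have h1 : ee G B1 Y ≤ B.card * Y.card := by
      calc ee G B1 Y ≤ ee G B Y := ee_mono (filter_subset _ _) (subset_refl _)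
        _ ≤ B.card * Y.card := by
            have := ee_add_mm (G := G) B Y
            omega
    exact_mod_cast h1
  · -- (b)
    have hS : (SS G X Y B : ℝ) = ∑ x ∈ X \ T, (ee G (nb G x B) Y : ℝ) +
        ∑ x ∈ T, (ee G (nb G x B) Y : ℝ) := by
      rw [sum_sdiff (hTD.trans hDX), ls_S]
      push_cast
      rfl
    have h1 := ls_avg h (sdiff_subset : X \ T ⊆ X)
    have hc : ((X \ T).card : ℝ) = X.card - T.card := by
      rw [card_sdiff_of_subset (hTD.trans hDX), Nat.cast_sub (card_le_card (hTD.trans hDX))]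
    rw [hc] at h1
    have h2 := lmm_pair hD1 B (fun x => (ee G (nb G x B) Y : ℝ))
      (ee G B1 Y + Y.card - ee G Y Y / 2 + 7 / 2 * ρ ^ 2 * κ) (by
        intro x hx x' hx' x3 hx3 hadj h13 h23 hsub
        have e1 : ee G (nb G x B) Y + ee G (nb G x' B) Y =
            ee G (nb G x B ∪ nb G x' B) Y + ee G (nb G x B ∩ nb G x' B) Y := by
          unfold ee
          exact (sum_union_inter).symm
        have e2 : ee G (nb G x B ∪ nb G x' B) Y ≤ ee G B1 Y := by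
          refine ee_mono ?_ (subset_refl _)
          refine union_subset ?_ ?_
          · intro v hv
            have hv' := mem_nb.1 hv
            exact mem_filter.2 ⟨hv'.1, x, hx, dg_pos.2 ⟨x', hx', hadj⟩, hv'.2⟩
          · intro v hv
            have hv' := mem_nb.1 hv
            exact mem_filter.2 ⟨hv'.1, x', hx', dg_pos.2 ⟨x, hx, hadj.symm⟩, hv'.2⟩
        have e3 := mm_T1 h hx hx' hx3 hadj h13 h23 (A := nb G x B ∩ nb G x' B)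
          (inter_subset_left.trans (nb_subset _ _)) (by
            intro a ha
            have ha' := mem_inter.1 ha
            exact ⟨(mem_nb.1 ha'.1).2, (mem_nb.1 ha'.2).2, (mem_nb.1 (hsub ha)).2⟩)
        have e1' : (ee G (nb G x B) Y : ℝ) + ee G (nb G x' B) Y =
            ee G (nb G x B ∪ nb G x' B) Y + ee G (nb G x B ∩ nb G x' B) Y := by
          exact_mod_cast e1
        have e2' : (ee G (nb G x B ∪ nb G x' B) Y : ℝ) ≤ ee G B1 Y := by exact_mod_cast e2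
        show (ee G (nb G x B) Y : ℝ) + ee G (nb G x' B) Y ≤ _
        linarith)
    rw [← hT] at h2
    rw [hS]
    have e4 : ((X.card : ℝ) - T.card) * (4 * Y.card - ee G Y Y) =
        4 * ((X.card : ℝ) - T.card) * Y.card - ((X.card : ℝ) - T.card) * ee G Y Y := by ring
    rw [e4]
    linarith
  · -- (c)
    set P := (ee G Y Y : ℝ) / 2 - 31 * ρ ^ 2 * κ with hP
    have hρκ : 0 ≤ ρ * κ := mul_nonneg h.hρ.le hκ.le
    have hρ3 : ρ ^ 2 * κ ≤ 1 / 100 * (ρ * κ) := by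
      have : ρ ^ 2 * κ = ρ * (ρ * κ) := by ring
      rw [this]
      exact mul_le_mul_of_nonneg_right h.hρ1 hρκ
    have hP0 : 0 ≤ P := by
      rw [hP]
      linarith
    have hPY : 0 ≤ Y.card - P := by
      rw [hP]
      have : (0 : ℝ) ≤ Y.card := Nat.cast_nonneg _
      linarith
    have hms : ∀ v ∈ B1, P ≤ (ms G v Y).card := by
      intro v hv
      obtain ⟨hvB, x, hx, hdx, hadj⟩ := mem_filter.1 hv
      obtain ⟨x', hx', hadj'⟩ := dg_pos.1 (show 0 < dg G x D from hdx)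
      have := mm_hub h hMY hx hx' hvB hadj' hadj
      rw [hP]
      linarith
    have h1 : (DD G X Y B : ℝ) ≥ ∑ v ∈ B1, ((ms G v X).card : ℝ) * (ms G v Y).card := by
      unfold DD
      push_cast
      exact sum_le_sum_of_subset_of_nonneg (filter_subset _ _) fun _ _ _ => by positivity
    have h2 : P * ∑ v ∈ B1, ((ms G v X).card : ℝ) * dg G v Y ≤
        (Y.card - P) * ∑ v ∈ B1, ((ms G v X).card : ℝ) * (ms G v Y).card := by
      rw [mul_sum, mul_sum]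
      refine sum_le_sum fun v hv => ?_
      have e1 : (dg G v Y : ℝ) = Y.card - (ms G v Y).card := by
        have := dg_add_ms (G := G) v Y
        rw [← this]
        push_cast
        ring
      have e2 := hms v hv
      have e3 : P * dg G v Y ≤ (Y.card - P) * (ms G v Y).card := by
        rw [e1]
        have e4 : (0 : ℝ) ≤ Y.card * ((ms G v Y).card - P) :=
          mul_nonneg (Nat.cast_nonneg _) (by linarith)
        nlinarith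
      calc P * (((ms G v X).card : ℝ) * dg G v Y)
          = (ms G v X).card * (P * dg G v Y) := by ring
        _ ≤ (ms G v X).card * ((Y.card - P) * (ms G v Y).card) :=
            mul_le_mul_of_nonneg_left e3 (Nat.cast_nonneg _)
        _ = _ := by ring
    have h3 : (X.card : ℝ) * ee G B1 Y - SS G X Y B ≤
        ∑ v ∈ B1, ((ms G v X).card : ℝ) * dg G v Y := by
      have e1 : ∑ v ∈ B1, ((ms G v X).card : ℝ) * dg G v Y =
          X.card * ee G B1 Y - ∑ v ∈ B1, (dg G v X : ℝ) * dg G v Y := by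
        unfold ee
        push_cast
        rw [mul_sum, ← sum_sub_distrib]
        refine sum_congr rfl fun v _ => ?_
        have := dg_add_ms (G := G) v X
        have e2 : ((ms G v X).card : ℝ) = X.card - dg G v X := by
          rw [← this]
          push_cast
          ring
        rw [e2]
        ring
      have e3 : ∑ v ∈ B1, (dg G v X : ℝ) * dg G v Y ≤ SS G X Y B := by
        unfold SS
        push_cast
        exact sum_le_sum_of_subset_of_nonneg (filter_subset _ _) fun _ _ _ => by positivity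
      rw [e1]
      linarith
    calc P * ((X.card : ℝ) * ee G B1 Y - SS G X Y B)
        ≤ P * ∑ v ∈ B1, ((ms G v X).card : ℝ) * dg G v Y := mul_le_mul_of_nonneg_left h3 hP0
      _ ≤ (Y.card - P) * ∑ v ∈ B1, ((ms G v X).card : ℝ) * (ms G v Y).card := h2
      _ ≤ (Y.card - P) * DD G X Y B := mul_le_mul_of_nonneg_left h1 hPY

private theorem lmm_i6 {κ ρ δ x y S D b m j : ℝ} (hκ : 0 < κ) (hb : b ^ 2 + 2 ≤ ρ ^ 8 * κ)
    (hbδ : b * |δ| ≤ ρ ^ 8 / 2) (e4 : 0 ≤ m) (e5 : 0 ≤ j) (q8 : ρ ^ 8 ≤ 1 / 10000 * ρ ^ 3)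
    (p3 : 0 < ρ ^ 3)
    (hQ : 2 * (κ ^ 2 * D) + 2 * κ * m + κ * j / 2 ≤
      κ * (2 * κ * x + 2 * κ * y) + 2 * (κ ^ 2 * S) - 4 * κ ^ 2
      + 2 * κ * (b * (2 * κ * |δ|) + b ^ 2 + 2)) : D ≤ x + y + S - 2 + ρ ^ 3 := by
  have e2 : b * (2 * κ * |δ|) ≤ ρ ^ 8 * κ := by
    calc b * (2 * κ * |δ|) = 2 * κ * (b * |δ|) := by ring
      _ ≤ 2 * κ * (ρ ^ 8 / 2) := mul_le_mul_of_nonneg_left hbδ (by linarith)
      _ = ρ ^ 8 * κ := by ring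
  have e3 : 2 * κ * (b * (2 * κ * |δ|) + b ^ 2 + 2) ≤ 2 * κ * (2 * (ρ ^ 8 * κ)) :=
    mul_le_mul_of_nonneg_left (by linarith) (by linarith)
  have e6 := mul_nonneg hκ.le e4
  have e7 := mul_nonneg hκ.le e5
  have e8 : κ ^ 2 * (2 * D) ≤ κ ^ 2 * (2 * x + 2 * y + 2 * S - 4 + 4 * ρ ^ 8) := by
    calc κ ^ 2 * (2 * D) = 2 * (κ ^ 2 * D) := by ring
      _ ≤ κ * (2 * κ * x + 2 * κ * y) + 2 * (κ ^ 2 * S) - 4 * κ ^ 2 + 2 * κ * (2 * (ρ ^ 8 * κ)) := by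
          linarith
      _ = _ := by ring
  have e9 := le_of_mul_le_mul_left e8 (by positivity)
  linarith

private theorem lmm_i7 {κ ρ δ y S : ℝ} (hκ : 0 < κ) (hδ1 : |δ| ≤ ρ ^ 8 / 6)
    (hy0 : 0 ≤ y) (hy1 : y ≤ 1) (q4 : ρ ^ 4 ≤ 1 / 100 * ρ ^ 3) (q8 : ρ ^ 8 ≤ 1 / 10000 * ρ ^ 3)
    (p8 : 0 < ρ ^ 8)
    (hA : 2 * (κ ^ 2 * S) + κ * (1 + δ) * (2 * κ * y) ≤
      4 * (κ * (1 + δ)) * (κ * (1 - δ)) + 44 * ρ ^ 4 * κ ^ 2) : S ≤ 2 - y + ρ ^ 3 := by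
  have e1 : κ ^ 2 * (2 * S + (1 + δ) * (2 * y)) ≤
      κ ^ 2 * (4 * (1 - δ ^ 2) + 44 * ρ ^ 4) := by
    calc κ ^ 2 * (2 * S + (1 + δ) * (2 * y)) = 2 * (κ ^ 2 * S) + κ * (1 + δ) * (2 * κ * y) := by ring
      _ ≤ 4 * (κ * (1 + δ)) * (κ * (1 - δ)) + 44 * ρ ^ 4 * κ ^ 2 := hA
      _ = _ := by ring
  have e2 := le_of_mul_le_mul_left e1 (by positivity)
  have e4 : -(ρ ^ 8 / 6) ≤ δ * y := by
    have g1 : |δ * y| ≤ ρ ^ 8 / 6 := by
      rw [abs_mul, abs_of_nonneg hy0]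
      calc |δ| * y ≤ |δ| * 1 := mul_le_mul_of_nonneg_left hy1 (abs_nonneg _)
        _ ≤ ρ ^ 8 / 6 := by rw [mul_one]; exact hδ1
    exact (abs_le.1 g1).1
  have e5 := sq_nonneg δ
  have e6 : (1 + δ) * (2 * y) = 2 * y + 2 * (δ * y) := by ring
  linarith

private theorem lmm_i8 {κ ρ δ y S μ β : ℝ} (hκ : 0 < κ) (hδ1 : |δ| ≤ ρ ^ 8 / 6)
    (hy0 : 0 ≤ y) (hy1 : y ≤ 1) (hμ0 : 0 ≤ μ) (hμ1 : μ ≤ 51 / 100)
    (q4 : ρ ^ 4 ≤ 1 / 100 * ρ ^ 3) (q8 : ρ ^ 8 ≤ 1 / 10000 * ρ ^ 3)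
    (q82 : ρ ^ 8 ≤ 1 / 2 * ρ ^ 2) (q81 : ρ ^ 8 ≤ 1 / 10000) (p8 : 0 < ρ ^ 8)
    (hb : 2 * (κ ^ 2 * S) ≤ (κ * (1 + δ) - 2 * κ * μ) * (4 * (κ * (1 - δ)) - 2 * κ * y)
        + 44 * ρ ^ 4 * κ ^ 2
        + 2 * κ * μ * (κ * β + κ * (1 - δ) - 2 * κ * y / 2 + 7 / 2 * ρ ^ 2 * κ)) :
    S ≤ (1 - 2 * μ) * (2 - y) + μ * (β + 1 - y + 4 * ρ ^ 2) + ρ ^ 3 := by
  have e1 : κ ^ 2 * (2 * S) ≤ κ ^ 2 * ((1 + δ - 2 * μ) * (4 * (1 - δ) - 2 * y) + 44 * ρ ^ 4 +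
      2 * (μ * (β + (1 - δ) - y + 7 / 2 * ρ ^ 2))) := by
    calc κ ^ 2 * (2 * S) = 2 * (κ ^ 2 * S) := by ring
      _ ≤ _ := hb
      _ = _ := by ring
  have e2 := le_of_mul_le_mul_left e1 (by positivity)
  have e3 : (1 + δ - 2 * μ) * (4 * (1 - δ) - 2 * y) =
      2 * ((1 - 2 * μ) * (2 - y)) + δ * (8 * μ - 2 * y - 4 * δ) := by ring
  have hδl := neg_abs_le δ
  have hδu := le_abs_self δ
  have e4 : δ * (8 * μ - 2 * y - 4 * δ) ≤ ρ ^ 8 := by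
    have g1 : |8 * μ - 2 * y - 4 * δ| ≤ 6 := by
      rw [abs_le]
      constructor <;> linarith
    calc δ * (8 * μ - 2 * y - 4 * δ) ≤ |δ * (8 * μ - 2 * y - 4 * δ)| := le_abs_self _
      _ = |δ| * |8 * μ - 2 * y - 4 * δ| := abs_mul _ _
      _ ≤ (ρ ^ 8 / 6) * 6 := mul_le_mul hδ1 g1 (abs_nonneg _) (by positivity)
      _ = ρ ^ 8 := by ring
  have e5 : μ * (β + (1 - δ) - y + 7 / 2 * ρ ^ 2) ≤ μ * (β + 1 - y + 4 * ρ ^ 2) := by
    refine mul_le_mul_of_nonneg_left ?_ hμ0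
    linarith
  linarith

private theorem lmm_i9 {κ ρ δ P S D β b : ℝ} (hκ : 0 < κ) (hδ1 : |δ| ≤ ρ ^ 8 / 6)
    (hbδ : b * |δ| ≤ ρ ^ 8 / 2) (hb0 : 0 ≤ b) (q8 : ρ ^ 8 ≤ 1 / 10000 * ρ ^ 3)
    (q81 : ρ ^ 8 ≤ 1 / 10000) (p8 : 0 < ρ ^ 8) (hP0 : 0 ≤ P) (hP1 : P ≤ 1) (hβ0 : 0 ≤ β)
    (hD0 : 0 ≤ D) (hβB : κ * β ≤ b * (κ * (1 - δ))) (hDb : D ≤ b * ((1 + δ) * (1 - δ)))
    (hc : κ * P * (κ * (1 + δ) * (κ * β) - κ ^ 2 * S) ≤ (κ * (1 - δ) - κ * P) * (κ ^ 2 * D)) :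
    P * (β - S) - ρ ^ 3 ≤ (1 - P) * D := by
  have e1 : κ ^ 3 * (P * ((1 + δ) * β - S)) ≤ κ ^ 3 * ((1 - δ - P) * D) := by
    calc κ ^ 3 * (P * ((1 + δ) * β - S)) = κ * P * (κ * (1 + δ) * (κ * β) - κ ^ 2 * S) := by ring
      _ ≤ (κ * (1 - δ) - κ * P) * (κ ^ 2 * D) := hc
      _ = _ := by ring
  have e2 := le_of_mul_le_mul_left e1 (by positivity)
  have hδ0 := abs_nonneg δ
  have hδl := neg_abs_le δ
  have e3 : β ≤ b * (1 - δ) := by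
    have : κ * β ≤ κ * (b * (1 - δ)) := hβB.trans (le_of_eq (by ring))
    exact le_of_mul_le_mul_left this hκ
  have e4 : β ≤ b * 2 := e3.trans (mul_le_mul_of_nonneg_left (by linarith) hb0)
  have e5 : D ≤ b * 1 := by
    refine hDb.trans (mul_le_mul_of_nonneg_left ?_ hb0)
    have := sq_nonneg δ
    linarith [show (1 + δ) * (1 - δ) = 1 - δ ^ 2 by ring]
  have e6 : -(ρ ^ 8) ≤ P * (δ * β) := by
    have g1 : |P * (δ * β)| ≤ ρ ^ 8 := by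
      rw [abs_mul, abs_mul, abs_of_nonneg hP0, abs_of_nonneg hβ0]
      have g3 : 0 ≤ |δ| * β := mul_nonneg hδ0 hβ0
      calc P * (|δ| * β) ≤ 1 * (|δ| * β) := mul_le_mul_of_nonneg_right hP1 g3
        _ ≤ 1 * (|δ| * (b * 2)) :=
            mul_le_mul_of_nonneg_left (mul_le_mul_of_nonneg_left e4 hδ0) zero_le_one
        _ = 2 * (b * |δ|) := by ring
        _ ≤ ρ ^ 8 := by linarith
    exact (abs_le.1 g1).1
  have e7 : -(ρ ^ 8) ≤ δ * D := by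
    have g1 : |δ * D| ≤ ρ ^ 8 := by
      rw [abs_mul, abs_of_nonneg hD0]
      calc |δ| * D ≤ |δ| * (b * 1) := mul_le_mul_of_nonneg_left e5 hδ0
        _ = b * |δ| := by ring
        _ ≤ ρ ^ 8 := by linarith
    exact (abs_le.1 g1).1
  have e8 : P * ((1 + δ) * β - S) = P * (β - S) + P * (δ * β) := by ring
  have e9 : (1 - δ - P) * D = (1 - P) * D - δ * D := by ring
  rw [e8, e9] at e2
  linarith

theorem mm_false (h : LS G X Y B κ ρ s) (hMX : ∀ x ∈ X, dg G x (gd G X Y B κ ρ) ≤ 1)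
    (hMY : ∀ y ∈ Y, dg G y (gd G Y X B κ ρ) ≤ 1) (hX : 80 * ρ * κ ≤ ee G X X)
    (hXY : ee G X X ≤ ee G Y Y) : False := by
  obtain ⟨hκ, h36, hXc, hYc, hB, hs8⟩ := ls_size h
  have hXY' : (ee G X X : ℝ) ≤ ee G Y Y := by exact_mod_cast hXY
  obtain ⟨N1, β1, hN0, hβ0, hN1, hN2, hβB, hb, hc⟩ := mm_data h hMX hMY (hX.trans hXY')
  have hYup := lmm_up h hMY
  have hQ := ls_Q h
  have hA := ls_avg h (subset_refl X)
  have hSX : (∑ x ∈ X, (ee G (nb G x B) Y : ℝ)) = SS G X Y B := by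
    rw [ls_S]
    push_cast
    rfl
  rw [hSX] at hA
  -- normalised quantities
  obtain ⟨δ, hδ⟩ : ∃ δ, δ = ((X.card : ℝ) - Y.card) / (2 * κ) := ⟨_, rfl⟩
  have hXδ : (X.card : ℝ) = κ * (1 + δ) := by
    rw [hδ]; field_simp; linarith [h.hκ]
  have hYδ : (Y.card : ℝ) = κ * (1 - δ) := by
    rw [hδ]; field_simp; linarith [h.hκ]
  have hj := h.hj
  have hB0 : (0 : ℝ) ≤ B.card := Nat.cast_nonneg _
  have hjδ : (X.card : ℝ) - Y.card = 2 * κ * δ := by rw [hXδ, hYδ]; ring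
  have hjabs : |(X.card : ℝ) - Y.card| = 2 * κ * |δ| := by
    rw [hjδ, abs_mul, abs_of_pos (by linarith : 0 < 2 * κ)]
  rw [hjabs] at hj hQ
  have hδ0 := abs_nonneg δ
  have hbδ : ((B.card : ℝ) + 3) * (2 * |δ|) ≤ ρ ^ 8 := by
    have e1 : κ * (((B.card : ℝ) + 3) * (2 * |δ|)) ≤ κ * ρ ^ 8 := by
      have e2 : 0 ≤ ((B.card : ℝ) + 3) * s := mul_nonneg (by linarith) h.hs
      nlinarith
    exact le_of_mul_le_mul_left e1 hκ
  have hδ1 : |δ| ≤ ρ ^ 8 / 6 := by nlinarith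
  have hδb : (B.card : ℝ) * |δ| ≤ ρ ^ 8 / 2 := by nlinarith
  have hδl := neg_abs_le δ
  have hδu := le_abs_self δ
  obtain ⟨x, hx⟩ : ∃ x, x = (ee G X X : ℝ) / (2 * κ) := ⟨_, rfl⟩
  obtain ⟨y, hy⟩ : ∃ y, y = (ee G Y Y : ℝ) / (2 * κ) := ⟨_, rfl⟩
  obtain ⟨μ, hμ⟩ : ∃ μ, μ = N1 / (2 * κ) := ⟨_, rfl⟩
  obtain ⟨β, hβ⟩ : ∃ β, β = β1 / κ := ⟨_, rfl⟩
  obtain ⟨D, hD⟩ : ∃ D, D = (DD G X Y B : ℝ) / κ ^ 2 := ⟨_, rfl⟩
  obtain ⟨S, hS⟩ : ∃ S, S = (SS G X Y B : ℝ) / κ ^ 2 := ⟨_, rfl⟩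
  have ex : (ee G X X : ℝ) = 2 * κ * x := by rw [hx]; field_simp
  have ey : (ee G Y Y : ℝ) = 2 * κ * y := by rw [hy]; field_simp
  have eμ : N1 = 2 * κ * μ := by rw [hμ]; field_simp
  have eβ : β1 = κ * β := by rw [hβ]; field_simp
  have eD : (DD G X Y B : ℝ) = κ ^ 2 * D := by rw [hD]; field_simp
  have eS : (SS G X Y B : ℝ) = κ ^ 2 * S := by rw [hS]; field_simp
  have hD0 : 0 ≤ D := by rw [hD]; positivity
  have hβ0' : 0 ≤ β := by rw [hβ]; positivity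
  have hμ0 : 0 ≤ μ := by rw [hμ]; positivity
  have hDb : D ≤ B.card * ((1 + δ) * (1 - δ)) := by
    have e1 : (DD G X Y B : ℝ) ≤ B.card * (X.card * Y.card) := by
      unfold DD
      push_cast
      calc ∑ b ∈ B, ((ms G b X).card : ℝ) * (ms G b Y).card
          ≤ ∑ _b ∈ B, (X.card : ℝ) * Y.card := by
            refine sum_le_sum fun b _ => ?_
            have g1 : ((ms G b X).card : ℝ) ≤ X.card := by
              exact_mod_cast card_le_card (ms_subset b X)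
            have g2 : ((ms G b Y).card : ℝ) ≤ Y.card := by
              exact_mod_cast card_le_card (ms_subset b Y)
            exact mul_le_mul g1 g2 (Nat.cast_nonneg _) (Nat.cast_nonneg _)
        _ = _ := by rw [sum_const, nsmul_eq_mul]
    rw [eD, hXδ, hYδ] at e1
    have e2 : κ ^ 2 * D ≤ κ ^ 2 * (B.card * ((1 + δ) * (1 - δ))) := by
      refine e1.trans (le_of_eq ?_)
      ring
    exact le_of_mul_le_mul_left e2 (by positivity)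
  rw [ex] at hX hXY' hN1 hN2 hQ
  rw [ey] at hXY' hYup hQ hA hb hc
  rw [eμ] at hN1 hN2 hb
  rw [eβ] at hβB hb hc
  rw [eD] at hQ hc
  rw [eS] at hQ hA hb hc
  rw [hYδ] at hYup hA hβB hb hc
  rw [hXδ] at hA hb hc
  -- powers of ρ
  have hρ := h.hρ
  have hρ1 := h.hρ1
  have p2 : 0 < ρ ^ 2 := pow_pos hρ 2
  have p3 : 0 < ρ ^ 3 := pow_pos hρ 3
  have q4 : ρ ^ 4 ≤ 1 / 100 * ρ ^ 3 := by
    have : ρ ^ 4 = ρ * ρ ^ 3 := by ring
    rw [this]; exact mul_le_mul_of_nonneg_right hρ1 p3.le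
  have q8 : ρ ^ 8 ≤ 1 / 10000 * ρ ^ 3 := by
    have e1 : ρ ^ 8 = ρ ^ 5 * ρ ^ 3 := by ring
    rw [e1]
    refine mul_le_mul_of_nonneg_right ?_ p3.le
    have : ρ ^ 5 ≤ (1 / 100) ^ 5 := pow_le_pow_left₀ hρ.le hρ1 5
    have e2 : ((1 : ℝ) / 100) ^ 5 ≤ 1 / 10000 := by norm_num
    linarith
  have q32 : ρ ^ 3 ≤ 1 / 100 * ρ ^ 2 := by
    have : ρ ^ 3 = ρ * ρ ^ 2 := by ring
    rw [this]; exact mul_le_mul_of_nonneg_right hρ1 p2.le
  have q2 : ρ ^ 2 ≤ 1 / 10000 := by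
    have : ρ ^ 2 ≤ (1 / 100) ^ 2 := pow_le_pow_left₀ hρ.le hρ1 2
    have e2 : ((1 : ℝ) / 100) ^ 2 = 1 / 10000 := by norm_num
    linarith
  have p8 : 0 < ρ ^ 8 := pow_pos hρ 8
  -- the inequalities between the normalised quantities
  have i1 : 40 * ρ ≤ x := by
    have : 2 * κ * (40 * ρ) ≤ 2 * κ * x := le_trans (le_of_eq (by ring)) hX
    exact le_of_mul_le_mul_left this (by linarith)
  have i2 : x ≤ y := le_of_mul_le_mul_left hXY' (by linarith)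
  have i3 : y ≤ 1 / 2 + 28 * ρ ^ 2 + ρ ^ 8 := by
    have : κ * (2 * y) ≤ κ * (1 - δ + 56 * ρ ^ 2) := by
      calc κ * (2 * y) = 2 * κ * y := by ring
        _ ≤ _ := hYup
        _ = _ := by ring
    have := le_of_mul_le_mul_left this hκ
    linarith
  have i4 : μ ≤ x := le_of_mul_le_mul_left hN1 (by linarith)
  have i5 : x ≤ μ + 57 / 2 * ρ ^ 2 := by
    have : κ * (2 * x) ≤ κ * (2 * μ + 57 * ρ ^ 2) := by
      calc κ * (2 * x) = 2 * κ * x := by ring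
        _ ≤ _ := hN2
        _ = _ := by ring
    have := le_of_mul_le_mul_left this hκ
    linarith
  have hy1 : y ≤ 51 / 100 := by linarith
  have hy0 : 0 ≤ y := by linarith
  have hμ1 : μ ≤ 51 / 100 := by linarith
  have e1 : (B.card : ℝ) ^ 2 + 2 ≤ ρ ^ 8 * κ := by
    have g1 := h.hb
    have g2 : (1 : ℝ) ≤ 2 ^ (B.card + 2) := one_le_pow₀ (by norm_num)
    have g3 : ((B.card : ℝ) + 3) ^ 2 * 1 ≤ ((B.card : ℝ) + 3) ^ 2 * 2 ^ (B.card + 2) :=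
      mul_le_mul_of_nonneg_left g2 (sq_nonneg _)
    have g4 : ((B.card : ℝ) + 3) ^ 2 = (B.card : ℝ) ^ 2 + 6 * B.card + 9 := by ring
    linarith
  have i6 := lmm_i6 hκ e1 hδb (m := mm G X Y) (j := ((X.card : ℝ) - Y.card) ^ 2)
    (Nat.cast_nonneg _) (sq_nonneg _) q8 p3 hQ
  have i7 := lmm_i7 hκ hδ1 hy0 (by linarith) q4 q8 p8 hA
  have i8 := lmm_i8 hκ hδ1 hy0 (by linarith) hμ0 hμ1 q4 q8 (by linarith) (by linarith) p8 hb
  have i9 : (y - 31 * ρ ^ 2) * (β - S) - ρ ^ 3 ≤ (1 - (y - 31 * ρ ^ 2)) * D := by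
    have e0 : 2 * κ * y / 2 - 31 * ρ ^ 2 * κ = κ * (y - 31 * ρ ^ 2) := by ring
    rw [e0] at hc
    have hsq : ρ ^ 2 ≤ 1 / 100 * ρ := by
      calc ρ ^ 2 = ρ * ρ := by ring
        _ ≤ 1 / 100 * ρ := mul_le_mul_of_nonneg_right hρ1 hρ.le
    exact lmm_i9 hκ hδ1 hδb hB0 q8 (by linarith) p8 (by linarith) (by linarith) hβ0' hD0 hβB hDb hc
  exact mm_num hρ hρ1 i1 i2 (by linarith) i4 (by linarith) hD0 i6 i7 i8 i9

end Pool.Agent.Lib.MP_a3b162_co.CS
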