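import Pool.Agent.Lib.MP_a3b162_co.CS.LAvg
import Pool.Agent.Lib.MP_a3b162_co.CS.LType

/-!
MODULE LSSb (90 min).  Bound for `DD` from a small cover `C` of `X` (`|C|² ≤ mm G X Y`).
`Gd = gd G X Y B κ ρ`, `b = |B|`.

`ss_share`: three good common neighbours of `c ≠ c'` in `X`: `t0_err` with `A = {c, c'}` (`β = b + 2`):
`ee Y Y + 2 ee A Y ≤ 4 (|Y| + 2) + 6 ρ²κ`, `ee A Y = dg c Y + dg c' Y ≥ 2 (|Y| - 1.01 ρ^4 κ)` (`ls_M`), so
`ee Y Y ≤ 8 + 6 ρ²κ + 4.04 ρ^4 κ < 80 ρ κ`.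
`ss_leaf`: `t0_err` with `A ∪ {c}` (`c ∉ B`, `c ∉ Y`).
`ss_count`: `W = {x ∈ Gd \ C : ∃ c ∈ C, c ~ x, and at least three x' ∈ Gd \ C with c ~ x',
nb x' B = nb x B}`.  For `x ∈ W`: `ss_leaf` with the three (`A = nb x B`).
`ee X X = ee (X\C) (X\C) + 2 ee C (X\C) + ee C C`; with `N = X \ Gd`:
`ee C C + 2 ee C (N \ C) ≤ ee (C ∪ N) (C ∪ N) ≤ 6 (|C| + 7 ρ²κ)` (`ls_edges`, `ls_nongood`), and
`ee C (Gd \ C) ≤ ee C W + 2 · 2^b |C| ≤ |W| + |C|² + 2^(b+1) |C|` (`ee_comm`, `ee_le_of_share` with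
`ss_share`; for every `c ∈ C` and every class `A ⊆ B` with at most two neighbours of `c` in
`Gd \ C` there are at most two pairs `c x`).  `|C|² ≤ mm ≤ 4κ` (`ls_L1`, `ls_edges`), so
`(6 + 2^(b+2)) |C| ≤ 2^(b+4) √κ ≤ 2 ρ^8 κ` (`hb2`: `4^(b+3) ≤ ρ^16 κ`).
Total: `ee X X ≤ 2 |W| + 2 |C|² + (64 + 42) ρ²κ + 2 ρ^8 κ`.
`ss_bound`: `2 SS = 2 ∑_{x ∈ X} ee (nb x B) Y` (`ls_S`) `≤` (`ls_avg` for `X \ W`, `ss_count` for `W`)
`4 |X \ W||Y| - |X \ W| ee Y Y + 44 ρ^4 κ² + |W| (2 |Y| - ee Y Y + 7 ρ²κ)`.  Insert in `ls_Q`, with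
`ee X X ≤ 2|W| + 2 mm + 107 ρ²κ`, `|X||Y| ≤ κ²`, `||X| - κ|, ||Y| - κ| ≤ ρ^8 κ`:
`2 DD ≤ 107 ρ²κ² + 7.1 ρ²κ² + 45 ρ^4κ² + ... ≤ 116 ρ²κ²`.
-/

set_option autoImplicit false

namespace Pool.Agent.Lib.MP_a3b162_co.CS

open Finset
open scoped Classical

variable {V : Type} {G : SimpleGraph V} {X Y B : Finset V} {κ ρ s : ℝ}

private theorem lssb_pow (h : LS G X Y B κ ρ s) : 0 < κ ∧ 0 < ρ * κ ∧ 0 < ρ ^ 2 * κ ∧
    ρ ^ 2 * κ ≤ ρ * κ / 100 ∧ 0 ≤ ρ ^ 4 * κ ∧ ρ ^ 4 * κ ≤ ρ ^ 2 * κ / 10 ^ 4 ∧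
    ρ ^ 8 * κ ≤ ρ ^ 2 * κ / 10 ^ 12 := by
  have hκ := (ls_size h).1
  have hρ := h.hρ
  have hρ1 := h.hρ1
  have h2 : ρ ^ 2 ≤ (1 / 100) ^ 2 := pow_le_pow_left₀ hρ.le hρ1 2
  have h6 : ρ ^ 6 ≤ (1 / 100) ^ 6 := pow_le_pow_left₀ hρ.le hρ1 6
  have hk2 : 0 < ρ ^ 2 * κ := by positivity
  have hk1 : 0 < ρ * κ := by positivity
  refine ⟨hκ, hk1, hk2, ?_, by positivity, ?_, ?_⟩
  · have := mul_le_mul_of_nonneg_right hρ1 hk1.le
    nlinarith
  · have := mul_le_mul_of_nonneg_right h2 hk2.le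
    nlinarith
  · have := mul_le_mul_of_nonneg_right h6 hk2.le
    nlinarith

private theorem lssb_gd {x : V} (hx : x ∈ gd G X Y B κ ρ) :
    x ∈ X ∧ (err G Y (B.card + 2) x : ℝ) ≤ ρ ^ 2 * κ := by
  rw [gd, mem_filter] at hx
  exact hx

theorem ss_share (h : LS G X Y B κ ρ s) (hY : 80 * ρ * κ ≤ ee G Y Y) {c c' : V} (hc : c ∈ X)
    (hc' : c' ∈ X) (hne : c ≠ c') :
    ((gd G X Y B κ ρ).filter fun x => G.Adj c x ∧ G.Adj c' x).card ≤ 2 := by
  by_contra hcon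
  push Not at hcon
  obtain ⟨x1, m1, x2, m2, x3, m3, h12, h13, h23⟩ := two_lt_card.1 hcon
  obtain ⟨g1, a1, b1⟩ := mem_filter.1 m1
  obtain ⟨g2, a2, b2⟩ := mem_filter.1 m2
  obtain ⟨g3, a3, b3⟩ := mem_filter.1 m3
  have hcY : c ∉ Y := disjoint_left.1 h.dXY hc
  have hcY' : c' ∉ Y := disjoint_left.1 h.dXY hc'
  have hdis : Disjoint ({c, c'} : Finset V) Y := by
    rw [disjoint_left]
    intro x hx
    rcases mem_insert.1 hx with rfl | hx
    · exact hcY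
    · rw [mem_singleton.1 hx]; exact hcY'
  have hAd : ∀ a ∈ ({c, c'} : Finset V), G.Adj x1 a ∧ G.Adj x2 a ∧ G.Adj x3 a := by
    intro a ha
    rcases mem_insert.1 ha with rfl | ha
    · exact ⟨a1.symm, a2.symm, a3.symm⟩
    · rw [mem_singleton.1 ha]; exact ⟨b1.symm, b2.symm, b3.symm⟩
  have hcard : ({c, c'} : Finset V).card = 2 := card_pair hne
  have ht := t0_err h.geo (β := B.card + 2) h12 h13 h23 hdis hAd (by omega)
  rw [hcard] at ht
  have hee : ee G ({c, c'} : Finset V) Y = dg G c Y + dg G c' Y := by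
    unfold ee
    rw [sum_pair hne]
  rw [hee] at ht
  have e1 := (lssb_gd g1).2
  have e2 := (lssb_gd g2).2
  have e3 := (lssb_gd g3).2
  have m1' := ls_M h c hc
  have m2' := ls_M h c' hc'
  have d1 := dg_add_ms (G := G) c Y
  have d2 := dg_add_ms (G := G) c' Y
  have d1' : (dg G c Y : ℝ) + (ms G c Y).card = Y.card := by exact_mod_cast d1
  have d2' : (dg G c' Y : ℝ) + (ms G c' Y).card = Y.card := by exact_mod_cast d2
  have ht' : (ee G Y Y : ℝ) + 2 * ((dg G c Y : ℝ) + dg G c' Y) ≤ 4 * (Y.card + 2) +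
      2 * ((err G Y (B.card + 2) x1 : ℝ) + err G Y (B.card + 2) x2 + err G Y (B.card + 2) x3) := by
    exact_mod_cast ht
  obtain ⟨hκ, hk1, hk2, p1, p40, p2, p3⟩ := lssb_pow h
  have h36 := (ls_size h).2.1
  linarith

theorem ss_leaf (h : LS G X Y B κ ρ s) {c x1 x2 x3 : V} (hc : c ∈ X)
    (h1 : x1 ∈ gd G X Y B κ ρ) (h2 : x2 ∈ gd G X Y B κ ρ) (h3 : x3 ∈ gd G X Y B κ ρ)
    (h12 : x1 ≠ x2) (h13 : x1 ≠ x3) (h23 : x2 ≠ x3) (a1 : G.Adj c x1) (a2 : G.Adj c x2)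
    (a3 : G.Adj c x3) {A : Finset V} (hA : A ⊆ B)
    (hAx : ∀ a ∈ A, G.Adj x1 a ∧ G.Adj x2 a ∧ G.Adj x3 a) :
    (ee G Y Y : ℝ) + 2 * ee G A Y ≤ 2 * Y.card + 7 * ρ ^ 2 * κ := by
  have hcY : c ∉ Y := disjoint_left.1 h.dXY hc
  have hcA : c ∉ A := fun hcA => disjoint_left.1 h.dXB hc (hA hcA)
  have hdis : Disjoint (insert c A) Y := by
    rw [disjoint_left]
    intro x hx hxY
    rcases mem_insert.1 hx with rfl | hx
    · exact hcY hxY
    · exact disjoint_left.1 h.dYB hxY (hA hx)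
  have hAd : ∀ a ∈ insert c A, G.Adj x1 a ∧ G.Adj x2 a ∧ G.Adj x3 a := by
    intro a ha
    rcases mem_insert.1 ha with rfl | ha
    · exact ⟨a1.symm, a2.symm, a3.symm⟩
    · exact hAx a ha
  have hcardA : A.card ≤ B.card := card_le_card hA
  have hcard : (insert c A).card = A.card + 1 := card_insert_of_notMem hcA
  have ht := t0_err h.geo (β := B.card + 2) h12 h13 h23 hdis hAd (by omega)
  rw [hcard] at ht
  have hee : ee G (insert c A) Y = dg G c Y + ee G A Y := by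
    unfold ee
    rw [sum_insert hcA]
  rw [hee] at ht
  have e1 := (lssb_gd h1).2
  have e2 := (lssb_gd h2).2
  have e3 := (lssb_gd h3).2
  have m1' := ls_M h c hc
  have d1 := dg_add_ms (G := G) c Y
  have d1' : (dg G c Y : ℝ) + (ms G c Y).card = Y.card := by exact_mod_cast d1
  have ht' : (ee G Y Y : ℝ) + 2 * ((dg G c Y : ℝ) + ee G A Y) ≤ 4 * (Y.card + (A.card + 1)) +
      2 * ((err G Y (B.card + 2) x1 : ℝ) + err G Y (B.card + 2) x2 + err G Y (B.card + 2) x3) := by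
    exact_mod_cast ht
  have hAB : (A.card : ℝ) ≤ B.card := by exact_mod_cast hcardA
  obtain ⟨hκ, hk1, hk2, p1, p40, p2, p3⟩ := lssb_pow h
  have hb := (ls_size h).2.2.2.2.1
  linarith

private theorem lssb_class (G : SimpleGraph V) (B S W : Finset V) (c : V)
    (hW : ∀ x ∈ S, G.Adj c x → 3 ≤ (S.filter fun x' => G.Adj c x' ∧ nb G x' B = nb G x B).card →
      x ∈ W) : dg G c S ≤ dg G c W + 2 * 2 ^ B.card := by
  have h1 : (nb G c S \ nb G c W).card ≤ 2 * B.powerset.card := by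
    refine card_le_mul_card_image_of_maps_to (f := fun x => nb G x B) ?_ 2 ?_
    · intro x _
      exact mem_powerset.2 (nb_subset _ _)
    · intro A _
      by_contra hcon
      push Not at hcon
      obtain ⟨x, hx⟩ := card_pos.1 (lt_of_le_of_lt (Nat.zero_le _) hcon)
      obtain ⟨hx1, hx2⟩ := mem_filter.1 hx
      obtain ⟨hx3, hx4⟩ := mem_sdiff.1 hx1
      obtain ⟨hxS, hcx⟩ := mem_nb.1 hx3
      apply hx4
      refine mem_nb.2 ⟨hW x hxS hcx ?_, hcx⟩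
      refine (Nat.succ_le_of_lt hcon).trans (card_le_card ?_)
      intro z hz
      obtain ⟨hz1, hz2⟩ := mem_filter.1 hz
      obtain ⟨hz3, _⟩ := mem_sdiff.1 hz1
      obtain ⟨hz4, hz5⟩ := mem_nb.1 hz3
      exact mem_filter.2 ⟨hz4, hz5, hz2.trans hx2.symm⟩
  rw [card_powerset] at h1
  have h2 : (nb G c S).card ≤ (nb G c S \ nb G c W).card + (nb G c W).card := by
    refine (card_le_card ?_).trans (card_union_le _ _)
    intro x hx
    by_cases hxW : x ∈ nb G c W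
    · exact mem_union_right _ hxW
    · exact mem_union_left _ (mem_sdiff.2 ⟨hx, hxW⟩)
  unfold dg
  omega

theorem ss_count (h : LS G X Y B κ ρ s) (hY : 80 * ρ * κ ≤ ee G Y Y) {C : Finset V} (hC : C ⊆ X)
    (hcov : (ee G (X \ C) (X \ C) : ℝ) ≤ 64 * ρ ^ 2 * κ)
    (hCm : C.card * C.card ≤ mm G X Y) :
    ∃ W ⊆ X, (∀ x ∈ W, (ee G Y Y : ℝ) + 2 * ee G (nb G x B) Y ≤ 2 * Y.card + 7 * ρ ^ 2 * κ) ∧
      (ee G X X : ℝ) ≤ 2 * W.card + 2 * mm G X Y + 107 * ρ ^ 2 * κ := by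
  set Gd := gd G X Y B κ ρ with hGd
  have hGdX : Gd ⊆ X := fun x hx => (lssb_gd hx).1
  set S := Gd \ C with hS
  have hSX : S ⊆ X := sdiff_subset.trans hGdX
  set W := S.filter (fun x => ∃ c ∈ C, G.Adj c x ∧
    3 ≤ (S.filter fun x' => G.Adj c x' ∧ nb G x' B = nb G x B).card) with hWdef
  have hWS : W ⊆ S := filter_subset _ _
  refine ⟨W, hWS.trans hSX, ?_, ?_⟩
  · intro x hx
    obtain ⟨_, c, hc, hcx, h3⟩ := mem_filter.1 hx
    obtain ⟨x1, m1, x2, m2, x3, m3, h12, h13, h23⟩ :=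
      two_lt_card.1 (show 2 < _ from lt_of_lt_of_le (by norm_num) h3)
    obtain ⟨s1, a1, n1⟩ := mem_filter.1 m1
    obtain ⟨s2, a2, n2⟩ := mem_filter.1 m2
    obtain ⟨s3, a3, n3⟩ := mem_filter.1 m3
    refine ss_leaf h (hC hc) (mem_sdiff.1 s1).1 (mem_sdiff.1 s2).1 (mem_sdiff.1 s3).1 h12 h13 h23
      a1 a2 a3 (nb_subset _ _) ?_
    intro a ha
    refine ⟨?_, ?_, ?_⟩
    · rw [← n1] at ha; exact (mem_nb.1 ha).2
    · rw [← n2] at ha; exact (mem_nb.1 ha).2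
    · rw [← n3] at ha; exact (mem_nb.1 ha).2
  · -- the count
    have hclass : ∀ c ∈ C, dg G c S ≤ dg G c W + 2 * 2 ^ B.card := by
      intro c hc
      refine lssb_class G B S W c ?_
      intro x hxS hcx h3
      exact mem_filter.2 ⟨hxS, c, hc, hcx, h3⟩
    have hCS : ee G C S ≤ ee G C W + C.card * (2 * 2 ^ B.card) := by
      unfold ee
      refine (sum_le_sum hclass).trans ?_
      rw [sum_add_distrib, sum_const, smul_eq_mul]
    have hCW : ee G C W ≤ W.card + C.card * C.card := by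
      rw [ee_comm]
      refine ee_le_of_share ?_
      intro p hp q hq hpq
      refine (card_le_card ?_).trans (ss_share h hY (hC hp) (hC hq) hpq)
      exact filter_subset_filter _ (hWS.trans sdiff_subset)
    set N := X \ Gd with hN
    have hsplit1 : X \ C = S ∪ (N \ C) := by
      ext x
      simp only [hS, hN, mem_sdiff, mem_union]
      constructor
      · rintro ⟨hx, hxC⟩
        by_cases hg : x ∈ Gd
        · exact Or.inl ⟨hg, hxC⟩
        · exact Or.inr ⟨⟨hx, hg⟩, hxC⟩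
      · rintro (⟨hg, hxC⟩ | ⟨⟨hx, _⟩, hxC⟩)
        · exact ⟨hGdX hg, hxC⟩
        · exact ⟨hx, hxC⟩
    have hdis1 : Disjoint S (N \ C) := by
      rw [disjoint_left]
      intro x hx hx'
      exact (mem_sdiff.1 (mem_sdiff.1 hx').1).2 (mem_sdiff.1 hx).1
    have e1 : ee G X X = ee G (X \ C) (X \ C) + 2 * ee G (X \ C) C + ee G C C := by
      conv_lhs => rw [← sdiff_union_of_subset hC]
      exact ee_union_self disjoint_sdiff_self_left
    have e2 : ee G (X \ C) C = ee G C S + ee G C (N \ C) := by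
      rw [ee_comm, hsplit1, ee_union_right _ hdis1]
    have e3 : ee G (N \ C ∪ C) (N \ C ∪ C) =
        ee G (N \ C) (N \ C) + 2 * ee G (N \ C) C + ee G C C :=
      ee_union_self disjoint_sdiff_self_left
    have e4 : ee G (N \ C ∪ C) (N \ C ∪ C) ≤ 6 * (N \ C ∪ C).card :=
      ls_edges h (union_subset (sdiff_subset.trans sdiff_subset) hC)
    have e5 : (N \ C ∪ C).card ≤ N.card + C.card :=
      (card_union_le _ _).trans (Nat.add_le_add_right (card_le_card sdiff_subset) _)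
    rw [ee_comm (N \ C) C] at e3
    have hNc : (N.card : ℝ) ≤ 7 * ρ ^ 2 * κ := ls_nongood h
    -- everything in naturals
    have hnat : ee G X X ≤ ee G (X \ C) (X \ C) + 6 * (N.card + C.card) + 2 * W.card +
        2 * mm G X Y + C.card * (4 * 2 ^ B.card) := by
      have : C.card * (4 * 2 ^ B.card) = 2 * (C.card * (2 * 2 ^ B.card)) := by ring
      rw [this]
      generalize C.card * (2 * 2 ^ B.card) = t at *
      omega
    have hreal : (ee G X X : ℝ) ≤ ee G (X \ C) (X \ C) + 6 * (N.card + C.card) + 2 * W.card +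
        2 * mm G X Y + C.card * (4 * 2 ^ B.card) := by exact_mod_cast hnat
    obtain ⟨hκ, hk1, hk2, p1, p40, p2, p3⟩ := lssb_pow h
    obtain ⟨_, h36, hX1, hY1, hb1, hs1⟩ := ls_size h
    -- mm ≤ 4 κ
    have hmm : (mm G X Y : ℝ) ≤ 4 * κ := by
      have hL := ls_L1 h
      have hE : (ee G X X : ℝ) ≤ 6 * X.card := by exact_mod_cast ls_edges h (Subset.refl X)
      have hXc : (X.card : ℝ) ≤ κ + ρ ^ 8 * κ := by
        have := abs_le.1 hX1
        linarith [this.2]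
      have hD : (0 : ℝ) ≤ DD G X Y B := Nat.cast_nonneg _
      have hj : 0 ≤ κ * ((X.card : ℝ) - Y.card) ^ 2 / 2 := by positivity
      have h1 : κ * (2 * (mm G X Y : ℝ)) ≤ κ * (ee G X X + 50 * (ρ ^ 4 * κ)) := by linarith
      have h2 := le_of_mul_le_mul_left h1 hκ
      have h3 : ρ ^ 2 * κ ≤ κ := by
        have : ρ ^ 2 ≤ 1 := pow_le_one₀ h.hρ.le (by linarith [h.hρ1])
        nlinarith
      linarith
    have hCC : (C.card : ℝ) ^ 2 ≤ 4 * κ := by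
      have : (C.card : ℝ) * C.card ≤ mm G X Y := by exact_mod_cast hCm
      rw [pow_two]
      linarith
    have hpow1 : (1 : ℝ) ≤ 2 ^ B.card := one_le_pow₀ (by norm_num)
    have hfac : (6 + 4 * (2 : ℝ) ^ B.card) ^ 2 ≤ 4 ^ (B.card + 4) := by
      have h1 : (6 + 4 * (2 : ℝ) ^ B.card) ≤ 10 * 2 ^ B.card := by linarith
      have h2 : (6 + 4 * (2 : ℝ) ^ B.card) ^ 2 ≤ (10 * 2 ^ B.card) ^ 2 :=
        pow_le_pow_left₀ (by positivity) h1 2
      refine h2.trans ?_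
      have h3 : ((2 : ℝ) ^ B.card) ^ 2 = 4 ^ B.card := by
        rw [← pow_mul, mul_comm, pow_mul]
        norm_num
      rw [mul_pow, h3, pow_add]
      have h4 : (0 : ℝ) < 4 ^ B.card := by positivity
      norm_num
      linarith
    have hfin : (C.card : ℝ) * (6 + 4 * 2 ^ B.card) ≤ 4 * (ρ ^ 8 * κ) := by
      apply le_of_sq_le_sq _ (by positivity)
      have hb2 := h.hb2
      calc ((C.card : ℝ) * (6 + 4 * 2 ^ B.card)) ^ 2
          = (C.card : ℝ) ^ 2 * (6 + 4 * 2 ^ B.card) ^ 2 := by ring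
        _ ≤ (4 * κ) * 4 ^ (B.card + 4) :=
            mul_le_mul hCC hfac (by positivity) (by positivity)
        _ = 16 * κ * 4 ^ (B.card + 3) := by rw [pow_succ 4 (B.card + 3)]; ring
        _ ≤ 16 * κ * (ρ ^ 16 * κ) := mul_le_mul_of_nonneg_left hb2 (by positivity)
        _ = (4 * (ρ ^ 8 * κ)) ^ 2 := by ring
    linarith

theorem ss_bound (h : LS G X Y B κ ρ s) (hY : 80 * ρ * κ ≤ ee G Y Y) {C : Finset V} (hC : C ⊆ X)
    (hcov : (ee G (X \ C) (X \ C) : ℝ) ≤ 64 * ρ ^ 2 * κ)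
    (hCm : C.card * C.card ≤ mm G X Y) :
    (DD G X Y B : ℝ) ≤ 60 * ρ ^ 2 * κ ^ 2 := by
  obtain ⟨W, hWX, hleaf, hcount⟩ := ss_count h hY hC hcov hCm
  obtain ⟨hκ, hk1, hk2, p1, p40, p2, p3⟩ := lssb_pow h
  obtain ⟨_, h36, hX1, hY1, hb1, hs1⟩ := ls_size h
  have hQ := ls_Q h
  have hav := ls_avg h (sdiff_subset : X \ W ⊆ X)
  -- SS
  have hSS : (SS G X Y B : ℝ) = (∑ x ∈ X \ W, (ee G (nb G x B) Y : ℝ)) +
      ∑ x ∈ W, (ee G (nb G x B) Y : ℝ) := by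
    rw [sum_sdiff hWX, ls_S]
    push_cast
    rfl
  have hWsum : 2 * (∑ x ∈ W, (ee G (nb G x B) Y : ℝ)) ≤
      W.card * (2 * Y.card + 7 * ρ ^ 2 * κ - ee G Y Y) := by
    rw [mul_sum, ← nsmul_eq_mul, ← sum_const]
    refine sum_le_sum fun x hx => ?_
    have := hleaf x hx
    linarith
  have hXW : ((X \ W).card : ℝ) = X.card - W.card := by
    have := card_sdiff_add_card_eq_card hWX
    have h' : ((X \ W).card : ℝ) + W.card = X.card := by exact_mod_cast this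
    linarith
  rw [hXW] at hav
  have hWc : (W.card : ℝ) ≤ X.card := by exact_mod_cast card_le_card hWX
  have hW0 : (0 : ℝ) ≤ W.card := Nat.cast_nonneg _
  have hE : (ee G Y Y : ℝ) ≤ 6 * Y.card := by exact_mod_cast ls_edges h.symm (Subset.refl Y)
  have hE0 : (0 : ℝ) ≤ ee G Y Y := Nat.cast_nonneg _
  have hb := h.hb
  have hj := h.hj
  have hs := h.hs
  have hκ2 := h.hκ
  -- sizes
  have hb2 : ((B.card : ℝ)) ^ 2 ≤ ρ ^ 8 * κ := by
    refine le_trans ?_ hb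
    have hB0 : (0 : ℝ) ≤ B.card := Nat.cast_nonneg _
    have h1 : (B.card : ℝ) ^ 2 ≤ ((B.card : ℝ) + 3) ^ 2 := pow_le_pow_left₀ hB0 (by linarith) 2
    have h2 : (1 : ℝ) ≤ 2 ^ (B.card + 2) := one_le_pow₀ (by norm_num)
    have h3 : 0 ≤ ((B.card : ℝ) + 3) ^ 2 := by positivity
    calc (B.card : ℝ) ^ 2 ≤ ((B.card : ℝ) + 3) ^ 2 * 1 := by linarith
      _ ≤ _ := mul_le_mul_of_nonneg_left h2 h3
  have hbj : (B.card : ℝ) * |(X.card : ℝ) - Y.card| ≤ ρ ^ 8 * κ := by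
    refine le_trans ?_ hj
    have hB0 : (0 : ℝ) ≤ B.card := Nat.cast_nonneg _
    exact mul_le_mul (by linarith) (by linarith) (abs_nonneg _) (by positivity)
  have hXb := abs_le.1 hX1
  have hYb := abs_le.1 hY1
  set x : ℝ := (X.card : ℝ) with hx
  set y : ℝ := (Y.card : ℝ) with hy
  set w : ℝ := (W.card : ℝ) with hw
  set e : ℝ := (ee G Y Y : ℝ) with he
  set q : ℝ := ρ ^ 8 * κ with hq
  set r : ℝ := ρ ^ 2 * κ with hr
  have hq0 : 0 ≤ q := by linarith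
  have hrκ : r ≤ κ := by
    have : ρ ^ 2 ≤ 1 := pow_le_one₀ h.hρ.le (by linarith [h.hρ1])
    rw [hr]
    nlinarith
  have hqκ : q ≤ κ / 10 ^ 12 := by linarith
  have t1 : w * (κ - y) ≤ (2 * κ) * q := by
    have h1 : w * (κ - y) ≤ w * q := mul_le_mul_of_nonneg_left (by linarith [hYb.1]) hW0
    have h2 : w * q ≤ (2 * κ) * q := mul_le_mul_of_nonneg_right (by linarith [hXb.2]) hq0
    linarith
  have t2 : (κ - x) * e ≤ q * (12 * κ) := by
    have h1 : (κ - x) * e ≤ q * e := mul_le_mul_of_nonneg_right (by linarith [hXb.1]) hE0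
    have h2 : q * e ≤ q * (12 * κ) := mul_le_mul_of_nonneg_left (by linarith [hYb.2]) hq0
    linarith
  have t3 : x * y ≤ κ ^ 2 := by
    have : κ = (x + y) / 2 := by linarith
    rw [this]
    nlinarith [sq_nonneg (x - y)]
  have t4 : r * w ≤ r * (κ + q) := mul_le_mul_of_nonneg_left (by linarith [hXb.2]) hk2.le
  have t5 : ρ ^ 4 * κ ^ 2 ≤ r * κ / 10 ^ 4 := by
    have : ρ ^ 4 * κ ^ 2 = (ρ ^ 4 * κ) * κ := by ring
    rw [this]
    have := mul_le_mul_of_nonneg_right p2 hκ.le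
    linarith
  have t6 : κ * (B.card * |x - y| + (B.card : ℝ) ^ 2 + 2) ≤ κ * (3 * q) :=
    mul_le_mul_of_nonneg_left (by linarith) hκ.le
  have t7 : q * κ ≤ r * κ / 10 ^ 12 := by
    have := mul_le_mul_of_nonneg_right p3 hκ.le
    linarith
  have t8 : r * q ≤ r * κ / 10 ^ 12 := by
    have := mul_le_mul_of_nonneg_left hqκ hk2.le
    linarith
  have t9 : 0 ≤ κ * (x - y) ^ 2 / 2 := by positivity
  have t10 : κ * (ee G X X : ℝ) ≤ κ * (2 * w + 2 * mm G X Y + 107 * r) := by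
    refine mul_le_mul_of_nonneg_left ?_ hκ.le
    rw [hr]
    linarith
  have hrk : 0 ≤ r * κ := by positivity
  have goal' : 60 * ρ ^ 2 * κ ^ 2 = 60 * (r * κ) := by rw [hr]; ring
  rw [goal']
  have hWsum' : 2 * (∑ x ∈ W, (ee G (nb G x B) Y : ℝ)) ≤ w * (2 * y + 7 * r - e) := by
    rw [hr]
    linarith
  linarith

end Pool.Agent.Lib.MP_a3b162_co.CS
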