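import Pool.Agent.Lib.MP_a3b162_co.CS.LSSa
import Pool.Agent.Lib.MP_a3b162_co.CS.LSSb
import Pool.Agent.Lib.MP_a3b162_co.CS.LMM

/-!
MODULE LMain (30 min).  Lemma L: `DD ≤ 41 ρ κ²`.

If `ee X X < 80 ρ κ` or `ee Y Y < 80 ρ κ`: `ls_L1` (resp. `ls_L1 h.symm`, with `DD G Y X B = DD G X Y B`,
`mm_comm`).  Otherwise: if some `c ∈ X` has `2 ≤ dg c (gd X Y)`: if no such vertex in `Y`, `ls_mixed`
gives `ee Y Y ≤ 62 ρ²κ < 80 ρ κ`; if there is one, `ss_cover` and, according to `|C| ≤ |C'|` or not,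
`ss_bound h` or `ss_bound h.symm` (`60 ρ² ≤ 41 ρ`).  If no such `c ∈ X`: with one in `Y`: `ls_mixed h.symm`;
with none: `mm_false h` or `mm_false h.symm`.
-/

set_option autoImplicit false

namespace Pool.Agent.Lib.MP_a3b162_co.CS

open Finset
open scoped Classical

variable {V : Type} {G : SimpleGraph V} {X Y B : Finset V} {κ ρ s : ℝ}

theorem DD_comm : DD G Y X B = DD G X Y B := by
  simp only [DD, Nat.mul_comm]

theorem lmain_small (h : LS G X Y B κ ρ s) (hX : (ee G X X : ℝ) < 80 * ρ * κ) :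
    (DD G X Y B : ℝ) ≤ 41 * ρ * κ ^ 2 := by
  have h0 := ls_L1 h
  have hκ := (ls_size h).1
  have hρ := h.hρ
  have hρ1 := h.hρ1
  have e1 : 0 ≤ 2 * κ * (mm G X Y : ℝ) := by positivity
  have e2 : 0 ≤ κ * ((X.card : ℝ) - Y.card) ^ 2 / 2 := by positivity
  have e3 : κ * (ee G X X : ℝ) ≤ κ * (80 * ρ * κ) := mul_le_mul_of_nonneg_left hX.le hκ.le
  have e4 : ρ ^ 3 ≤ (1 / 100) ^ 3 := pow_le_pow_left₀ hρ.le hρ1 3
  have e5 : ρ ^ 4 * κ ^ 2 ≤ (1 / 100) ^ 3 * (ρ * κ ^ 2) := by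
    have : ρ ^ 4 * κ ^ 2 = ρ ^ 3 * (ρ * κ ^ 2) := by ring
    rw [this]
    exact mul_le_mul_of_nonneg_right e4 (by positivity)
  have e6 : 0 ≤ ρ * κ ^ 2 := by positivity
  have e7 : κ * (80 * ρ * κ) = 80 * (ρ * κ ^ 2) := by ring
  have e8 : 50 * ρ ^ 4 * κ ^ 2 = 50 * (ρ ^ 4 * κ ^ 2) := by ring
  have e9 : 41 * ρ * κ ^ 2 = 41 * (ρ * κ ^ 2) := by ring
  rw [e9]
  rw [e8] at h0
  rw [e7] at e3
  linarith

theorem lmain_sq (h : LS G X Y B κ ρ s) : 60 * ρ ^ 2 * κ ^ 2 ≤ 41 * ρ * κ ^ 2 := by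
  have hρ := h.hρ
  have hρ1 := h.hρ1
  have : 60 * ρ ^ 2 * κ ^ 2 = (60 * ρ) * (ρ * κ ^ 2) := by ring
  rw [this]
  have h2 : 41 * ρ * κ ^ 2 = 41 * (ρ * κ ^ 2) := by ring
  rw [h2]
  exact mul_le_mul_of_nonneg_right (by linarith) (by positivity)

theorem lmain_lt (h : LS G X Y B κ ρ s) : 62 * ρ ^ 2 * κ < 80 * ρ * κ := by
  have hρ := h.hρ
  have hρ1 := h.hρ1
  have hκ := (ls_size h).1
  have : 62 * ρ ^ 2 * κ = (62 * ρ) * (ρ * κ) := by ring
  rw [this]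
  have h2 : 80 * ρ * κ = 80 * (ρ * κ) := by ring
  rw [h2]
  exact mul_lt_mul_of_pos_right (by linarith) (by positivity)

theorem lemmaL (h : LS G X Y B κ ρ s) : (DD G X Y B : ℝ) ≤ 41 * ρ * κ ^ 2 := by
  by_cases hX : (ee G X X : ℝ) < 80 * ρ * κ
  · exact lmain_small h hX
  by_cases hY : (ee G Y Y : ℝ) < 80 * ρ * κ
  · have := lmain_small h.symm hY
    rwa [DD_comm] at this
  have hX' : 80 * ρ * κ ≤ ee G X X := not_lt.1 hX
  have hY' : 80 * ρ * κ ≤ ee G Y Y := not_lt.1 hY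
  by_cases pX : ∃ c ∈ X, 2 ≤ dg G c (gd G X Y B κ ρ)
  · by_cases pY : ∃ c ∈ Y, 2 ≤ dg G c (gd G Y X B κ ρ)
    · obtain ⟨C, hC, C', hC', h1, h2, h3⟩ := ss_cover h pX pY
      rcases le_total C.card C'.card with hc | hc
      · exact (ss_bound h hY' hC h1 ((Nat.mul_le_mul_left _ hc).trans h3)).trans (lmain_sq h)
      · have h4 : C'.card * C'.card ≤ mm G Y X := by
          rw [mm_comm]
          exact (Nat.mul_le_mul_right _ hc).trans h3
        have := (ss_bound h.symm hX' hC' h2 h4).trans (lmain_sq h)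
        rwa [DD_comm] at this
    · exfalso
      obtain ⟨c, hc, h2⟩ := pX
      have h3 := ls_mixed h hc h2 (by
        intro y hy
        by_contra hh
        exact pY ⟨y, hy, by omega⟩)
      exact hY (lt_of_le_of_lt h3 (lmain_lt h))
  · have hMX : ∀ x ∈ X, dg G x (gd G X Y B κ ρ) ≤ 1 := by
      intro x hx
      by_contra hh
      exact pX ⟨x, hx, by omega⟩
    exfalso
    by_cases pY : ∃ c ∈ Y, 2 ≤ dg G c (gd G Y X B κ ρ)
    · obtain ⟨c, hc, h2⟩ := pY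
      have h3 := ls_mixed h.symm hc h2 hMX
      exact hX (lt_of_le_of_lt h3 (lmain_lt h))
    · have hMY : ∀ y ∈ Y, dg G y (gd G Y X B κ ρ) ≤ 1 := by
        intro x hx
        by_contra hh
        exact pY ⟨x, hx, by omega⟩
      rcases le_total (ee G X X) (ee G Y Y) with hc | hc
      · exact mm_false h hMX hMY hX' hc
      · exact mm_false h.symm hMY hMX hY' hc

end Pool.Agent.Lib.MP_a3b162_co.CS
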