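import Pool.Agent.Lib.MP_a3b162_co.CS.CutB
import Pool.Agent.Lib.MP_a3b162_co.CS.LMain

/-!
MODULE CutL (90 min).  All vertices of a cut with few inner edges miss at most `σ k` vertices.

`cut_LS`.  `B1 = {x ∈ X : (ρ^4/2) k < dg x X}`, `B2 = {y ∈ Y : (ρ^4/2) k < dg y Y}`, `B = B1 ∪ B2`,
`X' = X \ B`, `Y' = Y \ B` (`X \ B = X \ B1` as `X`, `Y` are disjoint), `κ = (|X'| + |Y'|)/2`, `s = |B| + i`.
`k - b ≤ κ ≤ k + 1`; `hdX`: `dg x X' ≤ dg x X ≤ (ρ^4/2) k ≤ ρ^4 κ`; `hmX`: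
`|ms x Y'| ≤ |ms x Y| ≤ dg x X ≤ dg x X' + |B|`; `hmY`: `|ms y X'| ≤ |ms y X| ≤ dg y Y + i ≤ dg y Y' + |B| + i`;
`hb`, `hb2`, `hj` are `hlarge1 ... hlarge3` (`||X'| - |Y'|| ≤ 2i + 1 + b`, `s = b + i`);
`he`: `X' ∪ Y' ∪ B = X ∪ Y`, `ee (X ∪ Y)(X ∪ Y) = ee X X + ee Y Y + 2 (|X||Y| - mm)`,
`(k+o+i)(k-i) = k² + ok - oi - i²`, `edges`: `≥ 2k² + 2ok + 4k + 2o - 2 ≥ n²/2 + 2n - 4`, `n = 2k + o`.

`cut_small`.  Given `σ` (WLOG `σ ≤ 1`), `θ = σ/20`, `ρ = θ²`; `b0, η1, k1` from `cut_B` with `ε = ρ^4/2`.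
Choose `η ≤ η1` so small that `i² ≤ η k²` (`cut_mm`) gives `(b0 + 3)(3i + 2 b0 + 1) ≤ ρ^8 k / 2` for large
`k`, and `i ≤ θ k / 100`.  `cut_LS`, `lemmaL`: `DD ≤ 41 θ² κ²`.  Let `v ∈ X` (the case `v ∈ Y` is the same
with the roles exchanged).  If `v ∉ B`: `|ms v Y| ≤ dg v X ≤ (ρ^4/2) k ≤ σ k`.  If `v ∈ B`: the term of `v` in `DD`:
`|ms v X'| |ms v Y'| ≤ 41 θ² κ²`, so one factor is at most `7 θ κ`.  If `|ms v Y'| ≤ 7 θ κ` then
`|ms v Y| ≤ 7 θ κ + b0 ≤ σ k`.  If `|ms v X'| ≤ 7θκ`: `dg v Y ≥ dg v X ≥ |X'| - 7 θ κ ≥ |Y| - 8 θ k - ...`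
(`crX`), so `|ms v Y| = |Y| - dg v Y ≤ 10 θ k ≤ σ k`.  (For `v ∈ Y` use `crY` and `|Y'| ≥ |X| - 2i - 1 - b0`.)
-/

set_option autoImplicit false

namespace Pool.Agent.Lib.MP_a3b162_co.CS

open Finset
open scoped Classical

theorem CutL_kappa {V : Type} {G : SimpleGraph V} {X Y : Finset V} {k i o : ℕ}
    (h : Cut G X Y k i o) (B : Finset V) (h0 : 2 * B.card + 2 ≤ k) :
    (k : ℝ) / 2 ≤ (((X \ B).card : ℝ) + (Y \ B).card) / 2 ∧
      (((X \ B).card : ℝ) + (Y \ B).card) / 2 ≤ k + 1 / 2 ∧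
      |((X \ B).card : ℝ) - (Y \ B).card| ≤ 2 * i + 1 + B.card := by
  have e1 : (X \ B).card ≤ X.card := card_le_card sdiff_subset
  have e2 : (Y \ B).card ≤ Y.card := card_le_card sdiff_subset
  have e3 : X.card ≤ (X \ B).card + B.card := by
    have := le_card_sdiff B X
    omega
  have e4 : Y.card ≤ (Y \ B).card + B.card := by
    have := le_card_sdiff B Y
    omega
  have e5 := h.cX
  have e6 := h.cY
  have e7 := h.ho
  have r1 : ((X \ B).card : ℝ) ≤ X.card := by exact_mod_cast e1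
  have r2 : ((Y \ B).card : ℝ) ≤ Y.card := by exact_mod_cast e2
  have r3 : (X.card : ℝ) ≤ (X \ B).card + B.card := by exact_mod_cast e3
  have r4 : (Y.card : ℝ) ≤ (Y \ B).card + B.card := by exact_mod_cast e4
  have r5 : (X.card : ℝ) = k + o + i := by exact_mod_cast e5
  have r6 : (Y.card : ℝ) + i = k := by exact_mod_cast e6
  have r7 : (o : ℝ) ≤ 1 := by exact_mod_cast e7
  have r8 : (0 : ℝ) ≤ o := Nat.cast_nonneg o
  have r9 : (0 : ℝ) ≤ i := Nat.cast_nonneg i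
  have r10 : 2 * (B.card : ℝ) + 2 ≤ k := by exact_mod_cast h0
  have r11 : (0 : ℝ) ≤ B.card := Nat.cast_nonneg _
  refine ⟨by linarith, by linarith, ?_⟩
  rw [abs_le]
  constructor <;> linarith

theorem CutL_he {V : Type} {G : SimpleGraph V} {X Y : Finset V} {k i o : ℕ}
    (h : Cut G X Y k i o) {B : Finset V} (hB : B ⊆ X ∪ Y) :
    (((X \ B).card : ℝ) + (Y \ B).card + B.card) ^ 2 / 2 +
      2 * (((X \ B).card : ℝ) + (Y \ B).card + B.card) - 4 ≤
    ee G ((X \ B) ∪ (Y \ B) ∪ B) ((X \ B) ∪ (Y \ B) ∪ B) := by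
  have hu : (X \ B) ∪ (Y \ B) ∪ B = X ∪ Y := by
    ext x
    simp only [mem_union, mem_sdiff]
    constructor
    · rintro ((h1 | h1) | h1)
      · exact Or.inl h1.1
      · exact Or.inr h1.1
      · exact mem_union.1 (hB h1)
    · intro h1
      by_cases h2 : x ∈ B
      · exact Or.inr h2
      · rcases h1 with h1 | h1
        · exact Or.inl (Or.inl ⟨h1, h2⟩)
        · exact Or.inl (Or.inr ⟨h1, h2⟩)
  have hd1 : Disjoint (X \ B) (Y \ B) := h.disj.mono sdiff_subset sdiff_subset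
  have hd2 : Disjoint ((X \ B) ∪ (Y \ B)) B := by
    rw [disjoint_union_left]
    exact ⟨disjoint_sdiff_self_left, disjoint_sdiff_self_left⟩
  have hc : (X \ B).card + (Y \ B).card + B.card = 2 * k + o := by
    rw [← card_union_of_disjoint hd1, ← card_union_of_disjoint hd2, hu,
      card_union_of_disjoint h.disj]
    have e5 := h.cX
    have e6 := h.cY
    omega
  have hc' : ((X \ B).card : ℝ) + (Y \ B).card + B.card = 2 * k + o := by exact_mod_cast hc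
  rw [hc', hu, ee_union_self h.disj]
  have e1 := ee_add_mm (G := G) X Y
  have e2 := h.edges
  have e5 := h.cX
  have e6 := h.cY
  have e7 := h.ho
  have r1 : (ee G X Y : ℝ) + mm G X Y = X.card * Y.card := by exact_mod_cast e1
  have r2 : 2 * (2 * (k : ℝ) + o + mm G X Y + i * i + o * i) ≤ ee G X X + ee G Y Y + 2 := by
    exact_mod_cast e2
  have r5 : (X.card : ℝ) = k + o + i := by exact_mod_cast e5
  have r6 : (Y.card : ℝ) = k - i := by
    have : (Y.card : ℝ) + i = k := by exact_mod_cast e6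
    linarith
  have r7 : (o : ℝ) ≤ 1 := by exact_mod_cast e7
  have r8 : (0 : ℝ) ≤ o := Nat.cast_nonneg o
  rw [r5, r6] at r1
  push_cast
  nlinarith

theorem cut_LS {V : Type} {G : SimpleGraph V} {X Y : Finset V} {k i o : ℕ}
    (h : Cut G X Y k i o) {ρ : ℝ} (hρ : 0 < ρ) (hρ1 : ρ ≤ 1 / 100) {B : Finset V}
    (hB : B = (X.filter fun x => ρ ^ 4 / 2 * k < dg G x X) ∪
      (Y.filter fun y => ρ ^ 4 / 2 * k < dg G y Y))
    (hlarge0 : 2 * B.card + 2 ≤ k)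
    (hlarge1 : ((B.card : ℝ) + 3) ^ 2 * 2 ^ (B.card + 2) ≤ ρ ^ 8 * (k / 2))
    (hlarge2 : (4 : ℝ) ^ (B.card + 3) ≤ ρ ^ 16 * (k / 2))
    (hlarge3 : ((B.card : ℝ) + 3) * (3 * i + 2 * B.card + 1) ≤ ρ ^ 8 * (k / 2)) :
    LS G (X \ B) (Y \ B) B ((((X \ B).card : ℝ) + (Y \ B).card) / 2) ρ (B.card + i) := by
  obtain ⟨k1, -, k3⟩ := CutL_kappa h B hlarge0
  have hBX : B ⊆ X ∪ Y := by
    rw [hB]
    exact union_subset_union (filter_subset _ _) (filter_subset _ _)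
  have hnX : ∀ x ∈ X \ B, (dg G x X : ℝ) ≤ ρ ^ 4 / 2 * k := by
    intro x hx
    obtain ⟨h1, h2⟩ := mem_sdiff.1 hx
    by_contra h3
    push Not at h3
    apply h2
    rw [hB]
    exact mem_union_left _ (mem_filter.2 ⟨h1, h3⟩)
  have hnY : ∀ y ∈ Y \ B, (dg G y Y : ℝ) ≤ ρ ^ 4 / 2 * k := by
    intro x hx
    obtain ⟨h1, h2⟩ := mem_sdiff.1 hx
    by_contra h3
    push Not at h3
    apply h2
    rw [hB]
    exact mem_union_right _ (mem_filter.2 ⟨h1, h3⟩)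
  have hle : ρ ^ 4 / 2 * k ≤ ρ ^ 4 * ((((X \ B).card : ℝ) + (Y \ B).card) / 2) := by
    have := mul_le_mul_of_nonneg_left k1 (show 0 ≤ ρ ^ 4 by positivity)
    linarith
  have hdg : ∀ (v : V) (A : Finset V), dg G v A ≤ dg G v (A \ B) + B.card := by
    intro v A
    have h1 : A ⊆ (A \ B) ∪ B := by
      intro x hx
      by_cases h2 : x ∈ B
      · exact mem_union_right _ h2
      · exact mem_union_left _ (mem_sdiff.2 ⟨hx, h2⟩)
    have h2 := dg_mono (G := G) v h1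
    have h3 := dg_union_le (G := G) v (A \ B) B
    have h4 := dg_le_card (G := G) v B
    omega
  refine ⟨h.geo, h.disj.mono sdiff_subset sdiff_subset, disjoint_sdiff_self_left,
    disjoint_sdiff_self_left, hρ, hρ1, by positivity, by ring, ?_, ?_, ?_, ?_, ?_, ?_, ?_,
    CutL_he h hBX⟩
  · intro x hx
    have h1 : (dg G x (X \ B) : ℝ) ≤ dg G x X := by
      exact_mod_cast dg_mono (G := G) x (sdiff_subset : X \ B ⊆ X)
    exact h1.trans ((hnX x hx).trans hle)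
  · intro y hy
    have h1 : (dg G y (Y \ B) : ℝ) ≤ dg G y Y := by
      exact_mod_cast dg_mono (G := G) y (sdiff_subset : Y \ B ⊆ Y)
    exact h1.trans ((hnY y hy).trans hle)
  · intro x hx
    have h1 := h.dX x (mem_sdiff.1 hx).1
    have h2 := hdg x X
    have h3 := card_le_card (ms_mono (G := G) x (sdiff_subset : Y \ B ⊆ Y))
    have h4 : (ms G x (Y \ B)).card ≤ dg G x (X \ B) + (B.card + i) := by omega
    exact_mod_cast h4
  · intro y hy
    have h1 := h.dY y (mem_sdiff.1 hy).1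
    have h2 := hdg y Y
    have h3 := card_le_card (ms_mono (G := G) y (sdiff_subset : X \ B ⊆ X))
    have h4 : (ms G y (X \ B)).card ≤ dg G y (Y \ B) + (B.card + i) := by omega
    exact_mod_cast h4
  · exact hlarge1.trans (mul_le_mul_of_nonneg_left k1 (by positivity))
  · exact hlarge2.trans (mul_le_mul_of_nonneg_left k1 (by positivity))
  · refine le_trans ?_ (hlarge3.trans (mul_le_mul_of_nonneg_left k1 (by positivity)))
    refine mul_le_mul_of_nonneg_left ?_ (by positivity)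
    linarith

theorem CutL_large (C : ℝ) {a : ℝ} (ha : 0 < a) : ∃ k1 : ℕ, ∀ k : ℕ, k1 ≤ k → C ≤ a * k := by
  refine ⟨⌈C / a⌉₊, fun k hk => ?_⟩
  have h1 : C / a ≤ k := (Nat.le_ceil _).trans (by exact_mod_cast hk)
  rw [div_le_iff₀ ha] at h1
  linarith

theorem CutL_prod {a b c : ℝ} (ha : 0 ≤ a) (hb : 0 ≤ b) (hc : 0 < c)
    (h : a * b ≤ 41 / 49 * c ^ 2) : a ≤ c ∨ b ≤ c := by
  by_contra hcon
  push Not at hcon
  obtain ⟨h1, h2⟩ := hcon
  have h3 : c * c < a * b := mul_lt_mul'' h1 h2 hc.le hc.le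
  nlinarith [mul_pos hc hc]

theorem cut_small {σ : ℝ} (hσ : 0 < σ) : ∃ (η : ℝ) (k1 : ℕ), 0 < η ∧
    ∀ (V : Type) (G : SimpleGraph V) (X Y : Finset V) (k i o : ℕ), Cut G X Y k i o → k1 ≤ k →
      (ee G X X : ℝ) + ee G Y Y ≤ η * (k : ℝ) ^ 2 →
      (∀ x ∈ X, ((ms G x Y).card : ℝ) ≤ σ * k) ∧ (∀ y ∈ Y, ((ms G y X).card : ℝ) ≤ σ * k) := by
  obtain ⟨θ, hθ0, hθσ, hθ1⟩ : ∃ θ : ℝ, 0 < θ ∧ 20 * θ ≤ σ ∧ 20 * θ ≤ 1 :=
    ⟨min σ 1 / 20, by have := lt_min hσ one_pos; positivity, by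
      have := min_le_left σ 1
      linarith, by
      have := min_le_right σ 1
      linarith⟩
  have hρ0 : 0 < θ ^ 2 := by positivity
  have hρ1 : θ ^ 2 ≤ 1 / 100 := by nlinarith
  obtain ⟨ρ, hρ⟩ : ∃ ρ, ρ = θ ^ 2 := ⟨_, rfl⟩
  rw [← hρ] at hρ0 hρ1
  obtain ⟨b0, η1, k1, hη1, hcB⟩ := cut_B (show 0 < ρ ^ 4 / 2 by positivity)
  obtain ⟨τ, hτ0, hτ1, hτ2⟩ : ∃ τ : ℝ, 0 < τ ∧ τ ≤ θ / 100 ∧ 12 * (b0 + 3) * τ ≤ ρ ^ 8 := by
    refine ⟨min (θ / 100) (ρ ^ 8 / (12 * (b0 + 3))), lt_min (by positivity) (by positivity),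
      min_le_left _ _, ?_⟩
    have h1 := min_le_right (θ / 100) (ρ ^ 8 / (12 * ((b0 : ℝ) + 3)))
    rw [le_div_iff₀ (by positivity)] at h1
    linarith
  obtain ⟨m1, hm1⟩ := CutL_large (2 * (b0 : ℝ) + 2) one_pos
  obtain ⟨m2, hm2⟩ := CutL_large (((b0 : ℝ) + 3) ^ 2 * 2 ^ (b0 + 2))
    (show 0 < ρ ^ 8 / 2 by positivity)
  obtain ⟨m3, hm3⟩ := CutL_large ((4 : ℝ) ^ (b0 + 3)) (show 0 < ρ ^ 16 / 2 by positivity)
  obtain ⟨m4, hm4⟩ := CutL_large (((b0 : ℝ) + 3) * (2 * b0 + 1))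
    (show 0 < ρ ^ 8 / 4 by positivity)
  obtain ⟨m5, hm5⟩ := CutL_large ((b0 : ℝ) + 5) hθ0
  refine ⟨min η1 (2 * τ ^ 2), k1 + m1 + m2 + m3 + m4 + m5 + 1, lt_min hη1 (by positivity), ?_⟩
  intro V G X Y k i o h hk he
  have hk0 : (1 : ℝ) ≤ k := by
    have : 1 ≤ k := by omega
    exact_mod_cast this
  have he1 : (ee G X X : ℝ) + ee G Y Y ≤ η1 * (k : ℝ) ^ 2 :=
    he.trans (mul_le_mul_of_nonneg_right (min_le_left _ _) (by positivity))
  have he2 : (ee G X X : ℝ) + ee G Y Y ≤ 2 * τ ^ 2 * (k : ℝ) ^ 2 :=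
    he.trans (mul_le_mul_of_nonneg_right (min_le_right _ _) (by positivity))
  have hcard := hcB V G X Y k i o h (by omega) he1
  have hmm := (cut_mm h (by omega)).2
  have hmm' : 2 * ((i : ℝ) * i) ≤ ee G X X + ee G Y Y := by exact_mod_cast hmm
  have hi0 : (0 : ℝ) ≤ i := Nat.cast_nonneg i
  have hiτ : (i : ℝ) ≤ τ * k := by
    have h1 : (i : ℝ) ^ 2 ≤ (τ * k) ^ 2 := by nlinarith
    exact (pow_le_pow_iff_left₀ hi0 (by positivity) (by norm_num)).1 h1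
  have hiθ : (i : ℝ) ≤ θ / 100 * k :=
    hiτ.trans (mul_le_mul_of_nonneg_right hτ1 (by linarith))
  obtain ⟨B, hB⟩ : ∃ B, B = (X.filter fun x => ρ ^ 4 / 2 * k < dg G x X) ∪
      (Y.filter fun y => ρ ^ 4 / 2 * k < dg G y Y) := ⟨_, rfl⟩
  rw [← hB] at hcard
  have hcR : (B.card : ℝ) ≤ b0 := by exact_mod_cast hcard
  have hB0 : (0 : ℝ) ≤ B.card := Nat.cast_nonneg _
  have g1 := hm1 k (by omega)
  have g2 := hm2 k (by omega)
  have g3 := hm3 k (by omega)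
  have g4 := hm4 k (by omega)
  have g5 := hm5 k (by omega)
  have hl0 : 2 * B.card + 2 ≤ k := by
    have : (2 * (B.card : ℝ) + 2) ≤ k := by linarith
    exact_mod_cast this
  have hl1 : ((B.card : ℝ) + 3) ^ 2 * 2 ^ (B.card + 2) ≤ ρ ^ 8 * (k / 2) := by
    calc ((B.card : ℝ) + 3) ^ 2 * 2 ^ (B.card + 2) ≤ ((b0 : ℝ) + 3) ^ 2 * 2 ^ (b0 + 2) := by
          refine mul_le_mul (pow_le_pow_left₀ (by positivity) (by linarith) 2)
            (pow_le_pow_right₀ (by norm_num) (by omega)) (by positivity) (by positivity)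
      _ ≤ ρ ^ 8 / 2 * k := g2
      _ = _ := by ring
  have hl2 : (4 : ℝ) ^ (B.card + 3) ≤ ρ ^ 16 * (k / 2) := by
    calc (4 : ℝ) ^ (B.card + 3) ≤ 4 ^ (b0 + 3) := pow_le_pow_right₀ (by norm_num) (by omega)
      _ ≤ ρ ^ 16 / 2 * k := g3
      _ = _ := by ring
  have hl3 : ((B.card : ℝ) + 3) * (3 * i + 2 * B.card + 1) ≤ ρ ^ 8 * (k / 2) := by
    calc ((B.card : ℝ) + 3) * (3 * i + 2 * B.card + 1)
        ≤ ((b0 : ℝ) + 3) * (3 * (τ * k) + 2 * b0 + 1) := by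
          refine mul_le_mul (by linarith) (by linarith) (by positivity) (by positivity)
      _ = (12 * (b0 + 3) * τ) * k / 4 + ((b0 : ℝ) + 3) * (2 * b0 + 1) := by ring
      _ ≤ ρ ^ 8 * k / 4 + ρ ^ 8 / 4 * k := by
          have := mul_le_mul_of_nonneg_right hτ2 (show (0 : ℝ) ≤ k by linarith)
          linarith
      _ = _ := by ring
  have hLS := cut_LS h hρ0 hρ1 hB hl0 hl1 hl2 hl3
  obtain ⟨q1, q2, -⟩ := CutL_kappa h B hl0
  have hDD := lemmaL hLS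
  obtain ⟨κ, hκ⟩ : ∃ κ, κ = (((X \ B).card : ℝ) + (Y \ B).card) / 2 := ⟨_, rfl⟩
  rw [← hκ] at q1 q2 hDD
  have hκ0 : 0 < κ := by linarith
  have hc0 : 0 < 7 * θ * κ := by positivity
  have hcle : 7 * θ * κ + b0 + 1 + 2 * (θ / 100 * k) ≤ 20 * θ * k := by
    have h1 : θ * κ ≤ θ * (k + 1 / 2) := mul_le_mul_of_nonneg_left q2 hθ0.le
    linarith
  have hσk : 20 * θ * k ≤ σ * k := mul_le_mul_of_nonneg_right hθσ (by linarith)
  -- the product
  have hprod : ∀ v ∈ B, ((ms G v (X \ B)).card : ℝ) ≤ 7 * θ * κ ∨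
      ((ms G v (Y \ B)).card : ℝ) ≤ 7 * θ * κ := by
    intro v hv
    apply CutL_prod (Nat.cast_nonneg _) (Nat.cast_nonneg _) hc0
    have h1 : (ms G v (X \ B)).card * (ms G v (Y \ B)).card ≤ DD G (X \ B) (Y \ B) B := by
      unfold DD
      exact single_le_sum (f := fun b => (ms G b (X \ B)).card * (ms G b (Y \ B)).card)
        (fun _ _ => Nat.zero_le _) hv
    have h2 : ((ms G v (X \ B)).card : ℝ) * (ms G v (Y \ B)).card ≤
        DD G (X \ B) (Y \ B) B := by exact_mod_cast h1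
    refine h2.trans (hDD.trans (le_of_eq ?_))
    rw [hρ]
    ring
  have hms : ∀ (v : V) (A : Finset V), ((ms G v A).card : ℝ) ≤ (ms G v (A \ B)).card + b0 := by
    intro v A
    have h1 : ms G v A ⊆ ms G v (A \ B) ∪ B := by
      intro x hx
      obtain ⟨h2, h3⟩ := mem_ms.1 hx
      by_cases h4 : x ∈ B
      · exact mem_union_right _ h4
      · exact mem_union_left _ (mem_ms.2 ⟨mem_sdiff.2 ⟨h2, h4⟩, h3⟩)
    have h2 := card_le_card h1
    have h3 := card_union_le (ms G v (A \ B)) B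
    have h4 : (ms G v A).card ≤ (ms G v (A \ B)).card + b0 := by omega
    exact_mod_cast h4
  have r5 : (X.card : ℝ) = k + o + i := by exact_mod_cast h.cX
  have r6 : (Y.card : ℝ) + i = k := by exact_mod_cast h.cY
  have r7 : (o : ℝ) ≤ 1 := by exact_mod_cast h.ho
  have r8 : (0 : ℝ) ≤ o := Nat.cast_nonneg o
  have hadd : ∀ (v : V) (A : Finset V), (dg G v A : ℝ) + (ms G v A).card = A.card := by
    intro v A
    exact_mod_cast dg_add_ms (G := G) v A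
  have hρ4 : ρ ^ 4 / 2 * k ≤ θ * k := by
    refine mul_le_mul_of_nonneg_right ?_ (by linarith)
    have h1 : ρ ^ 4 ≤ ρ := pow_le_of_le_one hρ0.le (by linarith) (by norm_num)
    have h2 : ρ ≤ θ := by
      rw [hρ]
      nlinarith
    linarith
  have hθk : 0 ≤ θ * k := by positivity
  constructor
  · intro v hv
    refine le_trans ?_ hσk
    by_cases hvB : v ∈ B
    · rcases hprod v hvB with h1 | h1
      · have h2 := hms v X
        have h3 := hadd v X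
        have h4 := hadd v Y
        have h5 : (dg G v X : ℝ) ≤ dg G v Y := by exact_mod_cast h.crX v hv
        linarith
      · have h2 := hms v Y
        linarith
    · have h1 : (dg G v X : ℝ) ≤ ρ ^ 4 / 2 * k := by
        by_contra h3
        push Not at h3
        apply hvB
        rw [hB]
        exact mem_union_left _ (mem_filter.2 ⟨hv, h3⟩)
      have h2 := h.dX v hv
      have h3 : ((ms G v Y).card : ℝ) ≤ dg G v X := by
        have : (ms G v Y).card ≤ dg G v X := by omega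
        exact_mod_cast this
      linarith
  · intro v hv
    refine le_trans ?_ hσk
    by_cases hvB : v ∈ B
    · rcases hprod v hvB with h1 | h1
      · have h2 := hms v X
        linarith
      · have h2 := hms v Y
        have h3 := hadd v X
        have h4 := hadd v Y
        have h5 : (dg G v Y : ℝ) ≤ dg G v X := by exact_mod_cast h.crY v hv
        linarith
    · have h1 : (dg G v Y : ℝ) ≤ ρ ^ 4 / 2 * k := by
        by_contra h3
        push Not at h3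
        apply hvB
        rw [hB]
        exact mem_union_right _ (mem_filter.2 ⟨hv, h3⟩)
      have h2 := h.dY v hv
      have h3 : ((ms G v X).card : ℝ) ≤ dg G v Y + i := by
        have : (ms G v X).card ≤ dg G v Y + i := by omega
        exact_mod_cast this
      linarith

/-- no cut with few inner edges -/
theorem cut_false : ∃ (η : ℝ) (k1 : ℕ), 0 < η ∧
    ∀ (V : Type) (G : SimpleGraph V) (X Y : Finset V) (k i o : ℕ), Cut G X Y k i o → k1 ≤ k →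
      (ee G X X : ℝ) + ee G Y Y ≤ η * (k : ℝ) ^ 2 →
      (∀ x ∈ X, 10 ^ 10 * (ms G x Y).card ≤ k) ∧ (∀ y ∈ Y, 10 ^ 10 * (ms G y X).card ≤ k) ∧
        10 * i ≤ k := by
  obtain ⟨η, k1, hη, hs⟩ := cut_small (show (0 : ℝ) < 1 / 10 ^ 10 by norm_num)
  refine ⟨min η (1 / 50), k1 + 1, lt_min hη (by norm_num), ?_⟩
  intro V G X Y k i o h hk he
  have he1 : (ee G X X : ℝ) + ee G Y Y ≤ η * (k : ℝ) ^ 2 :=
    he.trans (mul_le_mul_of_nonneg_right (min_le_left _ _) (by positivity))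
  have he2 : (ee G X X : ℝ) + ee G Y Y ≤ 1 / 50 * (k : ℝ) ^ 2 :=
    he.trans (mul_le_mul_of_nonneg_right (min_le_right _ _) (by positivity))
  obtain ⟨h1, h2⟩ := hs V G X Y k i o h (by omega) he1
  have hmm := (cut_mm h (by omega)).2
  have hmm' : 2 * ((i : ℝ) * i) ≤ ee G X X + ee G Y Y := by exact_mod_cast hmm
  have hi0 : (0 : ℝ) ≤ i := Nat.cast_nonneg i
  have hk0 : (0 : ℝ) ≤ k := Nat.cast_nonneg k
  refine ⟨fun x hx => ?_, fun y hy => ?_, ?_⟩
  · have h3 := h1 x hx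
    have h4 : (10 : ℝ) ^ 10 * (ms G x Y).card ≤ k := by linarith
    exact_mod_cast h4
  · have h3 := h2 y hy
    have h4 : (10 : ℝ) ^ 10 * (ms G y X).card ≤ k := by linarith
    exact_mod_cast h4
  · have h3 : ((10 : ℝ) * i) ^ 2 ≤ (k : ℝ) ^ 2 := by nlinarith
    have h4 : (10 : ℝ) * i ≤ k :=
      (pow_le_pow_iff_left₀ (by positivity) hk0 (by norm_num)).1 h3
    exact_mod_cast h4

end Pool.Agent.Lib.MP_a3b162_co.CS
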