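import Pool.Agent.Lib.MP_a3b162_co.CS.Sm

/-!
MODULE SmE (60 min).  The three best vertices, and `e(W) ≤ 3 |W|`.

`three_best`: take `a` with minimal `f` in `W`, `b` minimal in `W \ {a}`, `c` minimal in `W \ {a, b}`
(`exists_min_image`); `f a ≤ f b ≤ f c ≤ f x` for all other `x`.
`∑ f ≥ f a + f b + (|W| - 2) f c`, and `|W| (f a + f b + f c) ≤ 3 (f a + f b + (|W| - 2) f c)` iff
`(|W| - 3)(f a + f b) ≤ (2|W| - 6) f c`.

`sm_edges`.  `f y = ∑_{x ∈ ms y W} dg x W`.  `∑_{y ∈ Y} f y = ∑_{x ∈ W} |ms x Y| dg x W ≤ M ee W W`.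
`three_best` in `Y`: `y1 y2 y3` with `|Y| (f y1 + f y2 + f y3) ≤ 3 M ee W W`.
`R = ⋃ ms y_i W`, `Z = W \ R`: `ee Z Z ≤ 4 |Z|` (`t0_weak`), `ee W W ≤ ee Z Z + 2 ∑_R dg x W
≤ 4 |W| + 2 (f y1 + f y2 + f y3) ≤ 4 |W| + (6 M / |Y|) ee W W ≤ 4 |W| + ee W W / 4`.
So `ee W W ≤ (16/3) |W| ≤ 6 |W|`.
-/

set_option autoImplicit false

namespace Pool.Agent.Lib.MP_a3b162_co.CS

open Finset
open scoped Classical

variable {V : Type} {G : SimpleGraph V} {X Y : Finset V}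

theorem three_best {α : Type} {W : Finset α} {f : α → ℝ} (hf : ∀ a ∈ W, 0 ≤ f a)
    (h3 : 3 ≤ W.card) : ∃ a ∈ W, ∃ b ∈ W, ∃ c ∈ W, a ≠ b ∧ a ≠ c ∧ b ≠ c ∧
      (W.card : ℝ) * (f a + f b + f c) ≤ 3 * ∑ x ∈ W, f x := by
  obtain ⟨a, ha, hamin⟩ := exists_min_image W f (card_pos.1 (by omega))
  have h1 : (W.erase a).card = W.card - 1 := card_erase_of_mem ha
  obtain ⟨b, hb, hbmin⟩ := exists_min_image (W.erase a) f (card_pos.1 (by omega))
  have h2 : ((W.erase a).erase b).card = W.card - 2 := by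
    rw [card_erase_of_mem hb, h1]
    omega
  obtain ⟨c, hc, hcmin⟩ := exists_min_image ((W.erase a).erase b) f (card_pos.1 (by omega))
  have hba := mem_erase.1 hb
  have hcb := mem_erase.1 hc
  have hca := mem_erase.1 hcb.2
  refine ⟨a, ha, b, hba.2, c, hca.2, hba.1.symm, hca.1.symm, hcb.1.symm, ?_⟩
  have hab : f a ≤ f b := hamin b hba.2
  have hbc : f b ≤ f c := hbmin c hcb.2
  have e1 : ∑ x ∈ W, f x = f a + (f b + ∑ x ∈ (W.erase a).erase b, f x) := by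
    rw [add_sum_erase _ _ hb, add_sum_erase _ _ ha]
  have e2 : ((W.card : ℝ) - 2) * f c ≤ ∑ x ∈ (W.erase a).erase b, f x := by
    have h := card_nsmul_le_sum ((W.erase a).erase b) f (f c) hcmin
    rw [h2, nsmul_eq_mul, Nat.cast_sub (by omega)] at h
    exact_mod_cast h
  have hW : (3 : ℝ) ≤ W.card := by exact_mod_cast h3
  rw [e1]
  nlinarith [mul_nonneg (sub_nonneg.2 hW) (sub_nonneg.2 (hab.trans hbc)),
    mul_nonneg (sub_nonneg.2 hW) (sub_nonneg.2 hbc)]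

theorem sm_edges (hG : Geo G) {M : ℝ} (hM : ∀ x ∈ X, ((ms G x Y).card : ℝ) ≤ M)
    (h24 : 24 * M ≤ Y.card) (h3 : 3 ≤ Y.card) {W : Finset V} (hW : W ⊆ X) :
    ee G W W ≤ 6 * W.card := by
  set f : V → ℝ := fun y => ∑ x ∈ ms G y W, (dg G x W : ℝ) with hf
  have hf0 : ∀ y ∈ Y, 0 ≤ f y := fun y _ => sum_nonneg fun x _ => Nat.cast_nonneg _
  obtain ⟨y1, hy1, y2, hy2, y3, hy3, h12, h13, h23, hle⟩ := three_best hf0 h3
  -- the double counting
  have hsum : ∑ y ∈ Y, f y ≤ M * ee G W W := by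
    have e1 : ∀ y ∈ Y, f y = ∑ x ∈ W, if ¬ G.Adj y x then (dg G x W : ℝ) else 0 := by
      intro y _
      simp only [hf, ms, sum_filter]
    have e2 : ∀ x ∈ W, ∑ y ∈ Y, (if ¬ G.Adj y x then (dg G x W : ℝ) else 0) =
        ((ms G x Y).card : ℝ) * dg G x W := by
      intro x _
      simp only [ms, card_filter]
      rw [Nat.cast_sum, sum_mul]
      refine sum_congr rfl fun y _ => ?_
      rw [G.adj_comm y x]
      split_ifs <;> simp
    rw [sum_congr rfl e1, sum_comm, sum_congr rfl e2]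
    have e3 : (ee G W W : ℝ) = ∑ x ∈ W, (dg G x W : ℝ) := by
      unfold ee
      push_cast
      rfl
    rw [e3, mul_sum]
    exact sum_le_sum fun x hx => mul_le_mul_of_nonneg_right (hM x (hW hx)) (Nat.cast_nonneg _)
  -- the good part
  set R : Finset V := ms G y1 W ∪ ms G y2 W ∪ ms G y3 W with hR
  have hRW : R ⊆ W := union_subset (union_subset (ms_subset _ _) (ms_subset _ _)) (ms_subset _ _)
  have h4 : ee G (W \ R) (W \ R) ≤ 4 * (W \ R).card := by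
    refine t0_weak hG h12 h13 h23 fun z hz => ?_
    rw [mem_sdiff, hR, mem_union, mem_union, not_or, not_or] at hz
    obtain ⟨hz0, ⟨hz1, hz2⟩, hz3⟩ := hz
    refine ⟨?_, ?_, ?_⟩
    · by_contra h; exact hz1 (mem_ms.2 ⟨hz0, h⟩)
    · by_contra h; exact hz2 (mem_ms.2 ⟨hz0, h⟩)
    · by_contra h; exact hz3 (mem_ms.2 ⟨hz0, h⟩)
  have h5 : (W \ R).card ≤ W.card := card_le_card sdiff_subset
  have h6 := ee_sdiff_ge (G := G) W R hRW
  have h7 : (∑ r ∈ R, (dg G r W : ℝ)) ≤ f y1 + f y2 + f y3 := by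
    have g : ∀ A B : Finset V, (∑ r ∈ A ∪ B, (dg G r W : ℝ)) ≤
        (∑ r ∈ A, (dg G r W : ℝ)) + ∑ r ∈ B, (dg G r W : ℝ) := by
      intro A B
      rw [← sum_union_inter]
      have : (0 : ℝ) ≤ ∑ r ∈ A ∩ B, (dg G r W : ℝ) := sum_nonneg fun x _ => Nat.cast_nonneg _
      linarith
    have g1 := g (ms G y1 W ∪ ms G y2 W) (ms G y3 W)
    have g2 := g (ms G y1 W) (ms G y2 W)
    simp only [hf]
    rw [hR]
    linarith
  have h8 : (ee G W W : ℝ) ≤ 4 * W.card + 2 * (f y1 + f y2 + f y3) := by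
    have h6' : (ee G W W : ℝ) ≤ ee G (W \ R) (W \ R) + 2 * ∑ r ∈ R, (dg G r W : ℝ) := by
      exact_mod_cast h6
    have h4' : (ee G (W \ R) (W \ R) : ℝ) ≤ 4 * (W \ R).card := by exact_mod_cast h4
    have h5' : ((W \ R).card : ℝ) ≤ W.card := by exact_mod_cast h5
    linarith
  have hY : (3 : ℝ) ≤ Y.card := by exact_mod_cast h3
  have hE : (0 : ℝ) ≤ ee G W W := Nat.cast_nonneg _
  have h9 : (Y.card : ℝ) * ee G W W ≤ Y.card * (4 * W.card) + 6 * (M * ee G W W) := by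
    have := mul_le_mul_of_nonneg_left h8 (by linarith : (0 : ℝ) ≤ Y.card)
    nlinarith
  have h10 : 6 * (M * ee G W W) ≤ (Y.card : ℝ) * ee G W W / 4 := by
    have := mul_le_mul_of_nonneg_right h24 hE
    nlinarith
  have h11 : (ee G W W : ℝ) ≤ 6 * W.card := by
    have hYpos : (0 : ℝ) < Y.card := by linarith
    have h12' : (Y.card : ℝ) * ee G W W ≤ Y.card * (16 / 3 * W.card) := by nlinarith
    have h13' := le_of_mul_le_mul_left h12' hYpos
    have : (0 : ℝ) ≤ W.card := Nat.cast_nonneg _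
    linarith
  exact_mod_cast h11

end Pool.Agent.Lib.MP_a3b162_co.CS
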