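import Pool.Agent.Lib.MP_a3b162_co.CS.CutDefs
import Pool.Agent.Lib.MP_a3b162_co.CS.SmE

/-!
MODULE CutN (75 min).  If every vertex misses at most `k / 10^10` vertices of the other side, then the
cut is in the near-clean setting `Near`.

`d0_alt` (one side).  `M = k/10^10`, `err x = err G Y 1 x`.  `ee Y Y ≤ 6 |Y|`, `ee X X ≤ 6 |X|`
(`sm_edges` both ways), `∑_{x ∈ X} err x ≤ M (ee Y Y + |Y|) ≤ 7 M |Y| ≤ 8·10^(-10) k²` (`err_sum`).
Good: `err x ≤ 10^(-5) k`; `N` = not good vertices of `X`, `|N| ≤ 8·10^(-5) k` (Markov), `Gd` = good ones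
(at least three).
(c) three good vertices, `t0_err` with `A = ∅`: `ee Y Y ≤ 4 |Y| + 6·10^(-5) k`.
(a) an edge in `Gd` and a third good vertex: `t1_err`, `A = ∅`; or `c ∈ X` with three good neighbours:
`t0_err` with `A = {c}`, `β = 1`, `dg c Y ≥ |Y| - M`: `ee Y Y ≤ 2 |Y| + 7·10^(-5) k`.
(b) otherwise `ee Gd Gd = 0`, `ee N Gd ≤ 2 |N|`, `ee N N ≤ 6 |N|`: `ee X X ≤ 10 |N| ≤ 8·10^(-4) k`.

`near_of_cut`.  Write `E = ee X X + ee Y Y`; `edges`: `2 (2k + o + mm + i² + oi) ≤ E + 2`.
* (a) on both sides: `E ≤ 2 (2k + o) + 14·10^(-5) k`: `mm + i² ≤ 1 + 7·10^(-5) k`.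
* `ee X X ≤ 8·10^(-4) k`, (c): `E ≤ 4 (k - i) + 8.6·10^(-4) k`: `mm + i² ≤ 1 + 4.3·10^(-4) k`.
* `ee Y Y ≤ 8·10^(-4) k`, (c): `E ≤ 4 (k + o + i) + 8.6·10^(-4) k`: `mm + i² ≤ 2i + 2 + 4.3·10^(-4) k`,
  so `mm ≤ 3 + 4.3·10^(-4) k`, `(i-1)² ≤ 3 + 4.3·10^(-4) k`.
With `k ≥ 10^8`: `1000 mm ≤ k`, `1000 i ≤ k`.
-/

set_option autoImplicit false

namespace Pool.Agent.Lib.MP_a3b162_co.CS

open Finset
open scoped Classical

variable {V : Type} {G : SimpleGraph V} {X Y : Finset V} {k i o : ℕ}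

theorem cutn_three {S : Finset V} (h : 3 ≤ S.card) :
    ∃ a ∈ S, ∃ b ∈ S, ∃ c ∈ S, a ≠ b ∧ a ≠ c ∧ b ≠ c := by
  obtain ⟨a, b, c, ha, hb, hc, h1, h2, h3⟩ := two_lt_card_iff.1 (show 2 < S.card from h)
  exact ⟨a, ha, b, hb, c, hc, h1, h2, h3⟩

theorem cutn_third {S : Finset V} (h : 3 ≤ S.card) (a b : V) : ∃ c ∈ S, a ≠ c ∧ b ≠ c := by
  by_contra hcon
  push Not at hcon
  have hsub : S ⊆ {a, b} := by
    intro c hc
    by_cases e : a = c
    · simp [e]
    · simp [hcon c hc e]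
  have := card_le_card hsub
  have h2 : ({a, b} : Finset V).card ≤ 2 := card_le_two
  omega

theorem d0_alt (hG : Geo G) (hd : Disjoint X Y) (hk : 10 ^ 8 ≤ k)
    (hX1 : 9 * k ≤ 10 * X.card) (hX2 : 10 * X.card ≤ 11 * k + 10)
    (hY1 : 9 * k ≤ 10 * Y.card) (hY2 : 10 * Y.card ≤ 11 * k + 10)
    (hx : ∀ x ∈ X, 10 ^ 10 * (ms G x Y).card ≤ k) (hy : ∀ y ∈ Y, 10 ^ 10 * (ms G y X).card ≤ k) :
    10 ^ 5 * ee G Y Y ≤ 4 * 10 ^ 5 * Y.card + 6 * k ∧
    (10 ^ 5 * ee G Y Y ≤ 2 * 10 ^ 5 * Y.card + 7 * k ∨ 10 ^ 4 * ee G X X ≤ 8 * k + 10 ^ 5) := by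
  have kR : (100000000 : ℝ) ≤ k := by
    have : (100000000 : ℕ) ≤ k := by omega
    exact_mod_cast this
  have rX1 : 9 * (k : ℝ) ≤ 10 * X.card := by exact_mod_cast hX1
  have rX2 : 10 * (X.card : ℝ) ≤ 11 * k + 10 := by exact_mod_cast hX2
  have rY1 : 9 * (k : ℝ) ≤ 10 * Y.card := by exact_mod_cast hY1
  have rY2 : 10 * (Y.card : ℝ) ≤ 11 * k + 10 := by exact_mod_cast hY2
  set M : ℝ := k / 10 ^ 10 with hMdef
  have hMx : ∀ x ∈ X, ((ms G x Y).card : ℝ) ≤ M := by
    intro x hxX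
    have h1 : (10 : ℝ) ^ 10 * (ms G x Y).card ≤ k := by exact_mod_cast hx x hxX
    rw [hMdef, le_div_iff₀ (by positivity)]
    linarith
  have hMy : ∀ y ∈ Y, ((ms G y X).card : ℝ) ≤ M := by
    intro y hyY
    have h1 : (10 : ℝ) ^ 10 * (ms G y X).card ≤ k := by exact_mod_cast hy y hyY
    rw [hMdef, le_div_iff₀ (by positivity)]
    linarith
  have hM24 : 24 * M ≤ Y.card := by
    rw [hMdef]
    norm_num
    linarith
  have hM24' : 24 * M ≤ X.card := by
    rw [hMdef]
    norm_num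
    linarith
  have eY : ∀ W ⊆ Y, ee G W W ≤ 6 * W.card := fun W hW =>
    sm_edges hG hMy hM24' (by omega) hW
  have eX : ∀ W ⊆ X, ee G W W ≤ 6 * W.card := fun W hW =>
    sm_edges hG hMx hM24 (by omega) hW
  have hM0 : 0 ≤ M := by rw [hMdef]; positivity
  -- the sum of the errors
  have hsum : (∑ x ∈ X, (err G Y 1 x : ℝ)) ≤ 8 / 10 ^ 10 * (k : ℝ) ^ 2 := by
    have h1 := err_sum (G := G) (X := X) (Y := Y) (β := 1) hMy
    have h2 : (ee G Y Y : ℝ) ≤ 6 * Y.card := by exact_mod_cast eY Y (Finset.Subset.refl _)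
    have h3 : M * ((ee G Y Y : ℝ) + (1 : ℕ) * Y.card) ≤ M * (8 * k) := by
      refine mul_le_mul_of_nonneg_left ?_ hM0
      push_cast
      norm_num
      linarith
    refine h1.trans (h3.trans (le_of_eq ?_))
    rw [hMdef]
    ring
  set Gd : Finset V := X.filter fun x => (err G Y 1 x : ℝ) ≤ k / 10 ^ 5 with hGd
  set N : Finset V := X.filter fun x => ¬ (err G Y 1 x : ℝ) ≤ k / 10 ^ 5 with hN
  have hcard : Gd.card + N.card = X.card := card_filter_add_card_filter_not _
  have hkpos : (0 : ℝ) < k := lt_of_lt_of_le (by norm_num) kR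
  have hNcard : (N.card : ℝ) ≤ 8 / 10 ^ 5 * k := by
    have h1 : (N.card : ℝ) * (k / 10 ^ 5) ≤ ∑ x ∈ N, (err G Y 1 x : ℝ) := by
      have := card_nsmul_le_sum N (fun x => (err G Y 1 x : ℝ)) (k / 10 ^ 5) (by
        intro x hxN
        exact (not_le.1 (mem_filter.1 hxN).2).le)
      rwa [nsmul_eq_mul] at this
    have h2 : (∑ x ∈ N, (err G Y 1 x : ℝ)) ≤ ∑ x ∈ X, (err G Y 1 x : ℝ) :=
      sum_le_sum_of_subset_of_nonneg (filter_subset _ _) fun _ _ _ => Nat.cast_nonneg _
    have h3 : (N.card : ℝ) * (k / 10 ^ 5) ≤ (8 / 10 ^ 5 * k) * (k / 10 ^ 5) := by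
      refine (h1.trans (h2.trans hsum)).trans (le_of_eq ?_)
      ring
    exact le_of_mul_le_mul_right h3 (by positivity)
  have hGd3 : 3 ≤ Gd.card := by
    have h1 : (Gd.card : ℝ) + N.card = X.card := by exact_mod_cast hcard
    have h2 : (3 : ℝ) ≤ Gd.card := by
      norm_num at hNcard
      linarith
    exact_mod_cast h2
  have hgood : ∀ x ∈ Gd, (err G Y 1 x : ℝ) ≤ k / 10 ^ 5 := fun x h => (mem_filter.1 h).2
  have hGX : Gd ⊆ X := filter_subset _ _
  have hNX : N ⊆ X := filter_subset _ _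
  refine ⟨?_, ?_⟩
  · obtain ⟨a, ha, b, hb, c, hc, h1, h2, h3⟩ := cutn_three hGd3
    have h4 := t0_err (Y := Y) (β := 1) hG h1 h2 h3 (A := ∅) (disjoint_empty_left _) (by simp)
      (by simp)
    rw [ee_empty_left, card_empty] at h4
    have h5 : (ee G Y Y : ℝ) + 2 * 0 ≤ 4 * ((Y.card : ℝ) + 0) +
        2 * ((err G Y 1 a : ℝ) + err G Y 1 b + err G Y 1 c) := by exact_mod_cast h4
    have := hgood a ha
    have := hgood b hb
    have := hgood c hc
    have h6 : (10 : ℝ) ^ 5 * ee G Y Y ≤ 4 * 10 ^ 5 * Y.card + 6 * k := by linarith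
    exact_mod_cast h6
  · by_cases hadj : ∃ a ∈ Gd, ∃ b ∈ Gd, G.Adj a b
    · left
      obtain ⟨a, ha, b, hb, hab⟩ := hadj
      obtain ⟨c, hc, h2, h3⟩ := cutn_third hGd3 a b
      have h4 := t1_err (Y := Y) (β := 1) hG hab h2 h3 (A := ∅) (disjoint_empty_left _) (by simp)
        (by simp)
      rw [ee_empty_left, card_empty] at h4
      have h5 : (ee G Y Y : ℝ) + 2 * 0 ≤ 2 * ((Y.card : ℝ) + 0) +
          2 * ((err G Y 1 a : ℝ) + err G Y 1 b + err G Y 1 c) := by exact_mod_cast h4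
      have := hgood a ha
      have := hgood b hb
      have := hgood c hc
      have h6 : (10 : ℝ) ^ 5 * ee G Y Y ≤ 2 * 10 ^ 5 * Y.card + 7 * k := by linarith
      exact_mod_cast h6
    · by_cases hthree : ∃ c ∈ X, 3 ≤ dg G c Gd
      · left
        obtain ⟨c, hcX, hc3⟩ := hthree
        obtain ⟨a, ha, b, hb, d, hdd, h1, h2, h3, a1, a2, a3⟩ := two_lt_dg hc3
        have hcY : c ∉ Y := fun h => disjoint_left.1 hd hcX h
        have h4 := t0_err (Y := Y) (β := 1) hG h1 h2 h3 (A := {c})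
          (disjoint_singleton_left.2 hcY)
          (by
            intro x hx'
            rw [mem_singleton] at hx'
            rw [hx']
            exact ⟨a1.symm, a2.symm, a3.symm⟩)
          (by simp)
        rw [ee_singleton_left, card_singleton] at h4
        have h5 : (ee G Y Y : ℝ) + 2 * dg G c Y ≤ 4 * ((Y.card : ℝ) + 1) +
            2 * ((err G Y 1 a : ℝ) + err G Y 1 b + err G Y 1 d) := by exact_mod_cast h4
        have h6 : (dg G c Y : ℝ) + (ms G c Y).card = Y.card := by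
          exact_mod_cast dg_add_ms (G := G) c Y
        have h7 := hMx c hcX
        have g1 := hgood a ha
        have g2 := hgood b hb
        have g3 := hgood d hdd
        rw [hMdef] at h7
        clear_value M Gd N
        have h8 : (10 : ℝ) ^ 5 * ee G Y Y ≤ 2 * 10 ^ 5 * Y.card + 7 * k := by
          generalize (ee G Y Y : ℝ) = E at *
          generalize (dg G c Y : ℝ) = D at *
          generalize ((ms G c Y).card : ℝ) = m at *
          generalize (Y.card : ℝ) = y at *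
          generalize (err G Y 1 a : ℝ) = ea at *
          generalize (err G Y 1 b : ℝ) = eb at *
          generalize (err G Y 1 d : ℝ) = ed at *
          norm_num at h7 g1 g2 g3 ⊢
          linarith
        exact_mod_cast h8
      · right
        have e0 : ee G Gd Gd = 0 :=
          ee_self_eq_zero fun a ha b hb hab => hadj ⟨a, ha, b, hb, hab⟩
        have e1 : ee G N Gd ≤ 2 * N.card := by
          have : ee G N Gd ≤ ∑ _v ∈ N, 2 := by
            refine sum_le_sum fun v hv => ?_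
            by_contra hcon
            exact hthree ⟨v, hNX hv, by omega⟩
          rwa [sum_const, smul_eq_mul, mul_comm] at this
        have e2 := eX N hNX
        have hdis : Disjoint Gd N := disjoint_filter_filter_not _ _ _
        have hun : Gd ∪ N = X := filter_union_filter_not_eq _ _
        have e3 := ee_union_self (G := G) hdis
        rw [hun, e0, ee_comm Gd N] at e3
        have e4 : ee G X X ≤ 10 * N.card := by omega
        have e5 : (ee G X X : ℝ) ≤ 10 * N.card := by exact_mod_cast e4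
        have e6 : (10 : ℝ) ^ 4 * ee G X X ≤ 8 * k + 10 ^ 5 := by
          norm_num at hNcard ⊢
          linarith
        exact_mod_cast e6

theorem near_of_cut (h : Cut G X Y k i o) (hk : 10 ^ 8 ≤ k) (hi : 10 * i ≤ k)
    (hx : ∀ x ∈ X, 10 ^ 10 * (ms G x Y).card ≤ k) (hy : ∀ y ∈ Y, 10 ^ 10 * (ms G y X).card ≤ k) :
    Near G X Y k i o := by
  have cX := h.cX
  have cY := h.cY
  have ho := h.ho
  have he := h.edges
  obtain ⟨c1, ab1⟩ := d0_alt h.geo h.disj hk (by omega) (by omega) (by omega) (by omega) hx hy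
  obtain ⟨c2, ab2⟩ := d0_alt h.geo h.disj.symm hk (by omega) (by omega) (by omega) (by omega) hy hx
  have key : 1000 * mm G X Y ≤ k ∧ 1000 * i ≤ k := by
    have hq : 1000 * i ≤ k ∨ (k < 1000 * i ∧ 10 ^ 5 * i ≤ i * i) := by
      rcases Nat.lt_or_ge k (1000 * i) with h1 | h1
      · right
        refine ⟨h1, ?_⟩
        refine Nat.mul_le_mul_right i ?_
        omega
      · left
        exact h1
    have hi2 : 2 * i ≤ i * i + 1 := by
      rcases i with _ | i
      · simp
      · nlinarith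
    generalize i * i = q at *
    generalize o * i = r at *
    generalize mm G X Y = m at *
    generalize ee G X X = ex at *
    generalize ee G Y Y = ey at *
    generalize X.card = cx at *
    generalize Y.card = cy at *
    rcases hq with hq | ⟨hq1, hq2⟩
    · refine ⟨?_, hq⟩
      rcases ab1 with a1 | b1
      · rcases ab2 with a2 | b2
        · omega
        · omega
      · omega
    · exfalso
      rcases ab1 with a1 | b1
      · rcases ab2 with a2 | b2
        · omega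
        · omega
      · omega
  exact
    { geo := h.geo
      disj := h.disj
      cX := h.cX
      cY := h.cY
      ho := h.ho
      dX := h.dX
      dY := h.dY
      edges := h.edges
      hk := hk
      hm := key.1
      hi := key.2 }

end Pool.Agent.Lib.MP_a3b162_co.CS
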