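import Mathlib

/-!
The exact maximum of `f_1` of centrally symmetric 4-polytopes (MP_a3b162_co, campaign cs):
graph notions.  `nb`, `dg`, `ms`: neighbours, their number, non-neighbours of a vertex in a finite
set; `ee G A B` = number of adjacent ordered pairs in `A × B` (so `ee G A A` is TWICE the number of
edges inside `A`); `Geo G` = the three geometric properties T0, T1, T2.
-/

set_option autoImplicit false

namespace Pool.Agent.Lib.MP_a3b162_co.CS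

open Finset
open scoped Classical

variable {V : Type}

/-- neighbours of `v` in `A` -/
noncomputable def nb (G : SimpleGraph V) (v : V) (A : Finset V) : Finset V :=
  A.filter fun w => G.Adj v w

/-- non-neighbours of `v` in `A` (used for `v ∉ A`: the missing pairs at `v`) -/
noncomputable def ms (G : SimpleGraph V) (v : V) (A : Finset V) : Finset V :=
  A.filter fun w => ¬ G.Adj v w

/-- number of neighbours of `v` in `A` -/
noncomputable def dg (G : SimpleGraph V) (v : V) (A : Finset V) : ℕ := (nb G v A).card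

/-- number of adjacent ordered pairs in `A × B` -/
noncomputable def ee (G : SimpleGraph V) (A B : Finset V) : ℕ := ∑ v ∈ A, dg G v B

/-- number of missing pairs between `A` and `B` -/
noncomputable def mm (G : SimpleGraph V) (A B : Finset V) : ℕ := ∑ v ∈ A, (ms G v B).card

/-- the clean vertices of `X` (adjacent to all of `Y`) -/
noncomputable def cl (G : SimpleGraph V) (X Y : Finset V) : Finset V :=
  X.filter fun x => ms G x Y = ∅

/-- the geometric properties T0, T1, T2 of the graph of full pairs -/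
structure Geo (G : SimpleGraph V) : Prop where
  /-- T0 -/
  t0 : ∀ x1 x2 x3 : V, x1 ≠ x2 → x1 ≠ x3 → x2 ≠ x3 → ∀ Z : Finset V,
    (∀ z ∈ Z, G.Adj x1 z ∧ G.Adj x2 z ∧ G.Adj x3 z) → 2 ≤ Z.card → ee G Z Z + 6 ≤ 4 * Z.card
  /-- T1, number of edges -/
  t1 : ∀ x1 x2 x3 : V, G.Adj x1 x2 → x1 ≠ x3 → x2 ≠ x3 → ∀ Z : Finset V,
    (∀ z ∈ Z, G.Adj x1 z ∧ G.Adj x2 z ∧ G.Adj x3 z) → ee G Z Z ≤ 2 * Z.card
  /-- T1, no 4-cycle -/
  t1c : ∀ x1 x2 x3 : V, G.Adj x1 x2 → x1 ≠ x3 → x2 ≠ x3 → ∀ z1 z2 z3 z4 : V,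
    (∀ z ∈ ({z1, z2, z3, z4} : Set V), G.Adj x1 z ∧ G.Adj x2 z ∧ G.Adj x3 z) →
    z1 ≠ z3 → z2 ≠ z4 → G.Adj z1 z2 → G.Adj z2 z3 → G.Adj z3 z4 → G.Adj z4 z1 → False
  /-- T2, number of edges -/
  t2 : ∀ x1 x2 x3 : V, G.Adj x1 x2 → G.Adj x2 x3 → x1 ≠ x3 → ∀ Z : Finset V,
    (∀ z ∈ Z, G.Adj x1 z ∧ G.Adj x2 z ∧ G.Adj x3 z) → Z.Nonempty → ee G Z Z + 2 ≤ 2 * Z.card
  /-- T2, a vertex cover with at most four points -/
  t2c : ∀ x1 x2 x3 : V, G.Adj x1 x2 → G.Adj x2 x3 → x1 ≠ x3 → ∀ Z : Finset V,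
    (∀ z ∈ Z, G.Adj x1 z ∧ G.Adj x2 z ∧ G.Adj x3 z) →
    ∃ C ⊆ Z, C.card ≤ 4 ∧ ∀ a ∈ Z, ∀ b ∈ Z, G.Adj a b → a ∈ C ∨ b ∈ C

end Pool.Agent.Lib.MP_a3b162_co.CS
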