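import Pool.Agent.Lib.MP_a3b162_co.CS.Tools

/-!
MODULE EA (60 min).  Balanced near-clean case: no clean path, and each side has a hub.

`e0_noP3`.  `tool_path` (`c` clean: `nb G c Y = Y`): `ee Y Y + 2 ≤ 2k`, and a set `C ⊆ Y`, `|C| ≤ 4`,
covers all edges of `Y`.  Every `y ∈ Y` has `dg y Y ≥ 1`, so every `y ∈ Y \ C` has a neighbour in `C`:
`k - 4 ≤ |Y \ C| ≤ ∑_{b ∈ C} dg b Y`, some `b ∈ C` has `4 dg b Y ≥ k - 4`.  `|Y \ cl G Y X| ≤ mm ≤ k/1000`
(`card_not_cl`), so `dg b (cl G Y X) ≥ 3` (`dg_mono`/`dg_sdiff`).  `tool_hub` for the side `Y`: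
`ee X X + 2 ≤ 2k + 2 m(b)`, `m(b) ≤ mm G Y X = mm G X Y`.  Sum against `edges`:
`4k + 2 mm ≤ ee X X + ee Y Y + 2 ≤ 4k + 2 m(b) - 2`.  Contradiction.

`e0_hub`.  Suppose `dg c (cl G X Y) ≤ 2` for all `c ∈ X`.  `A = cl G X Y`, `N = X \ A`, `|N| ≤ mm`.
`dg x A ≤ 1` for `x ∈ A` (`e0_noP3`), so `ee A A ≤ |A|`; `ee A N = ee N A ≤ 2 |N|`;
`ee N N ≤ 4 |N|` (`tool_t0'` for the other side).  So `ee X X ≤ k + 8 mm`.
Every `x ∈ A` has `dg x X ≥ 1`; if there is no edge inside `A` then `|A| ≤ ee A N ≤ 2 |N|`, impossible.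
So there is a clean edge, `tool_edge`: `ee Y Y ≤ 2k`.  Then `4k - 2 ≤ 3k + 8 mm`, contradiction.
-/

set_option autoImplicit false

namespace Pool.Agent.Lib.MP_a3b162_co.CS

open Finset
open scoped Classical

variable {V : Type} {G : SimpleGraph V} {X Y : Finset V} {k : ℕ}

theorem e0_noP3 (h : Near G X Y k 0 0) {x1 c x2 : V} (h1 : x1 ∈ cl G X Y) (hc : c ∈ cl G X Y)
    (h2 : x2 ∈ cl G X Y) (hne : x1 ≠ x2) (ha : G.Adj x1 c) (hb : G.Adj c x2) : False := by
  have hk := h.hk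
  have hm := h.hm
  have cX := h.cX
  have cY := h.cY
  have hedges := h.edges
  have hnb : nb G c Y = Y := by
    ext y
    rw [mem_nb]
    exact ⟨fun hy => hy.1, fun hy => ⟨hy, (mem_cl.1 hc).2 y hy⟩⟩
  obtain ⟨hZ, C, hCY, hC4, hcov⟩ := tool_path h.geo h1 h2 ha hb hne
  rw [hnb] at hZ hCY hcov
  have hYne : Y.Nonempty := card_pos.1 (by omega)
  have hXne : X.Nonempty := card_pos.1 (by omega)
  have hYY := hZ Y subset_rfl hYne
  -- the vertices outside the cover have a neighbour in the cover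
  have hdeg : ∀ y ∈ Y \ C, 1 ≤ dg G y C := by
    intro y hy
    rw [mem_sdiff] at hy
    have h3 := h.dY y hy.1
    have h4 : 0 < dg G y Y := by omega
    obtain ⟨w, hw, hyw⟩ := dg_pos.1 h4
    rcases hcov y hy.1 w hw hyw with h5 | h5
    · exact absurd h5 hy.2
    · exact dg_pos.2 ⟨w, h5, hyw⟩
  have hsum1 : (Y \ C).card ≤ ee G (Y \ C) C := by
    have := card_nsmul_le_sum (Y \ C) (fun y => dg G y C) 1 hdeg
    simpa [ee] using this
  have hsum2 : ee G (Y \ C) C ≤ ∑ b ∈ C, dg G b Y := by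
    rw [ee_comm]
    exact sum_le_sum fun b _ => dg_mono b sdiff_subset
  have hcard : (Y \ C).card + C.card = Y.card := card_sdiff_add_card_eq_card hCY
  obtain ⟨b, hbC, hb4⟩ : ∃ b ∈ C, k ≤ 4 * dg G b Y + 4 := by
    by_contra hcon
    push Not at hcon
    have h5 : ∑ b ∈ C, 4 * dg G b Y ≤ C.card * (k - 5) := by
      have := sum_le_card_nsmul C (fun b => 4 * dg G b Y) (k - 5)
        (fun b hb => by have := hcon b hb; show 4 * dg G b Y ≤ k - 5; omega)
      simpa using this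
    rw [← mul_sum] at h5
    have h6 : C.card * (k - 5) ≤ 4 * (k - 5) := Nat.mul_le_mul_right _ hC4
    omega
  have hbY : b ∈ Y := hCY hbC
  have hcl := card_not_cl (G := G) Y X
  have hmc : mm G Y X = mm G X Y := mm_comm Y X
  have h7 := dg_sdiff (G := G) b (cl_subset (G := G) Y X)
  have h8 : dg G b (Y \ cl G Y X) ≤ (Y \ cl G Y X).card := dg_le_card b _
  have h9 : (Y \ cl G Y X).card + (cl G Y X).card = Y.card :=
    card_sdiff_add_card_eq_card (cl_subset Y X)
  have hub := tool_hub h.geo h.disj.symm hbY (by omega) hXne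
  have hms : (ms G b X).card ≤ mm G Y X := ms_le_mm hbY
  omega

theorem e0_hub (h : Near G X Y k 0 0) : ∃ c ∈ X, 3 ≤ dg G c (cl G X Y) := by
  by_contra hcon
  push Not at hcon
  have hk := h.hk
  have hm := h.hm
  have cX := h.cX
  have cY := h.cY
  have hedges := h.edges
  have hmc : mm G Y X = mm G X Y := mm_comm Y X
  have hcl := card_not_cl (G := G) X Y
  have hcl' := card_not_cl (G := G) Y X
  have hNA : (X \ cl G X Y).card + (cl G X Y).card = X.card :=
    card_sdiff_add_card_eq_card (cl_subset X Y)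
  have hA1 : ∀ x ∈ cl G X Y, dg G x (cl G X Y) ≤ 1 := by
    intro x hx
    by_contra h1
    obtain ⟨a, ha, b, hb, hab, hxa, hxb⟩ := one_lt_dg (show 2 ≤ dg G x (cl G X Y) by omega)
    exact e0_noP3 h ha hx hb hab hxa.symm hxb
  have hAA : ee G (cl G X Y) (cl G X Y) ≤ (cl G X Y).card := by
    have := sum_le_card_nsmul (cl G X Y) (fun x => dg G x (cl G X Y)) 1 hA1
    simpa [ee] using this
  have hNAe : ee G (X \ cl G X Y) (cl G X Y) ≤ 2 * (X \ cl G X Y).card := by
    have := sum_le_card_nsmul (X \ cl G X Y) (fun x => dg G x (cl G X Y)) 2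
      (fun x hx => by
        have := hcon x (mem_sdiff.1 hx).1
        show dg G x (cl G X Y) ≤ 2
        omega)
    simpa [ee, mul_comm] using this
  have hNN : ee G (X \ cl G X Y) (X \ cl G X Y) ≤ 4 * (X \ cl G X Y).card :=
    tool_t0' (X := Y) (Y := X) h.geo (by omega) sdiff_subset
  have hXX : ee G X X = ee G (cl G X Y) (cl G X Y) + 2 * ee G (cl G X Y) (X \ cl G X Y) +
      ee G (X \ cl G X Y) (X \ cl G X Y) := by
    have h1 := ee_union_self (G := G) (disjoint_sdiff (s := cl G X Y) (t := X))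
    rw [union_sdiff_of_subset (cl_subset X Y)] at h1
    exact h1
  have hcomm : ee G (cl G X Y) (X \ cl G X Y) = ee G (X \ cl G X Y) (cl G X Y) := ee_comm _ _
  -- a clean edge
  obtain ⟨x1, hx1, x2, hx2, hx12⟩ : ∃ x1 ∈ cl G X Y, ∃ x2 ∈ cl G X Y, G.Adj x1 x2 := by
    by_contra hno
    push Not at hno
    have hd : ∀ x ∈ cl G X Y, 1 ≤ dg G x (X \ cl G X Y) := by
      intro x hx
      have h3 := h.dX x (cl_subset X Y hx)
      have h4 : 0 < dg G x X := by omega
      obtain ⟨w, hw, hxw⟩ := dg_pos.1 h4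
      refine dg_pos.2 ⟨w, mem_sdiff.2 ⟨hw, fun hwA => hno x hx w hwA hxw⟩, hxw⟩
    have h5 : (cl G X Y).card ≤ ee G (cl G X Y) (X \ cl G X Y) := by
      have := card_nsmul_le_sum (cl G X Y) (fun x => dg G x (X \ cl G X Y)) 1 hd
      simpa [ee] using this
    omega
  have hYY := tool_edge h.geo hx1 hx2 hx12 (by omega)
  omega

end Pool.Agent.Lib.MP_a3b162_co.CS
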