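import Pool.Agent.Lib.MP_a3b162_co.CS.EA

/-!
MODULE EB (75 min).  Balanced near-clean case: the two hubs `c ∈ X`, `c' ∈ Y`.

`core_exists`.  `c` from `e0_hub h`, `c'` from `e0_hub h.symm`.  `tool_hub` on both sides:
`ee Y Y + 2 ≤ 2k + 2 m(c)`, `ee X X + 2 ≤ 2k + 2 m(c')`, with `edges`: `mm + 1 ≤ m(c) + m(c')`.
On the other hand `mm = ∑_{x ∈ X} |ms x Y| ≥ m(c) + ∑_{x ∈ X, x ≠ c} |ms x Y|`, and
`∑_{x ≠ c} |ms x Y| ≥ |{x ∈ X : x ≠ c, x c' missing}| ≥ m(c') - 1`, `≥ m(c')` if `c c'` is an edge;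
one more if some missing pair `x y` has `x ≠ c`, `y ≠ c'`.  So `c c'` is missing, every missing pair is
at `c` or `c'`, and the two inequalities of `tool_hub` are equalities.

`core_eH`: `ee (X - c) (X - c) + 2 dg c X = ee X X` (`ee_erase_self`), and
`dg c X = dg c (X - c) = k - 1 - |ms c (X - c)|`; `|ms c' (X - c)| = m(c') - 1`.

`core_a`.  An edge `x1 x2` of `X - c` inside `N(c)`; `x3` a third clean neighbour of `c` (`hub`, one of
three is different from `x1, x2`).  All of `x1 x2 x3` are adjacent to all of `Y - c'` (`only`) and to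
`c`.  T1 with `Z = insert c (Y.erase c')`:
`ee (Y - c') (Y - c') + 2 dg c (Y - c') ≤ 2k`, `dg c (Y - c') = k - m(c)`, and by `core_eH` for
the other side `ee (Y - c') (Y - c') = 2 (|ms c (Y - c')| + 1 + |ms c' (Y - c')|)
= 2 (m(c) + |ms c' (Y - c')|)`.  So `ms c' (Y - c') = ∅`.

`core_nu`.  Suppose `ms c (X - c) = ∅`.  `ee (X - c) (X - c) > 0`: an edge, inside `N(c)`; by `core_a`
also `ms c' (Y - c') = ∅`.  No path `u - w - u'` in `X - c`: T2 with `Z = insert c (Y - c')`: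
`ee (Y - c')(Y - c') + 2 (k - m(c)) + 2 ≤ 2k`, but `ee (Y - c')(Y - c') = 2 m(c)`.  So
`dg x (X - c) ≤ 1` for `x ∈ X - c`.  If every edge of `X - c` touched `B' = ms c' (X - c)`, then
`ee (X - c)(X - c) ≤ 2 ∑_{B'} dg ≤ 2 |B'|` (`ee_sdiff_ge`), but it is `2 (|B'| + 1)`.  So there is an
edge `x1 x2` of clean vertices in `N(c)`; a third clean neighbour `x3` of `c`; `tool_edge_hub`:
`ee Y Y + 2 (k - m(c)) ≤ 2 (k + 1)`, against `eY`.
-/

set_option autoImplicit false

namespace Pool.Agent.Lib.MP_a3b162_co.CS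

open Finset
open scoped Classical

variable {V : Type} {G : SimpleGraph V} {X Y : Finset V} {k : ℕ} {c c' : V}

/-- the situation after step 3 -/
structure Core (G : SimpleGraph V) (X Y : Finset V) (k : ℕ) (c c' : V) : Prop where
  near : Near G X Y k 0 0
  hc : c ∈ X
  hc' : c' ∈ Y
  hub : 3 ≤ dg G c (cl G X Y)
  hub' : 3 ≤ dg G c' (cl G Y X)
  na : ¬ G.Adj c c'
  only : ∀ x ∈ X, ∀ y ∈ Y, ¬ G.Adj x y → x = c ∨ y = c'
  eY : ee G Y Y + 2 = 2 * k + 2 * (ms G c Y).card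
  eX : ee G X X + 2 = 2 * k + 2 * (ms G c' X).card

theorem Core.symm (h : Core G X Y k c c') : Core G Y X k c' c where
  near := h.near.symm
  hc := h.hc'
  hc' := h.hc
  hub := h.hub'
  hub' := h.hub
  na := fun h1 => h.na h1.symm
  only := fun x hx y hy h1 => (h.only y hy x hx (fun h2 => h1 h2.symm)).symm
  eY := h.eX
  eX := h.eY

theorem EB_dg_erase (v : V) (A : Finset V) : dg G v (A.erase v) = dg G v A := by
  unfold dg
  congr 1
  ext w
  simp only [mem_nb, mem_erase]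
  constructor
  · rintro ⟨⟨_, h1⟩, h2⟩
    exact ⟨h1, h2⟩
  · rintro ⟨h1, h2⟩
    exact ⟨⟨h2.ne', h1⟩, h2⟩

theorem EB_ms_erase {v w : V} {A : Finset V} (hw : w ∈ A) (h : ¬ G.Adj v w) :
    (ms G v A).card = (ms G v (A.erase w)).card + 1 := by
  have e : ms G v A = insert w (ms G v (A.erase w)) := by
    ext x
    simp only [mem_ms, mem_insert, mem_erase]
    constructor
    · rintro ⟨h1, h2⟩
      by_cases h3 : x = w
      · exact Or.inl h3
      · exact Or.inr ⟨⟨h3, h1⟩, h2⟩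
    · rintro (h1 | ⟨⟨_, h1⟩, h2⟩)
      · subst h1
        exact ⟨hw, h⟩
      · exact ⟨h1, h2⟩
  rw [e, card_insert_of_notMem]
  intro h1
  exact (mem_erase.1 (mem_ms.1 h1).1).1 rfl

/-- an edge inside `A` if `ee A A > 0` -/
theorem EB_edge {A : Finset V} (h : 0 < ee G A A) : ∃ a ∈ A, ∃ b ∈ A, G.Adj a b := by
  by_contra hn
  push Not at hn
  have h0 : ee G A A = 0 := by
    refine sum_eq_zero fun v hv => ?_
    by_contra h1
    obtain ⟨w, hw, ha⟩ := dg_pos.1 (Nat.pos_of_ne_zero h1)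
    exact hn v hv w hw ha
  omega

theorem core_exists (h : Near G X Y k 0 0) : ∃ c c' : V, Core G X Y k c c' := by
  obtain ⟨c, hc, hub⟩ := e0_hub h
  obtain ⟨c', hc', hub'⟩ := e0_hub h.symm
  have t1 := tool_hub h.geo h.disj hc hub ⟨c', hc'⟩
  have t2 := tool_hub h.geo h.disj.symm hc' hub' ⟨c, hc⟩
  have hX := h.cX
  have hY := h.cY
  have hE := h.edges
  have hs : mm G X Y = (ms G c Y).card + ∑ x ∈ X.erase c, (ms G x Y).card :=
    (Finset.add_sum_erase X (fun x => (ms G x Y).card) hc).symm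
  have hs' : ∑ x ∈ X.erase c, (if G.Adj c' x then 0 else 1) = (ms G c' (X.erase c)).card := by
    simp only [ms, card_filter]
    refine sum_congr rfl fun x _ => ?_
    by_cases h1 : G.Adj c' x <;> simp [h1]
  have hle : ∀ x ∈ X.erase c, (if G.Adj c' x then 0 else 1) ≤ (ms G x Y).card := by
    intro x _
    split_ifs with h1
    · exact Nat.zero_le _
    · exact card_pos.2 ⟨c', mem_ms.2 ⟨hc', fun h2 => h1 h2.symm⟩⟩
  have hsum := sum_le_sum hle
  rw [hs'] at hsum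
  have hna : ¬ G.Adj c' c := by
    intro hA
    have e : ms G c' X ⊆ ms G c' (X.erase c) := by
      intro x hx
      rw [mem_ms] at hx
      rw [mem_ms, mem_erase]
      refine ⟨⟨?_, hx.1⟩, hx.2⟩
      rintro rfl
      exact hx.2 hA
    have e2 := card_le_card e
    omega
  have hms := EB_ms_erase hc hna
  refine ⟨c, c', ⟨h, hc, hc', hub, hub', fun h1 => hna h1.symm, ?_, by omega, by omega⟩⟩
  intro x hx y hy hxy
  by_contra hcon
  rw [not_or] at hcon
  have hlt : (if G.Adj c' x then 0 else 1) < (ms G x Y).card := by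
    split_ifs with h1
    · exact card_pos.2 ⟨y, mem_ms.2 ⟨hy, hxy⟩⟩
    · refine one_lt_card.2 ⟨y, mem_ms.2 ⟨hy, hxy⟩, c', mem_ms.2 ⟨hc', fun h2 => h1 h2.symm⟩, hcon.2⟩
  have := sum_lt_sum hle ⟨x, mem_erase.2 ⟨hcon.1, hx⟩, hlt⟩
  rw [hs'] at this
  omega

theorem core_eH (h : Core G X Y k c c') :
    ee G (X.erase c) (X.erase c) =
      2 * ((ms G c' (X.erase c)).card + (ms G c (X.erase c)).card + 1) := by
  have h1 := ee_erase_self (G := G) h.hc
  have h2 := EB_dg_erase (G := G) c X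
  have h3 := dg_add_ms (G := G) c (X.erase c)
  rw [card_erase_of_mem h.hc] at h3
  have h4 := EB_ms_erase (G := G) (v := c') h.hc (fun h5 => h.na h5.symm)
  have h5 := h.eX
  have h6 := h.near.cX
  have h7 := h.near.hk
  omega

/-- the set `insert c (Y - c')` -/
theorem EB_Z (h : Core G X Y k c c') :
    (insert c (Y.erase c')).card = k ∧
    ee G (insert c (Y.erase c')) (insert c (Y.erase c')) = 2 * (ms G c' (Y.erase c')).card + 2 * k := by
  have hcY : c ∉ Y := fun h1 => disjoint_left.1 h.near.disj h.hc h1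
  have hc1 : c ∉ Y.erase c' := fun h1 => hcY (mem_erase.1 h1).2
  have h1 := ee_insert_self (G := G) hc1
  have h2 := core_eH h.symm
  have h3 := dg_add_ms (G := G) c (Y.erase c')
  rw [card_erase_of_mem h.hc'] at h3
  have h4 := EB_ms_erase (G := G) (v := c) h.hc' h.na
  have h6 := h.near.cY
  have h7 := h.near.hk
  rw [card_insert_of_notMem hc1, card_erase_of_mem h.hc']
  constructor
  · omega
  · omega

theorem EB_third (h : Core G X Y k c c') (x1 x2 : V) :
    ∃ x3 ∈ cl G X Y, G.Adj c x3 ∧ x1 ≠ x3 ∧ x2 ≠ x3 := by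
  obtain ⟨a, ha, b, hb, d, hd, hab, had, hbd, h1, h2, h3⟩ := two_lt_dg h.hub
  by_cases ha' : x1 ≠ a ∧ x2 ≠ a
  · exact ⟨a, ha, h1, ha'.1, ha'.2⟩
  by_cases hb' : x1 ≠ b ∧ x2 ≠ b
  · exact ⟨b, hb, h2, hb'.1, hb'.2⟩
  refine ⟨d, hd, h3, ?_, ?_⟩
  · rintro rfl
    have e1 : x2 = a := by
      by_contra h4
      exact ha' ⟨fun h5 => had h5.symm, h4⟩
    have e2 : x2 = b := by
      by_contra h4
      exact hb' ⟨fun h5 => hbd h5.symm, h4⟩
    exact hab (e1.symm.trans e2)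
  · rintro rfl
    have e1 : x1 = a := by
      by_contra h4
      exact ha' ⟨h4, fun h5 => had h5.symm⟩
    have e2 : x1 = b := by
      by_contra h4
      exact hb' ⟨h4, fun h5 => hbd h5.symm⟩
    exact hab (e1.symm.trans e2)

theorem EB_adjZ (h : Core G X Y k c c') {x : V} (hx : x ∈ X.erase c) (hcx : G.Adj c x) :
    ∀ z ∈ insert c (Y.erase c'), G.Adj x z := by
  intro z hz
  rw [mem_insert] at hz
  rcases hz with rfl | hz
  · exact hcx.symm
  · rw [mem_erase] at hz hx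
    by_contra h1
    rcases h.only x hx.2 z hz.2 h1 with h2 | h2
    · exact hx.1 h2
    · exact hz.1 h2

theorem core_a (h : Core G X Y k c c') {x1 x2 : V} (h1 : x1 ∈ X.erase c) (h2 : x2 ∈ X.erase c)
    (ha : G.Adj x1 x2) (hc1 : G.Adj c x1) (hc2 : G.Adj c x2) : ms G c' (Y.erase c') = ∅ := by
  obtain ⟨x3, hx3, hc3, h13, h23⟩ := EB_third h x1 x2
  have hx3' : x3 ∈ X.erase c := mem_erase.2 ⟨hc3.ne', cl_subset _ _ hx3⟩
  obtain ⟨e1, e2⟩ := EB_Z h
  have t := h.near.geo.t1 x1 x2 x3 ha h13 h23 (insert c (Y.erase c')) (fun z hz =>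
    ⟨EB_adjZ h h1 hc1 z hz, EB_adjZ h h2 hc2 z hz, EB_adjZ h hx3' hc3 z hz⟩)
  rw [e1, e2] at t
  rw [← card_eq_zero]
  omega

theorem core_nu (h : Core G X Y k c c') : (ms G c (X.erase c)).Nonempty := by
  by_contra hn
  rw [not_nonempty_iff_eq_empty] at hn
  have hadj : ∀ x ∈ X.erase c, G.Adj c x := by
    intro x hx
    by_contra h1
    have h2 : x ∈ ms G c (X.erase c) := mem_ms.2 ⟨hx, h1⟩
    rw [hn] at h2
    exact absurd h2 (notMem_empty x)
  have hE := core_eH h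
  rw [hn, card_empty] at hE
  obtain ⟨x1, h1, x2, h2, ha⟩ := EB_edge (G := G) (A := X.erase c) (by omega)
  have hms := core_a h h1 h2 ha (hadj x1 h1) (hadj x2 h2)
  obtain ⟨e1, e2⟩ := EB_Z h
  rw [hms, card_empty] at e2
  have hk := h.near.hk
  -- no path of length two
  have hdeg : ∀ x ∈ X.erase c, dg G x (X.erase c) ≤ 1 := by
    intro w hw
    by_contra h3
    obtain ⟨u, hu, u', hu', hne, a1, a2⟩ := one_lt_dg (G := G) (v := w) (A := X.erase c) (by omega)
    have t := h.near.geo.t2 u w u' a1.symm a2 hne (insert c (Y.erase c')) (fun z hz =>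
      ⟨EB_adjZ h hu (hadj u hu) z hz, EB_adjZ h hw (hadj w hw) z hz,
        EB_adjZ h hu' (hadj u' hu') z hz⟩) ⟨c, mem_insert_self _ _⟩
    omega
  have hs := ee_sdiff_ge (G := G) (X.erase c) (ms G c' (X.erase c)) (ms_subset _ _)
  have hs2 : ∑ r ∈ ms G c' (X.erase c), dg G r (X.erase c) ≤ (ms G c' (X.erase c)).card := by
    rw [card_eq_sum_ones]
    exact sum_le_sum fun r hr => hdeg r (ms_subset _ _ hr)
  obtain ⟨y1, g1, y2, g2, gb⟩ := EB_edge (G := G) (A := X.erase c \ ms G c' (X.erase c)) (by omega)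
  have hclean : ∀ y ∈ X.erase c \ ms G c' (X.erase c), y ∈ cl G X Y := by
    intro y hy
    rw [mem_sdiff] at hy
    refine mem_cl.2 ⟨(mem_erase.1 hy.1).2, fun z hz => ?_⟩
    by_contra hcon
    rcases h.only y (mem_erase.1 hy.1).2 z hz hcon with h3 | h3
    · exact (mem_erase.1 hy.1).1 h3
    · subst h3
      exact hy.2 (mem_ms.2 ⟨hy.1, fun h4 => hcon h4.symm⟩)
  have f1 := (mem_sdiff.1 g1).1
  have f2 := (mem_sdiff.1 g2).1
  obtain ⟨x3, hx3, hc3, h13, h23⟩ := EB_third h y1 y2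
  have t := tool_edge_hub h.near.geo h.near.disj (hclean y1 g1) (hclean y2 g2) hx3 h.hc gb h13 h23
    (hadj y1 f1) (hadj y2 f2) hc3
  have h5 := dg_add_ms (G := G) c Y
  have h6 := h.eY
  have h7 := h.near.cY
  omega

end Pool.Agent.Lib.MP_a3b162_co.CS
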