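import Pool.Agent.Lib.MP_a3b162_co.CS.Api

/-!
MODULE Forest (30 min).  The forest lemma and the minimal set lemma (pure counting).

`forest_lemma`.  Let `W = P ∪ Q`.  `ee U U = ee W W + 2 ee W (U \ W) + ee (U \ W) (U \ W)`
(`ee_union_self`); the last term is `0` (an edge outside `W` does not touch `P`).
`ee W W + 2 ≤ 2 |W|` (W nonempty: else `ee U U = 0`, against `hE`), `|W| + |P ∩ Q| = |P| + |Q|`.
Hence `ee W (U \ W) ≥ |P ∩ Q| + 2`.  `ee W (U \ W) = ∑_{s ∈ W} dg s (U \ W)`, and the terms with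
`s ∉ P ∩ Q` vanish (an edge `s w`, `w ∉ W`, touches `P` and `Q` only at `s`).  So some `s ∈ P ∩ Q` has
`dg s (U \ W) ≥ 2` (`one_lt_dg`).

`min_sub`.  Take `S ⊆ Y` with the property of least cardinality.  For `y ∈ S` the set `S.erase y` does
not have the property: `ee (S - y) (S - y) < 2 (∑_{S - y} μ + 1)`, and
`ee (S - y) (S - y) + 2 dg y S = ee S S` (`ee_erase_self`).
-/

set_option autoImplicit false

namespace Pool.Agent.Lib.MP_a3b162_co.CS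

open Finset
open scoped Classical

variable {V : Type} {G : SimpleGraph V}

theorem forest_lemma {U P Q : Finset V} (hP : P ⊆ U) (hQ : Q ⊆ U)
    (hF : ∀ Z ⊆ U, Z.Nonempty → ee G Z Z + 2 ≤ 2 * Z.card)
    (tP : ∀ a ∈ U, ∀ b ∈ U, G.Adj a b → a ∈ P ∨ b ∈ P)
    (tQ : ∀ a ∈ U, ∀ b ∈ U, G.Adj a b → a ∈ Q ∨ b ∈ Q)
    (hE : 2 * (P.card + Q.card + 1) ≤ ee G U U) :
    ∃ s ∈ P, s ∈ Q ∧ ∃ a ∈ U, ∃ b ∈ U, a ≠ b ∧ G.Adj s a ∧ G.Adj s b ∧
      a ∉ P ∧ a ∉ Q ∧ b ∉ P ∧ b ∉ Q := by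
  have hWU : P ∪ Q ⊆ U := union_subset hP hQ
  have h1 : ee G U U = ee G (P ∪ Q) (P ∪ Q) + 2 * ee G (P ∪ Q) (U \ (P ∪ Q)) +
      ee G (U \ (P ∪ Q)) (U \ (P ∪ Q)) := by
    conv_lhs => rw [← union_sdiff_of_subset hWU]
    exact ee_union_self disjoint_sdiff
  have h0 : ee G (U \ (P ∪ Q)) (U \ (P ∪ Q)) = 0 := by
    refine sum_eq_zero fun v hv => ?_
    by_contra hne
    obtain ⟨w, hw, hvw⟩ := dg_pos.1 (Nat.pos_of_ne_zero hne)
    rw [mem_sdiff, mem_union] at hv hw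
    rcases tP v hv.1 w hw.1 hvw with h | h
    · exact hv.2 (Or.inl h)
    · exact hw.2 (Or.inl h)
  have hne : (P ∪ Q).Nonempty := by
    by_contra hcon
    rw [not_nonempty_iff_eq_empty] at hcon
    rw [h0, hcon, ee_empty_left, ee_empty_left] at h1
    omega
  have h2 := hF _ hWU hne
  have h3 := card_union_add_card_inter P Q
  have h4 : (P ∩ Q).card + 2 ≤ ee G (P ∪ Q) (U \ (P ∪ Q)) := by omega
  have h5 : ee G (P ∪ Q) (U \ (P ∪ Q)) = ee G (P ∩ Q) (U \ (P ∪ Q)) := by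
    symm
    refine sum_subset ((inter_subset_left).trans subset_union_left) fun v hv hv' => ?_
    by_contra hne'
    obtain ⟨w, hw, hvw⟩ := dg_pos.1 (Nat.pos_of_ne_zero hne')
    rw [mem_sdiff, mem_union, not_or] at hw
    apply hv'
    rw [mem_inter]
    constructor
    · rcases tP v (hWU hv) w hw.1 hvw with h | h
      · exact h
      · exact absurd h hw.2.1
    · rcases tQ v (hWU hv) w hw.1 hvw with h | h
      · exact h
      · exact absurd h hw.2.2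
  obtain ⟨s, hs, hs2⟩ : ∃ s ∈ P ∩ Q, 2 ≤ dg G s (U \ (P ∪ Q)) := by
    by_contra hcon
    push Not at hcon
    have h6 : ee G (P ∩ Q) (U \ (P ∪ Q)) ≤ ∑ _s ∈ P ∩ Q, 1 :=
      sum_le_sum fun s hs => Nat.le_of_lt_succ (hcon s hs)
    rw [sum_const, smul_eq_mul, mul_one] at h6
    omega
  obtain ⟨a, ha, b, hb, hab, hsa, hsb⟩ := one_lt_dg hs2
  rw [mem_inter] at hs
  rw [mem_sdiff, mem_union, not_or] at ha hb
  exact ⟨s, hs.1, hs.2, a, ha.1, b, hb.1, hab, hsa, hsb, ha.2.1, ha.2.2, hb.2.1, hb.2.2⟩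

theorem min_sub (μ : V → ℕ) {Y : Finset V} (h : 2 * (∑ y ∈ Y, μ y + 1) ≤ ee G Y Y) :
    ∃ S ⊆ Y, 2 * (∑ y ∈ S, μ y + 1) ≤ ee G S S ∧ ∀ y ∈ S, 1 + μ y ≤ dg G y S := by
  obtain ⟨S, hS, hmin⟩ := exists_min_image
    (Y.powerset.filter fun S => 2 * (∑ y ∈ S, μ y + 1) ≤ ee G S S) card
    ⟨Y, mem_filter.2 ⟨mem_powerset_self Y, h⟩⟩
  rw [mem_filter, mem_powerset] at hS
  refine ⟨S, hS.1, hS.2, fun y hy => ?_⟩
  by_contra hcon
  have h1 : ¬ 2 * (∑ y ∈ S.erase y, μ y + 1) ≤ ee G (S.erase y) (S.erase y) := by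
    intro h2
    have h3 := hmin (S.erase y)
      (mem_filter.2 ⟨mem_powerset.2 ((erase_subset y S).trans hS.1), h2⟩)
    have h4 := card_erase_lt_of_mem hy
    omega
  have h2 := ee_erase_self (G := G) hy
  have h3 := sum_erase_add S μ hy
  have h4 := hS.2
  omega

end Pool.Agent.Lib.MP_a3b162_co.CS
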