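import Pool.Agent.Lib.MP_a3b162_co.CS.EB
import Pool.Agent.Lib.MP_a3b162_co.CS.Forest

/-!
MODULE EC (75 min).  Balanced near-clean case: the contradiction.
Write `H = X.erase c`, `B' = ms c' H`, `D = ms c H` (and `H' = Y.erase c'`, `B = ms c H'`,
`D' = ms c' H'` on the other side).

`core_D`: every edge of `H` touches `D`: else it lies inside `N(c)`, `core_a` gives
`ms c' (Y - c') = ∅`, against `core_nu h.symm`.
`core_B_ne`: `B'` nonempty.  Suppose `B' = ∅`: all of `H` is clean (`only`), `e0_noP3`: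
`dg x H ≤ 1` for `x ∈ H`; every edge touches `D`: `ee H H ≤ 2 ∑_D dg ≤ 2 |D|` (`ee_sdiff_ge`), against
`core_eH`.
`core_B`: every edge of `H` touches `B'`: else it is a clean edge of `X` (`only`), `tool_edge`:
`ee Y Y ≤ 2k`; but `ee Y Y + 2 = 2k + 2 m(c)` with `m(c) = |B| + 1 ≥ 2` (`core_B_ne h.symm`).
`core_path`: `∑_{x ∈ B'} dg x H ≥ ee H H / 2 > |B'|` (`ee_sdiff_ge`), so some `w ∈ B'` has two
neighbours `u u'` in `H`: T2 with `Z ⊆ Y.erase c'` (all of `H` is adjacent to all of `Y - c'`).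
`core_false`: `forest_lemma` with `U = H`, `P = B'`, `Q = D` (hF from `core_path h.symm`), and for the
other side.  `s ∈ B' ∩ D` with `x1 x2 ∈ H` outside `B' ∪ D`; `s' ∈ B ∩ D'` with `y1 y2 ∈ H'` outside.
`T = {s, s', c}` (`s s'` adjacent by `only`), 4-cycle `x1 y1 x2 y2` in the common neighbourhood:
`s x_i` edges of `H`; `s y_j`, `s' x_i`, `x_i y_j` by `only`; `s' y_j` edges; `c x_i` (`x_i ∉ D`),
`c y_j` (`y_j ∉ B`).  `hG.t1c`.
-/

set_option autoImplicit false

namespace Pool.Agent.Lib.MP_a3b162_co.CS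

open Finset
open scoped Classical

variable {V : Type} {G : SimpleGraph V} {X Y : Finset V} {k : ℕ} {c c' : V}

theorem ec_clean (h : Core G X Y k c c') {x : V} (hx : x ∈ X.erase c) (hx' : G.Adj c' x) :
    x ∈ cl G X Y := by
  rw [mem_cl]
  refine ⟨mem_of_mem_erase hx, fun y hy => ?_⟩
  by_contra hn
  rcases h.only x (mem_of_mem_erase hx) y hy hn with h1 | h1
  · exact (ne_of_mem_erase hx) h1
  · subst h1
    exact hn hx'.symm

theorem ec_cross (h : Core G X Y k c c') {x y : V} (hx : x ∈ X.erase c) (hy : y ∈ Y.erase c') :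
    G.Adj x y := by
  by_contra hn
  rcases h.only x (mem_of_mem_erase hx) y (mem_of_mem_erase hy) hn with h1 | h1
  · exact (ne_of_mem_erase hx) h1
  · exact (ne_of_mem_erase hy) h1

theorem ec_cover {H P : Finset V} (hP : P ⊆ H)
    (hc : ∀ a ∈ H, ∀ b ∈ H, G.Adj a b → a ∈ P ∨ b ∈ P) :
    ee G H H ≤ 2 * ∑ r ∈ P, dg G r H := by
  have h1 := ee_sdiff_ge (G := G) H P hP
  have h2 : ee G (H \ P) (H \ P) = 0 := by
    rw [ee]
    refine sum_eq_zero fun a ha => ?_
    by_contra hne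
    obtain ⟨b, hb, hab⟩ := dg_pos.1 (Nat.pos_of_ne_zero hne)
    rw [mem_sdiff] at ha hb
    rcases hc a ha.1 b hb.1 hab with h3 | h3
    · exact ha.2 h3
    · exact hb.2 h3
  omega

theorem core_D (h : Core G X Y k c c') {a b : V} (ha : a ∈ X.erase c) (hb : b ∈ X.erase c)
    (hab : G.Adj a b) : a ∈ ms G c (X.erase c) ∨ b ∈ ms G c (X.erase c) := by
  by_contra hn
  push Not at hn
  obtain ⟨h1, h2⟩ := hn
  rw [mem_ms] at h1 h2
  push Not at h1 h2
  have h3 := core_a h ha hb hab (h1 ha) (h2 hb)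
  have h4 := core_nu h.symm
  rw [h3] at h4
  exact not_nonempty_empty h4

theorem core_B_ne (h : Core G X Y k c c') : (ms G c' (X.erase c)).Nonempty := by
  rw [nonempty_iff_ne_empty]
  intro he
  have hadj : ∀ x ∈ X.erase c, G.Adj c' x := by
    intro x hx
    by_contra hn
    have : x ∈ ms G c' (X.erase c) := mem_ms.2 ⟨hx, hn⟩
    rw [he] at this
    exact notMem_empty _ this
  have hcl : ∀ x ∈ X.erase c, x ∈ cl G X Y := fun x hx => ec_clean h hx (hadj x hx)
  have hdg : ∀ x ∈ X.erase c, dg G x (X.erase c) ≤ 1 := by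
    intro x hx
    by_contra hn
    obtain ⟨a, ha, b, hb, hab, h1, h2⟩ := one_lt_dg (show 2 ≤ dg G x (X.erase c) by omega)
    exact e0_noP3 h.near (hcl a ha) (hcl x hx) (hcl b hb) hab h1.symm h2
  have h1 := ec_cover (G := G) (ms_subset c (X.erase c)) fun a ha b hb hab => core_D h ha hb hab
  have h2 : ∑ r ∈ ms G c (X.erase c), dg G r (X.erase c) ≤ (ms G c (X.erase c)).card := by
    calc ∑ r ∈ ms G c (X.erase c), dg G r (X.erase c) ≤ ∑ r ∈ ms G c (X.erase c), 1 :=
          sum_le_sum fun r hr => hdg r (ms_subset _ _ hr)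
      _ = _ := by simp
  have h3 := core_eH h
  omega

theorem core_B (h : Core G X Y k c c') {a b : V} (ha : a ∈ X.erase c) (hb : b ∈ X.erase c)
    (hab : G.Adj a b) : a ∈ ms G c' (X.erase c) ∨ b ∈ ms G c' (X.erase c) := by
  by_contra hn
  push Not at hn
  obtain ⟨h1, h2⟩ := hn
  rw [mem_ms] at h1 h2
  push Not at h1 h2
  have h3 := tool_edge h.near.geo (ec_clean h ha (h1 ha)) (ec_clean h hb (h2 hb)) hab
    (h.hub.trans (dg_le_card _ _))
  obtain ⟨w, hw⟩ := core_B_ne h.symm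
  have h4 : ({c', w} : Finset V) ⊆ ms G c Y := by
    intro z hz
    rw [mem_insert, mem_singleton] at hz
    rcases hz with rfl | rfl
    · exact mem_ms.2 ⟨h.hc', h.na⟩
    · exact ms_mono c (erase_subset _ _) hw
  have h5 : ({c', w} : Finset V).card = 2 := by
    refine card_pair ?_
    intro hcw
    have := (mem_ms.1 hw).1
    rw [← hcw] at this
    exact notMem_erase _ _ this
  have h6 := card_le_card h4
  have h7 := h.eY
  have h8 := h.near.cY
  omega

theorem core_path (h : Core G X Y k c c') :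
    ∀ Z ⊆ Y.erase c', Z.Nonempty → ee G Z Z + 2 ≤ 2 * Z.card := by
  intro Z hZ hne
  have h1 := ec_cover (G := G) (ms_subset c' (X.erase c)) fun a ha b hb hab => core_B h ha hb hab
  have h3 := core_eH h
  have h4 : ∃ w ∈ ms G c' (X.erase c), 2 ≤ dg G w (X.erase c) := by
    by_contra hn
    push Not at hn
    have h2 : ∑ r ∈ ms G c' (X.erase c), dg G r (X.erase c) ≤ (ms G c' (X.erase c)).card := by
      calc ∑ r ∈ ms G c' (X.erase c), dg G r (X.erase c) ≤ ∑ r ∈ ms G c' (X.erase c), 1 :=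
            sum_le_sum fun r hr => by have := hn r hr; omega
        _ = _ := by simp
    omega
  obtain ⟨w, hw, hd⟩ := h4
  obtain ⟨u, hu, u', hu', huu, e1, e2⟩ := one_lt_dg hd
  have hwH : w ∈ X.erase c := ms_subset _ _ hw
  exact h.near.geo.t2 u w u' e1.symm e2 huu Z
    (fun z hz => ⟨ec_cross h hu (hZ hz), ec_cross h hwH (hZ hz), ec_cross h hu' (hZ hz)⟩) hne

theorem ec_forest (h : Core G X Y k c c') :
    ∃ s ∈ ms G c' (X.erase c), s ∈ ms G c (X.erase c) ∧ ∃ a ∈ X.erase c, ∃ b ∈ X.erase c,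
      a ≠ b ∧ G.Adj s a ∧ G.Adj s b ∧ G.Adj c a ∧ G.Adj c b ∧ G.Adj c' a ∧ G.Adj c' b := by
  obtain ⟨s, hs, hs', a, ha, b, hb, hab, h1, h2, h3, h4, h5, h6⟩ :=
    forest_lemma (G := G) (ms_subset c' (X.erase c)) (ms_subset c (X.erase c)) (core_path h.symm)
      (fun a ha b hb hab => core_B h ha hb hab) (fun a ha b hb hab => core_D h ha hb hab)
      (core_eH h).ge
  rw [mem_ms] at h3 h4 h5 h6
  push Not at h3 h4 h5 h6
  exact ⟨s, hs, hs', a, ha, b, hb, hab, h1, h2, h4 ha, h6 hb, h3 ha, h5 hb⟩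

theorem core_false (h : Core G X Y k c c') : False := by
  obtain ⟨s, hs, hs', x1, hx1, x2, hx2, hx, a1, a2, a3, a4, -, -⟩ := ec_forest h
  obtain ⟨s', ht, ht', y1, hy1, y2, hy2, hy, b1, b2, -, -, b3, b4⟩ := ec_forest h.symm
  have hsH : s ∈ X.erase c := ms_subset _ _ hs
  have htH : s' ∈ Y.erase c' := ms_subset _ _ ht
  have hcY : ∀ y ∈ Y, y ≠ c := by
    intro y hy h1
    subst h1
    exact disjoint_left.1 h.near.disj h.hc hy
  refine h.near.geo.t1c s s' c (ec_cross h hsH htH) (ne_of_mem_erase hsH)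
    (hcY _ (mem_of_mem_erase htH)) x1 y1 x2 y2 ?_ hx hy (ec_cross h hx1 hy1)
    (ec_cross h hx2 hy1).symm (ec_cross h hx2 hy2) (ec_cross h hx1 hy2).symm
  intro z hz
  simp only [Set.mem_insert_iff, Set.mem_singleton_iff] at hz
  rcases hz with rfl | rfl | rfl | rfl
  · exact ⟨a1, (ec_cross h hx1 htH).symm, a3⟩
  · exact ⟨ec_cross h hsH hy1, b1, b3⟩
  · exact ⟨a2, (ec_cross h hx2 htH).symm, a4⟩
  · exact ⟨ec_cross h hsH hy2, b2, b4⟩

theorem e0_false (h : Near G X Y k 0 0) : False := by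
  obtain ⟨c, c', hc⟩ := core_exists h
  exact core_false hc

end Pool.Agent.Lib.MP_a3b162_co.CS
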