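import Pool.Agent.Lib.MP_a3b162_co.CS.Main
import Pool.Agent.Lib.MP_a3b162_co.CS.BCount
import Pool.Agent.Lib.MP_a3b162_co.CS.AGeoF
import Pool.Agent.Lib.MP_a3b162_co.NG.Final

/-!
The exact maximum of `f_1` of centrally symmetric 4-polytopes with many vertices.
-/

set_option autoImplicit false

namespace Pool.Agent.Lib.MP_a3b162_co.CS

open Finset
open Pool.Agent.Lib.MP_a3b162_co.NG

theorem upper_final : ∃ N0 : ℕ, ∀ n : ℕ, N0 ≤ n → ∀ P : Set (Fin 4 → ℝ), IsPolytope P →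
    IsCS P → f 0 P = 2 * n → f 1 P ≤ n ^ 2 + n - 4 + 2 * (n ^ 2 / 4) := by
  obtain ⟨N0, hN⟩ := graph_main
  refine ⟨N0, fun n hn P hP hcs hf => ?_⟩
  obtain ⟨v, hdn, hV, h3⟩ := from_poly (by omega) hP hcs hf
  obtain ⟨δ, hδ, h4⟩ := vtx_EE_open hV
  obtain ⟨v', h5, hA, -⟩ := perturb (by omega) v δ hδ
  obtain ⟨-, h6⟩ := h4 v' h5
  have h7 := EE_le_full v'
  have h8 := hN (Fin n) (fullGraph v') (geo_full hA) (by simpa using hn)
  rw [Fintype.card_fin] at h8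
  have h9 : n * (n - 1) + n = n ^ 2 := by
    obtain ⟨m, rfl⟩ : ∃ m, n = m + 1 := ⟨n - 1, by omega⟩
    rw [Nat.add_sub_cancel]
    ring
  have h10 : 4 ≤ n ^ 2 := by nlinarith
  omega

theorem lower_final {n m : ℕ} (hn : 4 ≤ n) (h1 : 4 * (n - 1) ≤ m)
    (h2 : 2 * m ≤ n ^ 2 + n - 4 + 2 * (n ^ 2 / 4)) :
    ∃ P : Set (Fin 4 → ℝ), IsPolytope P ∧ IsCS P ∧ IsSimplicial P ∧ f 0 P = 2 * n ∧
      f 1 P = 2 * m := by
  obtain ⟨v, hV, hE⟩ := lower_EE hn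
  obtain ⟨δ, hδ, h4⟩ := vtx_EE_open hV
  obtain ⟨v', h5, hA', hB'⟩ := perturb (by omega) v δ hδ
  obtain ⟨hV', h6⟩ := h4 v' h5
  have h9 : n * (n - 1) + n = n ^ 2 := by
    obtain ⟨m, rfl⟩ : ∃ m, n = m + 1 := ⟨n - 1, by omega⟩
    rw [Nat.add_sub_cancel]
    ring
  have h10 : 4 ≤ n ^ 2 := by nlinarith
  have h11 : 2 * (n * (n - 1) / 2) = n * (n - 1) := by
    have := Nat.even_mul_pred_self n
    exact Nat.two_mul_div_two_of_even this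
  obtain ⟨u, hA, hB, hVu, h7⟩ := induct (m := m) le_rfl hn hA' hB' hV' h1 (by omega)
  refine ⟨PPd u, ppd_polytope (by omega) hn hA, ⟨0, ppd_cs u⟩,
    ppd_simplicial (by omega) hn hA hB hVu, ppd_fzero (by omega) hn hA hVu, ?_⟩
  apply le_antisymm
  · have h8 := edges_le (c := 0) (v := u) (by omega) (ppd_polytope (by omega) hn hA) (ppd_cs u)
      (by simpa using ppd_inj hVu) (by simpa using (ppd_ext hVu).symm)
    rw [h7] at h8
    exact h8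
  · have h8 := edges_ge (by omega) hn hA hVu
    rw [h7] at h8
    exact h8

/-- the final statement -/
theorem exact_max : ∃ N0 : ℕ, ∀ n : ℕ, N0 ≤ n →
    (∀ P : Set (Fin 4 → ℝ), IsPolytope P → IsCS P → f 0 P = 2 * n →
      f 1 P ≤ n ^ 2 + n - 4 + 2 * (n ^ 2 / 4)) ∧
    (∀ m : ℕ, 8 * (n - 1) ≤ 2 * m → 2 * m ≤ n ^ 2 + n - 4 + 2 * (n ^ 2 / 4) →
      ∃ P : Set (Fin 4 → ℝ), IsPolytope P ∧ IsCS P ∧ IsSimplicial P ∧ f 0 P = 2 * n ∧
        f 1 P = 2 * m) := by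
  obtain ⟨N0, hN⟩ := upper_final
  refine ⟨max N0 4, fun n hn => ⟨hN n ((le_max_left _ _).trans hn), fun m h1 h2 => ?_⟩⟩
  exact lower_final ((le_max_right _ _).trans hn) (by omega) h2

end Pool.Agent.Lib.MP_a3b162_co.CS
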