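import Pool.Agent.Lib.MP_a3b162_co.CS.Tools

/-!
MODULE IIa (60 min).  Near-clean case with `o + i ≥ 1`; `Y` has a clean edge or a vertex with at least
three clean neighbours.

Let `mm = mm G X Y`, `N = X \ cl G X Y`, `|N| ≤ mm ≤ k/1000` (`card_not_cl`).
1. `ee X X ≤ 2 |X| + 2 mm`: `tool_edge` resp. `tool_hub` for the side `Y` (`ms_le_mm`, `mm_comm`).
2. `dg x X ≥ 2 + m(x)` for all `x ∈ X` (`dX`), so `∑_{x ∈ X} (dg x X - 2) ≤ 2 mm`.
   `Bad = {x ∈ X : dg x X ≥ 3}`: `|Bad| ≤ 2 mm`, `∑_{x ∈ Bad} dg x X ≤ 6 mm`.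
   As `8 mm < k ≤ |X|` some `x ∈ X` is not in `Bad` and has no neighbour in `Bad`: `x` is clean,
   `dg x X = 2`, both neighbours `x1 ≠ x2` are clean.
3. `tool_path` (centre `x`, clean, `nb G x Y = Y`): `C ⊆ Y`, `|C| ≤ 4`, covers
   the edges of `Y`.  By `edges` and 1: `ee Y Y ≥ 2k - 2 - 2i`, so some `y ∈ C` has
   `dg y Y ≥ (k - 1 - i)/4`, hence at least two clean neighbours `y1 ≠ y2`.
4. `tool_path` for the side `Y` (path `y1 - y - y2`): `C' ⊆ nb G y X`, `|C'| ≤ 4`, covers the edges of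
   `G[nb G y X]`.  So (`ee_sdiff_ge` twice) `ee X X ≤ 12 mm + 16`, but `ee X X ≥ 2 |X| ≥ 2k`.
-/

set_option autoImplicit false

namespace Pool.Agent.Lib.MP_a3b162_co.CS

open Finset
open scoped Classical

variable {V : Type} {G : SimpleGraph V} {X Y : Finset V} {k i o : ℕ}

theorem iia_cover {A C : Finset V} (hC : C ⊆ A)
    (h : ∀ a ∈ A, ∀ b ∈ A, G.Adj a b → a ∈ C ∨ b ∈ C) :
    ee G A A ≤ 2 * ∑ b ∈ C, dg G b A := by
  have h1 := ee_sdiff_ge (G := G) A C hC
  have h2 : ee G (A \ C) (A \ C) = 0 := by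
    refine sum_eq_zero fun v hv => ?_
    rw [dg, card_eq_zero, eq_empty_iff_forall_notMem]
    intro w hw
    rw [mem_nb] at hw
    rw [mem_sdiff] at hv
    rcases h v hv.1 w (mem_sdiff.1 hw.1).1 hw.2 with h3 | h3
    · exact hv.2 h3
    · exact (mem_sdiff.1 hw.1).2 h3
  omega

theorem IIa (h : Near G X Y k i o) (hoi : 1 ≤ o + i)
    (hY : (∃ y1 ∈ cl G Y X, ∃ y2 ∈ cl G Y X, G.Adj y1 y2) ∨ ∃ y ∈ Y, 3 ≤ dg G y (cl G Y X)) :
    False := by
  have hk := h.hk
  have hm := h.hm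
  have hi := h.hi
  have hcX := h.cX
  have hcY := h.cY
  have hmc : mm G Y X = mm G X Y := mm_comm Y X
  have hclY := card_not_cl (G := G) Y X
  rw [hmc] at hclY
  -- step 1
  have s1 : ee G X X ≤ 2 * X.card + 2 * mm G X Y := by
    rcases hY with ⟨y1, h1, y2, h2, ha⟩ | ⟨y, hy, h3⟩
    · have := tool_edge h.geo h1 h2 ha (by omega)
      omega
    · have hne : X.Nonempty := by
        rw [← card_pos]
        omega
      have h4 := tool_hub h.geo h.disj.symm hy h3 hne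
      have h5 := ms_le_mm (G := G) (B := X) hy
      omega
  -- step 2
  have hd2 : ∀ x ∈ X, 2 + (ms G x Y).card ≤ dg G x X := by
    intro x hx
    have := h.dX x hx
    omega
  have hf : ∑ x ∈ X, (dg G x X - 2) + 2 * X.card = ee G X X := by
    have : ∑ x ∈ X, (dg G x X - 2) + ∑ x ∈ X, 2 = ee G X X := by
      rw [← sum_add_distrib]
      refine sum_congr rfl fun x hx => ?_
      have := hd2 x hx
      omega
    rw [sum_const, smul_eq_mul] at this
    omega
  have hf' : ∑ x ∈ X, (dg G x X - 2) ≤ 2 * mm G X Y := by omega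
  have hfsub : ∀ A ⊆ X, ∑ x ∈ A, dg G x X ≤ 2 * A.card + 2 * mm G X Y := by
    intro A hA
    have e1 : ∑ x ∈ A, dg G x X = ∑ x ∈ A, (dg G x X - 2) + 2 * A.card := by
      have : ∑ x ∈ A, (dg G x X - 2) + ∑ x ∈ A, 2 = ∑ x ∈ A, dg G x X := by
        rw [← sum_add_distrib]
        refine sum_congr rfl fun x hx => ?_
        have := hd2 x (hA hx)
        omega
      rw [sum_const, smul_eq_mul] at this
      omega
    have e2 : ∑ x ∈ A, (dg G x X - 2) ≤ ∑ x ∈ X, (dg G x X - 2) :=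
      sum_le_sum_of_subset hA
    omega
  obtain ⟨Bad, hBad⟩ : ∃ Bad, Bad = X.filter fun x => 3 ≤ dg G x X := ⟨_, rfl⟩
  have hBadX : Bad ⊆ X := by rw [hBad]; exact filter_subset _ _
  have hBc : Bad.card ≤ 2 * mm G X Y := by
    have e1 : Bad.card ≤ ∑ x ∈ Bad, (dg G x X - 2) := by
      rw [card_eq_sum_ones]
      refine sum_le_sum fun x hx => ?_
      rw [hBad, mem_filter] at hx
      omega
    have e2 : ∑ x ∈ Bad, (dg G x X - 2) ≤ ∑ x ∈ X, (dg G x X - 2) :=
      sum_le_sum_of_subset hBadX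
    omega
  have hBs := hfsub Bad hBadX
  have hNB : (Bad.biUnion fun b => nb G b X).card ≤ ∑ b ∈ Bad, dg G b X := card_biUnion_le
  obtain ⟨x, hx, hxB⟩ : ∃ x ∈ X, x ∉ Bad ∪ Bad.biUnion fun b => nb G b X := by
    by_contra hcon
    push Not at hcon
    have e1 : X ⊆ Bad ∪ Bad.biUnion fun b => nb G b X := fun x hx => hcon x hx
    have e2 := card_le_card e1
    have e3 := card_union_le Bad (Bad.biUnion fun b => nb G b X)
    omega
  rw [mem_union, not_or] at hxB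
  have hgood : ∀ z ∈ X, z ∉ Bad → z ∈ cl G X Y ∧ dg G z X = 2 := by
    intro z hz hzB
    have e1 := hd2 z hz
    have e2 : ¬ 3 ≤ dg G z X := fun h' => hzB (by rw [hBad, mem_filter]; exact ⟨hz, h'⟩)
    have e3 : (ms G z Y).card = 0 := by omega
    refine ⟨?_, by omega⟩
    rw [cl, mem_filter]
    exact ⟨hz, card_eq_zero.1 e3⟩
  obtain ⟨hxcl, hxd⟩ := hgood x hx hxB.1
  obtain ⟨x1, hx1, x2, hx2, hne, ha1, ha2⟩ := one_lt_dg (G := G) (v := x) (A := X) (by omega)
  have hnb : ∀ z ∈ X, G.Adj x z → z ∉ Bad := by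
    intro z hz ha hzB
    apply hxB.2
    rw [mem_biUnion]
    exact ⟨z, hzB, mem_nb.2 ⟨hx, ha.symm⟩⟩
  have hx1c := (hgood x1 hx1 (hnb x1 hx1 ha1)).1
  have hx2c := (hgood x2 hx2 (hnb x2 hx2 ha2)).1
  -- step 3
  obtain ⟨-, C, hCs, hCc, hCcov⟩ := tool_path h.geo hx1c hx2c ha1.symm ha2 hne
  have hnbx : nb G x Y = Y := by
    ext w
    rw [mem_nb]
    exact ⟨fun h' => h'.1, fun h' => ⟨h', (mem_cl.1 hxcl).2 w h'⟩⟩
  rw [hnbx] at hCs hCcov
  have s3 := iia_cover hCs hCcov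
  have hed := h.edges
  have s3' : 2 * k ≤ ee G Y Y + 2 + 2 * i := by
    have e1 : 0 ≤ i * i := Nat.zero_le _
    have e2 : 0 ≤ o * i := Nat.zero_le _
    nlinarith
  obtain ⟨y, hyC, hy4⟩ : ∃ y ∈ C, k ≤ 4 * dg G y Y + 1 + i := by
    by_contra hcon
    push Not at hcon
    have e1 : ∑ b ∈ C, (4 * dg G b Y + 2 + i) ≤ ∑ b ∈ C, k := by
      refine sum_le_sum fun b hb => ?_
      have := hcon b hb
      omega
    rw [sum_const, smul_eq_mul, sum_add_distrib, sum_add_distrib, ← mul_sum, sum_const, sum_const,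
      smul_eq_mul, smul_eq_mul] at e1
    have e4 : k ≤ ∑ b ∈ C, dg G b Y + 1 + i := by omega
    have e5 : C.card * k + 0 ≤ 4 * k := by nlinarith
    rcases Nat.eq_zero_or_pos C.card with h0 | h0
    · have : C = ∅ := card_eq_zero.1 h0
      rw [this] at e4
      simp at e4
      omega
    · have e6 : C.card * 2 + C.card * i + 4 * ∑ b ∈ C, dg G b Y ≤ C.card * k := by omega
      have e7 : C.card = 4 ∨ C.card < 4 := by omega
      rcases e7 with e7 | e7
      · rw [e7] at e6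
        omega
      · have e8 : C.card * k ≤ 3 * k := by
          apply Nat.mul_le_mul_right
          omega
        omega
  have hyY : y ∈ Y := hCs hyC
  have hclsub : cl G Y X ⊆ Y := cl_subset _ _
  have hdcl := dg_sdiff (G := G) y hclsub
  have hdcl2 : dg G y (Y \ cl G Y X) ≤ mm G X Y := by
    have e1 := dg_le_card (G := G) y (Y \ cl G Y X)
    have e2 := card_sdiff_add_card_eq_card hclsub
    omega
  obtain ⟨y1, hy1, y2, hy2, hyne, hb1, hb2⟩ :=
    one_lt_dg (G := G) (v := y) (A := cl G Y X) (by omega)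
  -- step 4
  obtain ⟨-, C', hCs', hCc', hCcov'⟩ := tool_path h.geo hy1 hy2 hb1.symm hb2 hyne
  have s4 := iia_cover hCs' hCcov'
  have hR : ms G y X ⊆ X := ms_subset _ _
  have hRe := ee_sdiff_ge (G := G) X (ms G y X) hR
  have hXR : X \ ms G y X = nb G y X := by
    ext w
    rw [mem_sdiff, mem_ms, mem_nb]
    constructor
    · rintro ⟨h1, h2⟩
      refine ⟨h1, ?_⟩
      by_contra h3
      exact h2 ⟨h1, h3⟩
    · rintro ⟨h1, h2⟩
      exact ⟨h1, fun h3 => h3.2 h2⟩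
  rw [hXR] at hRe
  have hRc : (ms G y X).card ≤ mm G X Y := by
    have := ms_le_mm (G := G) (B := X) hyY
    omega
  have hRs := hfsub (ms G y X) hR
  have hCX : C' ⊆ X := hCs'.trans (nb_subset _ _)
  have hCs2 := hfsub C' hCX
  have hCs3 : ∑ b ∈ C', dg G b (nb G y X) ≤ ∑ b ∈ C', dg G b X :=
    sum_le_sum fun b _ => dg_mono b (nb_subset y X)
  omega

end Pool.Agent.Lib.MP_a3b162_co.CS
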