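import Pool.Agent.Lib.MP_a3b162_co.CS.Tools

/-!
MODULE IIb0 (45 min).  Near-clean case with `o + i ≥ 1`; `Y` has no clean edge and no vertex with three
clean neighbours (`hE`, `hH`).

`iib_upper`: `A = cl G Y X`, `N = Y \ A`, `|N| ≤ mm`.  `ee A A = 0`, `ee A N = ee N A ≤ 2 |N|`,
`ee N N ≤ 4 |N|` (`tool_t0'` with three clean vertices of `X`; `|cl G X Y| ≥ k - mm ≥ 3`): `ee Y Y ≤ 8 mm`.
`iib_T0`: three clean vertices of `Y`, `tool_t0` for the side `Y` with `W = X`.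
`iib_i`: if `i = 0` then `dg y Y ≥ 1` for all `y ∈ Y`; a clean `y` has its neighbours in `N`, each of
which has at most two clean neighbours: `|A| ≤ 2 |N|`, impossible.
`iib_lower`: `edges` and `iib_T0` (write `i = j + 1`).
-/

set_option autoImplicit false

namespace Pool.Agent.Lib.MP_a3b162_co.CS

open Finset
open scoped Classical

variable {V : Type} {G : SimpleGraph V} {X Y : Finset V} {k i o : ℕ}

private theorem iib0_N (G : SimpleGraph V) (X Y : Finset V) :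
    (Y \ cl G Y X).card ≤ mm G X Y ∧ (Y \ cl G Y X).card + (cl G Y X).card = Y.card := by
  have h1 := card_not_cl (G := G) Y X
  rw [mm_comm Y X] at h1
  have h2 := card_sdiff_add_card_eq_card (cl_subset (G := G) Y X)
  exact ⟨by omega, h2⟩

private theorem iib0_AA (hE : ∀ y1 ∈ cl G Y X, ∀ y2 ∈ cl G Y X, ¬ G.Adj y1 y2) {v : V}
    (hv : v ∈ cl G Y X) : dg G v (cl G Y X) = 0 := by
  by_contra h
  obtain ⟨w, hw, ha⟩ := dg_pos.1 (Nat.pos_of_ne_zero h)
  exact hE v hv w hw ha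

private theorem iib0_NA (hH : ∀ y ∈ Y, dg G y (cl G Y X) ≤ 2) :
    ee G (Y \ cl G Y X) (cl G Y X) ≤ 2 * (Y \ cl G Y X).card := by
  calc ee G (Y \ cl G Y X) (cl G Y X) = ∑ v ∈ Y \ cl G Y X, dg G v (cl G Y X) := rfl
    _ ≤ ∑ v ∈ Y \ cl G Y X, 2 := sum_le_sum fun v hv => hH v (sdiff_subset hv)
    _ = 2 * (Y \ cl G Y X).card := by rw [sum_const, smul_eq_mul, mul_comm]

theorem iib_upper (h : Near G X Y k i o)
    (hE : ∀ y1 ∈ cl G Y X, ∀ y2 ∈ cl G Y X, ¬ G.Adj y1 y2)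
    (hH : ∀ y ∈ Y, dg G y (cl G Y X) ≤ 2) : ee G Y Y ≤ 8 * mm G X Y := by
  have hN := iib0_N G X Y
  have hk := h.hk
  have hm := h.hm
  have hcX := h.cX
  have h3 : 3 ≤ (cl G X Y).card := by
    have := card_not_cl (G := G) X Y
    omega
  have h4 := tool_t0' h.geo h3 (W := Y \ cl G Y X) sdiff_subset
  have h5 := iib0_NA hH
  have hAA : ee G (cl G Y X) (cl G Y X) = 0 :=
    sum_eq_zero fun v hv => iib0_AA hE hv
  have hsplit : ee G Y Y = ee G (cl G Y X) (cl G Y X) +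
      2 * ee G (cl G Y X) (Y \ cl G Y X) + ee G (Y \ cl G Y X) (Y \ cl G Y X) := by
    conv_lhs => rw [← union_sdiff_of_subset (cl_subset (G := G) Y X)]
    exact ee_union_self disjoint_sdiff_self_right
  rw [ee_comm (cl G Y X) (Y \ cl G Y X)] at hsplit
  omega

theorem iib_T0 (h : Near G X Y k i o) : ee G X X + 6 ≤ 4 * X.card := by
  have hk := h.hk
  have hm := h.hm
  have hi := h.hi
  have hcX := h.cX
  have hcY := h.cY
  have h3 : 3 ≤ (cl G Y X).card := by
    have := card_not_cl (G := G) Y X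
    rw [mm_comm Y X] at this
    omega
  exact tool_t0 h.geo h3 (Subset.refl X) (by omega)

theorem iib_i (h : Near G X Y k i o)
    (hE : ∀ y1 ∈ cl G Y X, ∀ y2 ∈ cl G Y X, ¬ G.Adj y1 y2)
    (hH : ∀ y ∈ Y, dg G y (cl G Y X) ≤ 2) : 1 ≤ i := by
  by_contra hi0
  have hi0 : i = 0 := by omega
  have hN := iib0_N G X Y
  have hk := h.hk
  have hm := h.hm
  have hcY := h.cY
  have h5 := iib0_NA hH
  have h6 : (cl G Y X).card ≤ ee G (cl G Y X) (Y \ cl G Y X) := by
    calc (cl G Y X).card = ∑ v ∈ cl G Y X, 1 := by rw [sum_const, smul_eq_mul, mul_one]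
      _ ≤ ∑ v ∈ cl G Y X, dg G v (Y \ cl G Y X) := by
          refine sum_le_sum fun v hv => ?_
          have h7 := h.dY v (cl_subset _ _ hv)
          have h8 := dg_sdiff (G := G) v (cl_subset (G := G) Y X)
          have h9 := iib0_AA hE hv
          omega
      _ = ee G (cl G Y X) (Y \ cl G Y X) := rfl
  rw [ee_comm] at h6
  omega

theorem iib_lower (h : Near G X Y k i o) (hi : 1 ≤ i) :
    2 * (mm G X Y + 1) + 2 * ((i - 1) * (i - 1 + o)) ≤ ee G Y Y := by
  have h1 := iib_T0 h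
  have h2 := h.edges
  have h3 := h.cX
  obtain ⟨j, rfl⟩ : ∃ j, i = j + 1 := ⟨i - 1, by omega⟩
  rw [h3] at h1
  have e : j + 1 - 1 = j := by omega
  rw [e]
  nlinarith

end Pool.Agent.Lib.MP_a3b162_co.CS
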