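import Pool.Agent.Lib.MP_a3b162_co.CS.Tools

/-!
MODULE IIbA (75 min).  Consequences of (NP): every two vertices of `X` have at most two common clean
neighbours.  `s = Nat.sqrt k ≥ 10^4` (`Nat.sqrt_le'`, `Nat.lt_succ_sqrt'`).

`touch_bound`: `A = cl G X Y \ R`, `M = R ∪ (X \ cl G X Y)`, `X = A ∪ M`; `|M| ≤ |R| + mm`.
`ee X X - ee (X\R) (X\R)` is twice the number of edges touching `R`: these are edges between `A` and
`R` (`ee A R ≤ |X| + |R|²` by `ee_le_of_share`) or inside `M` (`ee M M ≤ 4 |M|`, `tool_t0'`).  Formally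
`ee X X = ee A A + 2 ee A M + ee M M`, `ee A M = ee A R + ee A (M \ R)` and
`ee (X\R)(X\R) ≥ ee A A + 2 ee A (M \ R)`.

`p3_missing`: `y1 - y - y2` a path in `Y`, `R = ms y1 X ∪ ms y X ∪ ms y2 X`.  T2 with `Z = X \ R`:
`C ⊆ X \ R`, `|C| ≤ 4`, covers, so with `R' = R ∪ C` there is no edge in `X \ R'`:
`4k - 2 - 8mm ≤ ee X X ≤ 2 (|X| + |R'|²) + 4 (|R'| + mm)` with `|X| = k + o + i ≤ k + 1 + k/1000`,
`mm ≤ k/1000`: `(|R'| + 1)² ≥ 0.992 k`, `|R| ≥ 0.9 s`.

`share_low`: `u ≠ u'` in `Y`, distinct `z1 z2 z3 ∈ Y` adjacent to both, each with `10 m(z) < 3 s`.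
`R = ⋃ ms z_i X`, `10 |R| < 9 s`.  T0 with `Z = (X \ R) ∪ {u, u'}`:
`ee (X\R)(X\R) + 2 dg u (X\R) + 2 dg u' (X\R) ≤ 4 (|X| + 2)`; by `touch_bound`
`ee (X\R)(X\R) ≥ 4k - 2 - 12 mm - 2|X| - 2|R|² - 4|R|`, `|R|² ≤ 0.81 k`, and
`dg u (X\R) ≥ |X| - mm - |R|`.  Left side `≥ 4.3 k`, right side `≤ 4.01 k`.
-/

set_option autoImplicit false

namespace Pool.Agent.Lib.MP_a3b162_co.CS

open Finset
open scoped Classical

variable {V : Type} {G : SimpleGraph V} {X Y : Finset V} {k i o : ℕ}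

theorem iibA_cl3 (h : Near G X Y k i o) : 3 ≤ (cl G Y X).card := by
  have h1 := card_not_cl (G := G) Y X
  rw [mm_comm Y X] at h1
  have h2 := h.hm
  have h3 := h.hi
  have h4 := h.cY
  have h5 : 100000000 ≤ k := by have := h.hk; norm_num at this; exact this
  omega

theorem touch_bound (h : Near G X Y k i o)
    (hNP : ∀ p ∈ X, ∀ q ∈ X, p ≠ q →
      ((cl G X Y).filter fun w => G.Adj p w ∧ G.Adj q w).card ≤ 2)
    {R : Finset V} (hR : R ⊆ X) :
    ee G X X ≤ ee G (X \ R) (X \ R) + 2 * (X.card + R.card * R.card)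
      + 4 * (R.card + mm G X Y) := by
  have hd : Disjoint (X \ R) R := disjoint_sdiff_self_left
  have e1 : ee G X X = ee G (X \ R) (X \ R) + 2 * ee G (X \ R) R + ee G R R := by
    conv_lhs => rw [← sdiff_union_of_subset hR]
    exact ee_union_self hd
  have hsplit : X \ R = (cl G X Y \ R) ∪ ((X \ cl G X Y) \ R) := by
    ext x
    have := @cl_subset V G X Y x
    simp only [mem_sdiff, mem_union]
    tauto
  have hd2 : Disjoint (cl G X Y \ R) ((X \ cl G X Y) \ R) := by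
    rw [Finset.disjoint_left]
    intro a ha hb
    simp only [mem_sdiff] at ha hb
    exact hb.1.2 ha.1
  have e2 : ee G (X \ R) R = ee G (cl G X Y \ R) R + ee G ((X \ cl G X Y) \ R) R := by
    rw [hsplit]
    exact ee_union_left hd2 R
  have hd3 : Disjoint ((X \ cl G X Y) \ R) R := disjoint_sdiff_self_left
  have e3 := ee_union_self (G := G) hd3
  have hsub : ((X \ cl G X Y) \ R) ∪ R ⊆ X :=
    union_subset (sdiff_subset.trans sdiff_subset) hR
  have e4 := tool_t0' h.geo (iibA_cl3 h) hsub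
  have c1 : (((X \ cl G X Y) \ R) ∪ R).card ≤ R.card + mm G X Y := by
    have h1 := card_union_le ((X \ cl G X Y) \ R) R
    have h2 : ((X \ cl G X Y) \ R).card ≤ (X \ cl G X Y).card := card_le_card sdiff_subset
    have h3 := card_not_cl (G := G) X Y
    have h4 : (X \ cl G X Y).card + (cl G X Y).card = X.card := by
      rw [card_sdiff_of_subset (cl_subset X Y)]
      have := card_le_card (cl_subset (G := G) X Y)
      omega
    omega
  have e5 : ee G (cl G X Y \ R) R ≤ (cl G X Y \ R).card + R.card * R.card := by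
    apply ee_le_of_share
    intro p hp q hq hpq
    refine (card_le_card ?_).trans (hNP p (hR hp) q (hR hq) hpq)
    exact filter_subset_filter _ sdiff_subset
  have c2 : (cl G X Y \ R).card ≤ X.card :=
    card_le_card (sdiff_subset.trans (cl_subset X Y))
  omega

theorem p3_missing (h : Near G X Y k i o)
    (hNP : ∀ p ∈ X, ∀ q ∈ X, p ≠ q →
      ((cl G X Y).filter fun w => G.Adj p w ∧ G.Adj q w).card ≤ 2)
    (hX : 4 * k ≤ ee G X X + 2 + 8 * mm G X Y)
    {y1 y y2 : V} (h1 : y1 ∈ Y) (h0 : y ∈ Y) (h2 : y2 ∈ Y) (hne : y1 ≠ y2) (ha : G.Adj y1 y)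
    (hb : G.Adj y y2) : 9 * Nat.sqrt k ≤ 10 * (ms G y1 X ∪ ms G y X ∪ ms G y2 X).card := by
  set R := ms G y1 X ∪ ms G y X ∪ ms G y2 X with hRdef
  have hRX : R ⊆ X := union_subset (union_subset (ms_subset _ _) (ms_subset _ _)) (ms_subset _ _)
  have hZ : ∀ z ∈ X \ R, G.Adj y1 z ∧ G.Adj y z ∧ G.Adj y2 z := by
    intro z hz
    rw [mem_sdiff, hRdef, mem_union, mem_union, mem_ms, mem_ms, mem_ms] at hz
    obtain ⟨hz1, hz2⟩ := hz
    refine ⟨?_, ?_, ?_⟩ <;> by_contra hcon <;> exact hz2 (by tauto)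
  obtain ⟨C, hC, hC4, hcov⟩ := h.geo.t2c y1 y y2 ha hb hne (X \ R) hZ
  have hR'X : R ∪ C ⊆ X := union_subset hRX (hC.trans sdiff_subset)
  have h0e : ee G (X \ (R ∪ C)) (X \ (R ∪ C)) = 0 := by
    unfold ee
    apply sum_eq_zero
    intro v hv
    by_contra hcon
    obtain ⟨w, hw, hvw⟩ := dg_pos.1 (Nat.pos_of_ne_zero hcon)
    rw [mem_sdiff, mem_union] at hv hw
    have hv' : v ∈ X \ R := mem_sdiff.2 ⟨hv.1, fun hx => hv.2 (Or.inl hx)⟩
    have hw' : w ∈ X \ R := mem_sdiff.2 ⟨hw.1, fun hx => hw.2 (Or.inl hx)⟩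
    rcases hcov v hv' w hw' hvw with hx | hx
    · exact hv.2 (Or.inr hx)
    · exact hw.2 (Or.inr hx)
  have ht := touch_bound h hNP hR'X
  rw [h0e] at ht
  have hcard : (R ∪ C).card ≤ R.card + 4 := (card_union_le R C).trans (by omega)
  have hm := h.hm
  have hi := h.hi
  have ho := h.ho
  have hcX := h.cX
  have hk : 100000000 ≤ k := by have := h.hk; norm_num at this; exact this
  have hs1 : Nat.sqrt k * Nat.sqrt k ≤ k := Nat.sqrt_le k
  have hs2 : 10000 ≤ Nat.sqrt k := by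
    rw [Nat.le_sqrt]
    omega
  generalize (R ∪ C).card = r' at ht hcard
  generalize R.card = r at hcard ⊢
  generalize mm G X Y = m at ht hX hm
  generalize ee G X X = E at ht hX
  generalize Nat.sqrt k = s at hs1 hs2 ⊢
  by_contra hcon
  have hr : 10 * r ≤ 9 * s := by omega
  have h1 : r' * r' ≤ (r + 4) * (r + 4) := Nat.mul_self_le_mul_self hcard
  have h2 : 993 * k ≤ 1000 * (r' * r') + 2000 * r' + 2000 := by omega
  have h3 : 100 * ((r + 4) * (r + 4)) ≤ (9 * s + 40) * (9 * s + 40) := by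
    have := Nat.mul_self_le_mul_self (show 10 * (r + 4) ≤ 9 * s + 40 by omega)
    nlinarith
  have h4 : 10000 * s ≤ s * s := Nat.mul_le_mul_right s hs2
  nlinarith

theorem share_low (h : Near G X Y k i o)
    (hNP : ∀ p ∈ X, ∀ q ∈ X, p ≠ q →
      ((cl G X Y).filter fun w => G.Adj p w ∧ G.Adj q w).card ≤ 2)
    (hX : 4 * k ≤ ee G X X + 2 + 8 * mm G X Y)
    {u u' : V} (hu : u ∈ Y) (hu' : u' ∈ Y) (hne : u ≠ u') :
    ((Y.filter fun z => 10 * (ms G z X).card < 3 * Nat.sqrt k).filter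
      fun z => G.Adj u z ∧ G.Adj u' z).card ≤ 2 := by
  by_contra hcon
  push Not at hcon
  obtain ⟨z1, hz1, z2, hz2, z3, hz3, h12, h13, h23⟩ := two_lt_card.1 hcon
  simp only [mem_filter] at hz1 hz2 hz3
  obtain ⟨⟨hz1Y, hz1m⟩, hz1u, hz1u'⟩ := hz1
  obtain ⟨⟨hz2Y, hz2m⟩, hz2u, hz2u'⟩ := hz2
  obtain ⟨⟨hz3Y, hz3m⟩, hz3u, hz3u'⟩ := hz3
  set R := ms G z1 X ∪ ms G z2 X ∪ ms G z3 X with hRdef
  have hRX : R ⊆ X := union_subset (union_subset (ms_subset _ _) (ms_subset _ _)) (ms_subset _ _)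
  have hRc : 10 * R.card < 9 * Nat.sqrt k := by
    have a1 := card_union_le (ms G z1 X ∪ ms G z2 X) (ms G z3 X)
    have a2 := card_union_le (ms G z1 X) (ms G z2 X)
    rw [← hRdef] at a1
    omega
  have huX : u ∉ X := fun hx => (Finset.disjoint_left.1 h.disj hx) hu
  have hu'X : u' ∉ X := fun hx => (Finset.disjoint_left.1 h.disj hx) hu'
  have hd : Disjoint (X \ R) ({u, u'} : Finset V) := by
    rw [Finset.disjoint_left]
    intro a ha hb
    rw [mem_insert, mem_singleton] at hb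
    rcases hb with rfl | rfl
    · exact huX (mem_sdiff.1 ha).1
    · exact hu'X (mem_sdiff.1 ha).1
  have hZ : ∀ z ∈ (X \ R) ∪ ({u, u'} : Finset V), G.Adj z1 z ∧ G.Adj z2 z ∧ G.Adj z3 z := by
    intro z hz
    rw [mem_union, mem_insert, mem_singleton] at hz
    rcases hz with hz | rfl | rfl
    · rw [mem_sdiff, hRdef, mem_union, mem_union, mem_ms, mem_ms, mem_ms] at hz
      obtain ⟨hz1, hz2⟩ := hz
      refine ⟨?_, ?_, ?_⟩ <;> by_contra hcon <;> exact hz2 (by tauto)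
    · exact ⟨hz1u.symm, hz2u.symm, hz3u.symm⟩
    · exact ⟨hz1u'.symm, hz2u'.symm, hz3u'.symm⟩
  have cZ : ((X \ R) ∪ ({u, u'} : Finset V)).card = (X \ R).card + 2 := by
    rw [card_union_of_disjoint hd, card_pair hne]
  have ht0 := h.geo.t0 z1 z2 z3 h12 h13 h23 _ hZ (by omega)
  rw [cZ, ee_union_self hd] at ht0
  have e1 : ee G (X \ R) ({u, u'} : Finset V) = dg G u (X \ R) + dg G u' (X \ R) := by
    rw [ee_comm]
    unfold ee
    rw [sum_pair hne]
  have d1 : ∀ v ∈ Y, X.card ≤ dg G v (X \ R) + R.card + mm G X Y := by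
    intro v hv
    have a1 := dg_add_ms (G := G) v (X \ R)
    have a2 : (ms G v (X \ R)).card ≤ mm G X Y := by
      rw [mm_comm X Y]
      exact (card_le_card (ms_mono v sdiff_subset)).trans (ms_le_mm hv)
    have a3 : (X \ R).card + R.card = X.card := by
      rw [card_sdiff_of_subset hRX]
      have := card_le_card hRX
      omega
    omega
  have du := d1 u hu
  have du' := d1 u' hu'
  have ht := touch_bound h hNP hRX
  have cs : (X \ R).card ≤ X.card := card_le_card sdiff_subset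
  have hm := h.hm
  have hi := h.hi
  have ho := h.ho
  have hcX := h.cX
  have hk : 100000000 ≤ k := by have := h.hk; norm_num at this; exact this
  have hs1 : Nat.sqrt k * Nat.sqrt k ≤ k := Nat.sqrt_le k
  have hs2 : 10000 ≤ Nat.sqrt k := by
    rw [Nat.le_sqrt]
    omega
  rw [e1] at ht0
  generalize R.card = r at *
  generalize mm G X Y = m at *
  generalize ee G X X = E at *
  generalize Nat.sqrt k = s at *
  have h3 : 100 * (r * r) ≤ 81 * (s * s) := by
    have := Nat.mul_self_le_mul_self (show 10 * r ≤ 9 * s by omega)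
    nlinarith
  have h4 : 10000 * s ≤ s * s := Nat.mul_le_mul_right s hs2
  have h5 : 4 * k ≤ 4 + 16 * m + 2 * X.card + 2 * (r * r) + 8 * r := by omega
  omega

end Pool.Agent.Lib.MP_a3b162_co.CS
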