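import Pool.Agent.Lib.MP_a3b162_co.CS.IIbA
import Pool.Agent.Lib.MP_a3b162_co.CS.IIb0
import Pool.Agent.Lib.MP_a3b162_co.CS.Forest

/-!
MODULE IIbB (75 min).  The centres of `X`, matchings of `S ⊆ Y`.

`centres`: `C = X.filter (2 ≤ dg x (cl G X Y))`, `10 |C| ≥ 6 s`, `s = Nat.sqrt k`.  Let `A1 = (X \ C) ∩ cl`,
`A2 = (X \ C) \ cl`, `|A2| ≤ mm`.  `ee A1 A1 ≤ |A1|`, `ee A2 A1 ≤ |A2|`, `ee A2 A2 ≤ 4 |A2|`
(`tool_t0'`), so `ee (X\C)(X\C) ≤ |X| + 6 mm`; `touch_bound` with `R = C`: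
`4k - 2 - 8mm ≤ 3 |X| + 2|C|² + 4|C| + 10 mm`, `|X| ≤ k + 1 + k/1000`: `(|C| + 1)² ≥ 0.48 k`.

`match_missing`: `M` a finite set of pairwise disjoint edges of `S` (ordered pairs), `p ∈ X` with
`2 ≤ dg p (cl G X Y)`: `|M| ≤ |ms p S| + 4`.  `one_lt_dg`, `tool_path`: a set `K`, `|K| ≤ 4`, covers the
edges inside `nb p Y`.  The edges of `M` with both ends in `nb p Y` inject into `K` (pairwise disjoint),
the others have an end in `ms p S`.

`match_sum`: summing over the centres: `(|M| - 4) |C| ≤ ∑_{y ∈ S} m(y)`: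
`∑_{p ∈ C} |ms p S| = mm C S = mm S C ≤ ∑_{y ∈ S} |ms y X|`.

`max_match`: there is a finite set `M` of pairwise disjoint edges of `S` such that every edge of `S`
meets the union of `M` (take `|M|` maximal).
-/

set_option autoImplicit false

namespace Pool.Agent.Lib.MP_a3b162_co.CS

open Finset
open scoped Classical

variable {V : Type} {G : SimpleGraph V} {X Y : Finset V} {k i o : ℕ}

/-- `M` is a set of pairwise disjoint edges (ordered pairs) inside `S` -/
def IsMatch (G : SimpleGraph V) (S : Finset V) (M : Finset (V × V)) : Prop :=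
  (∀ e ∈ M, e.1 ∈ S ∧ e.2 ∈ S ∧ G.Adj e.1 e.2) ∧
  ∀ e ∈ M, ∀ f ∈ M, e ≠ f → e.1 ≠ f.1 ∧ e.1 ≠ f.2 ∧ e.2 ≠ f.1 ∧ e.2 ≠ f.2

/-- the vertices of `M` -/
noncomputable def vs (M : Finset (V × V)) : Finset V := M.image Prod.fst ∪ M.image Prod.snd

private theorem iibb_match_le {S : Finset V} {M : Finset (V × V)} (hM : IsMatch G S M)
    {K : Finset V} (hK : ∀ e ∈ M, e.1 ∈ K ∨ e.2 ∈ K) : M.card ≤ K.card := by
  refine card_le_card_of_injOn (fun e => if e.1 ∈ K then e.1 else e.2) ?_ ?_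
  · intro e he
    have he' : e ∈ M := he
    by_cases h1 : e.1 ∈ K
    · simp only [h1, if_true]
      exact h1
    · simp only [h1, if_false]
      exact (hK e he').resolve_left h1
  · intro e he f hf hef
    have he' : e ∈ M := he
    have hf' : f ∈ M := hf
    by_contra hne
    obtain ⟨h1, h2, h3, h4⟩ := hM.2 e he' f hf' hne
    simp only at hef
    split_ifs at hef
    · exact h1 hef
    · exact h2 hef
    · exact h3 hef
    · exact h4 hef

private theorem iibb_sub {S : Finset V} {M M' : Finset (V × V)} (hM : IsMatch G S M)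
    (h : M' ⊆ M) : IsMatch G S M' :=
  ⟨fun e he => hM.1 e (h he), fun e he f hf hne => hM.2 e (h he) f (h hf) hne⟩

theorem max_match (G : SimpleGraph V) (S : Finset V) : ∃ M : Finset (V × V), IsMatch G S M ∧
    ∀ a ∈ S, ∀ b ∈ S, G.Adj a b → a ∈ vs M ∨ b ∈ vs M := by
  let F : Finset (Finset (V × V)) := (S ×ˢ S).powerset.filter (fun M => IsMatch G S M)
  have hF : F.Nonempty := by
    refine ⟨∅, mem_filter.2 ⟨empty_mem_powerset _, ?_, ?_⟩⟩
    · intro e he
      exact absurd he (notMem_empty e)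
    · intro e he
      exact absurd he (notMem_empty e)
  obtain ⟨M, hMF, hmax⟩ := exists_max_image F card hF
  have hM : IsMatch G S M := (mem_filter.1 hMF).2
  refine ⟨M, hM, fun a ha b hb hab => ?_⟩
  by_contra hcon
  push Not at hcon
  obtain ⟨hav, hbv⟩ := hcon
  have hv : ∀ f ∈ M, f.1 ∈ vs M ∧ f.2 ∈ vs M := fun f hf =>
    ⟨mem_union_left _ (mem_image_of_mem _ hf), mem_union_right _ (mem_image_of_mem _ hf)⟩
  have hnot : (a, b) ∉ M := fun h => hav (hv _ h).1
  have hav' : ∀ f ∈ M, a ≠ f.1 ∧ a ≠ f.2 ∧ b ≠ f.1 ∧ b ≠ f.2 := by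
    intro f hf
    refine ⟨?_, ?_, ?_, ?_⟩
    · intro h; exact hav (h ▸ (hv f hf).1)
    · intro h; exact hav (h ▸ (hv f hf).2)
    · intro h; exact hbv (h ▸ (hv f hf).1)
    · intro h; exact hbv (h ▸ (hv f hf).2)
  have hins : IsMatch G S (insert (a, b) M) := by
    constructor
    · intro e he
      rcases mem_insert.1 he with rfl | he
      · exact ⟨ha, hb, hab⟩
      · exact hM.1 e he
    · intro e he f hf hne
      rcases mem_insert.1 he with rfl | he
      · rcases mem_insert.1 hf with rfl | hf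
        · exact absurd rfl hne
        · exact hav' f hf
      · rcases mem_insert.1 hf with rfl | hf
        · obtain ⟨h1, h2, h3, h4⟩ := hav' e he
          exact ⟨h1.symm, h3.symm, h2.symm, h4.symm⟩
        · exact hM.2 e he f hf hne
  have hmem : insert (a, b) M ∈ F := by
    refine mem_filter.2 ⟨mem_powerset.2 ?_, hins⟩
    intro e he
    obtain ⟨h1, h2, _⟩ := hins.1 e he
    exact mem_product.2 ⟨h1, h2⟩
  have := hmax _ hmem
  rw [card_insert_of_notMem hnot] at this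
  omega

theorem centres (h : Near G X Y k i o)
    (hNP : ∀ p ∈ X, ∀ q ∈ X, p ≠ q →
      ((cl G X Y).filter fun w => G.Adj p w ∧ G.Adj q w).card ≤ 2)
    (hX : 4 * k ≤ ee G X X + 2 + 8 * mm G X Y) :
    6 * Nat.sqrt k ≤ 10 * (X.filter fun x => 2 ≤ dg G x (cl G X Y)).card := by
  set C := X.filter fun x => 2 ≤ dg G x (cl G X Y) with hC
  have hcX := h.cX
  have hcY := h.cY
  have ho := h.ho
  have hk := h.hk
  have hm := h.hm
  have hi := h.hi
  have hsmall : ∀ x ∈ X \ C, dg G x (cl G X Y) ≤ 1 := by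
    intro x hx
    obtain ⟨hx1, hx2⟩ := mem_sdiff.1 hx
    by_contra hcon
    exact hx2 (mem_filter.2 ⟨hx1, by omega⟩)
  have hsplit : X \ C = ((X \ C) ∩ cl G X Y) ∪ ((X \ C) \ cl G X Y) := by
    ext x
    simp only [mem_union, mem_inter, mem_sdiff]
    tauto
  have hdis : Disjoint ((X \ C) ∩ cl G X Y) ((X \ C) \ cl G X Y) := by
    rw [disjoint_left]
    intro x h1 h2
    exact (mem_sdiff.1 h2).2 (mem_inter.1 h1).2
  set A1 := (X \ C) ∩ cl G X Y with hA1
  set A2 := (X \ C) \ cl G X Y with hA2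
  have hA2X : A2 ⊆ X := fun x hx => (mem_sdiff.1 (mem_sdiff.1 hx).1).1
  have hA1X : A1 ⊆ X := fun x hx => (mem_sdiff.1 (mem_inter.1 hx).1).1
  have hA2c : A2.card ≤ mm G X Y := by
    have h1 := card_not_cl (G := G) X Y
    have h2 : A2.card ≤ (X \ cl G X Y).card := card_le_card fun x hx =>
      mem_sdiff.2 ⟨hA2X hx, (mem_sdiff.1 hx).2⟩
    have h3 : (X \ cl G X Y).card + (cl G X Y).card = X.card := card_sdiff_add_card_eq_card (cl_subset X Y)
    omega
  have hA1c : A1.card ≤ X.card := card_le_card hA1X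
  have e11 : ee G A1 A1 ≤ A1.card := by
    refine (ee_mono (Subset.refl A1) (inter_subset_right : A1 ⊆ cl G X Y)).trans ?_
    unfold ee
    refine (sum_le_sum fun x hx => hsmall x (mem_inter.1 hx).1).trans ?_
    rw [sum_const, smul_eq_mul, mul_one]
  have e21 : ee G A2 A1 ≤ A2.card := by
    refine (ee_mono (Subset.refl A2) (inter_subset_right : A1 ⊆ cl G X Y)).trans ?_
    unfold ee
    refine (sum_le_sum fun x hx => hsmall x (mem_sdiff.1 hx).1).trans ?_
    rw [sum_const, smul_eq_mul, mul_one]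
  have hYc : 3 ≤ (cl G Y X).card := by
    have h1 := card_not_cl (G := G) Y X
    rw [mm_comm Y X] at h1
    omega
  have e22 : ee G A2 A2 ≤ 4 * A2.card := tool_t0' h.geo hYc hA2X
  have etot : ee G (X \ C) (X \ C) = ee G A1 A1 + 2 * ee G A1 A2 + ee G A2 A2 := by
    conv_lhs => rw [hsplit]
    exact ee_union_self hdis
  rw [ee_comm A1 A2] at etot
  have htb := touch_bound h hNP (R := C) (filter_subset _ _)
  by_contra hcon
  push Not at hcon
  have hs1 : Nat.sqrt k * Nat.sqrt k ≤ k := Nat.sqrt_le k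
  have hs2 : 10 ^ 4 ≤ Nat.sqrt k := by
    rw [Nat.le_sqrt]
    exact le_trans (by norm_num) hk
  have hs3 : 10 ^ 4 * Nat.sqrt k ≤ k := le_trans (Nat.mul_le_mul_right _ hs2) hs1
  have hcc : 100 * (C.card * C.card) ≤ 36 * k := by
    have h1 : (10 * C.card) * (10 * C.card) ≤ (6 * Nat.sqrt k) * (6 * Nat.sqrt k) :=
      Nat.mul_le_mul hcon.le hcon.le
    nlinarith
  omega

theorem match_missing (h : Near G X Y k i o) {S : Finset V} (hS : S ⊆ Y) {M : Finset (V × V)}
    (hM : IsMatch G S M) {p : V} (hp : p ∈ X) (h2 : 2 ≤ dg G p (cl G X Y)) :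
    M.card ≤ (ms G p S).card + 4 := by
  obtain ⟨a, ha, b, hb, hab, hpa, hpb⟩ := one_lt_dg h2
  obtain ⟨_, K, hK, hK4, hKc⟩ := tool_path h.geo ha hb hpa.symm hpb hab
  have h1 : (M.filter fun e => G.Adj p e.1 ∧ G.Adj p e.2).card ≤ K.card := by
    refine iibb_match_le (iibb_sub hM (filter_subset _ _)) ?_
    intro e he
    obtain ⟨heM, h3, h4⟩ := mem_filter.1 he
    obtain ⟨h5, h6, h7⟩ := hM.1 e heM
    exact hKc e.1 (mem_nb.2 ⟨hS h5, h3⟩) e.2 (mem_nb.2 ⟨hS h6, h4⟩) h7
  have h2 : (M.filter fun e => ¬ (G.Adj p e.1 ∧ G.Adj p e.2)).card ≤ (ms G p S).card := by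
    refine iibb_match_le (iibb_sub hM (filter_subset _ _)) ?_
    intro e he
    obtain ⟨heM, h3⟩ := mem_filter.1 he
    obtain ⟨h5, h6, _⟩ := hM.1 e heM
    by_cases h8 : G.Adj p e.1
    · right
      exact mem_ms.2 ⟨h6, fun h9 => h3 ⟨h8, h9⟩⟩
    · left
      exact mem_ms.2 ⟨h5, h8⟩
  have h3 := card_filter_add_card_filter_not (s := M) (fun e => G.Adj p e.1 ∧ G.Adj p e.2)
  omega

theorem match_sum (h : Near G X Y k i o) {S : Finset V} (hS : S ⊆ Y) {M : Finset (V × V)}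
    (hM : IsMatch G S M) :
    (M.card - 4) * (X.filter fun x => 2 ≤ dg G x (cl G X Y)).card ≤
      ∑ y ∈ S, (ms G y X).card := by
  set C := X.filter fun x => 2 ≤ dg G x (cl G X Y) with hC
  have h1 : (M.card - 4) * C.card ≤ mm G C S := by
    unfold mm
    rw [mul_comm, ← smul_eq_mul, ← sum_const]
    refine sum_le_sum fun p hp => ?_
    obtain ⟨hp1, hp2⟩ := mem_filter.1 hp
    have := match_missing h hS hM hp1 hp2
    omega
  rw [mm_comm] at h1
  refine h1.trans ?_
  unfold mm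
  exact sum_le_sum fun y _ => card_le_card (ms_mono y (filter_subset _ _))

end Pool.Agent.Lib.MP_a3b162_co.CS
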