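import Pool.Agent.Lib.MP_a3b162_co.CS.IIbB

/-!
MODULE IIbC (90 min).  There are `p ≠ q` in `X` with at least three common clean neighbours.

`edge_count` (f).  `S ⊆ Y`, `M` a maximal matching of `S` (`max_match`), `C0 = vs M`, `|C0| ≤ 2ν`,
`ν = |M|`; every `z ∈ S` has `dg z S ≥ 1 + m(z)`; low: `10 m(z) < 3 s`.  `Hs = {y ∈ S : not low}`,
`h = |Hs|`.  `W = C0 ∪ Hs`, `L = S \ W` (low, independent: every edge of `S` meets `C0`; all neighbours in
`S` of `z ∈ L` are in `C0`).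
`ee S S = ee W W + 2 ee L C0`, `ee W W ≤ 4 (2ν + h)` (`tool_t0'`).
`L` = clean part `L1` and nonclean part `L2`.  `ee L1 C0 = ee C0 L1 ≤ 2 |C0| ≤ 4ν` (`hH`).  For
`z ∈ L2`: `dg z C0 = dg z S ≥ 2`, so `dg z C0 ≤ dg z C0 (dg z C0 - 1)`, and
`∑_{z ∈ L2} dg z C0 (dg z C0 - 1) = ∑_{(c,c') ∈ offDiag C0} |common neighbours in L2| ≤ 2 |C0|²` (`share_low`).
Total: `ee S S ≤ 4 (2ν + h) + 2 (4ν + 8ν²) = 16ν² + 16ν + 4h`.  And `3 s h ≤ 10 m(S)`.

`exists_pq` (d)(g).  Suppose not (this is `hNP`).  `min_sub` with `μ y = |ms y X|` on `Y`: `S`, with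
`2 (m(S) + 1) ≤ ee S S`, `1 + m(y) ≤ dg y S`.  `M` from `max_match`.  With (f):
`m(S) ≤ 8ν² + 8ν + 20 m(S)/(3s)`, so `m(S) ≤ 9ν² + 9ν` (`s ≥ 10^4`).
`ν ≥ 8`: `match_sum`, `centres`: `m(S) ≥ 0.6 s (ν - 4) ≥ 0.3 s ν`, so `0.3 s ≤ 9ν + 9`, `ν ≥ s/31`,
`m(S) ≥ s²/104 > k/1000 ≥ mm ≥ m(S)`.
`ν ≤ 7`: `m(S) ≤ 504`.  `S` is nonempty (`ee S S ≥ 2`).  If some `y ∈ S` has `dg y S ≥ 2`: a path in `S`,
`p3_missing`: `9 s ≤ 10 · 3 · 504`, impossible.  So `dg y S ≤ 1` and `1 + m(y) ≤ dg y S`: `m(y) = 0` for all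
`y ∈ S`, and `dg y S = 1`: a clean edge in `Y`, against `hE`.
-/

set_option autoImplicit false

namespace Pool.Agent.Lib.MP_a3b162_co.CS

open Finset
open scoped Classical

variable {V : Type} {G : SimpleGraph V} {X Y : Finset V} {k i o : ℕ}

theorem IIbC_three (h : Near G X Y k i o) : 3 ≤ (cl G X Y).card := by
  have h1 := card_not_cl (G := G) X Y
  have h2 := h.cX
  have h3 := h.hm
  have h4 := h.hk
  omega

theorem IIbC_vs_card (M : Finset (V × V)) : (vs M).card ≤ 2 * M.card := by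
  have h1 := card_union_le (M.image Prod.fst) (M.image Prod.snd)
  have h2 : (M.image Prod.fst).card ≤ M.card := card_image_le
  have h3 : (M.image Prod.snd).card ≤ M.card := card_image_le
  unfold vs
  omega

theorem IIbC_vs_sub {S : Finset V} {M : Finset (V × V)} (hM : IsMatch G S M) : vs M ⊆ S := by
  intro x hx
  unfold vs at hx
  rcases mem_union.1 hx with h1 | h1
  · obtain ⟨e, he, rfl⟩ := mem_image.1 h1
    exact (hM.1 e he).1
  · obtain ⟨e, he, rfl⟩ := mem_image.1 h1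
    exact (hM.1 e he).2.1

theorem edge_count (h : Near G X Y k i o)
    (hH : ∀ y ∈ Y, dg G y (cl G Y X) ≤ 2)
    (hNP : ∀ p ∈ X, ∀ q ∈ X, p ≠ q →
      ((cl G X Y).filter fun w => G.Adj p w ∧ G.Adj q w).card ≤ 2)
    (hX : 4 * k ≤ ee G X X + 2 + 8 * mm G X Y)
    {S : Finset V} (hS : S ⊆ Y) (hd : ∀ y ∈ S, 1 + (ms G y X).card ≤ dg G y S)
    {M : Finset (V × V)} (hM : IsMatch G S M)
    (hmax : ∀ a ∈ S, ∀ b ∈ S, G.Adj a b → a ∈ vs M ∨ b ∈ vs M) :
    ∃ hh : ℕ, 3 * Nat.sqrt k * hh ≤ 10 * ∑ y ∈ S, (ms G y X).card ∧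
      ee G S S ≤ 16 * M.card ^ 2 + 16 * M.card + 4 * hh := by
  have hC := IIbC_vs_card M
  have hCS := IIbC_vs_sub hM
  set C0 := vs M with hC0
  set Hs := S.filter (fun y => ¬ (10 * (ms G y X).card < 3 * Nat.sqrt k)) with hHs
  have hHsS : Hs ⊆ S := filter_subset _ _
  refine ⟨Hs.card, ?_, ?_⟩
  · calc 3 * Nat.sqrt k * Hs.card = ∑ y ∈ Hs, 3 * Nat.sqrt k := by
          rw [sum_const, smul_eq_mul, mul_comm]
      _ ≤ ∑ y ∈ Hs, 10 * (ms G y X).card := by
          refine sum_le_sum fun y hy => ?_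
          have := (mem_filter.1 hy).2
          omega
      _ = 10 * ∑ y ∈ Hs, (ms G y X).card := by rw [mul_sum]
      _ ≤ 10 * ∑ y ∈ S, (ms G y X).card := by
          refine Nat.mul_le_mul_left 10 ?_
          exact sum_le_sum_of_subset hHsS
  · set W := C0 ∪ Hs with hW
    have hWS : W ⊆ S := union_subset hCS hHsS
    set L := S \ W with hL
    have hdis : Disjoint L W := disjoint_sdiff_self_left
    have hSeq : L ∪ W = S := sdiff_union_of_subset hWS
    have hL1 : ∀ z ∈ L, z ∈ S ∧ z ∉ C0 ∧ z ∉ Hs := by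
      intro z hz
      obtain ⟨h1, h2⟩ := mem_sdiff.1 hz
      exact ⟨h1, fun h3 => h2 (mem_union_left _ h3), fun h3 => h2 (mem_union_right _ h3)⟩
    have hnb : ∀ z ∈ L, nb G z S ⊆ nb G z C0 := by
      intro z hz w hw
      obtain ⟨h1, h2⟩ := mem_nb.1 hw
      obtain ⟨h3, h4, _⟩ := hL1 z hz
      rcases hmax z h3 w h1 h2 with h5 | h5
      · exact absurd h5 h4
      · exact mem_nb.2 ⟨h5, h2⟩
    have hdgS : ∀ z ∈ L, dg G z S ≤ dg G z C0 := fun z hz => card_le_card (hnb z hz)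
    have hLL : ee G L L = 0 := by
      unfold ee
      refine sum_eq_zero fun z hz => ?_
      unfold dg
      rw [card_eq_zero, eq_empty_iff_forall_notMem]
      intro w hw
      obtain ⟨h1, h2⟩ := mem_nb.1 hw
      have h3 := hnb z hz (mem_nb.2 ⟨(hL1 w h1).1, h2⟩)
      exact (hL1 w h1).2.1 (mem_nb.1 h3).1
    have hLW : ee G L W ≤ ee G L C0 := by
      unfold ee
      refine sum_le_sum fun z hz => ?_
      exact (dg_mono z hWS).trans (hdgS z hz)
    have hWW : ee G W W ≤ 4 * W.card := tool_t0' h.geo (IIbC_three h) (hWS.trans hS)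
    have hWc : W.card ≤ C0.card + Hs.card := card_union_le _ _
    -- clean and nonclean
    set L1 := L.filter (fun z => ms G z X = ∅) with hL1d
    set L2 := L.filter (fun z => ¬ ms G z X = ∅) with hL2d
    have hd12 : Disjoint L1 L2 := disjoint_filter_filter_not _ _ _
    have hu12 : L1 ∪ L2 = L := filter_union_filter_not_eq _ _
    have hLC : ee G L C0 = ee G L1 C0 + ee G L2 C0 := by
      rw [← ee_union_left hd12, hu12]
    have hL1c : L1 ⊆ cl G Y X := by
      intro z hz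
      obtain ⟨h1, h2⟩ := mem_filter.1 hz
      unfold cl
      exact mem_filter.2 ⟨hS (hL1 z h1).1, h2⟩
    have hA : ee G L1 C0 ≤ 2 * C0.card := by
      rw [ee_comm]
      unfold ee
      calc ∑ c ∈ C0, dg G c L1 ≤ ∑ c ∈ C0, 2 := by
            refine sum_le_sum fun c hc => ?_
            exact (dg_mono c hL1c).trans (hH c (hS (hCS hc)))
        _ = 2 * C0.card := by rw [sum_const, smul_eq_mul, mul_comm]
    have hB1 : ee G L2 C0 ≤ L2.card + C0.card * C0.card := by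
      refine ee_le_of_share fun p hp q hq hpq => ?_
      refine (card_le_card ?_).trans
        (share_low h hNP hX (hS (hCS hp)) (hS (hCS hq)) hpq)
      intro w hw
      obtain ⟨h1, h2⟩ := mem_filter.1 hw
      have h3 := (mem_filter.1 h1).1
      obtain ⟨h4, _, h5⟩ := hL1 w h3
      refine mem_filter.2 ⟨mem_filter.2 ⟨hS h4, ?_⟩, h2⟩
      by_contra h6
      exact h5 (mem_filter.2 ⟨h4, h6⟩)
    have hB2 : 2 * L2.card ≤ ee G L2 C0 := by
      unfold ee
      calc 2 * L2.card = ∑ z ∈ L2, 2 := by rw [sum_const, smul_eq_mul, mul_comm]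
        _ ≤ _ := by
          refine sum_le_sum fun z hz => ?_
          obtain ⟨h1, h2⟩ := mem_filter.1 hz
          have h3 := hd z (hL1 z h1).1
          have h4 := hdgS z h1
          have h5 : (ms G z X).card ≠ 0 := fun h0 => h2 (card_eq_zero.1 h0)
          omega
    have hB : ee G L2 C0 ≤ 2 * (C0.card * C0.card) := by omega
    have hSS : ee G S S = ee G L L + 2 * ee G L W + ee G W W := by
      rw [← ee_union_self hdis, hSeq]
    have hCC : C0.card * C0.card ≤ 4 * M.card ^ 2 := by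
      calc C0.card * C0.card ≤ (2 * M.card) * (2 * M.card) := Nat.mul_le_mul hC hC
        _ = _ := by ring
    omega

theorem exists_pq (h : Near G X Y k i o)
    (hE : ∀ y1 ∈ cl G Y X, ∀ y2 ∈ cl G Y X, ¬ G.Adj y1 y2)
    (hH : ∀ y ∈ Y, dg G y (cl G Y X) ≤ 2)
    (hX : 4 * k ≤ ee G X X + 2 + 8 * mm G X Y)
    (hY : 2 * (mm G X Y + 1) ≤ ee G Y Y) :
    ∃ p ∈ X, ∃ q ∈ X, p ≠ q ∧
      3 ≤ ((cl G X Y).filter fun w => G.Adj p w ∧ G.Adj q w).card := by
  by_contra hcon
  have hNP : ∀ p ∈ X, ∀ q ∈ X, p ≠ q →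
      ((cl G X Y).filter fun w => G.Adj p w ∧ G.Adj q w).card ≤ 2 := by
    intro p hp q hq hpq
    by_contra h3
    exact hcon ⟨p, hp, q, hq, hpq, by omega⟩
  have hmm : mm G X Y = ∑ y ∈ Y, (ms G y X).card := by
    rw [mm_comm]
    rfl
  obtain ⟨S, hS, hSe, hd⟩ := min_sub (G := G) (fun y => (ms G y X).card) (Y := Y)
    (by rw [← hmm]; exact hY)
  obtain ⟨M, hM, hmax⟩ := max_match G S
  obtain ⟨hh, e1, e2⟩ := edge_count h hH hNP hX hS hd hM hmax
  have hmS : ∑ y ∈ S, (ms G y X).card ≤ mm G X Y := by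
    rw [hmm]
    exact sum_le_sum_of_subset hS
  have hms := match_sum h hS hM
  have hcen := centres h hNP hX
  have hk := h.hk
  have hm := h.hm
  have hsq : 10 ^ 4 ≤ Nat.sqrt k := by
    rw [Nat.le_sqrt]
    omega
  have hlt : k < (Nat.sqrt k + 1) * (Nat.sqrt k + 1) := Nat.lt_succ_sqrt k
  generalize hmSd : ∑ y ∈ S, (ms G y X).card = mS at *
  generalize hsd : Nat.sqrt k = s at *
  generalize hνd : M.card = ν at *
  generalize hcd : (X.filter fun x => 2 ≤ dg G x (cl G X Y)).card = c at *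
  have e3 : 3000 * hh ≤ mS := by
    have g : 3 * 10 ^ 4 * hh ≤ 3 * s * hh :=
      Nat.mul_le_mul_right hh (Nat.mul_le_mul_left 3 hsq)
    omega
  have e4 : mS ≤ 9 * ν ^ 2 + 9 * ν := by omega
  rcases Nat.lt_or_ge ν 8 with hν | hν
  · have e5 : mS ≤ 504 := by
      have g : ν ^ 2 ≤ 7 ^ 2 := Nat.pow_le_pow_left (by omega) 2
      omega
    have hmy : ∀ y ∈ S, (ms G y X).card ≤ 504 := by
      intro y hy
      have g := single_le_sum (f := fun y => (ms G y X).card) (fun _ _ => Nat.zero_le _) hy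
      omega
    have hdg : ∀ y ∈ S, dg G y S ≤ 1 := by
      intro y hy
      by_contra h2
      obtain ⟨y1, hy1, y2, hy2, hne, ha, hb⟩ := one_lt_dg (G := G) (v := y) (A := S) (by omega)
      have g := p3_missing h hNP hX (hS hy1) (hS hy) (hS hy2) hne ha.symm hb
      have g1 := card_union_le (ms G y1 X ∪ ms G y X) (ms G y2 X)
      have g2 := card_union_le (ms G y1 X) (ms G y X)
      have g3 := hmy y hy
      have g4 := hmy y1 hy1
      have g5 := hmy y2 hy2
      rw [hsd] at g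
      omega
    have hcl : ∀ y ∈ S, y ∈ cl G Y X := by
      intro y hy
      have g1 := hd y hy
      have g2 := hdg y hy
      have g3 : (ms G y X).card = 0 := by omega
      unfold cl
      exact mem_filter.2 ⟨hS hy, card_eq_zero.1 g3⟩
    have hne : S.Nonempty := by
      rw [nonempty_iff_ne_empty]
      rintro rfl
      rw [ee_empty_left] at hSe
      omega
    obtain ⟨y, hy⟩ := hne
    have g1 := hd y hy
    obtain ⟨w, hw, ha⟩ := (dg_pos (G := G) (v := y) (A := S)).1 (by omega)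
    exact hE y (hcl y hy) w (hcl w hw) ha
  · -- many edges in the matching
    obtain ⟨t, rfl⟩ := Nat.exists_eq_add_of_le hν
    have e5 : 3 * s * (8 + t) ≤ 10 * mS := by
      have g1 : (8 + t - 4) * (6 * s) ≤ (8 + t - 4) * (10 * c) := Nat.mul_le_mul_left _ hcen
      have g2 : 8 + t - 4 = 4 + t := by omega
      rw [g2] at g1 hms
      nlinarith
    have e6 : 3 * s ≤ 90 * (8 + t) + 90 := by
      have g : 3 * s * (8 + t) ≤ (90 * (8 + t) + 90) * (8 + t) := by nlinarith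
      exact Nat.le_of_mul_le_mul_right g (by omega)
    have e7 : 1000 * mS ≤ (s + 1) * (s + 1) := by omega
    have e8 : 3 * s * s ≤ 3 * s * (30 * (8 + t) + 30) := Nat.mul_le_mul_left _ (by omega)
    nlinarith

end Pool.Agent.Lib.MP_a3b162_co.CS
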