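import Pool.Agent.Lib.MP_a3b162_co.CS.Tools
import Pool.Agent.Lib.MP_a3b162_co.CS.Forest

/-!
MODULE IIbD (90 min).  The last configuration: `p ≠ q` in `X` with three common clean neighbours.

`pq_exists`.  T0 with `Z = insert p (insert q Y)` (three common clean neighbours of `p`, `q`):
`ee Y Y + 2 (|Y| - m(p)) + 2 (|Y| - m(q)) + 2 [pq adjacent] + 6 ≤ 4 (|Y| + 2)`, i.e.
`ee Y Y + 2 [pq] ≤ 2 + 2 m(p) + 2 m(q) ≤ 2 + 2 mm` (`m(p) + m(q) ≤ mm G X Y`, two terms of the sum), with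
`hlow`: `(i - 1)(i - 1 + o) = 0`, so `i = 1` (`1 ≤ i`), `pq` not adjacent, `ee Y Y = 2 mm + 2`,
`mm = m(p) + m(q)`, so `m(x) = 0` for the other `x ∈ X` (`clean`).  `edges`, `hT0`: `ee X X + 6 = 4 |X|`.

Then (`PQ.symm` exchanges `p` and `q`), `H = (X.erase p).erase q`, `D_p = ms p H`, `D_q = ms q H`:
`pq_eX`: `ee (X - p) (X - p) = 2 (|X| - 1 + |D_p|)`: `dg p X = |X| - 2 - |D_p|`, `ee_erase_self`.
`pq_eH`: `ee H H = 2 (1 + |D_p| + |D_q|)`: `dg q (X - p) = |X| - 2 - |D_q|`.
`pq_m`: `m(q) ≥ 1`.  Suppose `m(q) = 0`: then `m(p) = mm ≥ 1` (else all of `Y` is clean and has an edge,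
`hE`), `ee Y Y = 2 (|ms p Y| + 1)`.  Every edge of `Y` touches `ms p Y` (else clean edge), so some
`y ∈ ms p Y` has `dg y Y ≥ 2` (`ee_sdiff_ge`): T2 with `T = y1 y y2` and `Z = X.erase p` (everything in `X - p`
is clean): `ee (X - p)(X - p) + 2 ≤ 2 (|X| - 1)`, against `pq_eX`.
`pq_D`: an edge `x1 x2` of `H` inside `N(p)`: T1, `x3` another common clean neighbour of `p` in `H`
(`three`), `Z = insert p Y`: `ee Y Y + 2 (|Y| - m(p)) ≤ 2 (|Y| + 1)`, so `2 m(q) ≤ 0`, against `pq_m`.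
So every edge of `H` touches `D_p`.
`pq_R`: an edge `y1 y2` of `Y` not touching `ms p Y`.  Then `p` is adjacent to both.  Take a clean `y3 ∈ Y`,
`y3 ≠ y1, y2`: T1 with `Z = X.erase q`: `ee (X - q)(X - q) ≤ 2 (|X| - 1)`, so `D_q = ∅` (`pq_eX`), but `H` has
an edge (`pq_eH`), which touches `D_q` (`pq_D`).  So every edge of `Y` touches `ms p Y` (and `ms q Y`).
-/

set_option autoImplicit false

namespace Pool.Agent.Lib.MP_a3b162_co.CS

open Finset
open scoped Classical

variable {V : Type} {G : SimpleGraph V} {X Y : Finset V} {k i o : ℕ} {p q : V}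

/-- the last configuration -/
structure PQ (G : SimpleGraph V) (X Y : Finset V) (k i o : ℕ) (p q : V) : Prop where
  near : Near G X Y k i o
  hE : ∀ y1 ∈ cl G Y X, ∀ y2 ∈ cl G Y X, ¬ G.Adj y1 y2
  hp : p ∈ X
  hq : q ∈ X
  hpq : p ≠ q
  na : ¬ G.Adj p q
  three : 3 ≤ ((cl G X Y).filter fun w => G.Adj p w ∧ G.Adj q w).card
  eY : ee G Y Y = 2 * (mm G X Y + 1)
  mpq : mm G X Y = (ms G p Y).card + (ms G q Y).card
  eX : ee G X X + 6 = 4 * X.card
  clean : ∀ x ∈ X, x ≠ p → x ≠ q → ∀ y ∈ Y, G.Adj x y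

theorem PQ.symm (h : PQ G X Y k i o p q) : PQ G X Y k i o q p where
  near := h.near
  hE := h.hE
  hp := h.hq
  hq := h.hp
  hpq := h.hpq.symm
  na := fun h1 => h.na h1.symm
  three := by
    have := h.three
    simp only [and_comm] at this ⊢
    exact this
  eY := h.eY
  mpq := by have := h.mpq; omega
  eX := h.eX
  clean := fun x hx h1 h2 => h.clean x hx h2 h1

theorem pq_ee_pos {A B : Finset V} (h : 0 < ee G A B) : ∃ a ∈ A, ∃ b ∈ B, G.Adj a b := by
  rw [ee] at h
  obtain ⟨a, ha, h1⟩ := Finset.exists_lt_of_sum_lt (s := A) (f := fun _ => 0)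
    (g := fun v => dg G v B) (by simpa using h)
  obtain ⟨b, hb, hab⟩ := dg_pos.1 h1
  exact ⟨a, ha, b, hb, hab⟩

theorem pq_ee_zero {A B : Finset V} (h : ∀ a ∈ A, ∀ b ∈ B, ¬ G.Adj a b) : ee G A B = 0 := by
  by_contra h0
  obtain ⟨a, ha, b, hb, hab⟩ := pq_ee_pos (Nat.pos_of_ne_zero h0)
  exact h a ha b hb hab

theorem pq_exists (h : Near G X Y k i o) (hi : 1 ≤ i)
    (hE : ∀ y1 ∈ cl G Y X, ∀ y2 ∈ cl G Y X, ¬ G.Adj y1 y2)
    (hT0 : ee G X X + 6 ≤ 4 * X.card)
    (hlow : 2 * (mm G X Y + 1) + 2 * ((i - 1) * (i - 1 + o)) ≤ ee G Y Y)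
    (hp : p ∈ X) (hq : q ∈ X) (hpq : p ≠ q)
    (h3 : 3 ≤ ((cl G X Y).filter fun w => G.Adj p w ∧ G.Adj q w).card) :
    PQ G X Y k i o p q := by
  obtain ⟨x1, h1, x2, h2, x3, h3', h12, h13, h23⟩ := two_lt_card.1
    (show 2 < ((cl G X Y).filter fun w => G.Adj p w ∧ G.Adj q w).card from h3)
  rw [mem_filter, mem_cl] at h1 h2 h3'
  have hpY : p ∉ Y := fun hh => (disjoint_left.1 h.disj) hp hh
  have hqY : q ∉ Y := fun hh => (disjoint_left.1 h.disj) hq hh
  have hpI : p ∉ insert q Y := by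
    rw [mem_insert, not_or]
    exact ⟨hpq, hpY⟩
  have hT := h.geo.t0 x1 x2 x3 h12 h13 h23 (insert p (insert q Y)) (by
    intro z hz
    rw [mem_insert, mem_insert] at hz
    rcases hz with rfl | rfl | hz
    · exact ⟨h1.2.1.symm, h2.2.1.symm, h3'.2.1.symm⟩
    · exact ⟨h1.2.2.symm, h2.2.2.symm, h3'.2.2.symm⟩
    · exact ⟨h1.1.2 z hz, h2.1.2 z hz, h3'.1.2 z hz⟩) (by
    rw [card_insert_of_notMem hpI, card_insert_of_notMem hqY]
    omega)
  rw [ee_insert_self hpI, ee_insert_self hqY, card_insert_of_notMem hpI,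
    card_insert_of_notMem hqY, dg_insert p q hqY] at hT
  have hP := dg_add_ms (G := G) p Y
  have hQ := dg_add_ms (G := G) q Y
  have hmm : ∀ x ∈ X, x ≠ p → x ≠ q →
      (ms G p Y).card + (ms G q Y).card + (ms G x Y).card ≤ mm G X Y := by
    intro x hx hxp hxq
    have e1 : ∑ v ∈ ({p, q, x} : Finset V), (ms G v Y).card =
        (ms G p Y).card + (ms G q Y).card + (ms G x Y).card := by
      rw [sum_insert (by
        rw [mem_insert, mem_singleton, not_or]
        exact ⟨hpq, hxp.symm⟩), sum_insert (by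
        rw [mem_singleton]
        exact hxq.symm), sum_singleton]
      ring
    rw [← e1, mm]
    apply sum_le_sum_of_subset
    intro v hv
    rw [mem_insert, mem_insert, mem_singleton] at hv
    rcases hv with rfl | rfl | rfl
    · exact hp
    · exact hq
    · exact hx
  have hmm2 : (ms G p Y).card + (ms G q Y).card ≤ mm G X Y := by
    have e1 : ∑ v ∈ ({p, q} : Finset V), (ms G v Y).card =
        (ms G p Y).card + (ms G q Y).card := by
      rw [sum_insert (by
        rw [mem_singleton]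
        exact hpq), sum_singleton]
    rw [← e1, mm]
    apply sum_le_sum_of_subset
    intro v hv
    rw [mem_insert, mem_singleton] at hv
    rcases hv with rfl | rfl
    · exact hp
    · exact hq
  have hprod : (i - 1) * (i - 1 + o) = 0 := by
    have : 0 ≤ (if G.Adj p q then 1 else 0 : ℕ) := Nat.zero_le _
    omega
  have hi1 : i = 1 := by
    rcases Nat.mul_eq_zero.1 hprod with h0 | h0 <;> omega
  have hadj : (if G.Adj p q then 1 else 0 : ℕ) = 0 := by
    omega
  have hna : ¬ G.Adj p q := by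
    intro h0
    rw [if_pos h0] at hadj
    omega
  have hmpq : mm G X Y = (ms G p Y).card + (ms G q Y).card := by
    omega
  have heY : ee G Y Y = 2 * (mm G X Y + 1) := by
    omega
  have hed := h.edges
  have hcX := h.cX
  have hclean : ∀ x ∈ X, x ≠ p → x ≠ q → ∀ y ∈ Y, G.Adj x y := by
    intro x hx hxp hxq y hy
    have h0 := hmm x hx hxp hxq
    have h0' : (ms G x Y).card = 0 := by omega
    rw [card_eq_zero] at h0'
    by_contra hc
    have : y ∈ ms G x Y := mem_ms.2 ⟨hy, hc⟩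
    rw [h0'] at this
    exact absurd this (notMem_empty y)
  refine ⟨h, hE, hp, hq, hpq, hna, h3, heY, hmpq, ?_, hclean⟩
  subst hi1
  simp only [Nat.mul_one] at hed
  omega

theorem pq_card (h : PQ G X Y k i o p q) : ((X.erase p).erase q).card + 2 = X.card := by
  have h1 : q ∈ X.erase p := mem_erase.2 ⟨h.hpq.symm, h.hq⟩
  have h2 := card_erase_add_one h1
  have h3 := card_erase_add_one h.hp
  omega

theorem pq_eX (h : PQ G X Y k i o p q) :
    ee G (X.erase p) (X.erase p) + 2 =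
      2 * (X.card + (ms G p ((X.erase p).erase q)).card) := by
  have h1 := ee_erase_self (G := G) h.hp
  have h2 : dg G p X = dg G p ((X.erase p).erase q) := by
    simp only [dg]
    congr 1
    ext w
    rw [mem_nb, mem_nb, mem_erase, mem_erase]
    constructor
    · rintro ⟨hw, ha⟩
      exact ⟨⟨fun e => h.na (e ▸ ha), ha.ne', hw⟩, ha⟩
    · rintro ⟨⟨_, _, hw⟩, ha⟩
      exact ⟨hw, ha⟩
  have h3 := dg_add_ms (G := G) p ((X.erase p).erase q)
  have h4 := pq_card h
  have h5 := h.eX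
  omega

theorem pq_eH (h : PQ G X Y k i o p q) :
    ee G ((X.erase p).erase q) ((X.erase p).erase q) =
      2 * ((ms G p ((X.erase p).erase q)).card + (ms G q ((X.erase p).erase q)).card + 1) := by
  have h0 := pq_eX h
  have hq' : q ∈ X.erase p := mem_erase.2 ⟨h.hpq.symm, h.hq⟩
  have h1 := ee_erase_self (G := G) hq'
  have h2 : dg G q (X.erase p) = dg G q ((X.erase p).erase q) := by
    simp only [dg]
    congr 1
    ext w
    rw [mem_nb, mem_nb, mem_erase (a := w) (b := q)]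
    constructor
    · rintro ⟨hw, ha⟩
      exact ⟨⟨ha.ne', hw⟩, ha⟩
    · rintro ⟨⟨_, hw⟩, ha⟩
      exact ⟨hw, ha⟩
  have h3 := dg_add_ms (G := G) q ((X.erase p).erase q)
  have h4 := pq_card h
  omega

theorem pq_m (h : PQ G X Y k i o p q) : (ms G q Y).Nonempty := by
  by_contra hne
  rw [not_nonempty_iff_eq_empty] at hne
  have hq0 : (ms G q Y).card = 0 := by rw [hne, card_empty]
  have hadj : ∀ x ∈ X.erase p, ∀ y ∈ Y, G.Adj x y := by
    intro x hx y hy
    rw [mem_erase] at hx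
    by_cases hxq : x = q
    · subst hxq
      by_contra hc
      have : y ∈ ms G x Y := mem_ms.2 ⟨hy, hc⟩
      rw [hne] at this
      exact absurd this (notMem_empty y)
    · exact h.clean x hx.2 hx.1 hxq y hy
  have heY := h.eY
  have hmpq := h.mpq
  have hcl : ∀ y ∈ Y, y ∉ ms G p Y → y ∈ cl G Y X := by
    intro y hy hy'
    rw [mem_cl]
    refine ⟨hy, fun x hx => ?_⟩
    by_cases hxp : x = p
    · subst hxp
      by_contra hc
      exact hy' (mem_ms.2 ⟨hy, fun e => hc e.symm⟩)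
    · exact (hadj x (mem_erase.2 ⟨hxp, hx⟩) y hy).symm
  have hz : ee G (Y \ ms G p Y) (Y \ ms G p Y) = 0 := by
    apply pq_ee_zero
    intro a ha b hb
    rw [mem_sdiff] at ha hb
    exact h.hE a (hcl a ha.1 ha.2) b (hcl b hb.1 hb.2)
  have hs := ee_sdiff_ge (G := G) Y (ms G p Y) (ms_subset p Y)
  rw [hz] at hs
  have h1 : (ms G p Y).card < ∑ r ∈ ms G p Y, dg G r Y := by omega
  obtain ⟨r, hr, hr2⟩ : ∃ r ∈ ms G p Y, 1 < dg G r Y := by
    by_contra hcon
    push Not at hcon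
    have : ∑ r ∈ ms G p Y, dg G r Y ≤ ∑ r ∈ ms G p Y, 1 := sum_le_sum hcon
    rw [sum_const, smul_eq_mul, mul_one] at this
    omega
  obtain ⟨a, ha, b, hb, hab, hra, hrb⟩ := one_lt_dg (show 2 ≤ dg G r Y from hr2)
  have hrY : r ∈ Y := ms_subset p Y hr
  have hT := h.near.geo.t2 a r b hra.symm hrb hab (X.erase p) (by
    intro z hz
    exact ⟨(hadj z hz a ha).symm, (hadj z hz r hrY).symm, (hadj z hz b hb).symm⟩)
    ⟨q, mem_erase.2 ⟨h.hpq.symm, h.hq⟩⟩
  have h2 := pq_eX h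
  have h3 := card_erase_add_one h.hp
  omega

theorem pq_D (h : PQ G X Y k i o p q) {a b : V} (ha : a ∈ (X.erase p).erase q)
    (hb : b ∈ (X.erase p).erase q) (hab : G.Adj a b) :
    a ∈ ms G p ((X.erase p).erase q) ∨ b ∈ ms G p ((X.erase p).erase q) := by
  by_contra hcon
  rw [not_or] at hcon
  have hpa : G.Adj p a := by
    by_contra hc
    exact hcon.1 (mem_ms.2 ⟨ha, hc⟩)
  have hpb : G.Adj p b := by
    by_contra hc
    exact hcon.2 (mem_ms.2 ⟨hb, hc⟩)
  rw [mem_erase, mem_erase] at ha hb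
  obtain ⟨x3, hx3, hne⟩ : ∃ x ∈ ((cl G X Y).filter fun w => G.Adj p w ∧ G.Adj q w),
      x ∉ ({a, b} : Finset V) := by
    by_contra hc
    push Not at hc
    have h1 := card_le_card (show ((cl G X Y).filter fun w => G.Adj p w ∧ G.Adj q w) ⊆
      ({a, b} : Finset V) from hc)
    have h2 : ({a, b} : Finset V).card ≤ 2 := card_le_two
    have h3 := h.three
    omega
  rw [mem_filter, mem_cl] at hx3
  rw [mem_insert, mem_singleton, not_or] at hne
  have hpY : p ∉ Y := fun hh => (disjoint_left.1 h.near.disj) h.hp hh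
  have hT := h.near.geo.t1 a b x3 hab (Ne.symm hne.1) (Ne.symm hne.2) (insert p Y) (by
    intro z hz
    rw [mem_insert] at hz
    rcases hz with rfl | hz
    · exact ⟨hpa.symm, hpb.symm, hx3.2.1.symm⟩
    · exact ⟨h.clean a ha.2.2 ha.2.1 ha.1 z hz, h.clean b hb.2.2 hb.2.1 hb.1 z hz,
        hx3.1.2 z hz⟩)
  rw [ee_insert_self hpY, card_insert_of_notMem hpY] at hT
  have h1 := dg_add_ms (G := G) p Y
  have h2 := card_pos.2 (pq_m h)
  have h3 := h.eY
  have h4 := h.mpq
  omega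

theorem pq_R (h : PQ G X Y k i o p q) {a b : V} (ha : a ∈ Y) (hb : b ∈ Y) (hab : G.Adj a b) :
    a ∈ ms G p Y ∨ b ∈ ms G p Y := by
  by_contra hcon
  rw [not_or] at hcon
  have hpa : G.Adj p a := by
    by_contra hc
    exact hcon.1 (mem_ms.2 ⟨ha, hc⟩)
  have hpb : G.Adj p b := by
    by_contra hc
    exact hcon.2 (mem_ms.2 ⟨hb, hc⟩)
  obtain ⟨y3, hy3, hne⟩ : ∃ y ∈ cl G Y X, y ∉ ({a, b} : Finset V) := by
    by_contra hc
    push Not at hc
    have h1 := card_le_card (show cl G Y X ⊆ ({a, b} : Finset V) from hc)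
    have h2 : ({a, b} : Finset V).card ≤ 2 := card_le_two
    have h3 := card_not_cl (G := G) Y X
    rw [mm_comm Y X] at h3
    have h4 := h.near.cY
    have h5 := h.near.hk
    have h6 := h.near.hm
    have h7 := h.near.hi
    omega
  rw [mem_cl] at hy3
  rw [mem_insert, mem_singleton, not_or] at hne
  have hT := h.near.geo.t1 a b y3 hab (Ne.symm hne.1) (Ne.symm hne.2) (X.erase q) (by
    intro z hz
    rw [mem_erase] at hz
    refine ⟨?_, ?_, hy3.2 z hz.2⟩
    · by_cases hzp : z = p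
      · subst hzp
        exact hpa.symm
      · exact (h.clean z hz.2 hzp hz.1 a ha).symm
    · by_cases hzp : z = p
      · subst hzp
        exact hpb.symm
      · exact (h.clean z hz.2 hzp hz.1 b hb).symm)
  have h1 := pq_eX h.symm
  have h2 := card_erase_add_one h.hq
  have h3 : (ms G q ((X.erase q).erase p)).card = 0 := by omega
  rw [card_eq_zero] at h3
  have h4 := pq_eH h.symm
  obtain ⟨u, hu, v, hv, huv⟩ := pq_ee_pos (G := G) (A := (X.erase q).erase p)
    (B := (X.erase q).erase p) (by omega)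
  rcases pq_D h.symm hu hv huv with h5 | h5
  · rw [h3] at h5
    exact absurd h5 (notMem_empty _)
  · rw [h3] at h5
    exact absurd h5 (notMem_empty _)

end Pool.Agent.Lib.MP_a3b162_co.CS
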