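import Pool.Agent.Lib.MP_a3b162_co.CS.IIbD
import Pool.Agent.Lib.MP_a3b162_co.CS.IIbC
import Pool.Agent.Lib.MP_a3b162_co.CS.IIa
import Pool.Agent.Lib.MP_a3b162_co.CS.IIb0
import Pool.Agent.Lib.MP_a3b162_co.CS.EC

/-!
MODULE IIbE (75 min).  The contradiction in the last configuration, and `near_false`.

`pq_false`.  `H = (X.erase p).erase q`.
1. `G[Y]` has a vertex `y ∈ ms p Y` with `dg y Y ≥ 2`: every edge touches `ms p Y` (`pq_R`), so
   `2 (m(p) + m(q) + 1) = ee Y Y ≤ 2 ∑_{ms p Y} dg y Y` (`ee_sdiff_ge`), `m(q) ≥ 1` not even needed.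
   T2 with the path `y1 y y2` and `Z ⊆ H` (all of `H` is adjacent to all of `Y`): the hypothesis `hF` for
   `U = H`.
2. `H` has a vertex with two neighbours in `H` in the same way (`pq_D`, `pq_eH`); all of `H` is clean: T2
   with `Z ⊆ Y`: `hF` for `U = Y`.
3. `forest_lemma`: `U = H`, `P = ms p H`, `Q = ms q H` (tP: `pq_D h`, tQ: `pq_D h.symm`; note that
   `(X.erase p).erase q = (X.erase q).erase p`, `erase_right_comm`): `s`, `x1 x2`.
   `U = Y`, `P = ms p Y`, `Q = ms q Y` (tP: `pq_R h`, tQ: `pq_R h.symm`): `s'`, `y1 y2`.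
4. `T = {s, s', p}`: `s s'` adjacent (`clean`), `s ≠ p`, `s' ≠ p`.  4-cycle `x1 y1 x2 y2`:
   `s x_j` edges, `s y_j` clean; `s' x_j` clean, `s' y_j` edges; `p x_j` (`x_j ∉ ms p H`), `p y_j`
   (`y_j ∉ ms p Y`); `x_i y_j` clean.  `geo.t1c`.

`near_false`.  `o + i = 0`: `e0_false`.  Else: if `Y` has a clean edge or a vertex with three clean
neighbours: `IIa`.  Else `iib_i`, `iib_T0`, `iib_lower`, `iib_upper` (`hX` from `edges` and `iib_upper`),
`exists_pq`, `pq_exists`, `pq_false`.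
-/

set_option autoImplicit false

namespace Pool.Agent.Lib.MP_a3b162_co.CS

open Finset
open scoped Classical

variable {V : Type} {G : SimpleGraph V} {X Y : Finset V} {k i o : ℕ} {p q : V}

theorem pq_exists_path {U P : Finset V} (hP : P ⊆ U)
    (tP : ∀ a ∈ U, ∀ b ∈ U, G.Adj a b → a ∈ P ∨ b ∈ P) (hE : 2 * (P.card + 1) ≤ ee G U U) :
    ∃ r ∈ P, ∃ a ∈ U, ∃ b ∈ U, a ≠ b ∧ G.Adj r a ∧ G.Adj r b := by
  have hz : ee G (U \ P) (U \ P) = 0 := by
    apply pq_ee_zero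
    intro a ha b hb hab
    rw [mem_sdiff] at ha hb
    rcases tP a ha.1 b hb.1 hab with h | h
    · exact ha.2 h
    · exact hb.2 h
  have hs := ee_sdiff_ge (G := G) U P hP
  rw [hz] at hs
  obtain ⟨r, hr, hr2⟩ : ∃ r ∈ P, 1 < dg G r U := by
    by_contra hcon
    push Not at hcon
    have : ∑ r ∈ P, dg G r U ≤ ∑ r ∈ P, 1 := sum_le_sum hcon
    rw [sum_const, smul_eq_mul, mul_one] at this
    omega
  obtain ⟨a, ha, b, hb, hab, hra, hrb⟩ := one_lt_dg (show 2 ≤ dg G r U from hr2)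
  exact ⟨r, hr, a, ha, b, hb, hab, hra, hrb⟩

theorem pq_false (h : PQ G X Y k i o p q) : False := by
  have hH : ∀ x ∈ (X.erase p).erase q, ∀ y ∈ Y, G.Adj x y := by
    intro x hx y hy
    rw [mem_erase, mem_erase] at hx
    exact h.clean x hx.2.2 hx.2.1 hx.1 y hy
  have hcomm : (X.erase q).erase p = (X.erase p).erase q := erase_right_comm
  have tHP : ∀ a ∈ (X.erase p).erase q, ∀ b ∈ (X.erase p).erase q, G.Adj a b →
      a ∈ ms G p ((X.erase p).erase q) ∨ b ∈ ms G p ((X.erase p).erase q) :=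
    fun a ha b hb hab => pq_D h ha hb hab
  have tHQ : ∀ a ∈ (X.erase p).erase q, ∀ b ∈ (X.erase p).erase q, G.Adj a b →
      a ∈ ms G q ((X.erase p).erase q) ∨ b ∈ ms G q ((X.erase p).erase q) := by
    intro a ha b hb hab
    rw [← hcomm] at ha hb ⊢
    exact pq_D h.symm ha hb hab
  have tYP : ∀ a ∈ Y, ∀ b ∈ Y, G.Adj a b → a ∈ ms G p Y ∨ b ∈ ms G p Y :=
    fun a ha b hb hab => pq_R h ha hb hab
  have tYQ : ∀ a ∈ Y, ∀ b ∈ Y, G.Adj a b → a ∈ ms G q Y ∨ b ∈ ms G q Y :=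
    fun a ha b hb hab => pq_R h.symm ha hb hab
  have eH := pq_eH h
  have eY := h.eY
  rw [h.mpq] at eY
  have hF1 : ∀ Z ⊆ (X.erase p).erase q, Z.Nonempty → ee G Z Z + 2 ≤ 2 * Z.card := by
    obtain ⟨r, hr, a, ha, b, hb, hab, hra, hrb⟩ := pq_exists_path (ms_subset p Y) tYP (by omega)
    have hrY := ms_subset p Y hr
    intro Z hZ hne
    exact h.near.geo.t2 a r b hra.symm hrb hab Z (fun z hz =>
      ⟨(hH z (hZ hz) a ha).symm, (hH z (hZ hz) r hrY).symm, (hH z (hZ hz) b hb).symm⟩) hne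
  have hF2 : ∀ Z ⊆ Y, Z.Nonempty → ee G Z Z + 2 ≤ 2 * Z.card := by
    obtain ⟨r, hr, a, ha, b, hb, hab, hra, hrb⟩ := pq_exists_path (ms_subset p _) tHP (by omega)
    have hrH := ms_subset p _ hr
    intro Z hZ hne
    exact h.near.geo.t2 a r b hra.symm hrb hab Z (fun z hz =>
      ⟨hH a ha z (hZ hz), hH r hrH z (hZ hz), hH b hb z (hZ hz)⟩) hne
  obtain ⟨s, hsP, hsQ, x1, hx1, x2, hx2, hx12, hsx1, hsx2, n1, n2, n3, n4⟩ :=
    forest_lemma (ms_subset p _) (ms_subset q _) hF1 tHP tHQ (by omega)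
  obtain ⟨s', hsP', hsQ', y1, hy1, y2, hy2, hy12, hsy1, hsy2, m1, m2, m3, m4⟩ :=
    forest_lemma (ms_subset p _) (ms_subset q _) hF2 tYP tYQ (by omega)
  have hsH := ms_subset p _ hsP
  have hsY := ms_subset p _ hsP'
  have hsp : s ≠ p := by
    have := hsH
    rw [mem_erase, mem_erase] at this
    exact this.2.1
  have hsp' : s' ≠ p := by
    intro e
    rw [e] at hsY
    exact (disjoint_left.1 h.near.disj) h.hp hsY
  have hpx : ∀ x ∈ (X.erase p).erase q, x ∉ ms G p ((X.erase p).erase q) → G.Adj p x := by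
    intro x hx hn
    by_contra hc
    exact hn (mem_ms.2 ⟨hx, hc⟩)
  have hpy : ∀ y ∈ Y, y ∉ ms G p Y → G.Adj p y := by
    intro y hy hn
    by_contra hc
    exact hn (mem_ms.2 ⟨hy, hc⟩)
  refine h.near.geo.t1c s s' p (hH s hsH s' hsY) hsp hsp' x1 y1 x2 y2 ?_ hx12 hy12
    (hH x1 hx1 y1 hy1) (hH x2 hx2 y1 hy1).symm (hH x2 hx2 y2 hy2) (hH x1 hx1 y2 hy2).symm
  intro z hz
  simp only [Set.mem_insert_iff, Set.mem_singleton_iff] at hz
  rcases hz with rfl | rfl | rfl | rfl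
  · exact ⟨hsx1, (hH _ hx1 s' hsY).symm, hpx _ hx1 n1⟩
  · exact ⟨hH s hsH _ hy1, hsy1, hpy _ hy1 m1⟩
  · exact ⟨hsx2, (hH _ hx2 s' hsY).symm, hpx _ hx2 n3⟩
  · exact ⟨hH s hsH _ hy2, hsy2, hpy _ hy2 m3⟩

theorem near_false (h : Near G X Y k i o) : False := by
  by_cases hoi : o + i = 0
  · have ho : o = 0 := by omega
    have hi : i = 0 := by omega
    subst ho
    subst hi
    exact e0_false h
  by_cases hY : (∃ y1 ∈ cl G Y X, ∃ y2 ∈ cl G Y X, G.Adj y1 y2) ∨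
      ∃ y ∈ Y, 3 ≤ dg G y (cl G Y X)
  · exact IIa h (by omega) hY
  rw [not_or] at hY
  obtain ⟨h1, h2⟩ := hY
  push Not at h1 h2
  have hE : ∀ y1 ∈ cl G Y X, ∀ y2 ∈ cl G Y X, ¬ G.Adj y1 y2 := h1
  have hH : ∀ y ∈ Y, dg G y (cl G Y X) ≤ 2 := fun y hy => by
    have := h2 y hy
    omega
  have hi := iib_i h hE hH
  have hT0 := iib_T0 h
  have hlow := iib_lower h hi
  have hup := iib_upper h hE hH
  have hed := h.edges
  have hX : 4 * k ≤ ee G X X + 2 + 8 * mm G X Y := by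
    have e1 : 0 ≤ i * i := Nat.zero_le _
    have e2 : 0 ≤ o * i := Nat.zero_le _
    have e3 : 2 * (2 * k + o + mm G X Y + i * i + o * i) =
        4 * k + 2 * o + 2 * mm G X Y + 2 * (i * i) + 2 * (o * i) := by ring
    omega
  obtain ⟨p, hp, q, hq, hpq, h3⟩ := exists_pq h hE hH hX (by omega)
  exact pq_false (pq_exists h hi hE hT0 hlow hp hq hpq h3)

end Pool.Agent.Lib.MP_a3b162_co.CS
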