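import Pool.Agent.Lib.MP_a3b162_co.CS.LDefs

/-!
MODULE LAvg (75 min).  T0 averaged over the classes `{x : nb G x B = A}`.

`ls_avg`.  `b = |B|`, `err x = err G Y (b + 2) x`.  For `A ⊆ B` let `W_A = {x ∈ W : nb G x B = A}`
(`sum_fiberwise_of_maps_to` over `B.powerset`, which has `2^b` elements).
* `|W_A| ≥ 3`: `three_best` with `f = err` gives `x1 x2 x3 ∈ W_A`,
  `|W_A| (err x1 + err x2 + err x3) ≤ 3 ∑_{W_A} err`; `t0_err` with `A` (`β = b + 2`, `|A| ≤ b`):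
  `ee Y Y + 2 ee A Y ≤ 4 (|Y| + b) + 2 (err x1 + err x2 + err x3)`; multiply by `|W_A|`.
* `|W_A| ≤ 2`: `|W_A| (ee Y Y + 2 ee A Y) ≤ 2 (6 |Y| + 2 b |Y|)` (`ls_edges h.symm`).
Sum: `∑_{x ∈ W} (ee Y Y + 2 ee (nb x B) Y) ≤ 4 |W| (|Y| + b) + 6 ∑_{x ∈ X} err x + 2^b (12 + 4b) |Y|`.
`6 ∑ err ≤ 42 ρ^4 κ²` (`ls_err`); `4 b |W| ≤ 5 ρ^8 κ²`; `2^b (12 + 4b) ≤ (b+3)^2 2^(b+2) ≤ ρ^8 κ` (`hb`),
`|Y| ≤ 1.01 κ`; `ρ ≤ 1/100`.

`ls_Q`.  `j = |X| - |Y|`, `|X| = κ + j/2`, `|Y| = κ - j/2`, `|X||Y| = κ² - j²/4`.  Expand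
`ee (X ∪ Y ∪ B) (X ∪ Y ∪ B) = ee X X + ee Y Y + ee B B + 2 ee X Y + 2 ee B X + 2 ee B Y`,
`ee X Y = |X||Y| - mm X Y` (`ee_add_mm`), `ee B B ≤ b²`.  With `he`:
`2 mm + j²/2 + 4κ ≤ ee X X + ee Y Y + 2 ∑_b (a_b + c_b - κ) + b²/2 + 4`, `a_b = dg b X`, `c_b = dg b Y`.
`SS - DD = ∑_b (a_b c_b - (|X| - a_b)(|Y| - c_b)) = ∑_b (κ (a_b + c_b - κ) + (j/2)(c_b - a_b) + j²/4)`, and
`|c_b - a_b| ≤ max(|X|,|Y|) ≤ 2κ`, so `κ ∑_b (a_b + c_b - κ) ≤ SS - DD + b |j| κ`.  Multiply the first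
inequality by `κ`.

`ls_L1`: `ls_Q` and `ls_avg` with `W = X` (`ls_S`), `4|X||Y| ≤ 4κ²`, `(κ - |X|) ee Y Y ≤ ρ^8 κ · 7 κ`,
`2κ (b|j| + b² + 2) ≤ 6 ρ^8 κ²`.
-/

set_option autoImplicit false

namespace Pool.Agent.Lib.MP_a3b162_co.CS

open Finset
open scoped Classical

variable {V : Type} {G : SimpleGraph V} {X Y B : Finset V} {κ ρ s : ℝ}

/-- numerical consequences of the setting -/
theorem lavg_num (h : LS G X Y B κ ρ s) : 0 < κ ∧ 0 ≤ ρ ^ 4 * κ ^ 2 ∧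
    ρ ^ 8 * κ ^ 2 ≤ ρ ^ 4 * κ ^ 2 / 1000 ∧ (X.card : ℝ) ≤ 101 / 100 * κ ∧
    (Y.card : ℝ) ≤ 101 / 100 * κ ∧ (B.card : ℝ) ≤ ρ ^ 8 * κ ∧
    (2 : ℝ) ^ B.card * (12 + 4 * B.card) ≤ ρ ^ 8 * κ ∧ (B.card : ℝ) ^ 2 + 2 ≤ ρ ^ 8 * κ := by
  obtain ⟨h0, h36, hx, hy, hb, hs⟩ := ls_size h
  have hρ := h.hρ
  have hρ1 := h.hρ1
  have hb0 : (0 : ℝ) ≤ B.card := Nat.cast_nonneg _
  have h4 : ρ ^ 4 ≤ 1 / 1000 := by
    have : ρ ^ 4 ≤ (1 / 100 : ℝ) ^ 4 := pow_le_pow_left₀ hρ.le hρ1 4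
    norm_num at this
    linarith
  have h40 : 0 ≤ ρ ^ 4 := by positivity
  have h8 : ρ ^ 8 ≤ ρ ^ 4 / 1000 := by
    have e : ρ ^ 8 = ρ ^ 4 * ρ ^ 4 := by ring
    rw [e]
    nlinarith
  have h8' : ρ ^ 8 ≤ 1 / 100 := by nlinarith
  have h8κ : ρ ^ 8 * κ ≤ 1 / 100 * κ := mul_le_mul_of_nonneg_right h8' h0.le
  have hpow : (0 : ℝ) < 2 ^ B.card := by positivity
  have hp1 : (1 : ℝ) ≤ 2 ^ B.card := one_le_pow₀ (by norm_num)
  have hbb := h.hb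
  have hpe : (2 : ℝ) ^ (B.card + 2) = 4 * 2 ^ B.card := by rw [pow_add]; norm_num; ring
  rw [hpe] at hbb
  refine ⟨h0, by positivity, ?_, ?_, ?_, by linarith, ?_, ?_⟩
  · have := mul_le_mul_of_nonneg_right h8 (by positivity : (0 : ℝ) ≤ κ ^ 2)
    linarith
  · have := (abs_le.1 hx).2
    linarith
  · have := (abs_le.1 hy).2
    linarith
  · refine le_trans ?_ hbb
    have : (12 + 4 * (B.card : ℝ)) ≤ 4 * ((B.card : ℝ) + 3) ^ 2 := by nlinarith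
    calc (2 : ℝ) ^ B.card * (12 + 4 * B.card) ≤ 2 ^ B.card * (4 * ((B.card : ℝ) + 3) ^ 2) :=
          mul_le_mul_of_nonneg_left this hpow.le
      _ = _ := by ring
  · refine le_trans ?_ hbb
    have h1 : (B.card : ℝ) ^ 2 + 2 ≤ ((B.card : ℝ) + 3) ^ 2 := by nlinarith
    have h2 : ((B.card : ℝ) + 3) ^ 2 * 1 ≤ ((B.card : ℝ) + 3) ^ 2 * (4 * 2 ^ B.card) :=
      mul_le_mul_of_nonneg_left (by linarith) (by positivity)
    linarith

theorem lavg_ee_le (A C : Finset V) : (ee G A C : ℝ) ≤ A.card * C.card := by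
  have h := ee_add_mm (G := G) A C
  have : ee G A C ≤ A.card * C.card := by omega
  exact_mod_cast this

/-- one class -/
theorem lavg_class (h : LS G X Y B κ ρ s) {W A : Finset V} (hA : A ⊆ B)
    (hWA : ∀ x ∈ W, nb G x B = A) :
    (W.card : ℝ) * (ee G Y Y + 2 * ee G A Y) ≤ 4 * W.card * (Y.card + B.card) +
      6 * (∑ x ∈ W, (err G Y (B.card + 2) x : ℝ)) + (12 + 4 * B.card) * Y.card := by
  have hAc : A.card ≤ B.card := card_le_card hA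
  have hAc' : (A.card : ℝ) ≤ B.card := by exact_mod_cast hAc
  have hY0 : (0 : ℝ) ≤ Y.card := Nat.cast_nonneg _
  have hW0 : (0 : ℝ) ≤ W.card := Nat.cast_nonneg _
  have hB0 : (0 : ℝ) ≤ B.card := Nat.cast_nonneg _
  by_cases h3 : 3 ≤ W.card
  · obtain ⟨x1, h1, x2, h2, x3, h3', h12, h13, h23, hle⟩ :=
      three_best (W := W) (f := fun x => (err G Y (B.card + 2) x : ℝ))
        (fun _ _ => Nat.cast_nonneg _) h3
    have hAY : Disjoint A Y := disjoint_of_subset_left hA h.dYB.symm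
    have hadj : ∀ a ∈ A, G.Adj x1 a ∧ G.Adj x2 a ∧ G.Adj x3 a := by
      intro a ha
      refine ⟨?_, ?_, ?_⟩
      · rw [← hWA x1 h1] at ha
        exact (mem_nb.1 ha).2
      · rw [← hWA x2 h2] at ha
        exact (mem_nb.1 ha).2
      · rw [← hWA x3 h3'] at ha
        exact (mem_nb.1 ha).2
    have ht := t0_err h.geo (β := B.card + 2) h12 h13 h23 hAY hadj (by omega)
    have ht' : (ee G Y Y : ℝ) + 2 * ee G A Y ≤ 4 * (Y.card + A.card) +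
        2 * (err G Y (B.card + 2) x1 + err G Y (B.card + 2) x2 + err G Y (B.card + 2) x3) := by
      exact_mod_cast ht
    have h5 := mul_le_mul_of_nonneg_left ht' hW0
    have h6 : (W.card : ℝ) * A.card ≤ W.card * B.card := mul_le_mul_of_nonneg_left hAc' hW0
    have h7 : 0 ≤ (12 + 4 * (B.card : ℝ)) * Y.card := by positivity
    nlinarith
  · have hW2 : (W.card : ℝ) ≤ 2 := by exact_mod_cast (by omega : W.card ≤ 2)
    have h1 : (ee G Y Y : ℝ) ≤ 6 * Y.card := by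
      exact_mod_cast ls_edges h.symm (Finset.Subset.refl Y)
    have h2 : (ee G A Y : ℝ) ≤ B.card * Y.card :=
      (lavg_ee_le A Y).trans (mul_le_mul_of_nonneg_right hAc' hY0)
    have h4 : (0 : ℝ) ≤ ee G Y Y + 2 * ee G A Y := by positivity
    have h5 : (W.card : ℝ) * (ee G Y Y + 2 * ee G A Y) ≤ 2 * (ee G Y Y + 2 * ee G A Y) :=
      mul_le_mul_of_nonneg_right hW2 h4
    have h6 : (0 : ℝ) ≤ 4 * W.card * (Y.card + B.card) := by positivity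
    have h7 : (0 : ℝ) ≤ 6 * (∑ x ∈ W, (err G Y (B.card + 2) x : ℝ)) := by positivity
    nlinarith

theorem ls_avg (h : LS G X Y B κ ρ s) {W : Finset V} (hW : W ⊆ X) :
    2 * (∑ x ∈ W, (ee G (nb G x B) Y : ℝ)) + W.card * ee G Y Y ≤
      4 * W.card * Y.card + 44 * ρ ^ 4 * κ ^ 2 := by
  obtain ⟨h0, h40, h8, hx, hy, hb, hpw, -⟩ := lavg_num h
  have hmaps : ∀ x ∈ W, nb G x B ∈ B.powerset := fun x _ => mem_powerset.2 (nb_subset _ _)
  have e1 : ∀ f : V → ℝ, ∑ x ∈ W, f x =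
      ∑ A ∈ B.powerset, ∑ x ∈ W.filter (fun x => nb G x B = A), f x := fun f =>
    (sum_fiberwise_of_maps_to hmaps f).symm
  have hcl : ∀ A ∈ B.powerset,
      (∑ x ∈ W.filter (fun x => nb G x B = A), ((ee G Y Y : ℝ) + 2 * ee G (nb G x B) Y)) ≤
      (∑ x ∈ W.filter (fun x => nb G x B = A), (4 * ((Y.card : ℝ) + B.card) +
        6 * (err G Y (B.card + 2) x : ℝ))) + (12 + 4 * B.card) * Y.card := by
    intro A hA
    have h1 := lavg_class h (W := W.filter (fun x => nb G x B = A)) (mem_powerset.1 hA) (fun x hx => (mem_filter.1 hx).2)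
    have h2 : (∑ x ∈ W.filter (fun x => nb G x B = A),
        ((ee G Y Y : ℝ) + 2 * ee G (nb G x B) Y)) =
        ((W.filter (fun x => nb G x B = A)).card : ℝ) * (ee G Y Y + 2 * ee G A Y) := by
      rw [← nsmul_eq_mul, ← sum_const]
      refine sum_congr rfl fun x hx => ?_
      rw [(mem_filter.1 hx).2]
    rw [h2, sum_add_distrib, sum_const, nsmul_eq_mul, ← mul_sum]
    linarith
  have hs1 := sum_le_sum hcl
  rw [sum_add_distrib, ← e1, ← e1, sum_const, card_powerset, nsmul_eq_mul] at hs1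
  rw [sum_add_distrib, sum_const, nsmul_eq_mul, ← mul_sum, sum_add_distrib, sum_const,
    nsmul_eq_mul, ← mul_sum] at hs1
  have h2 : (∑ x ∈ W, (err G Y (B.card + 2) x : ℝ)) ≤ 7 * ρ ^ 4 * κ ^ 2 :=
    (sum_le_sum_of_subset_of_nonneg hW (fun _ _ _ => Nat.cast_nonneg _)).trans (ls_err h)
  have hWc : (W.card : ℝ) ≤ 101 / 100 * κ := by
    have : (W.card : ℝ) ≤ X.card := by exact_mod_cast card_le_card hW
    linarith
  have hB0 : (0 : ℝ) ≤ B.card := Nat.cast_nonneg _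
  have hY0 : (0 : ℝ) ≤ Y.card := Nat.cast_nonneg _
  have hW0 : (0 : ℝ) ≤ W.card := Nat.cast_nonneg _
  have h3 : (W.card : ℝ) * B.card ≤ 101 / 100 * κ * (ρ ^ 8 * κ) :=
    mul_le_mul hWc hb hB0 (by positivity)
  have h4 : (2 : ℝ) ^ B.card * (12 + 4 * B.card) * Y.card ≤ ρ ^ 8 * κ * (101 / 100 * κ) :=
    mul_le_mul hpw hy hY0 (by
      have := (Nat.cast_nonneg B.card : (0 : ℝ) ≤ B.card)
      linarith)
  push_cast at hs1
  have h5 : (2 : ℝ) ^ B.card * ((12 + 4 * B.card) * Y.card) =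
    (2 : ℝ) ^ B.card * (12 + 4 * B.card) * Y.card := by ring
  rw [h5] at hs1
  nlinarith

theorem ls_Q (h : LS G X Y B κ ρ s) :
    2 * (DD G X Y B : ℝ) + 2 * κ * mm G X Y + κ * ((X.card : ℝ) - Y.card) ^ 2 / 2 ≤
      κ * ((ee G X X : ℝ) + ee G Y Y) + 2 * SS G X Y B - 4 * κ ^ 2
      + 2 * κ * (B.card * |(X.card : ℝ) - Y.card| + (B.card : ℝ) ^ 2 + 2) := by
  obtain ⟨h0, -⟩ := ls_size h
  have hκ := h.hκ
  have he := h.he
  have hd : Disjoint (X ∪ Y) B := disjoint_union_left.2 ⟨h.dXB, h.dYB⟩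
  have e1 : (ee G (X ∪ Y ∪ B) (X ∪ Y ∪ B) : ℝ) = ee G X X + 2 * ee G X Y + ee G Y Y +
      2 * (∑ b ∈ B, ((dg G b X : ℝ) + dg G b Y)) + ee G B B := by
    rw [ee_union_self hd, ee_union_self h.dXY, ee_comm (X ∪ Y) B, ee_union_right B h.dXY]
    unfold ee
    push_cast
    rw [sum_add_distrib]
  have e2 : (ee G X Y : ℝ) + mm G X Y = X.card * Y.card := by exact_mod_cast ee_add_mm X Y
  have e3 : (ee G B B : ℝ) ≤ B.card * B.card := lavg_ee_le B B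
  rw [e1] at he
  have hms : ∀ (b : V) (U : Finset V), ((ms G b U).card : ℝ) = U.card - dg G b U := by
    intro b U
    have : (dg G b U : ℝ) + (ms G b U).card = U.card := by exact_mod_cast dg_add_ms b U
    linarith
  have e4 : (SS G X Y B : ℝ) - DD G X Y B = ∑ b ∈ B,
      ((X.card : ℝ) * dg G b Y + dg G b X * Y.card - X.card * Y.card) := by
    unfold SS DD
    push_cast
    rw [← sum_sub_distrib]
    refine sum_congr rfl fun b _ => ?_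
    rw [hms, hms]
    ring
  set j : ℝ := (X.card : ℝ) - Y.card with hj
  have hX : (X.card : ℝ) = κ + j / 2 := by rw [hj]; linarith
  have hY : (Y.card : ℝ) = κ - j / 2 := by rw [hj]; linarith
  have hx0 : (0 : ℝ) ≤ X.card := Nat.cast_nonneg _
  have hy0 : (0 : ℝ) ≤ Y.card := Nat.cast_nonneg _
  have e5 : ∑ b ∈ B, (κ * ((dg G b X : ℝ) + dg G b Y - κ) - |j| * κ) ≤
      (SS G X Y B : ℝ) - DD G X Y B := by
    rw [e4]
    refine sum_le_sum fun b _ => ?_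
    have ha : (dg G b X : ℝ) ≤ X.card := by exact_mod_cast dg_le_card b X
    have hc : (dg G b Y : ℝ) ≤ Y.card := by exact_mod_cast dg_le_card b Y
    have ha0 : (0 : ℝ) ≤ dg G b X := Nat.cast_nonneg _
    have hc0 : (0 : ℝ) ≤ dg G b Y := Nat.cast_nonneg _
    have h1 : |(dg G b Y : ℝ) - dg G b X| ≤ 2 * κ := by
      rw [abs_le]
      constructor <;> linarith
    have h2 : -(|j| * (2 * κ)) ≤ j * ((dg G b Y : ℝ) - dg G b X) := by
      have h3 : |j * ((dg G b Y : ℝ) - dg G b X)| ≤ |j| * (2 * κ) := by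
        rw [abs_mul]
        exact mul_le_mul_of_nonneg_left h1 (abs_nonneg _)
      exact (abs_le.1 h3).1
    rw [hX, hY]
    nlinarith [sq_nonneg j]
  rw [sum_sub_distrib, ← mul_sum, sum_sub_distrib, sum_const, sum_const, nsmul_eq_mul,
    nsmul_eq_mul] at e5
  generalize (∑ b ∈ B, ((dg G b X : ℝ) + dg G b Y)) = T at *
  have hb0 : (0 : ℝ) ≤ B.card := Nat.cast_nonneg _
  have e6 : 2 * (mm G X Y : ℝ) + j ^ 2 / 2 + 4 * κ ≤ (ee G X X : ℝ) + ee G Y Y +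
      2 * (T - B.card * κ) + (B.card : ℝ) ^ 2 / 2 + 4 := by
    have e7 : (ee G X Y : ℝ) = X.card * Y.card - mm G X Y := by linarith
    rw [e7] at he
    rw [hX, hY] at he
    nlinarith
  have e8 := mul_le_mul_of_nonneg_left e6 h0.le
  have e9 : 0 ≤ κ * (B.card : ℝ) ^ 2 := mul_nonneg h0.le (sq_nonneg _)
  nlinarith

theorem ls_L1 (h : LS G X Y B κ ρ s) :
    2 * (DD G X Y B : ℝ) + 2 * κ * mm G X Y + κ * ((X.card : ℝ) - Y.card) ^ 2 / 2 ≤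
      κ * ee G X X + 50 * ρ ^ 4 * κ ^ 2 := by
  obtain ⟨h0, h40, h8, hx, hy, hb, -, hb2⟩ := lavg_num h
  obtain ⟨-, -, hx1, -, -, -⟩ := ls_size h
  have hQ := ls_Q h
  have hA := ls_avg h (Finset.Subset.refl X)
  have hS : (∑ x ∈ X, (ee G (nb G x B) Y : ℝ)) = SS G X Y B := by
    rw [ls_S]
    push_cast
    rfl
  rw [hS] at hA
  have hκ := h.hκ
  have hE : (ee G Y Y : ℝ) ≤ 6 * Y.card := by
    exact_mod_cast ls_edges h.symm (Finset.Subset.refl Y)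
  have hE0 : (0 : ℝ) ≤ ee G Y Y := Nat.cast_nonneg _
  have h80 : 0 ≤ ρ ^ 8 * κ := by
    have := h.hρ
    positivity
  have h1 : (κ - X.card) * ee G Y Y ≤ ρ ^ 8 * κ * (6 * (101 / 100 * κ)) := by
    have a1 : κ - X.card ≤ ρ ^ 8 * κ := by
      have := (abs_le.1 hx1).1
      linarith
    calc (κ - X.card) * ee G Y Y ≤ ρ ^ 8 * κ * ee G Y Y := mul_le_mul_of_nonneg_right a1 hE0
      _ ≤ _ := mul_le_mul_of_nonneg_left (by linarith) h80
  have hbj : (B.card : ℝ) * |(X.card : ℝ) - Y.card| ≤ ρ ^ 8 * κ := by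
    have a1 := h.hj
    have a2 : (0 : ℝ) ≤ |(X.card : ℝ) - Y.card| := abs_nonneg _
    have a3 : (0 : ℝ) ≤ B.card := Nat.cast_nonneg _
    have a4 := h.hs
    nlinarith [mul_nonneg a3 a4]
  have h2 : 2 * κ * ((B.card : ℝ) * |(X.card : ℝ) - Y.card| + (B.card : ℝ) ^ 2 + 2) ≤
      2 * κ * (2 * (ρ ^ 8 * κ)) :=
    mul_le_mul_of_nonneg_left (by linarith) (by positivity)
  have h3 : 4 * (X.card : ℝ) * Y.card ≤ 4 * κ ^ 2 := by
    nlinarith [sq_nonneg ((X.card : ℝ) - Y.card)]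
  nlinarith

end Pool.Agent.Lib.MP_a3b162_co.CS
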