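import Pool.Agent.Lib.MP_a3b162_co.CS.SmE

/-!
MODULE LDefs (75 min).  The linear scale setting `LS` and its first consequences.

`LS`: `X`, `Y`, `B` disjoint, `κ = (|X| + |Y|)/2`, inner degrees in `X`, `Y` at most `ρ^4 κ`, missing pairs
`m(r) ≤ d(r) + s`, `b = |B|` and `s` and `||X| - |Y||` tiny against `κ`, and at least `n²/4 + n - 2` edges.
(`ρ` is the main small parameter: `ε = ρ^4`, `δ = ρ^2`, `η = 40 ρ`.)

`ls_size`: from `hκ`, `hj` (`(b+3) (|j| + s) ≤ ρ^8 κ`, `b + 3 ≥ 3`), `hb`.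
`ls_M`: `|ms x Y| ≤ dg x X + s ≤ ρ^4 κ + ρ^8 κ`, `ρ ≤ 1/100`.
`ls_edges`: `sm_edges` with `M = 1.01 ρ^4 κ`.
`ls_err`: `err_sum` for `β = 0` with `M = 1.01 ρ^4 κ`, `ee Y Y ≤ 6 |Y|`; the part with `b + 2` is
`(b + 2) mm X Y ≤ (b + 2) (ee X X + s |X|)`, which is of order `ρ^8 κ^2`.
`ls_nongood`: Markov.
`ls_S`: double counting: both sides count `(b, x, y)` with `b ∈ B`, `x ∈ X`, `y ∈ Y`, `b x`, `b y` adjacent.
-/

set_option autoImplicit false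

namespace Pool.Agent.Lib.MP_a3b162_co.CS

open Finset
open scoped Classical

variable {V : Type} {G : SimpleGraph V} {X Y B : Finset V} {κ ρ s : ℝ}

/-- the linear scale setting -/
structure LS (G : SimpleGraph V) (X Y B : Finset V) (κ ρ s : ℝ) : Prop where
  geo : Geo G
  dXY : Disjoint X Y
  dXB : Disjoint X B
  dYB : Disjoint Y B
  hρ : 0 < ρ
  hρ1 : ρ ≤ 1 / 100
  hs : 0 ≤ s
  hκ : 2 * κ = X.card + Y.card
  hdX : ∀ x ∈ X, (dg G x X : ℝ) ≤ ρ ^ 4 * κ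
  hdY : ∀ y ∈ Y, (dg G y Y : ℝ) ≤ ρ ^ 4 * κ
  hmX : ∀ x ∈ X, ((ms G x Y).card : ℝ) ≤ dg G x X + s
  hmY : ∀ y ∈ Y, ((ms G y X).card : ℝ) ≤ dg G y Y + s
  hb : ((B.card : ℝ) + 3) ^ 2 * 2 ^ (B.card + 2) ≤ ρ ^ 8 * κ
  hb2 : (4 : ℝ) ^ (B.card + 3) ≤ ρ ^ 16 * κ
  hj : ((B.card : ℝ) + 3) * (|(X.card : ℝ) - Y.card| + s) ≤ ρ ^ 8 * κ
  he : ((X.card : ℝ) + Y.card + B.card) ^ 2 / 2 + 2 * ((X.card : ℝ) + Y.card + B.card) - 4 ≤
    ee G (X ∪ Y ∪ B) (X ∪ Y ∪ B)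

theorem LS.symm (h : LS G X Y B κ ρ s) : LS G Y X B κ ρ s where
  geo := h.geo
  dXY := h.dXY.symm
  dXB := h.dYB
  dYB := h.dXB
  hρ := h.hρ
  hρ1 := h.hρ1
  hs := h.hs
  hκ := by rw [h.hκ]; ring
  hdX := h.hdY
  hdY := h.hdX
  hmX := h.hmY
  hmY := h.hmX
  hb := h.hb
  hb2 := h.hb2
  hj := by rw [abs_sub_comm]; exact h.hj
  he := by
    have := h.he
    rw [union_comm Y X]
    convert this using 3 <;> ring

/-- the number `D = ∑_b (|X| - a_b)(|Y| - c_b)` -/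
noncomputable def DD (G : SimpleGraph V) (X Y B : Finset V) : ℕ :=
  ∑ b ∈ B, (ms G b X).card * (ms G b Y).card

/-- the number `S = ∑_b a_b c_b` -/
noncomputable def SS (G : SimpleGraph V) (X Y B : Finset V) : ℕ :=
  ∑ b ∈ B, dg G b X * dg G b Y

/-- the good vertices of `X` -/
noncomputable def gd (G : SimpleGraph V) (X Y B : Finset V) (κ ρ : ℝ) : Finset V :=
  X.filter fun x => (err G Y (B.card + 2) x : ℝ) ≤ ρ ^ 2 * κ

private theorem ldefs_abs {a b c : ℝ} (h : |a - b| ≤ c) : a ≤ b + c ∧ b ≤ a + c := by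
  rw [abs_le] at h
  constructor <;> linarith [h.1, h.2]

theorem ls_size (h : LS G X Y B κ ρ s) : 0 < κ ∧ 36 ≤ ρ ^ 8 * κ ∧
    |(X.card : ℝ) - κ| ≤ ρ ^ 8 * κ ∧ |(Y.card : ℝ) - κ| ≤ ρ ^ 8 * κ ∧
    ((B.card : ℝ) + 3) ≤ ρ ^ 8 * κ ∧ s ≤ ρ ^ 8 * κ := by
  have hB0 : (0 : ℝ) ≤ B.card := Nat.cast_nonneg _
  have h1 := h.hb
  have h2 : (4 : ℝ) ≤ 2 ^ (B.card + 2) := by
    calc (4 : ℝ) = 2 ^ 2 := by norm_num
      _ ≤ 2 ^ (B.card + 2) := pow_le_pow_right₀ (by norm_num) (by omega)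
  have h3 : ((B.card : ℝ) + 3) ^ 2 * 4 ≤ ρ ^ 8 * κ :=
    (mul_le_mul_of_nonneg_left h2 (by positivity)).trans h1
  have h36 : 36 ≤ ρ ^ 8 * κ := by nlinarith
  have hκ : 0 < κ := by
    by_contra hcon
    push Not at hcon
    have h8 : 0 < ρ ^ 8 := pow_pos h.hρ 8
    nlinarith
  have hj := h.hj
  have ha : 0 ≤ |(X.card : ℝ) - Y.card| := abs_nonneg _
  have h4 : |(X.card : ℝ) - Y.card| + s ≤ ρ ^ 8 * κ := by
    have h5 : 1 * (|(X.card : ℝ) - Y.card| + s) ≤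
        ((B.card : ℝ) + 3) * (|(X.card : ℝ) - Y.card| + s) :=
      mul_le_mul_of_nonneg_right (by linarith) (by linarith [h.hs])
    linarith
  have h6 : |(X.card : ℝ) - Y.card| ≤ ρ ^ 8 * κ := by linarith [h.hs]
  have hX : (X.card : ℝ) - κ = ((X.card : ℝ) - Y.card) / 2 := by linarith [h.hκ]
  have hY : (Y.card : ℝ) - κ = -(((X.card : ℝ) - Y.card) / 2) := by linarith [h.hκ]
  refine ⟨hκ, h36, ?_, ?_, ?_, by linarith⟩
  · rw [hX, abs_div, abs_two]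
    linarith
  · rw [hY, abs_neg, abs_div, abs_two]
    linarith
  · nlinarith

theorem ls_M (h : LS G X Y B κ ρ s) : ∀ x ∈ X, ((ms G x Y).card : ℝ) ≤ 101 / 100 * ρ ^ 4 * κ := by
  intro x hx
  obtain ⟨hκ, _, _, _, _, hs⟩ := ls_size h
  have h1 := h.hmX x hx
  have h2 := h.hdX x hx
  have h3 : ρ ^ 4 ≤ 1 / 100 := by
    have h5 : ρ ^ 4 ≤ (1 / 100) ^ 4 := pow_le_pow_left₀ h.hρ.le h.hρ1 4
    have : ((1 : ℝ) / 100) ^ 4 ≤ 1 / 100 := by norm_num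
    linarith
  have h4 : ρ ^ 8 * κ ≤ 1 / 100 * (ρ ^ 4 * κ) := by
    have e : ρ ^ 8 * κ = ρ ^ 4 * (ρ ^ 4 * κ) := by ring
    rw [e]
    exact mul_le_mul_of_nonneg_right h3 (mul_nonneg (pow_nonneg h.hρ.le 4) hκ.le)
  linarith

private theorem ldefs_card (h : LS G X Y B κ ρ s) :
    24 * (101 / 100 * ρ ^ 4 * κ) ≤ Y.card ∧ 3 ≤ Y.card ∧ (Y.card : ℝ) ≤ 101 / 100 * κ ∧
      (X.card : ℝ) ≤ 101 / 100 * κ := by
  obtain ⟨hκ, h36, hX, hY, _, _⟩ := ls_size h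
  have h4 : ρ ^ 4 ≤ 1 / 10000 := by
    have h5 : ρ ^ 4 ≤ (1 / 100) ^ 4 := pow_le_pow_left₀ h.hρ.le h.hρ1 4
    have : ((1 : ℝ) / 100) ^ 4 ≤ 1 / 10000 := by norm_num
    linarith
  have h8 : ρ ^ 8 ≤ 1 / 10000 := by
    have h5 : ρ ^ 8 ≤ (1 / 100) ^ 8 := pow_le_pow_left₀ h.hρ.le h.hρ1 8
    have : ((1 : ℝ) / 100) ^ 8 ≤ 1 / 10000 := by norm_num
    linarith
  have h4' : ρ ^ 4 * κ ≤ 1 / 10000 * κ := mul_le_mul_of_nonneg_right h4 hκ.le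
  have h8' : ρ ^ 8 * κ ≤ 1 / 10000 * κ := mul_le_mul_of_nonneg_right h8 hκ.le
  obtain ⟨hY1, hY2⟩ := ldefs_abs hY
  obtain ⟨hX1, hX2⟩ := ldefs_abs hX
  have hκbig : 36 ≤ 1 / 10000 * κ := by linarith
  refine ⟨by linarith, ?_, by linarith, by linarith⟩
  have : (3 : ℝ) ≤ Y.card := by linarith
  exact_mod_cast this

theorem ls_edges (h : LS G X Y B κ ρ s) {W : Finset V} (hW : W ⊆ X) : ee G W W ≤ 6 * W.card := by
  obtain ⟨h1, h2, _, _⟩ := ldefs_card h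
  exact sm_edges h.geo (ls_M h) h1 h2 hW

theorem ls_err (h : LS G X Y B κ ρ s) :
    (∑ x ∈ X, (err G Y (B.card + 2) x : ℝ)) ≤ 7 * ρ ^ 4 * κ ^ 2 := by
  obtain ⟨hκ, h36, _, _, hB, hs8⟩ := ls_size h
  obtain ⟨_, _, hY, hX⟩ := ldefs_card h
  -- the part of the inner degrees
  have h1 := err_sum (G := G) (X := X) (Y := Y) (β := 0) (ls_M h.symm)
  have h2 : (ee G Y Y : ℝ) ≤ 6 * Y.card := by
    exact_mod_cast ls_edges h.symm (subset_refl Y)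
  have h2' : (ee G X X : ℝ) ≤ 6 * X.card := by
    exact_mod_cast ls_edges h (subset_refl X)
  have hM : 0 ≤ 101 / 100 * ρ ^ 4 * κ := by
    have := pow_nonneg h.hρ.le 4
    positivity
  have h3 : (∑ x ∈ X, (err G Y 0 x : ℝ)) ≤ 101 / 100 * ρ ^ 4 * κ * (6 * (101 / 100 * κ)) := by
    refine h1.trans (mul_le_mul_of_nonneg_left ?_ hM)
    push_cast
    linarith
  -- the part of the missing pairs
  have h4 : ∀ x ∈ X, (err G Y (B.card + 2) x : ℝ) =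
      err G Y 0 x + ((B.card : ℝ) + 2) * (ms G x Y).card := by
    intro x _
    unfold err
    rw [sum_add_distrib, sum_add_distrib, sum_const, sum_const]
    simp only [smul_eq_mul]
    push_cast
    ring
  have h5 : (∑ x ∈ X, ((ms G x Y).card : ℝ)) ≤ ee G X X + s * X.card := by
    have e : (ee G X X : ℝ) + s * X.card = ∑ x ∈ X, ((dg G x X : ℝ) + s) := by
      rw [sum_add_distrib, sum_const, nsmul_eq_mul]
      unfold ee
      push_cast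
      ring
    rw [e]
    exact sum_le_sum fun x hx => h.hmX x hx
  have hb0 : (0 : ℝ) ≤ B.card := Nat.cast_nonneg _
  have h6 : (∑ x ∈ X, (err G Y (B.card + 2) x : ℝ)) =
      (∑ x ∈ X, (err G Y 0 x : ℝ)) + ((B.card : ℝ) + 2) * ∑ x ∈ X, ((ms G x Y).card : ℝ) := by
    rw [sum_congr rfl h4, sum_add_distrib, mul_sum]
  have h7 : ((B.card : ℝ) + 2) * ∑ x ∈ X, ((ms G x Y).card : ℝ) ≤
      ((B.card : ℝ) + 2) * (6 * (101 / 100 * κ) + s * (101 / 100 * κ)) := by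
    refine mul_le_mul_of_nonneg_left (h5.trans ?_) (by linarith)
    have := mul_le_mul_of_nonneg_left hX h.hs
    linarith
  have h8 : ((B.card : ℝ) + 2) * s ≤ ρ ^ 8 * κ := by
    have h9 := h.hj
    have h10 : 0 ≤ ((B.card : ℝ) + 3) * |(X.card : ℝ) - Y.card| :=
      mul_nonneg (by linarith) (abs_nonneg _)
    have h11 := h.hs
    nlinarith
  have h4ρ : ρ ^ 4 ≤ 1 / 1000 := by
    have h5 : ρ ^ 4 ≤ (1 / 100) ^ 4 := pow_le_pow_left₀ h.hρ.le h.hρ1 4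
    have : ((1 : ℝ) / 100) ^ 4 ≤ 1 / 1000 := by norm_num
    linarith
  have h8ρ : ρ ^ 8 * κ * κ ≤ 1 / 1000 * (ρ ^ 4 * κ ^ 2) := by
    have e : ρ ^ 8 * κ * κ = ρ ^ 4 * (ρ ^ 4 * κ ^ 2) := by ring
    rw [e]
    exact mul_le_mul_of_nonneg_right h4ρ (mul_nonneg (pow_nonneg h.hρ.le 4) (sq_nonneg _))
  have h12 : ((B.card : ℝ) + 2) * (6 * (101 / 100 * κ) + s * (101 / 100 * κ)) ≤
      8 * (ρ ^ 8 * κ * κ) := by
    have g1 : ((B.card : ℝ) + 2) * κ ≤ ρ ^ 8 * κ * κ :=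
      mul_le_mul_of_nonneg_right (by linarith) hκ.le
    have g2 : ((B.card : ℝ) + 2) * s * κ ≤ ρ ^ 8 * κ * κ :=
      mul_le_mul_of_nonneg_right h8 hκ.le
    nlinarith
  have hpos : 0 ≤ ρ ^ 4 * κ ^ 2 := mul_nonneg (pow_nonneg h.hρ.le 4) (sq_nonneg _)
  rw [h6]
  nlinarith

theorem ls_nongood (h : LS G X Y B κ ρ s) :
    ((X \ gd G X Y B κ ρ).card : ℝ) ≤ 7 * ρ ^ 2 * κ := by
  obtain ⟨hκ, _, _, _, _, _⟩ := ls_size h
  have h1 := ls_err h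
  have hρ2 : 0 < ρ ^ 2 := pow_pos h.hρ 2
  have h2 : ((X \ gd G X Y B κ ρ).card : ℝ) * (ρ ^ 2 * κ) ≤
      ∑ x ∈ X, (err G Y (B.card + 2) x : ℝ) := by
    calc ((X \ gd G X Y B κ ρ).card : ℝ) * (ρ ^ 2 * κ)
        = ∑ x ∈ X \ gd G X Y B κ ρ, (ρ ^ 2 * κ) := by rw [sum_const, nsmul_eq_mul]
      _ ≤ ∑ x ∈ X \ gd G X Y B κ ρ, (err G Y (B.card + 2) x : ℝ) := by
          refine sum_le_sum fun x hx => ?_
          rw [mem_sdiff, gd, mem_filter, not_and, not_le] at hx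
          exact (hx.2 hx.1).le
      _ ≤ ∑ x ∈ X, (err G Y (B.card + 2) x : ℝ) :=
          sum_le_sum_of_subset_of_nonneg sdiff_subset fun x _ _ => Nat.cast_nonneg _
  have hpos : 0 < ρ ^ 2 * κ := mul_pos hρ2 hκ
  have h3 : ((X \ gd G X Y B κ ρ).card : ℝ) * (ρ ^ 2 * κ) ≤ (7 * ρ ^ 2 * κ) * (ρ ^ 2 * κ) := by
    refine h2.trans (h1.trans (le_of_eq ?_))
    ring
  exact le_of_mul_le_mul_right h3 hpos

theorem ls_S (G : SimpleGraph V) (X Y B : Finset V) :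
    SS G X Y B = ∑ x ∈ X, ee G (nb G x B) Y := by
  have h1 : ∀ x ∈ X, ee G (nb G x B) Y = ∑ b ∈ B, if G.Adj b x then dg G b Y else 0 := by
    intro x _
    unfold ee nb
    rw [sum_filter]
    refine sum_congr rfl fun b _ => ?_
    simp only [G.adj_comm x b]
  rw [sum_congr rfl h1, sum_comm]
  unfold SS
  refine sum_congr rfl fun b _ => ?_
  rw [dg_eq_sum b X, sum_mul]
  refine sum_congr rfl fun x _ => ?_
  split_ifs <;> simp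

end Pool.Agent.Lib.MP_a3b162_co.CS
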