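import Pool.Agent.Lib.MP_a3b162_co.CS.LType

/-!
MODULE LSSa (60 min).  Both sides have centres: covers `C ⊆ X`, `C' ⊆ Y` with `|C| |C'| ≤ mm G X Y`.

Call `C ⊆ X` an X-cover if `ee (X\C) (X\C) ≤ 64 ρ² κ`; take `C` an X-cover and `C'` a Y-cover of least
cardinality (`X`, `Y` themselves are covers).  `P_X = {c ∈ X : 2 ≤ dg c (gd X Y)}`, `P_Y` similarly.
(i) For `c ∈ P_X` the set `ms c Y` is a Y-cover (`Y \ ms c Y = nb c Y`, `ls_centre`): `|C'| ≤ |ms c Y|`.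
(ii) `P_X` is an X-cover: let `W = X \ P_X`; `ls_typeM`: `ee W W ≤ ee Gd' Gd' + 56 ρ²κ`,
`Gd' = gd X Y ∩ W`; with some `c' ∈ P_Y` (`hY`), `ls_match` with `U = X`, `R = ms c' X`:
`ee Gd' Gd' ≤ ee (nb c' X) (nb c' X) + 2 |ms c' X| ≤ 5 ρ²κ + 2.02 ρ^4 κ` (`ls_centre h.symm`,
`ls_M h.symm`).  So `|C| ≤ |P_X|`.
Hence `mm G X Y ≥ ∑_{c ∈ P_X} |ms c Y| ≥ |P_X| |C'| ≥ |C| |C'|`.
-/

set_option autoImplicit false

namespace Pool.Agent.Lib.MP_a3b162_co.CS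

open Finset
open scoped Classical

variable {V : Type} {G : SimpleGraph V} {X Y B : Finset V} {κ ρ s : ℝ}

theorem lssa_sdiff_ms (c : V) (U : Finset V) : U \ ms G c U = nb G c U := by
  ext z
  rw [mem_sdiff, mem_ms, mem_nb]
  tauto

theorem lssa_min (U : Finset V) {t : ℝ} (ht : 0 ≤ t) : ∃ C ⊆ U, (ee G (U \ C) (U \ C) : ℝ) ≤ t ∧
    ∀ D ⊆ U, (ee G (U \ D) (U \ D) : ℝ) ≤ t → C.card ≤ D.card := by
  obtain ⟨C, hC, hmin⟩ := exists_min_image
    (U.powerset.filter fun D => (ee G (U \ D) (U \ D) : ℝ) ≤ t) card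
    ⟨U, mem_filter.2 ⟨mem_powerset_self U, by
      rw [sdiff_self, bot_eq_empty, ee_empty_left]
      simpa using ht⟩⟩
  rw [mem_filter, mem_powerset] at hC
  exact ⟨C, hC.1, hC.2, fun D hD h => hmin D (mem_filter.2 ⟨mem_powerset.2 hD, h⟩)⟩

theorem ss_cover (h : LS G X Y B κ ρ s)
    (hX : ∃ c ∈ X, 2 ≤ dg G c (gd G X Y B κ ρ)) (hY : ∃ c ∈ Y, 2 ≤ dg G c (gd G Y X B κ ρ)) :
    ∃ C ⊆ X, ∃ C' ⊆ Y, (ee G (X \ C) (X \ C) : ℝ) ≤ 64 * ρ ^ 2 * κ ∧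
      (ee G (Y \ C') (Y \ C') : ℝ) ≤ 64 * ρ ^ 2 * κ ∧ C.card * C'.card ≤ mm G X Y := by
  obtain ⟨hκ, -⟩ := ls_size h
  have hρ := h.hρ
  have hρ1 := h.hρ1
  have ht : 0 ≤ 64 * ρ ^ 2 * κ := by positivity
  have hr : 0 ≤ ρ ^ 2 * κ := by positivity
  obtain ⟨C, hC, hCt, hCmin⟩ := lssa_min (G := G) X ht
  obtain ⟨C', hC', hCt', hCmin'⟩ := lssa_min (G := G) Y ht
  refine ⟨C, hC, C', hC', hCt, hCt', ?_⟩
  set P : Finset V := X.filter fun c => 2 ≤ dg G c (gd G X Y B κ ρ) with hP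
  have h1 : ∀ c ∈ P, C'.card ≤ (ms G c Y).card := by
    intro c hc
    rw [hP, mem_filter] at hc
    refine hCmin' _ (ms_subset _ _) ?_
    rw [lssa_sdiff_ms]
    have := ls_centre h hc.1 hc.2
    linarith
  have h2 : C.card ≤ P.card := by
    refine hCmin P (filter_subset _ _) ?_
    obtain ⟨c', hc', hc2'⟩ := hY
    have hW : X \ P ⊆ X := sdiff_subset
    have a1 := ls_typeM h hW (fun x hx => by
      rw [mem_sdiff, hP, mem_filter, not_and] at hx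
      have b1 := hx.2 hx.1
      have b2 := dg_mono (G := G) x
        (inter_subset_left : gd G X Y B κ ρ ∩ (X \ P) ⊆ gd G X Y B κ ρ)
      omega)
    have a2 := ls_match (G := G) (U := X) (R := ms G c' X) (A := gd G X Y B κ ρ ∩ (X \ P))
      (inter_subset_right.trans hW) (fun y hy => by
        have hy' := (mem_inter.1 hy).2
        rw [mem_sdiff, hP, mem_filter, not_and] at hy'
        have b1 := hy'.2 hy'.1
        have b2 := dg_mono (G := G) y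
          (inter_subset_left : gd G X Y B κ ρ ∩ (X \ P) ⊆ gd G X Y B κ ρ)
        omega)
    rw [lssa_sdiff_ms, inter_eq_left.2 (ms_subset _ _)] at a2
    have a3 := ls_centre h.symm hc' hc2'
    have a4 := ls_M h.symm c' hc'
    have a5 : (ee G (gd G X Y B κ ρ ∩ (X \ P)) (gd G X Y B κ ρ ∩ (X \ P)) : ℝ) ≤
        ee G (nb G c' X) (nb G c' X) + 2 * (ms G c' X).card := by exact_mod_cast a2
    have a6 : ρ ^ 4 * κ ≤ ρ ^ 2 * κ := by
      have : ρ ^ 4 ≤ ρ ^ 2 := pow_le_pow_of_le_one hρ.le (by linarith) (by norm_num)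
      exact mul_le_mul_of_nonneg_right this hκ.le
    linarith
  calc C.card * C'.card ≤ P.card * C'.card := Nat.mul_le_mul_right _ h2
    _ = ∑ c ∈ P, C'.card := by rw [sum_const, smul_eq_mul]
    _ ≤ ∑ c ∈ P, (ms G c Y).card := sum_le_sum h1
    _ ≤ mm G X Y := sum_le_sum_of_subset (filter_subset _ _)

end Pool.Agent.Lib.MP_a3b162_co.CS
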