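import Pool.Agent.Lib.MP_a3b162_co.CS.RTri
import Pool.Agent.Lib.MP_a3b162_co.CS.CutDefs

/-!
MODULE RPart (60 min).  A partition with few inner edges, and the maximal cut.

`part`.  `E = ee univ univ = ∑ d(v)`, `N y = nb G y univ`.
`∑_y ee (N y)ᶜ (N y)ᶜ = ∑_{(u,w) adjacent} #{y : y ≁ u, y ≁ w} = ∑_{(u,w)} (n - d u - d w + cd (u,w))
= n E - 2 ∑ d(u)² + ∑_y ee (N y)(N y)`, and `∑ d² ≥ E²/n` (`inner_mul_le_norm_mul_norm` or
`sq_sum_le_card_mul_sum_sq`), so `n E - 2 ∑ d² ≤ E (n - 2E/n) ≤ 0` as `2 E ≥ n²`.  With `tri_few` for `η/2`: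
`∑_y (ee (N y)(N y) + ee (N y)ᶜ (N y)ᶜ) ≤ η n³`; take a `y` with the smallest term, `A = N y`.

`maxcut`.  `X` minimizing `ee X X + ee Xᶜ Xᶜ` over all finite sets; then exchange `X` and `Xᶜ` if
`|X| < |Xᶜ|`.  For `x ∈ X`: moving `x` to the other side changes the sum by `2 dg x Xᶜ - 2 dg x X`
(`ee_erase_self`, `ee_insert_self`), so `dg x X ≤ dg x Xᶜ`.

`cut_mk`.  `n = card V`, `k = n / 2`, `o = n % 2`, `i = |X| - (k + o)` (as `|X| ≥ |Xᶜ|`, `|X| ≥ k + o`).
`dX`: `dg x univ = dg x X + dg x Xᶜ = dg x X + |Xᶜ| - |ms x Xᶜ|`, `|Xᶜ| = k - i`, minimum degree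
`k + o + 1`.  `edges`: `ee univ univ = ee X X + ee Xᶜ Xᶜ + 2 (|X||Xᶜ| - mm)`,
`(k+o+i)(k-i) = k² + ok - oi - i²`, `n²/4 = k² + o k` (natural division).
-/

set_option autoImplicit false

namespace Pool.Agent.Lib.MP_a3b162_co.CS

open Finset
open scoped Classical

private theorem rpart_compl {V : Type} [Fintype V] (G : SimpleGraph V) (N : Finset V) :
    ee G Nᶜ Nᶜ + 2 * ee G N univ = ee G univ univ + ee G N N := by
  have hd : Disjoint N Nᶜ := disjoint_compl_right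
  have h1 : ee G univ univ = ee G N N + 2 * ee G N Nᶜ + ee G Nᶜ Nᶜ := by
    rw [← ee_union_self hd, union_compl]
  have h2 : ee G N univ = ee G N N + ee G N Nᶜ := by
    rw [← ee_union_right N hd, union_compl]
  omega

theorem part {η : ℝ} (hη : 0 < η) : ∃ n1 : ℕ, ∀ (V : Type) [Fintype V] (G : SimpleGraph V),
    Geo G → n1 ≤ Fintype.card V → (Fintype.card V : ℝ) ^ 2 ≤ 2 * ee G univ univ →
    ∃ A : Finset V, (ee G A A : ℝ) + ee G Aᶜ Aᶜ ≤ η * (Fintype.card V : ℝ) ^ 2 := by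
  obtain ⟨n1, hn1⟩ := tri_few (half_pos hη)
  refine ⟨n1 + 1, fun V _ G hG hn hE => ?_⟩
  have htri := hn1 V G hG (by omega)
  set n : ℕ := Fintype.card V with hndef
  have hn0 : 0 < n := by omega
  have hnR : (0 : ℝ) < n := by exact_mod_cast hn0
  -- the sum of the squares of the degrees
  have hsq : ∑ y : V, ee G (nb G y univ) univ = ∑ u : V, dg G u univ ^ 2 := by
    have e1 : ∀ y : V, ee G (nb G y univ) univ = ∑ u : V, if G.Adj u y then dg G u univ else 0 := by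
      intro y
      unfold ee nb
      rw [sum_filter]
      refine sum_congr rfl fun u _ => ?_
      simp only [G.adj_comm y u]
    rw [sum_congr rfl fun y _ => e1 y, sum_comm]
    refine sum_congr rfl fun u _ => ?_
    rw [sq, dg_eq_sum u univ, sum_mul]
    refine sum_congr rfl fun y _ => ?_
    split_ifs <;> simp
  have hcs : (ee G univ univ : ℝ) ^ 2 ≤ n * ∑ u : V, (dg G u univ : ℝ) ^ 2 := by
    have h := sq_sum_le_card_mul_sum_sq (s := (univ : Finset V))
      (f := fun u => (dg G u univ : ℝ))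
    rw [card_univ] at h
    have e : (ee G univ univ : ℝ) = ∑ u : V, (dg G u univ : ℝ) := by
      unfold ee
      push_cast
      rfl
    rw [e]
    exact h
  -- the sum over y
  have hsum : (∑ y : V, (ee G (nb G y univ)ᶜ (nb G y univ)ᶜ : ℝ)) +
      2 * ∑ u : V, (dg G u univ : ℝ) ^ 2 =
        n * ee G univ univ + ∑ y : V, (ee G (nb G y univ) (nb G y univ) : ℝ) := by
    have h1 : ∑ y : V, (ee G (nb G y univ)ᶜ (nb G y univ)ᶜ + 2 * ee G (nb G y univ) univ) =
        ∑ y : V, (ee G univ univ + ee G (nb G y univ) (nb G y univ)) :=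
      sum_congr rfl fun y _ => rpart_compl G _
    rw [sum_add_distrib, sum_add_distrib, ← mul_sum, hsq, sum_const, card_univ, smul_eq_mul] at h1
    have h2 := congrArg (fun k : ℕ => (k : ℝ)) h1
    push_cast at h2
    exact h2
  have hle : (n : ℝ) * ee G univ univ - 2 * ∑ u : V, (dg G u univ : ℝ) ^ 2 ≤ 0 := by
    have h0 : (0 : ℝ) ≤ ee G univ univ := Nat.cast_nonneg _
    have h1 : (n : ℝ) * ((n : ℝ) * ee G univ univ - 2 * ∑ u : V, (dg G u univ : ℝ) ^ 2) ≤ 0 := by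
      nlinarith
    by_contra hcon
    push Not at hcon
    have := mul_pos hnR hcon
    linarith
  have htot : ∑ y : V, ((ee G (nb G y univ) (nb G y univ) : ℝ) +
      ee G (nb G y univ)ᶜ (nb G y univ)ᶜ) ≤ η * (n : ℝ) ^ 3 := by
    rw [sum_add_distrib]
    linarith
  obtain ⟨y, _, hy⟩ := exists_min_image (univ : Finset V)
    (fun y => (ee G (nb G y univ) (nb G y univ) : ℝ) + ee G (nb G y univ)ᶜ (nb G y univ)ᶜ)
    (by rw [← card_pos, card_univ]; exact hn0)
  refine ⟨nb G y univ, ?_⟩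
  have h2 := card_nsmul_le_sum (univ : Finset V)
    (fun y => (ee G (nb G y univ) (nb G y univ) : ℝ) + ee G (nb G y univ)ᶜ (nb G y univ)ᶜ)
    _ hy
  rw [card_univ, nsmul_eq_mul] at h2
  have h3 := h2.trans htot
  have h4 : η * (n : ℝ) ^ 3 = n * (η * (n : ℝ) ^ 2) := by ring
  rw [h4] at h3
  exact le_of_mul_le_mul_left h3 hnR

private theorem rpart_move {V : Type} [Fintype V] (G : SimpleGraph V) {X : Finset V}
    (hmin : ∀ Z : Finset V, ee G X X + ee G Xᶜ Xᶜ ≤ ee G Z Z + ee G Zᶜ Zᶜ) :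
    ∀ x ∈ X, dg G x X ≤ dg G x Xᶜ := by
  intro x hx
  have h1 := hmin (X.erase x)
  have h2 := ee_erase_self (G := G) hx
  have hx' : x ∉ Xᶜ := by
    rw [mem_compl, not_not]
    exact hx
  have h3 := ee_insert_self (G := G) hx'
  have h4 : (X.erase x)ᶜ = insert x Xᶜ := compl_erase
  rw [h4] at h1
  omega

theorem maxcut {V : Type} [Fintype V] (G : SimpleGraph V) (A : Finset V) : ∃ X : Finset V,
    ee G X X + ee G Xᶜ Xᶜ ≤ ee G A A + ee G Aᶜ Aᶜ ∧ Xᶜ.card ≤ X.card ∧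
    (∀ x ∈ X, dg G x X ≤ dg G x Xᶜ) ∧ (∀ y ∈ Xᶜ, dg G y Xᶜ ≤ dg G y X) := by
  obtain ⟨X, _, hX⟩ := exists_min_image (univ : Finset (Finset V))
    (fun X => ee G X X + ee G Xᶜ Xᶜ) ⟨∅, mem_univ _⟩
  have hmin : ∀ Z : Finset V, ee G X X + ee G Xᶜ Xᶜ ≤ ee G Z Z + ee G Zᶜ Zᶜ :=
    fun Z => hX Z (mem_univ _)
  have hmin' : ∀ Z : Finset V, ee G Xᶜ Xᶜ + ee G Xᶜᶜ Xᶜᶜ ≤ ee G Z Z + ee G Zᶜ Zᶜ := by
    intro Z
    rw [compl_compl, add_comm]
    exact hmin Z
  have m1 := rpart_move G hmin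
  have m2 := rpart_move G hmin'
  rcases le_total Xᶜ.card X.card with h | h
  · refine ⟨X, hmin A, h, m1, ?_⟩
    rw [compl_compl] at m2
    exact m2
  · refine ⟨Xᶜ, ?_, ?_, m2, ?_⟩
    · exact hmin' A
    · rw [compl_compl]
      exact h
    · rw [compl_compl]
      exact m1

theorem cut_mk {V : Type} [Fintype V] {G : SimpleGraph V} (hG : Geo G) {X : Finset V}
    (hX : Xᶜ.card ≤ X.card) (h1 : ∀ x ∈ X, dg G x X ≤ dg G x Xᶜ)
    (h2 : ∀ y ∈ Xᶜ, dg G y Xᶜ ≤ dg G y X)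
    (hd : ∀ v : V, (Fintype.card V + 1) / 2 + 1 ≤ dg G v univ)
    (he : 2 * (Fintype.card V ^ 2 / 4 + Fintype.card V - 1) ≤ ee G univ univ) :
    Cut G X Xᶜ (Fintype.card V / 2) (X.card - (Fintype.card V + 1) / 2)
      (Fintype.card V % 2) := by
  have hdis : Disjoint X Xᶜ := disjoint_compl_right
  have hc : X.card + Xᶜ.card = Fintype.card V := card_add_card_compl X
  have hsplit : ∀ v, dg G v univ = dg G v X + dg G v Xᶜ := by
    intro v
    rw [← dg_union v hdis, union_compl]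
  have hE : ee G univ univ = ee G X X + 2 * ee G X Xᶜ + ee G Xᶜ Xᶜ := by
    rw [← ee_union_self hdis, union_compl]
  have hmm := ee_add_mm (G := G) X Xᶜ
  refine ⟨hG, hdis, by omega, by omega, by omega, ?_, ?_, ?_, h1, h2⟩
  · intro x _
    have a1 := hd x
    have a2 := hsplit x
    have a3 := dg_add_ms (G := G) x Xᶜ
    omega
  · intro y _
    have a1 := hd y
    have a2 := hsplit y
    have a3 := dg_add_ms (G := G) y X
    omega
  · -- the number of edges
    obtain ⟨b, hb⟩ : ∃ b, b = Xᶜ.card := ⟨_, rfl⟩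
    obtain ⟨i, hi⟩ : ∃ i, i = X.card - (Fintype.card V + 1) / 2 := ⟨_, rfl⟩
    obtain ⟨o, ho⟩ : ∃ o, o = Fintype.card V % 2 := ⟨_, rfl⟩
    have hk : Fintype.card V / 2 = b + i := by omega
    have hn : Fintype.card V = 2 * (b + i) + o := by omega
    have hXc : X.card = b + 2 * i + o := by omega
    have ho2 : o = 0 ∨ o = 1 := by omega
    have hq : Fintype.card V ^ 2 / 4 = (b + i) * (b + i) + (b + i) * o := by
      rw [hn]
      rcases ho2 with rfl | rfl
      · have e : (2 * (b + i) + 0) ^ 2 = 4 * ((b + i) * (b + i) + (b + i) * 0) := by ring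
        rw [e, Nat.mul_div_cancel_left _ (by norm_num)]
      · have e : (2 * (b + i) + 1) ^ 2 = 1 + 4 * ((b + i) * (b + i) + (b + i) * 1) := by ring
        rw [e, Nat.add_mul_div_left _ _ (by norm_num)]
        norm_num
    rw [hq] at he
    rw [← hi, ← ho, hk]
    rw [← hb, hXc] at hmm
    have e1 : (b + 2 * i + o) * b = b * b + 2 * (i * b) + o * b := by ring
    have e2 : (b + i) * (b + i) + (b + i) * o = b * b + 2 * (i * b) + i * i + o * b + o * i := by
      ring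
    rw [e1] at hmm
    rw [e2, hn] at he
    omega

end Pool.Agent.Lib.MP_a3b162_co.CS
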