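import Pool.Agent.Lib.MP_a3b162_co.CS.Api

/-!
MODULE RRed (75 min).  Progressive induction: it is enough to exclude graphs with large minimum degree.

`geo_induce`.  `G.induce {v | v ∈ U}` on the subtype; all counts transfer by the injection `Subtype.val`:
`ee (induce) Z Z = ee G (Z.map val) (Z.map val)` etc.
`ee_induce_univ`, `dg_induce_univ`: the counts for `univ` of the subtype are those for `U` in `G`.

`reduce`.  Let `F n = n^2/4 + n - 2` (natural division), `F (2k) = F (2k-1) + k + 1`,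
`F (2k+1) = F (2k) + k + 1`.  Suppose `ee G univ univ ≥ 2 (F N + 1)`, `N = card V ≥ N0`.  By downward
induction for `n1 ≤ n ≤ N`: there is `U ⊆ V` with `|U| = n` and `ee U U ≥ 2 (F n + 1 + #{even m : n < m ≤ N})`
(or `≥ 2 (F n + 1) + (N - n) - 1`): given `U` with `|U| = n > n1`, apply the hypothesis to
`G.induce U`: as `ee U U ≥ 2 (n²/4 + n - 1)` some `v ∈ U` has `dg v U ≤ (n+1)/2`; `U.erase v`
(`ee_erase_self`): `ee` drops by at most `2 ((n+1)/2)`, while `2 (F n - F (n-1)) = 2 (n/2 + 1)`: the excess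
does not decrease, and increases by `2` if `n` is even.  At `n = n1`: `ee U U ≤ n1²`, but the excess is
at least `N - n1 - 1`.  Take `N0 = n1 + n1² + 10`, `n1 ≥ 4`.
-/

set_option autoImplicit false

namespace Pool.Agent.Lib.MP_a3b162_co.CS

open Finset
open scoped Classical

theorem RRed_dg {V W : Type} {G : SimpleGraph V} {H : SimpleGraph W} (f : W ↪ V)
    (hf : ∀ a b, H.Adj a b ↔ G.Adj (f a) (f b)) (v : W) (B : Finset W) :
    dg H v B = dg G (f v) (B.map f) := by
  unfold dg nb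
  rw [filter_map, card_map]
  congr 1
  refine filter_congr fun w _ => ?_
  exact hf v w

theorem RRed_ee {V W : Type} {G : SimpleGraph V} {H : SimpleGraph W} (f : W ↪ V)
    (hf : ∀ a b, H.Adj a b ↔ G.Adj (f a) (f b)) (A B : Finset W) :
    ee H A B = ee G (A.map f) (B.map f) := by
  unfold ee
  rw [sum_map]
  exact sum_congr rfl fun v _ => RRed_dg f hf v B

theorem RRed_geo {V W : Type} {G : SimpleGraph V} {H : SimpleGraph W} (f : W ↪ V)
    (hf : ∀ a b, H.Adj a b ↔ G.Adj (f a) (f b)) (hG : Geo G) : Geo H := by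
  have hz : ∀ (x1 x2 x3 : W) (Z : Finset W), (∀ z ∈ Z, H.Adj x1 z ∧ H.Adj x2 z ∧ H.Adj x3 z) →
      ∀ z ∈ Z.map f, G.Adj (f x1) z ∧ G.Adj (f x2) z ∧ G.Adj (f x3) z := by
    intro x1 x2 x3 Z h z hz
    obtain ⟨w, hw, rfl⟩ := mem_map.1 hz
    rw [← hf, ← hf, ← hf]
    exact h w hw
  refine ⟨?_, ?_, ?_, ?_, ?_⟩
  · intro x1 x2 x3 h1 h2 h3 Z h hc
    have g := hG.t0 (f x1) (f x2) (f x3) (f.injective.ne h1) (f.injective.ne h2)
      (f.injective.ne h3) (Z.map f) (hz x1 x2 x3 Z h) (by rw [card_map]; exact hc)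
    rw [← RRed_ee f hf, card_map] at g
    exact g
  · intro x1 x2 x3 h1 h2 h3 Z h
    have g := hG.t1 (f x1) (f x2) (f x3) ((hf _ _).1 h1) (f.injective.ne h2)
      (f.injective.ne h3) (Z.map f) (hz x1 x2 x3 Z h)
    rw [← RRed_ee f hf, card_map] at g
    exact g
  · intro x1 x2 x3 h1 h2 h3 z1 z2 z3 z4 h n1 n2 a1 a2 a3 a4
    refine hG.t1c (f x1) (f x2) (f x3) ((hf _ _).1 h1) (f.injective.ne h2)
      (f.injective.ne h3) (f z1) (f z2) (f z3) (f z4) ?_ (f.injective.ne n1)
      (f.injective.ne n2) ((hf _ _).1 a1) ((hf _ _).1 a2) ((hf _ _).1 a3) ((hf _ _).1 a4)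
    have g : ∀ z ∈ ({z1, z2, z3, z4} : Set W),
        G.Adj (f x1) (f z) ∧ G.Adj (f x2) (f z) ∧ G.Adj (f x3) (f z) := by
      intro z hz'
      rw [← hf, ← hf, ← hf]
      exact h z hz'
    intro z hz'
    rcases hz' with rfl | rfl | rfl | rfl
    · exact g z1 (by simp)
    · exact g z2 (by simp)
    · exact g z3 (by simp)
    · exact g z4 (by simp)
  · intro x1 x2 x3 h1 h2 h3 Z h hne
    have g := hG.t2 (f x1) (f x2) (f x3) ((hf _ _).1 h1) ((hf _ _).1 h2)
      (f.injective.ne h3) (Z.map f) (hz x1 x2 x3 Z h) (hne.map)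
    rw [← RRed_ee f hf, card_map] at g
    exact g
  · intro x1 x2 x3 h1 h2 h3 Z h
    obtain ⟨C, hC1, hC2, hC3⟩ := hG.t2c (f x1) (f x2) (f x3) ((hf _ _).1 h1) ((hf _ _).1 h2)
      (f.injective.ne h3) (Z.map f) (hz x1 x2 x3 Z h)
    refine ⟨Z.filter fun z => f z ∈ C, filter_subset _ _, ?_, ?_⟩
    · refine le_trans ?_ hC2
      rw [← card_map f]
      refine card_le_card fun z hz' => ?_
      obtain ⟨w, hw, rfl⟩ := mem_map.1 hz'
      exact (mem_filter.1 hw).2
    · intro a ha b hb hab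
      rcases hC3 (f a) (mem_map_of_mem f ha) (f b) (mem_map_of_mem f hb) ((hf _ _).1 hab) with
        g | g
      · exact Or.inl (mem_filter.2 ⟨ha, g⟩)
      · exact Or.inr (mem_filter.2 ⟨hb, g⟩)

theorem geo_induce {V : Type} {G : SimpleGraph V} (hG : Geo G) (U : Finset V) :
    Geo (G.induce {v | v ∈ U}) :=
  RRed_geo (Function.Embedding.subtype _) (fun _ _ => Iff.rfl) hG

theorem RRed_univ {V : Type} (U : Finset V) :
    (univ : Finset {v | v ∈ U}).map (Function.Embedding.subtype _) = U := by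
  ext x
  simp

theorem ee_induce_univ {V : Type} (G : SimpleGraph V) (U : Finset V) :
    ee (G.induce {v | v ∈ U}) univ univ = ee G U U := by
  rw [RRed_ee (G := G) (Function.Embedding.subtype _) (fun _ _ => Iff.rfl), RRed_univ]

theorem dg_induce_univ {V : Type} (G : SimpleGraph V) (U : Finset V) (v : {v | v ∈ U}) :
    dg (G.induce {v | v ∈ U}) v univ = dg G v.1 U := by
  rw [RRed_dg (G := G) (Function.Embedding.subtype _) (fun _ _ => Iff.rfl), RRed_univ]
  rfl

theorem RRed_even {V : Type} (G : SimpleGraph V) (U : Finset V) : ∃ t, ee G U U = 2 * t := by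
  induction U using Finset.induction_on with
  | empty => exact ⟨0, by rw [ee_empty_left]⟩
  | insert v U hv ih =>
    obtain ⟨t, ht⟩ := ih
    exact ⟨t + dg G v U, by rw [ee_insert_self hv, ht]; ring⟩

theorem RRed_F {n : ℕ} (hn : 3 ≤ n) :
    (n - 1) ^ 2 / 4 + (n - 1) - 2 + (n / 2 + 1) = n ^ 2 / 4 + n - 2 := by
  obtain ⟨m, rfl | rfl⟩ : ∃ m, n = 2 * m ∨ n = 2 * m + 1 := ⟨n / 2, by omega⟩
  · obtain ⟨j, rfl⟩ : ∃ j, m = j + 1 := ⟨m - 1, by omega⟩
    have e1 : (2 * (j + 1) - 1) ^ 2 / 4 = j * j + j := by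
      have e : 2 * (j + 1) - 1 = 2 * j + 1 := by omega
      rw [e]
      have e' : (2 * j + 1) ^ 2 = 4 * (j * j + j) + 1 := by ring
      omega
    have e2 : (2 * (j + 1)) ^ 2 / 4 = j * j + 2 * j + 1 := by
      have e' : (2 * (j + 1)) ^ 2 = 4 * (j * j + 2 * j + 1) := by ring
      omega
    rw [e1, e2]
    omega
  · have e1 : (2 * m + 1 - 1) ^ 2 / 4 = m * m := by
      have e : 2 * m + 1 - 1 = 2 * m := by omega
      rw [e]
      have e' : (2 * m) ^ 2 = 4 * (m * m) := by ring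
      omega
    have e2 : (2 * m + 1) ^ 2 / 4 = m * m + m := by
      have e' : (2 * m + 1) ^ 2 = 4 * (m * m + m) + 1 := by ring
      omega
    rw [e1, e2]
    omega

theorem reduce {n1 : ℕ} (h : ∀ (V : Type) [Fintype V] (G : SimpleGraph V), Geo G →
      n1 ≤ Fintype.card V → (∀ v : V, (Fintype.card V + 1) / 2 + 1 ≤ dg G v univ) →
      ¬ 2 * (Fintype.card V ^ 2 / 4 + Fintype.card V - 1) ≤ ee G univ univ) :
    ∃ N0 : ℕ, ∀ (V : Type) [Fintype V] (G : SimpleGraph V), Geo G → N0 ≤ Fintype.card V →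
      ee G univ univ ≤ 2 * (Fintype.card V ^ 2 / 4 + Fintype.card V - 2) := by
  obtain ⟨n2, hn2, hn4⟩ : ∃ n2, n1 ≤ n2 ∧ 4 ≤ n2 := ⟨max n1 4, le_max_left _ _, le_max_right _ _⟩
  refine ⟨n2 + n2 * n2 + 10, fun V _ G hG hN => ?_⟩
  by_contra hcon
  push Not at hcon
  obtain ⟨t, ht⟩ := RRed_even G (univ : Finset V)
  generalize hNd : Fintype.card V = N at *
  have step : ∀ d, n2 + d ≤ N → ∃ U : Finset V, U.card + d = N ∧
      2 * (U.card ^ 2 / 4 + U.card - 2 + 1 + (N / 2 - U.card / 2)) ≤ ee G U U := by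
    intro d
    induction d with
    | zero =>
      intro _
      refine ⟨univ, by rw [card_univ, hNd, add_zero], ?_⟩
      rw [card_univ, hNd, Nat.sub_self, add_zero]
      omega
    | succ d ih =>
      intro hd
      obtain ⟨U, hU1, hU2⟩ := ih (by omega)
      have hc : Fintype.card {v | v ∈ U} = U.card := by simp
      have h1 := h {v | v ∈ U} (G.induce {v | v ∈ U}) (geo_induce hG U)
      rw [hc, ee_induce_univ] at h1
      have h2 : ¬ ∀ v : {v | v ∈ U}, (U.card + 1) / 2 + 1 ≤ dg (G.induce {v | v ∈ U}) v univ := by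
        intro h3
        exact h1 (by omega) h3 (by omega)
      push Not at h2
      obtain ⟨⟨v, hv⟩, h3⟩ := h2
      rw [dg_induce_univ] at h3
      change dg G v U < (U.card + 1) / 2 + 1 at h3
      have hv' : v ∈ U := hv
      have h4 := ee_erase_self (G := G) hv'
      have h5 := card_erase_of_mem hv'
      refine ⟨U.erase v, by rw [h5]; omega, ?_⟩
      rw [h5]
      have h6 := RRed_F (n := U.card) (by omega)
      omega
  obtain ⟨U, hU1, hU2⟩ := step (N - n2) (by omega)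
  have hU3 : U.card = n2 := by omega
  have h7 := ee_add_mm (G := G) U U
  rw [hU3] at h7 hU2
  omega

end Pool.Agent.Lib.MP_a3b162_co.CS
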