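import Pool.Agent.Lib.MP_a3b162_co.CS.IIbE
import Pool.Agent.Lib.MP_a3b162_co.CS.CutN
import Pool.Agent.Lib.MP_a3b162_co.CS.CutL
import Pool.Agent.Lib.MP_a3b162_co.CS.RPart
import Pool.Agent.Lib.MP_a3b162_co.CS.RRed

/-!
The graph theoretic main theorem: a graph with T0, T1, T2 and `n ≥ N0` vertices has at most
`n^2/4 + n - 2` edges.
-/

set_option autoImplicit false

namespace Pool.Agent.Lib.MP_a3b162_co.CS

open Finset
open scoped Classical

theorem graph_main : ∃ N0 : ℕ, ∀ (V : Type) [Fintype V] (G : SimpleGraph V), Geo G →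
    N0 ≤ Fintype.card V →
      ee G univ univ ≤ 2 * (Fintype.card V ^ 2 / 4 + Fintype.card V - 2) := by
  obtain ⟨η, k1, hη, hcut⟩ := cut_false
  obtain ⟨n1, hpart⟩ := part (η := η / 5) (by positivity)
  refine reduce (n1 := max n1 (2 * max k1 (10 ^ 8) + 4)) ?_
  intro V _ G hG hn hd he
  have hn1 : n1 ≤ Fintype.card V := (le_max_left _ _).trans hn
  have hn2 : 2 * max k1 (10 ^ 8) + 4 ≤ Fintype.card V := (le_max_right _ _).trans hn
  have hk1 : k1 ≤ Fintype.card V / 2 := by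
    have := le_max_left k1 (10 ^ 8)
    omega
  have hk8 : 10 ^ 8 ≤ Fintype.card V / 2 := by
    have := le_max_right k1 (10 ^ 8)
    omega
  have he2 : Fintype.card V ^ 2 ≤ 2 * ee G univ univ := by
    have h1 : Fintype.card V ^ 2 ≤ 4 * (Fintype.card V ^ 2 / 4) + 3 := by omega
    omega
  obtain ⟨A, hA⟩ := hpart V G hG hn1 (by exact_mod_cast he2)
  obtain ⟨X, hX1, hX2, hX3, hX4⟩ := maxcut G A
  have hC := cut_mk hG hX2 hX3 hX4 hd he
  have hsmall : (ee G X X : ℝ) + ee G Xᶜ Xᶜ ≤ η * ((Fintype.card V / 2 : ℕ) : ℝ) ^ 2 := by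
    have h1 : (ee G X X : ℝ) + ee G Xᶜ Xᶜ ≤ (ee G A A : ℝ) + ee G Aᶜ Aᶜ := by exact_mod_cast hX1
    have h2 : (Fintype.card V : ℝ) ≤ 2 * ((Fintype.card V / 2 : ℕ) : ℝ) + 1 := by
      have : Fintype.card V ≤ 2 * (Fintype.card V / 2) + 1 := by omega
      exact_mod_cast this
    have h3 : (10 : ℝ) ^ 8 ≤ ((Fintype.card V / 2 : ℕ) : ℝ) := by exact_mod_cast hk8
    have h4 : (0 : ℝ) ≤ (Fintype.card V : ℝ) := Nat.cast_nonneg _
    have h5 : (Fintype.card V : ℝ) ^ 2 ≤ 5 * ((Fintype.card V / 2 : ℕ) : ℝ) ^ 2 := by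
      nlinarith
    calc _ ≤ η / 5 * (Fintype.card V : ℝ) ^ 2 := h1.trans hA
      _ ≤ η / 5 * (5 * ((Fintype.card V / 2 : ℕ) : ℝ) ^ 2) :=
          mul_le_mul_of_nonneg_left h5 (by positivity)
      _ = _ := by ring
  obtain ⟨hx, hy, hi⟩ := hcut V G X Xᶜ _ _ _ hC hk1 hsmall
  exact near_false (near_of_cut hC hk8 hi hx hy)

end Pool.Agent.Lib.MP_a3b162_co.CS
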