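import Pool.Agent.Lib.MP_a3b162_co.CS.Api

/-!
The near-clean setting: definitions and the symmetry for the balanced case.
-/

set_option autoImplicit false

namespace Pool.Agent.Lib.MP_a3b162_co.CS

open Finset
open scoped Classical

variable {V : Type} {G : SimpleGraph V}

/-- The near-clean setting: `X`, `Y` disjoint, `|X| = k + o + i`, `|Y| = k - i`, `o ≤ 1` the parity,
inner degrees at least `1 + o + i + m(x)` in `X` and `1 - i + m(y)` in `Y`, at least
`2k + o - 1 + m + i^2 + o i` inner edges, `m ≤ k/1000` missing pairs, `i ≤ k/1000`. -/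
structure Near (G : SimpleGraph V) (X Y : Finset V) (k i o : ℕ) : Prop where
  geo : Geo G
  disj : Disjoint X Y
  cX : X.card = k + o + i
  cY : Y.card + i = k
  ho : o ≤ 1
  dX : ∀ x ∈ X, 1 + o + i + (ms G x Y).card ≤ dg G x X
  dY : ∀ y ∈ Y, 1 + (ms G y X).card ≤ dg G y Y + i
  edges : 2 * (2 * k + o + mm G X Y + i * i + o * i) ≤ ee G X X + ee G Y Y + 2
  hk : 10 ^ 8 ≤ k
  hm : 1000 * mm G X Y ≤ k
  hi : 1000 * i ≤ k

/-- the balanced case is symmetric in `X` and `Y` -/
theorem Near.symm {X Y : Finset V} {k : ℕ} (h : Near G X Y k 0 0) : Near G Y X k 0 0 where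
  geo := h.geo
  disj := h.disj.symm
  cX := by have := h.cY; omega
  cY := by have := h.cX; omega
  ho := h.ho
  dX := fun x hx => by have := h.dY x hx; omega
  dY := fun y hy => by have := h.dX y hy; omega
  edges := by have := h.edges; rw [mm_comm Y X]; omega
  hk := h.hk
  hm := by rw [mm_comm Y X]; exact h.hm
  hi := h.hi

end Pool.Agent.Lib.MP_a3b162_co.CS
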