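import Pool.Agent.Lib.MP_a3b162_co.CS.Sm

/-!
MODULE RTri (60 min).  Few triangles.

`cd (u, w)` = number of common neighbours.  `∑_y ee (N y) (N y) = ∑_{(u,w) adjacent} cd (u,w)` (both count
`(y, u, w)` with `y ~ u`, `y ~ w`, `u ~ w`).
`∑_{(u,w) adjacent} cd (cd - 1)(cd - 2)` = number of `(u, w, x1, x2, x3)`, `u ~ w`, `x_i` distinct, all
adjacent to `u` and `w`, `= ∑_{(x1,x2,x3) distinct} ee (N T)(N T) ≤ n³ · 4n` (`t0_weak`).
For `c` natural and real `t ≥ 6`: `c ≤ t + 3 c (c-1)(c-2)/t²` (if `c > t ≥ 6`: `(c-1)(c-2) ≥ (3/8) c² ≥ (3/8) t²`).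
`t = η n / 2`: `∑ cd ≤ n² t + 12 n⁴/t² = η n³/2 + 48 n²/η² ≤ η n³` if `n ≥ 96/η³` and `n ≥ 12/η`.
-/

set_option autoImplicit false

namespace Pool.Agent.Lib.MP_a3b162_co.CS

open Finset
open scoped Classical

/-- the common neighbours of two vertices -/
private noncomputable def rtri_cn {V : Type} [Fintype V] (G : SimpleGraph V) (u w : V) :
    Finset V :=
  univ.filter fun x => G.Adj u x ∧ G.Adj w x

private theorem rtri_num (c : ℕ) {t : ℝ} (ht : 6 ≤ t) :
    (c : ℝ) ≤ t + 3 * ((c * ((c - 1) * (c - 2)) : ℕ) : ℝ) / t ^ 2 := by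
  have ht2 : 0 < t ^ 2 := by positivity
  have h0 : (0 : ℝ) ≤ 3 * ((c * ((c - 1) * (c - 2)) : ℕ) : ℝ) / t ^ 2 := by positivity
  rcases le_or_gt (c : ℝ) t with h | h
  · linarith
  · have h6 : (6 : ℝ) < c := lt_of_le_of_lt ht h
    have h6' : 6 < c := by exact_mod_cast h6
    have e : ((c * ((c - 1) * (c - 2)) : ℕ) : ℝ) = c * ((c - 1) * (c - 2)) := by
      rw [Nat.cast_mul, Nat.cast_mul, Nat.cast_sub (by omega), Nat.cast_sub (by omega)]
      push_cast
      ring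
    rw [e]
    have h1 : (c : ℝ) ≤ 3 * (c * ((c - 1) * (c - 2))) / t ^ 2 := by
      rw [le_div_iff₀ ht2]
      have h2 : t ^ 2 ≤ (c : ℝ) ^ 2 := by nlinarith
      have h3 : (c : ℝ) ^ 2 ≤ 3 * ((c - 1) * (c - 2)) := by nlinarith
      have h4 : (0 : ℝ) ≤ c := by linarith
      calc (c : ℝ) * t ^ 2 ≤ c * (3 * ((c - 1) * (c - 2))) :=
            mul_le_mul_of_nonneg_left (h2.trans h3) h4
        _ = 3 * (c * ((c - 1) * (c - 2))) := by ring
    linarith

/-- the number of triples of different elements -/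
private theorem rtri_triple {V : Type} [Fintype V] (S : Finset V) :
    ∑ q : V × V × V, (if q.1 ≠ q.2.1 ∧ q.1 ≠ q.2.2 ∧ q.2.1 ≠ q.2.2 ∧
      q.1 ∈ S ∧ q.2.1 ∈ S ∧ q.2.2 ∈ S then 1 else 0) = S.card * ((S.card - 1) * (S.card - 2)) := by
  rw [Fintype.sum_prod_type]
  have h1 : ∀ x : V, ∑ r : V × V, (if x ≠ r.1 ∧ x ≠ r.2 ∧ r.1 ≠ r.2 ∧ x ∈ S ∧ r.1 ∈ S ∧ r.2 ∈ S
      then 1 else 0) = if x ∈ S then (S.card - 1) * (S.card - 2) else 0 := by
    intro x
    split_ifs with hx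
    · rw [Fintype.sum_prod_type]
      have h2 : ∀ y : V, ∑ z : V, (if x ≠ y ∧ x ≠ z ∧ y ≠ z ∧ x ∈ S ∧ y ∈ S ∧ z ∈ S
          then 1 else 0) = if y ∈ S.erase x then (S.card - 2) else 0 := by
        intro y
        split_ifs with hy
        · rw [mem_erase] at hy
          have e : (univ.filter fun z => x ≠ y ∧ x ≠ z ∧ y ≠ z ∧ x ∈ S ∧ y ∈ S ∧ z ∈ S) =
              (S.erase x).erase y := by
            ext z
            simp only [mem_filter, mem_univ, true_and, mem_erase]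
            constructor
            · rintro ⟨_, h3, h4, _, _, h5⟩
              exact ⟨h4.symm, h3.symm, h5⟩
            · rintro ⟨h3, h4, h5⟩
              exact ⟨hy.1.symm, h4.symm, h3.symm, hx, hy.2, h5⟩
          rw [← card_filter, e, card_erase_of_mem (mem_erase.2 hy), card_erase_of_mem hx]
          omega
        · refine sum_eq_zero fun z _ => if_neg ?_
          rintro ⟨h3, _, _, _, h5, _⟩
          exact hy (mem_erase.2 ⟨h3.symm, h5⟩)
      rw [sum_congr rfl fun y _ => h2 y, ← sum_filter, filter_mem_eq_inter, univ_inter,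
        sum_const, card_erase_of_mem hx, smul_eq_mul]
    · refine sum_eq_zero fun r _ => if_neg ?_
      rintro ⟨_, _, _, h5, _⟩
      exact hx h5
  rw [sum_congr rfl fun x _ => h1 x, ← sum_filter, filter_mem_eq_inter, univ_inter, sum_const,
    smul_eq_mul]

/-- the number of adjacent pairs in the common neighbourhood of three vertices -/
private theorem rtri_pairs {V : Type} [Fintype V] (G : SimpleGraph V) (N : Finset V) :
    ∑ p : V × V, (if G.Adj p.1 p.2 ∧ p.1 ∈ N ∧ p.2 ∈ N then 1 else 0) = ee G N N := by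
  rw [Fintype.sum_prod_type]
  have h1 : ∀ u : V, ∑ w : V, (if G.Adj u w ∧ u ∈ N ∧ w ∈ N then 1 else 0) =
      if u ∈ N then dg G u N else 0 := by
    intro u
    split_ifs with hu
    · rw [dg_eq_sum, ← card_filter, ← card_filter]
      congr 1
      ext w
      simp only [mem_filter, mem_univ, true_and]
      tauto
    · refine sum_eq_zero fun w _ => if_neg ?_
      rintro ⟨_, h5, _⟩
      exact hu h5
  rw [sum_congr rfl fun x _ => h1 x, ← sum_filter, filter_mem_eq_inter, univ_inter]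
  rfl

theorem tri_few {η : ℝ} (hη : 0 < η) : ∃ n1 : ℕ, ∀ (V : Type) [Fintype V] (G : SimpleGraph V),
    Geo G → n1 ≤ Fintype.card V →
    (∑ y : V, (ee G (nb G y univ) (nb G y univ) : ℝ)) ≤ η * (Fintype.card V : ℝ) ^ 3 := by
  refine ⟨⌈96 / η ^ 3⌉₊ + ⌈12 / η⌉₊ + 1, fun V _ G hG hn => ?_⟩
  set n : ℕ := Fintype.card V with hndef
  have hn1 : 96 / η ^ 3 ≤ (n : ℝ) := by
    have : ((⌈96 / η ^ 3⌉₊ : ℕ) : ℝ) ≤ n := by exact_mod_cast (by omega)
    exact (Nat.le_ceil _).trans this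
  have hn2 : 12 / η ≤ (n : ℝ) := by
    have : ((⌈12 / η⌉₊ : ℕ) : ℝ) ≤ n := by exact_mod_cast (by omega)
    exact (Nat.le_ceil _).trans this
  have hn0 : (0 : ℝ) < n := by
    have : 0 < n := by omega
    exact_mod_cast this
  -- first double counting
  have h1 : ∑ y : V, ee G (nb G y univ) (nb G y univ) =
      ∑ p : V × V, if G.Adj p.1 p.2 then (rtri_cn G p.1 p.2).card else 0 := by
    have e1 : ∀ y : V, ee G (nb G y univ) (nb G y univ) =
        ∑ p : V × V, (if G.Adj p.1 p.2 ∧ p.1 ∈ nb G y univ ∧ p.2 ∈ nb G y univ then 1 else 0) :=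
      fun y => (rtri_pairs G _).symm
    rw [sum_congr rfl fun y _ => e1 y, sum_comm]
    refine sum_congr rfl fun p _ => ?_
    split_ifs with hp
    · rw [rtri_cn, card_filter]
      refine sum_congr rfl fun y _ => ?_
      simp only [hp, true_and, mem_nb, mem_univ, G.adj_comm y]
    · refine sum_eq_zero fun y _ => if_neg ?_
      rintro ⟨h5, _⟩
      exact hp h5
  -- second double counting
  have h2 : ∑ p : V × V, (if G.Adj p.1 p.2 then (rtri_cn G p.1 p.2).card *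
      (((rtri_cn G p.1 p.2).card - 1) * ((rtri_cn G p.1 p.2).card - 2)) else 0) ≤
        n ^ 3 * (4 * n) := by
    have e1 : ∀ p : V × V, (if G.Adj p.1 p.2 then (rtri_cn G p.1 p.2).card *
      (((rtri_cn G p.1 p.2).card - 1) * ((rtri_cn G p.1 p.2).card - 2)) else 0) =
        ∑ q : V × V × V, (if G.Adj p.1 p.2 ∧ (q.1 ≠ q.2.1 ∧ q.1 ≠ q.2.2 ∧ q.2.1 ≠ q.2.2 ∧
          q.1 ∈ rtri_cn G p.1 p.2 ∧ q.2.1 ∈ rtri_cn G p.1 p.2 ∧ q.2.2 ∈ rtri_cn G p.1 p.2)
            then 1 else 0) := by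
      intro p
      split_ifs with hp
      · rw [← rtri_triple]
        refine sum_congr rfl fun q _ => ?_
        simp only [hp, true_and]
      · symm
        refine sum_eq_zero fun q _ => if_neg ?_
        rintro ⟨h5, _⟩
        exact hp h5
    rw [sum_congr rfl fun p _ => e1 p, sum_comm]
    have e2 : ∀ q : V × V × V, ∑ p : V × V, (if G.Adj p.1 p.2 ∧ (q.1 ≠ q.2.1 ∧ q.1 ≠ q.2.2 ∧
        q.2.1 ≠ q.2.2 ∧ q.1 ∈ rtri_cn G p.1 p.2 ∧ q.2.1 ∈ rtri_cn G p.1 p.2 ∧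
          q.2.2 ∈ rtri_cn G p.1 p.2) then 1 else 0) ≤ 4 * n := by
      intro q
      by_cases hq : q.1 ≠ q.2.1 ∧ q.1 ≠ q.2.2 ∧ q.2.1 ≠ q.2.2
      · have hT := t0_weak hG hq.1 hq.2.1 hq.2.2
          (Z := univ.filter fun z => G.Adj q.1 z ∧ G.Adj q.2.1 z ∧ G.Adj q.2.2 z)
          (fun z hz => (mem_filter.1 hz).2)
        rw [← rtri_pairs] at hT
        refine le_trans (le_of_eq ?_) (hT.trans (Nat.mul_le_mul_left 4 (card_le_univ _)))
        refine sum_congr rfl fun p _ => ?_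
        congr 1
        simp only [rtri_cn, mem_filter, mem_univ, true_and, eq_iff_iff]
        constructor
        · rintro ⟨a, ⟨b, c, d, ⟨x1, x2⟩, ⟨x3, x4⟩, x5, x6⟩⟩
          exact ⟨a, ⟨x1.symm, x3.symm, x5.symm⟩, x2.symm, x4.symm, x6.symm⟩
        · rintro ⟨a, ⟨x1, x3, x5⟩, x2, x4, x6⟩
          exact ⟨a, hq.1, hq.2.1, hq.2.2, ⟨x1.symm, x2.symm⟩, ⟨x3.symm, x4.symm⟩, x5.symm,
            x6.symm⟩
      · refine le_of_eq_of_le (sum_eq_zero fun p _ => if_neg ?_) (Nat.zero_le _)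
        rintro ⟨_, a, b, c, _⟩
        exact hq ⟨a, b, c⟩
    refine (sum_le_sum fun q _ => e2 q).trans ?_
    rw [sum_const, card_univ, Fintype.card_prod, Fintype.card_prod, smul_eq_mul, ← hndef]
    exact le_of_eq (by ring)
  -- the estimate
  set t : ℝ := η * n / 2 with ht
  have ht6 : 6 ≤ t := by
    rw [div_le_iff₀ hη] at hn2
    rw [ht]
    linarith
  have h3 : (∑ y : V, (ee G (nb G y univ) (nb G y univ) : ℝ)) =
      ∑ p : V × V, if G.Adj p.1 p.2 then ((rtri_cn G p.1 p.2).card : ℝ) else 0 := by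
    have := congrArg (fun k : ℕ => (k : ℝ)) h1
    push_cast at this
    exact this
  have h4 : (∑ p : V × V, if G.Adj p.1 p.2 then ((rtri_cn G p.1 p.2).card : ℝ) else 0) ≤
      ∑ p : V × V, (t + 3 * (((if G.Adj p.1 p.2 then (rtri_cn G p.1 p.2).card *
        (((rtri_cn G p.1 p.2).card - 1) * ((rtri_cn G p.1 p.2).card - 2)) else 0) : ℕ) : ℝ) /
          t ^ 2) := by
    refine sum_le_sum fun p _ => ?_
    split_ifs with hp
    · exact rtri_num _ ht6
    · simp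
      linarith
  rw [h3]
  refine h4.trans ?_
  rw [sum_add_distrib, sum_const, card_univ, Fintype.card_prod, nsmul_eq_mul, ← hndef,
    ← sum_div, ← mul_sum, ← Nat.cast_sum]
  have h5 : ((∑ p : V × V, (if G.Adj p.1 p.2 then (rtri_cn G p.1 p.2).card *
      (((rtri_cn G p.1 p.2).card - 1) * ((rtri_cn G p.1 p.2).card - 2)) else 0) : ℕ) : ℝ) ≤
        (n : ℝ) ^ 3 * (4 * n) := by exact_mod_cast h2
  have ht2 : 0 < t ^ 2 := by positivity
  have h6 : 3 * ((∑ p : V × V, (if G.Adj p.1 p.2 then (rtri_cn G p.1 p.2).card *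
      (((rtri_cn G p.1 p.2).card - 1) * ((rtri_cn G p.1 p.2).card - 2)) else 0) : ℕ) : ℝ) /
        t ^ 2 ≤ 3 * ((n : ℝ) ^ 3 * (4 * n)) / t ^ 2 :=
    div_le_div_of_nonneg_right (mul_le_mul_of_nonneg_left h5 (by norm_num)) ht2.le
  have h7 : 3 * ((n : ℝ) ^ 3 * (4 * n)) / t ^ 2 ≤ η * (n : ℝ) ^ 3 / 2 := by
    rw [div_le_iff₀ ht2, ht]
    have h8 : 96 ≤ η ^ 3 * n := by
      rw [div_le_iff₀ (by positivity)] at hn1
      linarith
    have h9 : (0 : ℝ) ≤ (n : ℝ) ^ 4 := by positivity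
    nlinarith
  have h10 : ((n * n : ℕ) : ℝ) * t = η * (n : ℝ) ^ 3 / 2 := by
    rw [ht]
    push_cast
    ring
  rw [h10]
  linarith

end Pool.Agent.Lib.MP_a3b162_co.CS
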