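import Pool.Agent.Lib.MP_a3b162_co.CS.NDefs

/-!
MODULE Tools (40 min).  T0, T1, T2 for triples of clean vertices of `X` (`X`, `Y` disjoint).
All are direct applications of `Geo`; `cl G X Y` = vertices of `X` adjacent to all of `Y` (`mem_cl`).

* `tool_t0`: three distinct clean vertices of `X` (`two_lt_card`), T0 for `Z = W ⊆ Y`.
* `tool_t0'`: the same with the weak bound, all `W` (for `|W| ≤ 1`: `ee G W W = 0`).
* `tool_hub`: `c ∈ X` with three clean neighbours `x1 x2 x3` (`two_lt_dg`), T0 with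
  `Z = insert c Y` (`c ∉ Y`; `ee_insert_self`, `dg_add_ms`).
* `tool_edge`: a clean edge `x1 x2` and a third clean vertex (exists by `3 ≤ |cl|`), T1 with `Z = Y`.
* `tool_edge_hub`: clean `x1 x2`, adjacent, all of `x1 x2 x3` clean and adjacent to `c ∈ X`:
  T1 with `Z = insert c Y`.
* `tool_path`: clean `x1 ≠ x2`, `c ∈ X`, path `x1 - c - x2`: T2 with `Z ⊆ nb G c Y`.
-/

set_option autoImplicit false

namespace Pool.Agent.Lib.MP_a3b162_co.CS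

open Finset
open scoped Classical

variable {V : Type} {G : SimpleGraph V} {X Y : Finset V}

theorem tool_t0 (hG : Geo G) (h3 : 3 ≤ (cl G X Y).card) {W : Finset V} (hW : W ⊆ Y)
    (h2 : 2 ≤ W.card) : ee G W W + 6 ≤ 4 * W.card := by
  obtain ⟨a, ha, b, hb, c, hc, hab, hac, hbc⟩ :=
    two_lt_card.1 (show 2 < (cl G X Y).card from h3)
  refine hG.t0 a b c hab hac hbc W (fun z hz => ?_) h2
  exact ⟨(mem_cl.1 ha).2 z (hW hz), (mem_cl.1 hb).2 z (hW hz), (mem_cl.1 hc).2 z (hW hz)⟩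

theorem tool_t0' (hG : Geo G) (h3 : 3 ≤ (cl G X Y).card) {W : Finset V} (hW : W ⊆ Y) :
    ee G W W ≤ 4 * W.card := by
  by_cases h2 : 2 ≤ W.card
  · have := tool_t0 hG h3 hW h2
    omega
  · have h1 : ee G W W ≤ W.card * W.card := by
      have := ee_add_mm (G := G) W W
      omega
    have h4 : W.card * W.card ≤ 1 * W.card := Nat.mul_le_mul_right _ (by omega)
    omega

theorem tool_hub (hG : Geo G) (hd : Disjoint X Y) {c : V} (hc : c ∈ X)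
    (h3 : 3 ≤ dg G c (cl G X Y)) (hY : Y.Nonempty) :
    ee G Y Y + 2 ≤ 2 * Y.card + 2 * (ms G c Y).card := by
  obtain ⟨x1, h1, x2, h2, x3, h3', h12, h13, h23, a1, a2, a3⟩ := two_lt_dg h3
  have hcY : c ∉ Y := fun h => disjoint_left.1 hd hc h
  have hpos : 1 ≤ Y.card := card_pos.2 hY
  have hcard : (insert c Y).card = Y.card + 1 := card_insert_of_notMem hcY
  have h0 := hG.t0 x1 x2 x3 h12 h13 h23 (insert c Y) (fun z hz => by
    rcases mem_insert.1 hz with rfl | hz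
    · exact ⟨a1.symm, a2.symm, a3.symm⟩
    · exact ⟨(mem_cl.1 h1).2 z hz, (mem_cl.1 h2).2 z hz, (mem_cl.1 h3').2 z hz⟩)
    (by omega)
  rw [ee_insert_self hcY, hcard] at h0
  have h4 := dg_add_ms (G := G) c Y
  omega

theorem tool_edge (hG : Geo G) {x1 x2 : V} (h1 : x1 ∈ cl G X Y) (h2 : x2 ∈ cl G X Y)
    (ha : G.Adj x1 x2) (h3 : 3 ≤ (cl G X Y).card) : ee G Y Y ≤ 2 * Y.card := by
  obtain ⟨x3, hx3, hn⟩ : ∃ x3 ∈ cl G X Y, x3 ∉ ({x1, x2} : Finset V) := by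
    by_contra hcon
    push Not at hcon
    have hsub : cl G X Y ⊆ {x1, x2} := fun x hx => hcon x hx
    have := card_le_card hsub
    have := card_le_two (a := x1) (b := x2)
    omega
  rw [mem_insert, mem_singleton, not_or] at hn
  refine hG.t1 x1 x2 x3 ha (Ne.symm hn.1) (Ne.symm hn.2) Y (fun z hz => ?_)
  exact ⟨(mem_cl.1 h1).2 z hz, (mem_cl.1 h2).2 z hz, (mem_cl.1 hx3).2 z hz⟩

theorem tool_edge_hub (hG : Geo G) (hd : Disjoint X Y) {x1 x2 x3 c : V} (h1 : x1 ∈ cl G X Y)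
    (h2 : x2 ∈ cl G X Y) (h3 : x3 ∈ cl G X Y) (hc : c ∈ X) (ha : G.Adj x1 x2) (h13 : x1 ≠ x3)
    (h23 : x2 ≠ x3) (hc1 : G.Adj c x1) (hc2 : G.Adj c x2) (hc3 : G.Adj c x3) :
    ee G Y Y + 2 * dg G c Y ≤ 2 * (Y.card + 1) := by
  have hcY : c ∉ Y := fun h => disjoint_left.1 hd hc h
  have h0 := hG.t1 x1 x2 x3 ha h13 h23 (insert c Y) (fun z hz => by
    rcases mem_insert.1 hz with rfl | hz
    · exact ⟨hc1.symm, hc2.symm, hc3.symm⟩
    · exact ⟨(mem_cl.1 h1).2 z hz, (mem_cl.1 h2).2 z hz, (mem_cl.1 h3).2 z hz⟩)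
  rw [ee_insert_self hcY, card_insert_of_notMem hcY] at h0
  exact h0

theorem tool_path (hG : Geo G) {x1 x2 c : V} (h1 : x1 ∈ cl G X Y) (h2 : x2 ∈ cl G X Y)
    (ha : G.Adj x1 c) (hb : G.Adj c x2) (hne : x1 ≠ x2) :
    (∀ Z ⊆ nb G c Y, Z.Nonempty → ee G Z Z + 2 ≤ 2 * Z.card) ∧
    ∃ C ⊆ nb G c Y, C.card ≤ 4 ∧ ∀ a ∈ nb G c Y, ∀ b ∈ nb G c Y, G.Adj a b → a ∈ C ∨ b ∈ C := by
  have key : ∀ z ∈ nb G c Y, G.Adj x1 z ∧ G.Adj c z ∧ G.Adj x2 z := fun z hz =>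
    ⟨(mem_cl.1 h1).2 z (mem_nb.1 hz).1, (mem_nb.1 hz).2, (mem_cl.1 h2).2 z (mem_nb.1 hz).1⟩
  exact ⟨fun Z hZ hne' => hG.t2 x1 c x2 ha hb hne Z (fun z hz => key z (hZ hz)) hne',
    hG.t2c x1 c x2 ha hb hne (nb G c Y) key⟩

end Pool.Agent.Lib.MP_a3b162_co.CS
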